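import Mathlib

set_option autoImplicit false

namespace Pool.Agent.H93.RecDefs

open Topology

/-- Number of elements of A in the interval from m to m + N. -/
noncomputable def card (A : Set ℕ) (m N : ℕ) : ℝ := ((A ∩ Set.Icc m (m + N)).ncard : ℕ)

/-- Positive lower density. -/
def LowPos (A : Set ℕ) : Prop :=
  ∃ δ : ℝ, 0 < δ ∧ ∃ N₀ : ℕ, ∀ N : ℕ, N₀ ≤ N → δ * (N + 1) ≤ card A 0 N

/-- Positive upper density. -/
def UpPos (A : Set ℕ) : Prop :=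
  ∃ δ : ℝ, 0 < δ ∧ ∀ N₀ : ℕ, ∃ N : ℕ, N₀ ≤ N ∧ δ * (N + 1) ≤ card A 0 N

/-- Positive upper Banach density. -/
def BanPos (A : Set ℕ) : Prop :=
  ∃ δ : ℝ, 0 < δ ∧ ∀ N : ℕ, ∃ m : ℕ, δ * (N + 1) ≤ card A m N

/-- Syndetic: bounded gaps. -/
def Synd (A : Set ℕ) : Prop := ∃ g : ℕ, ∀ m : ℕ, ∃ n ∈ A, m ≤ n ∧ n ≤ m + g

/-- Points all of whose return sets belong to the family F. -/
def Rec (F : Set ℕ → Prop) {X : Type*} [TopologicalSpace X] (T : X → X) : Set X :=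
  {x | ∀ U ∈ 𝓝 x, F {n | T^[n] x ∈ U}}

end Pool.Agent.H93.RecDefs
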