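import Mathlib

set_option autoImplicit false

namespace Pool.Agent.H93.RecDefs

/-- A meets every set of finite sums of a sequence of positive integers. -/
def IPStar (A : Set ℕ) : Prop :=
  ∀ y : ℕ → ℕ, (∀ k, 0 < y k) → ∃ F : Finset ℕ, F.Nonempty ∧ ∑ k ∈ F, y k ∈ A

/-- A meets every set of differences of an infinite set. -/
def DeltaStar (A : Set ℕ) : Prop :=
  ∀ B : Set ℕ, B.Infinite → ∃ a ∈ B, ∃ b ∈ B, a < b ∧ b - a ∈ A

end Pool.Agent.H93.RecDefs
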