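import Mathlib
import Pool.Agent.H93.RecDefs
import Pool.Agent.H93.RecDefs2

set_option autoImplicit false

namespace Pool.Agent.H93

open Finset RecDefs Topology

lemma ip_of_class (G : Set ℕ → Prop)
    (hG : ∀ B, G B → ∃ y, 0 < y ∧ y ∈ B ∧ G (B ∩ {n | n + y ∈ B})) (B₀ : Set ℕ) (h₀ : G B₀) :
    ∃ y : ℕ → ℕ, (∀ k, 0 < y k) ∧ ∀ F : Finset ℕ, F.Nonempty → ∑ k ∈ F, y k ∈ B₀ := by
  choose Y h1 h2 h3 using hG
  let s : ℕ → {B // G B} := fun k => Nat.rec ⟨B₀, h₀⟩ (fun _ B => ⟨_, h3 B.1 B.2⟩) k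
  have hs : ∀ k, (s (k + 1)).1 = (s k).1 ∩ {n | n + Y _ (s k).2 ∈ (s k).1} := fun k => rfl
  have anti : Antitone (fun k => (s k).1) := antitone_nat_of_succ_le (fun k => by
    simp only [hs]; exact Set.inter_subset_left)
  refine ⟨fun k => Y _ (s k).2, fun k => h1 _ _, fun F hF => ?_⟩
  have key : ∀ F : Finset ℕ, F.Nonempty → ∀ i, (∀ k ∈ F, i ≤ k) →
      ∑ k ∈ F, Y _ (s k).2 ∈ (s i).1 := by
    intro F
    induction F using Finset.induction_on_min with
    | empty => intro h; simp at h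
    | insert m F hm ih =>
      intro _ i hi
      refine anti (hi m (mem_insert_self _ _)) ?_
      rw [sum_insert (fun h => lt_irrefl _ (hm m h))]
      rcases F.eq_empty_or_nonempty with rfl | hF
      · simpa using h2 _ (s m).2
      · have := ih hF (m + 1) hm
        rw [hs] at this
        rw [add_comm]; exact this.2
  exact key F hF 0 (fun _ _ => Nat.zero_le _)

lemma ip_synd {A : Set ℕ} (h : IPStar A) : Synd A := by
  by_contra hn
  simp only [Synd, not_exists, not_forall, not_and] at hn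
  obtain ⟨y, h1, h2⟩ := ip_of_class (fun B => ∀ g, ∃ m, ∀ n, m ≤ n → n ≤ m + g → n ∈ B)
    (fun B hB => by
      obtain ⟨m, hm⟩ := hB 1
      refine ⟨m + 1, by omega, hm _ (by omega) le_rfl, fun g => ?_⟩
      obtain ⟨k, hk⟩ := hB (g + (m + 1))
      exact ⟨k, fun n a b => ⟨hk n a (by omega), hk _ (by omega) (by omega)⟩⟩) Aᶜ
    (fun g => (hn g).imp (fun m hm n a b c => hm n c a b))
  obtain ⟨F, a, b⟩ := h y h1
  exact h2 F a b

lemma delta_ip {A : Set ℕ} (h : DeltaStar A) : IPStar A := by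
  intro y hy
  have hm : StrictMono (fun n => ∑ k ∈ range n, y k) :=
    strictMono_nat_of_lt_succ (fun n => by rw [sum_range_succ]; have := hy n; omega)
  obtain ⟨_, ⟨i, rfl⟩, _, ⟨j, rfl⟩, h1, h2⟩ := h _ (Set.infinite_range_of_injective hm.injective)
  have hij := hm.lt_iff_lt.1 h1
  refine ⟨Ico i j, nonempty_Ico.2 hij, ?_⟩
  simp only at h2
  rw [← sum_range_add_sum_Ico y hij.le, Nat.add_sub_cancel_left] at h2
  exact h2

lemma bdd_of_synd {𝕜 X : Type*} [NontriviallyNormedField 𝕜] [NormedAddCommGroup X]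
    [NormedSpace 𝕜 X] (T : X →L[𝕜] X) {x : X} (hx : x ∈ Rec Synd T) :
    ∃ C, 0 < C ∧ ∀ n, ‖(T ^ n) x‖ ≤ C := by
  obtain ⟨g, hg⟩ := hx _ (Metric.ball_mem_nhds x one_pos)
  refine ⟨(∑ i ∈ range (g + 1), ‖T ^ i‖) * (‖x‖ + 1) + 1, by positivity, fun n => ?_⟩
  obtain ⟨m, i, hi, rfl, h⟩ : ∃ m i, i ≤ g ∧ n = i + m ∧ ‖(T ^ m) x‖ ≤ ‖x‖ + 1 := by
    rcases le_total n g with h | h
    · exact ⟨0, n, h, rfl, by simp⟩
    · obtain ⟨m, h1, h2, h3⟩ := hg (n - g)
      refine ⟨m, n - m, by omega, by omega, ?_⟩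
      have h4 := mem_ball_iff_norm.1 h1
      rw [← FunLike.coe_pow_eq_iterate] at h4
      linarith [norm_sub_norm_le ((T ^ m) x) x]
  rw [pow_add, mul_apply_eq_comp]
  refine ((T ^ i).le_opNorm _).trans (le_trans (mul_le_mul ?_ h (norm_nonneg _) (by positivity))
    (le_add_of_nonneg_right zero_le_one))
  exact single_le_sum (f := fun i => ‖T ^ i‖) (fun _ _ => norm_nonneg _) (mem_range.2 (by omega))

lemma orbit_space {Z : Type} [NormedAddCommGroup Z] [NormedSpace ℝ Z] (T : Z →L[ℝ] Z) (a : Z)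
    (a_ur : ∀ ε : ℝ, 0 < ε → Synd {n | ‖(T ^ n) a - a‖ < ε}) (K : Submodule ℝ Z)
    (hK : IsClosed (K : Set Z)) (hKa : ∀ n, (T ^ n) a ∈ K) :
    ∃ (X : Submodule ℝ Z) (S : X →L[ℝ] X), IsClosed (X : Set Z) ∧ a ∈ X ∧ X ≤ K ∧
      (∀ (n : ℕ) (x : X), ((S^[n] x : X) : Z) = (T ^ n) x) ∧ Dense (Rec Synd S) := by
  let D : Submodule ℝ Z := Submodule.span ℝ (Set.range fun n : ℕ => (T ^ n) a)
  have hD : ∀ x ∈ D, T x ∈ D := by
    intro x hx
    refine Submodule.span_induction (p := fun x _ => T x ∈ D) ?_ (by simp) (fun x y _ _ h1 h2 => ?_)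
      (fun c x _ h => ?_) hx
    · rintro _ ⟨n, rfl⟩
      exact Submodule.subset_span ⟨n + 1, by simp [pow_succ']⟩
    · rw [map_add]; exact D.add_mem h1 h2
    · rw [map_smul]; exact D.smul_mem c h
  have hX : ∀ x ∈ D.topologicalClosure, T x ∈ D.topologicalClosure := fun x hx =>
    map_mem_closure T.continuous hx hD
  have hp : ∀ (n : ℕ) (x : D.topologicalClosure),
      (((T.restrict hX)^[n] x : D.topologicalClosure) : Z) = (T ^ n) x := by
    intro n x
    induction n with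
    | zero => rfl
    | succ n ih => rw [Function.iterate_succ_apply', pow_succ', mul_apply_eq_comp, ← ih]; rfl
  have hb : ∀ x ∈ D, ∃ C, 0 < C ∧ ∀ n : ℕ, ‖(T ^ n) x - x‖ ≤ C * ‖(T ^ n) a - a‖ := by
    intro x hx
    refine Submodule.span_induction (p := fun x _ => ∃ C, 0 < C ∧ ∀ n : ℕ,
      ‖(T ^ n) x - x‖ ≤ C * ‖(T ^ n) a - a‖) ?_ ⟨1, one_pos, by simp⟩ ?_ ?_ hx
    · rintro _ ⟨k, rfl⟩
      refine ⟨‖T ^ k‖ + 1, by positivity, fun n => ?_⟩
      rw [← mul_apply_eq_comp, pow_mul_comm, mul_apply_eq_comp, ← map_sub]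
      nlinarith [(T ^ k).le_opNorm ((T ^ n) a - a), norm_nonneg ((T ^ n) a - a)]
    · rintro x y _ _ ⟨C, hC, h1⟩ ⟨C', hC', h2⟩
      refine ⟨C + C', by positivity, fun n => ?_⟩
      rw [map_add, add_sub_add_comm, add_mul]
      exact (norm_add_le _ _).trans (add_le_add (h1 n) (h2 n))
    · rintro c x _ ⟨C, hC, h1⟩
      refine ⟨(‖c‖ + 1) * C, by positivity, fun n => ?_⟩
      rw [map_smul, ← smul_sub, norm_smul, mul_assoc]
      exact mul_le_mul (by linarith) (h1 n) (norm_nonneg _) (by positivity)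
  refine ⟨D.topologicalClosure, T.restrict hX, D.isClosed_topologicalClosure,
    D.le_topologicalClosure (Submodule.subset_span ⟨0, rfl⟩),
    D.topologicalClosure_minimal (Submodule.span_le.2 (by rintro _ ⟨n, rfl⟩; exact hKa n)) hK, hp, ?_⟩
  refine Subtype.dense_iff.2 (closure_mono fun x hx => ⟨⟨x, D.le_topologicalClosure hx⟩, ?_, rfl⟩)
  intro U hU
  obtain ⟨ε, hε, hU⟩ := Metric.mem_nhds_iff.1 hU
  obtain ⟨C, hC, h1⟩ := hb x hx
  obtain ⟨m, hm⟩ := a_ur (ε / C) (by positivity)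
  refine ⟨m, fun k => ?_⟩
  obtain ⟨n, h4, h2⟩ := hm k
  refine ⟨n, hU (mem_ball_iff_norm.2 ?_), h2⟩
  rw [← Submodule.norm_coe, Submodule.coe_sub, hp]
  exact (h1 n).trans_lt ((lt_div_iff₀' hC).1 h4)

lemma maurey {ι : Type*} [Fintype ι] (μ : ι → ℝ) (w : ι → ℕ → ℝ) (A : ℕ → ℕ → ℝ) (N : ℕ)
    (hA : ∀ o k, |A o k| ≤ 1) (hw : ∀ i, μ i ≠ 0 → ∃ o, ∀ k < N, w i k = A o k) (d : ℕ) :
    ∃ (o : Fin d → ℕ) (σ : Fin d → ℝ), ∑ k ∈ range N,
      (d * ∑ i, μ i * w i k - ∑ j, σ j * A (o j) k) ^ 2 ≤ d * (∑ i, |μ i|) ^ 2 * N := by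
  by_cases h0 : ∀ i, μ i = 0
  · exact ⟨0, 0, by simp [h0]⟩
  push Not at h0
  set M := ∑ i, |μ i| with hM
  have hM0 : 0 ≤ M := by positivity
  induction d with
  | zero => exact ⟨0, 0, by simp⟩
  | succ d ih =>
    obtain ⟨o, σ, h⟩ := ih
    set R := fun k => d * ∑ i, μ i * w i k - ∑ j, σ j * A (o j) k
    have hs : ∀ i, |μ i| * SignType.sign (μ i) = μ i := fun i => abs_mul_sign _
    obtain ⟨i, hi, h1⟩ : ∃ i, μ i ≠ 0 ∧ ∑ k ∈ range N, (R k + ∑ i, μ i * w i k -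
        M * SignType.sign (μ i) * w i k) ^ 2 ≤ ∑ k ∈ range N, (R k ^ 2 + M ^ 2) := by
      by_contra hn
      push Not at hn
      refine lt_irrefl _ ((sum_lt_sum (s := univ) (f := fun i => |μ i| * ∑ k ∈ range N,
        (R k ^ 2 + M ^ 2)) (g := fun i => |μ i| * ∑ k ∈ range N, (R k + ∑ i, μ i * w i k -
        M * SignType.sign (μ i) * w i k) ^ 2) (fun i _ => ?_) (h0.imp fun i hi =>
          ⟨mem_univ _, mul_lt_mul_of_pos_left (hn i hi) (abs_pos.2 hi)⟩)).trans_le ?_)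
      · by_cases hi : μ i = 0
        · simp [hi]
        · exact mul_le_mul_of_nonneg_left (hn i hi).le (abs_nonneg _)
      simp only [mul_sum]
      rw [sum_comm, sum_comm (s := univ)]
      refine sum_le_sum (fun k hk => ?_)
      set y := ∑ i, μ i * w i k with hy
      have : ∀ i, |μ i| * (R k + y - M * SignType.sign (μ i) * w i k) ^ 2 ≤
          |μ i| * ((R k + y) ^ 2 + M ^ 2) - 2 * M * (R k + y) * (μ i * w i k) := by
        intro i
        by_cases hi : μ i = 0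
        · simp [hi]
        obtain ⟨o, ho⟩ := hw i hi
        have a1 : (w i k) ^ 2 ≤ 1 := by
          rw [ho k (mem_range.1 hk)]; exact (sq_le_one_iff_abs_le_one _).2 (hA _ _)
        have a2 : (SignType.sign (μ i) : ℝ) ^ 2 = 1 := by
          rcases lt_or_gt_of_ne hi with h | h <;> simp [h]
        have a3 : |μ i| * (R k + y - M * SignType.sign (μ i) * w i k) ^ 2 = |μ i| * (R k + y) ^ 2 -
            2 * M * (R k + y) * (|μ i| * SignType.sign (μ i) * w i k) +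
            |μ i| * M ^ 2 * (SignType.sign (μ i) : ℝ) ^ 2 * w i k ^ 2 := by ring
        rw [a3, hs, a2]
        nlinarith [mul_le_mul_of_nonneg_left a1 (by positivity : 0 ≤ |μ i| * M ^ 2)]
      refine (sum_le_sum (fun i _ => this i)).trans ?_
      rw [sum_sub_distrib, ← sum_mul, ← mul_sum, ← sum_mul, ← hM, ← hy]
      nlinarith [mul_nonneg hM0 (sq_nonneg y)]
    obtain ⟨p, hp⟩ := hw i hi
    refine ⟨Fin.cons p o, Fin.cons (M * SignType.sign (μ i)) σ, le_of_eq_of_le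
      (sum_congr rfl fun k hk => ?_) (h1.trans ?_)⟩
    · rw [Fin.sum_univ_succ, hp k (mem_range.1 hk)]
      simp only [Fin.cons_zero, Fin.cons_succ, R]
      push_cast; ring
    · rw [sum_add_distrib, sum_const, card_range, nsmul_eq_mul]
      push_cast; linarith

end Pool.Agent.H93
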