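import Mathlib
import Pool.Agent.H93.IPL

set_option autoImplicit false

namespace Pool.Agent.H93.UF

open Filter Topology Set RecDefs

attribute [local instance] Ultrafilter.add Ultrafilter.addSemigroup

section gen

variable {M : Type*} [AddSemigroup M]

lemma mem_add {p q : Ultrafilter M} {A : Set M} :
    A ∈ p + q ↔ ∀ᶠ m in p, ∀ᶠ n in q, m + n ∈ A := Ultrafilter.eventually_add p q (· ∈ A)

/-- closed left ideals -/
structure LI (L : Set (Ultrafilter M)) : Prop where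
  ne : L.Nonempty
  cl : IsClosed L
  add : ∀ q, ∀ p ∈ L, q + p ∈ L

/-- minimal left ideals -/
structure MinLI (L : Set (Ultrafilter M)) : Prop extends LI L where
  min : ∀ p ∈ L, ∀ p' ∈ L, ∃ q ∈ L, q + p = p'

lemma LI.exists_min {L₀ : Set (Ultrafilter M)} (h₀ : LI L₀) : ∃ L ⊆ L₀, MinLI L := by
  obtain ⟨L, hL, hm⟩ := zorn_superset_nonempty {L : Set (Ultrafilter M) | LI L} (fun c hc hch hne => by
    refine ⟨⋂₀ c, ⟨?_, isClosed_sInter (fun L h => (hc h).cl),
      fun q p hp L h => (hc h).add q p (hp L h)⟩, fun L h => sInter_subset_of_mem h⟩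
    have := hne.coe_sort
    exact IsCompact.nonempty_sInter_of_directed_nonempty_isCompact_isClosed
      (IsChain.directedOn hch.symm) (fun L h => (hc h).ne) (fun L h => (hc h).cl.isCompact)
      (fun L h => (hc h).cl)) L₀ h₀
  have h : LI L := hm.prop
  refine ⟨L, hL, h, fun p hp p' hp' => ?_⟩
  have h1 : LI ((· + p) '' L) := ⟨h.ne.image _,
    (h.cl.isCompact.image (Ultrafilter.continuous_add_left p)).isClosed, by
      rintro q _ ⟨q', hq', rfl⟩
      exact ⟨q + q', h.add _ _ hq', add_assoc _ _ _⟩⟩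
  exact hm.le_of_le h1 (by rintro _ ⟨q, -, rfl⟩; exact h.add q p hp) hp'

lemma MinLI.idem {L : Set (Ultrafilter M)} (h : MinLI L) {e : Ultrafilter M} (he : e ∈ L) :
    ∃ v ∈ L, v + v = v ∧ v + e = e := by
  obtain ⟨v, hv, h1⟩ := exists_idempotent_in_compact_add_subsemigroup
    Ultrafilter.continuous_add_left (L ∩ {v | v + e = e}) (h.min e he e he)
    (h.cl.inter (isClosed_eq (Ultrafilter.continuous_add_left e) continuous_const)).isCompact
    (fun a ha b hb => ⟨h.add _ _ hb.1, by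
      have h1 : a + e = e := ha.2
      have h2 : b + e = e := hb.2
      change a + b + e = e
      rw [add_assoc, h2, h1]⟩)
  exact ⟨v, hv.1, h1, hv.2⟩

lemma MinLI.equiv {L : Set (Ultrafilter M)} (h : MinLI L) {w : Ultrafilter M} (hw : w + w = w) :
    ∃ u ∈ L, u + u = u ∧ w + u = u := by
  obtain ⟨e, he⟩ := h.ne
  obtain ⟨v, hv, h1, -⟩ := h.idem he
  obtain ⟨t, ht, h2⟩ := h.min (w + v) (h.add _ _ hv) v hv
  obtain ⟨t', -, h3⟩ := h.min v hv t ht
  have h4 : t + v = t := by rw [← h3, add_assoc, h1]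
  refine ⟨w + (v + t), h.add _ _ (h.add _ _ ht), ?_, by rw [← add_assoc, ← add_assoc, hw, add_assoc]⟩
  calc _ = w + (v + ((t + (w + v)) + t)) := by simp only [add_assoc]
    _ = _ := by rw [h2, ← add_assoc v, h1]

lemma tendsto_add {Y : Type*} [TopologicalSpace Y] [RegularSpace Y] {p q : Ultrafilter M}
    {f a : M → Y} {c : Y} (h1 : ∀ m, Tendsto (fun n => f (m + n)) q (𝓝 (a m))) :
    Tendsto f (p + q : Ultrafilter M) (𝓝 c) ↔ Tendsto a p (𝓝 c) := by
  constructor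
  · intro h
    refine (closed_nhds_basis c).tendsto_right_iff.2 (fun U hU => ?_)
    filter_upwards [mem_add.1 (h hU.1)] with m hm using hU.2.mem_of_tendsto (h1 m) hm
  · intro h
    refine (nhds_basis_opens c).tendsto_right_iff.2 (fun U hU => mem_add.2 ?_)
    filter_upwards [h (hU.2.mem_nhds hU.1)] with m hm using h1 m (hU.2.mem_nhds hm)

end gen

lemma MinLI.bdd {L : Set (Ultrafilter ℕ)} (h : MinLI L) {p : Ultrafilter ℕ} (hp : p ∈ L)
    {A : Set ℕ} (hA : A ∈ p) : ∃ g, ∀ q ∈ L, ∃ b ≤ g, ∀ᶠ n in q, b + n ∈ A := by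
  obtain ⟨t, ht⟩ := h.cl.isCompact.elim_finite_subcover
    (fun b : ℕ => {q : Ultrafilter ℕ | {n | b + n ∈ A} ∈ q}) (fun b => ultrafilter_isOpen_basic _)
    (fun q hq => by
      obtain ⟨q', -, rfl⟩ := h.min q hq p hp
      exact mem_iUnion.2 (mem_add.1 hA).exists)
  refine ⟨t.sup id, fun q hq => ?_⟩
  obtain ⟨b, hb, h1⟩ := mem_iUnion₂.1 (ht hq)
  exact ⟨b, Finset.le_sup (f := id) hb, h1⟩

lemma synd_ult {A : Set ℕ} (hA : Synd A) (p : Ultrafilter ℕ) : ∃ b, ∀ᶠ n in p, b + n ∈ A := by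
  obtain ⟨g, hg⟩ := hA
  obtain ⟨b, -, hb⟩ := (Ultrafilter.eventually_exists_mem_iff (f := p) (finite_Iic g)
    (P := fun b n => b + n ∈ A)).1 (Eventually.of_forall fun m => by
      obtain ⟨n, h1, h2, h3⟩ := hg m
      exact ⟨n - m, by simp; omega, by rwa [Nat.sub_add_cancel h2]⟩)
  exact ⟨b, hb⟩

lemma pure_add {b : ℕ} {p : Ultrafilter ℕ} {A : Set ℕ} :
    A ∈ (pure b : Ultrafilter ℕ) + p ↔ ∀ᶠ n in p, b + n ∈ A := mem_add

theorem up {ι X : Type*} [Countable ι] [MetricSpace X] [CompleteSpace X] {T : X → X}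
    (hT : Continuous T) (x : ι → X) (hx : ∀ i, x i ∈ Rec Synd T) :
    ∃ y : ι → X, y ∈ Rec Synd (fun (v : ι → X) i => T (v i)) ∧
      ∀ i, x i ∈ closure (range fun n => T^[n] (y i)) := by
  obtain ⟨L, -, hL⟩ := LI.exists_min (M := ℕ) (L₀ := univ) ⟨univ_nonempty, isClosed_univ, by simp⟩
  have : CompactSpace L := isCompact_iff_compactSpace.1 hL.cl.isCompact
  have := hL.ne.to_subtype
  let G : ι × ℕ → Set L := fun j => Subtype.val ⁻¹' ⋃ z, {p : Ultrafilter ℕ |
    {n | T^[n] (x j.1) ∈ Metric.ball z (1 / (j.2 + 1))} ∈ p}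
  obtain ⟨p, hp⟩ := (dense_iInter_of_isOpen (f := G) (fun j => (isOpen_iUnion fun z =>
    ultrafilter_isOpen_basic _).preimage continuous_subtype_val) (fun j => by
      refine dense_iff_inter_open.2 (fun O hO ⟨p, hp⟩ => ?_)
      obtain ⟨O', hO', rfl⟩ := isOpen_induced_iff.1 hO
      obtain ⟨_, ⟨A, rfl⟩, hA, hA'⟩ := ultrafilterBasis_is_basis.isOpen_iff.1 hO' p hp
      obtain ⟨g, hg⟩ := hL.bdd p.2 hA
      have hU : ∀ᶠ z in 𝓝 (x j.1), ∀ b ∈ Iic g,
          T^[b] z ∈ Metric.ball (T^[b] (x j.1)) (1 / (j.2 + 1)) :=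
        (eventually_all_finite (finite_Iic g)).2 (fun b _ => (hT.iterate b).continuousAt
          (Metric.ball_mem_nhds _ (by positivity)))
      obtain ⟨c, hc⟩ := synd_ult (hx j.1 _ hU) p
      obtain ⟨b, hb, h1⟩ := hg _ (hL.add (pure c) p p.2)
      have h2 : ∀ᶠ n in (p : Ultrafilter ℕ), b + (c + n) ∈ A := pure_add.1 h1
      refine ⟨⟨pure (b + c) + p, hL.add _ _ p.2⟩, hA' (pure_add.2 (by simpa only [add_assoc] using h2)),
        mem_iUnion.2 ⟨T^[b] (x j.1), pure_add.2 (hc.mono fun n hn => ?_)⟩⟩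
      simpa only [mem_ofPred_eq, add_assoc, Function.iterate_add_apply T b] using hn b hb)).nonempty
  have h1 : ∀ i, ∃ y, Tendsto (fun n => T^[n] (x i)) (p : Ultrafilter ℕ) (𝓝 y) := fun i =>
    CompleteSpace.complete (Metric.cauchy_iff.2 ⟨map_neBot, fun ε hε => by
      obtain ⟨k, hk⟩ := exists_nat_one_div_lt (half_pos hε)
      obtain ⟨z, hz⟩ := mem_iUnion.1 (mem_iInter.1 hp (i, k))
      exact ⟨Metric.ball z (1 / (k + 1)), hz, fun a ha b hb => by
        linarith [dist_triangle_right a b z, Metric.mem_ball.1 ha, Metric.mem_ball.1 hb]⟩⟩)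
  choose y hy using h1
  have e : ∀ (n : ℕ) (v : ι → X), (fun (v : ι → X) i => T (v i))^[n] v = fun i => T^[n] (v i) := by
    intro n v
    induction n with
    | zero => rfl
    | succ n ih => simp only [Function.iterate_succ_apply', ih]
  have h2 : ∀ b i, Tendsto (fun n => T^[b + n] (x i)) (p : Ultrafilter ℕ) (𝓝 (T^[b] (y i))) :=
    fun b i => by simpa only [Function.iterate_add_apply, Function.comp_def] using ((hT.iterate b).tendsto _).comp (hy i)
  refine ⟨y, fun U hU => ?_, fun i => ?_⟩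
  · obtain ⟨V, hV, hVU⟩ := (closed_nhds_basis y).mem_iff.1 hU
    obtain ⟨g, hg⟩ := hL.bdd p.2 (tendsto_pi_nhds.2 hy hV.1)
    refine ⟨g, fun m => ?_⟩
    obtain ⟨b, hb, h3⟩ := hg _ (hL.add (pure m) p p.2)
    have h4 : ∀ᶠ n in (p : Ultrafilter ℕ), (fun i => T^[b + (m + n)] (x i)) ∈ V := pure_add.1 h3
    refine ⟨b + m, hVU ?_, by omega, by omega⟩
    rw [e]
    exact hV.2.mem_of_tendsto (tendsto_pi_nhds.2 (h2 (b + m))) (by simpa only [add_assoc] using h4)
  · refine (mem_closure_iff_nhds_basis' (nhds_basis_opens _)).2 (fun U hU => ?_)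
    obtain ⟨V, hV, hVU⟩ := (closed_nhds_basis _).mem_iff.1 (hU.2.mem_nhds hU.1)
    obtain ⟨b, hb⟩ := synd_ult (hx i V hV.1) p
    exact ⟨_, hVU (hV.2.mem_of_tendsto (h2 b i) hb), b, rfl⟩

end Pool.Agent.H93.UF
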