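import Mathlib
import Pool.Agent.H93.UF

set_option autoImplicit false

namespace Pool.Agent.H93

open Filter Topology Set RecDefs

universe u

/-- the joint recurrence property of a family -/
def Joint (F : Set ℕ → Prop) : Prop :=
  ∀ (ι : Type) [Countable ι] (X : Type u) [MetricSpace X] [CompleteSpace X] (T : X → X),
    Continuous T → ∀ x : ι → X, (∀ i, x i ∈ Rec F T) →
    ∃ y : ι → X, y ∈ Rec F (fun (v : ι → X) i => T (v i)) ∧
      ∀ i, x i ∈ closure (range fun n => T^[n] (y i))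

lemma joint_synd : Joint.{u} Synd := fun _ _ _ _ _ _ hT x hx => UF.up hT x hx

lemma rec_map {F : Set ℕ → Prop} {X Y : Type*} [TopologicalSpace X] [TopologicalSpace Y]
    {S : X → X} {T : Y → Y} {φ : X → Y} (hφ : Continuous φ) (h : Function.Semiconj φ S T) {x : X}
    (hx : x ∈ Rec F S) : φ x ∈ Rec F T := fun U hU => by
  simpa only [mem_preimage, (h.iterate_right _).eq] using
    hx _ (hφ.continuousAt.preimage_mem_nhds hU)

lemma Joint.sum {F : Set ℕ → Prop} (hF : Joint.{u} F) {X : Type u} [TopologicalSpace X]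
    [TopologicalSpace.IsCompletelyMetrizableSpace X] {T : X → X} (hT : Continuous T)
    (h : Dense (Rec F T)) (n : ℕ) : Dense (Rec F (fun (v : Fin n → X) i => T (v i))) := by
  let _ := TopologicalSpace.upgradeIsCompletelyMetrizable X
  refine dense_iff_inter_open.2 (fun O hO ⟨v, hv⟩ => ?_)
  obtain ⟨U, hU, hUO⟩ := isOpen_pi_iff'.1 hO v hv
  choose x hx1 hx2 using fun i => h.inter_open_nonempty _ (hU i).1 ⟨_, (hU i).2⟩
  obtain ⟨y, hy1, hy2⟩ := hF _ X T hT x hx2
  choose z hz1 b hb using fun i => mem_closure_iff.1 (hy2 i) _ (hU i).1 (hx1 i)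
  refine ⟨fun i => T^[b i] (y i), hUO (fun i _ => by simpa only [← hb] using hz1 i),
    rec_map (φ := fun (v : Fin n → X) i => T^[b i] (v i))
      (continuous_pi fun i => (hT.iterate _).comp (continuous_apply i)) (fun v => funext fun i => ?_) hy1⟩
  exact Function.iterate_succ_apply' T _ _

lemma Joint.lin {F : Set ℕ → Prop} (hF : Joint.{u} F) {𝕜 : Type*} [Semiring 𝕜] [TopologicalSpace 𝕜]
    {X : Type u} [AddCommMonoid X] [Module 𝕜 X] [TopologicalSpace X] [ContinuousAdd X]
    [ContinuousSMul 𝕜 X] [TopologicalSpace.IsCompletelyMetrizableSpace X]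
    [TopologicalSpace.SeparableSpace X] (T : X →L[𝕜] X) (h : Dense (Rec F T)) :
    ∃ M : Submodule 𝕜 X, Dense (M : Set X) ∧ (M : Set X) ⊆ Rec F T := by
  let _ := TopologicalSpace.upgradeIsCompletelyMetrizable X
  obtain ⟨t, ht1, ht2, ht3⟩ := h.exists_countable_dense_subset
  obtain ⟨x, rfl⟩ := ht2.exists_eq_range ht3.nonempty
  obtain ⟨y, hy1, hy2⟩ := hF _ X T T.continuous x (fun i => ht1 (mem_range_self i))
  refine ⟨Submodule.span 𝕜 (range fun j : ℕ × ℕ => T^[j.2] (y j.1)), ?_, fun v hv => ?_⟩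
  · refine Dense.of_closure (ht3.mono ?_)
    rintro _ ⟨i, rfl⟩
    refine closure_mono ?_ (hy2 i)
    rintro _ ⟨n, rfl⟩
    exact Submodule.subset_span ⟨(i, n), rfl⟩
  · obtain ⟨φ, h1, h2, rfl⟩ : ∃ φ : (ℕ → X) → X, Continuous φ ∧
        Function.Semiconj φ (fun (v : ℕ → X) i => T (v i)) T ∧ φ y = v := by
      refine Submodule.span_induction (p := fun v _ => ∃ φ : (ℕ → X) → X, Continuous φ ∧
        Function.Semiconj φ (fun (v : ℕ → X) i => T (v i)) T ∧ φ y = v) ?_
        ⟨0, continuous_const, fun v => by simp, rfl⟩ ?_ ?_ hv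
      · rintro _ ⟨j, rfl⟩
        exact ⟨fun v => T^[j.2] (v j.1), (T.continuous.iterate _).comp (continuous_apply _),
          fun v => Function.iterate_succ_apply' T _ _, rfl⟩
      · rintro _ _ _ _ ⟨φ, h1, h2, rfl⟩ ⟨ψ, h3, h4, rfl⟩
        exact ⟨φ + ψ, h1.add h3, fun v => by simp [h2.eq, h4.eq], rfl⟩
      · rintro c _ _ ⟨φ, h1, h2, rfl⟩
        exact ⟨c • φ, h1.const_smul c, fun v => by simp [h2.eq], rfl⟩
    exact rec_map h1 h2 hy1

end Pool.Agent.H93
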