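import Mathlib

open Filter Topology Set Metric

namespace H93.Bak

/-- digit value -/
def bv (b : Bool) : ℤ := if b then 1 else 0

theorem bv_cases (b : Bool) : bv b = 0 ∨ bv b = 1 := by cases b <;> simp [bv]
theorem bv_inj {b c : Bool} (h : bv b = bv c) : b = c := by
  cases b <;> cases c <;> simp_all [bv]

/-- finite word read from a sequence -/
def word (s : ℤ → Bool) : ℤ → ℕ → List Bool
  | _, 0 => []
  | a, n + 1 => s a :: word s (a + 1) n

theorem word_len (s : ℤ → Bool) (n : ℕ) : ∀ a, (word s a n).length = n := by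
  induction n with
  | zero => intro a; rfl
  | succ n ih => intro a; simp [word, ih]

theorem word_add (s : ℤ → Bool) (m n : ℕ) : ∀ a, word s a (n + m) = word s a n ++ word s (a + n) m := by
  induction n with
  | zero => intro a; simp [word]
  | succ n ih =>
    intro a
    rw [show n + 1 + m = (n + m) + 1 by omega]
    simp only [word, List.cons_append, ih]
    congr 3
    push_cast; ring

theorem word_congr {s s' : ℤ → Bool} (n : ℕ) : ∀ a a', word s a n = word s' a' n ↔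
    ∀ j : ℕ, j < n → s (a + j) = s' (a' + j) := by
  induction n with
  | zero => intro a a'; simp [word]
  | succ n ih =>
    intro a a'
    simp only [word, List.cons.injEq, ih]
    constructor
    · rintro ⟨h1, h2⟩ j hj
      rcases j with _ | j
      · simpa using h1
      · have := h2 j (by omega)
        push_cast
        rwa [show a + 1 + j = a + (j + 1) by ring, show a' + 1 + j = a' + (j + 1) by ring] at this
    · intro h
      refine ⟨by simpa using h 0 (by omega), fun j hj => ?_⟩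
      have := h (j + 1) (by omega)
      push_cast at this
      rwa [show a + 1 + j = a + (j + 1) by ring, show a' + 1 + j = a' + (j + 1) by ring]

/-- big-endian value -/
def vx : List Bool → ℤ
  | [] => 0
  | b :: w => bv b * 2 ^ w.length + vx w

/-- little-endian value -/
def vy : List Bool → ℤ
  | [] => 0
  | b :: w => bv b + 2 * vy w

theorem vx_bd (w : List Bool) : 0 ≤ vx w ∧ vx w < 2 ^ w.length := by
  induction w with
  | nil => simp [vx]
  | cons b w ih =>
    simp only [vx, List.length_cons, pow_succ]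
    rcases bv_cases b with h | h <;> rw [h] <;> constructor <;> linarith [ih.1, ih.2]

theorem vx_inj (w : List Bool) : ∀ w' : List Bool, w.length = w'.length → vx w = vx w' → w = w' := by
  induction w with
  | nil => intro w' h _; exact (List.length_eq_zero_iff.1 h.symm).symm
  | cons b w ih =>
    intro w' h1 h2
    rcases w' with _ | ⟨c, w'⟩
    · simp at h1
    · simp only [List.length_cons, add_left_inj] at h1
      simp only [vx, ← h1] at h2
      have h3 := vx_bd w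
      have h4 := vx_bd w'
      rw [← h1] at h4
      have : bv b = bv c := by
        rcases bv_cases b with h | h <;> rcases bv_cases c with h' | h' <;> rw [h, h'] at h2 ⊢ <;>
          linarith [h3.1, h3.2, h4.1, h4.2]
      rw [this] at h2
      rw [bv_inj this, ih w' h1 (by linarith)]

theorem vy_inj (w : List Bool) : ∀ w' : List Bool, w.length = w'.length → vy w = vy w' → w = w' := by
  induction w with
  | nil => intro w' h _; exact (List.length_eq_zero_iff.1 h.symm).symm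
  | cons b w ih =>
    intro w' h1 h2
    rcases w' with _ | ⟨c, w'⟩
    · simp at h1
    · simp only [List.length_cons, add_left_inj] at h1
      simp only [vy] at h2
      have : bv b = bv c := by
        rcases bv_cases b with h | h <;> rcases bv_cases c with h' | h' <;> omega
      rw [bv_inj this, ih w' h1 (by omega)]

/-- an orbit with its digits -/
def Orb (o : ℤ → ℝ × ℝ) (s : ℤ → Bool) : Prop :=
  (∀ n, o n ∈ Icc (0 : ℝ) 1 ×ˢ Icc (0 : ℝ) 1) ∧
    ∀ n, o (n + 1) = (2 * (o n).1 - bv (s n), ((o n).2 + bv (s n)) / 2)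

theorem Orb.fx {o s} (h : Orb o s) (r : ℕ) :
    ∀ a, 2 ^ r * (o a).1 = vx (word s a r) + (o (a + r)).1 := by
  induction r with
  | zero => intro a; simp [word, vx]
  | succ r ih =>
    intro a
    have h1 := ih (a + 1)
    rw [h.2 a] at h1
    simp only [word, vx, word_len]
    push_cast
    rw [show a + (r + 1) = a + 1 + r by ring, pow_succ]
    linarith

theorem Orb.fy {o s} (h : Orb o s) (r : ℕ) :
    ∀ a, 2 ^ r * (o (a + r)).2 = vy (word s a r) + (o a).2 := by
  induction r with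
  | zero => intro a; simp [word, vy]
  | succ r ih =>
    intro a
    have h1 := ih (a + 1)
    rw [h.2 a] at h1
    simp only [word, vy]
    push_cast
    rw [show a + (r + 1) = a + 1 + r by ring, pow_succ]
    linarith

theorem close {o s o' s'} (h : Orb o s) (h' : Orb o' s') {a a' : ℤ} {r : ℕ}
    (hw : word s a (r + r) = word s' a' (r + r)) : dist (o (a + r)) (o' (a' + r)) ≤ 1 / 2 ^ r := by
  rw [word_add, word_add] at hw
  obtain ⟨h1, h2⟩ := List.append_inj hw (by rw [word_len, word_len])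
  have x1 := h.fx r (a + r)
  have x2 := h'.fx r (a' + r)
  have y1 := h.fy r a
  have y2 := h'.fy r a'
  rw [h2] at x1
  rw [h1] at y1
  obtain ⟨⟨p1, p2⟩, -⟩ := h.1 (a + r + r)
  obtain ⟨⟨p3, p4⟩, -⟩ := h'.1 (a' + r + r)
  obtain ⟨-, q1, q2⟩ := h.1 a
  obtain ⟨-, q3, q4⟩ := h'.1 a'
  have hp : (0 : ℝ) < 2 ^ r := by positivity
  rw [Prod.dist_eq, max_le_iff, Real.dist_eq, Real.dist_eq, le_div_iff₀ hp, le_div_iff₀ hp,
    ← abs_of_pos hp, ← abs_mul, ← abs_mul, abs_le, abs_le]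
  refine ⟨⟨?_, ?_⟩, ?_, ?_⟩ <;> linarith

theorem sum_half : HasSum (fun j : ℕ => (1 : ℝ) / 2 ^ (j + 1)) 1 := by
  have := hasSum_geometric_two' 1
  have e : (fun j : ℕ => (1 : ℝ) / 2 ^ (j + 1)) = fun n : ℕ => (1 : ℝ) / 2 / 2 ^ n := by
    funext j; rw [pow_succ]; ring
  rw [e]; exact this

theorem dig_le (b : Bool) (j : ℕ) : (0 : ℝ) ≤ bv b / 2 ^ (j + 1) ∧
    (bv b : ℝ) / 2 ^ (j + 1) ≤ 1 / 2 ^ (j + 1) := by
  rcases bv_cases b with h | h <;> rw [h] <;> simp

theorem dig_summ (t : ℕ → Bool) : Summable fun j : ℕ => (bv (t j) : ℝ) / 2 ^ (j + 1) :=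
  Summable.of_nonneg_of_le (fun j => (dig_le _ j).1) (fun j => (dig_le _ j).2) sum_half.summable

/-- binary value of a one-sided sequence -/
noncomputable def val (t : ℕ → Bool) : ℝ := ∑' j : ℕ, (bv (t j) : ℝ) / 2 ^ (j + 1)

theorem val_mem (t : ℕ → Bool) : val t ∈ Icc (0 : ℝ) 1 :=
  ⟨tsum_nonneg fun j => (dig_le _ j).1, by
    rw [← sum_half.tsum_eq]
    exact (dig_summ t).tsum_le_tsum (fun j => (dig_le _ j).2) sum_half.summable⟩

theorem val_lt (t : ℕ → Bool) (j : ℕ) (h : t j = false) : val t < 1 := by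
  rw [← sum_half.tsum_eq]
  exact (dig_summ t).tsum_lt_tsum (i := j) (fun j => (dig_le _ j).2) (by simp [h, bv])
    sum_half.summable

theorem val_succ (t : ℕ → Bool) : val t = (bv (t 0) + val fun j => t (j + 1)) / 2 := by
  unfold val
  rw [(dig_summ t).tsum_eq_zero_add, add_div, ← tsum_div_const]
  congr 1
  · norm_num
  · congr 1; funext j; rw [pow_succ _ (j + 1)]; field_simp

/-- the point coded by a two-sided sequence -/
noncomputable def code (s : ℤ → Bool) (n : ℤ) : ℝ × ℝ :=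
  (val fun j => s (n + j), val fun j => s (n - 1 - j))

theorem orb_code (s : ℤ → Bool) : Orb (code s) s := by
  refine ⟨fun n => ⟨val_mem _, val_mem _⟩, fun n => ?_⟩
  have h1 := val_succ fun j => s (n + j)
  have h2 := val_succ fun j => s (n - j)
  have e1 : (fun j : ℕ => s (n + ((j + 1 : ℕ) : ℤ))) = fun j : ℕ => s (n + 1 + j) := by
    funext j; congr 1; push_cast; ring
  have e2 : (fun j : ℕ => s (n - ((j + 1 : ℕ) : ℤ))) = fun j : ℕ => s (n - 1 - j) := by
    funext j; congr 1; push_cast; ring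
  simp only [e1, e2, Nat.cast_zero, add_zero, sub_zero] at h1 h2
  simp only [code, add_sub_cancel_right]
  rw [h1, h2]
  congr 1 <;> ring

theorem anti {α : Type*} (A L : Set α) (hL : L.Finite) (U V : α → α) (I J : α → ℤ)
    (hU : ∀ w ∈ A, U w ∈ L) (hd : ∀ w ∈ A, ∀ w' ∈ A, U w = U w' → I w = I w' → w = w') :
    {w ∈ A | ¬ ∃ w' ∈ A, U w' = U w ∧ I w + 4 ≤ I w'}.ncard ≤ 4 * L.ncard := by
  have h := ncard_le_ncard_of_injOn (s := {w ∈ A | ¬ ∃ w' ∈ A, U w' = U w ∧ I w + 4 ≤ I w'})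
    (t := L ×ˢ ({0, 1, 2, 3} : Set ℤ)) (fun w => (U w, I w % 4))
    (fun w hw => ⟨hU w hw.1, by simp only [mem_insert_iff, mem_singleton_iff]; omega⟩)
    (fun w hw w' hw' he => by
      simp only [Prod.mk.injEq] at he
      refine hd w hw.1 w' hw'.1 he.1 ?_
      have h1 : ¬ (I w + 4 ≤ I w') := fun h => hw.2 ⟨w', hw'.1, he.1.symm, h⟩
      have h2 : ¬ (I w' + 4 ≤ I w) := fun h => hw'.2 ⟨w, hw.1, he.1, h⟩
      omega) (hL.prod (toFinite _))
  rw [ncard_prod] at h
  have : ({0, 1, 2, 3} : Set ℤ).ncard = 4 := by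
    rw [ncard_insert_of_notMem (by simp), ncard_insert_of_notMem (by simp),
      ncard_insert_of_notMem (by simp), ncard_singleton]
  rw [this] at h
  have := V; have := J
  omega

theorem anti2 {α : Type*} (A L : Set α) (hA : A.Finite) (hL : L.Finite) (U V : α → α)
    (I J : α → ℤ) (hU : ∀ w ∈ A, U w ∈ L) (hV : ∀ w ∈ A, V w ∈ L)
    (hd : ∀ w ∈ A, ∀ w' ∈ A, U w = U w' → I w = I w' → w = w')
    (hd' : ∀ w ∈ A, ∀ w' ∈ A, V w = V w' → J w = J w' → w = w')
    (hI : ∀ w w', V w = V w' → I w = I w') (hJ : ∀ w w', U w = U w' → J w = J w')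
    (ha : ∀ w ∈ A, ∀ w' ∈ A, ¬ (I w' + 4 ≤ I w ∧ J w' + 4 ≤ J w)) : A.ncard ≤ 8 * L.ncard := by
  have h1 := anti A L hL U V I J hU hd
  set B := {w ∈ A | ∃ w' ∈ A, U w' = U w ∧ I w + 4 ≤ I w'} with hB
  have h2 := anti B L hL V U (fun w => -J w) I (fun w hw => hV w hw.1)
    (fun w hw w' hw' a b => hd' w hw.1 w' hw'.1 a (by omega))
  have h3 : {w ∈ B | ¬ ∃ w' ∈ B, V w' = V w ∧ -J w + 4 ≤ -J w'} = B := by
    refine sep_eq_self_iff_mem_true.2 ?_
    rintro w ⟨hw, z, hz, h4, h5⟩ ⟨w', hw', h6, h7⟩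
    refine ha z hz w' hw'.1 ⟨?_, ?_⟩
    · rw [hI w' w h6]; exact h5
    · rw [hJ z w h4]; omega
  rw [h3] at h2
  have h4 : A ⊆ {w ∈ A | ¬ ∃ w' ∈ A, U w' = U w ∧ I w + 4 ≤ I w'} ∪ B := fun w hw => by
    by_cases h : ∃ w' ∈ A, U w' = U w ∧ I w + 4 ≤ I w'
    · exact Or.inr ⟨hw, h⟩
    · exact Or.inl ⟨hw, h⟩
  have h5 := (ncard_le_ncard h4 ((hA.subset (sep_subset _ _)).union
    (hA.subset (sep_subset _ _)))).trans (ncard_union_le _ _)
  omega

variable (G : Set (ℝ × ℝ))

/-- surviving orbit -/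
def Surv (o : ℤ → ℝ × ℝ) (s : ℤ → Bool) : Prop := Orb o s ∧ ∀ n, o n ∉ G
/-- surviving words -/
def Lw (n : ℕ) : Set (List Bool) := {w | ∃ o s a, Surv G o s ∧ w = word s a n}
/-- closeness to the hole -/
def Near (z : ℝ × ℝ) (r : ℕ) : Prop := ∃ g ∈ G, dist z g ≤ 2 / 2 ^ r
/-- windows centred near the hole -/
def Nw (r : ℕ) : Set (List Bool) :=
  {w | ∃ o s a, Surv G o s ∧ w = word s a (r + r) ∧ Near G (o (a + r)) r}

theorem fin_of {A : Set (List Bool)} {n : ℕ} (h : ∀ w ∈ A, w.length = n) : A.Finite :=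
  (List.finite_length_eq Bool n).subset h

theorem Lw_fin (n : ℕ) : (Lw G n).Finite := fin_of (n := n) (by
  rintro _ ⟨o, s, a, -, rfl⟩; exact word_len _ _ _)

theorem Nw_fin (n : ℕ) : (Nw G n).Finite := fin_of (n := n + n) (by
  rintro _ ⟨o, s, a, -, rfl, -⟩; exact word_len _ _ _)

theorem Nw_le (hc : Convex ℝ G) (ho : IsOpen G) (r : ℕ) : (Nw G r).ncard ≤ 32 * (Lw G r).ncard := by
  let A : ℤ → ℤ → Set (List Bool) := fun σ τ => {w | ∃ o s a, Surv G o s ∧ w = word s a (r + r) ∧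
    Near G (o (a + r)) r ∧ ∀ g ∈ G, ¬ (σ * (o (a + r)).1 ≤ σ * g.1 ∧ τ * (o (a + r)).2 ≤ τ * g.2)}
  have hfin : ∀ σ τ, (A σ τ).Finite := fun σ τ => fin_of (n := r + r) (by
    rintro _ ⟨o, s, a, -, rfl, -⟩; exact word_len _ _ _)
  have ht : ∀ s a, (word s a (r + r)).take r = word s a r := fun s a => by
    rw [word_add, List.take_left' (word_len _ _ _)]
  have hdr : ∀ s a, (word s a (r + r)).drop r = word s (a + r) r := fun s a => by
    rw [word_add, List.drop_left' (word_len _ _ _)]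
  have hA : ∀ σ τ : ℤ, (σ = 1 ∨ σ = -1) → (τ = 1 ∨ τ = -1) →
      (A σ τ).ncard ≤ 8 * (Lw G r).ncard := by
    intro σ τ hσ hτ
    refine anti2 (A σ τ) (Lw G r) (hfin σ τ) (Lw_fin G r) (List.take r) (List.drop r)
      (fun w => σ * vx (w.drop r)) (fun w => τ * vy (w.take r)) ?_ ?_ ?_ ?_
      (fun w w' h => by simp only [h]) (fun w w' h => by simp only [h]) ?_
    · rintro _ ⟨o, s, a, h, rfl, -⟩; exact ⟨o, s, a, h, ht s a⟩
    · rintro _ ⟨o, s, a, h, rfl, -⟩; exact ⟨o, s, a + r, h, hdr s a⟩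
    · rintro _ ⟨o, s, a, h, rfl, -⟩ _ ⟨o', s', a', h', rfl, -⟩ h1 h2
      rw [← List.take_append_drop r (word s a (r + r)), ← List.take_append_drop r (word s' a' (r + r)),
        h1, vx_inj (List.drop r (word s a (r + r))) (List.drop r (word s' a' (r + r)))
          (by simp [word_len]) (by rcases hσ with h | h <;> rw [h] at h2 <;> omega)]
    · rintro _ ⟨o, s, a, h, rfl, -⟩ _ ⟨o', s', a', h', rfl, -⟩ h1 h2
      rw [← List.take_append_drop r (word s a (r + r)), ← List.take_append_drop r (word s' a' (r + r)),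
        h1, vy_inj (List.take r (word s a (r + r))) (List.take r (word s' a' (r + r)))
          (by simp [word_len]) (by rcases hτ with h | h <;> rw [h] at h2 <;> omega)]
    · rintro _ ⟨o, s, a, h, rfl, ⟨g, hg, hd⟩, -⟩ _ ⟨o', s', a', h', rfl, -, hn⟩ ⟨h1, h2⟩
      simp only [ht, hdr] at h1 h2
      have x1 := h.1.fx r (a + r)
      have x2 := h'.1.fx r (a' + r)
      have y1 := h.1.fy r a
      have y2 := h'.1.fy r a'
      obtain ⟨⟨p1, p2⟩, -⟩ := h.1.1 (a + r + r)
      obtain ⟨⟨p3, p4⟩, -⟩ := h'.1.1 (a' + r + r)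
      obtain ⟨-, q1, q2⟩ := h.1.1 a
      obtain ⟨-, q3, q4⟩ := h'.1.1 a'
      have hp : (0 : ℝ) < 2 ^ r := by positivity
      rw [Prod.dist_eq, max_le_iff, Real.dist_eq, Real.dist_eq, le_div_iff₀ hp, le_div_iff₀ hp,
        ← abs_of_pos hp, ← abs_mul, ← abs_mul, abs_le, abs_le] at hd
      obtain ⟨⟨d1, d2⟩, d3, d4⟩ := hd
      have r1 : (σ : ℝ) * vx (word s' (a' + r) r) + 4 ≤ σ * vx (word s (a + r) r) := by
        exact_mod_cast h1
      have r2 : (τ : ℝ) * vy (word s' a' r) + 4 ≤ τ * vy (word s a r) := by exact_mod_cast h2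
      refine hn g hg ⟨le_of_mul_le_mul_right (a := 2 ^ r) ?_ hp, le_of_mul_le_mul_right (a := 2 ^ r) ?_ hp⟩
      · rcases hσ with h | h <;> rw [h] at r1 ⊢ <;> push_cast at r1 ⊢ <;> linarith
      · rcases hτ with h | h <;> rw [h] at r2 ⊢ <;> push_cast at r2 ⊢ <;> linarith
  have hsub : Nw G r ⊆ (A 1 1 ∪ A 1 (-1)) ∪ (A (-1) 1 ∪ A (-1) (-1)) := by
    rintro _ ⟨o, s, a, h, rfl, hn⟩
    obtain ⟨f, hf⟩ := geometric_hahn_banach_open_point hc ho (h.2 (a + r))
    have hf2 : ∀ p : ℝ × ℝ, f p = p.1 * f (1, 0) + p.2 * f (0, 1) := fun p => by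
      have : p = p.1 • ((1 : ℝ), (0 : ℝ)) + p.2 • ((0 : ℝ), (1 : ℝ)) := by ext <;> simp
      conv_lhs => rw [this]
      rw [map_add, map_smul, map_smul]; rfl
    have hf3 : ∀ g ∈ G, g.1 * f (1, 0) + g.2 * f (0, 1) <
        (o (a + r)).1 * f (1, 0) + (o (a + r)).2 * f (0, 1) := fun g hg => by
      rw [← hf2, ← hf2]; exact hf g hg
    rcases le_total 0 (f (1, 0)) with h1 | h1 <;> rcases le_total 0 (f (0, 1)) with h2 | h2
    · refine Or.inl (Or.inl ⟨o, s, a, h, rfl, hn, fun g hg ⟨u, v⟩ => ?_⟩)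
      push_cast at u v; nlinarith [hf3 g hg]
    · refine Or.inl (Or.inr ⟨o, s, a, h, rfl, hn, fun g hg ⟨u, v⟩ => ?_⟩)
      push_cast at u v; nlinarith [hf3 g hg]
    · refine Or.inr (Or.inl ⟨o, s, a, h, rfl, hn, fun g hg ⟨u, v⟩ => ?_⟩)
      push_cast at u v; nlinarith [hf3 g hg]
    · refine Or.inr (Or.inr ⟨o, s, a, h, rfl, hn, fun g hg ⟨u, v⟩ => ?_⟩)
      push_cast at u v; nlinarith [hf3 g hg]
  have h1 := (ncard_le_ncard hsub (((hfin _ _).union (hfin _ _)).union
    ((hfin _ _).union (hfin _ _)))).trans (ncard_union_le _ _)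
  have h2 := ncard_union_le (A 1 1) (A 1 (-1))
  have h3 := ncard_union_le (A (-1) 1) (A (-1) (-1))
  have := hA 1 1 (Or.inl rfl) (Or.inl rfl)
  have := hA 1 (-1) (Or.inl rfl) (Or.inr rfl)
  have := hA (-1) 1 (Or.inr rfl) (Or.inl rfl)
  have := hA (-1) (-1) (Or.inr rfl) (Or.inr rfl)
  omega

end H93.Bak
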