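import Pool.Agent.H93.Bak1

open Filter Topology Set Metric MeasureTheory
open scoped ENNReal

namespace H93.Bak

variable (G : Set (ℝ × ℝ))

/-- every periodic coded orbit meets the closure -/
def Trap : Prop := ∀ (s : ℤ → Bool) (q : ℕ), 0 < q → (∀ n, s (n + q) = s n) →
  ∃ n, code s n ∈ closure G

theorem near_mono {z : ℝ × ℝ} {r r' : ℕ} (h : Near G z r) (hr : r' ≤ r) : Near G z r' := by
  obtain ⟨g, hg, hd⟩ := h
  exact ⟨g, hg, hd.trans (div_le_div_of_nonneg_left (by norm_num) (by positivity)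
    (pow_le_pow_right₀ (by norm_num) hr))⟩

theorem closing (hT : Trap G) {o s} (h : Orb o s) {a b : ℤ} {k : ℕ} (hab : a < b)
    (hw : word s (a - k) (k + k) = word s (b - k) (k + k)) :
    ∃ i, a ≤ i ∧ i < b ∧ ∃ r : ℕ, (r : ℤ) = min (i - a) (b - i) + k ∧ Near G (o i) r := by
  obtain ⟨q, hq⟩ := Int.eq_ofNat_of_zero_le (show 0 ≤ b - a by omega)
  have hq0 : 0 < q := by omega
  let s' : ℤ → Bool := fun n => s (a + (n - a) % q)
  have hper : ∀ n (m : ℤ), s' (n + m * q) = s' n := fun n m => by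
    simp only [s']
    rw [show n + m * q - a = (n - a) + m * q by ring, Int.add_mul_emod_self_right]
  have hper1 : ∀ n, s' (n + q) = s' n := fun n => by simpa using hper n 1
  have hsh : ∀ n, a - k ≤ n → n < a + k → s n = s (n + q) := by
    intro n h1 h2
    obtain ⟨j, hj⟩ := Int.eq_ofNat_of_zero_le (show 0 ≤ n - (a - k) by omega)
    have := (word_congr _ _ _).1 hw j (by omega)
    rwa [show a - k + j = n by omega, show b - k + j = n + q by omega] at this
  have hin : ∀ n, a ≤ n → n < b → s' n = s n := fun n h1 h2 => by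
    simp only [s']
    rw [Int.emod_eq_of_lt (by omega) (by omega)]; congr 1; ring
  have hup : ∀ m : ℕ, (m : ℤ) < q + k → s' (a + m) = s (a + m) := by
    intro m
    induction m using Nat.strong_induction_on with
    | _ m ih =>
      intro hm
      by_cases h1 : m < q
      · exact hin _ (by omega) (by omega)
      · have h2 := ih (m - q) (by omega) (by omega)
        have e : a + (m : ℤ) = a + ((m - q : ℕ) : ℤ) + q := by omega
        rw [e, hper1, h2, hsh _ (by omega) (by omega)]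
  have hdn : ∀ m : ℕ, (m : ℤ) < q + k → s' (b - 1 - m) = s (b - 1 - m) := by
    intro m
    induction m using Nat.strong_induction_on with
    | _ m ih =>
      intro hm
      by_cases h1 : m < q
      · exact hin _ (by omega) (by omega)
      · have h2 := ih (m - q) (by omega) (by omega)
        have e : b - 1 - ((m - q : ℕ) : ℤ) = b - 1 - m + q := by omega
        rw [e, hper1] at h2
        rw [h2, ← hsh _ (by omega) (by omega)]
  have hag : ∀ n, a - k ≤ n → n < b + k → s' n = s n := by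
    intro n h1 h2
    by_cases h3 : a ≤ n
    · obtain ⟨m, hm⟩ := Int.eq_ofNat_of_zero_le (show 0 ≤ n - a by omega)
      have := hup m (by omega)
      rwa [show a + (m : ℤ) = n by omega] at this
    · obtain ⟨m, hm⟩ := Int.eq_ofNat_of_zero_le (show 0 ≤ b - 1 - n by omega)
      have := hdn m (by omega)
      rwa [show b - 1 - (m : ℤ) = n by omega] at this
  obtain ⟨n, hn⟩ := hT s' q hq0 hper1
  have h1 := Int.emod_nonneg (n - a) (show (q : ℤ) ≠ 0 by omega)
  have h2 := Int.emod_lt_of_pos (n - a) (show (0 : ℤ) < q by omega)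
  have h3 := Int.emod_add_mul_ediv (n - a) q
  set i := a + (n - a) % q with hi
  have hc : code s' n = code s' i := by
    have e : n = i + (n - a) / q * q := by rw [hi]; linarith
    simp only [code]
    congr 2 <;> funext j
    · rw [← hper (i + j) ((n - a) / q)]; congr 1; linarith
    · rw [← hper (i - 1 - j) ((n - a) / q)]; congr 1; linarith
  rw [hc] at hn
  obtain ⟨r, hr⟩ := Int.eq_ofNat_of_zero_le (show 0 ≤ min (i - a) (b - i) + k by omega)
  refine ⟨i, by omega, by omega, r, hr.symm, ?_⟩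
  have h4 := close h (orb_code s') (a := i - r) (a' := i - r) (r := r)
    ((word_congr _ _ _).2 fun j hj => (hag _ (by omega) (by omega)).symm)
  rw [sub_add_cancel] at h4
  obtain ⟨g, hg, hd⟩ := Metric.mem_closure_iff.1 hn (1 / 2 ^ r) (by positivity)
  refine ⟨g, hg, (dist_triangle _ (code s' i) _).trans ?_⟩
  have : (2 : ℝ) / 2 ^ r = 1 / 2 ^ r + 1 / 2 ^ r := by ring
  linarith

/-- words carrying disjoint windows of large total radius -/
def Dw (k n : ℕ) (t : ℝ) : Set (List Bool) := {w | ∃ o s a, Surv G o s ∧ w = word s a n ∧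
  ∃ u : Finset (ℤ × ℕ), (∀ p ∈ u, a ≤ p.1 - p.2 ∧ p.1 + p.2 ≤ a + n ∧ k ≤ p.2 ∧ Near G (o p.1) p.2) ∧
    (∀ p ∈ u, ∀ q ∈ u, p ≠ q → p.1 + p.2 ≤ q.1 - q.2 ∨ q.1 + q.2 ≤ p.1 - p.2) ∧
    t ≤ ∑ p ∈ u, (p.2 : ℝ)}

theorem Dw_sub (k n : ℕ) (t : ℝ) : Dw G k n t ⊆ Lw G n := by
  rintro _ ⟨o, s, a, h, rfl, -⟩; exact ⟨o, s, a, h, rfl⟩

theorem L_sub (hT : Trap G) (k n : ℕ) (hk0 : 1 ≤ k) : Lw G n ⊆ Dw G k n (n / 27 - (4 ^ k + k + 1)) := by
  classical
  rintro _ ⟨o, s, a, h, rfl⟩
  set T := n / 3 with hT'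
  have hnT : (n : ℝ) ≤ 3 * T + 2 := by exact_mod_cast (show n ≤ 3 * T + 2 by omega)
  have h4 : (0 : ℝ) ≤ 4 ^ k := by positivity
  by_cases hk : T < k
  · refine ⟨o, s, a, h, rfl, ∅, by simp, by simp, ?_⟩
    have : (T : ℝ) ≤ k := by exact_mod_cast hk.le
    have : (0 : ℝ) ≤ k := Nat.cast_nonneg _
    simp only [Finset.sum_empty]; linarith
  let J := Finset.Ico (a + T) (a + 2 * T)
  let t : Set (ℤ × ℕ) := {p | p.1 ∈ J ∧ k ≤ p.2 ∧ p.2 ≤ T ∧ Near G (o p.1) p.2}
  have htf : t.Finite := ((J ×ˢ Finset.range (T + 1)).finite_toSet).subset fun p hp => by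
    simp only [Finset.coe_product, mem_prod, Finset.mem_coe, Finset.mem_range]
    exact ⟨hp.1, Nat.lt_succ_of_le hp.2.2.1⟩
  obtain ⟨u, hut, hdis, hcov⟩ := Vitali.exists_disjoint_subfamily_covering_enlargement_closedBall t
    (fun p => (p.1 : ℝ)) (fun p => (p.2 : ℝ)) T (fun p hp => by exact_mod_cast hp.2.2.1) 4
    (by norm_num)
  have huf := htf.subset hut
  let cov : ℤ → Prop := fun b => ∃ p ∈ t, |p.1 - b| + k ≤ p.2 ∨ (|p.1 - b| ≤ p.2 ∧ p.2 = T)
  have hfree : (J.filter fun b => ¬ cov b).card ≤ 4 ^ k := by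
    have h1 := Finset.card_le_card_of_injOn (s := J.filter fun b => ¬ cov b)
      (t := Finset.Ico (0 : ℤ) (2 ^ (k + k))) (fun b => vx (word s (b - k) (k + k)))
      (fun b _ => by
        have := vx_bd (word s (b - k) (k + k))
        rw [word_len] at this
        exact Finset.mem_coe.2 (Finset.mem_Ico.2 this)) (by
        have key : ∀ b c, b ∈ J → c ∈ J → ¬ cov b → ¬ cov c → b < c →
            word s (b - k) (k + k) ≠ word s (c - k) (k + k) := by
          intro b c hb hc h1 h2 hbc hw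
          obtain ⟨i, i1, i2, r, hr, hn⟩ := closing G hT h.1 hbc hw
          rw [Finset.mem_Ico] at hb hc
          have hiJ : i ∈ J := Finset.mem_Ico.2 ⟨by omega, by omega⟩
          have hp : (i, min r T) ∈ t := ⟨hiJ, by simp only; omega, min_le_right _ _,
            near_mono G hn (min_le_left _ _)⟩
          rcases le_total (i - b) (c - i) with h3 | h3
          · refine h1 ⟨_, hp, ?_⟩
            simp only
            rw [abs_of_nonneg (by omega)]; omega
          · refine h2 ⟨_, hp, ?_⟩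
            simp only
            rw [abs_of_nonpos (by omega)]; omega
        intro b hb c hc he
        rw [Finset.coe_filter] at hb hc
        have hw := vx_inj _ _ (by rw [word_len, word_len]) he
        rcases lt_trichotomy b c with h1 | h1 | h1
        · exact absurd hw (key b c hb.1 hc.1 hb.2 hc.2 h1)
        · exact h1
        · exact absurd hw.symm (key c b hc.1 hb.1 hc.2 hb.2 h1))
    rw [Int.card_Ico, sub_zero] at h1
    have e : ((2 : ℤ) ^ (k + k)).toNat = 4 ^ k := by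
      rw [show (2 : ℤ) ^ (k + k) = ((4 ^ k : ℕ) : ℤ) by
        push_cast; rw [pow_add, ← mul_pow]; norm_num, Int.toNat_natCast]
    rwa [e] at h1
  have hcv : (J.filter cov).card ≤ ∑ p ∈ huf.toFinset, (8 * p.2 + 1) := by
    have h1 : J.filter cov ⊆ huf.toFinset.biUnion fun p =>
        Finset.Icc (p.1 - 4 * p.2) (p.1 + 4 * p.2) := by
      intro b hb
      obtain ⟨p, hp, h2⟩ := (Finset.mem_filter.1 hb).2
      obtain ⟨q, hq, h3⟩ := hcov p hp
      have h5 : |p.1 - b| ≤ p.2 := by rcases h2 with h2 | h2 <;> omega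
      have h6 : (b : ℝ) ∈ closedBall (p.1 : ℝ) p.2 := by
        rw [mem_closedBall, Real.dist_eq, abs_sub_comm]; exact_mod_cast h5
      have h7 := h3 h6
      rw [mem_closedBall, Real.dist_eq] at h7
      have h8 : |b - q.1| ≤ 4 * q.2 := by exact_mod_cast h7
      rw [abs_le] at h8
      exact Finset.mem_biUnion.2 ⟨q, huf.mem_toFinset.2 hq, Finset.mem_Icc.2 ⟨by omega, by omega⟩⟩
    refine (Finset.card_le_card h1).trans (Finset.card_biUnion_le.trans
      (Finset.sum_le_sum fun p _ => ?_))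
    rw [Int.card_Icc]; omega
  have hJ : J.card = T := by simp only [J, Int.card_Ico]; omega
  have hsplit := Finset.card_filter_add_card_filter_not (s := J) cov
  refine ⟨o, s, a, h, rfl, huf.toFinset, fun p hp => ?_, fun p hp q hq hpq => ?_, ?_⟩
  · obtain ⟨h1, h2, h3, h5⟩ := hut (huf.mem_toFinset.1 hp)
    rw [Finset.mem_Ico] at h1
    exact ⟨by omega, by omega, h2, h5⟩
  · have h1 := hdis (huf.mem_toFinset.1 hp) (huf.mem_toFinset.1 hq) hpq
    by_contra h2
    push Not at h2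
    have h3 := Set.disjoint_left.1 h1
    refine @h3 ((max (p.1 - p.2) (q.1 - q.2) : ℤ) : ℝ) ?_ ?_
    · rw [mem_closedBall, Real.dist_eq]
      have : |max (p.1 - p.2) (q.1 - q.2) - p.1| ≤ (p.2 : ℤ) := by rw [abs_le]; omega
      exact_mod_cast this
    · rw [mem_closedBall, Real.dist_eq]
      have : |max (p.1 - p.2) (q.1 - q.2) - q.1| ≤ (q.2 : ℤ) := by rw [abs_le]; omega
      exact_mod_cast this
  · have h1 : ∑ p ∈ huf.toFinset, (8 * p.2 + 1) ≤ ∑ p ∈ huf.toFinset, 9 * p.2 :=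
      Finset.sum_le_sum fun p hp => by
        have := (hut (huf.mem_toFinset.1 hp)).2.1; omega
    rw [← Finset.mul_sum] at h1
    have h2 : T ≤ 9 * ∑ p ∈ huf.toFinset, p.2 + 4 ^ k := by omega
    have h3 : (T : ℝ) ≤ 9 * ∑ p ∈ huf.toFinset, (p.2 : ℝ) + 4 ^ k := by exact_mod_cast h2
    have : (0 : ℝ) ≤ k := Nat.cast_nonneg _
    linarith

theorem ncard_app (A B : Set (List Bool)) (hA : A.Finite) (hB : B.Finite) :
    (image2 (· ++ ·) A B).ncard ≤ A.ncard * B.ncard := by
  rw [← image_prod, ← ncard_prod]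
  exact ncard_image_le (hA.prod hB)

theorem D_rec (k n : ℕ) (hk : 1 ≤ k) (t : ℝ) (ht : 0 < t) : Dw G k n t ⊆
    ⋃ x ∈ ((Finset.range (n + 1) ×ˢ Finset.Icc k n).filter fun x => x.1 + (x.2 + x.2) ≤ n),
      image2 (· ++ ·) (image2 (· ++ ·) (Lw G x.1) (Nw G x.2))
        (Dw G k (n - (x.1 + (x.2 + x.2))) (t - x.2)) := by
  classical
  rintro _ ⟨o, s, a, h, rfl, u, h1, h2, h3⟩
  have hne : u.Nonempty := by
    rw [Finset.nonempty_iff_ne_empty]
    rintro rfl
    simp at h3; linarith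
  obtain ⟨p, hp, hmin⟩ := u.exists_min_image (fun p => p.1) hne
  obtain ⟨p1, p2, p3, p4⟩ := h1 p hp
  obtain ⟨c, hc⟩ := Int.eq_ofNat_of_zero_le (show 0 ≤ p.1 - p.2 - a by omega)
  have hle : c + (p.2 + p.2) ≤ n := by omega
  refine mem_iUnion₂.2 ⟨(c, p.2), Finset.mem_filter.2 ⟨Finset.mem_product.2
    ⟨Finset.mem_range.2 (by omega), Finset.mem_Icc.2 ⟨p3, by omega⟩⟩, hle⟩,
    word s a (c + (p.2 + p.2)), ⟨word s a c, ⟨o, s, a, h, rfl⟩, word s (a + c) (p.2 + p.2),
      ⟨o, s, a + c, h, rfl, by rw [show a + c + p.2 = p.1 by omega]; exact p4⟩,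
      (word_add _ _ _ _).symm⟩,
    word s (a + (c + (p.2 + p.2) : ℕ)) (n - (c + (p.2 + p.2))),
    ⟨o, s, _, h, rfl, u.erase p, fun q hq => ?_, fun q hq q' hq' => h2 q
      (Finset.mem_of_mem_erase hq) q' (Finset.mem_of_mem_erase hq'), ?_⟩, ?_⟩
  · obtain ⟨q1, q2, q3, q4⟩ := h1 q (Finset.mem_of_mem_erase hq)
    have h4 := h2 p hp q (Finset.mem_of_mem_erase hq) (Finset.ne_of_mem_erase hq).symm
    have h5 := hmin q (Finset.mem_of_mem_erase hq)
    exact ⟨by omega, by omega, q3, q4⟩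
  · have := Finset.add_sum_erase u (fun p => (p.2 : ℝ)) hp
    simp only; linarith
  · simp only
    rw [← word_add, Nat.add_sub_cancel' hle]

theorem improve (hc : Convex ℝ G) (ho : IsOpen G) (hT : Trap G) (h ε : ℝ) (h0 : 0 ≤ h) (hε : 0 < ε)
    (hP : ∃ C : ℝ, 0 < C ∧ ∀ n : ℕ, ((Lw G n).ncard : ℝ) ≤ C * Real.exp (h * n)) :
    ∃ C : ℝ, 0 < C ∧ ∀ n : ℕ, ((Lw G n).ncard : ℝ) ≤ C * Real.exp ((26 / 27 * h + ε) * n) := by
  obtain ⟨C, hC, hP⟩ := hP
  set q := Real.exp (-ε) with hq
  have hq0 : 0 < q := Real.exp_pos _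
  have hq1 : q < 1 := Real.exp_lt_one_iff.2 (by linarith)
  have hgeo : ∀ S : Finset ℕ, ∑ i ∈ S, q ^ i ≤ (1 - q)⁻¹ := fun S => by
    rw [← tsum_geometric_of_lt_one hq0.le hq1]
    exact (summable_geometric_of_lt_one hq0.le hq1).sum_le_tsum S fun i _ => by positivity
  have hq2 : 0 < (1 - q)⁻¹ := inv_pos.2 (by linarith)
  obtain ⟨k0, hk0⟩ := exists_pow_lt_of_lt_one
    (show 0 < (32 * C * C * (1 - q)⁻¹ * (1 - q)⁻¹)⁻¹ by positivity) hq1
  set k := k0 + 1 with hk
  have hkq : 32 * C * C * (1 - q)⁻¹ * (1 - q)⁻¹ * q ^ k ≤ 1 := by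
    have : q ^ k ≤ q ^ k0 := pow_le_pow_of_le_one hq0.le hq1.le (by omega)
    rw [← le_div_iff₀' (by positivity), one_div]
    linarith
  have hD : ∀ (n : ℕ) (t : ℝ), ((Dw G k n t).ncard : ℝ) ≤ C * Real.exp (h * (n - t) + ε * n) := by
    intro n
    induction n using Nat.strong_induction_on with
    | _ n ih =>
      intro t
      rcases le_or_gt t 0 with ht | ht
      · have h1 : ((Dw G k n t).ncard : ℝ) ≤ (Lw G n).ncard := by
          exact_mod_cast ncard_le_ncard (Dw_sub G k n t) (Lw_fin G n)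
        refine h1.trans ((hP n).trans (mul_le_mul_of_nonneg_left (Real.exp_le_exp.2 ?_) hC.le))
        have : 0 ≤ ε * n := by positivity
        nlinarith
      set S := (Finset.range (n + 1) ×ˢ Finset.Icc k n).filter fun x => x.1 + (x.2 + x.2) ≤ n
        with hS
      have hf : ∀ (m : ℕ) (t : ℝ), (Dw G k m t).Finite := fun m t =>
        (Lw_fin G m).subset (Dw_sub G k m t)
      have h1 := (ncard_le_ncard (D_rec G k n (by omega) t ht) (S.finite_toSet.biUnion fun x _ =>
        ((Lw_fin G _).image2 _ (Nw_fin G _)).image2 _ (hf _ _))).trans (S.set_ncard_biUnion_le _)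
      set E := C * Real.exp (h * (n - t) + ε * n) with hE
      have hE0 : 0 < E := by positivity
      have h2 : ∀ x ∈ S, ((image2 (· ++ ·) (image2 (· ++ ·) (Lw G x.1) (Nw G x.2))
          (Dw G k (n - (x.1 + (x.2 + x.2))) (t - x.2))).ncard : ℝ) ≤
          E * (32 * C * C * q ^ k) * (q ^ x.1 * q ^ x.2) := by
        intro x hx
        obtain ⟨hx1, hx2⟩ := Finset.mem_filter.1 hx
        have hx3 := (Finset.mem_Icc.1 (Finset.mem_product.1 hx1).2).1
        have a1 := ncard_app _ _ ((Lw_fin G x.1).image2 (· ++ ·) (Nw_fin G x.2))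
          (hf (n - (x.1 + (x.2 + x.2))) (t - x.2))
        have a2 := ncard_app _ _ (Lw_fin G x.1) (Nw_fin G x.2)
        have a3 := a1.trans (Nat.mul_le_mul_right _ (a2.trans
          (Nat.mul_le_mul_left _ (Nw_le G hc ho x.2))))
        have a4 := ih (n - (x.1 + (x.2 + x.2))) (by omega) (t - x.2)
        rw [Nat.cast_sub hx2] at a4
        have a5 : (((Lw G x.1).ncard * (32 * (Lw G x.2).ncard) *
            (Dw G k (n - (x.1 + (x.2 + x.2))) (t - x.2)).ncard : ℕ) : ℝ) ≤
            (C * Real.exp (h * x.1)) * (32 * (C * Real.exp (h * x.2))) * (C * Real.exp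
              (h * (n - (x.1 + (x.2 + x.2) : ℕ) - (t - x.2)) + ε * (n - (x.1 + (x.2 + x.2) : ℕ)))) := by
          rw [Nat.cast_mul, Nat.cast_mul, Nat.cast_mul, Nat.cast_ofNat]
          gcongr
          · exact hP _
          · exact hP _
        have a6 : Real.exp (h * x.1) * Real.exp (h * x.2) * Real.exp
            (h * (n - (x.1 + (x.2 + x.2) : ℕ) - (t - x.2)) + ε * (n - (x.1 + (x.2 + x.2) : ℕ))) =
            Real.exp (h * (n - t) + ε * n) * (q ^ x.1 * q ^ x.2 * q ^ x.2) := by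
          rw [hq, ← Real.exp_nat_mul, ← Real.exp_nat_mul]
          simp only [← Real.exp_add]
          congr 1; push_cast; ring
        have a7 : q ^ x.2 ≤ q ^ k := pow_le_pow_of_le_one hq0.le hq1.le hx3
        have a8 := mul_le_mul_of_nonneg_left a7
          (show 0 ≤ E * (32 * C * C) * (q ^ x.1 * q ^ x.2) by positivity)
        refine (Nat.cast_le.2 a3).trans (a5.trans (le_trans (le_of_eq ?_) (a8.trans (le_of_eq ?_))))
        · rw [hE]; linear_combination (32 * C * C * C) * a6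
        · ring
      have h3 : ∑ x ∈ S, q ^ x.1 * q ^ x.2 ≤ (1 - q)⁻¹ * (1 - q)⁻¹ := by
        refine (Finset.sum_le_sum_of_subset_of_nonneg (Finset.filter_subset _ _)
          fun _ _ _ => by positivity).trans ?_
        rw [Finset.sum_product' (f := fun a b => q ^ a * q ^ b), ← Finset.sum_mul_sum]
        exact mul_le_mul (hgeo _) (hgeo _) (by positivity) hq2.le
      refine (Nat.cast_le.2 h1).trans ?_
      rw [Nat.cast_sum]
      refine (Finset.sum_le_sum h2).trans ?_
      rw [← Finset.mul_sum]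
      have h4 := mul_le_mul_of_nonneg_left h3 (show 0 ≤ E * (32 * C * C * q ^ k) by positivity)
      have h5 := mul_le_mul_of_nonneg_left hkq hE0.le
      linarith
  refine ⟨C * Real.exp (h * (4 ^ k + k + 1)), by positivity, fun n => ?_⟩
  have h1 : ((Lw G n).ncard : ℝ) ≤ (Dw G k n (n / 27 - (4 ^ k + k + 1))).ncard := by
    exact_mod_cast ncard_le_ncard (L_sub G hT k n (by omega)) ((Lw_fin G n).subset (Dw_sub G _ _ _))
  refine h1.trans ((hD n _).trans (le_of_eq ?_))
  rw [mul_assoc, ← Real.exp_add]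
  congr 2; ring

theorem lists_le (n : ℕ) : {w : List Bool | w.length = n}.ncard ≤ 2 ^ n := by
  have h := ncard_le_ncard_of_injOn (s := {w : List Bool | w.length = n})
    (t := (Finset.Ico (0 : ℤ) (2 ^ n) : Set ℤ)) vx
    (fun w hw => by
      have := vx_bd w
      rw [show w.length = n from hw] at this
      exact Finset.mem_coe.2 (Finset.mem_Ico.2 this))
    (fun w hw w' hw' he => vx_inj _ _ (by rw [show w.length = n from hw, hw']) he)
  rw [ncard_coe_finset, Int.card_Ico, sub_zero, show (2 : ℤ) ^ n = ((2 ^ n : ℕ) : ℤ) by push_cast; rfl,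
    Int.toNat_natCast] at h
  exact h

theorem subexp (hc : Convex ℝ G) (ho : IsOpen G) (hT : Trap G) (ε : ℝ) (hε : 0 < ε) :
    ∃ C : ℝ, 0 < C ∧ ∀ n : ℕ, ((Lw G n).ncard : ℝ) ≤ C * Real.exp (ε * n) := by
  have h1 : ∀ j : ℕ, ∃ C : ℝ, 0 < C ∧ ∀ n : ℕ,
      ((Lw G n).ncard : ℝ) ≤ C * Real.exp (((26 / 27) ^ j + ε / 2) * n) := by
    intro j
    induction j with
    | zero =>
      refine ⟨1, one_pos, fun n => ?_⟩
      have h2 : (Lw G n).ncard ≤ 2 ^ n := (ncard_le_ncard (by
        rintro _ ⟨o, s, a, -, rfl⟩; exact word_len _ _ _) (List.finite_length_eq Bool n)).trans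
        (lists_le n)
      have h3 : ((Lw G n).ncard : ℝ) ≤ 2 ^ n := by exact_mod_cast h2
      rw [one_mul, mul_comm, Real.exp_nat_mul]
      refine h3.trans (pow_le_pow_left₀ (by norm_num) ?_ n)
      have := Real.add_one_le_exp ((26 / 27 : ℝ) ^ 0 + ε / 2)
      rw [pow_zero] at this ⊢
      linarith
    | succ j ih =>
      obtain ⟨C, hC, h⟩ := improve G hc ho hT _ (ε / 54) (by positivity) (by positivity) ih
      refine ⟨C, hC, fun n => (h n).trans (le_of_eq ?_)⟩
      congr 3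
      rw [pow_succ]; ring
  obtain ⟨j, hj⟩ := exists_pow_lt_of_lt_one (show 0 < ε / 2 by positivity)
    (show (26 / 27 : ℝ) < 1 by norm_num)
  obtain ⟨C, hC, h⟩ := h1 j
  exact ⟨C, hC, fun n => (h n).trans (mul_le_mul_of_nonneg_left (Real.exp_le_exp.2
    (mul_le_mul_of_nonneg_right (by linarith) (Nat.cast_nonneg _))) hC.le)⟩

theorem dim_zero (hc : Convex ℝ G) (ho : IsOpen G) (hT : Trap G) :
    dimH {p | ∃ o s, Surv G o s ∧ o 0 = p} = 0 := by
  refine le_antisymm (le_of_forall_gt_imp_ge_of_dense fun d hd => ?_) bot_le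
  rcases eq_or_ne d ⊤ with rfl | hd'
  · exact le_top
  lift d to NNReal using hd'
  have hd0 : (0 : ℝ) < d := by exact_mod_cast hd
  refine dimH_le_of_hausdorffMeasure_ne_top (d := d) (ne_of_lt ?_)
  obtain ⟨C, hC, h⟩ := subexp G hc ho hT (d * Real.log 2 / 2) (by
    have := Real.log_pos (show (1 : ℝ) < 2 by norm_num); positivity)
  have hF : ∀ m, Fintype (Lw G (m + m)) := fun m => (Lw_fin G _).fintype
  let t : ∀ m : ℕ, Lw G (m + m) → Set (ℝ × ℝ) := fun m w =>
    {p | ∃ o s a, Orb o s ∧ (w : List Bool) = word s a (m + m) ∧ o (a + m) = p}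
  have ht : ∀ m (w : Lw G (m + m)), ediam (t m w) ≤ ENNReal.ofReal (1 / 2 ^ m) := fun m w =>
    ediam_le fun p hp p' hp' => by
      obtain ⟨o, s, a, h1, h2, rfl⟩ := hp
      obtain ⟨o', s', a', h3, h4, rfl⟩ := hp'
      rw [edist_dist]
      exact ENNReal.ofReal_le_ofReal (close h1 h3 (h2.symm.trans h4))
  have h1 := Measure.hausdorffMeasure_le_liminf_sum (d : ℝ) {p | ∃ o s, Surv G o s ∧ o 0 = p}
    (l := atTop) (fun m : ℕ => ENNReal.ofReal (1 / 2 ^ m)) (by
      rw [← ENNReal.ofReal_zero]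
      refine ENNReal.tendsto_ofReal ?_
      simp only [one_div, ← inv_pow]
      exact tendsto_pow_atTop_nhds_zero_of_lt_one (by norm_num) (by norm_num)) t
    (Eventually.of_forall ht) (Eventually.of_forall fun m => by
      rintro _ ⟨o, s, h2, rfl⟩
      exact mem_iUnion.2 ⟨⟨word s (-m) (m + m), o, s, -m, h2, rfl⟩, o, s, -m, h2.1, rfl, by simp⟩)
  refine lt_of_le_of_lt (h1.trans (liminf_le_of_frequently_le' (Frequently.of_forall fun m => ?_)))
    (ENNReal.ofReal_lt_top (r := C))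
  refine (Finset.sum_le_card_nsmul _ _ (ENNReal.ofReal (1 / 2 ^ m) ^ (d : ℝ))
    fun w _ => ENNReal.rpow_le_rpow (ht m w) hd0.le).trans ?_
  rw [Finset.card_univ, ← Nat.card_eq_fintype_card, Nat.card_coe_set_eq, nsmul_eq_mul,
    ENNReal.ofReal_rpow_of_pos (by positivity), ← ENNReal.ofReal_natCast,
    ← ENNReal.ofReal_mul (by positivity)]
  refine ENNReal.ofReal_le_ofReal ((mul_le_mul_of_nonneg_right (h (m + m)) (by positivity)).trans
    (le_of_eq ?_))
  rw [Real.rpow_def_of_pos (by positivity), mul_assoc, ← Real.exp_add, one_div, Real.log_inv,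
    Real.log_pow]
  have : d * Real.log 2 / 2 * ((m + m : ℕ) : ℝ) + -(m * Real.log 2) * d = 0 := by push_cast; ring
  rw [this, Real.exp_zero, mul_one]

end H93.Bak
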