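import Mathlib

set_option autoImplicit false

/-! Increasing curves of slope in `[1/3, 1]` that meet the unit square meet `C × C`. -/

namespace Pool.Agent.H93.CanMeet

open Set

lemma third {x : ℝ} (h : x ∈ cantorSet) : x / 3 ∈ cantorSet := by
  rw [cantorSet_eq_union_halves]; exact Or.inl ⟨x, h, rfl⟩

lemma third' {x : ℝ} (h : x ∈ cantorSet) : (2 + x) / 3 ∈ cantorSet := by
  rw [cantorSet_eq_union_halves]; exact Or.inr ⟨x, h, rfl⟩

lemma third_pow {x : ℝ} (h : x ∈ cantorSet) (k : ℕ) : x / 3 ^ k ∈ cantorSet := by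
  induction k with
  | zero => simpa using h
  | succ k ih => rw [pow_succ, ← div_div]; exact third ih

lemma flip_pre (n : ℕ) : ∀ x ∈ preCantorSet n, 1 - x ∈ preCantorSet n := by
  induction n with
  | zero => intro x hx; simp only [preCantorSet_zero, mem_Icc] at hx ⊢; constructor <;> linarith
  | succ n ih =>
    rintro _ (⟨x, hx, rfl⟩ | ⟨x, hx, rfl⟩)
    · exact Or.inr ⟨1 - x, ih x hx, by simp only; ring⟩
    · exact Or.inl ⟨1 - x, ih x hx, by simp only; ring⟩

lemma flip {x : ℝ} (h : x ∈ cantorSet) : 1 - x ∈ cantorSet :=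
  mem_iInter.2 fun n => flip_pre n x (mem_iInter.1 h n)

lemma meet_pre (n : ℕ) : ∀ g : ℝ → ℝ, Continuous g →
    (∀ a b, 0 ≤ a → a ≤ b → b ≤ 1 → (b - a) / 3 ≤ g b - g a ∧ g b - g a ≤ b - a) →
    g 0 ≤ 1 → 0 ≤ g 1 → ∃ v ∈ preCantorSet n, g v ∈ preCantorSet n := by
  induction n with
  | zero =>
    intro g hc _ h0 h1
    rcases le_total 0 (g 0) with h | h
    · exact ⟨0, by simp, h, h0⟩
    · obtain ⟨v, hv, e⟩ := intermediate_value_Icc zero_le_one hc.continuousOn ⟨h, h1⟩
      exact ⟨v, hv, by simp [e]⟩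
  | succ n ih =>
    intro g hc hs h0 h1
    have key : ∀ i j : ℝ, (i = 0 ∨ i = 2) → (j = 0 ∨ j = 2) → g (j / 3) ≤ (i + 1) / 3 →
        i / 3 ≤ g ((j + 1) / 3) → ∃ v ∈ preCantorSet (n + 1), g v ∈ preCantorSet (n + 1) := by
      intro i j hi hj a1 a2
      obtain ⟨v, hv, hv'⟩ := ih (fun v => 3 * g ((j + v) / 3) - i) (by fun_prop)
        (fun a b ha hab hb => by
          have := hs ((j + a) / 3) ((j + b) / 3) (by rcases hj with rfl | rfl <;> linarith)
            (by linarith) (by rcases hj with rfl | rfl <;> linarith)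
          constructor <;> linarith [this.1, this.2]) (by simp only [add_zero]; linarith)
        (by linarith)
      refine ⟨(j + v) / 3, ?_, ?_⟩
      · rcases hj with rfl | rfl
        · exact Or.inl ⟨v, hv, by simp⟩
        · exact Or.inr ⟨v, hv, rfl⟩
      · rcases hi with rfl | rfl
        · exact Or.inl ⟨_, hv', by simp⟩
        · exact Or.inr ⟨_, hv', by simp only; ring⟩
    have s1 := hs (1 / 3) (2 / 3) (by norm_num) (by norm_num) (by norm_num)
    have s2 := hs 0 1 (by norm_num) (by norm_num) (by norm_num)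
    by_cases c1 : g (1 / 3) < 0
    · exact key 0 2 (by simp) (by simp) (by linarith [s1.2]) (by norm_num; exact h1)
    by_cases c2 : g 0 ≤ 1 / 3
    · exact key 0 0 (by simp) (by simp) (by norm_num; linarith) (by norm_num; linarith)
    by_cases c3 : 2 / 3 ≤ g (1 / 3)
    · exact key 2 0 (by simp) (by simp) (by norm_num; linarith) (by norm_num; linarith)
    · exact key 2 2 (by simp) (by simp) (by linarith [s1.2]) (by norm_num; linarith [s2.1])

theorem meet (g : ℝ → ℝ) (hc : Continuous g)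
    (hs : ∀ a b, 0 ≤ a → a ≤ b → b ≤ 1 → (b - a) / 3 ≤ g b - g a ∧ g b - g a ≤ b - a)
    (h0 : g 0 ≤ 1) (h1 : 0 ≤ g 1) : ∃ v ∈ cantorSet, g v ∈ cantorSet := by
  have cl : ∀ n, IsClosed (preCantorSet n ∩ g ⁻¹' preCantorSet n) := fun n =>
    (isClosed_preCantorSet n).inter ((isClosed_preCantorSet n).preimage hc)
  obtain ⟨v, hv⟩ := IsCompact.nonempty_iInter_of_sequence_nonempty_isCompact_isClosed
    (fun n => preCantorSet n ∩ g ⁻¹' preCantorSet n)
    (fun n => inter_subset_inter (preCantorSet_antitone n.le_succ)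
      (preimage_mono (preCantorSet_antitone n.le_succ)))
    (fun n => meet_pre n g hc hs h0 h1)
    (isCompact_Icc.of_isClosed_subset (cl 0) fun x hx => hx.1) cl
  rw [mem_iInter] at hv
  exact ⟨v, mem_iInter.2 fun n => (hv n).1, mem_iInter.2 fun n => (hv n).2⟩

theorem circle_pt (k : ℕ) : ∃ x ∈ cantorSet, ∃ y ∈ cantorSet, x ^ 2 + y ^ 2 = 1 ∧ 0 < y ∧
    y ≤ 1 / 3 ^ (k + 1) := by
  set T : ℝ := 3 ^ (k + 1) with hT
  have T3 : 3 ≤ T := by
    rw [hT, pow_succ]; nlinarith [one_le_pow₀ (M₀ := ℝ) (a := 3) (n := k) (by norm_num)]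
  let y : ℝ → ℝ := fun v => (6 + v) / (9 * T)
  let s : ℝ → ℝ := fun v => √(1 - y v ^ 2)
  have hy : ∀ v, 0 ≤ v → v ≤ 1 → 0 < y v ∧ y v ≤ 7 / 27 := fun v a b =>
    ⟨by positivity, by rw [div_le_iff₀ (by positivity)]; linarith⟩
  have hs : ∀ v, 0 ≤ v → v ≤ 1 → s v ^ 2 = 1 - y v ^ 2 ∧ 9 / 10 ≤ s v ∧ s v ≤ 1 := by
    intro v a b
    obtain ⟨c, d⟩ := hy v a b
    refine ⟨Real.sq_sqrt (by nlinarith), Real.le_sqrt_of_sq_le (by nlinarith),
      Real.sqrt_le_one.2 (by nlinarith)⟩
  have hyT : ∀ v, 9 * T * y v = 6 + v := fun v => by simp only [y]; field_simp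
  have hg : ∀ v, 0 ≤ v → v ≤ 1 → 9 * T ^ 2 * (1 - s v) * (9 * (1 + s v)) = (6 + v) ^ 2 := by
    intro v a b
    rw [← hyT v]
    linear_combination (-81 * T ^ 2) * (hs v a b).1
  obtain ⟨v, hv, hv'⟩ := meet (fun v => 9 * T ^ 2 * (1 - s v) - 2) (by fun_prop)
    (fun a b ha hab hb => by
      obtain ⟨a1, a2, a3⟩ := hs a ha (hab.trans hb)
      obtain ⟨b1, b2, b3⟩ := hs b (ha.trans hab) hb
      set D := (9 * T ^ 2 * (1 - s b) - 2) - (9 * T ^ 2 * (1 - s a) - 2) with hD
      have e : D * (9 * (s a + s b)) = (b - a) * (12 + a + b) := by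
        have : (b - a) * (12 + a + b) = (9 * T * y b) ^ 2 - (9 * T * y a) ^ 2 := by
          rw [hyT, hyT]; ring
        rw [this, hD]
        linear_combination (81 * T ^ 2) * a1 - (81 * T ^ 2) * b1
      have p : 0 < 9 * (s a + s b) := by linarith
      constructor
      · refine le_of_mul_le_mul_right ?_ p
        rw [e]; nlinarith [mul_nonneg (sub_nonneg.2 hab) (by linarith : 0 ≤ 12 + a + b - 3 * (s a + s b))]
      · refine le_of_mul_le_mul_right ?_ p
        rw [e]; nlinarith [mul_nonneg (sub_nonneg.2 hab) (by linarith : 0 ≤ 9 * (s a + s b) - (12 + a + b))])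
    (by
      obtain ⟨a1, a2, a3⟩ := hs 0 le_rfl zero_le_one
      have := hg 0 le_rfl zero_le_one
      by_contra c
      nlinarith)
    (by
      obtain ⟨a1, a2, a3⟩ := hs 1 zero_le_one le_rfl
      have := hg 1 zero_le_one le_rfl
      by_contra c
      nlinarith)
  obtain ⟨v0, v1⟩ := cantorSet_subset_unitInterval hv
  refine ⟨s v, ?_, y v, ?_, by linarith [(hs v v0 v1).1], (hy v v0 v1).1, ?_⟩
  · have := flip (third_pow (third_pow (third (third' hv')) (k + 1)) (k + 1))
    convert this using 1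
    rw [← hT]; field_simp; ring
  · have := third_pow (third' (third hv)) (k + 1)
    convert this using 1
    rw [← hT]; simp only [y]; field_simp; ring
  · simp only [y]
    rw [div_le_div_iff₀ (by positivity) (by positivity)]; nlinarith

end Pool.Agent.H93.CanMeet
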