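import Mathlib

set_option autoImplicit false

namespace Pool.Agent.H93

open Filter Topology

/-- A family of pointwise continuous seminorms dominating the coordinates. -/
structure Fam (𝕜 I J : Type) [RCLike 𝕜] where
  p : J → Seminorm 𝕜 (I → 𝕜)
  cont : ∀ j, Continuous (p j)
  dom : ∀ i, ∃ (j : J) (C : ℝ), 0 ≤ C ∧ ∀ a, ‖a i‖ ≤ C * p j a
  ne : Nonempty J

namespace Fam

variable {𝕜 I J : Type} [RCLike 𝕜] (F : Fam 𝕜 I J)

/-- the bounded elements -/
def sub : Submodule 𝕜 (I → 𝕜) where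
  carrier := {a | ∃ C, ∀ j, F.p j a ≤ C}
  add_mem' := by
    rintro a b ⟨C, hC⟩ ⟨D, hD⟩
    exact ⟨C + D, fun j => (map_add_le_add _ _ _).trans (add_le_add (hC j) (hD j))⟩
  zero_mem' := ⟨0, fun j => by simp⟩
  smul_mem' := by
    rintro c a ⟨C, hC⟩
    exact ⟨‖c‖ * C, fun j => by
      rw [map_smul_eq_mul]; exact mul_le_mul_of_nonneg_left (hC j) (norm_nonneg _)⟩

/-- the Banach space -/
def Z : Type := F.sub

noncomputable instance : AddCommGroup F.Z := inferInstanceAs (AddCommGroup F.sub)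
noncomputable instance : Module 𝕜 F.Z := inferInstanceAs (Module 𝕜 F.sub)

/-- the underlying function -/
def val : F.Z →ₗ[𝕜] (I → 𝕜) := F.sub.subtype

lemma val_inj : Function.Injective F.val := Subtype.val_injective

/-- constructor -/
def mk' (a : I → 𝕜) (h : ∃ C, ∀ j, F.p j a ≤ C) : F.Z := (⟨a, h⟩ : F.sub)

@[simp] lemma val_mk' (a : I → 𝕜) (h : ∃ C, ∀ j, F.p j a ≤ C) : F.val (F.mk' a h) = a := rfl

noncomputable instance : Norm F.Z := ⟨fun a => ⨆ j, F.p j (F.val a)⟩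

variable {F}

lemma le_norm (a : F.Z) (j : J) : F.p j (F.val a) ≤ ‖a‖ := by
  obtain ⟨C, hC⟩ := a.2
  exact le_ciSup (f := fun j => F.p j (F.val a)) ⟨C, by rintro _ ⟨j, rfl⟩; exact hC j⟩ j

lemma norm_le {a : F.Z} {C : ℝ} (h : ∀ j, F.p j (F.val a) ≤ C) : ‖a‖ ≤ C :=
  haveI := F.ne
  ciSup_le h

lemma core : NormedSpace.Core 𝕜 F.Z where
  norm_nonneg a := F.ne.elim fun j => (apply_nonneg _ _).trans (le_norm a j)
  norm_smul c a := by
    change ⨆ j, F.p j (F.val (c • a)) = ‖c‖ * ⨆ j, F.p j (F.val a)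
    simp only [map_smul, map_smul_eq_mul]
    exact (Real.mul_iSup_of_nonneg (norm_nonneg c) _).symm
  norm_triangle a b := norm_le fun j => by
    rw [map_add]
    exact (map_add_le_add _ _ _).trans (add_le_add (le_norm a j) (le_norm b j))
  norm_eq_zero_iff a := by
    constructor
    · intro h
      refine F.val_inj (funext fun i => ?_)
      obtain ⟨j, C, hC, hj⟩ := F.dom i
      have h1 := (hj (F.val a)).trans (mul_le_mul_of_nonneg_left (le_norm a j) hC)
      rw [h, mul_zero] at h1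
      simpa using h1
    · rintro rfl
      change ⨆ j, F.p j (F.val 0) = 0
      simp

noncomputable instance : NormedAddCommGroup F.Z := NormedAddCommGroup.ofCore core
noncomputable instance : NormedSpace 𝕜 F.Z := NormedSpace.ofCore core

/-- coordinate functional -/
noncomputable def ev (F : Fam 𝕜 I J) (i : I) : F.Z →L[𝕜] 𝕜 :=
  LinearMap.mkContinuousOfExistsBound ((LinearMap.proj i).comp F.val) (by
    obtain ⟨j, C, hC, hj⟩ := F.dom i
    exact ⟨C, fun a => (hj (F.val a)).trans (mul_le_mul_of_nonneg_left (le_norm a j) hC)⟩)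

@[simp] lemma ev_apply (i : I) (a : F.Z) : F.ev i a = F.val a i := rfl

lemma cont_val : Continuous F.val := continuous_pi fun i => (F.ev i).continuous

instance : CompleteSpace F.Z := by
  refine Metric.complete_of_cauchySeq_tendsto (fun u hu => ?_)
  have h1 : ∀ i, ∃ l, Tendsto (fun n => F.val (u n) i) atTop (𝓝 l) := fun i =>
    cauchySeq_tendsto_of_complete ((F.ev i).uniformContinuous.comp_cauchySeq hu)
  choose a ha using h1
  have ha' : Tendsto (fun n => F.val (u n)) atTop (𝓝 a) := tendsto_pi_nhds.2 ha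
  have key : ∀ ε > 0, ∃ N, ∀ n ≥ N, ∀ j, F.p j (F.val (u n) - a) ≤ ε := by
    intro ε hε
    obtain ⟨N, hN⟩ := Metric.cauchySeq_iff.1 hu ε hε
    refine ⟨N, fun n hn j => ?_⟩
    refine le_of_tendsto (((F.cont j).tendsto _).comp (ha'.const_sub (F.val (u n))))
      (eventually_atTop.2 ⟨N, fun m hm => ?_⟩)
    have := hN n hn m hm
    rw [dist_eq_norm] at this
    simpa using (le_norm (u n - u m) j).trans this.le
  obtain ⟨N, hN⟩ := key 1 one_pos
  have hb : ∃ C, ∀ j, F.p j a ≤ C := ⟨‖u N‖ + 1, fun j => by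
    have := map_sub_le_add (F.p j) (F.val (u N)) (F.val (u N) - a)
    rw [sub_sub_cancel] at this
    linarith [le_norm (u N) j, hN N le_rfl j]⟩
  refine ⟨F.mk' a hb, Metric.tendsto_atTop.2 (fun ε hε => ?_)⟩
  obtain ⟨N, hN⟩ := key (ε / 2) (by positivity)
  refine ⟨N, fun n hn => ?_⟩
  rw [dist_eq_norm]
  exact (norm_le (C := ε / 2) (fun j => by simpa using hN n hn j)).trans_lt (by linarith)

/-- operator induced by a linear map -/
noncomputable def op (F : Fam 𝕜 I J) (L : (I → 𝕜) →ₗ[𝕜] (I → 𝕜)) (C : ℝ)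
    (h : ∀ a M, (∀ j, F.p j a ≤ M) → ∀ j, F.p j (L a) ≤ C * M) : F.Z →L[𝕜] F.Z :=
  LinearMap.mkContinuous (LinearMap.codRestrict F.sub (L.comp F.val)
    (fun a => ⟨_, h _ _ (le_norm a)⟩)) C (fun a => norm_le (h _ _ (le_norm a)))

@[simp] lemma val_op (L : (I → 𝕜) →ₗ[𝕜] (I → 𝕜)) (C : ℝ)
    (h : ∀ a M, (∀ j, F.p j a ≤ M) → ∀ j, F.p j (L a) ≤ C * M) (a : F.Z) :
    F.val (F.op L C h a) = L (F.val a) := rfl

end Fam

end Pool.Agent.H93
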