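import Mathlib
import Pool.Agent.H93.SupSpace

set_option autoImplicit false

namespace Pool.Agent.H93

open Filter Topology Finset

/-- data of the rows -/
structure Sys (ρ : Type) where
  c : ρ → Fin 2 → ℝ
  P : ρ → Set ℤ
  R : ρ → Finset ℤ
  κ : ρ → ℝ
  κ0 : ∀ r, 0 ≤ κ r
  κ1 : ∀ r, κ r * (R r).card ≤ 1
  ne : Nonempty ρ

namespace Sys

variable {ρ : Type} (S : Sys ρ)

/-- the row seminorm -/
noncomputable def q (j : ρ × ℤ) (a : ρ × ℤ → ℝ) : ℝ :=
  (1 / 2) ^ j.2.natAbs * (|a j| + S.κ j.1 * ∑ n ∈ S.R j.1, |a (j.1, j.2 + n)|)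

/-- value of the covector -/
def cv (r : ρ) (v : Fin 2 → ℝ) : ℝ := S.c r 0 * v 0 + S.c r 1 * v 1

/-- base pattern -/
noncomputable def ξ (v : Fin 2 → ℝ) (j : ρ × ℤ) : ℝ := (S.P j.1).indicator (fun _ => S.cv j.1 v) j.2

lemma q_nonneg (j : ρ × ℤ) (a : ρ × ℤ → ℝ) : 0 ≤ S.q j a := by
  have := S.κ0 j.1
  unfold q; positivity

lemma q_mono (j : ρ × ℤ) {a b : ρ × ℤ → ℝ} (h : ∀ m, |a (j.1, m)| ≤ |b (j.1, m)|) :
    S.q j a ≤ S.q j b := by
  have := S.κ0 j.1
  unfold q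
  exact mul_le_mul_of_nonneg_left (add_le_add (h j.2) (mul_le_mul_of_nonneg_left
    (sum_le_sum fun n _ => h _) this)) (by positivity)

lemma q_add (j : ρ × ℤ) (a b : ρ × ℤ → ℝ) : S.q j (a + b) ≤ S.q j a + S.q j b := by
  have := S.κ0 j.1
  unfold q
  rw [← mul_add, add_add_add_comm, ← mul_add, ← sum_add_distrib]
  gcongr with n
  · exact abs_add_le _ _
  · exact abs_add_le _ _

lemma q_smul (j : ρ × ℤ) (t : ℝ) (a : ρ × ℤ → ℝ) : S.q j (t • a) = |t| * S.q j a := by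
  simp only [q, Pi.smul_apply, smul_eq_mul, abs_mul, ← mul_sum]; ring

lemma q_le (j : ρ × ℤ) {a : ρ × ℤ → ℝ} {b : ℝ} (h : ∀ m, |a (j.1, m)| ≤ b) :
    S.q j a ≤ 2 * b * (1 / 2) ^ j.2.natAbs := by
  have h0 : 0 ≤ b := (abs_nonneg _).trans (h 0)
  have h1 : ∑ n ∈ S.R j.1, |a (j.1, j.2 + n)| ≤ (S.R j.1).card * b := by
    simpa using sum_le_card_nsmul (S.R j.1) _ b (fun n _ => h (j.2 + n))
  have h2 := mul_le_mul_of_nonneg_left h1 (S.κ0 j.1)
  have h3 := mul_le_mul_of_nonneg_right (S.κ1 j.1) h0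
  rw [q, mul_comm]
  gcongr
  nlinarith [h j.2]

lemma q_shift (j : ρ × ℤ) (a : ρ × ℤ → ℝ) (s : ℤ) (hs : s.natAbs = 1) :
    S.q j (fun i => a (i.1, i.2 + s)) ≤ 2 * S.q (j.1, j.2 + s) a := by
  have := S.κ0 j.1
  simp only [q, ← mul_assoc, add_right_comm j.2 s]
  gcongr
  calc (1 / 2 : ℝ) ^ j.2.natAbs = 2 * (1 / 2) ^ (j.2.natAbs + 1) := by ring
    _ ≤ _ := by
      gcongr 2 * ?_
      exact pow_le_pow_of_le_one (by norm_num) (by norm_num) (by omega)

/-- index type -/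
abbrev I (ρ : Type) := Fin 2 ⊕ (ρ × ℤ)

/-- the class -/
def cl (x : I ρ → ℝ) : Fin 2 → ℝ := fun i => x (Sum.inl i)

/-- the deviation from the base pattern -/
noncomputable def dev (x : I ρ → ℝ) : ρ × ℤ → ℝ := fun j => x (Sum.inr j) - S.ξ (cl x) j

lemma ξ_add (v w : Fin 2 → ℝ) : S.ξ (v + w) = S.ξ v + S.ξ w := by
  funext j; by_cases h : j.2 ∈ S.P j.1 <;> simp [ξ, cv, h]; ring

lemma ξ_smul (t : ℝ) (v : Fin 2 → ℝ) : S.ξ (t • v) = t • S.ξ v := by
  funext j; by_cases h : j.2 ∈ S.P j.1 <;> simp [ξ, cv, h]; ring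

lemma dev_add (x y : I ρ → ℝ) : S.dev (x + y) = S.dev x + S.dev y := by
  funext j
  have : cl (x + y) = cl x + cl y := rfl
  simp only [dev, this, ξ_add, Pi.add_apply]; ring

lemma dev_smul (t : ℝ) (x : I ρ → ℝ) : S.dev (t • x) = t • S.dev x := by
  funext j
  have : cl (t • x) = t • cl x := rfl
  simp only [dev, this, ξ_smul, Pi.smul_apply, smul_eq_mul]; ring

lemma dev_sub (x y : I ρ → ℝ) : S.dev (x - y) = S.dev x - S.dev y := by
  rw [sub_eq_add_neg, dev_add, ← neg_one_smul ℝ y, dev_smul, neg_one_smul, sub_eq_add_neg]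

/-- size of the class -/
def sz (x : I ρ → ℝ) : ℝ := |x (Sum.inl 0)| + |x (Sum.inl 1)|

lemma sz_nonneg (x : I ρ → ℝ) : 0 ≤ sz x := by unfold sz; positivity

lemma abs_le_q (j : ρ × ℤ) (a : ρ × ℤ → ℝ) : |a j| ≤ 2 ^ j.2.natAbs * S.q j a := by
  have := S.κ0 j.1
  rw [q, ← mul_assoc, ← mul_pow]
  simp only [mul_one_div_cancel (two_ne_zero' ℝ), one_pow, one_mul, le_add_iff_nonneg_right]
  positivity

lemma cv_le (r : ρ) (v : Fin 2 → ℝ) : |S.cv r v| ≤ (|S.c r 0| + |S.c r 1|) * (|v 0| + |v 1|) := by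
  refine (abs_add_le _ _).trans ?_
  rw [abs_mul, abs_mul]
  nlinarith [abs_nonneg (S.c r 0), abs_nonneg (S.c r 1), abs_nonneg (v 0), abs_nonneg (v 1),
    mul_nonneg (abs_nonneg (S.c r 0)) (abs_nonneg (v 1)),
    mul_nonneg (abs_nonneg (S.c r 1)) (abs_nonneg (v 0))]

lemma ξ_le (v : Fin 2 → ℝ) (j : ρ × ℤ) : |S.ξ v j| ≤ |S.cv j.1 v| := by
  by_cases h : j.2 ∈ S.P j.1 <;> simp [ξ, h]

/-- the family -/
noncomputable def F : Fam ℝ (I ρ) (ρ × ℤ) where
  p j := Seminorm.of (fun x => sz x + S.q j (S.dev x))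
      (fun x y => by
        have h1 := S.q_add j (S.dev x) (S.dev y)
        have h2 := abs_add_le (x (Sum.inl 0)) (y (Sum.inl 0))
        have h3 := abs_add_le (x (Sum.inl 1)) (y (Sum.inl 1))
        simp only [dev_add, sz, Pi.add_apply]; linarith)
      (fun t x => by simp only [dev_smul, q_smul, sz, Pi.smul_apply, smul_eq_mul, abs_mul,
        Real.norm_eq_abs]; ring)
  cont j := by
    have : ∀ j, Continuous (fun x : I ρ → ℝ => S.dev x j) := fun j => by
      by_cases h : j.2 ∈ S.P j.1 <;> simp only [dev, ξ, cv, cl, h, Set.indicator_of_mem,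
        Set.indicator_of_notMem, not_false_eq_true] <;> fun_prop
    change Continuous fun x => sz x + S.q j (S.dev x)
    unfold sz q
    fun_prop
  dom i := by
    rcases i with i | j
    · refine S.ne.elim fun r => ⟨(r, 0), 1, zero_le_one, fun x => ?_⟩
      change |x _| ≤ 1 * (sz x + S.q _ _)
      have := S.q_nonneg (r, 0) (S.dev x)
      fin_cases i <;> simp only [sz, Fin.zero_eta, Fin.mk_one] <;>
        linarith [abs_nonneg (x (Sum.inl 0)), abs_nonneg (x (Sum.inl 1))]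
    · refine ⟨j, 2 ^ j.2.natAbs + (|S.c j.1 0| + |S.c j.1 1|), by positivity, fun x => ?_⟩
      change |x _| ≤ _ * (sz x + S.q _ _)
      have h1 := S.abs_le_q j (S.dev x)
      have h2 := (S.ξ_le (cl x) j).trans (S.cv_le j.1 (cl x))
      have h3 := abs_add_le (S.dev x j) (S.ξ (cl x) j)
      have h4 := S.q_nonneg j (S.dev x)
      have h5 := sz_nonneg x
      rw [dev, sub_add_cancel] at h3
      change _ ≤ _ * sz x at h2
      have h6 : (0 : ℝ) ≤ 2 ^ j.2.natAbs := by positivity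
      have h7 : 0 ≤ |S.c j.1 0| + |S.c j.1 1| := by positivity
      change |S.dev x j| ≤ _ at h1
      unfold dev at h1 h4 ⊢
      nlinarith [mul_nonneg h6 h5, mul_nonneg h7 h4]
  ne := S.ne.elim fun r => ⟨(r, 0)⟩

lemma F_p (j : ρ × ℤ) (x : I ρ → ℝ) : S.F.p j x = sz x + S.q j (S.dev x) := rfl

lemma q_le_norm (x : S.F.Z) (j : ρ × ℤ) : S.q j (S.dev (S.F.val x)) ≤ ‖x‖ :=
  (le_add_of_nonneg_left (sz_nonneg _)).trans (Fam.le_norm x j)

/-- the space -/
def X : Submodule ℝ S.F.Z where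
  carrier := {x | Tendsto (fun j => S.q j (S.dev (S.F.val x))) cofinite (𝓝 0)}
  add_mem' := by
    intro x y hx hy
    refine squeeze_zero (fun j => S.q_nonneg _ _) (fun j => ?_) (by simpa using hx.add hy)
    rw [map_add, dev_add]; exact S.q_add _ _ _
  zero_mem' := by
    have : S.dev 0 = (0 : ℝ) • S.dev 0 := by rw [← dev_smul, zero_smul]
    change Tendsto (fun j => S.q j (S.dev 0)) _ _
    rw [this]; simp only [q_smul, abs_zero, zero_mul]; exact tendsto_const_nhds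
  smul_mem' := by
    intro t x hx
    have := Tendsto.const_mul |t| hx
    simpa [dev_smul, q_smul] using this

lemma X_closed : IsClosed (S.X : Set S.F.Z) := by
  refine isClosed_of_closure_subset (fun x hx => ?_)
  refine Metric.tendsto_nhds.2 (fun ε hε => ?_)
  obtain ⟨y, hy, hd⟩ := Metric.mem_closure_iff.1 hx (ε / 2) (by positivity)
  filter_upwards [Metric.tendsto_nhds.1 hy (ε / 2) (by positivity)] with j hj
  rw [Real.dist_0_eq_abs, abs_of_nonneg (S.q_nonneg _ _)] at hj ⊢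
  have h1 := S.q_add j (S.dev (S.F.val (x - y))) (S.dev (S.F.val y))
  rw [← dev_add, ← map_add, sub_add_cancel] at h1
  rw [dist_eq_norm] at hd
  linarith [S.q_le_norm (x - y) j]

instance : CompleteSpace S.X := S.X_closed.completeSpace_coe

/-- the shift -/
def sh (ρ : Type) (s : ℤ) : (I ρ → ℝ) →ₗ[ℝ] (I ρ → ℝ) :=
  LinearMap.funLeft ℝ ℝ (Sum.map id (fun j => (j.1, j.2 + s)))

/-- the jump of the base pattern -/
noncomputable def jump (s : ℤ) (v : Fin 2 → ℝ) : ρ × ℤ → ℝ := fun l => S.ξ v (l.1, l.2 + s) - S.ξ v l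

/-- slowly varying base pattern -/
def Good : Prop := ∀ s : ℤ, s.natAbs = 1 → ∀ v, Tendsto (fun j => S.q j (S.jump s v)) cofinite (𝓝 0)

lemma q_sh (s : ℤ) (hs : s.natAbs = 1) (x : I ρ → ℝ) (j : ρ × ℤ) :
    S.q j (S.dev (sh ρ s x)) ≤ 2 * S.q (j.1, j.2 + s) (S.dev x) + S.q j (S.jump s (cl x)) := by
  have : S.dev (sh ρ s x) = (fun i => S.dev x (i.1, i.2 + s)) + S.jump s (cl x) := by
    funext i
    change x (Sum.inr (i.1, i.2 + s)) - S.ξ (cl x) i = _
    simp [dev, jump]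
  rw [this]
  exact (S.q_add _ _ _).trans (add_le_add_left (S.q_shift j _ s hs) _)

variable {S}

lemma Good.bound (h : S.Good) (s : ℤ) (hs : s.natAbs = 1) : ∃ C, ∀ a M,
    (∀ j, S.F.p j a ≤ M) → ∀ j, S.F.p j (sh ρ s a) ≤ C * M := by
  obtain ⟨C0, h0⟩ := (h s hs ![1, 0]).bddAbove_range_of_cofinite
  obtain ⟨C1, h1⟩ := (h s hs ![0, 1]).bddAbove_range_of_cofinite
  refine ⟨2 + (max C0 0 + max C1 0), fun a M hM j => ?_⟩
  have e : S.jump s (cl a) = a (Sum.inl 0) • S.jump s ![1, 0] + a (Sum.inl 1) • S.jump s ![0, 1] := by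
    have : cl a = a (Sum.inl 0) • ![1, 0] + a (Sum.inl 1) • ![0, 1] := by
      funext i; fin_cases i <;> simp [cl]
    funext l
    rw [jump, this, ξ_add, ξ_smul, ξ_smul]
    simp only [jump, Pi.add_apply, Pi.smul_apply, smul_eq_mul]; ring
  have h2 := S.q_sh s hs a j
  have h3 := S.q_add j (a (Sum.inl 0) • S.jump s ![1, 0]) (a (Sum.inl 1) • S.jump s ![0, 1])
  rw [← e, q_smul, q_smul] at h3
  have h4 := (h0 ⟨j, rfl⟩).trans (le_max_left C0 0)
  have h5 := (h1 ⟨j, rfl⟩).trans (le_max_left C1 0)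
  have h6 := hM (j.1, j.2 + s)
  have h7 := S.q_nonneg (j.1, j.2 + s) (S.dev a)
  rw [F_p] at h6 ⊢
  change sz a + _ ≤ _
  unfold sz at *
  have h8 := abs_nonneg (a (Sum.inl 0))
  have h9 := abs_nonneg (a (Sum.inl 1))
  have h10 := mul_le_mul (by linarith : |a (Sum.inl 0)| ≤ M) h4 (S.q_nonneg _ _) (by linarith)
  have h11 := mul_le_mul (by linarith : |a (Sum.inl 1)| ≤ M) h5 (S.q_nonneg _ _) (by linarith)
  nlinarith

/-- the shift operator on the space -/
noncomputable def Good.T (h : S.Good) (s : ℤ) (hs : s.natAbs = 1) : S.X →L[ℝ] S.X :=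
  (S.F.op (sh ρ s) _ (h.bound s hs).choose_spec).restrict (fun x hx => by
    refine squeeze_zero (fun j => S.q_nonneg _ _) (fun j => S.q_sh s hs _ j) ?_
    have : Function.Injective (fun j : ρ × ℤ => (j.1, j.2 + s)) := fun a b hab => by
      simpa [Prod.ext_iff] using hab
    have h1 := ((Tendsto.comp hx this.tendsto_cofinite).const_mul 2).add (h s hs (cl (S.F.val x)))
    rw [mul_zero, add_zero] at h1
    exact h1)

/-- the array of a vector -/
noncomputable def arr (x : S.X) (j : ρ × ℤ) : ℝ := S.F.val x.1 (Sum.inr j)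

/-- the class of a vector -/
noncomputable def cls (S : Sys ρ) : S.X →L[ℝ] (Fin 2 → ℝ) :=
  ContinuousLinearMap.pi fun i => (S.F.ev (Sum.inl i)).comp S.X.subtypeL

lemma cls_eq (x : S.X) : S.cls x = cl (S.F.val x.1) := rfl

lemma Good.arr_T (h : S.Good) (s : ℤ) (hs : s.natAbs = 1) (n : ℕ) (x : S.X) (j : ρ × ℤ) :
    arr ((h.T s hs)^[n] x) j = arr x (j.1, j.2 + n * s) := by
  induction n generalizing j with
  | zero => simp
  | succ n ih =>
    rw [Function.iterate_succ_apply']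
    change arr ((h.T s hs)^[n] x) (j.1, j.2 + s) = _
    rw [ih]; congr 2; push_cast; ring

lemma Good.cls_T (h : S.Good) (s : ℤ) (hs : s.natAbs = 1) (n : ℕ) (x : S.X) :
    S.cls ((h.T s hs)^[n] x) = S.cls x := by
  induction n with
  | zero => rfl
  | succ n ih => rw [Function.iterate_succ_apply', ← ih]; rfl

lemma Good.T_inv (h : S.Good) (s : ℤ) (hs : s.natAbs = 1) (hs' : (-s).natAbs = 1) (x : S.X) :
    h.T s hs (h.T (-s) hs' x) = x := by
  refine Subtype.ext (S.F.val_inj (funext fun i => ?_))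
  rcases i with i | j
  · rfl
  · change S.F.val x.1 (Sum.inr (j.1, j.2 + s + -s)) = _
    simp

lemma dev_eq (x : S.X) : S.dev (S.F.val x.1) = arr x - S.ξ (S.cls x) := rfl

lemma ξ_zero : S.ξ 0 = 0 := by funext j; simp [ξ, cv]

lemma norm_sub_le {x y : S.X} (h : S.cls x = S.cls y) {ε : ℝ}
    (hq : ∀ j, S.q j (arr x - arr y) ≤ ε) : ‖x - y‖ ≤ ε := by
  refine Fam.norm_le (a := (x - y).1) (fun j => ?_)
  have h0 : S.cls (x - y) = 0 := by rw [map_sub, h, sub_self]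
  have h1 : sz (S.F.val (x - y).1) = 0 := by
    change |S.cls (x - y) 0| + |S.cls (x - y) 1| = 0
    simp [h0]
  rw [F_p, h1, dev_eq, h0, ξ_zero, zero_add, sub_zero]
  exact hq j

lemma q_le_norm_sub {x y : S.X} (h : S.cls x = S.cls y) (j : ρ × ℤ) :
    S.q j (arr x - arr y) ≤ ‖x - y‖ := by
  have := S.q_le_norm (x - y).1 j
  rwa [dev_eq, map_sub, h, sub_self, ξ_zero, sub_zero] at this

lemma exists_vec (v : Fin 2 → ℝ) (z : ρ × ℤ → ℝ)
    (hz : Tendsto (fun j => S.q j (z - S.ξ v)) cofinite (𝓝 0)) :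
    ∃ x : S.X, S.cls x = v ∧ arr x = z := by
  obtain ⟨C, hC⟩ := hz.bddAbove_range_of_cofinite
  exact ⟨⟨S.F.mk' (Sum.elim v z) ⟨|v 0| + |v 1| + C, fun j => add_le_add_right (hC ⟨j, rfl⟩) _⟩, hz⟩,
    rfl, rfl⟩

lemma fin_tendsto {a : ρ × ℤ → ℝ} (ha : (Function.support a).Finite) :
    Tendsto (fun j => S.q j a) cofinite (𝓝 0) := by
  classical
  refine tendsto_nhds_of_eventually_eq ?_
  refine (ha.biUnion (t := fun l => (fun n => (l.1, l.2 - n)) '' (insert 0 (S.R l.1) : Finset ℤ))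
    (fun l _ => (finite_toSet _).image _)).subset (fun j hj => ?_)
  by_contra hn
  simp only [Set.mem_iUnion, Set.mem_image, not_exists, not_and, Function.mem_support] at hn
  have h0 : ∀ n ∈ insert 0 (S.R j.1), a (j.1, j.2 + n) = 0 := fun n hn' => by
    by_contra h
    exact hn (j.1, j.2 + n) h n hn' (by simp)
  refine hj ?_
  have h1 : a j = 0 := by simpa using h0 0 (mem_insert_self _ _)
  simp [q, h1, sum_eq_zero (fun n hn' => abs_eq_zero.2 (h0 n (mem_insert_of_mem hn')))]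

lemma dense_of {G : Set S.X} {Θ : Set (Fin 2 → ℝ)} (hΘ : Dense Θ)
    (h : ∀ x : S.X, S.cls x ∈ Θ → (Function.support (arr x - S.ξ (S.cls x))).Finite →
      x ∈ closure G) : Dense G := by
  classical
  intro x
  refine Metric.mem_closure_iff.2 (fun ε hε => ?_)
  have h1 := Metric.tendsto_nhds.1 x.2 (ε / 4) (by positivity)
  rw [eventually_cofinite] at h1
  obtain ⟨v, hv, hd⟩ := Metric.mem_closure_iff.1 (hΘ (S.cls x)) (ε / 8) (by positivity)
  let W : Set (ρ × ℤ) := ⋃ j ∈ {j | ¬dist (S.q j (S.dev (S.F.val x.1))) 0 < ε / 4},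
    (fun n => (j.1, j.2 + n)) '' (insert 0 (S.R j.1) : Finset ℤ)
  have hW : W.Finite := h1.biUnion (fun l _ => (finite_toSet _).image _)
  have hs : (Function.support (W.indicator (S.dev (S.F.val x.1)))).Finite :=
    hW.subset Set.support_indicator_subset
  obtain ⟨y, hy1, hy2⟩ := exists_vec v (W.indicator (S.dev (S.F.val x.1)) + S.ξ v)
    (by rw [add_sub_cancel_right]; exact fin_tendsto hs)
  obtain ⟨g, hg, hgd⟩ := Metric.mem_closure_iff.1 (h y (hy1 ▸ hv)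
    (by rw [hy2, hy1, add_sub_cancel_right]; exact hs)) (ε / 2) (by positivity)
  refine ⟨g, hg, (dist_triangle x y g).trans_lt ?_⟩
  suffices dist x y ≤ ε / 2 by linarith
  rw [dist_eq_norm]
  refine Fam.norm_le (a := (x - y).1) (fun j => ?_)
  have h2 : sz (S.F.val (x - y).1) ≤ ε / 4 := by
    change |S.cls (x - y) 0| + |S.cls (x - y) 1| ≤ _
    rw [map_sub, hy1]
    have := (dist_le_pi_dist (S.cls x) v 0).trans hd.le
    have := (dist_le_pi_dist (S.cls x) v 1).trans hd.le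
    simp only [Real.dist_eq, Pi.sub_apply] at *
    linarith
  have h3 : S.dev (S.F.val (x - y).1) = Wᶜ.indicator (S.dev (S.F.val x.1)) := by
    rw [Submodule.coe_sub, map_sub, dev_sub, dev_eq y, hy2, hy1, add_sub_cancel_right,
      Set.indicator_compl]
  rw [F_p, h3]
  suffices S.q j (Wᶜ.indicator (S.dev (S.F.val x.1))) ≤ ε / 4 by linarith
  by_cases hj : dist (S.q j (S.dev (S.F.val x.1))) 0 < ε / 4
  · rw [Real.dist_0_eq_abs, abs_of_nonneg (S.q_nonneg _ _)] at hj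
    refine (S.q_mono j (fun m => ?_)).trans hj.le
    by_cases hm : (j.1, m) ∈ Wᶜ <;> simp [hm]
  · have h0 : ∀ n ∈ insert 0 (S.R j.1), Wᶜ.indicator (S.dev (S.F.val x.1)) (j.1, j.2 + n) = 0 :=
      fun n hn => Set.indicator_of_notMem (fun hc : _ ∈ Wᶜ => hc (Set.mem_biUnion (x := j) hj
        ⟨n, hn, rfl⟩)) _
    have h1 : Wᶜ.indicator (S.dev (S.F.val x.1)) j = 0 := by simpa using h0 0 (mem_insert_self _ _)
    rw [q, h1, sum_eq_zero (fun n hn' => abs_eq_zero.2 (h0 n (mem_insert_of_mem hn')))]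
    simp; positivity

lemma Good.detect (h : S.Good) (s : ℤ) (hs : s.natAbs = 1) (x : S.X) (r : ρ) (h0 : 0 ∈ S.P r)
    (B : Finset ℕ) (hB : ∀ n ∈ B, (n * s : ℤ) ∈ S.R r ∧ (n * s : ℤ) ∉ S.P r ∧
      ‖(h.T s hs)^[n] x - x‖ ≤ 1 / 8) (hc : 1 / 2 ≤ |S.cv r (S.cls x)|)
    (hq : S.q (r, 0) (arr x - S.ξ (S.cls x)) ≤ 1 / 8) :
    S.κ r * B.card ≤ 4 * S.q (r, 0) (arr x - S.ξ (S.cls x)) := by
  have hκ := S.κ0 r
  have h1 : |arr x (r, 0) - S.cv r (S.cls x)| ≤ 1 / 8 := by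
    have := (S.abs_le_q (r, 0) (arr x - S.ξ (S.cls x))).trans (by simpa using hq)
    simpa [ξ, h0] using this
  have h2 : ∀ n ∈ B, 1 / 4 ≤ |(arr x - S.ξ (S.cls x)) (r, 0 + n * s)| := by
    intro n hn
    have h3 := (S.abs_le_q (r, 0) _).trans (by
      simpa using (q_le_norm_sub (h.cls_T s hs n x) (r, 0)).trans (hB n hn).2.2)
    rw [Pi.sub_apply, h.arr_T] at h3
    simp only [Pi.sub_apply, ξ, zero_add, Set.indicator_of_notMem (hB n hn).2.1, sub_zero] at h3 ⊢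
    have h4 := abs_sub_abs_le_abs_sub (S.cv r (S.cls x)) (arr x (r, 0))
    have h5 := abs_sub_abs_le_abs_sub (arr x (r, 0)) (arr x (r, n * s))
    rw [abs_sub_comm] at h4 h5
    norm_num at h3
    linarith
  have hi : Function.Injective (fun n : ℕ => (n * s : ℤ)) := fun a b hab => by
    have : s ≠ 0 := by omega
    exact_mod_cast mul_right_cancel₀ this hab
  have h6 : (B.card : ℝ) * (1 / 4) ≤ ∑ n ∈ S.R r, |(arr x - S.ξ (S.cls x)) (r, 0 + n)| := by
    refine le_trans ?_ (sum_le_sum_of_subset_of_nonneg (s := B.map ⟨_, hi⟩) (fun n hn => ?_)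
      (fun _ _ _ => abs_nonneg _))
    · rw [sum_map]
      simpa using card_nsmul_le_sum B _ _ h2
    · obtain ⟨n', hn', rfl⟩ := mem_map.1 hn
      exact (hB n' hn').1
  have h7 := mul_le_mul_of_nonneg_left h6 hκ
  simp only [q, Int.natAbs_zero, pow_zero, one_mul]
  linarith [abs_nonneg ((arr x - S.ξ (S.cls x)) (r, 0))]

end Sys

end Pool.Agent.H93
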