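import Mathlib
import Pool.Agent.H93.Rows

set_option autoImplicit false

namespace Pool.Agent.H93

open Filter Topology Finset

open Classical in
/-- follow a relation that decreases the modulus -/
noncomputable def coll (z : ℤ → ℝ) (Rl : ℤ → ℤ → Prop) (p : ℤ) : ℝ :=
  if h : ∃ q, Rl p q ∧ q.natAbs < p.natAbs then coll z Rl h.choose else z p
termination_by p.natAbs
decreasing_by exact h.choose_spec.2

lemma coll_val (z : ℤ → ℝ) (Rl : ℤ → ℤ → Prop) (p : ℤ) :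
    ∃ p' : ℤ, p'.natAbs ≤ p.natAbs ∧ coll z Rl p = z p' := by
  induction hn : p.natAbs using Nat.strong_induction_on generalizing p with
  | _ n ih =>
    rw [coll]
    split_ifs with h
    · obtain ⟨p', h1, h2⟩ := ih _ (hn ▸ h.choose_spec.2) h.choose rfl
      exact ⟨p', by have := h.choose_spec.2; omega, h2⟩
    · exact ⟨p, hn.le, rfl⟩

/-- schedule of windows -/
structure Sch where
  used : ℕ → Prop
  E : ℕ → ℕ
  D : ℕ → ℕ
  len : ℕ → ℕ
  hE : ∀ K, 0 < E K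
  hED : ∀ K, 2 * E K ≤ D K
  hD : ∀ K, used K → D K ≤ len K
  hlen : ∀ K, used K → 4 * len K ≤ 4 ^ K

namespace Sch

variable (W : Sch)

/-- return times -/
def Ret (K n : ℕ) : Prop := ∃ u : ℕ, n = 2 * 4 ^ K + u * W.D K ∧ u * W.D K < W.len K

/-- the collapsing relation -/
def Rel (fill : ℕ → Prop) (p q : ℤ) : Prop := ∃ K, W.used K ∧
  ((fill K ∧ 3 * 4 ^ K ≤ 2 * p ∧ p < 3 * 4 ^ K ∧ q = 0) ∨
    (¬ fill K ∧ ∃ n : ℕ, W.Ret K n ∧ |p - n| < W.E K ∧ q = p - n))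

variable {W}

lemma Ret.bd {K n : ℕ} (h : W.Ret K n) :
    2 * (4 : ℤ) ^ K ≤ n ∧ (n : ℤ) < 2 * 4 ^ K + W.len K := by
  obtain ⟨u, rfl, h⟩ := h
  constructor
  · exact_mod_cast Nat.le_add_right _ _
  · exact_mod_cast Nat.add_lt_add_left h _

lemma bds {K : ℕ} (h : W.used K) : 2 * (W.E K : ℤ) ≤ W.len K ∧ 4 * (W.len K : ℤ) ≤ 4 ^ K :=
  ⟨by exact_mod_cast (W.hED K).trans (W.hD K h), by exact_mod_cast W.hlen K h⟩

lemma scale_eq {K K' : ℕ} {p : ℤ} (h1 : 4 ^ K ≤ p) (h2 : p < 4 * 4 ^ K) (h3 : 4 ^ K' ≤ p)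
    (h4 : p < 4 * 4 ^ K') : K = K' := by
  have a : (4 : ℤ) ^ K < 4 ^ (K' + 1) := by rw [pow_succ]; linarith
  have b : (4 : ℤ) ^ K' < 4 ^ (K + 1) := by rw [pow_succ]; linarith
  have := (pow_lt_pow_iff_right₀ (by norm_num)).1 a
  have := (pow_lt_pow_iff_right₀ (by norm_num)).1 b
  omega

lemma Rel.lt {fill : ℕ → Prop} {p q : ℤ} (h : W.Rel fill p q) : q.natAbs < p.natAbs := by
  obtain ⟨K, hK, h | ⟨-, n, hn, h1, rfl⟩⟩ := h
  · have : (0 : ℤ) < 4 ^ K := by positivity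
    omega
  · have := hn.bd
    have := bds hK
    rw [abs_lt] at h1
    omega

lemma Rel.uniq {fill : ℕ → Prop} {p q q' : ℤ} (h : W.Rel fill p q) (h' : W.Rel fill p q') :
    q = q' := by
  have key : ∀ {q K}, W.used K → ((fill K ∧ 3 * 4 ^ K ≤ 2 * p ∧ p < 3 * 4 ^ K ∧ q = 0) ∨
      (¬ fill K ∧ ∃ n : ℕ, W.Ret K n ∧ |p - n| < W.E K ∧ q = p - n)) →
      4 ^ K ≤ p ∧ p < 4 * 4 ^ K := by
    rintro q K hK (h | ⟨-, n, hn, h1, -⟩)
    · have : (0 : ℤ) < 4 ^ K := by positivity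
      omega
    · have := hn.bd
      have := bds hK
      rw [abs_lt] at h1
      omega
  obtain ⟨K, hK, h⟩ := h
  obtain ⟨K', hK', h'⟩ := h'
  obtain rfl := scale_eq (key hK h).1 (key hK h).2 (key hK' h').1 (key hK' h').2
  rcases h with h | ⟨h, n, ⟨u, rfl, -⟩, h1, rfl⟩ <;> rcases h' with h' | ⟨h', n', ⟨u', rfl, -⟩, h2, rfl⟩
  · rw [h.2.2.2, h'.2.2.2]
  · exact absurd h.1 h'
  · exact absurd h'.1 h
  · have h3 : 2 * (W.E K : ℤ) ≤ W.D K := by exact_mod_cast W.hED K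
    rw [abs_lt] at h1 h2
    push_cast at h1 h2 ⊢
    obtain rfl : u = u' := by
      rcases lt_trichotomy u u' with h | h | h
      · have : (u : ℤ) + 1 ≤ u' := by exact_mod_cast h
        nlinarith
      · exact h
      · have : (u' : ℤ) + 1 ≤ u := by exact_mod_cast h
        nlinarith
    rfl

lemma coll_rel {fill : ℕ → Prop} (z : ℤ → ℝ) {p q : ℤ} (h : W.Rel fill p q) :
    coll z (W.Rel fill) p = coll z (W.Rel fill) q := by
  have h1 : ∃ q, W.Rel fill p q ∧ q.natAbs < p.natAbs := ⟨q, h, h.lt⟩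
  rw [coll, dif_pos h1, h1.choose_spec.1.uniq h]

lemma coll_ne {fill : ℕ → Prop} (z : ℤ → ℝ) {p : ℤ} (h : coll z (W.Rel fill) p ≠ z p) :
    ∃ K, W.used K ∧ 3 * 4 ^ K ≤ 2 * p ∧ p < 3 * 4 ^ K ∧
      (¬ fill K → ∃ n : ℕ, W.Ret K n ∧ |p - n| < W.E K) := by
  by_cases h1 : ∃ q, W.Rel fill p q ∧ q.natAbs < p.natAbs
  · obtain ⟨q, ⟨K, hK, h | ⟨-, n, hn, h1, -⟩⟩, -⟩ := h1
    · exact ⟨K, hK, h.2.1, h.2.2.1, fun h' => absurd h.1 h'⟩
    · have := hn.bd
      have := bds hK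
      refine ⟨K, hK, ?_, ?_, fun _ => ⟨n, hn, h1⟩⟩ <;> rw [abs_lt] at h1 <;> omega
  · rw [coll, dif_neg h1] at h; exact absurd rfl h

lemma coll_ret {fill : ℕ → Prop} (z : ℤ → ℝ) {K n : ℕ} (hK : W.used K) (hf : ¬ fill K)
    (hn : W.Ret K n) {m : ℤ} (hm : |m| < W.E K) :
    coll z (W.Rel fill) (m + n) = coll z (W.Rel fill) m :=
  coll_rel z ⟨K, hK, Or.inr ⟨hf, n, hn, by simpa using hm, by ring⟩⟩

open Classical in
/-- offsets hitting another bump -/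
noncomputable def bad (E D L : ℕ) : Finset ℤ :=
  (Icc (-L : ℤ) L).filter (fun o => (E : ℤ) ≤ |o| ∧ ∃ u : ℤ, |o - u * D| < E)

lemma card_bad {E D : ℕ} (hE : 0 < E) (h : 2 * E ≤ D) (L : ℕ) :
    ((bad E D L).card : ℝ) ≤ 8 * E * L / D := by
  have hD : 0 < D := by omega
  set U : ℕ := 2 * L / D
  have h1 : bad E D L ⊆ (((Icc (-U : ℤ) U).erase 0) ×ˢ (Ioo (-E : ℤ) E)).image
      (fun w => w.1 * D + w.2) := by
    intro o ho
    simp only [bad, mem_filter, mem_Icc] at ho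
    obtain ⟨⟨h1, h2⟩, h3, u, hu⟩ := ho
    have hu0 : u ≠ 0 := by rintro rfl; simp at hu; omega
    have h4 : (u.natAbs : ℤ) * D ≤ 2 * L := by
      have h5 : (2 * E : ℤ) ≤ D := by exact_mod_cast h
      have h6 : (1 : ℤ) ≤ u.natAbs := by omega
      rw [abs_lt] at hu
      rcases Int.natAbs_eq u with e | e <;> rw [e] at hu <;> nlinarith
    have h7 : u.natAbs ≤ U := (Nat.le_div_iff_mul_le hD).2 (by exact_mod_cast h4)
    refine mem_image.2 ⟨(u, o - u * D), ?_, by simp⟩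
    simp only [mem_product, mem_erase, mem_Icc, mem_Ioo]
    exact ⟨⟨hu0, by omega, by omega⟩, abs_lt.1 hu⟩
  have h2 := (card_le_card h1).trans card_image_le
  rw [card_product, card_erase_of_mem (by simp), Int.card_Icc, Int.card_Ioo] at h2
  have h3 : (bad E D L).card ≤ 2 * U * (2 * E) := h2.trans (Nat.mul_le_mul (by omega) (by omega))
  have h4 : U * D ≤ 2 * L := Nat.div_mul_le_self _ _
  rw [le_div_iff₀ (by positivity)]
  have h5 : (bad E D L).card * D ≤ 8 * E * L := by nlinarith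
  exact_mod_cast h5

lemma mem_bad {K n n' L : ℕ} (hn : W.Ret K n) (hn' : W.Ret K n') {o : ℤ} (h1 : |o| ≤ L)
    (h2 : (W.E K : ℤ) ≤ |o|) (h3 : |o + n - n'| < W.E K) : o ∈ bad (W.E K) (W.D K) L := by
  obtain ⟨u, rfl, -⟩ := hn
  obtain ⟨u', rfl, -⟩ := hn'
  simp only [bad, mem_filter, mem_Icc]
  refine ⟨abs_le.1 h1, h2, u' - u, ?_⟩
  convert h3 using 2
  push_cast; ring

lemma ret_card {K : ℕ} (hK : W.used K) : ∃ A : Finset ℕ, (∀ n ∈ A, W.Ret K n) ∧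
    (W.len K : ℝ) ≤ 2 * W.D K * A.card := by
  have hD : 0 < W.D K := by have := W.hE K; have := W.hED K; omega
  refine ⟨(range (W.len K / W.D K)).map ⟨fun u => 2 * 4 ^ K + u * W.D K, fun a b h => ?_⟩,
    fun n hn => ?_, ?_⟩
  · exact Nat.eq_of_mul_eq_mul_right hD (Nat.add_left_cancel h)
  · obtain ⟨u, hu, rfl⟩ := mem_map.1 hn
    refine ⟨u, rfl, ?_⟩
    have := mem_range.1 hu
    have := Nat.div_mul_le_self (W.len K) (W.D K)
    nlinarith
  · rw [card_map, card_range]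
    have h1 := Nat.div_add_mod (W.len K) (W.D K)
    have h2 := Nat.mod_lt (W.len K) hD
    have h3 : 1 ≤ W.len K / W.D K := (Nat.le_div_iff_mul_le hD).2 (by simpa using W.hD K hK)
    have : W.len K ≤ 2 * W.D K * (W.len K / W.D K) := by nlinarith
    exact_mod_cast this

end Sch

lemma sum_le_card {R B : Finset ℤ} {d : ℤ → ℝ} {b : ℝ} (hb : 0 ≤ b) (m : ℤ)
    (h : ∀ p ∈ R, |d p| ≤ b ∧ (d p ≠ 0 → m + p ∈ B)) : ∑ p ∈ R, |d p| ≤ b * B.card := by
  classical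
  rw [← sum_filter_ne_zero]
  refine (sum_le_card_nsmul _ _ b (fun p hp => (h p (mem_filter.1 hp).1).1)).trans ?_
  rw [nsmul_eq_mul, mul_comm]
  refine mul_le_mul_of_nonneg_left (Nat.cast_le.2 ?_) hb
  refine card_le_card_of_injOn (fun p => m + p) (fun p hp => ?_) (fun a _ b _ h => by simpa using h)
  have := mem_filter.1 (mem_coe.1 hp)
  exact (h p this.1).2 (abs_ne_zero.1 this.2)

/-- small quantity -/
noncomputable def sm (k : ℕ) : ℝ := (k + 1) * (1 / 2) ^ k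

lemma sm_anti : Antitone sm := antitone_nat_of_succ_le (fun k => by
  unfold sm; push_cast
  rw [pow_succ]
  nlinarith [pow_pos (by norm_num : (0 : ℝ) < 1 / 2) k, (Nat.cast_nonneg k : (0 : ℝ) ≤ k)])

lemma sm_tendsto : Tendsto sm atTop (𝓝 0) := by
  have h1 := tendsto_pow_const_mul_const_pow_of_abs_lt_one 1 (r := 1 / 2) (by norm_num [abs_lt])
  have h2 := tendsto_pow_atTop_nhds_zero_of_lt_one (r := (1 / 2 : ℝ)) (by norm_num) (by norm_num)
  have := h1.add h2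
  rw [add_zero] at this
  exact this.congr (fun k => by unfold sm; ring)

lemma sm_small (C ε : ℝ) (hε : 0 < ε) : ∃ k₁, ∀ k ≥ k₁, C * sm k ≤ ε := by
  have := sm_tendsto.const_mul C
  rw [mul_zero] at this
  exact eventually_atTop.1 (this.eventually (ge_mem_nhds hε))

lemma tendsto_of_bd {ρ : Type} (lev : ρ → ℕ) (hl : ∀ k, {r | lev r ≤ k}.Finite) {f : ρ × ℤ → ℝ}
    (h0 : ∀ j, 0 ≤ f j) {C : ℝ} (hC : 0 ≤ C) (k₀ : ℕ)
    (h1 : ∀ j, f j ≤ C * ((lev j.1 + 1) * (1 / 2) ^ j.2.natAbs))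
    (h2 : ∀ j, k₀ ≤ lev j.1 → f j ≤ C * sm (lev j.1)) : Tendsto f cofinite (𝓝 0) := by
  refine Metric.tendsto_nhds.2 (fun ε hε => ?_)
  obtain ⟨k₁, hk⟩ := sm_small C (ε / 2) (by positivity)
  refine ((hl (k₀ + k₁)).prod (Set.finite_Icc (-(k₀ + k₁ : ℤ)) (k₀ + k₁))).subset (fun j hj => ?_)
  simp only [Set.mem_compl_iff, Set.mem_ofPred_eq, Real.dist_0_eq_abs, abs_of_nonneg (h0 j),
    not_lt] at hj
  have h3 : lev j.1 ≤ k₀ + k₁ := by
    by_contra h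
    linarith [h2 j (by omega), hk (lev j.1) (by omega)]
  refine ⟨h3, ?_⟩
  by_contra h
  have h4 : k₀ + k₁ ≤ j.2.natAbs := by simp only [Set.mem_Icc] at h; omega
  have h5 := hk j.2.natAbs (by omega)
  have h6 : (lev j.1 : ℝ) ≤ j.2.natAbs := by exact_mod_cast h3.trans h4
  have h7 : C * ((lev j.1 + 1) * (1 / 2) ^ j.2.natAbs) ≤ C * sm j.2.natAbs := by
    unfold sm; gcongr
  linarith [h1 j]

namespace Sys

variable {ρ : Type} {S : Sys ρ}

lemma good_of (lev : ρ → ℕ) (hl : ∀ k, {r | lev r ≤ k}.Finite)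
    (hc : ∀ r, |S.c r 0| + |S.c r 1| ≤ lev r + 1) (hκ : ∀ r, S.κ r ≤ (1 / 2) ^ lev r)
    (hP : ∀ r (s : ℤ), s.natAbs = 1 → ∃ m₁ m₂ : ℤ, ∀ m, (m + s ∈ S.P r ↔ m ∈ S.P r) ∨
      ((m = m₁ ∨ m = m₂) ∧ lev r ≤ m.natAbs)) : S.Good := by
  intro s hs v
  have hv : 0 ≤ |v 0| + |v 1| := by positivity
  have hb : ∀ r m, |S.jump s v (r, m)| ≤ (lev r + 1) * (|v 0| + |v 1|) := by
    intro r m
    refine le_trans ?_ ((S.cv_le r v).trans (mul_le_mul_of_nonneg_right (hc r) hv))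
    by_cases h1 : m ∈ S.P r <;> by_cases h2 : m + s ∈ S.P r <;> simp [jump, ξ, h1, h2]
  have hz : ∀ r m, (m + s ∈ S.P r ↔ m ∈ S.P r) → S.jump s v (r, m) = 0 := by
    intro r m h
    by_cases h1 : m ∈ S.P r <;> simp [jump, ξ, h1, h]
  refine tendsto_of_bd lev hl (fun j => S.q_nonneg _ _) (C := 3 * (|v 0| + |v 1|)) (by positivity) 0
    (fun j => (S.q_le j (hb j.1)).trans ?_) (fun j _ => ?_)
  · nlinarith [mul_nonneg hv (by positivity : (0 : ℝ) ≤ (lev j.1 + 1) * (1 / 2) ^ j.2.natAbs)]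
  · obtain ⟨m₁, m₂, h⟩ := hP j.1 s hs
    have h1 : (1 / 2 : ℝ) ^ j.2.natAbs * |S.jump s v j| ≤ (|v 0| + |v 1|) * sm (lev j.1) := by
      rcases h j.2 with h | h
      · rw [hz j.1 j.2 h]; unfold sm; simp only [abs_zero, mul_zero]; positivity
      · calc _ ≤ (1 / 2 : ℝ) ^ lev j.1 * ((lev j.1 + 1) * (|v 0| + |v 1|)) :=
              mul_le_mul (pow_le_pow_of_le_one (by norm_num) (by norm_num) h.2) (hb j.1 j.2)
                (abs_nonneg _) (by positivity)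
          _ = _ := by unfold sm; ring
    have h2 := sum_le_card (R := S.R j.1) (B := {m₁, m₂}) (d := fun n => S.jump s v (j.1, j.2 + n))
      (by positivity) j.2 (fun p _ => ⟨hb _ _, fun hne => by
        rcases h (j.2 + p) with h | h
        · exact absurd (hz _ _ h) hne
        · simpa using h.1⟩)
    have h3 : (({m₁, m₂} : Finset ℤ).card : ℝ) ≤ 2 := by exact_mod_cast card_le_two
    have h4 : (1 / 2 : ℝ) ^ j.2.natAbs ≤ 1 := pow_le_one₀ (by norm_num) (by norm_num)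
    have h5 : (1 / 2 : ℝ) ^ j.2.natAbs * (S.κ j.1 * ∑ n ∈ S.R j.1, |S.jump s v (j.1, j.2 + n)|) ≤
        1 * ((1 / 2) ^ lev j.1 * ((lev j.1 + 1) * (|v 0| + |v 1|) * 2)) := by
      have := S.κ0 j.1
      gcongr
      · exact hκ j.1
      · exact h2.trans (by gcongr)
    rw [q, mul_add]
    unfold sm at h1 ⊢
    linarith

lemma amp (lev : ρ → ℕ) (x : S.X) (hx : (Function.support (arr x - S.ξ (S.cls x))).Finite) :
    ∃ (B : ℝ) (k₀ : ℕ), 0 < B ∧ (∀ r m b, 1 ≤ b → |S.c r 0| + |S.c r 1| ≤ b → |arr x (r, m)| ≤ B * b) ∧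
      ∀ r m, k₀ ≤ lev r → arr x (r, m) = S.ξ (S.cls x) (r, m) := by
  obtain ⟨B, hB⟩ := (hx.image (fun j => |(arr x - S.ξ (S.cls x)) j|)).bddAbove
  obtain ⟨k, hk⟩ := (hx.image (fun j => lev j.1)).bddAbove
  refine ⟨max B 1 + (|S.cls x 0| + |S.cls x 1|), k + 1, by positivity, fun r m b hb hc => ?_,
    fun r m h => ?_⟩
  · have h1 : |(arr x - S.ξ (S.cls x)) (r, m)| ≤ max B 1 := by
      by_cases h : (arr x - S.ξ (S.cls x)) (r, m) = 0
      · rw [h]; simp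
      · exact (hB ⟨_, h, rfl⟩).trans (le_max_left _ _)
    have h2 := (S.ξ_le (S.cls x) (r, m)).trans ((S.cv_le r _).trans
      (mul_le_mul_of_nonneg_right hc (by positivity)))
    have h3 := abs_add_le ((arr x - S.ξ (S.cls x)) (r, m)) (S.ξ (S.cls x) (r, m))
    rw [Pi.sub_apply, sub_add_cancel] at h3
    rw [Pi.sub_apply] at h1
    nlinarith [le_max_right B 1]
  · by_contra h1
    have := hk ⟨(r, m), sub_ne_zero.2 h1, rfl⟩
    simp only at this
    omega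

lemma build (lev : ρ → ℕ) (hl : ∀ k, {r | lev r ≤ k}.Finite) (x : S.X) (z : ρ × ℤ → ℝ) {B : ℝ}
    (hB : 0 ≤ B) (K₀ : ℕ) (h1 : ∀ r m, |(z - arr x) (r, m)| ≤ B * (lev r + 1))
    (h2 : ∀ r (m : ℤ), m.natAbs + 3 ≤ max (lev r) K₀ → ∀ n ∈ insert 0 (S.R r),
      z (r, m + n) = arr x (r, m + n)) :
    ∃ y : S.X, S.cls y = S.cls x ∧ arr y = z ∧ ‖y - x‖ ≤ 8 * B * sm K₀ := by
  have h3 : ∀ j, S.q j (z - arr x) ≤ 8 * B * sm (max (lev j.1) K₀) := by
    intro j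
    by_cases h : j.2.natAbs + 3 ≤ max (lev j.1) K₀
    · have h4 := h2 j.1 j.2 h
      have h5 : z j = arr x j := by simpa using h4 0 (mem_insert_self _ _)
      rw [q, sum_eq_zero (fun n hn => by
        rw [Pi.sub_apply, h4 n (mem_insert_of_mem hn), sub_self, abs_zero])]
      simp only [Pi.sub_apply, h5, sub_self, abs_zero, mul_zero, add_zero]
      unfold sm; positivity
    · refine (S.q_le j (h1 j.1)).trans ?_
      have h4 : (1 / 2 : ℝ) ^ j.2.natAbs ≤ 4 * (1 / 2) ^ max (lev j.1) K₀ := by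
        calc _ = 4 * (1 / 2 : ℝ) ^ (j.2.natAbs + 2) := by ring
          _ ≤ _ := by
            gcongr 4 * ?_
            exact pow_le_pow_of_le_one (by norm_num) (by norm_num) (by omega)
      have h5 : (lev j.1 : ℝ) ≤ (max (lev j.1) K₀ : ℕ) := by exact_mod_cast le_max_left _ _
      calc _ ≤ 2 * (B * ((max (lev j.1) K₀ : ℕ) + 1)) * (4 * (1 / 2) ^ max (lev j.1) K₀) := by gcongr
        _ = _ := by unfold sm; ring
  have h4 : Tendsto (fun j => S.q j (z - arr x)) cofinite (𝓝 0) :=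
    tendsto_of_bd lev hl (fun j => S.q_nonneg _ _) (C := 8 * B) (by positivity) K₀
      (fun j => (S.q_le j (h1 j.1)).trans (by
        nlinarith [mul_nonneg hB (by positivity : (0 : ℝ) ≤ (lev j.1 + 1) * (1 / 2) ^ j.2.natAbs)]))
      (fun j hj => by simpa [hj] using h3 j)
  obtain ⟨y, hy1, hy2⟩ := exists_vec (S.cls x) z (by
    refine squeeze_zero (fun j => S.q_nonneg _ _) (fun j => ?_) (by simpa using h4.add x.2)
    have := S.q_add j (z - arr x) (arr x - S.ξ (S.cls x))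
    rwa [sub_add_sub_cancel] at this)
  refine ⟨y, hy1, hy2, norm_sub_le hy1 (fun j => ?_)⟩
  rw [hy2]
  exact (h3 j).trans (mul_le_mul_of_nonneg_left (sm_anti (le_max_right _ _)) (by positivity))

end Sys

end Pool.Agent.H93
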