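import Mathlib

set_option autoImplicit false

open Set Metric Filter Topology
open scoped RealInnerProductSpace

namespace Pool.Agent.H93.Cov

variable {E : Type*} [NormedAddCommGroup E] [InnerProductSpace ℝ E]

theorem local_cover {ι : Type*} (w : ι → E) {M : ℝ} (hM0 : 0 < M) (hM : ∀ i, ‖w i‖ ≤ M)
    {G : Set ι} (hG : G.Finite) (u : E) (h1 : ∀ i ∈ G, ⟪w i, u⟫ = 1)
    (h2 : ∀ i ∉ G, |⟪w i, u⟫| ≤ 3 / 4) (R : Set E) {L : ℝ} (hL : 0 < L) (hR : ∀ x ∈ R, ‖x‖ ≤ L)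
    {η : ℝ} (hη : 0 < η) :
    ∃ F : Set (E × ℝ), F.Finite ∧ (∀ p ∈ F, 0 < p.2) ∧
      (∀ x ∈ R, ∃ p ∈ F, ∀ i, |⟪w i, x - p.1⟫| ≤ p.2) ∧
      ∀ p ∈ F, ∀ y, (∀ i, |⟪w i, y - p.1⟫| ≤ p.2) →
        ∃ a ∈ R, ∀ i ∈ G, ⟪w i, a⟫ - η ≤ ⟪w i, y⟫ := by
  have : Fintype G := hG.fintype
  let P : E → (G → ℝ) := fun x i => ⟪w i.1, x⟫
  have hb : ∀ i, ∀ x ∈ R, |⟪w i, x⟫| ≤ M * L := fun i x hx =>
    (abs_real_inner_le_norm _ _).trans (mul_le_mul (hM i) (hR x hx) (norm_nonneg _) hM0.le)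
  have htb : TotallyBounded (P '' R) := by
    refine (isCompact_closedBall (0 : G → ℝ) (M * L)).totallyBounded.subset ?_
    rintro _ ⟨x, hx, rfl⟩
    rw [mem_closedBall_zero_iff, pi_norm_le_iff_of_nonneg (by positivity)]
    exact fun i => hb i.1 x hx
  obtain ⟨t, htR, htf, hcov⟩ := Metric.finite_approx_of_totallyBounded htb η hη
  obtain ⟨A, hAR, hAf, rfl⟩ : ∃ A ⊆ R, A.Finite ∧ t = P '' A := by
    obtain ⟨A, hAR, hAf, h⟩ := (Set.exists_subset_image_finite_and (f := P) (s := R)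
      (p := fun s => t = s)).1 ⟨t, htR, htf, rfl⟩
    exact ⟨A, hAR, hAf, h⟩
  set σ : ℝ := 8 * (M * L) with hσ
  have hσ0 : 0 < σ := by positivity
  refine ⟨(fun a => (a + σ • u, σ + η)) '' A, hAf.image _, ?_, ?_, ?_⟩
  · rintro _ ⟨a, -, rfl⟩
    simp only
    positivity
  · intro x hx
    have := hcov ⟨x, hx, rfl⟩
    simp only [mem_iUnion, exists_prop] at this
    obtain ⟨_, ⟨a, ha, rfl⟩, hxa⟩ := this
    refine ⟨_, ⟨a, ha, rfl⟩, fun i => ?_⟩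
    simp only [inner_sub_right, inner_add_right, real_inner_smul_right]
    by_cases hi : i ∈ G
    · have h3 := (dist_le_pi_dist (P x) (P a) ⟨i, hi⟩).trans (mem_ball.1 hxa).le
      rw [Real.dist_eq] at h3
      simp only [P] at h3
      rw [h1 i hi]
      rw [abs_le] at h3 ⊢
      constructor <;> linarith [h3.1, h3.2]
    · have h3 := abs_le.1 (h2 i hi)
      have h4 := abs_le.1 (hb i x hx)
      have h5 := abs_le.1 (hb i a (hAR ha))
      rw [abs_le]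
      constructor <;> nlinarith [h3.1, h3.2, h4.1, h4.2, h5.1, h5.2]
  · rintro _ ⟨a, ha, rfl⟩ y hy
    refine ⟨a, hAR ha, fun i hi => ?_⟩
    have := hy i
    simp only [inner_sub_right, inner_add_right, real_inner_smul_right, h1 i hi] at this
    linarith [(abs_le.1 this).1]

/-- The vectors the construction starts from. -/
structure Data (p : ℕ → E) (H u : ℕ → Fin 3 → E) : Prop where
  pn : ∀ j, ‖p j‖ ≤ 2
  Hn : ∀ n k, ‖H n k‖ ≤ 3
  pu : ∀ n k, ⟪p (Nat.unpair n).1, u n k⟫ = 1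
  pu' : ∀ n k j, j ≠ (Nat.unpair n).1 → |⟪p j, u n k⟫| ≤ 3 / 4
  Hu : ∀ n k, ⟪H n k, u n k⟫ = 1
  Hu' : ∀ n k n' k', ¬ (n' = n ∧ k' = k) → |⟪H n' k', u n k⟫| ≤ 1 / 2
  Hpos : ∀ x n, ∃ k, 0 ≤ ⟪H n k, x⟫
  H0 : ∀ x k, Tendsto (fun n => ⟪H n k, x⟫) atTop (𝓝 0)
  low : ∀ x, ∃ j, ‖x‖ / 20 ≤ ⟪p j, x⟫

/-- The coefficient. -/
noncomputable def cf (p : ℕ → E) (u : ℕ → Fin 3 → E) (n : ℕ) (k : Fin 3) (i : ℕ) : ℝ :=
  1 + ⟪p (Nat.unpair i).1, u n k⟫ / 6

/-- The norming vectors. -/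
noncomputable def nv (p : ℕ → E) (H u : ℕ → Fin 3 → E) : ℕ ⊕ (ℕ × Fin 3 × ℕ) → E
  | Sum.inl j => p j
  | Sum.inr q => if q.2.2 < q.1 then
      cf p u q.1 q.2.1 q.2.2 • H q.1 q.2.1 - (1 / 6 : ℝ) • p (Nat.unpair q.2.2).1 else 0

variable {p : ℕ → E} {H u : ℕ → Fin 3 → E}

theorem Data.pu1 (h : Data p H u) (n : ℕ) (k : Fin 3) (j : ℕ) : |⟪p j, u n k⟫| ≤ 1 := by
  by_cases hj : j = (Nat.unpair n).1
  · rw [hj, h.pu]; simp
  · linarith [h.pu' n k j hj]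

theorem Data.cf_bd (h : Data p H u) (n : ℕ) (k : Fin 3) (i : ℕ) :
    0 ≤ cf p u n k i ∧ cf p u n k i ≤ 7 / 6 := by
  have := abs_le.1 (h.pu1 n k (Nat.unpair i).1)
  unfold cf
  constructor <;> linarith [this.1, this.2]

theorem Data.nv_le (h : Data p H u) (i : ℕ ⊕ (ℕ × Fin 3 × ℕ)) : ‖nv p H u i‖ ≤ 4 := by
  rcases i with j | ⟨n, k, i⟩
  · exact (h.pn j).trans (by norm_num)
  · simp only [nv]
    split_ifs
    swap
    · simp
    refine (norm_sub_le _ _).trans ?_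
    rw [norm_smul, norm_smul, Real.norm_of_nonneg (h.cf_bd n k i).1,
      Real.norm_of_nonneg (by norm_num)]
    nlinarith [h.cf_bd n k i, h.Hn n k, h.pn (Nat.unpair i).1, norm_nonneg (H n k)]

/-- The finite set of active indices. -/
def act (n : ℕ) (k : Fin 3) : Set (ℕ ⊕ (ℕ × Fin 3 × ℕ)) :=
  {Sum.inl (Nat.unpair n).1} ∪ (fun i => Sum.inr (n, k, i)) '' Iio n

theorem act_fin (n : ℕ) (k : Fin 3) : (act n k).Finite :=
  (finite_singleton _).union ((finite_Iio n).image _)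

theorem Data.on_act (h : Data p H u) (n : ℕ) (k : Fin 3) :
    ∀ i ∈ act n k, ⟪nv p H u i, u n k⟫ = 1 := by
  rintro _ (rfl | ⟨i, hi, rfl⟩)
  · exact h.pu n k
  · simp only [nv, if_pos (mem_Iio.1 hi), inner_sub_left, real_inner_smul_left, h.Hu, cf]
    ring

theorem Data.off_act (h : Data p H u) (n : ℕ) (k : Fin 3) :
    ∀ i ∉ act n k, |⟪nv p H u i, u n k⟫| ≤ 3 / 4 := by
  rintro (j | ⟨n', k', i⟩) hi
  · refine h.pu' n k j fun hj => hi (Or.inl ?_)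
    rw [hj]; rfl
  · simp only [nv]
    split_ifs with hlt
    swap
    · simp; norm_num
    have hne : ¬ (n' = n ∧ k' = k) := by
      rintro ⟨rfl, rfl⟩
      exact hi (Or.inr ⟨i, hlt, rfl⟩)
    have h1 := abs_le.1 (h.Hu' n k n' k' hne)
    have h2 := abs_le.1 (h.pu1 n k (Nat.unpair i).1)
    have h3 := h.cf_bd n' k' i
    simp only [inner_sub_left, real_inner_smul_left]
    rw [abs_le]
    constructor <;> nlinarith [h1.1, h1.2, h2.1, h2.2, h3.1, h3.2]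

/-- The margin at stage `n`. -/
noncomputable def ep (n : ℕ) : ℝ := 1 / (((Nat.unpair n).2 : ℝ) + 1)

theorem ep_pos (n : ℕ) : 0 < ep n := by unfold ep; positivity

theorem ep_le (n : ℕ) : ep n ≤ 1 := by
  unfold ep
  rw [div_le_one (by positivity)]
  linarith [Nat.cast_nonneg (α := ℝ) (Nat.unpair n).2]

/-- The region treated at shell `t`, stage `n`, branch `k`. -/
def reg (p : ℕ → E) (H : ℕ → Fin 3 → E) (t n : ℕ) (k : Fin 3) : Set E :=
  {x | ‖x‖ ≤ 20 * ((t : ℝ) + 1) ∧ t + ep n ≤ ⟪p (Nat.unpair n).1, x⟫ ∧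
    (∀ i < n, ⟪p (Nat.unpair i).1, x⟫ ≤ t + ep i) ∧ 0 ≤ ⟪H n k, x⟫}

theorem Data.reg_cover (h : Data p H u) {x : E} (hx : x ≠ 0) : ∃ t n k, x ∈ reg p H t n k := by
  classical
  have hb : ∀ j, ⟪p j, x⟫ ≤ 2 * ‖x‖ := fun j =>
    (real_inner_le_norm _ _).trans (mul_le_mul_of_nonneg_right (h.pn j) (norm_nonneg _))
  have hex : ∃ t : ℕ, ∀ j, ⟪p j, x⟫ ≤ t := by
    obtain ⟨t, ht⟩ := exists_nat_ge (2 * ‖x‖)
    exact ⟨t, fun j => (hb j).trans ht⟩
  obtain ⟨j0, hj0⟩ := h.low x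
  have hx0 : 0 < ‖x‖ := norm_pos_iff.2 hx
  have hne : Nat.find hex ≠ 0 := by
    intro h0
    have := Nat.find_spec hex j0
    rw [h0] at this
    simp only [Nat.cast_zero] at this
    linarith
  obtain ⟨t, ht⟩ := Nat.exists_eq_succ_of_ne_zero hne
  have h1 := Nat.find_spec hex j0
  rw [ht] at h1
  push_cast at h1
  have h2 : ¬ ∀ j, ⟪p j, x⟫ ≤ (t : ℝ) := Nat.find_min hex (by omega)
  push Not at h2
  obtain ⟨j, hj⟩ := h2
  have hex2 : ∃ n, t + ep n ≤ ⟪p (Nat.unpair n).1, x⟫ := by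
    obtain ⟨r, hr⟩ := exists_nat_one_div_lt (sub_pos.2 hj)
    refine ⟨Nat.pair j r, ?_⟩
    simp only [ep, Nat.unpair_pair]
    linarith
  obtain ⟨k, hk⟩ := h.Hpos x (Nat.find hex2)
  refine ⟨t, Nat.find hex2, k, by linarith, Nat.find_spec hex2, fun i hi => ?_, hk⟩
  exact (not_le.1 (Nat.find_min hex2 hi)).le

/-- The constraint satisfied by points of the balls of a given region. -/
def Q (p : ℕ → E) (H : ℕ → Fin 3 → E) (y : E) (t n : ℕ) (k : Fin 3) : Prop :=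
  t < ⟪p (Nat.unpair n).1, y⟫ ∧ ∀ i < n,
    (⟪p (Nat.unpair i).1, y⟫ - t - ep i) / 6 - 1 / ((n : ℝ) + 1) ≤ 7 / 6 * |⟪H n k, y⟫|

theorem Data.Q_fin (h : Data p H u) (y : E) (t : ℕ) (k : Fin 3) :
    {n | Q p H y t n k}.Finite := by
  rcases Set.eq_empty_or_nonempty {n | Q p H y t n k} with h0 | ⟨n0, hn0⟩
  · rw [h0]; exact finite_empty
  set δ := ⟪p (Nat.unpair n0).1, y⟫ - t with hδ
  have hδ0 : 0 < δ := sub_pos.2 hn0.1
  obtain ⟨r, hr⟩ := exists_nat_one_div_lt (half_pos hδ0)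
  have e1 : ∀ᶠ n : ℕ in atTop, 1 / ((n : ℝ) + 1) < δ / 24 :=
    tendsto_one_div_add_atTop_nhds_zero_nat.eventually (gt_mem_nhds (by positivity))
  have e2 : ∀ᶠ n : ℕ in atTop, |⟪H n k, y⟫| < δ / 48 := by
    have := (h.H0 y k).abs
    rw [abs_zero] at this
    exact this.eventually (gt_mem_nhds (by positivity))
  have e3 := eventually_gt_atTop (Nat.pair (Nat.unpair n0).1 r)
  have e4 : ∀ᶠ n : ℕ in atTop, ¬ Q p H y t n k := by
    filter_upwards [e1, e2, e3] with n h1 h2 h3 hq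
    have := hq.2 _ h3
    simp only [ep, Nat.unpair_pair] at this
    linarith
  rw [← Nat.cofinite_eq_atTop, eventually_cofinite] at e4
  simpa using e4

theorem Data.cover (h : Data p H u) :
    ∃ S : Set (E × ℝ), (∀ q ∈ S, 0 < q.2) ∧
      (∀ x, ∃ q ∈ S, ∀ i, |⟪nv p H u i, x - q.1⟫| ≤ q.2) ∧
      ∀ y, {q ∈ S | ∀ i, |⟪nv p H u i, y - q.1⟫| ≤ q.2}.Finite := by
  have hη : ∀ n : ℕ, 0 < ep n / ((n : ℝ) + 2) := fun n => by have := ep_pos n; positivity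
  choose F hF1 hF2 hF3 hF4 using fun (t n : ℕ) (k : Fin 3) =>
    local_cover (nv p H u) (by norm_num : (0 : ℝ) < 4) h.nv_le (act_fin n k) (u n k)
      (h.on_act n k) (h.off_act n k) (reg p H t n k) (L := 20 * ((t : ℝ) + 1)) (by positivity)
      (fun x hx => hx.1) (hη n)
  refine ⟨{(0, 1)} ∪ ⋃ t, ⋃ k, ⋃ n, F t n k, ?_, fun x => ?_, fun y => ?_⟩
  · rintro q (rfl | hq)
    · exact one_pos
    · simp only [mem_iUnion] at hq
      obtain ⟨t, k, n, hq⟩ := hq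
      exact hF2 t n k q hq
  · by_cases hx : x = 0
    · exact ⟨(0, 1), Or.inl rfl, fun i => by simp [hx]⟩
    · obtain ⟨t, n, k, hr⟩ := h.reg_cover hx
      obtain ⟨q, hq, hq'⟩ := hF3 t n k x hr
      exact ⟨q, Or.inr (by simp only [mem_iUnion]; exact ⟨t, k, n, hq⟩), hq'⟩
  · obtain ⟨T, hT⟩ := exists_nat_ge (2 * ‖y‖)
    refine Set.Finite.subset ((finite_singleton ((0 : E), (1 : ℝ))).union
      ((finite_Iic T).biUnion fun t _ => finite_iUnion fun k : Fin 3 =>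
        (h.Q_fin y t k).biUnion fun n _ => hF1 t n k)) ?_
    rintro q ⟨rfl | hq, hy⟩
    · exact Or.inl rfl
    simp only [mem_iUnion] at hq
    obtain ⟨t, k, n, hq⟩ := hq
    obtain ⟨a, ⟨-, ha1, ha2, ha3⟩, ha⟩ := hF4 t n k q hq y hy
    have hlt : ep n / ((n : ℝ) + 2) < ep n := by
      rw [div_lt_iff₀ (by positivity)]
      nlinarith [ep_pos n, Nat.cast_nonneg (α := ℝ) n]
    have hle : ep n / ((n : ℝ) + 2) ≤ 1 / ((n : ℝ) + 1) :=
      div_le_div₀ zero_le_one (ep_le n) (by positivity) (by linarith)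
    have hQ : Q p H y t n k := by
      refine ⟨?_, fun i hi => ?_⟩
      · have := ha _ (Or.inl rfl)
        simp only [nv] at this
        linarith
      · have := ha _ (Or.inr ⟨i, hi, rfl⟩)
        simp only [nv, if_pos hi, inner_sub_left, real_inner_smul_left] at this
        have h3 := h.cf_bd n k i
        have h4 := ha2 i hi
        have h5 := mul_nonneg h3.1 ha3
        have h6 : cf p u n k i * ⟪H n k, y⟫ ≤ 7 / 6 * |⟪H n k, y⟫| :=
          (mul_le_mul_of_nonneg_left (le_abs_self _) h3.1).trans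
            (mul_le_mul_of_nonneg_right h3.2 (abs_nonneg _))
        linarith
    refine Or.inr ?_
    simp only [mem_iUnion, exists_prop]
    refine ⟨t, ?_, k, n, hQ, hq⟩
    have h7 : ⟪p (Nat.unpair n).1, y⟫ ≤ 2 * ‖y‖ :=
      (real_inner_le_norm _ _).trans (mul_le_mul_of_nonneg_right (h.pn _) (norm_nonneg _))
    have : (t : ℝ) ≤ T := by linarith [hQ.1]
    exact_mod_cast this

end Pool.Agent.H93.Cov
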