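import Mathlib
import Pool.Agent.H93.Cov1

set_option autoImplicit false

open Set Metric Filter Topology
open scoped RealInnerProductSpace

namespace Pool.Agent.H93.Cov

variable {E : Type*} [NormedAddCommGroup E] [InnerProductSpace ℝ E]

theorem orth_tendsto {e : ℕ → E} (he : Orthonormal ℝ e) (x : E) :
    Tendsto (fun n => ⟪e n, x⟫) atTop (𝓝 0) := by
  have h1 := (he.inner_products_summable x).tendsto_atTop_zero
  have h2 : Tendsto (fun n => ‖⟪e n, x⟫‖) atTop (𝓝 0) := by
    have := h1.sqrt
    simpa [Real.sqrt_sq_eq_abs] using this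
  exact tendsto_zero_iff_norm_tendsto_zero.2 h2

theorem exists_data [TopologicalSpace.SeparableSpace E] {e : ℕ × Option (Fin 3) → E}
    (he : Orthonormal ℝ e) : ∃ p H u, Data (E := E) p H u := by
  classical
  have : SecondCountableTopology E := UniformSpace.secondCountable_of_separable E
  have : Nonempty (closedBall (0 : E) (1 / 10)) := ⟨⟨0, by simp⟩⟩
  set d := TopologicalSpace.denseSeq (closedBall (0 : E) (1 / 10)) with hd
  have hdd : DenseRange d := TopologicalSpace.denseRange_denseSeq _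
  set v : ℕ → E := fun m => (d (Nat.unpair m).1 : E) with hv
  have hvn : ∀ m, ‖v m‖ ≤ 1 / 10 := fun m => mem_closedBall_zero_iff.1 (d _).2
  have hee : ∀ a b, ⟪e a, e b⟫ = if a = b then 1 else 0 := orthonormal_iff_ite.1 he
  have hen : ∀ a, ‖e a‖ = 1 := he.1
  have hve : ∀ m a, |⟪v m, e a⟫| ≤ 1 / 10 := fun m a =>
    (abs_real_inner_le_norm _ _).trans (by rw [hen, mul_one]; exact hvn m)
  set al : ℕ → Fin 3 → ℝ := fun n k =>
    (1 - ⟪v (Nat.unpair n).1, e (n, some k)⟫) /
      (1 + ⟪v (Nat.unpair n).1, e ((Nat.unpair n).1, none)⟫) with hal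
  have hden : ∀ m, 9 / 10 ≤ 1 + ⟪v m, e (m, none)⟫ := fun m => by
    linarith [(abs_le.1 (hve m (m, none))).1]
  have hal' : ∀ n k, |al n k| ≤ 2 := fun n k => by
    have h1 := hden (Nat.unpair n).1
    have h2 := abs_le.1 (hve (Nat.unpair n).1 (n, some k))
    simp only [hal]
    rw [abs_div, div_le_iff₀ (abs_pos.2 (by linarith)), abs_of_pos (by linarith),
      abs_of_pos (by linarith)]
    linarith [h2.1]
  have hB0 : ∀ x k, Tendsto (fun n => ⟪e (n, k), x⟫) atTop (𝓝 0) := fun x k =>
    orth_tendsto (he.comp (fun n => (n, k)) fun a b hab => (Prod.mk.inj hab).1) x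
  refine ⟨fun m => e (m, none) + v m,
    fun n k => (3 / 2 : ℝ) • e (n, some k) -
      (1 / 2 : ℝ) • (e (n, some 0) + e (n, some 1) + e (n, some 2)),
    fun n k => al n k • e ((Nat.unpair n).1, none) + e (n, some k), ?_⟩
  constructor
  · intro j
    linarith [norm_add_le (e (j, none)) (v j), hen (j, none), hvn j]
  · intro n k
    refine (norm_sub_le _ _).trans ?_
    rw [norm_smul, norm_smul, hen, Real.norm_of_nonneg (by norm_num),
      Real.norm_of_nonneg (by norm_num)]
    have := norm_add₃_le (a := e (n, some 0)) (b := e (n, some 1)) (c := e (n, some 2))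
    rw [hen, hen, hen] at this
    linarith
  · intro n k
    have h1 := hden (Nat.unpair n).1
    simp only [inner_add_left, inner_add_right, real_inner_smul_right, hee, hal]
    simp
    field_simp
    ring
  · intro n k j hj
    have h1 : ‖al n k • e ((Nat.unpair n).1, none) + e (n, some k)‖ ≤ 3 := by
      refine (norm_add_le _ _).trans ?_
      rw [norm_smul, hen, hen, Real.norm_eq_abs]
      linarith [hal' n k]
    have h2 := abs_real_inner_le_norm (v j) (al n k • e ((Nat.unpair n).1, none) + e (n, some k))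
    have h3 : ⟪e (j, none), al n k • e ((Nat.unpair n).1, none) + e (n, some k)⟫ = 0 := by
      simp [inner_add_right, real_inner_smul_right, hee, hj]
    rw [inner_add_left, h3, zero_add]
    nlinarith [hvn j, norm_nonneg (v j)]
  · intro n k
    simp only [inner_add_left, inner_add_right, inner_sub_left, real_inner_smul_left,
      real_inner_smul_right, hee]
    fin_cases k <;> simp <;> norm_num
  · intro n k n' k' hne
    simp only [inner_add_left, inner_add_right, inner_sub_left, real_inner_smul_left,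
      real_inner_smul_right, hee]
    by_cases hn : n' = n
    · subst hn
      have hk : k' ≠ k := fun h => hne ⟨rfl, h⟩
      fin_cases k <;> fin_cases k' <;> simp at hk ⊢
    · simp [hn]
  · intro x n
    simp only [inner_add_left, inner_sub_left, real_inner_smul_left]
    by_contra hc
    push Not at hc
    linarith [hc 0, hc 1, hc 2]
  · intro x k
    simp only [inner_add_left, inner_sub_left, real_inner_smul_left]
    have := ((hB0 x (some k)).const_mul (3 / 2)).sub
      ((((hB0 x (some 0)).add (hB0 x (some 1))).add (hB0 x (some 2))).const_mul (1 / 2))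
    simpa using this
  · intro x
    by_cases hx : x = 0
    · exact ⟨0, by simp [hx]⟩
    have hx0 : 0 < ‖x‖ := norm_pos_iff.2 hx
    have hz : ‖(1 / (10 * ‖x‖)) • x‖ = 1 / 10 := by
      rw [norm_smul, Real.norm_of_nonneg (by positivity)]; field_simp
    obtain ⟨j, hj⟩ := hdd.exists_dist_lt
      (⟨(1 / (10 * ‖x‖)) • x, mem_closedBall_zero_iff.2 hz.le⟩ : closedBall (0 : E) (1 / 10))
      (by norm_num : (0 : ℝ) < 1 / 40)
    rw [Subtype.dist_eq, dist_eq_norm] at hj
    obtain ⟨N, hN⟩ := eventually_atTop.1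
      ((hB0 x none).eventually (lt_mem_nhds (show -(‖x‖ / 40) < 0 by linarith)))
    refine ⟨Nat.pair j N, ?_⟩
    have h1 := hN _ (Nat.right_le_pair j N)
    have h2 : ⟪(1 / (10 * ‖x‖)) • x, x⟫ = ‖x‖ / 10 := by
      rw [real_inner_smul_left, real_inner_self_eq_norm_sq]; field_simp
    have h3 := real_inner_le_norm ((1 / (10 * ‖x‖)) • x - (d j : E)) x
    rw [inner_sub_left, h2] at h3
    simp only [inner_add_left, hv, Nat.unpair_pair]
    simp only at hj
    nlinarith

/-- The real Hilbert space of square-summable sequences. -/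
abbrev L2 : Type := lp (fun _ : ℕ => ℝ) 2

theorem l2_sep : TopologicalSpace.SeparableSpace L2 := by
  have h : TopologicalSpace.IsSeparable
      (Set.range fun n : ℕ => lp.single (E := fun _ : ℕ => ℝ) 2 n 1) :=
    (Set.countable_range _).isSeparable
  have h2 := (h.span (R := ℝ)).closure
  rw [← TopologicalSpace.isSeparable_univ_iff]
  refine h2.mono fun x _ => ?_
  refine mem_closure_of_tendsto (lp.hasSum_single (by norm_num) x)
    (Eventually.of_forall fun s => ?_)
  refine Submodule.sum_mem _ fun n _ => ?_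
  have : lp.single (E := fun _ : ℕ => ℝ) 2 n (x n) = x n • lp.single 2 n 1 := by
    rw [← lp.single_smul, smul_eq_mul, mul_one]
  rw [this]
  exact Submodule.smul_mem _ _ (Submodule.subset_span ⟨n, rfl⟩)

theorem l2_orth : Orthonormal ℝ fun n : ℕ => (lp.single 2 n (1 : ℝ) : L2) := by
  rw [orthonormal_iff_ite]
  intro i j
  rw [lp.inner_single_left, lp.single_apply]
  by_cases h : i = j
  · subst h; simp
  · simp [h]

theorem l2_data : ∃ p H u, Data (E := L2) p H u := by
  have := l2_sep
  obtain ⟨f, hf⟩ := exists_injective_nat (ℕ × Option (Fin 3))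
  exact exists_data (l2_orth.comp f hf)

/-- Norming data for a renorming. -/
structure Ren (ι : Type) where
  w : ι → L2
  bd : ∀ i, ‖w i‖ ≤ 4
  low : ∀ x, ∃ i, ‖x‖ / 20 ≤ ⟪w i, x⟫

namespace Ren

variable {ι : Type} (F : Ren ι)

/-- The renormed space. -/
def Z (_ : Ren ι) : Type := L2

noncomputable instance : AddCommGroup F.Z := inferInstanceAs (AddCommGroup L2)
noncomputable instance : Module ℝ F.Z := inferInstanceAs (Module ℝ L2)

/-- The identity map. -/
noncomputable def val : F.Z ≃ₗ[ℝ] L2 := LinearEquiv.refl ℝ L2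

noncomputable instance : Norm F.Z := ⟨fun a => ⨆ i, |⟪F.w i, F.val a⟫|⟩

variable {F}

theorem abs_le4 (a : L2) (i : ι) : |⟪F.w i, a⟫| ≤ 4 * ‖a‖ :=
  (abs_real_inner_le_norm _ _).trans (mul_le_mul_of_nonneg_right (F.bd i) (norm_nonneg _))

theorem le_norm (a : F.Z) (i : ι) : |⟪F.w i, F.val a⟫| ≤ ‖a‖ :=
  le_ciSup (f := fun i => |⟪F.w i, F.val a⟫|)
    ⟨4 * ‖F.val a‖, by rintro _ ⟨i, rfl⟩; exact abs_le4 _ i⟩ i

theorem norm_le {a : F.Z} {C : ℝ} (h : ∀ i, |⟪F.w i, F.val a⟫| ≤ C) : ‖a‖ ≤ C :=
  have : Nonempty ι := ⟨(F.low 0).choose⟩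
  ciSup_le h

theorem low' (a : F.Z) : ‖F.val a‖ ≤ 20 * ‖a‖ := by
  obtain ⟨i, hi⟩ := F.low (F.val a)
  linarith [le_norm a i, le_abs_self ⟪F.w i, F.val a⟫]

theorem core : NormedSpace.Core ℝ F.Z where
  norm_nonneg a := by linarith [low' a, norm_nonneg (F.val a)]
  norm_smul c a := by
    change ⨆ i, |⟪F.w i, F.val (c • a)⟫| = ‖c‖ * ⨆ i, |⟪F.w i, F.val a⟫|
    simp only [map_smul, real_inner_smul_right, abs_mul]
    exact (Real.mul_iSup_of_nonneg (abs_nonneg c) _).symm
  norm_triangle a b := norm_le fun j => by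
    rw [map_add, inner_add_right]
    exact (abs_add_le _ _).trans (add_le_add (le_norm a j) (le_norm b j))
  norm_eq_zero_iff a := by
    constructor
    · intro h
      have := low' a
      rw [h, mul_zero, norm_le_zero_iff] at this
      exact F.val.injective (this.trans (map_zero _).symm)
    · rintro rfl
      change ⨆ i, |⟪F.w i, F.val 0⟫| = 0
      simp

noncomputable instance : NormedAddCommGroup F.Z := NormedAddCommGroup.ofCore core
noncomputable instance : NormedSpace ℝ F.Z := NormedSpace.ofCore core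

/-- The identity map as an isomorphism. -/
noncomputable def iso (F : Ren ι) : F.Z ≃L[ℝ] L2 :=
  F.val.toContinuousLinearEquivOfBounds 20 4 low' fun x => norm_le fun i => by
    simpa using abs_le4 x i

end Ren

theorem refl_of_iso {X : Type*} [NormedAddCommGroup X] [NormedSpace ℝ X] [CompleteSpace E]
    (T : X ≃L[ℝ] E) : Function.Surjective (NormedSpace.inclusionInDoubleDual ℝ X) := by
  intro Φ
  let A : E →L[ℝ] StrongDual ℝ X :=
    ((ContinuousLinearMap.compL ℝ X E ℝ).flip (T : X →L[ℝ] E)).comp (innerSL ℝ)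
  have hA : ∀ w x, A w x = ⟪w, T x⟫ := fun w x => rfl
  obtain ⟨z, hz⟩ := (InnerProductSpace.toDual ℝ E).surjective (Φ.comp A)
  refine ⟨T.symm z, ContinuousLinearMap.ext fun ψ => ?_⟩
  obtain ⟨w, hw⟩ := (InnerProductSpace.toDual ℝ E).surjective (ψ.comp (T.symm : E →L[ℝ] X))
  have h1 : A w = ψ := by
    ext x
    have := DFunLike.congr_fun hw (T x)
    simpa [hA] using this
  have h2 := DFunLike.congr_fun hz w
  have h3 := DFunLike.congr_fun hw z
  simp only [InnerProductSpace.toDual_apply_apply, ContinuousLinearMap.comp_apply, h1] at h2 h3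
  rw [NormedSpace.dual_def, ← h2, real_inner_comm]
  exact h3.symm

theorem main : ∃ (X : Type) (_ : NormedAddCommGroup X) (_ : NormedSpace ℝ X),
    Nonempty (X ≃L[ℝ] L2) ∧ CompleteSpace X ∧ ¬ FiniteDimensional ℝ X ∧
    Function.Surjective (NormedSpace.inclusionInDoubleDual ℝ X) ∧
    ∃ S : Set (X × ℝ), (∀ q ∈ S, 0 < q.2) ∧ (∀ x, ∃ q ∈ S, x ∈ closedBall q.1 q.2) ∧
      ∀ x, {q ∈ S | x ∈ closedBall q.1 q.2}.Finite := by
  obtain ⟨p, H, u, h⟩ := l2_data
  let F : Ren (ℕ ⊕ (ℕ × Fin 3 × ℕ)) :=
    ⟨nv p H u, h.nv_le, fun x => (h.low x).elim fun j hj => ⟨Sum.inl j, hj⟩⟩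
  obtain ⟨S, h1, h2, h3⟩ := h.cover
  have key : ∀ (x c : F.Z) (r : ℝ), x ∈ closedBall c r ↔
      ∀ i, |⟪nv p H u i, F.val x - F.val c⟫| ≤ r := fun x c r => by
    rw [mem_closedBall, dist_eq_norm, ← map_sub]
    exact ⟨fun hh i => (Ren.le_norm _ i).trans hh, Ren.norm_le⟩
  refine ⟨F.Z, inferInstance, inferInstance, ⟨F.iso⟩,
    (F.iso.isUniformEmbedding.isUniformInducing.completeSpace_congr F.iso.surjective).2
      inferInstance, fun hfin => ?_, refl_of_iso F.iso,
    S, h1, fun x => ?_, fun x => ?_⟩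
  · have : FiniteDimensional ℝ L2 := F.val.finiteDimensional
    exact Module.Finite.not_linearIndependent_of_infinite _ l2_orth.linearIndependent
  · obtain ⟨q, hq, hq'⟩ := h2 (F.val x)
    exact ⟨q, hq, (key x q.1 q.2).2 hq'⟩
  · refine (h3 (F.val x)).subset ?_
    rintro q ⟨hq, hq'⟩
    exact ⟨hq, (key x q.1 q.2).1 hq'⟩

end Pool.Agent.H93.Cov
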