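import Mathlib

open Filter Topology Set

namespace H93.Cyl

instance : Fact (Nat.Prime 3) := ⟨Nat.prime_three⟩

theorem ex_e (k : ℕ) (x : ℤ_[3]) : ∃ e : ℤ, (3 : ℤ_[3]) ^ k ∣ x - e ∧ 2 * |e| < 3 ^ k := by
  have h1 := Ideal.mem_span_singleton.1 (PadicInt.appr_spec k x)
  have h2 := PadicInt.appr_lt x k
  have h3 : Odd ((3 : ℤ) ^ k) := Odd.pow (by decide)
  obtain ⟨c, hc⟩ := h3
  have h4 : ((x.appr k : ℕ) : ℤ) < 3 ^ k := by exact_mod_cast h2
  have h5 : (0 : ℤ) ≤ (x.appr k : ℕ) := Int.natCast_nonneg _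
  by_cases h : ((x.appr k : ℕ) : ℤ) ≤ c
  · refine ⟨(x.appr k : ℕ), by simpa using h1, ?_⟩
    rw [abs_of_nonneg h5]; omega
  · refine ⟨(x.appr k : ℕ) - 3 ^ k, ?_, ?_⟩
    · have : x - (((x.appr k : ℕ) - 3 ^ k : ℤ) : ℤ_[3]) = (x - x.appr k) + 3 ^ k := by
        push_cast; ring
      rw [this]
      exact dvd_add (by simpa using h1) dvd_rfl
    · rw [abs_of_nonpos (by omega)]; omega

/-- the residue of least absolute value -/
noncomputable def e (k : ℕ) (x : ℤ_[3]) : ℤ := (ex_e k x).choose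

theorem e_dvd (k : ℕ) (x : ℤ_[3]) : (3 : ℤ_[3]) ^ k ∣ x - e k x := (ex_e k x).choose_spec.1
theorem e_lt (k : ℕ) (x : ℤ_[3]) : 2 * |e k x| < 3 ^ k := (ex_e k x).choose_spec.2

theorem e_min {k : ℕ} {x : ℤ_[3]} {u : ℤ} (h : (3 : ℤ_[3]) ^ k ∣ x - u) :
    u = e k x ∨ 3 ^ k ≤ |u| + |e k x| := by
  have h1 := dvd_sub (e_dvd k x) h
  have h2 : x - e k x - (x - u) = ((u - e k x : ℤ) : ℤ_[3]) := by push_cast; ring
  rw [h2] at h1
  have h3 : ((3 : ℤ) ^ k) ∣ u - e k x := by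
    have := (PadicInt.pow_p_dvd_int_iff (p := 3) k (u - e k x)).1 (by exact_mod_cast h1)
    exact_mod_cast this
  by_cases h4 : u - e k x = 0
  · left; omega
  · right
    exact (Int.le_of_dvd (abs_pos.2 h4) ((dvd_abs _ _).2 h3)).trans (abs_sub _ _)

theorem e_eq {k : ℕ} {x : ℤ_[3]} {u : ℤ} (h : (3 : ℤ_[3]) ^ k ∣ x - u) (h2 : 2 * |u| < 3 ^ k) :
    e k x = u := by
  rcases e_min h with h1 | h1
  · exact h1.symm
  · have := e_lt k x; omega

theorem e_le {k : ℕ} {x : ℤ_[3]} {u : ℤ} (h : (3 : ℤ_[3]) ^ k ∣ x - u) : |e k x| ≤ |u| := by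
  rcases e_min h with h1 | h1
  · rw [h1]
  · have := e_lt k x; omega

theorem e_congr {k : ℕ} {x y : ℤ_[3]} (h : (3 : ℤ_[3]) ^ k ∣ x - y) : e k x = e k y := by
  refine e_eq ?_ (e_lt k y)
  have := dvd_add h (e_dvd k y)
  rwa [sub_add_sub_cancel] at this

theorem e_neg (k : ℕ) (x : ℤ_[3]) : e k (-x) = -e k x := by
  refine e_eq ?_ (by rw [abs_neg]; exact e_lt k x)
  have : -x - ((-e k x : ℤ) : ℤ_[3]) = -(x - e k x) := by push_cast; ring
  rw [this]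
  exact (e_dvd k x).neg_right

theorem e_lip (k : ℕ) (x : ℤ_[3]) (n : ℤ) : |e k (x + n)| ≤ |e k x| + |n| := by
  refine (e_le (u := e k x + n) ?_).trans (abs_add_le _ _)
  have : x + n - ((e k x + n : ℤ) : ℤ_[3]) = x - e k x := by push_cast; ring
  rw [this]; exact e_dvd k x

theorem e_cont (k : ℕ) : Continuous (e k) := by
  refine IsLocallyConstant.continuous ((IsLocallyConstant.iff_eventually_eq _).2 fun x => ?_)
  filter_upwards [Metric.closedBall_mem_nhds x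
    (show (0 : ℝ) < ((3 : ℕ) : ℝ) ^ (-(k : ℤ)) by positivity)] with y hy
  rw [mem_closedBall_iff_norm, PadicInt.norm_le_pow_iff_mem_span_pow,
    Ideal.mem_span_singleton] at hy
  exact e_congr (by exact_mod_cast hy)

theorem ex_h : ∃ h : ℤ_[3], 2 * h = 1 := by
  have : IsUnit ((2 : ℕ) : ℤ_[3]) := by
    rw [PadicInt.isUnit_iff, PadicInt.norm_natCast_eq_one_iff]; decide
  obtain ⟨u, hu⟩ := this.exists_right_inv
  exact ⟨u, by exact_mod_cast hu⟩

/-- one half -/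
noncomputable def h : ℤ_[3] := ex_h.choose

theorem two_h : 2 * h = 1 := ex_h.choose_spec

theorem h_dvd {k : ℕ} {H : ℤ} (hH : 2 * H = 3 ^ k + 1) : (3 : ℤ_[3]) ^ k ∣ h - H := by
  have h1 : (2 : ℤ_[3]) * H = 3 ^ k + 1 := by exact_mod_cast congrArg (Int.cast : ℤ → ℤ_[3]) hH
  refine ⟨-h, ?_⟩
  have := two_h
  linear_combination H * this - h * h1

theorem ex_H (k : ℕ) : ∃ H : ℤ, 2 * H = 3 ^ k + 1 := by
  obtain ⟨c, hc⟩ : Odd ((3 : ℤ) ^ k) := Odd.pow (by decide)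
  exact ⟨c + 1, by omega⟩

theorem e_h (k : ℕ) : 2 * |e k (-h)| = 3 ^ k - 1 := by
  obtain ⟨H, hH⟩ := ex_H k
  have h0 : (0 : ℤ) < 3 ^ k := by positivity
  have h1 : e k (-h) = H - 1 := by
    refine e_eq ?_ (by rw [abs_of_nonneg (by omega)]; omega)
    have h2 : -h - ((H - 1 : ℤ) : ℤ_[3]) = h - H := by
      have := two_h
      push_cast
      linear_combination -this
    rw [h2]; exact h_dvd hH
  rw [h1, abs_of_nonneg (by omega)]; omega

/-- exponents -/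
def κ (j : ℕ) : ℕ := 3 * j * (j + 1)

theorem κ_succ (j : ℕ) : κ (j + 1) = κ j + (6 * j + 6) := by unfold κ; ring
theorem κ_mono : Monotone κ := monotone_nat_of_le_succ fun j => by rw [κ_succ]; omega
theorem le_κ (j : ℕ) : j ≤ κ j := by unfold κ; nlinarith

/-- moduli -/
noncomputable def Q (j : ℕ) : ℝ := 3 ^ κ j
/-- distance to the subgroup of level j -/
noncomputable def d (j : ℕ) (x : ℤ_[3]) : ℝ := |(e (κ j) x : ℝ)|
/-- cap width -/
noncomputable def w (j : ℕ) : ℝ := (Q j - 1) / 2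
/-- steep slope -/
noncomputable def ε (j : ℕ) : ℝ := 3 ^ j / Q j
/-- gentle slope -/
noncomputable def γ (j : ℕ) : ℝ := (1 / 3) ^ j / Q j
/-- profile -/
noncomputable def ψ (j : ℕ) (t : ℝ) : ℝ := ε j * min t (w j) + γ j * t
/-- level function -/
noncomputable def Ψ (j : ℕ) (x : ℤ_[3]) : ℝ := ψ j (d (j + 1) x) - ψ j (d (j + 1) (x - h))
/-- the cocycle -/
noncomputable def F (x : ℤ_[3]) (n : ℤ) : ℝ := ∑' j, (Ψ j (x + n) - Ψ j x)

theorem Q_pos (j : ℕ) : 0 < Q j := by unfold Q; positivity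
theorem Q_ge (j : ℕ) : 1 ≤ Q j := one_le_pow₀ (by norm_num)
theorem Q_succ (j : ℕ) : Q (j + 1) = Q j * 3 ^ (6 * j + 6) := by unfold Q; rw [κ_succ, pow_add]
theorem ε_pos (j : ℕ) : 0 < ε j := by have := Q_pos j; unfold ε; positivity
theorem γ_pos (j : ℕ) : 0 < γ j := by have := Q_pos j; unfold γ; positivity
theorem γ_le (j : ℕ) : γ j ≤ ε j :=
  div_le_div_of_nonneg_right (pow_le_pow_left₀ (by norm_num) (by norm_num) j) (Q_pos j).le
theorem εQ (j : ℕ) : ε j * Q j = 3 ^ j := div_mul_cancel₀ _ (Q_pos j).ne'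
theorem γQ (j : ℕ) : γ j * Q j = (1 / 3) ^ j := div_mul_cancel₀ _ (Q_pos j).ne'

theorem εQ' (j : ℕ) : 6 * ε (j + 1) * Q j ≤ (1 / 3) ^ j := by
  have h1 := εQ (j + 1)
  rw [Q_succ] at h1
  have h2 : (3 : ℝ) ^ (6 * j + 6) = 3 ^ (j + 1) * (3 ^ j * 3 ^ (4 * j + 5)) := by
    rw [← pow_add, ← pow_add]; congr 1; ring
  have h3 : ε (j + 1) * Q j * (3 ^ j * 3 ^ (4 * j + 5)) = 1 := by
    have : (3 : ℝ) ^ (j + 1) ≠ 0 := by positivity
    rw [h2] at h1
    apply mul_left_cancel₀ this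
    linarith
  have h4 : (6 : ℝ) ≤ 3 ^ (4 * j + 5) :=
    le_trans (by norm_num) (pow_le_pow_right₀ (by norm_num) (show 2 ≤ 4 * j + 5 by omega))
  have h5 : 0 < ε (j + 1) * Q j * 3 ^ j := by have := ε_pos (j + 1); have := Q_pos j; positivity
  rw [one_div, inv_pow, ← one_div, le_div_iff₀ (by positivity)]
  nlinarith

theorem ε_succ (j : ℕ) : ε (j + 1) ≤ ε j / 3 := by
  have h1 := εQ' j
  have h2 := εQ j
  have h3 : ((1 : ℝ) / 3) ^ j ≤ 3 ^ j := pow_le_pow_left₀ (by norm_num) (by norm_num) j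
  have h4 : ε (j + 1) * Q j ≤ ε j / 3 * Q j := by
    have : (0 : ℝ) < 3 ^ j := by positivity
    linarith
  exact le_of_mul_le_mul_right h4 (Q_pos j)

theorem ε_add (j i : ℕ) : ε (i + j) ≤ ε j * (1 / 3) ^ i := by
  induction i with
  | zero => simp
  | succ i ih =>
    have := ε_succ (i + j)
    rw [show i + 1 + j = i + j + 1 by omega, pow_succ]
    linarith

theorem d_nonneg (j : ℕ) (x : ℤ_[3]) : 0 ≤ d j x := abs_nonneg _

theorem d_le (j : ℕ) (x : ℤ_[3]) : d j x ≤ w j := by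
  have h1 : 2 * |e (κ j) x| + 1 ≤ 3 ^ κ j := e_lt _ x
  have h2 : (2 : ℝ) * |(e (κ j) x : ℝ)| + 1 ≤ 3 ^ κ j := by exact_mod_cast h1
  unfold d w Q; linarith

theorem d_h (j : ℕ) : d j (-h) = w j := by
  have h2 : (2 : ℝ) * |(e (κ j) (-h) : ℝ)| = 3 ^ κ j - 1 := by exact_mod_cast e_h (κ j)
  unfold d w Q; linarith

theorem d_neg (j : ℕ) (x : ℤ_[3]) : d j (-x) = d j x := by
  unfold d; rw [e_neg]; simp

theorem d_lip (j : ℕ) (x : ℤ_[3]) (n : ℤ) : |d j (x + n) - d j x| ≤ |(n : ℝ)| := by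
  have h1 : |(e (κ j) (x + n) : ℝ)| ≤ |(e (κ j) x : ℝ)| + |(n : ℝ)| := by
    exact_mod_cast e_lip (κ j) x n
  have h2 := e_lip (κ j) (x + n) (-n)
  rw [show x + n + ((-n : ℤ) : ℤ_[3]) = x by push_cast; ring, abs_neg] at h2
  have h3 : |(e (κ j) x : ℝ)| ≤ |(e (κ j) (x + n) : ℝ)| + |(n : ℝ)| := by exact_mod_cast h2
  unfold d
  rw [abs_le]; constructor <;> linarith

theorem d_mono (j : ℕ) (x : ℤ_[3]) : d j x ≤ d (j + 1) x := by
  have := e_le ((pow_dvd_pow 3 (κ_mono (Nat.le_succ j))).trans (e_dvd (κ (j + 1)) x))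
  unfold d; exact_mod_cast this

theorem jump {j : ℕ} {x : ℤ_[3]} (hj : e (κ (j + 1)) x ≠ e (κ j) x) : w j ≤ d (j + 1) x := by
  rcases e_min ((pow_dvd_pow 3 (κ_mono (Nat.le_succ j))).trans (e_dvd (κ (j + 1)) x)) with h1 | h1
  · exact absurd h1 hj
  · have h2 : (3 : ℝ) ^ κ j ≤ |(e (κ (j + 1)) x : ℝ)| + |(e (κ j) x : ℝ)| := by exact_mod_cast h1
    have h3 := d_le j x
    unfold d w Q at *
    linarith

theorem ψ_mono (j : ℕ) {s t : ℝ} (hst : s ≤ t) : ψ j s ≤ ψ j t := by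
  unfold ψ
  have := mul_le_mul_of_nonneg_left (min_le_min_right (w j) hst) (ε_pos j).le
  have := mul_le_mul_of_nonneg_left hst (γ_pos j).le
  linarith

theorem ψ_lip (j : ℕ) {s t a : ℝ} (hst : |s - t| ≤ a) : |ψ j s - ψ j t| ≤ 2 * ε j * a := by
  have h1 : |min s (w j) - min t (w j)| ≤ a := by
    have := abs_min_sub_min_le_max s (w j) t (w j)
    rw [sub_self, abs_zero, max_eq_left (abs_nonneg _)] at this
    exact this.trans hst
  have e1 : ψ j s - ψ j t = ε j * (min s (w j) - min t (w j)) + γ j * (s - t) := by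
    unfold ψ; ring
  rw [e1]
  refine (abs_add_le _ _).trans ?_
  rw [abs_mul, abs_mul, abs_of_pos (ε_pos j), abs_of_pos (γ_pos j)]
  have := mul_le_mul_of_nonneg_left h1 (ε_pos j).le
  have := mul_le_mul (γ_le j) hst (abs_nonneg _) (ε_pos j).le
  linarith

theorem Ψ_lip (j : ℕ) (x : ℤ_[3]) (n : ℤ) : |Ψ j (x + n) - Ψ j x| ≤ 4 * ε j * |(n : ℝ)| := by
  have h1 := ψ_lip j (d_lip (j + 1) x n)
  have h2 := ψ_lip j (d_lip (j + 1) (x - h) n)
  rw [show x - h + n = x + n - h by ring] at h2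
  unfold Ψ
  rw [abs_le] at *
  constructor <;> linarith [h1.1, h1.2, h2.1, h2.2]

theorem Ψ_congr {j : ℕ} {x y : ℤ_[3]} (hxy : (3 : ℤ_[3]) ^ κ (j + 1) ∣ x - y) : Ψ j x = Ψ j y := by
  unfold Ψ d
  rw [e_congr hxy, e_congr (x := x - h) (y := y - h) (by rwa [sub_sub_sub_cancel_right])]

theorem Ψ_cont (j : ℕ) : Continuous (Ψ j) := by
  have h1 : Continuous fun x : ℤ_[3] => (e (κ (j + 1)) x : ℝ) :=
    continuous_of_discreteTopology.comp (e_cont _)
  have h2 : Continuous (d (j + 1)) := h1.abs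
  have h3 : Continuous (ψ j) := by unfold ψ; fun_prop
  unfold Ψ
  exact (h3.comp h2).sub (h3.comp (h2.comp (continuous_id.sub continuous_const)))

theorem Ψ_symm (j : ℕ) (x : ℤ_[3]) : Ψ j (h - x) = -Ψ j x := by
  unfold Ψ
  rw [show h - x = -(x - h) by ring, d_neg, show -(x - h) - h = -x by ring, d_neg]
  ring

theorem geo (j : ℕ) (a : ℝ) : HasSum (fun i : ℕ => 4 * ε j * a * (1 / 3 : ℝ) ^ i) (6 * ε j * a) := by
  have := (hasSum_geometric_of_lt_one (r := (1 / 3 : ℝ)) (by norm_num) (by norm_num)).mul_left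
    (4 * ε j * a)
  have e1 : 6 * ε j * a = 4 * ε j * a * (1 - 1 / 3)⁻¹ := by norm_num; ring
  rw [e1]
  exact this

theorem term_le (j i : ℕ) (x : ℤ_[3]) (n : ℤ) :
    ‖Ψ (i + j) (x + n) - Ψ (i + j) x‖ ≤ 4 * ε j * |(n : ℝ)| * (1 / 3 : ℝ) ^ i := by
  refine (Ψ_lip _ x n).trans ?_
  have := mul_le_mul_of_nonneg_right (ε_add j i) (abs_nonneg (n : ℝ))
  linarith

theorem summ (x : ℤ_[3]) (n : ℤ) : Summable fun j => Ψ j (x + n) - Ψ j x :=
  Summable.of_norm_bounded (geo 0 |(n : ℝ)|).summable fun i => term_le 0 i x n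

theorem F_split (j : ℕ) (x : ℤ_[3]) (n : ℤ) :
    |F x n - ∑ i ∈ Finset.range j, (Ψ i (x + n) - Ψ i x)| ≤ 6 * ε j * |(n : ℝ)| := by
  have h1 := (summ x n).sum_add_tsum_nat_add j
  unfold F
  rw [← h1, add_sub_cancel_left]
  exact tsum_of_norm_bounded (geo j _) fun i => term_le j i x n

theorem F_add (x : ℤ_[3]) (n m : ℤ) : F x (n + m) = F x n + F (x + n) m := by
  unfold F
  rw [← (summ x n).tsum_add (summ (x + n) m)]
  congr 1; funext j
  push_cast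
  rw [add_assoc]; ring

theorem F_zero (x : ℤ_[3]) : F x 0 = 0 := by simp [F]

theorem F_symm (x : ℤ_[3]) (n : ℤ) : F (h - x) (-n) = -F x n := by
  unfold F
  rw [← tsum_neg]
  congr 1; funext j
  rw [show h - x + ((-n : ℤ) : ℤ_[3]) = h - (x + n) by push_cast; ring, Ψ_symm, Ψ_symm]
  ring

theorem F_cont (n : ℤ) : Continuous fun x => F x n :=
  continuous_tsum (fun j => ((Ψ_cont j).comp (continuous_id.add continuous_const)).sub (Ψ_cont j))
    (geo 0 |(n : ℝ)|).summable fun i x => term_le 0 i x n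

end H93.Cyl
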