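import Pool.Agent.H93.Cyl1

open Filter Topology Set

namespace H93.Cyl

theorem w_nonneg (j : ℕ) : 0 ≤ w j := by have := Q_ge j; unfold w; linarith

theorem ψ_zero (j : ℕ) : ψ j 0 = 0 := by
  unfold ψ; rw [min_eq_left (w_nonneg j)]; simp

theorem Ψ_min (j : ℕ) (x : ℤ_[3]) : ψ j (d (j + 1) x) ≤ Ψ j x - Ψ j 0 := by
  have h1 : d (j + 1) 0 = 0 := by
    unfold d; rw [e_eq (u := 0) (by simp) (by simp)]; simp
  have h2 := ψ_mono j (d_le (j + 1) (x - h))
  unfold Ψ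
  rw [h1, ψ_zero, zero_sub h, d_h]
  linarith

theorem ψ_nonneg (j : ℕ) {t : ℝ} (ht : 0 ≤ t) : 0 ≤ ψ j t := by
  rw [← ψ_zero j]; exact ψ_mono j ht

theorem ψ_jump {j : ℕ} (hj : 1 ≤ j) {t : ℝ} (ht : w j ≤ t) : (3 : ℝ) ^ j / 3 ≤ ψ j t := by
  have h1 : (3 : ℝ) ≤ Q j := by
    have := pow_le_pow_right₀ (show (1 : ℝ) ≤ 3 by norm_num) (hj.trans (le_κ j))
    simpa [Q] using this
  have h2 := εQ j
  have h3 := ε_pos j
  have h4 := mul_nonneg (γ_pos j).le ((w_nonneg j).trans ht)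
  unfold ψ
  rw [min_eq_right ht]
  unfold w
  nlinarith

theorem pow_big (M : ℝ) : ∃ J : ℕ, 1 ≤ J ∧ ∀ j, J ≤ j → M ≤ (3 : ℝ) ^ j / 3 := by
  obtain ⟨J, hJ⟩ := eventually_atTop.1 ((tendsto_pow_atTop_atTop_of_one_lt
    (show (1 : ℝ) < 3 by norm_num)).eventually (eventually_ge_atTop (3 * M)))
  exact ⟨J + 1, by omega, fun j hj => by linarith [hJ j (by omega)]⟩

theorem F_zero_big (M : ℝ) : ∃ N : ℤ, ∀ n : ℤ, N ≤ |n| → M ≤ F 0 n := by
  classical
  obtain ⟨J, hJ1, hJ⟩ := pow_big M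
  refine ⟨3 ^ κ J, fun n hn => ?_⟩
  have hex : ∃ i, e (κ (J + i)) n = n := by
    obtain ⟨i, hi⟩ := pow_unbounded_of_one_lt (2 * |n|) (show (1 : ℤ) < 3 by norm_num)
    refine ⟨i, e_eq (by simp) (hi.trans_le (pow_le_pow_right₀ (by norm_num) ?_))⟩
    have := le_κ (J + i); omega
  have h1 := Nat.find_spec hex
  have h0 : Nat.find hex ≠ 0 := by
    intro h
    rw [h, add_zero] at h1
    have := e_lt (κ J) n
    rw [h1] at this
    have := abs_nonneg n
    omega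
  obtain ⟨i, hi⟩ := Nat.exists_eq_succ_of_ne_zero h0
  have h2 := Nat.find_min hex (show i < Nat.find hex by omega)
  rw [hi] at h1
  have h3 : w (J + i) ≤ d (J + i + 1) n := jump (by
    rw [show J + i + 1 = J + i.succ by omega, h1]; exact fun h => h2 h.symm)
  have h4 := (summ 0 n).le_tsum (J + i) fun j _ => by
    rw [zero_add]; exact (ψ_nonneg j (d_nonneg _ _)).trans (Ψ_min j n)
  rw [zero_add] at h4
  have h5 := Ψ_min (J + i) n
  have h6 := ψ_jump (show 1 ≤ J + i by omega) h3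
  have h7 := hJ (J + i) (by omega)
  unfold F
  rw [zero_add]
  linarith

theorem F_int (a : ℤ) : Tendsto (fun n : ℤ => F a n) cofinite atTop := by
  rw [tendsto_atTop]
  intro M
  obtain ⟨N, hN⟩ := F_zero_big (M + F 0 a)
  rw [eventually_cofinite]
  refine (Set.finite_Icc (-N - a) (N - a)).subset fun n hn => ?_
  by_contra h
  apply hn
  have h1 := F_add 0 a n
  rw [zero_add] at h1
  have h2 := hN (a + n) (by
    rw [mem_Icc, not_and_or] at h
    rw [le_abs]; omega)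
  linarith

theorem jumps {x : ℤ_[3]} (hx : ∀ a : ℤ, x ≠ a) (J : ℕ) :
    ∃ K, J ≤ K ∧ e (κ (K + 1)) x ≠ e (κ K) x := by
  by_contra hn
  push Not at hn
  have h1 : ∀ i, e (κ (J + i)) x = e (κ J) x := by
    intro i
    induction i with
    | zero => rfl
    | succ i ih => rw [← add_assoc, hn _ (by omega), ih]
  apply hx (e (κ J) x)
  rw [← sub_eq_zero, ← norm_le_zero_iff]
  refine ge_of_tendsto' (tendsto_pow_atTop_nhds_zero_of_lt_one (r := (1 / 3 : ℝ)) (by norm_num)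
    (by norm_num)) fun i => ?_
  have h2 := (pow_dvd_pow 3 (show i ≤ κ (J + i) by have := le_κ (J + i); omega)).trans
    (e_dvd (κ (J + i)) x)
  rw [h1] at h2
  have h3 := (PadicInt.norm_le_pow_iff_mem_span_pow (p := 3) (x - e (κ J) x) i).2
    (Ideal.mem_span_singleton.2 (by exact_mod_cast h2))
  rw [zpow_neg, zpow_natCast] at h3
  rw [one_div, inv_pow]
  exact_mod_cast h3

theorem F_low {x : ℤ_[3]} (hx : ∀ a : ℤ, x ≠ a) (M : ℝ) : ∃ n, F x n ≤ -M := by
  obtain ⟨J, hJ1, hJ⟩ := pow_big (M + 3)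
  obtain ⟨i, hi, hi2⟩ := jumps hx J
  obtain ⟨K, hK, hK2⟩ := jumps hx (i + 1)
  set n : ℤ := -e (κ K) x with hn
  have hdv : (3 : ℤ_[3]) ^ κ K ∣ x + n - 0 := by
    have := e_dvd (κ K) x
    rw [hn]; push_cast
    rwa [sub_zero, ← sub_eq_add_neg]
  have hnQ : |(n : ℝ)| ≤ Q K := by
    have h1 := d_le K x
    have h2 := Q_ge K
    rw [hn]; push_cast; rw [abs_neg]
    unfold d w at h1
    linarith
  have hp : ((1 : ℝ) / 3) ^ K ≤ 1 := pow_le_one₀ (by norm_num) (by norm_num)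
  refine ⟨n, ?_⟩
  have h1 := (abs_le.1 (F_split (K + 1) x n)).2
  have h2 : 6 * ε (K + 1) * |(n : ℝ)| ≤ 1 :=
    (mul_le_mul_of_nonneg_left hnQ (by have := ε_pos (K + 1); positivity)).trans
      ((εQ' K).trans hp)
  rw [Finset.sum_range_succ] at h1
  have h3 : ∑ j ∈ Finset.range K, (Ψ j (x + n) - Ψ j x) ≤ -(M + 3) := by
    have h4 : ∀ j ∈ Finset.range K, Ψ j (x + n) - Ψ j x = -(Ψ j x - Ψ j 0) := fun j hj => by
      rw [Ψ_congr ((pow_dvd_pow 3 (κ_mono (Finset.mem_range.1 hj))).trans hdv)]; ring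
    rw [Finset.sum_congr rfl h4, Finset.sum_neg_distrib, neg_le_neg_iff]
    refine le_trans ?_ (Finset.single_le_sum (f := fun j => Ψ j x - Ψ j 0)
      (fun j _ => (ψ_nonneg j (d_nonneg _ _)).trans (Ψ_min j x))
      (Finset.mem_range.2 (show i < K by omega)))
    exact (hJ i hi).trans ((ψ_jump (by omega) (jump hi2)).trans (Ψ_min i x))
  have h4 : Ψ K (x + n) - Ψ K x ≤ 2 := by
    have a1 := jump hK2
    have a2 : w K ≤ d (K + 1) (x + n - h) := by
      refine le_trans ?_ (d_mono K _)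
      have : d K (x + n - h) = d K (-h) := by
        unfold d
        rw [e_congr (y := -h) (by rwa [sub_neg_eq_add, sub_add_cancel, ← sub_zero (x + n)])]
      rw [this, d_h]
    have a3 := (abs_le.1 (d_lip (K + 1) x n)).2
    have a4 := (abs_le.1 (d_lip (K + 1) (x - h) n)).1
    rw [show x - h + n = x + n - h by ring] at a4
    have a5 : γ K * |(n : ℝ)| ≤ 1 :=
      (mul_le_mul_of_nonneg_left hnQ (γ_pos K).le).trans ((γQ K).le.trans hp)
    have a6 := mul_le_mul_of_nonneg_left (min_le_right (d (K + 1) (x + n)) (w K)) (ε_pos K).le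
    have a7 := mul_le_mul_of_nonneg_left (min_le_right (d (K + 1) (x - h)) (w K)) (ε_pos K).le
    have a8 := mul_le_mul_of_nonneg_left a3 (γ_pos K).le
    have a9 := mul_le_mul_of_nonneg_left a4 (γ_pos K).le
    unfold Ψ ψ
    rw [min_eq_right a1, min_eq_right a2]
    linarith
  linarith

theorem F_high {x : ℤ_[3]} (hx : ∀ a : ℤ, h - x ≠ a) (M : ℝ) : ∃ n, M ≤ F x n := by
  obtain ⟨n, hn⟩ := F_low hx M
  have := F_symm x (-n)
  rw [neg_neg] at this
  exact ⟨-n, by linarith⟩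

theorem ivt (g : ℤ → ℝ) (β t : ℝ) (hg : ∀ i, |g (i + 1) - g i| ≤ β) (h1 : ∃ i, g i ≤ t)
    (h2 : ∃ i, t < g i) : ∃ i, t - β ≤ g i ∧ g i ≤ t := by
  by_contra hn
  push Not at hn
  obtain ⟨a, ha⟩ := h1
  obtain ⟨b, hb⟩ := h2
  have key : ∀ i, g i ≤ t → g i < t - β := fun i hi => by
    by_contra h
    exact absurd (hn i (not_lt.1 h)) (not_lt.2 hi)
  have : ∀ i : ℤ, g (a + i) ≤ t := by
    intro i
    induction i using Int.induction_on with
    | zero => simpa using ha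
    | succ i ih =>
      have := (abs_le.1 (hg (a + i))).2
      rw [← add_assoc]
      linarith [key _ ih]
    | pred i ih =>
      have := (abs_le.1 (hg (a + (-(i : ℤ) - 1)))).1
      rw [show a + (-(i : ℤ) - 1) + 1 = a + -(i : ℤ) by ring] at this
      linarith [key _ ih]
  have h3 := this (b - a)
  rw [add_sub_cancel] at h3
  linarith

theorem Ψ_mid {j : ℕ} {z : ℤ_[3]} {u H : ℤ} (hH : 2 * H = 3 ^ κ (j + 1) + 1)
    (hz : (3 : ℤ_[3]) ^ κ (j + 1) ∣ z - u) (h1 : 3 ^ κ j ≤ 2 * u) (h2 : 3 ^ κ j ≤ H - u) :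
    Ψ j z = γ j * (2 * u - H) := by
  have h0 : (1 : ℤ) ≤ 3 ^ κ j := one_le_pow₀ (by norm_num)
  have e1 : e (κ (j + 1)) z = u := e_eq hz (by rw [abs_of_nonneg (by omega)]; omega)
  have e2 : e (κ (j + 1)) (z - h) = u - H := e_eq (by
    have : z - h - ((u - H : ℤ) : ℤ_[3]) = (z - u) - (h - H) := by push_cast; ring
    rw [this]; exact dvd_sub hz (h_dvd hH)) (by rw [abs_of_nonpos (by omega)]; omega)
  have r1 : (3 : ℝ) ^ κ j ≤ 2 * u := by exact_mod_cast h1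
  have r2 : (3 : ℝ) ^ κ j ≤ H - u := by exact_mod_cast h2
  have r0 : (1 : ℝ) ≤ 3 ^ κ j := one_le_pow₀ (by norm_num)
  have d1 : d (j + 1) z = u := by unfold d; rw [e1, abs_of_nonneg (by linarith)]
  have d2 : d (j + 1) (z - h) = H - u := by
    unfold d; rw [e2]; push_cast; rw [abs_of_nonpos (by linarith)]; ring
  unfold Ψ ψ
  rw [d1, d2, min_eq_right (by unfold w Q; linarith), min_eq_right (by unfold w Q; linarith)]
  ring

theorem F_per (j : ℕ) (x : ℤ_[3]) : ∑ i ∈ Finset.range j, (Ψ i (x + ((3 ^ κ j : ℤ) : ℤ_[3])) - Ψ i x) = 0 :=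
  Finset.sum_eq_zero fun i hi => by
    rw [Ψ_congr (y := x), sub_self]
    rw [add_sub_cancel_left]
    push_cast
    exact pow_dvd_pow 3 (κ_mono (Finset.mem_range.1 hi))

theorem F_dense {x : ℤ_[3]} (hx : ∀ a : ℤ, x ≠ a) (hx' : ∀ a : ℤ, h - x ≠ a) (y : ℤ_[3]) (t : ℝ)
    (j : ℕ) : ∃ n : ℤ, (3 : ℤ_[3]) ^ κ j ∣ x + n - y ∧ |F x n - t| ≤ 3 * (1 / 3) ^ j := by
  classical
  obtain ⟨H, hH⟩ := ex_H (κ (j + 1))
  set P : ℤ := 3 ^ κ j with hP
  set R : ℤ := 3 ^ κ (j + 1) with hR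
  have hP0 : 1 ≤ P := one_le_pow₀ (by norm_num)
  have hR0 : 1 ≤ R := one_le_pow₀ (by norm_num)
  have hPr : (P : ℝ) = Q j := by rw [hP]; push_cast; rfl
  have hRr : (R : ℝ) = Q (j + 1) := by rw [hR]; push_cast; rfl
  set u0 : ℤ := e (κ j) y + P with hu0
  set n0 : ℤ := u0 - e (κ (j + 1)) x with hn0
  have hey := e_lt (κ j) y
  rw [← hP] at hey
  have hL : ∀ (z : ℤ_[3]) (r : ℤ), |F z r| ≤ 6 * ε 0 * |(r : ℝ)| := fun z r => by
    simpa using F_split 0 z r
  have hcl : ∀ n : ℤ, ∃ i : ℤ, |F x (n0 + i * R) - F x n| ≤ 6 * ε 0 * R := by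
    intro n
    refine ⟨(n - n0) / R, ?_⟩
    have h1 := Int.emod_add_mul_ediv (n - n0) R
    have h2 := Int.emod_nonneg (n - n0) (show R ≠ 0 by omega)
    have h3 := Int.emod_lt_of_pos (n - n0) (show 0 < R by omega)
    have e1 : n0 + (n - n0) / R * R = n + -((n - n0) % R) := by linarith
    rw [e1, F_add, add_sub_cancel_left]
    refine (hL _ _).trans (mul_le_mul_of_nonneg_left ?_ (by have := ε_pos 0; positivity))
    have : |(-((n - n0) % R) : ℤ)| ≤ R := by rw [abs_neg, abs_of_nonneg h2]; exact h3.le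
    exact_mod_cast this
  obtain ⟨i, hi1, hi2⟩ := ivt (fun i => F x (n0 + i * R)) (6 * 3 ^ (j + 1)) t (fun i => by
      have e1 : n0 + (i + 1) * R = n0 + i * R + R := by ring
      rw [e1, F_add, add_sub_cancel_left]
      have h1 := F_split (j + 1) (x + (n0 + i * R : ℤ)) R
      rw [F_per, sub_zero, hRr, abs_of_pos (Q_pos _), mul_assoc, εQ] at h1
      exact h1)
    (by
      obtain ⟨n, hn⟩ := F_low hx (6 * ε 0 * R - t)
      obtain ⟨i, hi⟩ := hcl n
      exact ⟨i, by linarith [(abs_le.1 hi).2]⟩)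
    (by
      obtain ⟨n, hn⟩ := F_high hx' (6 * ε 0 * R + t + 1)
      obtain ⟨i, hi⟩ := hcl n
      exact ⟨i, by linarith [(abs_le.1 hi).1]⟩)
  set n1 := n0 + i * R with hn1
  set S : ℕ := 2 * 3 ^ (2 * j + 2) with hS
  have hcong : ∀ s : ℕ, (3 : ℤ_[3]) ^ κ (j + 1) ∣ x + (n1 + s * P : ℤ) - (u0 + s * P : ℤ) := by
    intro s
    have : x + (n1 + s * P : ℤ) - (u0 + s * P : ℤ) =
        (x - e (κ (j + 1)) x) + 3 ^ κ (j + 1) * i := by
      rw [hn1, hn0, hR]; push_cast; ring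
    rw [this]
    exact dvd_add (e_dvd _ _) (Dvd.intro _ rfl)
  have hroom : 2 * ((S : ℤ) + 3) * P ≤ R := by
    have h1 : R = 3 ^ (6 * j + 6) * P := by rw [hR, hP, κ_succ, pow_add]; ring
    have h2 : (3 : ℤ) ^ (6 * j + 6) = 3 ^ (2 * j + 2) * 3 ^ (4 * j + 4) := by
      rw [← pow_add]; congr 1; ring
    have h3 : (3 : ℤ) ^ 4 ≤ 3 ^ (4 * j + 4) := pow_le_pow_right₀ (by norm_num) (by omega)
    have h4 : (1 : ℤ) ≤ 3 ^ (2 * j + 2) := one_le_pow₀ (by norm_num)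
    rw [h1]
    refine mul_le_mul_of_nonneg_right ?_ (by omega)
    rw [h2, hS]
    push_cast
    nlinarith
  have hΨ : ∀ s : ℕ, s ≤ S → Ψ j (x + (n1 + s * P : ℤ)) = γ j * (2 * (u0 + s * P : ℤ) - H) := by
    intro s hs
    have h1 : (s : ℤ) * P ≤ S * P := mul_le_mul_of_nonneg_right (by exact_mod_cast hs) (by omega)
    have h2 : 0 ≤ (s : ℤ) * P := by positivity
    have h3 := le_abs_self (e (κ j) y)
    have h4 := neg_abs_le (e (κ j) y)
    exact Ψ_mid hH (hcong s) (by rw [← hP]; linarith) (by rw [← hP]; linarith)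
  set η : ℝ := (1 / 3) ^ j with hη
  have hη0 : 0 < η := by positivity
  have hstep : ∀ s : ℕ, s < S → η ≤ F x (n1 + (s + 1 : ℕ) * P) - F x (n1 + s * P) ∧
      F x (n1 + (s + 1 : ℕ) * P) - F x (n1 + s * P) ≤ 3 * η := by
    intro s hs
    have e1 : n1 + (s + 1 : ℕ) * P = n1 + s * P + P := by push_cast; ring
    have h1 := F_split (j + 1) (x + (n1 + s * P : ℤ)) P
    rw [Finset.sum_range_succ, F_per, zero_add, hPr, abs_of_pos (Q_pos _)] at h1
    have e2 : x + (n1 + s * P : ℤ) + P = x + (n1 + (s + 1 : ℕ) * P : ℤ) := by push_cast; ring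
    rw [e2, hΨ _ hs.le, hΨ _ hs] at h1
    have e3 : γ j * (2 * ((u0 + (s + 1 : ℕ) * P : ℤ) : ℝ) - H) -
        γ j * (2 * ((u0 + s * P : ℤ) : ℝ) - H) = 2 * η := by
      rw [hη, ← γQ, ← hPr]; push_cast; ring
    rw [e3] at h1
    have h2 := abs_le.1 (h1.trans (εQ' j))
    rw [e1, F_add, add_sub_cancel_left]
    constructor <;> linarith [h2.1, h2.2]
  have hgrow : ∀ s : ℕ, s ≤ S → F x n1 + s * η ≤ F x (n1 + s * P) := by
    intro s hs
    induction s with
    | zero => simp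
    | succ s ih =>
      have := (hstep s hs).1
      have := ih (by omega)
      rw [Nat.cast_succ s (R := ℝ)]
      linarith
  have hex : ∃ s : ℕ, t ≤ F x (n1 + s * P) ∧ s ≤ S := ⟨S, by
    have h1 := hgrow S le_rfl
    have h2 : (S : ℝ) * η = 6 * 3 ^ (j + 1) := by
      rw [hS, hη, one_div, inv_pow]
      push_cast
      field_simp
      ring
    linarith, le_rfl⟩
  obtain ⟨hs1, hs2⟩ := Nat.find_spec hex
  set s := Nat.find hex with hs
  refine ⟨n1 + s * P, ?_, ?_⟩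
  · have h1 := (pow_dvd_pow 3 (κ_mono (Nat.le_succ j))).trans (hcong s)
    have h2 : x + (n1 + s * P : ℤ) - y = (x + (n1 + s * P : ℤ) - (u0 + s * P : ℤ)) -
        (y - e (κ j) y) + 3 ^ κ j * (s + 1) := by
      rw [hu0, hP]; push_cast; ring
    rw [h2]
    exact dvd_add (dvd_sub h1 (e_dvd _ _)) (Dvd.intro _ rfl)
  · rw [abs_of_nonneg (by linarith)]
    rcases Nat.eq_zero_or_pos s with h0 | h0
    · rw [h0]; simp only [Nat.cast_zero, zero_mul, add_zero]; linarith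
    · obtain ⟨r, hr⟩ := Nat.exists_eq_succ_of_ne_zero h0.ne'
      have h1 := Nat.find_min hex (show r < Nat.find hex by omega)
      have h2 : F x (n1 + r * P) < t := by
        by_contra h
        exact h1 ⟨not_lt.1 h, by omega⟩
      have h3 := (hstep r (by omega)).2
      rw [hr]
      linarith

theorem dense_orbit {x : ℤ_[3]} (hx : ∀ a : ℤ, x ≠ a) (hx' : ∀ a : ℤ, h - x ≠ a) (t0 : ℝ) :
    Dense (range fun n : ℤ => (x + n, t0 + F x n)) := by
  rw [Metric.dense_iff]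
  rintro ⟨y, t⟩ r hr
  obtain ⟨j, hj⟩ := exists_pow_lt_of_lt_one (show 0 < r / 3 by positivity)
    (show (1 / 3 : ℝ) < 1 by norm_num)
  obtain ⟨n, h1, h2⟩ := F_dense hx hx' y (t - t0) j
  refine ⟨_, ?_, n, rfl⟩
  rw [Metric.mem_ball, Prod.dist_eq, max_lt_iff]
  constructor
  · have h3 := (PadicInt.norm_le_pow_iff_mem_span_pow (p := 3) (x + n - y) j).2
      (Ideal.mem_span_singleton.2 (by exact_mod_cast (pow_dvd_pow 3 (le_κ j)).trans h1))
    rw [zpow_neg, zpow_natCast] at h3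
    rw [one_div, inv_pow] at hj
    rw [dist_eq_norm]
    push_cast at h3
    linarith
  · rw [Real.dist_eq, show t0 + F x n - t = F x n - (t - t0) by ring]
    linarith

theorem escape {x : ℤ_[3]} (hx : (∃ a : ℤ, x = a) ∨ ∃ a : ℤ, h - x = a) (t0 : ℝ) :
    Tendsto (fun n : ℤ => |t0 + F x n|) cofinite atTop := by
  rcases hx with ⟨a, rfl⟩ | ⟨a, ha⟩
  · exact tendsto_abs_atTop_atTop.comp (tendsto_atTop_add_const_left _ t0 (F_int a))
  · have h1 := (F_int a).comp (neg_injective.tendsto_cofinite (f := fun n : ℤ => -n))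
    have h2 := tendsto_abs_atTop_atTop.comp (tendsto_atTop_add_const_left _ (-t0) h1)
    refine h2.congr fun n => ?_
    simp only [Function.comp]
    rw [← ha, F_symm, ← abs_neg]
    congr 1; ring

theorem isolated {Z : Type*} [TopologicalSpace Z] [T1Space Z] (o : ℤ → Z × ℝ)
    (ho : Tendsto (fun n => |(o n).2|) cofinite atTop) :
    ∀ z ∈ range o, ∃ U ∈ 𝓝 z, U ∩ range o = {z} := by
  intro z hz
  have h1 : {n | ¬ (|z.2| + 1 ≤ |(o n).2|)}.Finite :=
    eventually_cofinite.1 (ho.eventually (eventually_ge_atTop _))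
  have h2 : IsClosed (o '' {n | ¬ (|z.2| + 1 ≤ |(o n).2|)} \ {z}) :=
    ((h1.image o).subset sdiff_subset).isClosed
  refine ⟨{p | |p.2| < |z.2| + 1} ∩ (o '' {n | ¬ (|z.2| + 1 ≤ |(o n).2|)} \ {z})ᶜ,
    inter_mem ((isOpen_lt (by fun_prop) continuous_const).mem_nhds (by simp))
      (h2.isOpen_compl.mem_nhds (by simp)), ?_⟩
  ext p
  constructor
  · rintro ⟨⟨h3, h4⟩, n, rfl⟩
    by_contra h5
    exact h4 ⟨⟨n, not_le.2 h3, rfl⟩, h5⟩
  · rintro rfl
    exact ⟨⟨by simp, by simp⟩, hz⟩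

end H93.Cyl
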