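import Mathlib

set_option autoImplicit false

namespace Pool.Agent.H93.DeB

open Complex Filter Topology Finset

/-- Index set of the zeros. -/
abbrev Ix := Σ k : ℕ, Fin (4 ^ k)

/-- The zeros. -/
noncomputable def lam (i : Ix) : ℂ := ((8 ^ i.1 : ℝ) : ℂ) - (((i.2 : ℕ) + 1 : ℝ) : ℂ) * I

lemma lam_re (i : Ix) : (lam i).re = 8 ^ i.1 := by
  simp only [lam, sub_re, ofReal_re, mul_re, I_re, ofReal_im, I_im]; ring

lemma lam_im (i : Ix) : (lam i).im = -((i.2 : ℕ) + 1 : ℝ) := by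
  simp only [lam, sub_im, ofReal_re, mul_im, I_re, ofReal_im, I_im]; ring

lemma lam_norm (i : Ix) : (8 : ℝ) ^ i.1 ≤ ‖lam i‖ := by
  rw [← lam_re]; exact re_le_norm _

lemma lam_pos (i : Ix) : 0 < ‖lam i‖ := lt_of_lt_of_le (by positivity) (lam_norm i)

lemma lam_ne (i : Ix) : lam i ≠ 0 := norm_pos_iff.mp (lam_pos i)

lemma sum_inv : Summable (fun i : Ix => ‖lam i‖⁻¹) := by
  have h : Summable (fun i : Ix => ((8 : ℝ) ^ i.1)⁻¹) := by
    rw [summable_sigma_of_nonneg (fun i => by positivity)]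
    refine ⟨fun k => (hasSum_fintype _).summable, ?_⟩
    have : (fun k : ℕ => ∑' _ : Fin (4 ^ k), ((8 : ℝ) ^ k)⁻¹) = fun k => (1 / 2 : ℝ) ^ k := by
      funext k
      rw [tsum_fintype, Finset.sum_const, Finset.card_univ, Fintype.card_fin, nsmul_eq_mul]
      push_cast
      rw [← inv_pow, ← mul_pow]; norm_num
    rw [this]; exact summable_geometric_two
  exact h.of_nonneg_of_le (fun i => by positivity)
    (fun i => inv_anti₀ (by positivity) (lam_norm i))

/-- The canonical product. -/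
noncomputable def G (z : ℂ) : ℂ := ∏' i : Ix, (1 + -z / lam i)

lemma norm_term (z : ℂ) (i : Ix) : ‖-z / lam i‖ = ‖z‖ * ‖lam i‖⁻¹ := by
  rw [norm_div, norm_neg, div_eq_mul_inv]

lemma sum_term (z : ℂ) : Summable (fun i : Ix => ‖-z / lam i‖) := by
  simp only [norm_term]; exact sum_inv.mul_left _

lemma G_diff : Differentiable ℂ G := by
  intro z
  have hK : IsOpen (Metric.ball (0 : ℂ) (‖z‖ + 1)) := Metric.isOpen_ball
  have h := Summable.hasProdLocallyUniformlyOn_one_add (f := fun (i : Ix) (w : ℂ) => -w / lam i)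
    hK (sum_inv.mul_left (‖z‖ + 1)) (Eventually.of_forall fun i w hw => by
      rw [norm_term]
      have : ‖w‖ < ‖z‖ + 1 := by simpa using hw
      exact mul_le_mul_of_nonneg_right this.le (by positivity))
    (fun i => by fun_prop)
  rw [hasProdLocallyUniformlyOn_iff_tendstoLocallyUniformlyOn] at h
  have h2 := h.differentiableOn (Eventually.of_forall fun s => by
    apply Differentiable.differentiableOn
    fun_prop) hK
  exact h2.differentiableAt (hK.mem_nhds (by simp))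

lemma G_tend (z : ℂ) :
    Tendsto (fun s : Finset Ix => ∏ i ∈ s, (‖z - lam i‖ / ‖lam i‖)) atTop (𝓝 ‖G z‖) := by
  have h := (multipliable_one_add_of_summable (sum_term z)).hasProd
  have h2 : Tendsto (fun s : Finset Ix => ∏ i ∈ s, (1 + -z / lam i)) atTop (𝓝 (G z)) := h
  refine h2.norm.congr fun s => ?_
  rw [norm_prod]
  refine Finset.prod_congr rfl fun i _ => ?_
  have : 1 + -z / lam i = -(z - lam i) / lam i := by field_simp [lam_ne i]; ring
  rw [this, norm_div, norm_neg]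

lemma G_cmp (z w : ℂ) (M : ℝ) (s0 : Finset Ix)
    (h : ∀ s, s0 ⊆ s → ∏ i ∈ s, ‖z - lam i‖ ≤ M * ∏ i ∈ s, ‖w - lam i‖) :
    ‖G z‖ ≤ M * ‖G w‖ := by
  refine le_of_tendsto_of_tendsto (G_tend z) ((G_tend w).const_mul M) ?_
  filter_upwards [eventually_ge_atTop s0] with s hs
  rw [Finset.prod_div_distrib, Finset.prod_div_distrib, ← mul_div_assoc]
  exact div_le_div_of_nonneg_right (h s hs) (Finset.prod_nonneg fun i _ => norm_nonneg _)

lemma G_ne (z : ℂ) (hz : 0 ≤ z.im) : G z ≠ 0 := by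
  refine tprod_one_add_ne_zero_of_summable (fun i h => ?_) (sum_term z)
  have h1 : z = lam i := by
    field_simp [lam_ne i] at h
    linear_combination -h
  have := lam_im i
  rw [← h1] at this
  have h3 : (0 : ℝ) ≤ ((i.2 : ℕ) : ℝ) := by positivity
  linarith

lemma norm_le_of_sq {a b : ℂ} (h : a.re ^ 2 + a.im ^ 2 ≤ b.re ^ 2 + b.im ^ 2) : ‖a‖ ≤ ‖b‖ := by
  rw [← sq_le_sq₀ (norm_nonneg _) (norm_nonneg _), Complex.sq_norm, Complex.sq_norm,
    normSq_apply, normSq_apply]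
  nlinarith

lemma G_conj (z : ℂ) (hz : 0 ≤ z.im) : ‖G ((starRingEnd ℂ) z)‖ ≤ ‖G z‖ := by
  have := G_cmp ((starRingEnd ℂ) z) z 1 ∅ (fun s _ => by
    rw [one_mul]
    refine Finset.prod_le_prod (fun i _ => norm_nonneg _) fun i _ => norm_le_of_sq ?_
    simp only [sub_re, sub_im, conj_re, conj_im, lam_im]
    have h3 : (0 : ℝ) ≤ ((i.2 : ℕ) : ℝ) := by positivity
    nlinarith)
  simpa using this

lemma G_exp : ∃ B : ℝ, ∀ z, ‖G z‖ ≤ Real.exp (B * ‖z‖) := by
  refine ⟨∑' i : Ix, ‖lam i‖⁻¹, fun z => le_of_tendsto' (G_tend z) fun s => ?_⟩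
  calc ∏ i ∈ s, (‖z - lam i‖ / ‖lam i‖) ≤ ∏ i ∈ s, Real.exp (‖lam i‖⁻¹ * ‖z‖) := by
        refine Finset.prod_le_prod (fun i _ => by positivity) fun i _ => ?_
        have h1 := Real.add_one_le_exp (‖lam i‖⁻¹ * ‖z‖)
        have h2 := norm_sub_le z (lam i)
        have h3 := lam_pos i
        refine le_trans ?_ h1
        rw [div_le_iff₀ h3]
        field_simp
        linarith
    _ = Real.exp ((∑ i ∈ s, ‖lam i‖⁻¹) * ‖z‖) := by rw [Finset.sum_mul, Real.exp_sum]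
    _ ≤ _ := by
        refine Real.exp_le_exp.mpr (mul_le_mul_of_nonneg_right ?_ (norm_nonneg _))
        exact sum_inv.sum_le_tsum s (fun i _ => by positivity)

lemma clus_le (u : ℝ) (hu : 0 ≤ u) (L : ℕ) :
    ∑ h ∈ range L, (u + 1) / (u ^ 2 + ((h : ℝ) + 1) ^ 2) ≤ 4 := by
  have key : ∀ L : ℕ, ∑ h ∈ range L, (u + 1) / (u ^ 2 + ((h : ℝ) + 1) ^ 2) ≤
      4 - 4 * (u + 1) / (u + L + 1) := by
    intro L
    induction L with
    | zero =>
      simp only [range_zero, sum_empty, Nat.cast_zero, add_zero]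
      rw [mul_div_assoc, div_self (by positivity)]; norm_num
    | succ n ih =>
      rw [Finset.sum_range_succ]
      have hn : (0 : ℝ) ≤ n := by positivity
      have : (u + 1) / (u ^ 2 + ((n : ℝ) + 1) ^ 2) ≤
          4 * (u + 1) / (u + n + 1) - 4 * (u + 1) / (u + (n + 1 : ℕ) + 1) := by
        push_cast
        rw [div_sub_div _ _ (by positivity) (by positivity), div_le_div_iff₀ (by positivity)
          (by positivity)]
        have h1 : (u + n + 1) * (u + (n + 1) + 1) ≤ 4 * (u ^ 2 + ((n : ℝ) + 1) ^ 2) := by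
          nlinarith [sq_nonneg (u - (n + 1)), mul_nonneg hu hn]
        have h2 : 4 * (u + 1) * (u + (n + 1) + 1) - (u + n + 1) * (4 * (u + 1)) = 4 * (u + 1) := by
          ring
        rw [h2]
        nlinarith [mul_le_mul_of_nonneg_left h1 (show 0 ≤ u + 1 by positivity)]
      linarith
  have : 0 ≤ 4 * (u + 1) / (u + L + 1) := by positivity
  linarith [key L]

lemma clus_far (u : ℝ) (k : ℕ) (hu : (8 : ℝ) ^ k / 2 ≤ u) :
    ∑ h ∈ range (4 ^ k), (u + 1) / (u ^ 2 + ((h : ℝ) + 1) ^ 2) ≤ 6 * (1 / 2) ^ k := by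
  have h8 : (1 : ℝ) ≤ 8 ^ k := one_le_pow₀ (by norm_num)
  have hu0 : 0 < u := by linarith
  calc ∑ h ∈ range (4 ^ k), (u + 1) / (u ^ 2 + ((h : ℝ) + 1) ^ 2)
      ≤ ∑ _h ∈ range (4 ^ k), 6 / (8 : ℝ) ^ k := by
        refine Finset.sum_le_sum fun h _ => ?_
        have hh : (0 : ℝ) ≤ ((h : ℝ) + 1) ^ 2 := by positivity
        rw [div_le_div_iff₀ (by positivity) (by positivity)]
        nlinarith
    _ = 6 * (1 / 2) ^ k := by
        rw [Finset.sum_const, card_range, nsmul_eq_mul]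
        push_cast
        have : (8 : ℝ) ^ k = 4 ^ k * 2 ^ k := by rw [← mul_pow]; norm_num
        rw [this, one_div, inv_pow]; field_simp

lemma near_unique (t : ℝ) {k l : ℕ} (hk : |t - 8 ^ k| < (8 : ℝ) ^ k / 2)
    (hl : |t - 8 ^ l| < (8 : ℝ) ^ l / 2) : k = l := by
  by_contra hne
  wlog h : k < l generalizing k l
  · exact this hl hk (Ne.symm hne) (by omega)
  have h1 : (8 : ℝ) ^ (k + 1) ≤ 8 ^ l := pow_le_pow_right₀ (by norm_num) h
  rw [pow_succ] at h1
  have h8 : (0 : ℝ) < 8 ^ k := by positivity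
  rw [abs_lt] at hk hl
  linarith [hk.2, hl.1]

lemma total_le (t : ℝ) (s : Finset Ix) :
    ∑ i ∈ s, (|t - 8 ^ i.1| + 1) / (|t - 8 ^ i.1| ^ 2 + (((i.2 : ℕ) : ℝ) + 1) ^ 2) ≤ 16 := by
  classical
  set N := s.sup (fun i => i.1) + 1
  have hsub : s ⊆ (range N).sigma (fun k => (univ : Finset (Fin (4 ^ k)))) := by
    intro i hi
    simp only [mem_sigma, mem_range, mem_univ, and_true]
    exact Nat.lt_succ_of_le (Finset.le_sup (f := fun i : Ix => i.1) hi)
  refine (Finset.sum_le_sum_of_subset_of_nonneg hsub (fun i _ _ => by positivity)).trans ?_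
  rw [Finset.sum_sigma]
  have h1 : ∀ k ∈ range N, ∑ h : Fin (4 ^ k), (|t - 8 ^ k| + 1) /
      (|t - 8 ^ k| ^ 2 + (((h : ℕ) : ℝ) + 1) ^ 2) ≤
      6 * (1 / 2) ^ k + if |t - 8 ^ k| < (8 : ℝ) ^ k / 2 then 4 else 0 := by
    intro k _
    rw [Fin.sum_univ_eq_sum_range (fun h : ℕ => (|t - 8 ^ k| + 1) /
      (|t - 8 ^ k| ^ 2 + ((h : ℝ) + 1) ^ 2))]
    split_ifs with h
    · have := clus_le _ (abs_nonneg (t - 8 ^ k)) (4 ^ k)
      have h2 : (0 : ℝ) ≤ 6 * (1 / 2) ^ k := by positivity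
      linarith
    · have := clus_far _ k (not_lt.mp h)
      linarith
  refine (Finset.sum_le_sum h1).trans ?_
  rw [Finset.sum_add_distrib, ← Finset.mul_sum, ← Finset.sum_filter, Finset.sum_const,
    nsmul_eq_mul]
  have h2 : ∑ k ∈ range N, (1 / 2 : ℝ) ^ k ≤ 2 := by
    have := summable_geometric_two.sum_le_tsum (range N) (fun i _ => by positivity)
    rwa [tsum_geometric_two] at this
  have h3 : (((range N).filter (fun k => |t - 8 ^ k| < (8 : ℝ) ^ k / 2)).card : ℝ) ≤ 1 := by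
    exact_mod_cast Finset.card_le_one.mpr fun a ha b hb =>
      near_unique t (mem_filter.mp ha).2 (mem_filter.mp hb).2
  linarith

lemma norm_real (t : ℝ) (i : Ix) :
    ‖(t : ℂ) - lam i‖ ^ 2 = (t - 8 ^ i.1) ^ 2 + (((i.2 : ℕ) : ℝ) + 1) ^ 2 := by
  rw [Complex.sq_norm, normSq_apply]
  simp only [sub_re, sub_im, ofReal_re, ofReal_im, lam_re, lam_im]; ring

lemma G_shift (x t : ℝ) : ‖G (t + x)‖ ≤ Real.exp ((2 * |x| + x ^ 2) * 16) * ‖G t‖ := by
  refine G_cmp _ _ _ ∅ fun s _ => ?_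
  set c : Ix → ℝ := fun i =>
    (|t - 8 ^ i.1| + 1) / (|t - 8 ^ i.1| ^ 2 + (((i.2 : ℕ) : ℝ) + 1) ^ 2) with hc
  have hx : 0 ≤ 2 * |x| + x ^ 2 := by positivity
  calc ∏ i ∈ s, ‖(t : ℂ) + x - lam i‖
      ≤ ∏ i ∈ s, (Real.exp ((2 * |x| + x ^ 2) * c i) * ‖(t : ℂ) - lam i‖) := by
        refine Finset.prod_le_prod (fun i _ => norm_nonneg _) fun i _ => ?_
        have hci : 0 ≤ c i := by simp only [hc]; positivity
        have h1 := Real.add_one_le_exp ((2 * |x| + x ^ 2) * c i)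
        have h0 : 0 ≤ (2 * |x| + x ^ 2) * c i := by positivity
        rw [← sq_le_sq₀ (norm_nonneg _) (by positivity), mul_pow, ← ofReal_add, norm_real,
          norm_real]
        set D := (t - 8 ^ i.1) ^ 2 + (((i.2 : ℕ) : ℝ) + 1) ^ 2 with hD
        have hDpos : 0 < D := by positivity
        have h2 : c i * D = |t - 8 ^ i.1| + 1 := by
          simp only [hc, sq_abs]; rw [← hD]; field_simp
        have h3 : (2 * |x| + x ^ 2) * c i + 1 ≤ Real.exp ((2 * |x| + x ^ 2) * c i) ^ 2 := by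
          nlinarith
        have h4 : (t - 8 ^ i.1) * x ≤ |t - 8 ^ i.1| * |x| := by
          rw [← abs_mul]; exact le_abs_self _
        have h5 := abs_nonneg (t - 8 ^ i.1)
        have h6 := abs_nonneg x
        calc (t + x - 8 ^ i.1) ^ 2 + (((i.2 : ℕ) : ℝ) + 1) ^ 2
            = D + 2 * ((t - 8 ^ i.1) * x) + x ^ 2 := by rw [hD]; ring
          _ ≤ ((2 * |x| + x ^ 2) * c i + 1) * D := by
              rw [add_mul, mul_assoc _ (c i), h2]
              nlinarith [mul_nonneg h5 (sq_nonneg x)]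
          _ ≤ _ := mul_le_mul_of_nonneg_right h3 hDpos.le
    _ = Real.exp ((2 * |x| + x ^ 2) * ∑ i ∈ s, c i) * ∏ i ∈ s, ‖(t : ℂ) - lam i‖ := by
        rw [Finset.prod_mul_distrib, Finset.mul_sum, Real.exp_sum]
    _ ≤ _ := by
        refine mul_le_mul_of_nonneg_right (Real.exp_le_exp.mpr
          (mul_le_mul_of_nonneg_left (total_le t s) hx)) (Finset.prod_nonneg fun i _ => norm_nonneg _)

lemma G_up (k : ℕ) (t : ℝ) (h1 : 8 ^ k ≤ t) (h2 : t ≤ 8 ^ k + 1) :
    ‖G t‖ ≤ 2 / 4 ^ k * ‖G (t + I)‖ := by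
  classical
  set s0 : Finset Ix := univ.map (Function.Embedding.sigmaMk (β := fun k => Fin (4 ^ k)) k)
  refine G_cmp _ _ _ s0 fun s hs => ?_
  rw [← Finset.prod_sdiff hs, ← Finset.prod_sdiff hs (f := fun i => ‖(t : ℂ) + I - lam i‖)]
  have hA : ∏ i ∈ s \ s0, ‖(t : ℂ) - lam i‖ ≤ ∏ i ∈ s \ s0, ‖(t : ℂ) + I - lam i‖ := by
    refine Finset.prod_le_prod (fun i _ => norm_nonneg _) fun i _ => norm_le_of_sq ?_
    simp only [sub_re, sub_im, add_re, add_im, ofReal_re, ofReal_im, I_re, I_im, lam_im]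
    have h3 : (0 : ℝ) ≤ ((i.2 : ℕ) : ℝ) := by positivity
    nlinarith
  set a : ℕ → ℝ := fun h => ‖((t - 8 ^ k : ℝ) : ℂ) + ((h + 1 : ℝ) : ℂ) * I‖ with ha
  have e1 : ∏ i ∈ s0, ‖(t : ℂ) - lam i‖ = ∏ h ∈ range (4 ^ k), a h := by
    rw [Finset.prod_map, ← Fin.prod_univ_eq_prod_range]
    refine Finset.prod_congr rfl fun h _ => ?_
    change ‖(t : ℂ) - lam ⟨k, h⟩‖ = _
    simp only [ha, lam]
    congr 1; push_cast; ring
  have e2 : ∏ i ∈ s0, ‖(t : ℂ) + I - lam i‖ = ∏ h ∈ range (4 ^ k), a (h + 1) := by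
    rw [Finset.prod_map, ← Fin.prod_univ_eq_prod_range (fun h => a (h + 1))]
    refine Finset.prod_congr rfl fun h _ => ?_
    change ‖(t : ℂ) + I - lam ⟨k, h⟩‖ = _
    simp only [ha, lam]
    congr 1; push_cast; ring
  have e3 := Finset.prod_range_succ a (4 ^ k)
  rw [Finset.prod_range_succ'] at e3
  have a0 : a 0 ≤ 2 := by
    simp only [ha]
    refine (norm_add_le _ _).trans ?_
    rw [norm_mul, norm_I, Complex.norm_real, Complex.norm_real, Real.norm_eq_abs, Real.norm_eq_abs,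
      abs_of_nonneg (by linarith), abs_of_nonneg (by positivity)]
    simp only [Nat.cast_zero]; linarith
  have aL : (4 : ℝ) ^ k ≤ a (4 ^ k) := by
    simp only [ha]
    refine le_trans ?_ (im_le_norm _)
    simp only [add_im, ofReal_im, mul_im, ofReal_re, I_re, I_im]
    push_cast; linarith
  have p1 : 0 ≤ ∏ h ∈ range (4 ^ k), a h := Finset.prod_nonneg fun i _ => norm_nonneg _
  have p2 : 0 ≤ ∏ h ∈ range (4 ^ k), a (h + 1) := Finset.prod_nonneg fun i _ => norm_nonneg _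
  have hB : ∏ h ∈ range (4 ^ k), a h ≤ 2 / 4 ^ k * ∏ h ∈ range (4 ^ k), a (h + 1) := by
    rw [div_mul_eq_mul_div, le_div_iff₀ (by positivity)]
    nlinarith [mul_le_mul_of_nonneg_left aL p1, mul_le_mul_of_nonneg_left a0 p2]
  rw [e1, e2]
  have p3 : 0 ≤ ∏ i ∈ s \ s0, ‖(t : ℂ) + I - lam i‖ := Finset.prod_nonneg fun i _ => norm_nonneg _
  calc _ ≤ (∏ i ∈ s \ s0, ‖(t : ℂ) + I - lam i‖) *
        (2 / 4 ^ k * ∏ h ∈ range (4 ^ k), a (h + 1)) := mul_le_mul hA hB p1 p3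
    _ = _ := by ring

end Pool.Agent.H93.DeB
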