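import Mathlib
import Pool.Agent.H93.Coll

set_option autoImplicit false

namespace Pool.Agent.H93

open Filter Topology Finset

/-- counting function -/
noncomputable def cnt (A : ℕ → Prop) (N : ℕ) : ℝ := (({n : ℕ | 1 ≤ n ∧ n ≤ N ∧ A n}.ncard : ℕ) : ℝ)

lemma cnt_fin (A : ℕ → Prop) (N : ℕ) : {n : ℕ | 1 ≤ n ∧ n ≤ N ∧ A n}.Finite :=
  (Set.finite_Iic N).subset (fun _ h => h.2.1)

lemma cnt_mono {A A' : ℕ → Prop} (h : ∀ n, A n → A' n) (N : ℕ) : cnt A N ≤ cnt A' N :=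
  Nat.cast_le.2 (Set.ncard_le_ncard (fun n hn => ⟨hn.1, hn.2.1, h n hn.2.2⟩) (cnt_fin _ _))

lemma le_cnt {W : Sch} {K N : ℕ} (hK : W.used K) {A : ℕ → Prop} (h : ∀ n, W.Ret K n → A n)
    (hN : 4 ^ (K + 1) ≤ N) : (W.len K : ℝ) ≤ 2 * W.D K * cnt A N := by
  obtain ⟨B, h1, h2⟩ := Sch.ret_card hK
  refine h2.trans (mul_le_mul_of_nonneg_left (Nat.cast_le.2 ?_) (by positivity))
  rw [← Set.ncard_coe_finset]
  refine Set.ncard_le_ncard (fun n hn => ?_) (cnt_fin _ _)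
  have h3 := (h1 n hn).bd
  have h4 := (Sch.bds hK).2
  have h5 : (4 : ℤ) ^ (K + 1) ≤ N := by exact_mod_cast hN
  have h6 : (0 : ℤ) < 4 ^ K := by positivity
  rw [pow_succ] at h5
  exact ⟨by omega, by omega, h n (h1 n hn)⟩

lemma low_dens {W : Sch} {A : ℕ → Prop} (g a l₀ : ℕ)
    (h : ∀ l ≥ l₀, ∃ K, K + 1 ≤ l ∧ l < K + 1 + g ∧ W.used K ∧ (∀ n, W.Ret K n → A n) ∧
      4 ^ K * W.D K ≤ a * W.len K) :
    ∃ δ : ℝ, 0 < δ ∧ ∃ N₀ : ℕ, ∀ N : ℕ, N₀ ≤ N → δ * N ≤ cnt A N := by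
  refine ⟨1 / (2 * (a + 1) * 4 ^ (g + 1)), by positivity, 4 ^ l₀, fun N hN => ?_⟩
  have hN0 : N ≠ 0 := by have : 0 < 4 ^ l₀ := by positivity
                         omega
  obtain ⟨K, h1, h2, h3, h4, h5⟩ := h (Nat.log 4 N) ((Nat.le_log_iff_pow_le (by norm_num) hN0).2 hN)
  have h6 := le_cnt h3 h4 ((Nat.le_log_iff_pow_le (by norm_num) hN0).1 h1)
  have h7 : N ≤ 4 ^ K * 4 ^ (g + 1) := by
    rw [← pow_add]
    exact (Nat.lt_pow_succ_log_self (by norm_num) N).le.trans (Nat.pow_le_pow_right (by norm_num) (by omega))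
  have hD : (0 : ℝ) < W.D K := by
    have := W.hE K; have := W.hED K; exact_mod_cast (by omega : 0 < W.D K)
  have h8 : (4 : ℝ) ^ K * W.D K ≤ a * W.len K := by exact_mod_cast h5
  have h9 : (N : ℝ) ≤ 4 ^ K * 4 ^ (g + 1) := by exact_mod_cast h7
  have h10 : 0 ≤ cnt A N := Nat.cast_nonneg _
  have h11 : (4 : ℝ) ^ K ≤ 2 * (a + 1) * cnt A N := by
    refine le_of_mul_le_mul_right ?_ hD
    nlinarith [mul_le_mul_of_nonneg_left h6 (Nat.cast_nonneg a : (0 : ℝ) ≤ a), mul_nonneg hD.le h10]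
  rw [one_div_mul_eq_div, div_le_iff₀ (by positivity)]
  nlinarith [mul_le_mul_of_nonneg_right h11 (by positivity : (0 : ℝ) ≤ 4 ^ (g + 1))]

lemma up_dens {W : Sch} {A : ℕ → Prop} (a : ℕ)
    (h : ∀ l, ∃ K, l ≤ K ∧ W.used K ∧ (∀ n, W.Ret K n → A n) ∧ 4 ^ K * W.D K ≤ a * W.len K) :
    ∃ δ : ℝ, 0 < δ ∧ ∀ N₀ : ℕ, ∃ N : ℕ, N₀ < N ∧ δ * N ≤ cnt A N := by
  refine ⟨1 / (2 * (a + 1) * 4), by positivity, fun N₀ => ?_⟩
  obtain ⟨K, h1, h3, h4, h5⟩ := h N₀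
  refine ⟨4 ^ (K + 1), lt_trans (by omega) (Nat.lt_pow_self (by norm_num : 1 < 4) (n := K + 1)), ?_⟩
  have h6 := le_cnt h3 h4 le_rfl
  have hD : (0 : ℝ) < W.D K := by
    have := W.hE K; have := W.hED K; exact_mod_cast (by omega : 0 < W.D K)
  have h8 : (4 : ℝ) ^ K * W.D K ≤ a * W.len K := by exact_mod_cast h5
  have h10 : 0 ≤ cnt A (4 ^ (K + 1)) := Nat.cast_nonneg _
  have h11 : (4 : ℝ) ^ K ≤ 2 * (a + 1) * cnt A (4 ^ (K + 1)) := by
    refine le_of_mul_le_mul_right ?_ hD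
    nlinarith [mul_le_mul_of_nonneg_left h6 (Nat.cast_nonneg a : (0 : ℝ) ≤ a), mul_nonneg hD.le h10]
  rw [one_div_mul_eq_div, div_le_iff₀ (by positivity)]
  push_cast
  rw [pow_succ (4 : ℝ)]
  nlinarith

lemma zero_dens {A : ℕ → Prop} (h : ∀ η : ℝ, 0 < η → ∃ k₁, ∀ k ≥ k₁, ∀ B : Finset ℕ,
    (∀ n ∈ B, 4 ^ k ≤ n ∧ n < 4 ^ (k + 1) ∧ A n) → (B.card : ℝ) ≤ η * 4 ^ k) (δ : ℝ) (hδ : 0 < δ) :
    ∃ N₀ : ℕ, ∀ N : ℕ, N₀ < N → cnt A N < δ * N := by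
  classical
  obtain ⟨k₁, hk⟩ := h (δ / 8) (by positivity)
  have h1 : ∀ d, (((range (4 ^ (k₁ + d))).filter A).card : ℝ) ≤ 4 ^ k₁ + δ / 8 * 4 ^ (k₁ + d) := by
    intro d
    induction d with
    | zero =>
      have : ((range (4 ^ k₁)).filter A).card ≤ 4 ^ k₁ := (card_filter_le _ _).trans (by simp)
      have h2 : (((range (4 ^ k₁)).filter A).card : ℝ) ≤ 4 ^ k₁ := by exact_mod_cast this
      have : 0 ≤ δ / 8 * 4 ^ k₁ := by positivity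
      simp only [add_zero]; linarith
    | succ d ih =>
      have h2 := hk (k₁ + d) (by omega) ((Ico (4 ^ (k₁ + d)) (4 ^ (k₁ + d + 1))).filter A)
        (fun n hn => by simpa [and_assoc] using hn)
      have h3 : ((range (4 ^ (k₁ + d + 1))).filter A).card ≤ ((range (4 ^ (k₁ + d))).filter A).card +
          ((Ico (4 ^ (k₁ + d)) (4 ^ (k₁ + d + 1))).filter A).card := by
        refine le_trans (card_le_card fun n hn => ?_) (card_union_le _ _)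
        simp only [mem_union, mem_filter, mem_range, mem_Ico] at hn ⊢
        by_cases h : n < 4 ^ (k₁ + d)
        · exact Or.inl ⟨h, hn.2⟩
        · exact Or.inr ⟨⟨by omega, hn.1⟩, hn.2⟩
      have h4 := (Nat.cast_le (α := ℝ)).2 h3
      have : 0 ≤ δ / 8 * 4 ^ (k₁ + d) := by positivity
      rw [← add_assoc, pow_succ (4 : ℝ)]
      push_cast at h4
      linarith
  obtain ⟨M, hM⟩ := exists_nat_gt (2 * 4 ^ k₁ / δ)
  refine ⟨4 ^ k₁ + M, fun N hN => ?_⟩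
  have hN0 : N ≠ 0 := (Nat.zero_lt_of_lt hN).ne'
  have h2 : k₁ ≤ Nat.log 4 N := (Nat.le_log_iff_pow_le (by norm_num) hN0).2 (by omega)
  have h3 := h1 (Nat.log 4 N + 1 - k₁)
  rw [show k₁ + (Nat.log 4 N + 1 - k₁) = Nat.log 4 N + 1 by omega] at h3
  have h4 : cnt A N ≤ ((range (4 ^ (Nat.log 4 N + 1))).filter A).card := by
    refine Nat.cast_le.2 ?_
    rw [← Set.ncard_coe_finset]
    refine Set.ncard_le_ncard (fun n hn => ?_) (finite_toSet _)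
    have := Nat.lt_pow_succ_log_self (by norm_num : 1 < 4) N
    simp only [coe_filter, mem_range, Set.mem_ofPred_eq]
    exact ⟨hn.2.1.trans_lt this, hn.2.2⟩
  have h5 : (4 : ℝ) ^ Nat.log 4 N ≤ N := by exact_mod_cast Nat.pow_log_le_self 4 hN0
  have h6 : (M : ℝ) < N := by exact_mod_cast (by have : 0 < 4 ^ k₁ := by positivity
                                                 omega : M < N)
  rw [div_lt_iff₀ hδ] at hM
  rw [pow_succ (4 : ℝ)] at h3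
  nlinarith

/-- dyadic valuation index -/
def ix (k : ℕ) : ℕ := padicValNat 2 (k + 1)

lemma ix_dvd (k : ℕ) : 2 ^ ix k ∣ k + 1 := pow_padicValNat_dvd

lemma ix_le (k : ℕ) : 2 * ix k ≤ k + 1 := by
  have h := Nat.le_of_dvd (Nat.succ_pos k) (ix_dvd k)
  refine le_trans ?_ h
  rcases ix k with _ | n
  · simp
  · have := Nat.lt_two_pow_self (n := n)
    rw [pow_succ]; omega

lemma ix_eq (i u : ℕ) : ix (2 ^ i * (2 * u + 1) - 1) = i := by
  have : 0 < 2 ^ i * (2 * u + 1) := by positivity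
  rw [ix, Nat.sub_add_cancel this, padicValNat.mul (by positivity) (by omega), padicValNat.prime_pow,
    padicValNat.eq_zero_of_not_dvd (by omega), add_zero]

lemma ix_gap {K k : ℕ} (h : K < k) (h1 : ix k ≤ ix K) : K + 2 ^ ix k ≤ k := by
  have h2 : 2 ^ ix k ∣ (k + 1) - (K + 1) :=
    Nat.dvd_sub (ix_dvd k) ((pow_dvd_pow 2 h1).trans (ix_dvd K))
  have := Nat.le_of_dvd (by omega) h2
  omega

lemma ix_near (i l : ℕ) (h : 2 ^ i ≤ l) : ∃ K, ix K = i ∧ K + 1 ≤ l ∧ l < K + 1 + 2 ^ (i + 1) := by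
  have h0 : 0 < 2 ^ (i + 1) := by positivity
  have h1 := Nat.div_add_mod (l - 2 ^ i) (2 ^ (i + 1))
  have h2 := Nat.mod_lt (l - 2 ^ i) h0
  have h3 : 0 < 2 ^ i * (2 * ((l - 2 ^ i) / 2 ^ (i + 1)) + 1) := by positivity
  have h4 : 2 ^ i * (2 * ((l - 2 ^ i) / 2 ^ (i + 1)) + 1) =
      2 ^ (i + 1) * ((l - 2 ^ i) / 2 ^ (i + 1)) + 2 ^ i := by ring
  exact ⟨_, ix_eq i ((l - 2 ^ i) / 2 ^ (i + 1)), by omega, by omega⟩

lemma le_of_pow {K k : ℕ} (h : (4 : ℤ) ^ K < 4 * 4 ^ k) : K ≤ k := by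
  rw [← pow_succ'] at h
  have := (pow_lt_pow_iff_right₀ (by norm_num)).1 h
  omega

lemma pow_le_of_lt {K k : ℕ} (h : K < k) : 4 * (4 : ℤ) ^ K ≤ 4 ^ k := by
  rw [← pow_succ']; exact pow_le_pow_right₀ (by norm_num) h

lemma two_le_pow (k : ℕ) : 2 * (k : ℤ) < 4 ^ k := by
  have := Nat.lt_two_pow_self (n := 2 * k)
  rw [pow_mul] at this
  exact_mod_cast this

end Pool.Agent.H93
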