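import Mathlib
import Pool.Agent.H93.Dens

set_option autoImplicit false

namespace Pool.Agent.H93.ExC

open Filter Topology Finset Sys

/-- slopes -/
def sl (i : ℕ) : ℚ :=
  if |Denumerable.ofNat ℚ (Nat.unpair i).1| ≤ i then Denumerable.ofNat ℚ (Nat.unpair i).1 else 0

lemma sl_le (i : ℕ) : |(sl i : ℝ)| ≤ i := by
  have : |sl i| ≤ i := by
    unfold sl; split_ifs with h
    · exact h
    · simp
  exact_mod_cast this

lemma sl_surj (q : ℚ) (i₀ : ℕ) : ∃ i ≥ i₀, sl i = q := by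
  obtain ⟨b, hb⟩ := exists_nat_ge |q|
  obtain ⟨a, rfl⟩ : ∃ a, Denumerable.ofNat ℚ a = q := ⟨_, Denumerable.ofNat_encode q⟩
  have h1 := Nat.right_le_pair a (b + i₀)
  refine ⟨Nat.pair a (b + i₀), by omega, ?_⟩
  rw [sl, Nat.unpair_pair, if_pos]
  exact hb.trans (by exact_mod_cast (by omega))

/-- window length -/
def hh (k : ℕ) : ℕ := 4 ^ (k - ix k - 1)

lemma le_hh (k : ℕ) : (k : ℤ) ≤ hh k + 3 := by
  have h1 := two_le_pow (k - ix k - 1)
  have h2 := ix_le k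
  have : (hh k : ℤ) = 4 ^ (k - ix k - 1) := by simp [hh]
  omega

lemma card_S (k : ℕ) : ((Ico ((4 : ℤ) ^ k) (4 ^ (k + 1))).card : ℝ) ≤ 4 ^ (k + 1) := by
  have h : (0 : ℤ) < 4 ^ k := by positivity
  have h1 : ((Ico ((4 : ℤ) ^ k) (4 ^ (k + 1))).card : ℤ) ≤ 4 ^ (k + 1) := by
    rw [Int.card_Ico, pow_succ]; omega
  exact_mod_cast h1

/-- the system -/
noncomputable def S : Sys (ℕ × Bool) where
  c r := if r.2 then ![1, 0] else ![1, -sl (ix r.1)]
  P r := Set.Iio (4 ^ r.1)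
  R r := if r.2 then Ico (4 ^ r.1) (4 ^ (r.1 + 1)) \
    Ico (2 * 4 ^ r.1 - 2 * hh r.1) (2 * 4 ^ r.1 + 3 * hh r.1) else Ico (4 ^ r.1) (4 ^ (r.1 + 1))
  κ r := if r.2 then 1 / 4 ^ (r.1 + 1) else 1 / (4 ^ (r.1 + 1) * 4 ^ ix r.1)
  κ0 r := by split_ifs <;> positivity
  κ1 r := by
    have h := card_S r.1
    split_ifs
    · rw [one_div_mul_eq_div, div_le_one (by positivity)]
      exact le_trans (by exact_mod_cast card_le_card sdiff_subset) h
    · rw [one_div_mul_eq_div, div_le_one (by positivity)]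
      exact h.trans (le_mul_of_one_le_right (by positivity) (one_le_pow₀ (by norm_num)))
  ne := ⟨(0, true)⟩

lemma κ_le (r : ℕ × Bool) : S.κ r ≤ 1 / 4 ^ (r.1 + 1) := by
  simp only [S]
  split_ifs
  · exact le_rfl
  · exact one_div_le_one_div_of_le (by positivity)
      (le_mul_of_one_le_right (by positivity) (one_le_pow₀ (by norm_num)))

lemma quart (k : ℕ) : (1 : ℝ) / 4 ^ k ≤ (1 / 2) ^ k := by
  rw [← one_div_pow]; gcongr; norm_num

lemma c_le (r : ℕ × Bool) : |S.c r 0| + |S.c r 1| ≤ ix r.1 + 1 := by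
  simp only [S]
  split_ifs
  · simp
  · simpa [add_comm] using sl_le _

lemma mem_R {r : ℕ × Bool} {n : ℤ} (h : n ∈ S.R r) : 4 ^ r.1 ≤ n ∧ n < 4 * 4 ^ r.1 ∧
    (r.2 = true → n < 2 * 4 ^ r.1 - 2 * hh r.1 ∨ 2 * 4 ^ r.1 + 3 * hh r.1 ≤ n) := by
  simp only [S] at h
  split_ifs at h with hb
  · rw [Finset.mem_sdiff, mem_Ico, mem_Ico, pow_succ'] at h
    exact ⟨h.1.1, h.1.2, fun _ => by omega⟩
  · simp only [mem_Ico, pow_succ'] at h
    exact ⟨h.1, h.2, fun h' => absurd h' hb⟩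

lemma lev_fin (k : ℕ) : {r : ℕ × Bool | r.1 ≤ k}.Finite :=
  ((Set.finite_Iic k).prod Set.finite_univ).subset (fun _ h => ⟨h, trivial⟩)

lemma ix_le' (k : ℕ) : (ix k : ℝ) ≤ k := by
  have := ix_le k
  exact_mod_cast (by omega : ix k ≤ k)

lemma good : S.Good := by
  refine good_of Prod.fst lev_fin (fun r => (c_le r).trans (by linarith [ix_le' r.1]))
    (fun r => (κ_le r).trans (le_trans ?_ (quart r.1))) (fun r s hs => ⟨4 ^ r.1 - 1, 4 ^ r.1, fun m => ?_⟩)
  · exact one_div_le_one_div_of_le (by positivity) (pow_le_pow_right₀ (by norm_num) (by omega))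
  · have := two_le_pow r.1
    simp only [S, Set.mem_Iio]
    omega

/-- the schedule -/
def W (q : ℚ) (K₀ : ℕ) : Sch where
  used K := K₀ ≤ K ∧ sl (ix K) = q ∧ 3 * ix K + 4 ≤ K ∧ 2 ≤ ix K
  E K := 4 ^ (ix K + 2)
  D K := 4 ^ (2 * ix K + 3)
  len := hh
  hE K := by positivity
  hED K := by
    calc _ ≤ 4 ^ (ix K + 2 + 1) := by rw [pow_succ 4 (ix K + 2)]; omega
      _ ≤ _ := Nat.pow_le_pow_right (by norm_num) (by omega)
  hD K h := Nat.pow_le_pow_right (by norm_num) (by omega)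
  hlen K h := by rw [hh, ← pow_succ']; exact Nat.pow_le_pow_right (by norm_num) (by omega)

/-- fill mode -/
def fill (r : ℕ × Bool) (K : ℕ) : Prop := r.2 = false ∧ ix K < ix r.1

section main

variable {q : ℚ} {K₀ k₀ : ℕ} {z₀ z : (ℕ × Bool) × ℤ → ℝ} {v : Fin 2 → ℝ} {B : ℝ}

/-- standing hypotheses -/
structure Hyp (q : ℚ) (K₀ k₀ : ℕ) (z₀ z : (ℕ × Bool) × ℤ → ℝ) (v : Fin 2 → ℝ) (B : ℝ) : Prop where
  hz : ∀ r p, z (r, p) = coll (fun m => z₀ (r, m)) ((W q K₀).Rel (fill r)) p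
  hv : v 0 = q * v 1
  hB : 0 < B
  hb : ∀ r m, |z₀ (r, m)| ≤ B * (ix r.1 + 1)
  hu : ∀ k m, |z₀ ((k, true), m)| ≤ B
  h0 : ∀ r m, k₀ ≤ r.1 → z₀ (r, m) = S.ξ v (r, m)
  hK : k₀ ≤ K₀

variable (H : Hyp q K₀ k₀ z₀ z v B)
include H

lemma Hyp.bd (r : ℕ × Bool) (p : ℤ) : |z (r, p)| ≤ B * (ix r.1 + 1) := by
  obtain ⟨p', -, h⟩ := coll_val (fun m => z₀ (r, m)) ((W q K₀).Rel (fill r)) p
  rw [H.hz, h]; exact H.hb _ _

lemma Hyp.bdu (k : ℕ) (p : ℤ) : |z ((k, true), p)| ≤ B := by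
  obtain ⟨p', -, h⟩ := coll_val (fun m => z₀ ((k, true), m)) ((W q K₀).Rel (fill (k, true))) p
  rw [H.hz, h]; exact H.hu _ _

lemma Hyp.ne {r : ℕ × Bool} {p : ℤ} (h : z (r, p) ≠ z₀ (r, p)) : ∃ K, (W q K₀).used K ∧
    3 * 4 ^ K ≤ 2 * p ∧ p < 3 * 4 ^ K ∧
      (¬ fill r K → ∃ n : ℕ, (W q K₀).Ret K n ∧ |p - n| < (W q K₀).E K) :=
  Sch.coll_ne (fun m => z₀ (r, m)) (by rw [← H.hz]; exact h)

lemma Hyp.low {r : ℕ × Bool} (hr : k₀ ≤ r.1) {p : ℤ} (hp : p < 4 ^ r.1) : z (r, p) = S.cv r v := by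
  have e : ∀ p : ℤ, p < 4 ^ r.1 → z₀ (r, p) = S.cv r v := fun p hp => by
    rw [H.h0 r p hr]; exact Set.indicator_of_mem (s := Set.Iio _) hp _
  by_cases h : z (r, p) = z₀ (r, p)
  · rw [h, e p hp]
  · obtain ⟨K, -, h1, -⟩ := H.ne h
    obtain ⟨p', h2, h⟩ := coll_val (fun m => z₀ (r, m)) ((W q K₀).Rel (fill r)) p
    have : (0 : ℤ) < 4 ^ K := by positivity
    rw [H.hz, h, e p' (by omega)]

lemma Hyp.high {r : ℕ × Bool} (hr : k₀ ≤ r.1) {p : ℤ} (hp : 4 ^ r.1 ≤ p) : z₀ (r, p) = 0 := by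
  rw [H.h0 r p hr]; exact Set.indicator_of_notMem (s := Set.Iio _) (not_lt.2 hp) _

lemma Hyp.sp {r : ℕ × Bool} (hr : r.2 = false) (h : (W q K₀).used r.1) (p : ℤ) : z (r, p) = 0 := by
  obtain ⟨p', -, h1⟩ := coll_val (fun m => z₀ (r, m)) ((W q K₀).Rel (fill r)) p
  have : S.cv r v = 0 := by simp [cv, S, hr, h.2.1, H.hv]
  rw [H.hz, h1, H.h0 r p' (H.hK.trans h.1)]
  exact abs_nonpos_iff.1 ((S.ξ_le v (r, p')).trans (by simp [this]))

lemma Hyp.van (r : ℕ × Bool) (m : ℤ) (hm : m.natAbs + 3 ≤ max r.1 K₀) (n : ℤ)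
    (hn : n ∈ insert 0 (S.R r)) : z (r, m + n) = z₀ (r, m + n) := by
  by_contra h
  obtain ⟨K, hK, h1, h2, h3⟩ := H.ne h
  have hk := two_le_pow r.1
  have hn' : n < 4 * 4 ^ r.1 := by
    rcases mem_insert.1 hn with rfl | hn
    · positivity
    · exact (mem_R hn).2.1
  rcases lt_or_ge r.1 K₀ with hr | hr
  · have := pow_le_of_lt hr
    have := two_le_pow K₀
    have : (4 : ℤ) ^ K₀ ≤ 4 ^ K := pow_le_pow_right₀ (by norm_num) hK.1
    omega
  · have h4 : 4 ^ r.1 ≤ m + n := by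
      by_contra h4
      refine h ?_
      rw [H.low (H.hK.trans hr) (by omega), H.h0 r _ (H.hK.trans hr)]
      exact (Set.indicator_of_mem (s := Set.Iio _) (not_le.1 h4) (fun _ => S.cv r v)).symm
    obtain rfl : K = r.1 := le_antisymm (le_of_pow (by omega)) (le_of_pow (by omega))
    have hn2 : n ∈ S.R r := by
      rcases mem_insert.1 hn with rfl | hn
      · omega
      · exact hn
    cases hb : r.2
    · exact h (by rw [H.sp hb hK, H.high (H.hK.trans hr) h4])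
    · obtain ⟨n', hn', h5⟩ := h3 (fun hf => by simp [fill, hb] at hf)
      have h6 := hn'.bd
      have h7 := (Sch.bds hK).1
      have h8 := (mem_R hn2).2.2 hb
      have h9 := le_hh r.1
      change _ ∧ _ < _ + (hh r.1 : ℤ) at h6
      change _ ≤ (hh r.1 : ℤ) at h7
      rw [abs_lt] at h5
      omega

lemma Hyp.ret {K n : ℕ} (hK : (W q K₀).used K) (hn : (W q K₀).Ret K n) (hi : k₀ ≤ ix K)
    (j : (ℕ × Bool) × ℤ) : S.q j (fun l => z (l.1, l.2 + n) - z l) ≤ 16 * B * sm (ix K) := by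
  classical
  obtain ⟨r, m⟩ := j
  have hB := H.hB
  have hn1 := hn.bd
  have hn2 := Sch.bds hK
  have h4K : (0 : ℤ) < 4 ^ K := by positivity
  have h4k : (0 : ℤ) < 4 ^ r.1 := by positivity
  have hs : 0 ≤ B * sm (ix K) := by unfold sm; positivity
  have hκ := S.κ0 r
  have hw : (1 / 2 : ℝ) ^ m.natAbs ≤ 1 := pow_le_one₀ (by norm_num) (by norm_num)
  by_cases hf : fill r K
  · have hd : ∀ p, |z (r, p + n) - z (r, p)| ≤ 2 * B * (ix r.1 + 1) := fun p =>
      (abs_sub _ _).trans (by linarith [H.bd r (p + n), H.bd r p])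
    have h1 := ix_le r.1
    have hik := hf.2
    have h2 : (1 / 2 : ℝ) ^ m.natAbs * |z (r, m + n) - z (r, m)| ≤ 2 * B * sm (ix K) := by
      by_cases hm : 4 * |m| < 4 ^ r.1
      · have e : z (r, m + n) = S.cv r v := by
          have := le_abs_self m
          have := neg_abs_le m
          rcases le_or_gt r.1 K with h | h
          · have : (4 : ℤ) ^ r.1 ≤ 4 ^ K := pow_le_pow_right₀ (by norm_num) h
            rw [H.hz, Sch.coll_rel (q := 0) _ ⟨K, hK, Or.inl ⟨hf, by omega, by omega, rfl⟩⟩, ← H.hz,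
              H.low (by omega) h4k]
          · have := pow_le_of_lt h
            exact H.low (by omega) (by omega)
        rw [e, H.low (by omega) (by have := le_abs_self m; omega), sub_self, abs_zero, mul_zero]
        linarith
      · have h3 : r.1 ≤ m.natAbs := by
          obtain ⟨k, hk⟩ : ∃ k, r.1 = k + 1 := ⟨r.1 - 1, by omega⟩
          have := two_le_pow k
          rw [hk, pow_succ, Int.abs_eq_natAbs] at hm
          omega
        calc _ ≤ (1 / 2 : ℝ) ^ r.1 * (2 * B * (r.1 + 1)) :=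
              mul_le_mul (pow_le_pow_of_le_one (by norm_num) (by norm_num) h3)
                ((hd m).trans (by gcongr; omega)) (abs_nonneg _) (by positivity)
          _ = 2 * B * sm r.1 := by unfold sm; ring
          _ ≤ _ := by gcongr; exact sm_anti (by omega)
    have h3 : S.κ r * ∑ p ∈ S.R r, |z (r, m + p + n) - z (r, m + p)| ≤ 2 * B * sm (ix K) := by
      have h4 : ∑ p ∈ S.R r, |z (r, m + p + n) - z (r, m + p)| ≤ 4 ^ (r.1 + 1) * (2 * B * (ix r.1 + 1)) := by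
        refine (sum_le_card_nsmul _ _ _ (fun p _ => hd (m + p))).trans ?_
        rw [nsmul_eq_mul]
        gcongr
        simpa [S, hf.1] using card_S r.1
      have h5 : S.κ r = 1 / (4 ^ (r.1 + 1) * 4 ^ ix r.1) := by simp [S, hf.1]
      calc _ ≤ S.κ r * (4 ^ (r.1 + 1) * (2 * B * (ix r.1 + 1))) := by gcongr
        _ = 2 * B * ((ix r.1 + 1) * (1 / 4 ^ ix r.1)) := by rw [h5]; field_simp
        _ ≤ 2 * B * sm (ix r.1) := by unfold sm; gcongr; exact quart _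
        _ ≤ _ := by gcongr; exact sm_anti hik.le
    have h6 := mul_le_mul hw h3 (by positivity) zero_le_one
    simp only [Sys.q, mul_add]
    linarith
  have ha : ∀ p, |z (r, p)| ≤ B * (ix K + 1) := by
    intro p
    obtain ⟨k, b⟩ := r
    cases b
    · have : (ix k : ℝ) ≤ ix K := by
        exact_mod_cast not_lt.1 (fun h => hf ⟨rfl, h⟩)
      exact (H.bd _ _).trans (by gcongr)
    · exact (H.bdu _ _).trans (le_mul_of_one_le_right hB.le (by linarith [Nat.cast_nonneg (α := ℝ) (ix K)]))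
  have hd : ∀ p, |z (r, p + n) - z (r, p)| ≤ 2 * B * (ix K + 1) := fun p =>
    (abs_sub _ _).trans (by linarith [ha (p + n), ha p])
  by_cases hm : ix K < m.natAbs + 3
  · refine (S.q_le (r, m) (a := fun l => z (l.1, l.2 + n) - z l) hd).trans ?_
    have h4 : (1 / 2 : ℝ) ^ m.natAbs ≤ 4 * (1 / 2) ^ ix K := by
      calc _ = 4 * (1 / 2 : ℝ) ^ (m.natAbs + 2) := by ring
        _ ≤ _ := by
          gcongr 4 * ?_
          exact pow_le_pow_of_le_one (by norm_num) (by norm_num) (by omega)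
    calc _ ≤ 2 * (2 * B * (ix K + 1)) * (4 * (1 / 2) ^ ix K) := by gcongr
      _ = _ := by unfold sm; ring
  have hE : ((W q K₀).E K : ℤ) = 16 * 4 ^ ix K := by simp [W, pow_add, mul_comm]
  have hi2 := two_le_pow (ix K)
  have hc : ∀ o : ℤ, |o| < (W q K₀).E K → z (r, o + n) - z (r, o) = 0 := fun o ho => by
    rw [H.hz, H.hz, Sch.coll_ret _ hK hf hn ho, sub_self]
  have hm' : |m| + 3 ≤ ix K := by rw [Int.abs_eq_natAbs]; omega
  have hm1 := le_abs_self m
  have hm2 := neg_abs_le m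
  simp only [Sys.q]
  rw [hc m (by omega), abs_zero, zero_add]
  refine (mul_le_of_le_one_left (by positivity) hw).trans ?_
  rcases le_or_gt r.1 (ix K) with hk | hk
  · rw [sum_eq_zero (fun p hp => ?_), mul_zero]
    · linarith
    have h1 := mem_R hp
    have : (4 : ℤ) ^ r.1 ≤ 4 ^ ix K := pow_le_pow_right₀ (by norm_num) hk
    rw [hc _ (by rw [abs_lt]; omega), abs_zero]
  set B3 : Finset ℤ := if ix K < ix r.1 ∧ ix r.1 + 1 ≤ r.1 then
    Ico (2 * 4 ^ r.1 - hh r.1 - n) (2 * 4 ^ r.1 + 2 * hh r.1 - n) else ∅ with hB3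
  have key := sum_le_card (R := S.R r) (B := Ico (4 ^ r.1 - ix K : ℤ) (4 ^ r.1) ∪
    Sch.bad ((W q K₀).E K) ((W q K₀).D K) (8 * 4 ^ r.1) ∪ B3)
    (d := fun p => z (r, m + p + n) - z (r, m + p)) (b := 2 * B * (ix K + 1)) (by positivity) m
    (fun p hp => ⟨hd _, fun hne => by
      have h1 := mem_R hp
      have h2 : ((W q K₀).E K : ℤ) ≤ |m + p| := not_lt.1 (fun h => hne (hc _ h))
      have hk2 := two_le_pow r.1
      simp only [mem_union, mem_Ico]
      by_cases h3 : m + p < 4 ^ r.1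
      · exact Or.inl (Or.inl ⟨by omega, h3⟩)
      rw [H.van r m (by omega) p (mem_insert_of_mem hp), H.high (by omega) (not_lt.1 h3), sub_zero] at hne
      obtain ⟨K', hK', h4, h5, h6⟩ := H.ne (r := r) (p := m + p + n)
        (by rwa [H.high (by omega) (by omega)])
      have hsp : (W q K₀).used r.1 → r.2 = true := fun hu => by
        by_contra hb
        exact hne (H.sp (by simpa using hb) hu _)
      have hb' := Sch.bds hK'
      rcases le_or_gt r.1 K with h7 | h7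
      · have h8 : K ≤ K' := le_of_pow (by omega)
        have h9 : K' ≤ K := by
          by_contra h9
          have h10 := pow_le_of_lt (not_le.1 h9)
          rcases h7.lt_or_eq with h7 | h7
          · have := pow_le_of_lt h7
            omega
          · obtain ⟨n', hn', h11⟩ := h6 (fun hf => by
              have := hsp (h7 ▸ hK); simp [fill, this] at hf)
            have := hn'.bd
            rw [h7] at h1 hk2
            rw [abs_lt] at h11
            omega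
        obtain rfl : K' = K := le_antisymm h9 h8
        obtain ⟨n', hn', h11⟩ := h6 hf
        refine Or.inl (Or.inr (Sch.mem_bad hn hn' ?_ h2 h11))
        push_cast
        rw [abs_le]; omega
      · have h8 := pow_le_of_lt h7
        obtain rfl : K' = r.1 := le_antisymm (le_of_pow (by omega)) (le_of_pow (by omega))
        have hb := hsp hK'
        obtain ⟨n', hn', h11⟩ := h6 (fun hf => by simp [fill, hb] at hf)
        have h12 := hn'.bd
        have h13 := h1.2.2 hb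
        change _ ∧ _ < _ + (hh r.1 : ℤ) at h12
        change _ ≤ (hh r.1 : ℤ) ∧ _ at hb'
        rw [abs_lt] at h11
        have h14 := hK'.2.2
        rcases le_or_gt (ix r.1) (ix K) with h15 | h15
        · exfalso
          have h16 := ix_gap h7 h15
          have h17 : ix r.1 + 2 ≤ 2 ^ ix r.1 := by
            obtain ⟨t, ht⟩ : ∃ t, ix r.1 = t + 1 := ⟨ix r.1 - 1, by omega⟩
            have := Nat.lt_two_pow_self (n := t)
            rw [ht, pow_succ]; omega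
          have h18 : 4 * (4 : ℤ) ^ K ≤ 4 ^ (r.1 - ix r.1 - 1) := pow_le_of_lt (by omega)
          have h19 : (hh r.1 : ℤ) = 4 ^ (r.1 - ix r.1 - 1) := by simp [hh]
          have := two_le_pow K
          have := ix_le K
          omega
        · refine Or.inr ?_
          rw [hB3, if_pos ⟨h15, by omega⟩, mem_Ico]
          omega⟩)
  have c1 : ((Ico (4 ^ r.1 - ix K : ℤ) (4 ^ r.1)).card : ℝ) ≤ 4 ^ (r.1 + 1) * (1 / 2) ^ ix K := by
    rw [Int.card_Ico, sub_sub_cancel, Int.toNat_natCast, one_div_pow, mul_one_div,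
      le_div_iff₀ (by positivity)]
    have h1 : (ix K : ℝ) ≤ 2 ^ ix K := by exact_mod_cast Nat.lt_two_pow_self.le
    calc (ix K : ℝ) * 2 ^ ix K ≤ 2 ^ ix K * 2 ^ ix K := by gcongr
      _ = 4 ^ ix K := by rw [← mul_pow]; norm_num
      _ ≤ _ := pow_le_pow_right₀ (by norm_num) (by omega)
  have c2 : ((Sch.bad ((W q K₀).E K) ((W q K₀).D K) (8 * 4 ^ r.1)).card : ℝ) ≤
      4 * (4 ^ (r.1 + 1) * (1 / 2) ^ ix K) := by
    refine (Sch.card_bad ((W q K₀).hE K) ((W q K₀).hED K) _).trans ?_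
    calc _ = 4 * (4 ^ (r.1 + 1) * (1 / 4 ^ ix K) : ℝ) := by
          simp only [W]; push_cast; field_simp; ring
      _ ≤ _ := by gcongr; exact quart _
  have c3 : (B3.card : ℝ) ≤ 4 ^ (r.1 + 1) * (1 / 2) ^ ix K := by
    rw [hB3]
    split_ifs with h
    · have h1 : ((Ico (2 * 4 ^ r.1 - hh r.1 - n : ℤ) (2 * 4 ^ r.1 + 2 * hh r.1 - n)).card : ℤ) =
          3 * hh r.1 := by rw [Int.card_Ico]; omega
      have h2 : ((Ico (2 * 4 ^ r.1 - hh r.1 - n : ℤ) (2 * 4 ^ r.1 + 2 * hh r.1 - n)).card : ℝ) =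
          3 * 4 ^ (r.1 - ix r.1 - 1) := by exact_mod_cast h1
      refine h2.trans_le (le_trans ?_ (mul_le_mul_of_nonneg_left (quart _) (by positivity)))
      rw [mul_one_div, le_div_iff₀ (by positivity), mul_assoc, ← pow_add, pow_succ']
      gcongr
      · norm_num
      · norm_num
      · omega
    · simp only [card_empty, Nat.cast_zero]; positivity
  have c4 := (Nat.cast_le (α := ℝ)).2 ((card_union_le (Ico (4 ^ r.1 - ix K : ℤ) (4 ^ r.1) ∪
    Sch.bad ((W q K₀).E K) ((W q K₀).D K) (8 * 4 ^ r.1)) B3).trans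
      (Nat.add_le_add_right (card_union_le _ _) _))
  push_cast at c4
  calc _ ≤ 1 / 4 ^ (r.1 + 1) * (2 * B * (ix K + 1) * (6 * (4 ^ (r.1 + 1) * (1 / 2) ^ ix K))) :=
        mul_le_mul (κ_le r) (key.trans (by gcongr; linarith)) (by positivity) (by positivity)
    _ = 12 * (B * sm (ix K)) := by unfold sm; field_simp; ring
    _ ≤ _ := by linarith

end main

/-- the operator -/
noncomputable def T : S.X →L[ℝ] S.X := good.T 1 rfl

lemma frec_dense : Dense {x : S.X | ∀ U ∈ 𝓝 x, ∃ δ : ℝ, 0 < δ ∧ ∃ N₀ : ℕ, ∀ N : ℕ, N₀ ≤ N →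
    δ * N ≤ cnt (fun n => T^[n] x ∈ U) N} := by
  refine dense_of (Θ := {v | ∃ q : ℚ, v 0 = q * v 1}) (fun v => ?_) (fun x ⟨q, hq⟩ hx => ?_)
  · refine Metric.mem_closure_iff.2 (fun ε hε => ?_)
    obtain ⟨t, ht0, ht⟩ : ∃ t : ℝ, t ≠ 0 ∧ |v 1 - t| < ε := by
      by_cases h : v 1 = 0
      · exact ⟨ε / 2, by positivity, by rw [h, zero_sub, abs_neg, abs_of_pos (by positivity)]; linarith⟩
      · exact ⟨v 1, h, by simpa using hε⟩
    obtain ⟨q, hq⟩ := exists_rat_near (v 0 / t) (ε := ε / |t|) (by positivity)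
    refine ⟨![q * t, t], ⟨q, rfl⟩, (dist_pi_lt_iff hε).2 (fun i => ?_)⟩
    fin_cases i
    · rw [lt_div_iff₀ (by positivity), ← abs_mul, sub_mul, div_mul_cancel₀ _ ht0] at hq
      exact hq
    · exact ht
  refine Metric.mem_closure_iff.2 (fun ε hε => ?_)
  obtain ⟨B, k₀, hB, hb, h0⟩ := amp Prod.fst x hx
  obtain ⟨k₁, hk₁⟩ := sm_small (8 * (2 * B)) (ε / 2) (by positivity)
  obtain ⟨z, H⟩ : ∃ z, Hyp q (k₀ + k₁) k₀ (arr x) z (S.cls x) B :=
    ⟨fun j => coll (fun m => arr x (j.1, m)) ((W q (k₀ + k₁)).Rel (fill j.1)) j.2,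
    fun _ _ => rfl, hq, hB, fun r m => hb r m _ (by linarith [Nat.cast_nonneg (α := ℝ) (ix r.1)])
      (c_le r), fun k m => by simpa using hb (k, true) m 1 le_rfl (by simp [S]), h0, by omega⟩
  obtain ⟨y, hy1, hy2, hy3⟩ := build Prod.fst lev_fin x z (B := 2 * B) (by positivity) (k₀ + k₁)
    (fun r m => (abs_sub _ _).trans (by nlinarith [H.bd r m, H.hb r m, ix_le' r.1])) H.van
  refine ⟨y, fun U hU => ?_, ?_⟩
  · obtain ⟨η, hη, hU⟩ := Metric.mem_nhds_iff.1 hU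
    obtain ⟨k₂, hk₂⟩ := sm_small (16 * B) (η / 2) (by positivity)
    obtain ⟨i, hi, hsl⟩ := sl_surj q (k₂ + k₀ + 2)
    refine low_dens (W := W q (k₀ + k₁)) (2 ^ (i + 1)) (4 ^ (3 * i + 4))
      (2 ^ i + 2 ^ (i + 1) + (k₀ + k₁) + 3 * i + 5) (fun l hl => ?_)
    obtain ⟨K, h1, h2, h3⟩ := ix_near i l (le_trans (by generalize 2 ^ (i + 1) = a; generalize 2 ^ i = b; omega) hl)
    have hu : (W q (k₀ + k₁)).used K := ⟨by omega, by rw [h1, hsl], by omega, by omega⟩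
    refine ⟨K, h2, h3, hu, fun n hn => hU (mem_ball_iff_norm.2 ?_), ?_⟩
    · refine (norm_sub_le (good.cls_T 1 rfl n y) (ε := η / 2) (fun j => ?_)).trans_lt (by linarith)
      have e : arr (T^[n] y) - arr y = fun l => arr y (l.1, l.2 + n) - arr y l := by
        funext l; rw [Pi.sub_apply, T, good.arr_T, mul_one]
      rw [T] at e
      rw [e, hy2]
      exact (H.ret hu hn (by omega) j).trans (hk₂ _ (by omega))
    · simp only [W, hh, ← pow_add]
      exact Nat.pow_le_pow_right (by norm_num) (by omega)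
  · rw [dist_comm, dist_eq_norm]
    exact (hy3.trans (hk₁ _ (by omega))).trans_lt (by linarith)

lemma neg (x y : S.X) (hx : 1 / 2 ≤ |S.cls x 0|)
    (h : ∀ k, 1 / 2 ≤ |S.cv (k, false) (S.cls x)| ∨ 1 / 2 ≤ |S.cv (k, false) (S.cls y)|)
    (δ : ℝ) (hδ : 0 < δ) : ∃ N₀ : ℕ, ∀ N : ℕ, N₀ < N →
      cnt (fun n => ‖T^[n] x - x‖ ≤ 1 / 8 ∧ ‖T^[n] y - y‖ ≤ 1 / 8) N < δ * N := by
  classical
  refine zero_dens (fun η hη => ?_) δ hδ
  obtain ⟨i₁, hi₁⟩ := pow_unbounded_of_one_lt (10 / η) (by norm_num : (1 : ℝ) < 4)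
  rw [div_lt_iff₀ hη] at hi₁
  have ht : ∀ (w : S.X) (b : Bool), ∀ᶠ k in atTop, S.q ((k, b), 0) (arr w - S.ξ (S.cls w)) ≤
      min (1 / 8) (η / (32 * 4 ^ i₁)) := by
    intro w b
    have hi : Function.Injective (fun k : ℕ => (((k, b), 0) : (ℕ × Bool) × ℤ)) := fun a b h => by
      simpa using h
    have := Tendsto.comp w.2 hi.tendsto_cofinite
    rw [Nat.cofinite_eq_atTop] at this
    exact this.eventually (ge_mem_nhds (by positivity))
  obtain ⟨k₁, hk⟩ := eventually_atTop.1 (((ht x true).and (ht x false)).and ((ht y false).and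
    (eventually_ge_atTop 3)))
  refine ⟨k₁, fun k hk' B hB => ?_⟩
  obtain ⟨⟨a1, a2⟩, a3, a4⟩ := hk k hk'
  have h4 : (0 : ℝ) < 4 ^ k := by positivity
  have h0 : ∀ b, (0 : ℤ) ∈ S.P (k, b) := fun b => by simp [S]
  have hB' : ∀ n ∈ B, (4 : ℤ) ^ k ≤ n ∧ (n : ℤ) < 4 ^ (k + 1) := fun n hn =>
    ⟨by exact_mod_cast (hB n hn).1, by exact_mod_cast (hB n hn).2.1⟩
  have hP : ∀ b, ∀ n ∈ B, ((n : ℤ) * 1) ∉ S.P (k, b) := fun b n hn => by
    simpa [S] using (hB' n hn).1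
  have h1 : (1 : ℝ) ≤ 4 ^ i₁ := one_le_pow₀ (by norm_num)
  rcases le_or_gt i₁ (ix k) with hi | hi
  · set Q : Finset ℤ := Ico (2 * 4 ^ k - 2 * hh k : ℤ) (2 * 4 ^ k + 3 * hh k)
    have b1 : ((B.filter (fun n : ℕ => (n : ℤ) ∈ Q)).card : ℝ) ≤ η / 2 * 4 ^ k := by
      have c1 : (B.filter (fun n : ℕ => (n : ℤ) ∈ Q)).card ≤ Q.card :=
        card_le_card_of_injOn (fun n => (n : ℤ)) (fun n hn => (mem_filter.1 (mem_coe.1 hn)).2)
          (fun a _ b _ h => by simpa using h)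
      have c2 : (Q.card : ℤ) = 5 * hh k := by rw [Int.card_Ico]; omega
      have c3 : (Q.card : ℝ) = 5 * 4 ^ (k - ix k - 1) := by exact_mod_cast c2
      have c4 : (4 : ℝ) ^ (k - ix k - 1) * 4 ^ i₁ ≤ 4 ^ k := by
        rw [← pow_add]; exact pow_le_pow_right₀ (by norm_num) (by have := ix_le k; omega)
      refine (Nat.cast_le.2 c1).trans (c3.trans_le ?_)
      nlinarith [mul_le_mul_of_nonneg_left c4 hη.le, pow_pos (by norm_num : (0 : ℝ) < 4) (k - ix k - 1)]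
    have b2 := good.detect 1 rfl x (k, true) (h0 _) (B.filter (fun n : ℕ => ¬ (n : ℤ) ∈ Q))
      (fun n hn => by
        rw [mem_filter] at hn
        refine ⟨?_, hP _ n hn.1, (hB n hn.1).2.2.1⟩
        rw [mul_one]
        exact Finset.mem_sdiff.2 ⟨mem_Ico.2 (hB' n hn.1), hn.2⟩)
      (by simpa [cv, S] using hx) (a1.trans (min_le_left _ _))
    have b3 := b2.trans (mul_le_mul_of_nonneg_left (a1.trans (min_le_right _ _)) (by norm_num))
    change 1 / 4 ^ (k + 1) * _ ≤ _ at b3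
    rw [one_div_mul_eq_div, div_le_iff₀ (by positivity), pow_succ] at b3
    have b4 : 4 * (η / (32 * 4 ^ i₁)) * (4 ^ k * 4) ≤ η / 2 * 4 ^ k := by
      calc _ = η / 2 * 4 ^ k / 4 ^ i₁ := by field_simp; ring
        _ ≤ _ := div_le_self (by positivity) h1
    have b5 := (Nat.cast_inj (R := ℝ)).2 (card_filter_add_card_filter_not (s := B)
      (fun n : ℕ => (n : ℤ) ∈ Q))
    push_cast at b5
    linarith
  · have key : ∀ w : S.X, 1 / 2 ≤ |S.cv (k, false) (S.cls w)| → (∀ n ∈ B, ‖T^[n] w - w‖ ≤ 1 / 8) →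
        S.q ((k, false), 0) (arr w - S.ξ (S.cls w)) ≤ min (1 / 8) (η / (32 * 4 ^ i₁)) →
        (B.card : ℝ) ≤ η * 4 ^ k := by
      intro w hw1 hw2 hw3
      have b2 := good.detect 1 rfl w (k, false) (h0 _) B (fun n hn =>
        ⟨by rw [mul_one]; exact mem_Ico.2 (hB' n hn), hP _ n hn, hw2 n hn⟩) hw1
        (hw3.trans (min_le_left _ _))
      have b3 := b2.trans (mul_le_mul_of_nonneg_left (hw3.trans (min_le_right _ _)) (by norm_num))
      change 1 / (4 ^ (k + 1) * 4 ^ ix k) * _ ≤ _ at b3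
      rw [one_div_mul_eq_div, div_le_iff₀ (by positivity), pow_succ] at b3
      refine b3.trans ?_
      have c4 : (4 : ℝ) ^ ix k ≤ 4 ^ i₁ := pow_le_pow_right₀ (by norm_num) hi.le
      calc _ ≤ 4 * (η / (32 * 4 ^ i₁)) * (4 ^ k * 4 * 4 ^ i₁) := by gcongr
        _ = η * 4 ^ k / 2 := by field_simp; ring
        _ ≤ _ := half_le_self (by positivity)
    rcases h k with h | h
    · exact key x h (fun n hn => (hB n hn).2.2.1) a2
    · exact key y h (fun n hn => (hB n hn).2.2.2) a3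

lemma cv_sp (k : ℕ) (v : Fin 2 → ℝ) : S.cv (k, false) v = v 0 + (-sl (ix k) : ℝ) * v 1 := by
  simp [cv, S]

lemma cls_surj : Function.Surjective S.cls := fun v => by
  obtain ⟨x, hx, -⟩ := exists_vec (S := S) v (S.ξ v) (by simpa using fin_tendsto (a := 0) (by simp))
  exact ⟨x, hx⟩

theorem exC : ∃ (X : Type) (_ : NormedAddCommGroup X) (_ : NormedSpace ℝ X) (_ : CompleteSpace X)
    (T : X →L[ℝ] X), Dense {x : X | ∀ U ∈ 𝓝 x, ∃ δ : ℝ, 0 < δ ∧ ∃ N₀ : ℕ, ∀ N : ℕ, N₀ ≤ N →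
      δ * N ≤ cnt (fun n => T^[n] x ∈ U) N} ∧
    (∀ M : Submodule ℝ X, Dense (M : Set X) → ∃ x ∈ M, ∃ U ∈ 𝓝 x, ∀ δ : ℝ, 0 < δ →
      ∃ N₀ : ℕ, ∀ N : ℕ, N₀ < N → cnt (fun n => T^[n] x ∈ U) N < δ * N) ∧
    ∃ O : Set (X × X), IsOpen O ∧ O.Nonempty ∧ ∀ w ∈ O, ∃ U ∈ 𝓝 w, ∀ δ : ℝ, 0 < δ →
      ∃ N₀ : ℕ, ∀ N : ℕ, N₀ < N → cnt (fun n => (T^[n] w.1, T^[n] w.2) ∈ U) N < δ * N := by
  refine ⟨S.X, inferInstance, inferInstance, inferInstance, T, frec_dense, fun M hM => ?_, ?_⟩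
  · have h1 : Dense ((M.map S.cls.toLinearMap : Submodule ℝ (Fin 2 → ℝ)) : Set (Fin 2 → ℝ)) :=
      cls_surj.denseRange.dense_image S.cls.continuous hM
    have h2 := (M.map S.cls.toLinearMap).closed_of_finiteDimensional.closure_eq
    obtain ⟨x, hx, hc⟩ : ![1, 0] ∈ M.map S.cls.toLinearMap := by
      have := h1 ![1, 0]
      rwa [h2] at this
    change S.cls x = _ at hc
    refine ⟨x, hx, Metric.closedBall x (1 / 8), Metric.closedBall_mem_nhds _ (by norm_num),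
      fun δ hδ => ?_⟩
    obtain ⟨N₀, h⟩ := neg x x (by rw [hc]; norm_num) (fun k => Or.inl (by rw [hc, cv_sp]; norm_num)) δ hδ
    exact ⟨N₀, fun N hN => (cnt_mono (fun n hn => ⟨mem_closedBall_iff_norm.1 hn,
      mem_closedBall_iff_norm.1 hn⟩) N).trans_lt (h N hN)⟩
  · obtain ⟨x, hx⟩ := cls_surj ![1, 0]
    obtain ⟨y, hy⟩ := cls_surj ![0, 1]
    refine ⟨(S.cls ⁻¹' Metric.ball ![1, 0] (1 / 4)) ×ˢ (S.cls ⁻¹' Metric.ball ![0, 1] (1 / 4)),
      (Metric.isOpen_ball.preimage S.cls.continuous).prod (Metric.isOpen_ball.preimage S.cls.continuous),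
      ⟨(x, y), by simp [hx], by simp [hy]⟩, fun w hw => ?_⟩
    have a := (dist_pi_lt_iff (by norm_num)).1 hw.1
    have b := (dist_pi_lt_iff (by norm_num)).1 hw.2
    have a0 := abs_lt.1 (a 0)
    have a1 := abs_lt.1 (a 1)
    have b0 := abs_lt.1 (b 0)
    have b1 := abs_lt.1 (b 1)
    simp only [Matrix.cons_val_zero, Matrix.cons_val_one, sub_zero] at a0 a1 b0 b1
    refine ⟨Metric.closedBall w.1 (1 / 8) ×ˢ Metric.closedBall w.2 (1 / 8),
      prod_mem_nhds (Metric.closedBall_mem_nhds _ (by norm_num))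
        (Metric.closedBall_mem_nhds _ (by norm_num)), fun δ hδ => ?_⟩
    obtain ⟨N₀, h⟩ := neg w.1 w.2 (le_abs.2 (Or.inl (by linarith))) (fun k => by
      rw [cv_sp, cv_sp]
      generalize (-sl (ix k) : ℝ) = s
      rcases le_total s (-1) with h | h
      · exact Or.inr (le_abs.2 (Or.inr (by nlinarith)))
      rcases le_total s 1 with h' | h'
      · exact Or.inl (le_abs.2 (Or.inl (by nlinarith)))
      · exact Or.inr (le_abs.2 (Or.inl (by nlinarith)))) δ hδ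
    exact ⟨N₀, fun N hN => (cnt_mono (fun n hn => ⟨mem_closedBall_iff_norm.1 hn.1,
      mem_closedBall_iff_norm.1 hn.2⟩) N).trans_lt (h N hN)⟩

end Pool.Agent.H93.ExC
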