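import Mathlib
import Pool.Agent.H93.RecDefs
import Pool.Agent.H93.ExC

set_option autoImplicit false

namespace Pool.Agent.H93

open Topology RecDefs

lemma cnt_le_card (P : ℕ → Prop) (N : ℕ) : cnt P N ≤ card {n | P n} 0 N := by
  unfold cnt card
  exact Nat.cast_le.2 (Set.ncard_le_ncard (fun n hn => ⟨hn.2.2, by simp, by simpa using hn.2.1⟩)
    ((Set.finite_Icc _ _).inter_of_right _))

lemma card_le_cnt (P : ℕ → Prop) (N : ℕ) : card {n | P n} 0 N ≤ cnt P N + 1 := by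
  unfold cnt card
  have h := Set.ncard_le_ncard (s := {n | P n} ∩ Set.Icc 0 (0 + N))
    (t := insert 0 {n : ℕ | 1 ≤ n ∧ n ≤ N ∧ P n}) (fun n hn => by
      rcases Nat.eq_zero_or_pos n with h | h
      · exact Or.inl h
      · exact Or.inr ⟨h, by simpa using hn.2.2, hn.1⟩) ((cnt_fin P N).insert 0)
  exact_mod_cast h.trans (Set.ncard_insert_le _ _)

lemma low_of {P : ℕ → Prop} (h : ∃ δ : ℝ, 0 < δ ∧ ∃ N₀ : ℕ, ∀ N : ℕ, N₀ ≤ N → δ * N ≤ cnt P N) :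
    LowPos {n | P n} := by
  obtain ⟨δ, hδ, N₀, h⟩ := h
  refine ⟨δ / 2, by positivity, N₀ + 1, fun N hN => le_trans ?_ ((h N (by omega)).trans
    (cnt_le_card P N))⟩
  have : (1 : ℝ) ≤ N := by exact_mod_cast (by omega : 1 ≤ N)
  nlinarith

lemma up_of {P : ℕ → Prop} (h : ∃ δ : ℝ, 0 < δ ∧ ∀ N₀ : ℕ, ∃ N : ℕ, N₀ < N ∧ δ * N ≤ cnt P N) :
    UpPos {n | P n} := by
  obtain ⟨δ, hδ, h⟩ := h
  refine ⟨δ / 2, by positivity, fun N₀ => ?_⟩
  obtain ⟨N, h1, h2⟩ := h N₀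
  refine ⟨N, h1.le, le_trans ?_ (h2.trans (cnt_le_card P N))⟩
  have : (1 : ℝ) ≤ N := by exact_mod_cast (by omega : 1 ≤ N)
  nlinarith

lemma not_up {P : ℕ → Prop} (h : ∀ δ : ℝ, 0 < δ → ∃ N₀ : ℕ, ∀ N : ℕ, N₀ < N → cnt P N < δ * N) :
    ¬ UpPos {n | P n} := by
  rintro ⟨δ, hδ, h1⟩
  obtain ⟨N₀, h2⟩ := h (δ / 2) (by positivity)
  obtain ⟨K, hK⟩ := exists_nat_gt (2 / δ)
  obtain ⟨N, h3, h4⟩ := h1 (N₀ + K + 1)
  have h5 := h2 N (by omega)
  have h6 := card_le_cnt P N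
  have h7 : (K : ℝ) ≤ N := by exact_mod_cast (by omega : K ≤ N)
  rw [div_lt_iff₀ hδ] at hK
  nlinarith

lemma low_up {A : Set ℕ} (h : LowPos A) : UpPos A := by
  obtain ⟨δ, hδ, N₀, h⟩ := h
  exact ⟨δ, hδ, fun N₁ => ⟨N₀ + N₁, by omega, h _ (by omega)⟩⟩

lemma rec_mono {F G : Set ℕ → Prop} (h : ∀ A, F A → G A) {X : Type*} [TopologicalSpace X]
    (T : X → X) : Rec F T ⊆ Rec G T := fun _ hx U hU => h _ (hx U hU)

lemma iter_pi {X ι : Type*} (T : X → X) (n : ℕ) (v : ι → X) :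
    (fun (v : ι → X) i => T (v i))^[n] v = fun i => T^[n] (v i) := by
  induction n with
  | zero => rfl
  | succ n ih => simp only [Function.iterate_succ_apply', ih]

theorem sum_no : ∃ (X : Type) (_ : NormedAddCommGroup X) (_ : NormedSpace ℝ X)
    (_ : CompleteSpace X) (T : X →L[ℝ] X), Dense (Rec LowPos T) ∧
      ¬ Dense (Rec UpPos (fun (v : Fin 2 → X) i => T (v i))) := by
  obtain ⟨X, _, _, _, T, h1, -, O, hO, hne, h3⟩ := ExC.exC
  refine ⟨X, _, _, inferInstance, T, h1.mono (fun x hx U hU => ?_), fun h => ?_⟩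
  · exact low_of (hx U hU)
  have hc : Continuous (fun v : Fin 2 → X => (v 0, v 1)) := by fun_prop
  obtain ⟨w, hw⟩ := hne
  obtain ⟨v, hv1, hv2⟩ := h.inter_open_nonempty _ (hO.preimage hc) ⟨![w.1, w.2], hw⟩
  obtain ⟨U, hU, h4⟩ := h3 _ hv1
  have h5 := hv2 _ (hc.continuousAt.preimage_mem_nhds hU)
  simp only [iter_pi] at h5
  exact not_up h4 h5

end Pool.Agent.H93
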