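import Mathlib

set_option autoImplicit false

namespace Pool.Agent.H93.FourFun

open MeasureTheory Filter ENNReal

lemma ineq {α β γ δ : ℝ≥0∞} (h1 : α ≤ γ) (h2 : β ≤ γ) (h3 : α * β ≤ γ * δ) :
    α + β ≤ γ + δ := by
  rcases eq_or_ne γ ⊤ with rfl | hγ
  · simp
  rcases eq_or_ne δ ⊤ with rfl | hδ
  · simp
  lift γ to NNReal using hγ
  lift δ to NNReal using hδ
  lift α to NNReal using (h1.trans_lt coe_lt_top).ne
  lift β to NNReal using (h2.trans_lt coe_lt_top).ne
  have a1 : (α : ℝ) ≤ γ := by exact_mod_cast h1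
  have a2 : (β : ℝ) ≤ γ := by exact_mod_cast h2
  have a3 : (α : ℝ) * β ≤ γ * δ := by exact_mod_cast h3
  have : (α : ℝ) + β ≤ γ + δ := by
    rcases (NNReal.coe_nonneg γ).lt_or_eq with h | h
    · refine le_of_mul_le_mul_left ?_ h
      nlinarith [mul_nonneg (sub_nonneg.2 a1) (sub_nonneg.2 a2)]
    · linarith [NNReal.coe_nonneg δ]
  exact_mod_cast this

lemma one_dim {a b c d : ℝ → ℝ≥0∞} (ha : Measurable a) (hb : Measurable b) (hc : Measurable c)
    (hd : Measurable d) (h : ∀ s t, a s * b t ≤ c (min s t) * d (max s t)) :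
    (∫⁻ s, a s) * (∫⁻ s, b s) ≤ (∫⁻ s, c s) * (∫⁻ s, d s) := by
  have key : ∀ s t, s ≤ t → a s * b t + b s * a t ≤ c s * d t + d s * c t := by
    intro s t hst
    have h1 := h s t
    have h2 := h t s
    have h3 := h s s
    have h4 := h t t
    rw [min_eq_left hst, max_eq_right hst] at h1
    rw [min_eq_right hst, max_eq_left hst, mul_comm] at h2
    rw [min_self, max_self] at h3 h4
    refine ineq h1 h2 ?_
    calc _ = (a s * b s) * (a t * b t) := by ring
      _ ≤ (c s * d s) * (c t * d t) := mul_le_mul' h3 h4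
      _ = _ := by ring
  have e : ∀ {a b : ℝ → ℝ≥0∞}, Measurable a → Measurable b →
      ∫⁻ z : ℝ × ℝ, (a z.1 * b z.2 + b z.1 * a z.2) ∂(volume.prod volume) =
        2 * ((∫⁻ s, a s) * (∫⁻ s, b s)) := by
    intro a b ha hb
    rw [lintegral_add_left (by fun_prop), lintegral_prod_mul ha.aemeasurable hb.aemeasurable,
      lintegral_prod_mul hb.aemeasurable ha.aemeasurable]
    ring
  rw [← ENNReal.mul_le_mul_iff_right (a := 2) (by norm_num) (by norm_num), ← e ha hb, ← e hc hd]
  refine lintegral_mono (fun z => ?_)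
  rcases le_total z.1 z.2 with hz | hz
  · exact key _ _ hz
  · have := key _ _ hz
    simp only
    calc _ = a z.2 * b z.1 + b z.2 * a z.1 := by ring
      _ ≤ _ := this
      _ = _ := by ring

lemma split {n : ℕ} {f : (Fin (n + 1) → ℝ) → ℝ≥0∞} (hf : Measurable f) :
    ∫⁻ x, f x = ∫⁻ x : Fin n → ℝ, ∫⁻ t : ℝ, f (Fin.cons t x) := by
  have h := (volume_preserving_piFinSuccAbove (fun _ : Fin (n + 1) => ℝ) 0).symm
  rw [← h.lintegral_comp hf, Measure.volume_eq_prod, lintegral_prod_symm]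
  · simp [MeasurableEquiv.piFinSuccAbove_symm_apply, Fin.insertNthEquiv]
  · exact (hf.comp h.measurable).aemeasurable

lemma meas_cons {n : ℕ} : Measurable (fun z : (Fin n → ℝ) × ℝ => (Fin.cons z.2 z.1 : Fin (n + 1) → ℝ)) := by
  refine measurable_pi_lambda _ (fun i => ?_)
  refine Fin.cases ?_ (fun i => ?_) i
  · simpa using measurable_snd
  · simp only [Fin.cons_succ]; fun_prop

theorem four (n : ℕ) : ∀ {a b c d : (Fin n → ℝ) → ℝ≥0∞}, Measurable a → Measurable b →
    Measurable c → Measurable d → (∀ x y, a x * b y ≤ c (x ⊓ y) * d (x ⊔ y)) →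
    (∫⁻ s, a s) * (∫⁻ s, b s) ≤ (∫⁻ s, c s) * (∫⁻ s, d s) := by
  induction n with
  | zero =>
    intro a b c d _ _ _ _ h
    have e : (volume : Measure (Fin 0 → ℝ)) Set.univ = 1 := by simp [volume_pi]
    have k : ∀ a : (Fin 0 → ℝ) → ℝ≥0∞, ∫⁻ s, a s = a 0 := fun a => by
      rw [show a = fun _ => a 0 from funext fun x => congrArg a (funext fun i => i.elim0),
        lintegral_const, e, mul_one]
    have := h 0 0
    rw [inf_idem, sup_idem] at this
    rwa [k, k, k, k]
  | succ n ih =>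
    intro a b c d ha hb hc hd h
    rw [split ha, split hb, split hc, split hd]
    have m : ∀ {a : (Fin (n + 1) → ℝ) → ℝ≥0∞}, Measurable a →
        Measurable (fun x : Fin n → ℝ => ∫⁻ t : ℝ, a (Fin.cons t x)) := fun ha =>
      Measurable.lintegral_prod_right' (ha.comp meas_cons)
    have m' : ∀ {a : (Fin (n + 1) → ℝ) → ℝ≥0∞}, Measurable a → ∀ x : Fin n → ℝ,
        Measurable (fun t : ℝ => a (Fin.cons t x)) := fun ha x =>
      (ha.comp meas_cons).comp measurable_prodMk_left
    refine ih (m ha) (m hb) (m hc) (m hd) (fun x y => ?_)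
    refine one_dim (m' ha x) (m' hb y) (m' hc _) (m' hd _) (fun s t => ?_)
    convert h (Fin.cons s x) (Fin.cons t y) using 3
    · funext i; refine Fin.cases ?_ (fun i => ?_) i <;> simp
    · funext i; refine Fin.cases ?_ (fun i => ?_) i <;> simp

theorem four_real {n : ℕ} {a b c d : (Fin n → ℝ) → ℝ} (ha : Measurable a) (hb : Measurable b)
    (hc : Measurable c) (hd : Measurable d) (a0 : ∀ x, 0 ≤ a x) (b0 : ∀ x, 0 ≤ b x)
    (c0 : ∀ x, 0 ≤ c x) (d0 : ∀ x, 0 ≤ d x) (ai : Integrable a) (bi : Integrable b)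
    (ci : Integrable c) (di : Integrable d) (h : ∀ x y, a x * b y ≤ c (x ⊓ y) * d (x ⊔ y)) :
    (∫ s, a s) * (∫ s, b s) ≤ (∫ s, c s) * (∫ s, d s) := by
  have := four n ha.ennreal_ofReal hb.ennreal_ofReal hc.ennreal_ofReal hd.ennreal_ofReal
    (fun x y => by
      rw [← ENNReal.ofReal_mul (a0 _), ← ENNReal.ofReal_mul (c0 _)]
      exact ENNReal.ofReal_le_ofReal (h x y))
  rw [← ofReal_integral_eq_lintegral_ofReal ai (Eventually.of_forall a0),
    ← ofReal_integral_eq_lintegral_ofReal bi (Eventually.of_forall b0),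
    ← ofReal_integral_eq_lintegral_ofReal ci (Eventually.of_forall c0),
    ← ofReal_integral_eq_lintegral_ofReal di (Eventually.of_forall d0),
    ← ENNReal.ofReal_mul (integral_nonneg a0), ← ENNReal.ofReal_mul (integral_nonneg c0)] at this
  exact (ENNReal.ofReal_le_ofReal_iff (mul_nonneg (integral_nonneg c0) (integral_nonneg d0))).1 this

end Pool.Agent.H93.FourFun
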