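import Mathlib

set_option autoImplicit false

open Set Metric Filter Topology
open scoped RealInnerProductSpace

namespace Pool.Agent.H93.Gam

variable {E : Type*} [NormedAddCommGroup E] [InnerProductSpace ℝ E]

theorem perp_of_inf (hE : ¬ FiniteDimensional ℝ E) (S : Set E) (hS : S.Finite) :
    ∃ e : E, ‖e‖ = 1 ∧ ∀ a ∈ S, ⟪a, e⟫ = 0 := by
  have : FiniteDimensional ℝ (Submodule.span ℝ S) := FiniteDimensional.span_of_finite ℝ hS
  have hne : (Submodule.span ℝ S)ᗮ ≠ ⊥ := by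
    intro h
    rw [Submodule.orthogonal_eq_bot_iff] at h
    rw [h] at this
    exact hE (Submodule.topEquiv.finiteDimensional)
  obtain ⟨v, hv, hv0⟩ := Submodule.exists_mem_ne_zero_of_ne_bot hne
  have hv1 : ‖v‖ ≠ 0 := norm_ne_zero_iff.2 hv0
  refine ⟨‖v‖⁻¹ • v, by rw [norm_smul, norm_inv, norm_norm, inv_mul_cancel₀ hv1], fun a ha => ?_⟩
  rw [inner_smul_right, (Submodule.mem_orthogonal _ _).1 hv a (Submodule.subset_span ha), mul_zero]

/-- An infinite separated family in a ball of a Hilbert space. -/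
theorem kottman {ι : Type*} {I : Set ι} (hI : I.Infinite) (v : ι → E) {ρ D : ℝ}
    (h1 : ∀ i ∈ I, ‖v i‖ ^ 2 ≤ ρ) (h2 : ∀ i ∈ I, ∀ j ∈ I, i ≠ j → D ≤ ‖v i - v j‖ ^ 2) :
    D ≤ 2 * ρ := by
  classical
  by_contra hc
  push Not at hc
  set μ := D / 2 - ρ with hμ
  have hμ0 : 0 < μ := by linarith
  obtain ⟨m, hm⟩ := exists_nat_gt (ρ / μ + 1)
  obtain ⟨F, hFI, hF⟩ := hI.exists_subset_card_eq m
  have hρ : 0 ≤ ρ := by
    obtain ⟨i, hi⟩ := hI.nonempty
    exact (sq_nonneg _).trans (h1 i hi)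
  have hm0 : (0 : ℝ) < m := by
    have : 0 ≤ ρ / μ := by positivity
    linarith
  have key : ∀ i ∈ F, ∑ j ∈ F, ⟪v i, v j⟫ ≤ ρ + μ - m * μ := by
    intro i hi
    have : ∑ j ∈ F, ⟪v i, v j⟫ ≤ ∑ j ∈ F, ((if i = j then ρ + μ else 0) - μ) := by
      refine Finset.sum_le_sum fun j hj => ?_
      split_ifs with hij
      · subst hij
        rw [real_inner_self_eq_norm_sq]
        linarith [h1 i (hFI hi)]
      · have := h2 i (hFI hi) j (hFI hj) hij
        rw [norm_sub_sq_real] at this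
        linarith [h1 i (hFI hi), h1 j (hFI hj)]
    rw [Finset.sum_sub_distrib, Finset.sum_ite_eq, if_pos hi, Finset.sum_const, hF,
      nsmul_eq_mul] at this
    exact this
  have h3 : ⟪∑ i ∈ F, v i, ∑ j ∈ F, v j⟫ ≤ m * (ρ + μ - m * μ) := by
    rw [sum_inner]
    refine (Finset.sum_le_sum fun i hi => (inner_sum _ _ _).le.trans (key i hi)).trans ?_
    rw [Finset.sum_const, hF, nsmul_eq_mul]
  have h4 : 0 ≤ ⟪∑ i ∈ F, v i, ∑ j ∈ F, v j⟫ := real_inner_self_nonneg
  have h5 : ρ + μ < m * μ := by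
    have : (ρ / μ + 1) * μ = ρ + μ := by field_simp
    nlinarith
  nlinarith

/-- A covering of a sphere by balls that do not contain far directions is not uniformly locally
finite. -/
theorem sphere (hE : ¬ FiniteDimensional ℝ E) (e0 : E) {ι : Type*} (u : ι → E) (b : ι → ℝ)
    {a c ε : ℝ} (ha : 0 < a) (ha2 : a ≤ 1.4) (hc : 0 < c) (hε : 0 < ε) (hε1 : ε ≤ 1)
    (hb : ∀ i, 0 ≤ b i ∧ b i ≤ 2) (hθ : ∀ i, c ≤ a ^ 2 + ‖u i‖ ^ 2 - b i ^ 2)
    (hcov : ∀ e : E, ‖e‖ = 1 → ⟪e0, e⟫ = 0 → ∃ i, ‖a • e - u i‖ ≤ b i) :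
    ∃ e : E, ‖e‖ = 1 ∧ ⟪e0, e⟫ = 0 ∧ {i | ‖a • e - u i‖ ≤ b i + ε}.Infinite := by
  by_contra hcon
  push Not at hcon
  set l : ℝ := 1 - ε ^ 2 / 4 with hl
  have hl0 : 0 < l := by nlinarith
  have hl1 : l < 1 := by nlinarith
  have hsq : ∀ (e : E) i, ‖e‖ = 1 → ‖a • e - u i‖ ^ 2 = a ^ 2 - 2 * a * ⟪e, u i⟫ + ‖u i‖ ^ 2 := by
    intro e i he
    rw [norm_sub_sq_real, norm_smul, he, real_inner_smul_left, Real.norm_of_nonneg ha.le]
    ring
  have main : ∀ n : ℕ, ∀ e : E, ‖e‖ = 1 → ⟪e0, e⟫ = 0 →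
      ∃ i, a ^ 2 + ‖u i‖ ^ 2 - b i ^ 2 ≤ 2 * a * ⟪e, u i⟫ * l ^ n := by
    intro n
    induction n with
    | zero =>
      intro e he he0
      obtain ⟨i, hi⟩ := hcov e he he0
      have := pow_le_pow_left₀ (norm_nonneg _) hi 2
      rw [hsq e i he] at this
      exact ⟨i, by linarith⟩
    | succ n ih =>
      intro e he he0
      obtain ⟨v, hv, hvp⟩ := perp_of_inf hE _
        ((((hcon e he he0).image u).insert e).insert e0)
      have hve : ⟪e, v⟫ = 0 := hvp e (Or.inr (Or.inl rfl))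
      set m := Real.sqrt (1 - l ^ 2) with hm
      have hm2 : m ^ 2 = 1 - l ^ 2 := Real.sq_sqrt (by nlinarith)
      have he' : ‖l • e + m • v‖ = 1 := by
        have : ‖l • e + m • v‖ ^ 2 = 1 ^ 2 := by
          rw [norm_add_sq_real, norm_smul, norm_smul, he, hv, real_inner_smul_left,
            real_inner_smul_right, hve, Real.norm_eq_abs, Real.norm_eq_abs, mul_one, mul_one,
            sq_abs, sq_abs]
          linarith
        exact (pow_left_inj₀ (norm_nonneg _) zero_le_one two_ne_zero).1 this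
      obtain ⟨i, hi⟩ := ih (l • e + m • v) he' (by
        rw [inner_add_right, real_inner_smul_right, real_inner_smul_right, he0,
          hvp e0 (Or.inl rfl)]; ring)
      have hpos : 0 < 2 * a * ⟪l • e + m • v, u i⟫ := by
        by_contra hh
        have := mul_nonpos_of_nonpos_of_nonneg (not_lt.1 hh) (pow_pos hl0 n).le
        linarith [hθ i]
      have h1 : ‖a • (l • e + m • v) - u i‖ ≤ b i := by
        refine (pow_le_pow_iff_left₀ (norm_nonneg _) (hb i).1 two_ne_zero).1 ?_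
        rw [hsq _ i he']
        have : 2 * a * ⟪l • e + m • v, u i⟫ * l ^ n ≤ 2 * a * ⟪l • e + m • v, u i⟫ :=
          mul_le_of_le_one_right hpos.le (pow_le_one₀ hl0.le hl1.le)
        linarith
      have h2 : ‖a • e - a • (l • e + m • v)‖ ≤ ε := by
        refine (pow_le_pow_iff_left₀ (norm_nonneg _) hε.le two_ne_zero).1 ?_
        rw [← smul_sub, norm_smul, mul_pow, norm_sub_sq_real, he, he', inner_add_right,
          real_inner_smul_right, real_inner_smul_right, hve, real_inner_self_eq_norm_sq, he,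
          Real.norm_of_nonneg ha.le]
        have : a ^ 2 ≤ 2 := by nlinarith
        nlinarith [sq_nonneg ε]
      have h3 : ‖a • e - u i‖ ≤ b i + ε := by
        linarith [norm_sub_le_norm_sub_add_norm_sub (a • e) (a • (l • e + m • v)) (u i)]
      have h4 : ⟪u i, v⟫ = 0 := hvp _ (Or.inr (Or.inr ⟨i, h3, rfl⟩))
      refine ⟨i, ?_⟩
      rw [inner_add_left, real_inner_smul_left, real_inner_smul_left, real_inner_comm (u i) v,
        h4] at hi
      rw [pow_succ l n]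
      linarith
  obtain ⟨e, he, hep⟩ := perp_of_inf hE {e0} (finite_singleton _)
  obtain ⟨n, hn⟩ := exists_pow_lt_of_lt_one (show 0 < c / 12 by positivity) hl1
  obtain ⟨i, hi⟩ := main n e he (hep e0 rfl)
  have h1 := real_inner_le_norm e (u i)
  rw [he, one_mul] at h1
  have hln := pow_pos hl0 n
  have hl1n : l ^ n ≤ 1 := pow_le_one₀ hl0.le hl1.le
  have h2 : 2 * a * ⟪e, u i⟫ * l ^ n ≤ 2 * a * ‖u i‖ * l ^ n := by gcongr
  have h3 : 2 * a * ‖u i‖ * l ^ n ≤ 2 * a * ‖u i‖ :=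
    mul_le_of_le_one_right (by positivity) hl1n
  have h4 : ‖u i‖ ≤ 4 := by nlinarith [hb i, norm_nonneg (u i)]
  have h5 : 2 * a * ‖u i‖ ≤ 12 := by nlinarith [norm_nonneg (u i)]
  have h6 : 2 * a * ‖u i‖ * l ^ n ≤ 12 * l ^ n := by gcongr
  linarith [hθ i]

/-- The component orthogonal to `e0`. -/
noncomputable def Z (e0 x : E) : E := x - ⟪e0, x⟫ • e0

/-- The new norm. -/
noncomputable def N (e0 x : E) : ℝ :=
  max (‖Z e0 x‖ + |⟪e0, x⟫| / 10) (‖Z e0 x‖ / 2 + |⟪e0, x⟫|)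

theorem Z_sub (e0 x y : E) : Z e0 (x - y) = Z e0 x - Z e0 y := by
  simp only [Z, inner_sub_right, sub_smul]; abel

theorem lower (hE : ¬ FiniteDimensional ℝ E) {e0 : E} (he0 : ‖e0‖ = 1) {P : Set E}
    (hsep : ∀ x ∈ P, ∀ y ∈ P, x ≠ y → 2 ≤ N e0 (x - y))
    (hden : ∀ x, ∃ q ∈ P, N e0 (x - q) ≤ 1.4143) : False := by
  obtain ⟨p, hp, -⟩ := hden 0
  set u : E → E := fun q => Z e0 (q - p) with hu
  set t : E → ℝ := fun q => ⟪e0, q - p⟫ with ht
  set b : E → ℝ := fun q => min (1.4143 - |0.82 - t q| / 10) (2 * (1.4143 - |0.82 - t q|)) with hb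
  set I := {q ∈ P | q ≠ p ∧ 0 ≤ b q} with hI
  have hb1 : ∀ q, b q ≤ 1.4143 - |0.82 - t q| / 10 := fun q => min_le_left _ _
  have hb2 : ∀ q, b q ≤ 2 * (1.4143 - |0.82 - t q|) := fun q => min_le_right _ _
  have hsp : ∀ q ∈ I, 2 ≤ ‖u q‖ + |t q| / 10 ∨ 2 ≤ ‖u q‖ / 2 + |t q| := fun q hq =>
    le_max_iff.1 (hsep q hq.1 p hp hq.2.1)
  have htt : ∀ q, |t q| ≤ 0.82 + |0.82 - t q| := fun q => by
    rcases abs_cases (t q) with h | h <;> rcases abs_cases (0.82 - t q) with h' | h' <;> linarith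
  obtain ⟨e, he, hee, hinf⟩ := sphere hE e0 (fun q : I => u q) (fun q : I => b q)
    (a := 1.2) (c := 0.04) (ε := 0.0001) (by norm_num) (by norm_num) (by norm_num) (by norm_num)
    (by norm_num) (fun q => ⟨q.2.2.2, by linarith [hb1 q, abs_nonneg (0.82 - t q)]⟩)
    (fun q => by
      by_contra hc
      push Not at hc
      have h0 := q.2.2.2
      have h1 := hb1 q
      have h2 := hb2 q
      have h3 := abs_nonneg (0.82 - t q)
      have h4 := htt q
      have h5 := norm_nonneg (u q)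
      have h6 : ‖u q‖ < 0.8 := by nlinarith
      have h7 : ‖u q‖ + 0.5 < b q := by nlinarith
      rcases hsp q q.2 with h | h <;> linarith)
    (fun e he hee => by
      obtain ⟨q, hq, hq'⟩ := hden (p + (1.2 : ℝ) • e + (0.82 : ℝ) • e0)
      have e1 : p + (1.2 : ℝ) • e + (0.82 : ℝ) • e0 - q =
          ((1.2 : ℝ) • e + (0.82 : ℝ) • e0) - (q - p) := by abel
      have e2 : ⟪e0, (1.2 : ℝ) • e + (0.82 : ℝ) • e0⟫ = 0.82 := by
        rw [inner_add_right, real_inner_smul_right, real_inner_smul_right, hee,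
          real_inner_self_eq_norm_sq, he0]; norm_num
      have e3 : Z e0 ((1.2 : ℝ) • e + (0.82 : ℝ) • e0) = (1.2 : ℝ) • e := by
        rw [Z, e2]; abel
      rw [N, e1, Z_sub, inner_sub_right, e2, e3, max_le_iff] at hq'
      have h1 : ‖(1.2 : ℝ) • e - u q‖ ≤ b q := le_min (by linarith [hq'.1]) (by linarith [hq'.2])
      refine ⟨⟨q, hq, ?_, (norm_nonneg _).trans h1⟩, h1⟩
      rintro rfl
      have h2 := hq'.2
      simp only [sub_self, Z, inner_zero_right, zero_smul, sub_zero, norm_smul, he] at h2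
      norm_num at h2)
  let g : I → ℤ × Bool := fun q => (⌊1000 * t q⌋, decide (0.1 ≤ |0.82 - t q|))
  have hfin : (Icc (-3000 : ℤ) 3000 ×ˢ (univ : Set Bool)).Finite := (finite_Icc _ _).prod finite_univ
  obtain ⟨k, hk⟩ : ∃ k, {q : I | ‖(1.2 : ℝ) • e - u q‖ ≤ b q + 0.0001 ∧ g q = k}.Infinite := by
    by_contra hc
    push Not at hc
    refine hinf ((hfin.biUnion fun k _ => hc k).subset fun q hq => mem_biUnion (x := g q)
      ⟨?_, trivial⟩ ⟨hq, rfl⟩)
    have h0 := q.2.2.2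
    have h2 := hb2 q
    have h4 := abs_le.1 (show |t q| ≤ 3 by linarith [htt q])
    constructor
    · exact Int.le_floor.2 (by push_cast; linarith [h4.1])
    · exact Int.floor_le_iff.2 (by push_cast; linarith [h4.2])
  have hD : ∀ w : E, ∀ i ∈ {q : I | ‖(1.2 : ℝ) • e - u q‖ ≤ b q + 0.0001 ∧ g q = k},
      ∀ j ∈ {q : I | ‖(1.2 : ℝ) • e - u q‖ ≤ b q + 0.0001 ∧ g q = k}, i ≠ j →
      3.999 ≤ ‖(w - u i) - (w - u j)‖ ^ 2 := by
    intro w i hi j hj hij
    have h1 := hsep j j.2.1 i i.2.1 fun h => hij (Subtype.ext h.symm)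
    have e1 : (j : E) - i = (j - p) - (i - p) := by abel
    have e2 : w - u i - (w - u j) = u j - u i := by abel
    rw [N, e1, Z_sub, inner_sub_right, le_max_iff] at h1
    have h2 : ⌊1000 * t i⌋ = ⌊1000 * t j⌋ := congrArg Prod.fst (hi.2.trans hj.2.symm)
    have h3 := Int.abs_sub_lt_one_of_floor_eq_floor h2
    have h4 : |t j - t i| ≤ 0.001 := by
      rw [abs_lt] at h3
      rw [abs_le]; constructor <;> linarith [h3.1, h3.2]
    have h5 : 1.9999 ≤ ‖u j - u i‖ := by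
      rcases h1 with h | h
      · change 2 ≤ ‖u j - u i‖ + |t j - t i| / 10 at h
        linarith
      · change 2 ≤ ‖u j - u i‖ / 2 + |t j - t i| at h
        linarith
    rw [e2]
    nlinarith
  rcases k with ⟨k, _ | _⟩
  · have := kottman hk (fun q => (1.25 : ℝ) • e - u q) (ρ := 1.999) (fun q hq => by
      have h1 : |0.82 - t q| < 0.1 := by
        have := congrArg Prod.snd hq.2
        simpa [g] using this
      have h2 : ‖(1.2 : ℝ) • e - u q‖ ≤ 1.4144 := by
        linarith [hq.1, hb1 q, abs_nonneg (0.82 - t q)]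
      have h3 := pow_le_pow_left₀ (norm_nonneg _) h2 2
      have h4 : 1.9 ≤ ‖u q‖ := by
        rcases hsp q q.2 with h | h <;> linarith [htt q]
      have h5 : 3.61 ≤ ‖u q‖ ^ 2 := by nlinarith
      rw [norm_sub_sq_real, norm_smul, he, real_inner_smul_left, Real.norm_of_nonneg (by norm_num)]
        at h3 ⊢
      linarith) (hD _)
    norm_num at this
  · have := kottman hk (fun q => (1.2 : ℝ) • e - u q) (ρ := 1.999) (fun q hq => by
      have h1 : 0.1 ≤ |0.82 - t q| := by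
        have := congrArg Prod.snd hq.2
        simpa [g] using this
      have h2 : ‖(1.2 : ℝ) • e - u q‖ ≤ 1.4044 := by linarith [hq.1, hb1 q]
      have h3 := pow_le_pow_left₀ (norm_nonneg _) h2 2
      linarith) (hD _)
    norm_num at this

end Pool.Agent.H93.Gam
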