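import Mathlib
import Pool.Agent.H93.Gam1

set_option autoImplicit false

open Set Metric Filter Topology
open scoped RealInnerProductSpace

namespace Pool.Agent.H93.Gam

variable {E : Type*} [NormedAddCommGroup E] [InnerProductSpace ℝ E]

/-- The new norm as a seminorm. -/
noncomputable def NS (e0 : E) : Seminorm ℝ E :=
  Seminorm.of (N e0) (fun x y => by
    have h1 : Z e0 (x + y) = Z e0 x + Z e0 y := by
      simp only [Z, inner_add_right, add_smul]; abel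
    have h2 := norm_add_le (Z e0 x) (Z e0 y)
    have h3 := abs_add_le ⟪e0, x⟫ ⟪e0, y⟫
    simp only [N, h1, inner_add_right]
    refine max_le ?_ ?_
    · linarith [le_max_left (‖Z e0 x‖ + |⟪e0, x⟫| / 10) (‖Z e0 x‖ / 2 + |⟪e0, x⟫|),
        le_max_left (‖Z e0 y‖ + |⟪e0, y⟫| / 10) (‖Z e0 y‖ / 2 + |⟪e0, y⟫|)]
    · linarith [le_max_right (‖Z e0 x‖ + |⟪e0, x⟫| / 10) (‖Z e0 x‖ / 2 + |⟪e0, x⟫|),
        le_max_right (‖Z e0 y‖ + |⟪e0, y⟫| / 10) (‖Z e0 y‖ / 2 + |⟪e0, y⟫|)])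
    (fun a x => by
      have h1 : Z e0 (a • x) = a • Z e0 x := by
        simp only [Z, real_inner_smul_right, smul_sub, mul_smul]
      simp only [N, h1, real_inner_smul_right, norm_smul, abs_mul, Real.norm_eq_abs]
      rw [mul_max_of_nonneg _ _ (abs_nonneg a)]
      congr 1 <;> ring)

theorem NS_apply (e0 x : E) : NS e0 x = N e0 x := rfl

theorem N_bounds {e0 : E} (he0 : ‖e0‖ = 1) (x : E) : 1 / 2 * ‖x‖ ≤ N e0 x ∧ N e0 x ≤ 3 * ‖x‖ := by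
  have h1 : |⟪e0, x⟫| ≤ ‖x‖ := by simpa [he0] using abs_real_inner_le_norm e0 x
  have h2 : ‖⟪e0, x⟫ • e0‖ = |⟪e0, x⟫| := by rw [norm_smul, he0, mul_one, Real.norm_eq_abs]
  have h3 : ‖Z e0 x‖ ≤ ‖x‖ + |⟪e0, x⟫| := h2 ▸ norm_sub_le _ _
  have h4 : ‖x‖ ≤ ‖Z e0 x‖ + |⟪e0, x⟫| := by
    have := norm_add_le (Z e0 x) (⟪e0, x⟫ • e0)
    rwa [h2, Z, sub_add_cancel] at this
  have h5 := abs_nonneg ⟪e0, x⟫
  exact ⟨le_max_of_le_right (by linarith), max_le (by linarith) (by linarith)⟩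

theorem exists_max {X : Type*} [AddCommGroup X] [Module ℝ X] (M : Seminorm ℝ X) :
    ∃ P : Set X, (∀ x ∈ P, ∀ y ∈ P, x ≠ y → 2 ≤ M (x - y)) ∧ ∀ x, ∃ p ∈ P, M (x - p) ≤ 2 := by
  obtain ⟨P, hP⟩ := zorn_subset {P : Set X | ∀ x ∈ P, ∀ y ∈ P, x ≠ y → 2 ≤ M (x - y)}
    (fun C hC hch => ⟨⋃₀ C, by
      rintro x ⟨A, hA, hx⟩ y ⟨B, hB, hy⟩ hxy
      rcases hch.total hA hB with h | h
      · exact hC hB x (h hx) y hy hxy
      · exact hC hA x hx y (h hy) hxy, fun s hs => subset_sUnion_of_mem hs⟩)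
  refine ⟨P, hP.prop, fun x => ?_⟩
  by_contra hc
  push Not at hc
  have : insert x P ⊆ P := hP.le_of_ge (y := insert x P) (by
    rintro a (rfl | ha) b (rfl | hb) hab
    · exact absurd rfl hab
    · exact (hc b hb).le
    · rw [map_sub_rev]; exact (hc a ha).le
    · exact hP.prop a ha b hb hab) (subset_insert _ _)
  have h := hc x (this (mem_insert _ _))
  rw [sub_self, map_zero] at h
  norm_num at h

theorem main : ∃ M : Seminorm ℝ (lp (fun _ : ℕ => ℝ) 2),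
    (∃ c C : ℝ, 0 < c ∧ ∀ x, c * ‖x‖ ≤ M x ∧ M x ≤ C * ‖x‖) ∧
    Real.sqrt 2 < sInf {r : ℝ | 0 < r ∧ ∃ P : Set (lp (fun _ : ℕ => ℝ) 2),
      (∀ x ∈ P, ∀ y ∈ P, x ≠ y → 2 ≤ M (x - y)) ∧ ∀ x, ∃ p ∈ P, M (x - p) ≤ r} := by
  have ho : Orthonormal ℝ fun n : ℕ => (lp.single 2 n (1 : ℝ) : lp (fun _ : ℕ => ℝ) 2) := by
    rw [orthonormal_iff_ite]
    intro i j
    rw [lp.inner_single_left, lp.single_apply]
    by_cases h : i = j
    · subst h; simp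
    · simp [h]
  have hE : ¬ FiniteDimensional ℝ (lp (fun _ : ℕ => ℝ) 2) := fun _ =>
    Module.Finite.not_linearIndependent_of_infinite _ ho.linearIndependent
  refine ⟨NS (lp.single 2 0 1), ⟨1 / 2, 3, by norm_num, N_bounds (ho.1 0)⟩,
    lt_of_lt_of_le (b := 1.4143) ((Real.sqrt_lt' (by norm_num)).2 (by norm_num))
      (le_csInf ⟨2, two_pos, exists_max _⟩ ?_)⟩
  rintro r ⟨-, P, h1, h2⟩
  by_contra hc
  exact lower hE (ho.1 0) h1 fun x => (h2 x).imp fun q hq => ⟨hq.1, hq.2.trans (not_le.1 hc).le⟩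

end Pool.Agent.H93.Gam
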