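import Mathlib

set_option autoImplicit false

open Set Metric Filter Topology WithLp

namespace Pool.Agent.H93.Gam3

theorem lower {Y : Type*} [NormedAddCommGroup Y] [NormedSpace ℝ Y] {e0 : Y} (he0 : ‖e0‖ = 1)
    {P : Set (WithLp 2 (Y × ℝ))} (hsep : ∀ x ∈ P, ∀ y ∈ P, x ≠ y → 2 ≤ ‖x - y‖) {r : ℝ}
    (hden : ∀ x, ∃ q ∈ P, ‖x - q‖ ≤ r) : 2 / Real.sqrt 3 ≤ r := by
  by_contra hc
  obtain ⟨R, hrR, hR⟩ := exists_between (not_le.1 hc)
  obtain ⟨p, hp, hp'⟩ := hden 0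
  have hr0 : 0 ≤ r := (norm_nonneg _).trans hp'
  have hR0 : 0 < R := by linarith
  have hR2 : 3 * R ^ 2 < 4 := by
    have h3 : 0 < Real.sqrt 3 := by positivity
    rw [lt_div_iff₀ h3] at hR
    have h4 : Real.sqrt 3 ^ 2 = 3 := Real.sq_sqrt (by norm_num)
    have h5 : (R * Real.sqrt 3) ^ 2 < 2 ^ 2 := pow_lt_pow_left₀ hR (by positivity) two_ne_zero
    nlinarith
  have hn : ∀ x : WithLp 2 (Y × ℝ), ‖x‖ ^ 2 = ‖x.fst‖ ^ 2 + x.snd ^ 2 := fun x => by
    rw [prod_norm_sq_eq_of_L2, Real.norm_eq_abs, sq_abs]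
  have hle : ∀ x : WithLp 2 (Y × ℝ), ‖x‖ ≤ r → ‖x.fst‖ ^ 2 + x.snd ^ 2 ≤ r ^ 2 := fun x hx => by
    rw [← hn]; exact pow_le_pow_left₀ (norm_nonneg _) hx 2
  have hge : ∀ x : WithLp 2 (Y × ℝ), 2 ≤ ‖x‖ → 4 ≤ ‖x.fst‖ ^ 2 + x.snd ^ 2 := fun x hx => by
    rw [← hn]; nlinarith
  have hrR2 : r ^ 2 < R ^ 2 := by nlinarith
  obtain ⟨q, hq, hq'⟩ := hden (p + toLp 2 (0, R))
  have h1 := hle _ hq'
  simp only [sub_fst, add_fst, sub_snd, add_snd, toLp_fst, toLp_snd, add_zero] at h1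
  have hqp : q ≠ p := by
    rintro rfl
    simp at h1
    linarith
  have h2 := hge _ (hsep q hq p hp hqp)
  simp only [sub_fst, sub_snd] at h2
  rw [norm_sub_rev] at h1
  set D := ‖q.fst - p.fst‖ with hD
  set t := q.snd - p.snd with ht
  have h1' : D ^ 2 + (t - R) ^ 2 ≤ r ^ 2 := by rw [ht]; nlinarith
  have hD0 : 0 ≤ D := norm_nonneg _
  have ht0 : 0 < t := by nlinarith
  obtain ⟨e, he, hue⟩ : ∃ e : Y, ‖e‖ = 1 ∧ q.fst - p.fst = D • e := by
    by_cases h : q.fst - p.fst = 0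
    · exact ⟨e0, he0, by rw [hD, h]; simp⟩
    · exact ⟨D⁻¹ • (q.fst - p.fst), norm_smul_inv_norm h,
        by rw [smul_inv_smul₀ (norm_ne_zero_iff.2 h)]⟩
  obtain ⟨η, hη, hf⟩ := intermediate_value_Icc' (show -R ≤ R by linarith)
    (f := fun η => (Real.sqrt (R ^ 2 - η ^ 2) + D) ^ 2 + (t - η) ^ 2) (by fun_prop)
    (show R ^ 2 ∈ Icc _ _ from ⟨by simp; linarith, by simp; nlinarith⟩)
  simp only at hf
  set κ := Real.sqrt (R ^ 2 - η ^ 2) with hκ
  have hκ0 : 0 ≤ κ := Real.sqrt_nonneg _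
  have hκ2 : κ ^ 2 = R ^ 2 - η ^ 2 := Real.sq_sqrt (by nlinarith [hη.1, hη.2])
  obtain ⟨s, hs, hs'⟩ := hden (p + toLp 2 (-(κ • e), η))
  have h3 := hle _ hs'
  simp only [sub_fst, add_fst, sub_snd, add_snd, toLp_fst, toLp_snd] at h3
  have n1 : ‖-(κ • e)‖ = κ := by rw [norm_neg, norm_smul, he, mul_one, Real.norm_of_nonneg hκ0]
  have n2 : ‖p.fst + -(κ • e) - q.fst‖ = κ + D := by
    have : p.fst + -(κ • e) - q.fst = -((κ + D) • e) := by rw [add_smul, ← hue]; abel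
    rw [this, norm_neg, norm_smul, he, mul_one, Real.norm_of_nonneg (by linarith)]
  have hsp : s ≠ p := by
    rintro rfl
    rw [add_sub_cancel_left, add_sub_cancel_left, n1] at h3
    linarith
  have hsq : s ≠ q := by
    rintro rfl
    rw [n2] at h3
    nlinarith
  have h4 := hge _ (hsep s hs p hp hsp)
  have h5 := hge _ (hsep s hs q hq hsq)
  simp only [sub_fst, sub_snd] at h4 h5
  set b := ‖p.fst + -(κ • e) - s.fst‖ with hb
  have hb0 : 0 ≤ b := norm_nonneg _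
  have h6 : ‖s.fst - p.fst‖ ≤ b + κ := by
    have := norm_sub_le_norm_sub_add_norm_sub s.fst (p.fst + -(κ • e)) p.fst
    rwa [add_sub_cancel_left, n1, norm_sub_rev s.fst (p.fst + -(κ • e))] at this
  have h7 : ‖s.fst - q.fst‖ ≤ b + (κ + D) := by
    have := norm_sub_le_norm_sub_add_norm_sub s.fst (p.fst + -(κ • e)) q.fst
    rwa [n2, norm_sub_rev s.fst (p.fst + -(κ • e))] at this
  have h8 := pow_le_pow_left₀ (norm_nonneg _) h6 2
  have h9 := pow_le_pow_left₀ (norm_nonneg _) h7 2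
  set Δ := s.snd - p.snd - η with hΔ
  have e1 : s.snd - p.snd = Δ + η := by rw [hΔ]; ring
  have e2 : s.snd - q.snd = Δ + η - t := by rw [hΔ, ht]; ring
  have e3 : p.snd + η - s.snd = -Δ := by rw [hΔ]; ring
  rw [e1] at h4
  rw [e2] at h5
  rw [e3] at h3
  nlinarith [sq_nonneg (2 * κ + D - b), sq_nonneg (2 * η - t - Δ)]

theorem exists_seq {σ : Type*} (I : σ → Prop) (R : ℕ → σ → σ → Prop) (s0 : σ) (h0 : I s0)
    (hs : ∀ k s, I s → ∃ s', I s' ∧ R k s s') :
    ∃ f : ℕ → σ, ∀ k, I (f k) ∧ R k (f k) (f (k + 1)) := by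
  choose g hg using fun k (s : {s // I s}) => hs k s.1 s.2
  let X : ℕ → {s // I s} := fun n => Nat.rec ⟨s0, h0⟩ (fun k x => ⟨g k x, (hg k x).1⟩) n
  exact ⟨fun n => (X n).1, fun k => ⟨(X k).2, (hg k (X k)).2⟩⟩

/-- The space of summable real sequences. -/
abbrev L1 : Type := lp (fun _ : ℕ => ℝ) 1

theorem l1_add (z : L1) (N : ℕ) (hz : z N = 0) (t : ℝ) :
    ‖z + t • lp.single 1 N (1 : ℝ)‖ = ‖z‖ + |t| := by
  have h1 := lp.hasSum_norm (by norm_num) (z + t • lp.single 1 N (1 : ℝ))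
  have h2 := lp.hasSum_norm (by norm_num) z
  simp only [ENNReal.toReal_one, Real.rpow_one] at h1 h2
  refine h1.unique ?_
  convert h2.add (hasSum_ite_eq N |t|) using 2 with i
  by_cases hi : i = N
  · subst hi; simp [hz]
  · simp [hi, lp.single_apply]

theorem l1_dense : ∃ x : ℕ → WithLp 2 (L1 × ℝ), DenseRange x ∧
    ∀ n, ∃ N, ∀ i ≥ N, (x n).fst i = 0 := by
  have hsep : TopologicalSpace.SeparableSpace L1 := by
    have h : TopologicalSpace.IsSeparable
        (Set.range fun n : ℕ => lp.single (E := fun _ : ℕ => ℝ) 1 n 1) :=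
      (Set.countable_range _).isSeparable
    have h2 := (h.span (R := ℝ)).closure
    rw [← TopologicalSpace.isSeparable_univ_iff]
    refine h2.mono fun x _ => ?_
    refine mem_closure_of_tendsto (lp.hasSum_single (by norm_num) x)
      (Eventually.of_forall fun s => ?_)
    refine Submodule.sum_mem _ fun n _ => ?_
    have : lp.single (E := fun _ : ℕ => ℝ) 1 n (x n) = x n • lp.single 1 n 1 := by
      rw [← lp.single_smul, smul_eq_mul, mul_one]
    rw [this]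
    exact Submodule.smul_mem _ _ (Submodule.subset_span ⟨n, rfl⟩)
  have : SecondCountableTopology L1 := UniformSpace.secondCountable_of_separable L1
  have hd : Dense {x : WithLp 2 (L1 × ℝ) | ∃ N, ∀ i ≥ N, x.fst i = 0} := by
    intro x
    have h1 := (lp.hasSum_single (by norm_num) x.fst).tendsto_sum_nat
    have h2 : Tendsto (fun n => toLp 2 (∑ i ∈ Finset.range n, lp.single 1 i (x.fst i), x.snd))
        atTop (𝓝 (toLp 2 (x.fst, x.snd))) :=
      ((prod_continuous_toLp 2 L1 ℝ).tendsto _).comp (h1.prodMk_nhds tendsto_const_nhds)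
    refine mem_closure_of_tendsto h2 (Eventually.of_forall fun n => ⟨n, fun i hi => ?_⟩)
    simp only [toLp_fst, lp.coeFn_sum, Finset.sum_apply]
    refine Finset.sum_eq_zero fun j hj => lp.single_apply_ne _ _ _ ?_
    have := Finset.mem_range.1 hj
    omega
  obtain ⟨S, hS1, hS2, hS3⟩ := hd.exists_countable_dense_subset
  obtain ⟨x, hx⟩ := hS2.exists_eq_range hS3.nonempty
  refine ⟨x, by rwa [DenseRange, ← hx], fun n => hS1 (hx ▸ mem_range_self n)⟩

theorem l1_comb (a b : L1) (k : ℤ) (i : ℕ) : (a + k • b) i = a i + k * b i := by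
  rw [← Int.cast_smul_eq_zsmul ℝ, lp.coeFn_add, lp.coeFn_smul]; rfl

theorem upper : ∃ Λ : AddSubgroup (WithLp 2 (L1 × ℝ)), (∀ x ∈ Λ, x ≠ 0 → 2 ≤ ‖x‖) ∧
    ∀ ε > 0, ∀ x, ∃ d ∈ Λ, ‖x - d‖ ≤ 2 / Real.sqrt 3 + ε := by
  obtain ⟨x, hxd, hxs⟩ := l1_dense
  set r : ℝ := 2 / Real.sqrt 3 with hr
  have hr0 : 0 < r := by positivity
  have hr2 : r ^ 2 = 4 / 3 := by rw [hr, div_pow, Real.sq_sqrt (by norm_num)]; norm_num
  have hr1 : 1 ≤ r := by nlinarith
  have hn : ∀ x : WithLp 2 (L1 × ℝ), ‖x‖ ^ 2 = ‖x.fst‖ ^ 2 + x.snd ^ 2 := fun x => by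
    rw [prod_norm_sq_eq_of_L2, Real.norm_eq_abs, sq_abs]
  have hge : ∀ x : WithLp 2 (L1 × ℝ), 4 ≤ ‖x.fst‖ ^ 2 + x.snd ^ 2 → 2 ≤ ‖x‖ := fun x hx => by
    rw [← hn] at hx
    by_contra h
    nlinarith [norm_nonneg x]
  set v : WithLp 2 (L1 × ℝ) := toLp 2 (0, 2) with hv
  have hvf : ∀ k : ℤ, (k • v).fst = 0 := fun k => by simp [hv]
  have hvs : ∀ k : ℤ, (k • v).snd = 2 * k := fun k => by simp [hv, mul_comm]
  obtain ⟨f, hf⟩ := exists_seq
    (fun s : AddSubgroup (WithLp 2 (L1 × ℝ)) × ℕ => v ∈ s.1 ∧ (∀ y ∈ s.1, y ≠ 0 → 2 ≤ ‖y‖) ∧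
      ∀ y ∈ s.1, ∀ i ≥ s.2, y.fst i = 0)
    (fun n s s' => s.1 ≤ s'.1 ∧ ∃ d ∈ s'.1, ‖x n - d‖ ≤ r) (AddSubgroup.zmultiples v, 0)
    ⟨AddSubgroup.mem_zmultiples v, by
      intro y hy hy0
      obtain ⟨k, rfl⟩ := AddSubgroup.mem_zmultiples_iff.1 hy
      have hk : k ≠ 0 := by rintro rfl; simp at hy0
      have h1 : (1 : ℝ) ≤ (k : ℝ) ^ 2 := by
        have : (1 : ℤ) ≤ k ^ 2 := by have := sq_pos_of_ne_zero hk; omega
        exact_mod_cast this
      apply hge
      rw [hvf, hvs]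
      simp only [norm_zero]
      nlinarith, by
      intro y hy i _
      obtain ⟨k, rfl⟩ := AddSubgroup.mem_zmultiples_iff.1 hy
      rw [hvf]; rfl⟩ (by
      rintro n ⟨Λ, N⟩ ⟨h1, h2, h3⟩
      by_cases hc : ∃ d ∈ Λ, ‖x n - d‖ ≤ r
      · exact ⟨(Λ, N), ⟨h1, h2, h3⟩, le_rfl, hc⟩
      push Not at hc
      obtain ⟨N', hN'⟩ := hxs n
      set M := max N N' with hM
      set g : WithLp 2 (L1 × ℝ) := x n + toLp 2 (r • lp.single 1 M (1 : ℝ), 0) with hg
      have key : ∀ y ∈ Λ, ∀ k : ℤ, ‖(y + k • g).fst‖ = ‖y.fst + k • (x n).fst‖ + |k * r| := by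
        intro y hy k
        rw [← l1_add _ M (by
          rw [l1_comb, h3 y hy M (le_max_left _ _), hN' M (le_max_right _ _)]; simp)]
        congr 1
        simp only [hg, add_fst, smul_fst, toLp_fst, smul_add, mul_smul, Int.cast_smul_eq_zsmul]
        abel
      have one : ∀ y ∈ Λ, 2 ≤ ‖y + g‖ := by
        intro y hy
        have k1 := key y hy 1
        simp only [one_smul, Int.cast_one, one_mul, abs_of_pos hr0] at k1
        have a1 := pow_lt_pow_left₀ (hc (-y) (neg_mem hy)) hr0.le two_ne_zero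
        have a2 := pow_lt_pow_left₀ (hc (-y + round ((y.snd + (x n).snd) / 2) • v)
          (add_mem (neg_mem hy) (zsmul_mem h1 _))) hr0.le two_ne_zero
        have a3 := abs_le.1 (abs_sub_round ((y.snd + (x n).snd) / 2))
        rw [hn] at a1 a2
        simp only [sub_fst, add_fst, neg_fst, sub_snd, add_snd, neg_snd, hvf, hvs, add_zero,
          sub_neg_eq_add, add_comm (x n).fst] at a1 a2
        apply hge
        rw [k1]
        simp only [hg, add_snd, toLp_snd, add_zero]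
        have a4 : 1 / 3 < ‖y.fst + (x n).fst‖ ^ 2 := by nlinarith [a3.1, a3.2]
        have a5 : r / 2 < ‖y.fst + (x n).fst‖ := by
          by_contra h
          nlinarith [norm_nonneg (y.fst + (x n).fst)]
        nlinarith
      refine ⟨(Λ ⊔ AddSubgroup.zmultiples g, M + 1), ⟨AddSubgroup.mem_sup_left h1, ?_, ?_⟩,
        le_sup_left, g, AddSubgroup.mem_sup_right (AddSubgroup.mem_zmultiples g), ?_⟩
      · intro w hw hw0
        obtain ⟨y, hy, z, hz, rfl⟩ := AddSubgroup.mem_sup.1 hw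
        obtain ⟨k, rfl⟩ := AddSubgroup.mem_zmultiples_iff.1 hz
        by_cases k0 : k = 0
        · subst k0
          simp only [zero_smul, add_zero] at hw0 ⊢
          exact h2 y hy hw0
        by_cases k1 : k = 1
        · subst k1
          simpa using one y hy
        by_cases k2 : k = -1
        · subst k2
          have := one (-y) (neg_mem hy)
          rwa [← norm_neg, neg_add, neg_neg, ← neg_one_zsmul g] at this
        have k3 : (2 : ℝ) ≤ |(k : ℝ)| := by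
          have : (2 : ℤ) ≤ |k| := by rcases abs_cases k with h | h <;> omega
          exact_mod_cast this
        apply hge
        rw [key y hy k, abs_mul, abs_of_pos hr0]
        have k4 : 2 ≤ |(k : ℝ)| * r := by nlinarith
        nlinarith [norm_nonneg (y.fst + k • (x n).fst), sq_nonneg (y + k • g).snd]
      · intro w hw i hi
        obtain ⟨y, hy, z, hz, rfl⟩ := AddSubgroup.mem_sup.1 hw
        obtain ⟨k, rfl⟩ := AddSubgroup.mem_zmultiples_iff.1 hz
        have hi' : M + 1 ≤ i := hi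
        have i1 : i ≠ M := by omega
        rw [add_fst, smul_fst, l1_comb, h3 y hy i (by omega)]
        simp [hg, hN' i (by omega), lp.single_apply, i1]
      · rw [hg, sub_add_cancel_left, norm_neg, norm_toLp_fst, norm_smul,
          lp.norm_single (by norm_num), Real.norm_of_nonneg hr0.le]
        simp)
  have hmono : Monotone fun n => (f n).1 := monotone_nat_of_le_succ fun n => (hf n).2.1
  refine ⟨⨆ n, (f n).1, fun y hy hy0 => ?_, fun ε hε y => ?_⟩
  · obtain ⟨n, hn⟩ := (AddSubgroup.mem_iSup_of_directed hmono.directed_le).1 hy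
    exact (hf n).1.2.1 y hn hy0
  · obtain ⟨n, hn⟩ := hxd.exists_dist_lt y hε
    obtain ⟨d, hd, hd'⟩ := (hf n).2.2
    refine ⟨d, AddSubgroup.mem_iSup_of_mem (n + 1) hd, ?_⟩
    rw [dist_eq_norm] at hn
    linarith [norm_sub_le_norm_sub_add_norm_sub y (x n) d]

end Pool.Agent.H93.Gam3
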