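import Mathlib

namespace H93Hol
open MeasureTheory Real

abbrev V (n : ℕ) := EuclideanSpace ℝ (Fin n)

variable {n : ℕ}

lemma gauss_int {b : ℝ} (hb : 0 < b) :
    ∫ u : V n, exp (-b * ‖u‖ ^ 2) = (π / b) ^ ((n : ℝ) / 2) := by
  rw [GaussianFourier.integral_rexp_neg_mul_sq_norm hb]
  simp

lemma gauss_integrable {b : ℝ} (hb : 0 < b) :
    Integrable (fun u : V n => exp (-b * ‖u‖ ^ 2)) := by
  apply Integrable.of_integral_ne_zero
  rw [gauss_int hb]
  have := pi_pos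
  positivity

/-- Gaussian weight. -/
noncomputable def g (n : ℕ) (u : V n) : ℝ := exp (-(4 * (n : ℝ)) * ‖u‖ ^ 2)

/-- Square root of the Gaussian weight. -/
noncomputable def q (n : ℕ) (u : V n) : ℝ := exp (-(2 * (n : ℝ)) * ‖u‖ ^ 2)

/-- Total mass. -/
noncomputable def Z (n : ℕ) : ℝ := ∫ u : V n, g n u

lemma g_pos (u : V n) : 0 < g n u := exp_pos _
lemma q_pos (u : V n) : 0 < q n u := exp_pos _

lemma q_sq (u : V n) : q n u ^ 2 = g n u := by
  unfold q g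
  rw [← exp_nat_mul]; congr 1; push_cast; ring

lemma g_cont : Continuous (g n) := by unfold g; fun_prop
lemma q_cont : Continuous (q n) := by unfold q; fun_prop

lemma g_integrable (hn : 1 ≤ n) : Integrable (g n) := by
  have : (0 : ℝ) < 4 * n := by positivity
  exact gauss_integrable this

lemma Z_eq (hn : 1 ≤ n) : Z n = (π / (4 * n)) ^ ((n : ℝ) / 2) := by
  have : (0 : ℝ) < 4 * n := by positivity
  exact gauss_int this

lemma Z_pos (hn : 1 ≤ n) : 0 < Z n := by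
  rw [Z_eq hn]; have := pi_pos; positivity

lemma eg_eq (u : V n) : exp (2 * ‖u‖ ^ 2) * g n u = exp (-(4 * (n : ℝ) - 2) * ‖u‖ ^ 2) := by
  unfold g; rw [← exp_add]; congr 1; ring

lemma eg_integrable (hn : 1 ≤ n) : Integrable (fun u : V n => exp (2 * ‖u‖ ^ 2) * g n u) := by
  have h1 : (1 : ℝ) ≤ n := by exact_mod_cast hn
  simp_rw [eg_eq]
  exact gauss_integrable (by linarith)

lemma eg_int (hn : 1 ≤ n) : ∫ u : V n, exp (2 * ‖u‖ ^ 2) * g n u ≤ 2 * Z n := by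
  have h1 : (1 : ℝ) ≤ n := by exact_mod_cast hn
  simp_rw [eg_eq]
  rw [gauss_int (by linarith), Z_eq hn]
  have hp := pi_pos
  have hd : (0 : ℝ) < 4 * n - 2 := by linarith
  have e : π / (4 * n - 2) = (4 * n / (4 * n - 2)) * (π / (4 * n)) := by field_simp
  rw [e, mul_rpow (by positivity) (by positivity)]
  refine mul_le_mul_of_nonneg_right ?_ (by positivity)
  have hge : (1 : ℝ) ≤ 4 * n / (4 * n - 2) := by rw [le_div_iff₀ hd]; linarith
  calc (4 * n / (4 * n - 2) : ℝ) ^ ((n : ℝ) / 2) ≤ (4 * n / (4 * n - 2) : ℝ) ^ (n : ℝ) :=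
        rpow_le_rpow_of_exponent_le hge (by linarith)
    _ = (4 * n / (4 * n - 2) : ℝ) ^ n := rpow_natCast _ _
    _ ≤ 2 := by
        have hb := one_add_mul_le_pow (a := -(1 / (2 * (n : ℝ)))) (by
          have : 1 / (2 * (n : ℝ)) ≤ 1 := by rw [div_le_one (by positivity)]; linarith
          linarith) n
        have e1 : 1 + (n : ℝ) * -(1 / (2 * n)) = 1 / 2 := by field_simp; ring
        have e2 : (4 * n / (4 * n - 2) : ℝ) = (1 + -(1 / (2 * (n : ℝ))))⁻¹ := by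
          have : (2 * (n : ℝ) - 1) ≠ 0 := by linarith
          have h3 : (1 + -(1 / (2 * (n : ℝ)))) = (2 * n - 1) / (2 * n) := by field_simp; ring
          rw [h3, inv_div, div_eq_div_iff hd.ne' this]; ring
        rw [e1] at hb
        rw [e2, inv_pow]
        calc _ ≤ (1 / 2 : ℝ)⁻¹ := inv_anti₀ (by norm_num) hb
          _ = 2 := by norm_num

lemma integrable_of_le (hn : 1 ≤ n) {F : V n → ℝ} (hF : Continuous F) {A : ℝ}
    (hA : ∀ u, |F u| ≤ A * exp (2 * ‖u‖ ^ 2)) : Integrable (fun u => F u * g n u) := by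
  refine Integrable.mono' ((eg_integrable hn).const_mul A)
    (hF.mul g_cont).aestronglyMeasurable (Filter.Eventually.of_forall fun u => ?_)
  rw [norm_mul, Real.norm_eq_abs, Real.norm_eq_abs, abs_of_pos (g_pos u), ← mul_assoc]
  exact mul_le_mul_of_nonneg_right (hA u) (g_pos u).le

lemma integral_le_of_le (hn : 1 ≤ n) {F : V n → ℝ} (hF : Continuous F) {A : ℝ} (hA0 : 0 ≤ A)
    (hA : ∀ u, |F u| ≤ A * exp (2 * ‖u‖ ^ 2)) : ∫ u, F u * g n u ≤ 2 * A * Z n := by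
  calc ∫ u, F u * g n u ≤ ∫ u : V n, A * (exp (2 * ‖u‖ ^ 2) * g n u) := by
        refine integral_mono (integrable_of_le hn hF hA) ((eg_integrable hn).const_mul A) fun u => ?_
        simp only
        rw [← mul_assoc]
        exact mul_le_mul_of_nonneg_right ((le_abs_self _).trans (hA u)) (g_pos u).le
    _ = A * ∫ u : V n, exp (2 * ‖u‖ ^ 2) * g n u := integral_const_mul _ _
    _ ≤ A * (2 * Z n) := mul_le_mul_of_nonneg_left (eg_int hn) hA0
    _ = 2 * A * Z n := by ring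

lemma W_le (c u : V n) : 1 + ‖c + u‖ ^ 2 ≤ (2 + 2 * ‖c‖ ^ 2) * exp (‖u‖ ^ 2) := by
  have h1 : ‖c + u‖ ≤ ‖c‖ + ‖u‖ := norm_add_le _ _
  have h2 : ‖c + u‖ ^ 2 ≤ (‖c‖ + ‖u‖) ^ 2 := by gcongr
  have h3 : ‖u‖ ^ 2 + 1 ≤ exp (‖u‖ ^ 2) := add_one_le_exp _
  have h4 : (2 + 2 * ‖c‖ ^ 2) * (‖u‖ ^ 2 + 1) ≤ (2 + 2 * ‖c‖ ^ 2) * exp (‖u‖ ^ 2) := by gcongr
  nlinarith [sq_nonneg (‖c‖ - ‖u‖), mul_nonneg (sq_nonneg ‖c‖) (sq_nonneg ‖u‖)]

lemma W_le2 (c u : V n) : 1 + ‖c + u‖ ^ 2 ≤ (2 + 2 * ‖c‖ ^ 2) * exp (2 * ‖u‖ ^ 2) := by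
  refine (W_le c u).trans ?_
  gcongr
  nlinarith [sq_nonneg ‖u‖]

lemma W_sq_le (c u : V n) :
    (1 + ‖c + u‖ ^ 2) ^ 2 ≤ (2 + 2 * ‖c‖ ^ 2) ^ 2 * exp (2 * ‖u‖ ^ 2) := by
  have h := W_le c u
  have e : exp (2 * ‖u‖ ^ 2) = exp (‖u‖ ^ 2) ^ 2 := by rw [← exp_nat_mul]; norm_num
  rw [e, ← mul_pow]
  gcongr

lemma qq_eq (b w : V n) :
    q n (w - b) * q n w = exp (-(n : ℝ) * ‖b‖ ^ 2) * g n (w - (1 / 2 : ℝ) • b) := by
  unfold q g
  rw [← exp_add, ← exp_add]; congr 1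
  rw [@norm_sub_sq_real, @norm_sub_sq_real, norm_smul, inner_smul_right]
  simp only [Real.norm_eq_abs, one_div]
  rw [abs_of_pos (by norm_num : (0 : ℝ) < 2⁻¹)]
  ring

lemma hell_integrable (hn : 1 ≤ n) (b : V n) :
    Integrable (fun w => (q n (w - b) - q n w) ^ 2) := by
  have e : (fun w => (q n (w - b) - q n w) ^ 2) = fun w => g n (w - b) + g n w -
      2 * (exp (-(n : ℝ) * ‖b‖ ^ 2) * g n (w - (1 / 2 : ℝ) • b)) := by
    funext w; rw [← qq_eq, ← q_sq, ← q_sq]; ring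
  rw [e]
  exact (((g_integrable hn).comp_sub_right b).add (g_integrable hn)).sub
    ((((g_integrable hn).comp_sub_right _).const_mul _).const_mul _)

lemma hell_int (hn : 1 ≤ n) (b : V n) :
    ∫ w, (q n (w - b) - q n w) ^ 2 ≤ 2 * n * ‖b‖ ^ 2 * Z n := by
  have e : (fun w => (q n (w - b) - q n w) ^ 2) = fun w => g n (w - b) + g n w -
      2 * (exp (-(n : ℝ) * ‖b‖ ^ 2) * g n (w - (1 / 2 : ℝ) • b)) := by
    funext w; rw [← qq_eq, ← q_sq, ← q_sq]; ring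
  have i1 : Integrable (fun w => g n (w - b) + g n w) :=
    ((g_integrable hn).comp_sub_right b).add (g_integrable hn)
  have i2 : Integrable (fun w => 2 * (exp (-(n : ℝ) * ‖b‖ ^ 2) * g n (w - (1 / 2 : ℝ) • b))) :=
    (((g_integrable hn).comp_sub_right _).const_mul _).const_mul _
  rw [e, integral_sub i1 i2,
    integral_add ((g_integrable hn).comp_sub_right b) (g_integrable hn),
    integral_const_mul, integral_const_mul, integral_sub_right_eq_self (g n),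
    integral_sub_right_eq_self (g n)]
  have h1 := add_one_le_exp (-(n : ℝ) * ‖b‖ ^ 2)
  have h2 := Z_pos hn
  change Z n + Z n - 2 * (exp (-(n : ℝ) * ‖b‖ ^ 2) * Z n) ≤ _
  nlinarith

end H93Hol
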