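import Pool.Agent.H93.Hol1

namespace H93Hol
open MeasureTheory Real

variable {n : ℕ}

/-- Strong convexity with modulus one. -/
def SC (f : V n → ℝ) : Prop :=
  ∀ a b : V n, ∀ t : ℝ, 0 ≤ t → t ≤ 1 →
    f (t • a + (1 - t) • b) ≤ t * f a + (1 - t) * f b - t * (1 - t) * ‖a - b‖ ^ 2

/-- Quadratic growth. -/
def QG (f : V n → ℝ) : Prop := ∃ A : ℝ, 0 ≤ A ∧ ∀ w, |f w| ≤ A * (1 + ‖w‖ ^ 2)

/-- Gaussian smoothing. -/
noncomputable def Phi (f : V n → ℝ) (c : V n) : ℝ := ∫ u, f (c + u) * g n u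

lemma cont_of_cvx {f : V n → ℝ} {m : ℝ} (hm : 0 ≤ m) (h : ∀ a b : V n, ∀ t : ℝ, 0 ≤ t → t ≤ 1 →
    f (t • a + (1 - t) • b) ≤ t * f a + (1 - t) * f b - m * (t * (1 - t) * ‖a - b‖ ^ 2)) :
    Continuous f := by
  have hc : ConvexOn ℝ Set.univ f := by
    refine ⟨convex_univ, fun a _ b _ s t hs ht hst => ?_⟩
    have e : t = 1 - s := by linarith
    subst e
    have := h a b s hs (by linarith)
    have h2 : 0 ≤ m * (s * (1 - s) * ‖a - b‖ ^ 2) := by positivity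
    simp only [smul_eq_mul]
    linarith
  exact hc.locallyLipschitz.continuous

lemma SC.cont {f : V n → ℝ} (h : SC f) : Continuous f :=
  cont_of_cvx (m := 1) zero_le_one fun a b t h0 h1 => by simpa using h a b t h0 h1

lemma phi_integrable (hn : 1 ≤ n) {f : V n → ℝ} (hc : Continuous f) (hq : QG f) (c : V n) :
    Integrable (fun u => f (c + u) * g n u) := by
  obtain ⟨A, hA0, hA⟩ := hq
  refine integrable_of_le hn (F := fun u => f (c + u)) (by fun_prop)
    (A := A * (2 + 2 * ‖c‖ ^ 2)) fun u => ?_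
  calc |f (c + u)| ≤ A * (1 + ‖c + u‖ ^ 2) := hA _
    _ ≤ A * ((2 + 2 * ‖c‖ ^ 2) * exp (2 * ‖u‖ ^ 2)) := by gcongr; exact W_le2 c u
    _ = _ := by ring

lemma phi_sc (hn : 1 ≤ n) {f : V n → ℝ} (hs : SC f) (hq : QG f) (a b : V n) (t : ℝ)
    (h0 : 0 ≤ t) (h1 : t ≤ 1) :
    Phi f (t • a + (1 - t) • b) ≤
      t * Phi f a + (1 - t) * Phi f b - Z n * (t * (1 - t) * ‖a - b‖ ^ 2) := by
  have ia := phi_integrable hn hs.cont hq a
  have ib := phi_integrable hn hs.cont hq b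
  have i1 : Integrable (fun u => t * (f (a + u) * g n u) + (1 - t) * (f (b + u) * g n u)) :=
    (ia.const_mul _).add (ib.const_mul _)
  have i2 : Integrable (fun u => (t * (1 - t) * ‖a - b‖ ^ 2) * g n u) :=
    (g_integrable hn).const_mul _
  have e : t * Phi f a + (1 - t) * Phi f b - Z n * (t * (1 - t) * ‖a - b‖ ^ 2) =
      ∫ u, (t * (f (a + u) * g n u) + (1 - t) * (f (b + u) * g n u) -
        (t * (1 - t) * ‖a - b‖ ^ 2) * g n u) := by
    rw [integral_sub i1 i2, integral_add (ia.const_mul _) (ib.const_mul _), integral_const_mul,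
      integral_const_mul, integral_const_mul]
    unfold Phi Z; ring
  rw [e]
  refine integral_mono (phi_integrable hn hs.cont hq _) (i1.sub i2) fun u => ?_
  have h := hs (a + u) (b + u) t h0 h1
  have e1 : t • (a + u) + (1 - t) • (b + u) = t • a + (1 - t) • b + u := by
    simp only [smul_add, sub_smul, one_smul]; abel
  have e2 : a + u - (b + u) = a - b := by abel
  rw [e1, e2] at h
  have := mul_le_mul_of_nonneg_right h (g_pos u).le
  simp only
  linarith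

lemma phi_min_gap (hn : 1 ≤ n) {f : V n → ℝ} (hs : SC f) (hq : QG f) {a : V n}
    (ha : ∀ c, Phi f a ≤ Phi f c) (b : V n) : Z n * ‖a - b‖ ^ 2 / 2 ≤ Phi f b - Phi f a := by
  have h := phi_sc hn hs hq a b (1 / 2) (by norm_num) (by norm_num)
  have h2 := ha ((1 / 2 : ℝ) • a + (1 - 1 / 2 : ℝ) • b)
  nlinarith

lemma sqn_le (u : V n) : ‖u‖ ^ 2 ≤ exp (2 * ‖u‖ ^ 2) := by
  have := add_one_le_exp (2 * ‖u‖ ^ 2)
  nlinarith [sq_nonneg ‖u‖]

lemma mom2_integrable (hn : 1 ≤ n) : Integrable (fun u : V n => ‖u‖ ^ 2 * g n u) :=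
  integrable_of_le hn (A := 1) (by fun_prop) fun u => by
    rw [abs_of_nonneg (sq_nonneg _), one_mul]; exact sqn_le u

lemma mom2_le (hn : 1 ≤ n) : ∫ u : V n, ‖u‖ ^ 2 * g n u ≤ 2 * Z n := by
  have := integral_le_of_le hn (F := fun u : V n => ‖u‖ ^ 2) (A := 1) (by fun_prop) zero_le_one
    fun u => by rw [abs_of_nonneg (sq_nonneg _), one_mul]; exact sqn_le u
  linarith

lemma phi_lower (hn : 1 ≤ n) {f : V n → ℝ} (hc : Continuous f) (hq : QG f) {P : V n} {A : ℝ}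
    (hl : ∀ w, ‖w - P‖ ^ 2 - A ≤ f w) (c : V n) :
    Z n * (‖c - P‖ ^ 2 / 2 - A - 2) ≤ Phi f c := by
  have i1 : Integrable (fun u => (‖c - P‖ ^ 2 / 2 - A) * g n u) := (g_integrable hn).const_mul _
  have h : ∫ u, ((‖c - P‖ ^ 2 / 2 - A) * g n u - ‖u‖ ^ 2 * g n u) ≤ Phi f c := by
    refine integral_mono (i1.sub (mom2_integrable hn)) (phi_integrable hn hc hq c) fun u => ?_
    have h1 := hl (c + u)
    have h2 : ‖c - P‖ ≤ ‖c + u - P‖ + ‖u‖ := by
      have : c - P = (c + u - P) - u := by abel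
      rw [this]; exact norm_sub_le _ _
    have h3 : ‖c - P‖ ^ 2 ≤ (‖c + u - P‖ + ‖u‖) ^ 2 := by gcongr
    have h4 : ‖c - P‖ ^ 2 / 2 - A - ‖u‖ ^ 2 ≤ f (c + u) := by
      nlinarith [sq_nonneg (‖c + u - P‖ - ‖u‖)]
    have := mul_le_mul_of_nonneg_right h4 (g_pos u).le
    simp only
    linarith
  rw [integral_sub i1 (mom2_integrable hn), integral_const_mul] at h
  have := mom2_le hn
  change (‖c - P‖ ^ 2 / 2 - A) * Z n - _ ≤ _ at h
  linarith

lemma phi_upper (hn : 1 ≤ n) {f : V n → ℝ} (hc : Continuous f) (hq : QG f) {P : V n} {B : ℝ}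
    (hu : ∀ w, f w ≤ 4 * ‖w - P‖ ^ 2 + B) : Phi f P ≤ Z n * (8 + B) := by
  have i1 : Integrable (fun u => B * g n u) := (g_integrable hn).const_mul _
  have i2 : Integrable (fun u : V n => 4 * (‖u‖ ^ 2 * g n u)) := (mom2_integrable hn).const_mul _
  have h : Phi f P ≤ ∫ u, (4 * (‖u‖ ^ 2 * g n u) + B * g n u) := by
    refine integral_mono (phi_integrable hn hc hq P) (i2.add i1) fun u => ?_
    have h1 := hu (P + u)
    rw [add_sub_cancel_left] at h1
    have := mul_le_mul_of_nonneg_right h1 (g_pos u).le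
    simp only
    linarith
  rw [integral_add i2 i1, integral_const_mul, integral_const_mul] at h
  have := mom2_le hn
  change _ ≤ 4 * _ + B * Z n at h
  linarith

lemma exists_min (hn : 1 ≤ n) {f : V n → ℝ} (hs : SC f) (hq : QG f) {P : V n} {A : ℝ}
    (hl : ∀ w, ‖w - P‖ ^ 2 - A ≤ f w) : ∃ a, ∀ c, Phi f a ≤ Phi f c := by
  have hZ := Z_pos hn
  have hc : Continuous (Phi f) := cont_of_cvx hZ.le (phi_sc hn hs hq)
  set ρ : ℝ := 2 * (|Phi f P / Z n| + |A| + 2) + 1 with hρ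
  have hρ1 : 1 ≤ ρ := by
    have := abs_nonneg (Phi f P / Z n); have := abs_nonneg A; linarith
  refine hc.exists_forall_le' P ?_
  have hK : IsCompact (Metric.closedBall P ρ) := isCompact_closedBall _ _
  filter_upwards [hK.compl_mem_cocompact] with c hcm
  have h1 : ρ < ‖c - P‖ := by
    simpa [Metric.mem_closedBall, dist_eq_norm] using hcm
  have h2 := phi_lower hn hs.cont hq hl c
  have h3 : Phi f P / Z n ≤ ‖c - P‖ ^ 2 / 2 - A - 2 := by
    have := le_abs_self (Phi f P / Z n); have := le_abs_self A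
    nlinarith
  rw [div_le_iff₀ hZ] at h3
  linarith

lemma min_loc (hn : 1 ≤ n) {f : V n → ℝ} (hs : SC f) (hq : QG f) {P : V n} {A B : ℝ}
    (hl : ∀ w, ‖w - P‖ ^ 2 - A ≤ f w) (hu : ∀ w, f w ≤ 4 * ‖w - P‖ ^ 2 + B) {a : V n}
    (ha : ∀ c, Phi f a ≤ Phi f c) : ‖a - P‖ ^ 2 ≤ 20 + 2 * A + 2 * B := by
  have hZ := Z_pos hn
  have h1 := phi_lower hn hs.cont hq hl a
  have h2 := phi_upper hn hs.cont hq hu
  have h3 := ha P
  have h4 : Z n * (‖a - P‖ ^ 2 / 2 - A - 2) ≤ Z n * (8 + B) := by linarith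
  have := le_of_mul_le_mul_left h4 hZ
  linarith

lemma Wsq_int (hn : 1 ≤ n) (c : V n) {K : ℝ} (hc : ‖c‖ ≤ K) :
    ∫ u, (1 + ‖c + u‖ ^ 2) ^ 2 * g n u ≤ 2 * (2 + 2 * K ^ 2) ^ 2 * Z n := by
  refine integral_le_of_le hn (F := fun u => (1 + ‖c + u‖ ^ 2) ^ 2) (by fun_prop) (by positivity)
    fun u => ?_
  rw [abs_of_nonneg (by positivity)]
  refine (W_sq_le c u).trans ?_
  gcongr

lemma Wsq_integrable (hn : 1 ≤ n) (c : V n) :
    Integrable fun u => (1 + ‖c + u‖ ^ 2) ^ 2 * g n u :=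
  integrable_of_le hn (F := fun u => (1 + ‖c + u‖ ^ 2) ^ 2) (by fun_prop)
    (A := (2 + 2 * ‖c‖ ^ 2) ^ 2) fun u => by
      rw [abs_of_nonneg (by positivity)]; exact W_sq_le c u

lemma core_key (hn : 1 ≤ n) {f f' : V n → ℝ} (hs : SC f) (hq : QG f) (hs' : SC f') (hq' : QG f')
    {b : V n} (h0 : ∀ c, Phi f 0 ≤ Phi f c) (hb : ∀ c, Phi f' b ≤ Phi f' c) :
    Integrable (fun w => (f w - f' w) * (g n (w - b) - g n w)) ∧
    Z n * ‖b‖ ^ 2 ≤ ∫ w, (f w - f' w) * (g n (w - b) - g n w) := by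
  have g1 := phi_min_gap hn hs hq h0 b
  have g2 := phi_min_gap hn hs' hq' hb 0
  rw [zero_sub, norm_neg] at g1
  rw [sub_zero] at g2
  have sh : ∀ F : V n → ℝ, Continuous F → QG F →
      Integrable (fun w => F w * g n (w - b)) ∧ ∫ w, F w * g n (w - b) = Phi F b := by
    intro F hF hQ
    have i := (phi_integrable hn hF hQ b).comp_sub_right b
    have e : (fun w => F w * g n (w - b)) = fun w => F (b + (w - b)) * g n (w - b) := by
      funext w; rw [add_sub_cancel]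
    refine ⟨by rw [e]; exact i, ?_⟩
    rw [e]
    exact integral_sub_right_eq_self (fun u => F (b + u) * g n u) b
  have sh0 : ∀ F : V n → ℝ, Continuous F → QG F →
      Integrable (fun w => F w * g n w) ∧ ∫ w, F w * g n w = Phi F 0 := by
    intro F hF hQ
    have i := phi_integrable hn hF hQ 0
    simp only [zero_add] at i
    exact ⟨i, by simp [Phi]⟩
  obtain ⟨i1, e1⟩ := sh f hs.cont hq
  obtain ⟨i2, e2⟩ := sh f' hs'.cont hq'
  obtain ⟨i3, e3⟩ := sh0 f hs.cont hq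
  obtain ⟨i4, e4⟩ := sh0 f' hs'.cont hq'
  have e : (fun w => (f w - f' w) * (g n (w - b) - g n w)) = fun w =>
      (f w * g n (w - b) - f' w * g n (w - b)) - (f w * g n w - f' w * g n w) := by
    funext w; ring
  have j1 : Integrable fun w => f w * g n (w - b) - f' w * g n (w - b) := i1.sub i2
  have j2 : Integrable fun w => f w * g n w - f' w * g n w := i3.sub i4
  rw [e]
  refine ⟨j1.sub j2, ?_⟩
  rw [integral_sub j1 j2, integral_sub i1 i2, integral_sub i3 i4, e1, e2, e3, e4]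
  linarith

lemma Wsum (hn : 1 ≤ n) {b : V n} {K : ℝ} (hK : ‖b‖ ≤ K) :
    Integrable (fun w => (1 + ‖w‖ ^ 2) ^ 2 * (g n (w - b) + g n w)) ∧
    ∫ w, (1 + ‖w‖ ^ 2) ^ 2 * (g n (w - b) + g n w) ≤ 4 * (2 + 2 * K ^ 2) ^ 2 * Z n := by
  have i1 := (Wsq_integrable hn b).comp_sub_right b
  have i2 := Wsq_integrable hn (0 : V n)
  have a1 := Wsq_int hn b hK
  have a2 := Wsq_int hn (0 : V n) (K := K) (by rw [norm_zero]; exact (norm_nonneg b).trans hK)
  rw [← integral_sub_right_eq_self (fun u => (1 + ‖b + u‖ ^ 2) ^ 2 * g n u) b] at a1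
  simp only [add_sub_cancel, zero_add] at i1 i2 a1 a2
  have e : (fun w => (1 + ‖w‖ ^ 2) ^ 2 * (g n (w - b) + g n w)) = fun w =>
      (1 + ‖w‖ ^ 2) ^ 2 * g n (w - b) + (1 + ‖w‖ ^ 2) ^ 2 * g n w := by
    funext w; ring
  rw [e]
  refine ⟨i1.add i2, ?_⟩
  rw [integral_add i1 i2]
  linarith

theorem core (hn : 1 ≤ n) {f f' : V n → ℝ} (hs : SC f) (hq : QG f) (hs' : SC f') (hq' : QG f')
    {b : V n} (h0 : ∀ c, Phi f 0 ≤ Phi f c) (hb : ∀ c, Phi f' b ≤ Phi f' c) {ε K : ℝ}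
    (hε : 0 ≤ ε) (hK : ‖b‖ ≤ K) (hd : ∀ w, |f w - f' w| ≤ ε * (1 + ‖w‖ ^ 2)) :
    ‖b‖ ^ 2 ≤ 4 * (2 + 2 * K ^ 2) ^ 2 * ε ∧
      ‖b‖ ≤ (1 + 4 * (2 + 2 * K ^ 2) ^ 2) * ε * √n := by
  have hZ := Z_pos hn
  obtain ⟨ik, hk⟩ := core_key hn hs hq hs' hq' h0 hb
  obtain ⟨iw, hw⟩ := Wsum hn hK
  set L : ℝ := 4 * (2 + 2 * K ^ 2) ^ 2 with hL
  have hL0 : 0 ≤ L := by positivity
  constructor
  · have h : ∫ w, (f w - f' w) * (g n (w - b) - g n w) ≤
        ∫ w, ε * ((1 + ‖w‖ ^ 2) ^ 2 * (g n (w - b) + g n w)) := by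
      refine integral_mono ik (iw.const_mul _) fun w => ?_
      have h1 := hd w
      have p1 := g_pos (w - b)
      have p2 := g_pos w
      have h2 : |g n (w - b) - g n w| ≤ g n (w - b) + g n w := by
        rw [abs_le]; constructor <;> linarith
      have h3 : 1 + ‖w‖ ^ 2 ≤ (1 + ‖w‖ ^ 2) ^ 2 := by nlinarith [sq_nonneg ‖w‖]
      simp only
      calc (f w - f' w) * (g n (w - b) - g n w) ≤ |f w - f' w| * |g n (w - b) - g n w| := by
            rw [← abs_mul]; exact le_abs_self _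
        _ ≤ (ε * (1 + ‖w‖ ^ 2) ^ 2) * (g n (w - b) + g n w) := by
            gcongr
            exact h1.trans (by gcongr)
        _ = _ := by ring
    rw [integral_const_mul] at h
    have h2 : Z n * ‖b‖ ^ 2 ≤ Z n * (L * ε) := by nlinarith
    exact le_of_mul_le_mul_left h2 hZ
  · rcases eq_or_lt_of_le (norm_nonneg b) with hb0 | hb0
    · rw [← hb0]; positivity
    have hn0 : (0 : ℝ) < n := by exact_mod_cast hn
    have hs0 : 0 < √(n : ℝ) := sqrt_pos.2 hn0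
    have hss : √(n : ℝ) * √(n : ℝ) = n := mul_self_sqrt hn0.le
    set τ : ℝ := √n * ‖b‖ with hτ
    have hτ0 : 0 < τ := by positivity
    have ih := hell_integrable hn b
    have hh := hell_int hn b
    have i1 : Integrable fun w => ε * ((1 / (2 * τ)) * (q n (w - b) - q n w) ^ 2) :=
      (ih.const_mul _).const_mul _
    have i2 : Integrable fun w => ε * (τ * ((1 + ‖w‖ ^ 2) ^ 2 * (g n (w - b) + g n w))) :=
      (iw.const_mul _).const_mul _
    have h : ∫ w, (f w - f' w) * (g n (w - b) - g n w) ≤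
        ∫ w, (ε * ((1 / (2 * τ)) * (q n (w - b) - q n w) ^ 2) +
          ε * (τ * ((1 + ‖w‖ ^ 2) ^ 2 * (g n (w - b) + g n w)))) := by
      refine integral_mono ik (i1.add i2) fun w => ?_
      have h1 := hd w
      have p1 := q_pos (w - b)
      have p2 := q_pos w
      simp only
      rw [← q_sq, ← q_sq]
      set x := q n (w - b)
      set y := q n w
      set W := 1 + ‖w‖ ^ 2 with hW
      have hW0 : 0 ≤ W := by positivity
      have h2 : |x ^ 2 - y ^ 2| = |x - y| * (x + y) := by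
        rw [← abs_of_pos (by linarith : 0 < x + y), ← abs_mul]; congr 1; ring
      have h3 : W * (|x - y| * (x + y)) ≤
          (1 / (2 * τ)) * (x - y) ^ 2 + τ * (W ^ 2 * (x ^ 2 + y ^ 2)) := by
        have e1 : (x - y) ^ 2 = |x - y| ^ 2 := (sq_abs _).symm
        rw [e1]
        set D := |x - y|
        have h4 : W * (D * (x + y)) ≤ (1 / (2 * τ)) * D ^ 2 + τ / 2 * (W * (x + y)) ^ 2 := by
          have e2 : (1 / (2 * τ)) * D ^ 2 + τ / 2 * (W * (x + y)) ^ 2 - W * (D * (x + y)) =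
              (D - τ * (W * (x + y))) ^ 2 / (2 * τ) := by field_simp; ring
          have : 0 ≤ (D - τ * (W * (x + y))) ^ 2 / (2 * τ) := by positivity
          linarith
        have h5 : (W * (x + y)) ^ 2 ≤ 2 * (W ^ 2 * (x ^ 2 + y ^ 2)) := by
          have : 0 ≤ W ^ 2 * (x - y) ^ 2 := by positivity
          nlinarith
        nlinarith
      calc (f w - f' w) * (x ^ 2 - y ^ 2) ≤ |f w - f' w| * |x ^ 2 - y ^ 2| := by
            rw [← abs_mul]; exact le_abs_self _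
        _ ≤ (ε * W) * |x ^ 2 - y ^ 2| := by gcongr
        _ = ε * (W * (|x - y| * (x + y))) := by rw [h2]; ring
        _ ≤ ε * ((1 / (2 * τ)) * (x - y) ^ 2 + τ * (W ^ 2 * (x ^ 2 + y ^ 2))) := by gcongr
        _ = _ := by ring
    rw [integral_add i1 i2, integral_const_mul, integral_const_mul, integral_const_mul,
      integral_const_mul] at h
    have a1 : (1 / (2 * τ)) * ∫ w, (q n (w - b) - q n w) ^ 2 ≤ τ * Z n := by
      calc _ ≤ (1 / (2 * τ)) * (2 * n * ‖b‖ ^ 2 * Z n) := by gcongr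
        _ = τ * Z n := by
          have : (n : ℝ) * ‖b‖ ^ 2 = τ ^ 2 := by rw [hτ, mul_pow, sq (√(n : ℝ)), hss]
          rw [mul_assoc 2, this]; field_simp
    have a2 : τ * ∫ w, (1 + ‖w‖ ^ 2) ^ 2 * (g n (w - b) + g n w) ≤ τ * (L * Z n) := by gcongr
    have a3 : Z n * ‖b‖ ^ 2 ≤ ε * (τ * Z n) + ε * (τ * (L * Z n)) := by
      have := mul_le_mul_of_nonneg_left a1 hε
      have := mul_le_mul_of_nonneg_left a2 hε
      linarith
    have a4 : (Z n * ‖b‖) * ‖b‖ ≤ (Z n * ‖b‖) * ((1 + L) * ε * √n) := by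
      rw [hτ] at a3; nlinarith
    exact le_of_mul_le_mul_left a4 (by positivity)

end H93Hol
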