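import Pool.Agent.H93.Hol2

namespace H93Hol
open MeasureTheory Real

variable {n : ℕ} {ι : Type*}

/-- The penalised farthest-distance function of a configuration. -/
noncomputable def fn (P : ι → V n) (R : ι → ℝ) (w : V n) : ℝ :=
  ⨆ z, (‖w - P z‖ ^ 2 - 4 * R z ^ 2)

/-- Admissible configurations. -/
def Adm (P : ι → V n) (R : ι → ℝ) : Prop :=
  (∀ z, 0 ≤ R z) ∧ ∀ z z', ‖P z - P z'‖ ≤ R z + R z'

variable {P P' : ι → V n} {R R' : ι → ℝ}

lemma term_le (h : Adm P R) (z0 z : ι) (w : V n) :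
    ‖w - P z‖ ^ 2 - 2 * R z ^ 2 ≤ 4 * ‖w - P z0‖ ^ 2 + 4 * R z0 ^ 2 := by
  have h1 : ‖w - P z‖ ≤ ‖w - P z0‖ + (R z0 + R z) := by
    have : w - P z = (w - P z0) + (P z0 - P z) := by abel
    rw [this]; exact (norm_add_le _ _).trans (by gcongr; exact h.2 z0 z)
  have h2 : ‖w - P z‖ ^ 2 ≤ (‖w - P z0‖ + (R z0 + R z)) ^ 2 := by gcongr
  nlinarith [sq_nonneg (‖w - P z0‖ + R z0 - R z), sq_nonneg (‖w - P z0‖ - R z0)]

lemma bdd (h : Adm P R) (z0 : ι) (w : V n) :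
    BddAbove (Set.range fun z => ‖w - P z‖ ^ 2 - 4 * R z ^ 2) := by
  refine ⟨4 * ‖w - P z0‖ ^ 2 + 4 * R z0 ^ 2, ?_⟩
  rintro _ ⟨z, rfl⟩
  have := term_le h z0 z w
  simp only
  nlinarith [sq_nonneg (R z)]

lemma fn_lower (h : Adm P R) (z : ι) (w : V n) : ‖w - P z‖ ^ 2 - 4 * R z ^ 2 ≤ fn P R w :=
  le_ciSup (bdd h z w) z

lemma fn_upper (h : Adm P R) (z0 : ι) (w : V n) :
    fn P R w ≤ 4 * ‖w - P z0‖ ^ 2 + 4 * R z0 ^ 2 := by
  have : Nonempty ι := ⟨z0⟩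
  refine ciSup_le fun z => ?_
  have := term_le h z0 z w
  nlinarith [sq_nonneg (R z)]

lemma nsq_cvx (x y : V n) (t : ℝ) :
    ‖t • x + (1 - t) • y‖ ^ 2 = t * ‖x‖ ^ 2 + (1 - t) * ‖y‖ ^ 2 - t * (1 - t) * ‖x - y‖ ^ 2 := by
  rw [@norm_add_sq_real, @norm_sub_sq_real, norm_smul, norm_smul, inner_smul_left,
    inner_smul_right, mul_pow, mul_pow, Real.norm_eq_abs, Real.norm_eq_abs, sq_abs, sq_abs]
  simp only [conj_trivial]
  ring

lemma fn_sc (h : Adm P R) (z0 : ι) : SC (fn P R) := by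
  have : Nonempty ι := ⟨z0⟩
  intro a b t h0 h1
  refine ciSup_le fun z => ?_
  have e : t • a + (1 - t) • b - P z = t • (a - P z) + (1 - t) • (b - P z) := by
    simp only [smul_sub, sub_smul, one_smul]; abel
  have e2 : a - P z - (b - P z) = a - b := by abel
  rw [e, nsq_cvx, e2]
  have h2 := mul_le_mul_of_nonneg_left (fn_lower h z a) h0
  have h3 := mul_le_mul_of_nonneg_left (fn_lower h z b) (by linarith : 0 ≤ 1 - t)
  nlinarith

lemma fn_qg (h : Adm P R) (z0 : ι) : QG (fn P R) := by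
  refine ⟨8 + 8 * ‖P z0‖ ^ 2 + 4 * R z0 ^ 2, by positivity, fun w => ?_⟩
  have h1 := fn_lower h z0 w
  have h2 := fn_upper h z0 w
  have h3 : ‖w - P z0‖ ^ 2 ≤ (‖w‖ + ‖P z0‖) ^ 2 := by gcongr; exact norm_sub_le _ _
  have h4 : 0 ≤ (8 * ‖P z0‖ ^ 2 + 4 * R z0 ^ 2) * ‖w‖ ^ 2 := by positivity
  rw [abs_le]
  constructor <;> nlinarith [sq_nonneg (‖w‖ - ‖P z0‖), sq_nonneg ‖w - P z0‖, sq_nonneg ‖w‖,
    sq_nonneg ‖P z0‖, sq_nonneg (R z0)]

/-- Smoothed centre of a configuration. -/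
def IsCtr (P : ι → V n) (R : ι → ℝ) (a : V n) : Prop := ∀ c, Phi (fn P R) a ≤ Phi (fn P R) c

lemma exists_ctr (hn : 1 ≤ n) (h : Adm P R) (z0 : ι) : ∃ a, IsCtr P R a :=
  exists_min hn (fn_sc h z0) (fn_qg h z0) (fn_lower h z0)

lemma ctr_loc (hn : 1 ≤ n) (h : Adm P R) (h1 : ∀ z, 1 ≤ R z) {a : V n} (ha : IsCtr P R a) (z : ι) :
    ‖a - P z‖ ≤ 6 * R z := by
  have := min_loc hn (fn_sc h z) (fn_qg h z) (fn_lower h z) (fn_upper h z) ha
  have h2 := h1 z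
  refine abs_le_of_sq_le_sq' ?_ (by linarith) |>.2
  nlinarith

lemma ctr_shift {a : V n} (ha : IsCtr P R a) (v : V n) : IsCtr (fun z => P z - v) R (a - v) := by
  have e : ∀ c, Phi (fn (fun z => P z - v) R) c = Phi (fn P R) (c + v) := by
    intro c
    unfold Phi fn
    congr 1; funext u; congr 2; funext z; congr 3; simp only; abel
  intro c
  rw [e, e, sub_add_cancel]
  exact ha _

lemma pert (h : Adm P R) {η : ℝ} (hη0 : 0 ≤ η) (hη : η ≤ 1 / 226) (hP : ∀ z, ‖P z‖ ≤ 12 * R z)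
    (hPP : ∀ z, ‖P z - P' z‖ ≤ 12 * η * R z) (hR : ∀ z, (1 - η) * R z ≤ R' z) {z0 : ι}
    (hz0 : R z0 ≤ 3) (w : V n) :
    fn P' R' w ≤ fn P R w + 3000000 * η * (1 + ‖w‖ ^ 2) := by
  have : Nonempty ι := ⟨z0⟩
  refine ciSup_le fun z => ?_
  have r0 := h.1 z
  have r00 := h.1 z0
  have h1 : ‖w - P' z‖ ≤ ‖w - P z‖ + 12 * η * R z := by
    have : w - P' z = (w - P z) + (P z - P' z) := by abel
    rw [this]; exact (norm_add_le _ _).trans (by gcongr; exact hPP z)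
  have h2 : ‖w - P' z‖ ^ 2 ≤ (‖w - P z‖ + 12 * η * R z) ^ 2 := by gcongr
  have h3 : ‖w - P z‖ ≤ ‖w‖ + 12 * R z := (norm_sub_le _ _).trans (by gcongr; exact hP z)
  have h4 : ((1 - η) * R z) ^ 2 ≤ R' z ^ 2 := by
    have : 0 ≤ (1 - η) * R z := mul_nonneg (by linarith) r0
    gcongr; exact hR z
  have h5 : η * R z * ‖w - P z‖ ≤ η * R z * (‖w‖ + 12 * R z) := by gcongr
  have h6 : η * (2 * R z * ‖w‖) ≤ η * (R z ^ 2 + ‖w‖ ^ 2) := by
    gcongr; nlinarith [sq_nonneg (R z - ‖w‖)]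
  have h7 : η * η * R z ^ 2 ≤ η * R z ^ 2 := by
    have : η * η ≤ η := by nlinarith
    gcongr
  have h7' : 0 ≤ η * η * R z ^ 2 := by positivity
  have t1 : ‖w - P' z‖ ^ 2 - 4 * R' z ^ 2 ≤
      ‖w - P z‖ ^ 2 - 4 * R z ^ 2 + 12 * η * ‖w‖ ^ 2 + 452 * η * R z ^ 2 := by
    nlinarith
  have l1 := fn_lower h z w
  have l2 := term_le h z0 z w
  have l3 := fn_lower h z0 w
  have h8 : ‖w - P z0‖ ≤ ‖w‖ + 36 := (norm_sub_le _ _).trans (by linarith [hP z0])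
  have h9 : ‖w - P z0‖ ^ 2 ≤ (‖w‖ + 36) ^ 2 := by gcongr
  have h10 : R z0 ^ 2 ≤ 3 ^ 2 := by gcongr
  have u1 : ‖w - P z‖ ^ 2 - 2 * R z ^ 2 ≤ 8 * ‖w‖ ^ 2 + 10404 := by
    nlinarith [sq_nonneg (‖w‖ - 36)]
  have u2 : -36 ≤ fn P R w := by nlinarith [sq_nonneg ‖w - P z0‖]
  have m1 := mul_le_mul_of_nonneg_left l1 (by linarith : 0 ≤ 1 - 226 * η)
  have m2 := mul_le_mul_of_nonneg_left u1 (by linarith : 0 ≤ 226 * η)
  have m3 := mul_le_mul_of_nonneg_left u2 (by linarith : 0 ≤ 226 * η)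
  have m4 : 0 ≤ η * ‖w‖ ^ 2 := by positivity
  nlinarith

lemma adm_scale {p : ι → V n} {r : ι → ℝ} (h : Adm p r) {H : ℝ} (hH : 0 < H) (a : V n) :
    Adm (fun z => H⁻¹ • p z - a) (fun z => r z / H) := by
  refine ⟨fun z => div_nonneg (h.1 z) hH.le, fun z z' => ?_⟩
  simp only
  rw [sub_sub_sub_cancel_right, ← smul_sub, norm_smul, Real.norm_eq_abs, abs_of_pos (inv_pos.2 hH),
    ← add_div, div_eq_inv_mul]
  gcongr
  exact h.2 z z'

/-- The scaled centre. -/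
def SCtr (p : ι → V n) (r : ι → ℝ) (H : ℝ) (a : V n) : Prop :=
  IsCtr (fun z => H⁻¹ • p z) (fun z => r z / H) (H⁻¹ • a)

lemma exists_sctr (hn : 1 ≤ n) {p : ι → V n} {r : ι → ℝ} (h : Adm p r) {H : ℝ} (hH : 0 < H)
    (z0 : ι) : ∃ a, SCtr p r H a := by
  have h1 := adm_scale h hH 0
  simp only [sub_zero] at h1
  obtain ⟨b, hb⟩ := exists_ctr hn h1 z0
  refine ⟨H • b, ?_⟩
  unfold SCtr
  rw [smul_smul, inv_mul_cancel₀ hH.ne', one_smul]
  exact hb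

lemma sctr_loc (hn : 1 ≤ n) {p : ι → V n} {r : ι → ℝ} (h : Adm p r) {H : ℝ} (hH : 0 < H)
    (hr : ∀ z, H ≤ r z) {a : V n} (ha : SCtr p r H a) (z : ι) : ‖a - p z‖ ≤ 6 * r z := by
  have h1 := adm_scale h hH 0
  simp only [sub_zero] at h1
  have := ctr_loc hn h1 (fun z => by rw [le_div_iff₀ hH]; linarith [hr z]) ha z
  rw [← smul_sub, norm_smul, Real.norm_eq_abs, abs_of_pos (inv_pos.2 hH), div_eq_inv_mul,
    mul_left_comm] at this
  exact le_of_mul_le_mul_left this (inv_pos.2 hH)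

/-- The constant. -/
noncomputable def L0 : ℝ := 4 * (2 + 2 * 54 ^ 2) ^ 2

theorem compare (hn : 1 ≤ n) {p : ι → V n} {r r' : ι → ℝ} (h : Adm p r) (h' : Adm p r')
    {H H' s : ℝ} (hH : 0 < H) (hs0 : 0 ≤ s) (hs : s ≤ 1 / 1000) (hr : ∀ z, H ≤ r z)
    {z0 : ι} (hz0 : r z0 ≤ 2 * H) (hr1 : ∀ z, (1 - s) * r z ≤ r' z)
    (hr2 : ∀ z, r' z ≤ (1 + s) * r z) (hH1 : (1 - s) * H ≤ H') (hH2 : H' ≤ (1 + s) * H)
    {a a' : V n} (ha : SCtr p r H a) (ha' : SCtr p r' H' a') (hr' : ∀ z, H' ≤ r' z) :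
    ‖a' - a‖ ^ 2 ≤ 4 * H ^ 2 * (L0 * (9000000 * s)) ∧
      ‖a' - a‖ ≤ 2 * H * ((1 + L0) * (9000000 * s) * √n) := by
  have hH' : 0 < H' := lt_of_lt_of_le (by nlinarith) hH1
  have c1 := ctr_shift ha (H⁻¹ • a)
  have c2 := ctr_shift ha' (H'⁻¹ • a)
  rw [sub_self] at c1
  have A1 := adm_scale h hH (H⁻¹ • a)
  have A2 := adm_scale h' hH' (H'⁻¹ • a)
  have loc := sctr_loc hn h hH hr ha
  have loc' := sctr_loc hn h' hH' hr' ha'
  set P : ι → V n := fun z => H⁻¹ • p z - H⁻¹ • a with hP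
  set P' : ι → V n := fun z => H'⁻¹ • p z - H'⁻¹ • a with hP'
  set R : ι → ℝ := fun z => r z / H with hR
  set R' : ι → ℝ := fun z => r' z / H' with hR'
  have nP : ∀ z, ‖P z‖ = ‖a - p z‖ / H := fun z => by
    simp only [hP]
    rw [← smul_sub, norm_smul, Real.norm_eq_abs, abs_of_pos (inv_pos.2 hH), norm_sub_rev,
      div_eq_inv_mul]
  have nP' : ∀ z, ‖P' z‖ = ‖a - p z‖ / H' := fun z => by
    simp only [hP']
    rw [← smul_sub, norm_smul, Real.norm_eq_abs, abs_of_pos (inv_pos.2 hH'), norm_sub_rev,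
      div_eq_inv_mul]
  have nPP : ∀ z, ‖P z - P' z‖ ≤ s * ‖a - p z‖ / H' := fun z => by
    have e : P z - P' z = ((H' - H) / (H * H')) • (p z - a) := by
      have : (H' - H) / (H * H') = H⁻¹ - H'⁻¹ := by field_simp
      simp only [hP, hP', this, sub_smul, smul_sub]; abel
    rw [e, norm_smul, Real.norm_eq_abs, abs_div, abs_of_pos (mul_pos hH hH'), norm_sub_rev]
    have : |H' - H| ≤ s * H := by rw [abs_le]; constructor <;> linarith
    calc |H' - H| / (H * H') * ‖a - p z‖ ≤ s * H / (H * H') * ‖a - p z‖ := by gcongr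
      _ = _ := by field_simp
  have r0 := h.1
  have r0' := h'.1
  have hrr : ∀ z, r z ≤ 2 * r' z := fun z => by nlinarith [hr1 z, r0 z]
  have hHH : H ≤ 2 * H' := by nlinarith
  have b1 : ∀ z, ‖P z‖ ≤ 12 * R z := fun z => by
    rw [nP]; simp only [hR]; rw [← mul_div_assoc]; gcongr; linarith [loc z, r0 z]
  have b2 : ∀ z, ‖P' z‖ ≤ 12 * R' z := fun z => by
    rw [nP']; simp only [hR']; rw [← mul_div_assoc]; gcongr; linarith [loc z, hrr z]
  have b3 : ∀ z, ‖P z - P' z‖ ≤ 12 * (3 * s) * R z := fun z => by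
    refine (nPP z).trans ?_
    simp only [hR]
    rw [← mul_div_assoc, div_le_div_iff₀ hH' hH]
    have e1 : s * ‖a - p z‖ * H ≤ s * (6 * r z) * (2 * H') := by
      have := r0 z
      gcongr; exact loc z
    have : 0 ≤ s * r z * H' := by have := r0 z; positivity
    nlinarith
  have b4 : ∀ z, ‖P' z - P z‖ ≤ 12 * (3 * s) * R' z := fun z => by
    rw [norm_sub_rev]
    refine (nPP z).trans ?_
    simp only [hR']
    rw [← mul_div_assoc]
    gcongr ?_ / _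
    have e1 : s * ‖a - p z‖ ≤ s * (12 * r' z) := by gcongr; linarith [loc z, hrr z]
    have : 0 ≤ s * r' z := by have := r0' z; positivity
    nlinarith
  have b5 : ∀ z, (1 - 3 * s) * R z ≤ R' z := fun z => by
    simp only [hR, hR']
    rw [← mul_div_assoc, div_le_div_iff₀ hH hH']
    have e1 : (1 - 3 * s) * r z * H' ≤ (1 - 3 * s) * r z * ((1 + s) * H) := by
      have : 0 ≤ (1 - 3 * s) * r z := mul_nonneg (by linarith) (r0 z)
      gcongr
    have e2 : (1 - s) * r z * H ≤ r' z * H := by gcongr; exact hr1 z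
    have : 0 ≤ s * (r z * H) := by have := r0 z; positivity
    have : 0 ≤ s * s * (r z * H) := by have := r0 z; positivity
    nlinarith
  have b6 : ∀ z, (1 - 3 * s) * R' z ≤ R z := fun z => by
    simp only [hR, hR']
    rw [← mul_div_assoc, div_le_div_iff₀ hH' hH]
    have e1 : (1 - 3 * s) * r' z * H ≤ (1 - 3 * s) * ((1 + s) * r z) * H := by
      have : 0 ≤ (1 - 3 * s) := by linarith
      gcongr; exact hr2 z
    have e2 : r z * ((1 - s) * H) ≤ r z * H' := by have := r0 z; gcongr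
    have : 0 ≤ s * (r z * H) := by have := r0 z; positivity
    have : 0 ≤ s * s * (r z * H) := by have := r0 z; positivity
    nlinarith
  have b7 : R z0 ≤ 3 := by simp only [hR]; rw [div_le_iff₀ hH]; linarith
  have b8 : R' z0 ≤ 3 := by
    simp only [hR']; rw [div_le_iff₀ hH']
    have := hr2 z0
    have := r0 z0
    nlinarith
  have p1 := pert A1 (η := 3 * s) (by linarith) (by linarith) b1 b3 b5 b7
  have p2 := pert A2 (η := 3 * s) (by linarith) (by linarith) b2 b4 b6 b8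
  have nb : ‖H'⁻¹ • a' - H'⁻¹ • a‖ = ‖a' - a‖ / H' := by
    rw [← smul_sub, norm_smul, Real.norm_eq_abs, abs_of_pos (inv_pos.2 hH'), div_eq_inv_mul]
  have hK : ‖H'⁻¹ • a' - H'⁻¹ • a‖ ≤ 54 := by
    rw [nb, div_le_iff₀ hH']
    have e : a' - a = (a' - p z0) - (a - p z0) := by abel
    have h1 : ‖a' - a‖ ≤ ‖a' - p z0‖ + ‖a - p z0‖ := by rw [e]; exact norm_sub_le _ _
    have h2 : r' z0 ≤ 3 * H' := by simpa only [hR', div_le_iff₀ hH'] using b8
    linarith [loc z0, loc' z0, hrr z0]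
  obtain ⟨k1, k2⟩ := core hn (fn_sc A1 z0) (fn_qg A1 z0) (fn_sc A2 z0) (fn_qg A2 z0) c1 c2
    (ε := 9000000 * s) (by positivity) hK fun w => by
      rw [abs_le]; constructor <;> linarith [p1 w, p2 w]
  rw [nb] at k1 k2
  have hH3 : H' ≤ 2 * H := by nlinarith
  have hL : 0 ≤ L0 := by unfold L0; positivity
  constructor
  · rw [div_pow, div_le_iff₀ (by positivity)] at k1
    calc ‖a' - a‖ ^ 2 ≤ L0 * (9000000 * s) * H' ^ 2 := k1
      _ ≤ L0 * (9000000 * s) * (2 * H) ^ 2 := by gcongr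
      _ = _ := by ring
  · rw [div_le_iff₀ hH'] at k2
    calc ‖a' - a‖ ≤ (1 + L0) * (9000000 * s) * √n * H' := k2
      _ ≤ (1 + L0) * (9000000 * s) * √n * (2 * H) := by gcongr
      _ = _ := by ring

end H93Hol
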