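import Pool.Agent.H93.Hol3

namespace H93Hol
open MeasureTheory Real

variable {n : ℕ}

lemma limit_point {ι : Type*} {p : ι → V n} {r : ι → ℝ} (h : Adm p r)
    (h0 : ∀ δ : ℝ, 0 < δ → ∃ z, r z < δ) : ∃ a, ∀ z, ‖a - p z‖ ≤ 6 * r z := by
  choose zs hzs using fun k : ℕ => h0 (1 / ((k : ℝ) + 1)) (by positivity)
  have hc : CauchySeq fun k => p (zs k) := by
    refine cauchySeq_of_le_tendsto_0 (fun N : ℕ => 2 * (1 / ((N : ℝ) + 1))) ?_ ?_
    · intro k m N hk hm
      rw [dist_eq_norm]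
      have h1 : 1 / ((k : ℝ) + 1) ≤ 1 / ((N : ℝ) + 1) := by gcongr
      have h2 : 1 / ((m : ℝ) + 1) ≤ 1 / ((N : ℝ) + 1) := by gcongr
      linarith [h.2 (zs k) (zs m), hzs k, hzs m]
    · simpa using tendsto_one_div_add_atTop_nhds_zero_nat.const_mul (2 : ℝ)
  obtain ⟨a, ha⟩ := cauchySeq_tendsto_of_complete hc
  refine ⟨a, fun z => ?_⟩
  have t1 : Filter.Tendsto (fun k => ‖p (zs k) - p z‖) Filter.atTop (nhds ‖a - p z‖) :=
    (ha.sub_const _).norm
  have t2 : Filter.Tendsto (fun k : ℕ => 1 / ((k : ℝ) + 1) + r z) Filter.atTop (nhds (0 + r z)) :=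
    tendsto_one_div_add_atTop_nhds_zero_nat.add_const _
  have := le_of_tendsto_of_tendsto' t1 t2 fun k => by linarith [h.2 (zs k) z, hzs k]
  linarith [h.1 z]

lemma rpow_lo {α s x y : ℝ} (h0 : 0 ≤ α) (h1 : α ≤ 1) (hs0 : 0 ≤ s) (hs : s ≤ 1) (hx : 0 ≤ x)
    (hxy : (1 - s) * x ≤ y) : (1 - s) * x ^ α ≤ y ^ α := by
  have hs' : 0 ≤ 1 - s := by linarith
  calc (1 - s) * x ^ α ≤ (1 - s) ^ α * x ^ α := by
        gcongr
        calc 1 - s = (1 - s) ^ (1 : ℝ) := (rpow_one _).symm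
          _ ≤ (1 - s) ^ α := rpow_le_rpow_of_exponent_ge' hs' (by linarith) h0 h1
    _ = ((1 - s) * x) ^ α := (mul_rpow hs' hx).symm
    _ ≤ y ^ α := rpow_le_rpow (by positivity) hxy h0

lemma rpow_hi {α c x y : ℝ} (h0 : 0 ≤ α) (h1 : α ≤ 1) (hc : 1 ≤ c) (hx : 0 ≤ x) (hy : 0 ≤ y)
    (hxy : y ≤ c * x) : y ^ α ≤ c * x ^ α := by
  calc y ^ α ≤ (c * x) ^ α := rpow_le_rpow hy hxy h0
    _ = c ^ α * x ^ α := mul_rpow (by linarith) hx
    _ ≤ c * x ^ α := by
        gcongr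
        calc c ^ α ≤ c ^ (1 : ℝ) := rpow_le_rpow_of_exponent_le hc h1
          _ = c := rpow_one _

lemma interp {α s N u C : ℝ} (h0 : 1 / 2 ≤ α) (h1 : α ≤ 1) (hs : 0 < s) (hN : 1 ≤ N) (hC : 0 ≤ C)
    (hu1 : u ^ 2 ≤ C ^ 2 * s) (hu2 : u ≤ C * s * √N) :
    u ≤ C * (N ^ (α - 1 / 2) * s ^ α) := by
  have hN0 : 0 < N := by linarith
  have e0 : N ^ (α - 1 / 2) * s ^ α = (N * s) ^ (α - 1 / 2) * s ^ (1 / 2 : ℝ) := by
    rw [mul_rpow hN0.le hs.le, mul_assoc, ← rpow_add hs]; congr 2; ring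
  rcases le_total 1 (N * s) with h | h
  · have a1 : u ≤ C * s ^ (1 / 2 : ℝ) := by
      rw [← sqrt_eq_rpow]
      refine (abs_le_of_sq_le_sq' ?_ (by positivity)).2
      rw [mul_pow, sq_sqrt hs.le]; exact hu1
    refine a1.trans ?_
    rw [e0]
    gcongr
    have := one_le_rpow h (by linarith : 0 ≤ α - 1 / 2)
    have h2 : 0 ≤ s ^ (1 / 2 : ℝ) := by positivity
    nlinarith
  · refine hu2.trans ?_
    rw [e0, mul_assoc]
    refine mul_le_mul_of_nonneg_left ?_ hC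
    have e1 : s * √N = (N * s) ^ (1 / 2 : ℝ) * s ^ (1 / 2 : ℝ) := by
      rw [mul_rpow hN0.le hs.le, mul_assoc, ← rpow_add hs, sqrt_eq_rpow]; norm_num; ring
    rw [e1]
    gcongr ?_ * _
    exact rpow_le_rpow_of_exponent_ge (by positivity) h (by linarith)

theorem extend {α : ℝ} (h0 : 1 / 2 ≤ α) (h1 : α ≤ 1) (hn : 1 ≤ n) {M : Type*} [MetricSpace M]
    (E : Set M) (hE : E.Nonempty) (φ : E → V n)
    (hφ : ∀ x y : E, ‖φ x - φ y‖ ≤ dist (x : M) (y : M) ^ α) :
    ∃ ψ : M → V n, (∀ x : E, ψ x = φ x) ∧ ∀ x y : M,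
      ‖ψ x - ψ y‖ ≤ 18000000 * (1 + L0) * (n : ℝ) ^ (α - 1 / 2) * dist x y ^ α := by
  have hα0 : 0 ≤ α := by linarith
  have hα0' : 0 < α := by linarith
  set r : M → E → ℝ := fun x z => dist x (z : M) ^ α with hr
  set h : M → ℝ := fun x => Metric.infDist x E with hh
  have adm : ∀ x, Adm φ (r x) := fun x => by
    refine ⟨fun z => by simp only [hr]; positivity, fun z z' => (hφ z z').trans ?_⟩
    calc dist (z : M) (z' : M) ^ α ≤ (dist x (z : M) + dist x (z' : M)) ^ α :=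
          rpow_le_rpow dist_nonneg (dist_triangle_left _ _ _) hα0
      _ ≤ _ := rpow_add_le_add_rpow dist_nonneg dist_nonneg hα0 h1
  have hle : ∀ x (z : E), h x ≤ dist x (z : M) := fun x z => Metric.infDist_le_dist_of_mem z.2
  have hpos : ∀ x, 0 ≤ h x := fun x => Metric.infDist_nonneg
  have hnear : ∀ x δ, h x < δ → ∃ z : E, dist x (z : M) < δ := fun x δ hδ => by
    obtain ⟨y, hy, hy2⟩ := (Metric.infDist_lt_iff hE).1 hδ
    exact ⟨⟨y, hy⟩, hy2⟩
  have hHr : ∀ x z, h x ^ α ≤ r x z := fun x z => rpow_le_rpow (hpos x) (hle x z) hα0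
  have ex : ∀ x, ∃ a : V n, (∀ z, ‖a - φ z‖ ≤ 6 * r x z) ∧
      (0 < h x → SCtr φ (r x) (h x ^ α) a) := fun x => by
    rcases eq_or_lt_of_le (hpos x) with hx | hx
    · obtain ⟨a, ha⟩ := limit_point (adm x) fun δ hδ => by
        obtain ⟨z, hz⟩ := hnear x (δ ^ α⁻¹) (by rw [← hx]; positivity)
        refine ⟨z, ?_⟩
        calc r x z < (δ ^ α⁻¹) ^ α := rpow_lt_rpow dist_nonneg hz hα0'
          _ = δ := rpow_inv_rpow hδ.le hα0'.ne'
      exact ⟨a, ha, fun hx' => absurd hx hx'.ne⟩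
    · have hH : 0 < h x ^ α := rpow_pos_of_pos hx _
      obtain ⟨y, hy⟩ := hE
      obtain ⟨a, ha⟩ := exists_sctr hn (adm x) hH ⟨y, hy⟩
      exact ⟨a, sctr_loc hn (adm x) hH (hHr x) ha, fun _ => ha⟩
  choose ψ hψ1 hψ2 using ex
  have hL : 0 ≤ L0 := by unfold L0; positivity
  have hN : (1 : ℝ) ≤ n := by exact_mod_cast hn
  have hNp : (1 : ℝ) ≤ (n : ℝ) ^ (α - 1 / 2) := one_le_rpow hN (by linarith)
  refine ⟨ψ, fun x => ?_, fun x y => ?_⟩
  · have := hψ1 x x
    simp only [hr, dist_self, zero_rpow hα0'.ne', mul_zero] at this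
    exact sub_eq_zero.1 (norm_le_zero_iff.1 this)
  rcases eq_or_lt_of_le (dist_nonneg (x := x) (y := y)) with hd | hd
  · have : x = y := dist_eq_zero.1 hd.symm
    subst this
    simp only [sub_self, norm_zero]
    positivity
  set d := dist x y with hdd
  have hdα : 0 < d ^ α := rpow_pos_of_pos hd _
  rcases le_total (h x) (1000 * d) with hc | hc
  · obtain ⟨z, hz⟩ := hnear x (1001 * d) (by linarith)
    have a1 : r x z ≤ 1001 * d ^ α := rpow_hi hα0 h1 (by norm_num) hd.le dist_nonneg hz.le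
    have a2 : r y z ≤ 1002 * d ^ α := rpow_hi hα0 h1 (by norm_num) hd.le dist_nonneg (by
      have := dist_triangle y x (z : M)
      rw [dist_comm y x] at this
      linarith)
    have e : ψ x - ψ y = (ψ x - φ z) - (ψ y - φ z) := by abel
    have a3 : ‖ψ x - ψ y‖ ≤ ‖ψ x - φ z‖ + ‖ψ y - φ z‖ := by rw [e]; exact norm_sub_le _ _
    have a4 : ‖ψ x - ψ y‖ ≤ 18000000 * d ^ α := by linarith [hψ1 x z, hψ1 y z]
    refine a4.trans ?_
    gcongr
    nlinarith
  · have hx : 0 < h x := by linarith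
    set s := d / h x with hs
    have hs0 : 0 < s := div_pos hd hx
    have hsd : d = s * h x := by rw [hs]; field_simp
    have hs1 : s ≤ 1 / 1000 := by rw [hs, div_le_iff₀ hx]; linarith
    have hy1 : (1 - s) * h x ≤ h y := by
      have := Metric.infDist_le_infDist_add_dist (s := E) (x := x) (y := y)
      simp only [hh] at hsd ⊢
      linarith
    have hy2 : h y ≤ (1 + s) * h x := by
      have := Metric.infDist_le_infDist_add_dist (s := E) (x := y) (y := x)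
      rw [dist_comm y x] at this
      simp only [hh] at hsd ⊢
      linarith
    have hy : 0 < h y := lt_of_lt_of_le (by nlinarith) hy1
    obtain ⟨z0, hz0⟩ := hnear x (2 * h x) (by linarith)
    have hH : 0 < h x ^ α := rpow_pos_of_pos hx _
    have hdz : ∀ z : E, d ≤ s * dist x (z : M) := fun z => by
      rw [hsd]; gcongr; exact hle x z
    obtain ⟨k1, k2⟩ := compare hn (adm x) (adm y) hH hs0.le hs1 (hHr x) (z0 := z0)
      (rpow_hi hα0 h1 (by norm_num) hx.le dist_nonneg hz0.le)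
      (fun z => rpow_lo hα0 h1 hs0.le (by linarith) dist_nonneg (by
        have := dist_triangle x y (z : M)
        linarith [hdz z]))
      (fun z => rpow_hi hα0 h1 (by linarith) dist_nonneg dist_nonneg (by
        have := dist_triangle y x (z : M)
        rw [dist_comm y x] at this
        linarith [hdz z]))
      (rpow_lo hα0 h1 hs0.le (by linarith) hx.le hy1)
      (rpow_hi hα0 h1 (by linarith) hx.le hy.le hy2) (hψ2 x hx) (hψ2 y hy) (hHr y)
    set H := h x ^ α with hHdef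
    have i := interp (u := ‖ψ y - ψ x‖) (C := 18000000 * (1 + L0) * H) h0 h1 hs0 hN
      (by positivity) (k1.trans (by
        have : 0 ≤ H ^ 2 * s := by positivity
        have h2 : 4 * (L0 * 9000000) ≤ (18000000 * (1 + L0)) ^ 2 := by nlinarith
        nlinarith)) (k2.trans (le_of_eq (by ring)))
    rw [norm_sub_rev]
    refine i.trans (le_of_eq ?_)
    have e : d ^ α = s ^ α * H := by rw [hsd, mul_rpow hs0.le hx.le]
    rw [e]; ring

end H93Hol
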