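import Mathlib

set_option autoImplicit false

open Cardinal Set

namespace Pool.Agent.H93.Klee

/-- Abstract form of the transfinite construction of a disjoint tiling by unit balls. -/
theorem exists_centres {X I : Type} [MetricSpace X] (hXI : #X ≤ #I) (hI : ℵ₀ < #I)
    (mv : X → I → X) (h1 : ∀ p γ, dist p (mv p γ) ≤ 1)
    (h2 : ∀ p c, 1 < dist p c → {γ | dist (mv p γ) c ≤ 2}.Finite) :
    ∃ ctr : X → X, (∀ p, dist p (ctr p) ≤ 1) ∧
      ∀ p q, ctr p = ctr q ∨ 2 < dist (ctr p) (ctr q) := by
  classical
  obtain ⟨r, hwo, hr⟩ := Cardinal.exists_ord_eq X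
  have hwf : WellFounded r := hwo.toIsWellFounded.wf
  -- avoiding few finite sets
  have havoid : ∀ (p : X) (g : {q // r q p} → X), (∀ q, 1 < dist p (g q)) →
      ∃ γ, ∀ q, 2 < dist (mv p γ) (g q) := by
    intro p g hg
    by_contra hcon
    push Not at hcon
    have hU : (⋃ q : {q // r q p}, {γ | dist (mv p γ) (g q) ≤ 2}) = Set.univ := by
      ext γ
      simp only [mem_iUnion, mem_ofPred_eq, mem_univ, iff_true]
      exact hcon γ
    have hlt : #{q // r q p} < #I := by
      have := Cardinal.card_typein_lt (r := r) p hr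
      rw [← Ordinal.card_typein] at *
      exact lt_of_lt_of_le this hXI
    have hle := Cardinal.mk_iUnion_le
      (fun q : {q // r q p} => {γ | dist (mv p γ) (g q) ≤ 2})
    rw [hU, Cardinal.mk_univ] at hle
    have hsup : (⨆ q : {q // r q p}, #({γ | dist (mv p γ) (g q) ≤ 2} : Set I)) ≤ ℵ₀ := by
      apply ciSup_le'
      intro q
      exact (Set.Finite.lt_aleph0 (h2 p (g q) (hg q))).le
    have : #{q // r q p} * ℵ₀ < #I := Cardinal.mul_lt_of_lt hI.le hlt hI
    exact absurd (hle.trans (mul_le_mul_right hsup _)) (not_le.2 this)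
  let F : ∀ p : X, (∀ q, r q p → X) → X := fun p g =>
    if h : ∃ q : {q // r q p}, dist p (g q.1 q.2) ≤ 1 then g h.choose.1 h.choose.2
    else mv p (havoid p (fun q => g q.1 q.2) (by push Not at h; exact h)).choose
  let ctr : X → X := hwf.fix F
  have hctr : ∀ p, ctr p = F p (fun q _ => ctr q) := fun p => hwf.fix_eq F p
  have hcase : ∀ p, (∃ q, r q p ∧ dist p (ctr q) ≤ 1 ∧ ctr p = ctr q) ∨
      (∃ γ, ctr p = mv p γ ∧ ∀ q, r q p → 2 < dist (mv p γ) (ctr q)) := by
    intro p
    by_cases h : ∃ q : {q // r q p}, dist p (ctr q.1) ≤ 1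
    · left
      refine ⟨h.choose.1, h.choose.2, h.choose_spec, ?_⟩
      rw [hctr p]
      simp only [F]
      rw [dif_pos h]
    · right
      have h' : ∀ q : {q // r q p}, 1 < dist p (ctr q.1) := by push Not at h; exact h
      refine ⟨(havoid p (fun q => ctr q.1) h').choose, ?_, fun q hq =>
        (havoid p (fun q => ctr q.1) h').choose_spec ⟨q, hq⟩⟩
      rw [hctr p]
      simp only [F]
      rw [dif_neg h]
  have hmain : ∀ p, ∀ q, r q p → ctr p = ctr q ∨ 2 < dist (ctr p) (ctr q) := by
    intro p
    induction p using hwf.induction with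
    | _ p ih =>
      intro q hq
      rcases hcase p with ⟨q', hq', -, he⟩ | ⟨γ, he, hγ⟩
      · rw [he]
        rcases trichotomous_of r q q' with h | h | h
        · exact ih q' hq' q h
        · left; rw [h]
        · rcases ih q hq q' h with h3 | h3
          · left; exact h3.symm
          · right; rwa [dist_comm]
      · right; rw [he]; exact hγ q hq
  refine ⟨ctr, fun p => ?_, fun p q => ?_⟩
  · rcases hcase p with ⟨q', -, hd, he⟩ | ⟨γ, he, -⟩
    · rw [he]; exact hd
    · rw [he]; exact h1 p γ
  · rcases trichotomous_of r q p with h | h | h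
    · exact hmain p q h
    · left; rw [h]
    · rcases hmain q p h with h3 | h3
      · left; exact h3.symm
      · right; rwa [dist_comm]

/-- The sign function of one coordinate of the cube. -/
noncomputable def sg (γ : ℝ) : C(ℝ → Bool, ℝ) :=
  ⟨fun t => if t γ then 1 else -1,
    (continuous_of_discreteTopology (f := fun b : Bool => if b then (1 : ℝ) else -1)).comp
      (continuous_apply γ)⟩

theorem norm_sg_le (γ : ℝ) : ‖sg γ‖ ≤ 1 := by
  rw [ContinuousMap.norm_le _ zero_le_one]
  intro t
  simp only [sg, ContinuousMap.coe_mk]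
  split_ifs <;> simp

theorem card_le : #C(ℝ → Bool, ℝ) ≤ #ℝ := by
  classical
  set A : Subalgebra ℝ C(ℝ → Bool, ℝ) := Algebra.adjoin ℝ (range sg) with hA
  have hsep : A.SeparatesPoints := by
    intro s t hst
    obtain ⟨γ, hγ⟩ := Function.ne_iff.1 hst
    refine ⟨sg γ, ⟨sg γ, Algebra.subset_adjoin ⟨γ, rfl⟩, rfl⟩, ?_⟩
    simp only [sg, ContinuousMap.coe_mk]
    cases hs : s γ <;> cases ht : t γ <;> simp_all <;> norm_num
  have htop := ContinuousMap.subalgebra_topologicalClosure_eq_top_of_separatesPoints A hsep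
  have hAc : #A ≤ #ℝ := by
    refine (Algebra.cardinalMk_adjoin_le ℝ (range sg)).trans ?_
    refine sup_le (sup_le le_rfl Cardinal.mk_range_le) ?_
    rw [Cardinal.mk_real]; exact Cardinal.aleph0_le_continuum
  have hseq : ∀ f : C(ℝ → Bool, ℝ), ∃ u : ℕ → A,
      Filter.Tendsto (fun n => (u n : C(ℝ → Bool, ℝ))) Filter.atTop (nhds f) := by
    intro f
    have hf : f ∈ closure (A : Set C(ℝ → Bool, ℝ)) := by
      have : f ∈ A.topologicalClosure := by rw [htop]; trivial
      exact this
    obtain ⟨u, hu, hl⟩ := mem_closure_iff_seq_limit.1 hf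
    exact ⟨fun n => ⟨u n, hu n⟩, hl⟩
  choose u hu using hseq
  have hinj : Function.Injective u := by
    intro f g hfg
    have := hu f
    rw [hfg] at this
    exact tendsto_nhds_unique this (hu g)
  refine (Cardinal.mk_le_of_injective hinj).trans ?_
  rw [Cardinal.mk_arrow]
  simp only [Cardinal.lift_id, Cardinal.mk_nat]
  calc #A ^ ℵ₀ ≤ #ℝ ^ ℵ₀ := Cardinal.power_le_power_right hAc
    _ = #ℝ := by rw [Cardinal.mk_real, Cardinal.continuum_power_aleph0]

theorem tendsto_update (t : ℝ → Bool) (b : Bool) :
    Filter.Tendsto (fun γ : ℝ => Function.update t γ b) Filter.cofinite (nhds t) := by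
  classical
  rw [tendsto_pi_nhds]
  intro i
  apply tendsto_const_nhds.congr'
  have : {γ : ℝ | γ ≠ i} ∈ Filter.cofinite := by
    rw [Filter.mem_cofinite]; simp
  filter_upwards [this] with γ hγ
  rw [Function.update_of_ne (Ne.symm hγ)]

theorem bad_finite (g : C(ℝ → Bool, ℝ)) (hg : 1 < ‖g‖) : {γ | ‖g + sg γ‖ ≤ 2}.Finite := by
  classical
  obtain ⟨t, ht⟩ : ∃ t, 1 < |g t| := by
    by_contra h
    push Not at h
    exact absurd ((ContinuousMap.norm_le _ zero_le_one).2 (fun t => by simpa using h t)) (not_le.2 hg)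
  have key : ∀ b : Bool, Filter.Tendsto (fun γ : ℝ => g (Function.update t γ b))
      Filter.cofinite (nhds (g t)) := fun b => (g.continuous.tendsto t).comp (tendsto_update t b)
  have hev : ∀ᶠ γ in Filter.cofinite, ¬ ‖g + sg γ‖ ≤ 2 := by
    rcases lt_abs.1 ht with h | h
    · filter_upwards [(key true).eventually (lt_mem_nhds h)] with γ hγ hle
      have := (g + sg γ).norm_coe_le_norm (Function.update t γ true)
      simp only [ContinuousMap.add_apply, sg, ContinuousMap.coe_mk, Function.update_self,
        if_true, Real.norm_eq_abs] at this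
      have := le_abs_self (g (Function.update t γ true) + 1)
      simp only [sg] at hle
      linarith
    · have h' : g t < -1 := by linarith
      filter_upwards [(key false).eventually (gt_mem_nhds h')] with γ hγ hle
      have := (g + sg γ).norm_coe_le_norm (Function.update t γ false)
      simp only [ContinuousMap.add_apply, sg, ContinuousMap.coe_mk, Function.update_self,
        Bool.false_eq_true, if_false, Real.norm_eq_abs] at this
      have := neg_abs_le (g (Function.update t γ false) + -1)
      simp only [sg] at hle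
      linarith
  simpa [Filter.eventually_cofinite] using hev

theorem cube_centres : ∃ ctr : C(ℝ → Bool, ℝ) → C(ℝ → Bool, ℝ), (∀ p, dist p (ctr p) ≤ 1) ∧
    ∀ p q, ctr p = ctr q ∨ 2 < dist (ctr p) (ctr q) := by
  refine exists_centres card_le ?_ (fun p γ => p + sg γ) ?_ ?_
  · rw [Cardinal.mk_real]; exact Cardinal.aleph0_lt_continuum
  · intro p γ
    rw [dist_eq_norm]
    simpa using norm_sg_le γ
  · intro p c h
    rw [dist_eq_norm] at h
    refine (bad_finite (p - c) h).subset fun γ hγ => ?_
    simp only [mem_ofPred_eq, dist_eq_norm] at hγ ⊢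
    have : p - c + sg γ = p + sg γ - c := by abel
    rw [this]; exact hγ

end Pool.Agent.H93.Klee
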