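import Mathlib

namespace H93Kz
open Filter Topology
open scoped RealInnerProductSpace

variable {H W : Type*} [NormedAddCommGroup H] [InnerProductSpace ℝ H]
  [NormedAddCommGroup W] [InnerProductSpace ℝ W]

lemma nsq_cvx (x y : W) (t : ℝ) :
    ‖(1 - t) • x + t • y‖ ^ 2 = (1 - t) * ‖x‖ ^ 2 + t * ‖y‖ ^ 2 - t * (1 - t) * ‖x - y‖ ^ 2 := by
  rw [@norm_add_sq_real, @norm_sub_sq_real, norm_smul, norm_smul, inner_smul_left,
    inner_smul_right, mul_pow, mul_pow, Real.norm_eq_abs, Real.norm_eq_abs, sq_abs, sq_abs]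
  simp only [conj_trivial]
  ring

lemma one_point [CompleteSpace W] (K : Set (W × ℝ)) (hne : K.Nonempty)
    (hc : ∀ p ∈ K, ∀ q ∈ K, ∀ t : ℝ, 0 ≤ t → t ≤ 1 →
      (((1 - t) • p.1 + t • q.1, (1 - t) * p.2 + t * q.2) : W × ℝ) ∈ K)
    (h0 : ∀ p ∈ K, p.2 - ‖p.1‖ ^ 2 ≤ 0) :
    ∃ w : W, ∀ p ∈ K, ‖w - p.1‖ ^ 2 + (p.2 - ‖p.1‖ ^ 2) ≤ 0 := by
  set ψ : W × ℝ → ℝ := fun p => p.2 - ‖p.1‖ ^ 2 with hψ
  have hb : BddAbove (ψ '' K) := ⟨0, by rintro _ ⟨p, hp, rfl⟩; exact h0 p hp⟩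
  set m := sSup (ψ '' K) with hm
  have hle : ∀ p ∈ K, ψ p ≤ m := fun p hp => le_csSup hb ⟨p, hp, rfl⟩
  have hm0 : m ≤ 0 := csSup_le (hne.image _) (by rintro _ ⟨p, hp, rfl⟩; exact h0 p hp)
  have key : ∀ p ∈ K, ∀ q ∈ K, ∀ t : ℝ, 0 ≤ t → t ≤ 1 →
      (1 - t) * ψ p + t * ψ q + t * (1 - t) * ‖p.1 - q.1‖ ^ 2 ≤ m := by
    intro p hp q hq t h1 h2
    have := hle _ (hc p hp q hq t h1 h2)
    simp only [hψ, nsq_cvx] at this ⊢
    linarith
  have ex : ∀ n : ℕ, ∃ p ∈ K, m - 1 / ((n : ℝ) + 1) < ψ p := fun n => by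
    obtain ⟨_, ⟨p, hp, rfl⟩, h⟩ := exists_lt_of_lt_csSup (hne.image ψ)
      (show m - 1 / ((n : ℝ) + 1) < m by
        have : (0 : ℝ) < 1 / ((n : ℝ) + 1) := by positivity
        linarith)
    exact ⟨p, hp, h⟩
  choose ps hps1 hps2 using ex
  have t0 : Tendsto (fun n : ℕ => 1 / ((n : ℝ) + 1)) atTop (𝓝 0) :=
    tendsto_one_div_add_atTop_nhds_zero_nat
  have hcau : CauchySeq fun n => (ps n).1 := by
    refine cauchySeq_of_le_tendsto_0 (fun N : ℕ => √(4 * (1 / ((N : ℝ) + 1)))) ?_ ?_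
    · intro k l N hk hl
      rw [dist_eq_norm]
      refine Real.le_sqrt_of_sq_le ?_
      have h1 : 1 / ((k : ℝ) + 1) ≤ 1 / ((N : ℝ) + 1) := by gcongr
      have h2 : 1 / ((l : ℝ) + 1) ≤ 1 / ((N : ℝ) + 1) := by gcongr
      have := key _ (hps1 k) _ (hps1 l) (1 / 2) (by norm_num) (by norm_num)
      linarith [hps2 k, hps2 l]
    · have := (t0.const_mul 4).sqrt
      simpa using this
  obtain ⟨w, hw⟩ := cauchySeq_tendsto_of_complete hcau
  refine ⟨w, fun q hq => ?_⟩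
  have lim : ∀ t : ℝ, 0 < t → t ≤ 1 → ψ q + (1 - t) * ‖w - q.1‖ ^ 2 ≤ m := by
    intro t h1 h2
    have a1 : Tendsto (fun n : ℕ => (1 - t) * (m - 1 / ((n : ℝ) + 1)) + t * ψ q +
        t * (1 - t) * ‖(ps n).1 - q.1‖ ^ 2) atTop
        (𝓝 ((1 - t) * (m - 0) + t * ψ q + t * (1 - t) * ‖w - q.1‖ ^ 2)) :=
      (((tendsto_const_nhds.sub t0).const_mul _).add_const _).add
        (((hw.sub_const _).norm.pow 2).const_mul _)
    have a2 := le_of_tendsto' a1 (b := m) fun n => by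
      have := key _ (hps1 n) _ hq t h1.le h2
      have := mul_le_mul_of_nonneg_left (hps2 n).le (by linarith : 0 ≤ 1 - t)
      linarith
    have : t * (ψ q + (1 - t) * ‖w - q.1‖ ^ 2) ≤ t * m := by linarith
    exact le_of_mul_le_mul_left this h1
  have a3 : Tendsto (fun n : ℕ => ψ q + (1 - 1 / ((n : ℝ) + 1)) * ‖w - q.1‖ ^ 2) atTop
      (𝓝 (ψ q + (1 - 0) * ‖w - q.1‖ ^ 2)) :=
    (((tendsto_const_nhds.sub t0).mul_const _).const_add _)
  have a4 := le_of_tendsto' a3 (b := m) fun n => lim _ (by positivity) (by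
    rw [div_le_one (by positivity)]; linarith [Nat.cast_nonneg (α := ℝ) n])
  simp only [hψ] at a4
  linarith

/-- The bi-affine compatibility form. -/
def be (p q : H × W × ℝ) : ℝ := p.2.2 + q.2.2 - 2 * ⟪p.2.1, q.2.1⟫ + 2 * ⟪p.1, q.1⟫

lemma be_comm (p q : H × W × ℝ) : be p q = be q p := by
  unfold be; rw [real_inner_comm p.2.1, real_inner_comm p.1]; ring

/-- Kirszbraun's theorem with slack. -/
theorem kirszbraun [CompleteSpace W] {B : Type*} (e : B → H) (V : B → W) (η : B → ℝ)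
    (h : ∀ b b', ‖V b - V b'‖ ^ 2 ≤ ‖e b - e b'‖ ^ 2 + η b + η b') :
    ∃ G : H → W, (∀ x y, ‖G x - G y‖ ≤ ‖x - y‖) ∧
      ∀ x b, ‖G x - V b‖ ^ 2 ≤ ‖x - e b‖ ^ 2 + η b := by
  rcases isEmpty_or_nonempty B with hB | hB
  · exact ⟨fun _ => 0, fun x y => by simp, fun x b => hB.elim b⟩
  let S : Set (Set (H × W × ℝ)) := {Γ | ∀ p ∈ Γ, ∀ q ∈ Γ, be p q ≤ 0}
  let pt : B → H × W × ℝ := fun b => (e b, V b, ‖V b‖ ^ 2 - ‖e b‖ ^ 2 - η b)
  have h0 : Set.range pt ∈ S := by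
    rintro _ ⟨b, rfl⟩ _ ⟨b', rfl⟩
    have := h b b'
    rw [norm_sub_sq_real, norm_sub_sq_real] at this
    simp only [be, pt]; linarith
  obtain ⟨Γ, hΓ0, hΓ⟩ := zorn_subset_nonempty S (fun c hcS hc _ => ⟨⋃₀ c, by
    rintro p ⟨s, hs, hp⟩ q ⟨t, ht, hq⟩
    rcases hc.total hs ht with h | h
    · exact hcS ht p (h hp) q hq
    · exact hcS hs p hp q (h hq), fun s hs => Set.subset_sUnion_of_mem hs⟩) _ h0
  have hS : ∀ p ∈ Γ, ∀ q ∈ Γ, be p q ≤ 0 := hΓ.1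
  have add : ∀ r, (∀ q ∈ Γ, be r q ≤ 0) → be r r ≤ 0 → r ∈ Γ := by
    intro r h1 h2
    have : insert r Γ ∈ S := by
      rintro p (rfl | hp) q (rfl | hq)
      · exact h2
      · exact h1 q hq
      · rw [be_comm]; exact h1 p hp
      · exact hS p hp q hq
    exact hΓ.2 this (Set.subset_insert _ _) (Set.mem_insert _ _)
  have cvx : ∀ p ∈ Γ, ∀ q ∈ Γ, ∀ t : ℝ, 0 ≤ t → t ≤ 1 →
      (((1 - t) • p.1 + t • q.1, (1 - t) • p.2.1 + t • q.2.1, (1 - t) * p.2.2 + t * q.2.2) :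
        H × W × ℝ) ∈ Γ := by
    intro p hp q hq t h1 h2
    have aff : ∀ s : H × W × ℝ, be ((1 - t) • p.1 + t • q.1, (1 - t) • p.2.1 + t • q.2.1,
        (1 - t) * p.2.2 + t * q.2.2) s = (1 - t) * be p s + t * be q s := fun s => by
      simp only [be, inner_add_left, inner_smul_left, conj_trivial]; ring
    have a1 : ∀ s ∈ Γ, be ((1 - t) • p.1 + t • q.1, (1 - t) • p.2.1 + t • q.2.1,
        (1 - t) * p.2.2 + t * q.2.2) s ≤ 0 := fun s hs => by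
      rw [aff]
      have := mul_le_mul_of_nonneg_left (hS p hp s hs) (by linarith : 0 ≤ 1 - t)
      have := mul_le_mul_of_nonneg_left (hS q hq s hs) h1
      linarith
    refine add _ a1 ?_
    rw [aff]
    have b1 := a1 p hp
    have b2 := a1 q hq
    rw [be_comm] at b1 b2
    have := mul_le_mul_of_nonneg_left b1 (by linarith : 0 ≤ 1 - t)
    have := mul_le_mul_of_nonneg_left b2 h1
    linarith
  have ex : ∀ x : H, ∃ w : W, ((x, w, ‖w‖ ^ 2 - ‖x‖ ^ 2) : H × W × ℝ) ∈ Γ := by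
    intro x
    let π : H × W × ℝ → W × ℝ := fun p => (p.2.1, p.2.2 + 2 * ⟪x, p.1⟫ - ‖x‖ ^ 2)
    obtain ⟨w, hw⟩ := one_point (π '' Γ) ⟨_, _, hΓ0 ⟨Classical.arbitrary B, rfl⟩, rfl⟩ (by
      rintro _ ⟨p, hp, rfl⟩ _ ⟨q, hq, rfl⟩ t h1 h2
      refine ⟨_, cvx p hp q hq t h1 h2, ?_⟩
      simp only [π, inner_add_right, inner_smul_right, Prod.mk.injEq, true_and]
      ring) (by
      rintro _ ⟨p, hp, rfl⟩
      have h1 := hS p hp p hp
      have h2 : 0 ≤ ‖x - p.1‖ ^ 2 := by positivity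
      rw [norm_sub_sq_real] at h2
      simp only [be, real_inner_self_eq_norm_sq] at h1
      simp only [π]; linarith)
    refine ⟨w, add _ (fun q hq => ?_) ?_⟩
    · have := hw _ ⟨q, hq, rfl⟩
      rw [norm_sub_sq_real] at this
      simp only [π] at this
      simp only [be]; linarith
    · simp only [be, real_inner_self_eq_norm_sq]; linarith
  choose G hG using ex
  refine ⟨G, fun x y => ?_, fun x b => ?_⟩
  · have := hS _ (hG x) _ (hG y)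
    refine (abs_le_of_sq_le_sq' ?_ (norm_nonneg _)).2
    rw [norm_sub_sq_real, norm_sub_sq_real]
    simp only [be] at this; linarith
  · have := hS _ (hG x) _ (hΓ0 ⟨b, rfl⟩)
    rw [norm_sub_sq_real, norm_sub_sq_real]
    simp only [be, pt] at this; linarith

end H93Kz
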