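import Pool.Agent.H93.Kz1

namespace H93Kz
open Filter Topology Finset Metric

variable {X : Type*} [PseudoMetricSpace X]
variable {W : Type*} [NormedAddCommGroup W] [InnerProductSpace ℝ W]

lemma le_inf {A : Set X} (hA : A.Nonempty) {x : X} {u α β : ℝ} (hβ : 0 ≤ β)
    (h : ∀ a ∈ A, u ≤ α + β * dist x a) : u ≤ α + β * infDist x A := by
  refine le_of_forall_pos_le_add fun ε hε => ?_
  obtain ⟨a, ha, h2⟩ := (infDist_lt_iff hA).1
    (show infDist x A < infDist x A + ε / (β + 1) by
      have : 0 < ε / (β + 1) := by positivity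
      linarith)
  have h3 : β * dist x a ≤ β * (infDist x A + ε / (β + 1)) := by gcongr
  have h4 : β * (ε / (β + 1)) ≤ ε := by
    rw [← mul_div_assoc, div_le_iff₀ (by linarith)]; nlinarith
  linarith [h a ha]

omit [InnerProductSpace ℝ W] in
lemma exists_V [CompleteSpace W] {A : Set X} (hA : A.Nonempty) {f : X → W} {L : ℝ} (hL : 0 ≤ L)
    (hf : ∀ a ∈ A, ∀ b ∈ A, ‖f a - f b‖ ≤ L * dist a b) :
    ∃ V : X → W, ∀ x, ∀ a ∈ A, ‖V x - f a‖ ≤ 3 * L * dist x a := by
  have ex : ∀ x, ∃ v : W, ∀ a ∈ A, ‖v - f a‖ ≤ 3 * L * dist x a := by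
    intro x
    rcases eq_or_lt_of_le (infDist_nonneg (x := x) (s := A)) with h | h
    · have ex2 : ∀ n : ℕ, ∃ a ∈ A, dist x a < 1 / ((n : ℝ) + 1) := fun n =>
        (infDist_lt_iff hA).1 (by rw [← h]; positivity)
      choose as h1 h2 using ex2
      have t0 : Tendsto (fun n : ℕ => 1 / ((n : ℝ) + 1)) atTop (𝓝 0) :=
        tendsto_one_div_add_atTop_nhds_zero_nat
      have hc : CauchySeq fun n => f (as n) := by
        refine cauchySeq_of_le_tendsto_0 (fun N : ℕ => 2 * L * (1 / ((N : ℝ) + 1))) ?_ ?_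
        · intro k m N hk hm
          rw [dist_eq_norm]
          have a1 : 1 / ((k : ℝ) + 1) ≤ 1 / ((N : ℝ) + 1) := by gcongr
          have a2 : 1 / ((m : ℝ) + 1) ≤ 1 / ((N : ℝ) + 1) := by gcongr
          have a3 := dist_triangle_left (as k) (as m) x
          refine (hf _ (h1 k) _ (h1 m)).trans ?_
          have : L * dist (as k) (as m) ≤ L * (2 * (1 / ((N : ℝ) + 1))) := by
            gcongr; linarith [h2 k, h2 m]
          linarith
        · simpa using t0.const_mul (2 * L)
      obtain ⟨v, hv⟩ := cauchySeq_tendsto_of_complete hc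
      refine ⟨v, fun a ha => ?_⟩
      have t1 : Tendsto (fun n => ‖f (as n) - f a‖) atTop (𝓝 ‖v - f a‖) := (hv.sub_const _).norm
      have t2 : Tendsto (fun n : ℕ => L * (1 / ((n : ℝ) + 1) + dist x a)) atTop
          (𝓝 (L * (0 + dist x a))) := (t0.add_const _).const_mul _
      have := le_of_tendsto_of_tendsto' t1 t2 fun n => (hf _ (h1 n) _ ha).trans (by
        gcongr; linarith [dist_triangle_left (as n) a x, h2 n])
      have h3 : 0 ≤ L * dist x a := by positivity
      linarith
    · obtain ⟨b, hb, h2⟩ := (infDist_lt_iff hA).1 (show infDist x A < 2 * infDist x A by linarith)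
      refine ⟨f b, fun a ha => (hf _ hb _ ha).trans ?_⟩
      have a1 := dist_triangle_left b a x
      have a2 := infDist_le_dist_of_mem (x := x) ha
      have : L * dist b a ≤ L * (3 * dist x a) := by gcongr; linarith
      linarith
  choose V hV using ex
  exact ⟨V, hV⟩

omit [InnerProductSpace ℝ W] in
lemma coarse {A : Set X} (hA : A.Nonempty) {f F : X → W} {M : ℝ} (hM : 0 ≤ M)
    (hF : ∀ x, ∀ a ∈ A, ‖F x - f a‖ ≤ M * dist x a) (x y : X) :
    ‖F x - F y‖ ≤ M * dist x y + 2 * M * infDist x A := by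
  refine le_inf hA (by positivity) fun a ha => ?_
  have e : F x - F y = (F x - f a) - (F y - f a) := by abel
  have a1 : ‖F x - F y‖ ≤ ‖F x - f a‖ + ‖F y - f a‖ := by rw [e]; exact norm_sub_le _ _
  have a2 : M * dist y a ≤ M * (dist x y + dist x a) := by gcongr; exact dist_triangle_left _ _ _
  linarith [hF x a ha, hF y a ha]

/-- Transfer of a Lipschitz map from one set to a nearly Euclidean set. -/
lemma transfer [CompleteSpace W] {H : Type*} [NormedAddCommGroup H] [InnerProductSpace ℝ H]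
    {A B : Set X} (hA : A.Nonempty) {e : X → H} {D : ℝ} (hD : 1 ≤ D)
    (he : ∀ a ∈ B, ∀ b ∈ B, dist a b ≤ ‖e a - e b‖ ∧ ‖e a - e b‖ ≤ D * dist a b)
    {f : X → W} {L : ℝ} (hL : 0 ≤ L) (hf : ∀ a ∈ A, ∀ b ∈ A, ‖f a - f b‖ ≤ L * dist a b) :
    ∃ g : X → W, (∀ a ∈ B, ∀ b ∈ B, ‖g a - g b‖ ≤ 10 * D * L * dist a b) ∧
      ∀ b ∈ B, ∀ a ∈ A, ‖g b - f a‖ ≤ 10 * D * L * dist b a := by
  obtain ⟨V, hV⟩ := exists_V hA hL hf
  have sm : ∀ a b : X, ‖(7 * L) • e a - (7 * L) • e b‖ = 7 * L * ‖e a - e b‖ := fun a b => by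
    rw [← smul_sub, norm_smul, Real.norm_eq_abs, abs_of_nonneg (by positivity)]
  obtain ⟨G, hG1, hG2⟩ := kirszbraun (B := B) (fun b => (7 * L) • e b) (fun b => V b)
    (fun b => (7 * L * infDist (b : X) A) ^ 2) fun b b' => by
      rw [sm]
      have a1 := coarse hA (by positivity) hV b b'
      have a2 := (he b b.2 b' b'.2).1
      have a3 : 0 ≤ infDist (b : X) A := infDist_nonneg
      have a4 : 3 * L * dist (b : X) b' ≤ 3 * L * ‖e b - e b'‖ := by gcongr
      have a5 : ‖V b - V b'‖ ^ 2 ≤ (3 * L * ‖e b - e b'‖ + 2 * (3 * L) * infDist (b : X) A) ^ 2 := by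
        gcongr; linarith
      nlinarith [sq_nonneg (L * (2 * ‖e b - e b'‖ - infDist (b : X) A)),
        sq_nonneg (7 * L * infDist (b' : X) A), sq_nonneg (L * ‖e b - e b'‖),
        sq_nonneg (L * infDist (b : X) A)]
  refine ⟨fun b => G ((7 * L) • e b), fun a ha b hb => (hG1 _ _).trans ?_, fun b hb a ha => ?_⟩
  · rw [sm]
    have := (he a ha b hb).2
    have h2 : 7 * L * ‖e a - e b‖ ≤ 7 * L * (D * dist a b) := by gcongr
    have : 0 ≤ D * L * dist a b := by have : 0 ≤ D := by linarith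
                                      positivity
    nlinarith
  · have a1 := hG2 ((7 * L) • e b) ⟨b, hb⟩
    simp only [sub_self, norm_zero] at a1
    have a3 : 0 ≤ infDist b A := infDist_nonneg
    have a2 : ‖G ((7 * L) • e b) - V b‖ ≤ 7 * L * infDist b A :=
      (abs_le_of_sq_le_sq' (by linarith) (by positivity)).2
    have a4 : 7 * L * infDist b A ≤ 7 * L * dist b a := by gcongr; exact infDist_le_dist_of_mem ha
    have a5 := norm_sub_le_norm_sub_add_norm_sub (G ((7 * L) • e b)) (V b) (f a)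
    have a6 := hV b a ha
    have a7 : L * dist b a ≤ D * (L * dist b a) := le_mul_of_one_le_left (by positivity) hD
    simp only
    linarith

lemma rank_sum {ι : Type*} (h : ι → ℝ) (E : ℕ → ℝ) (J : Finset ι) :
    Monotone E → ∑ j ∈ J, E (J.filter fun l => h l < h j).card ≤ ∑ r ∈ range J.card, E r := by
  classical
  intro hE
  induction J using Finset.induction_on_max_value h with
  | empty => simp
  | insert a s ha hmax ih =>
    rw [sum_insert ha, card_insert_of_notMem ha, sum_range_succ, add_comm]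
    refine add_le_add (le_trans (le_of_eq ?_) ih) (hE ?_)
    · refine sum_congr rfl fun j hj => ?_
      rw [filter_insert, if_neg (not_lt.2 (hmax j hj))]
    · rw [filter_insert, if_neg (lt_irrefl _)]
      exact card_filter_le _ _

lemma pow_step (r : ℝ) (hr : 0 ≤ r) (g : ℕ) : r ^ (g + 1) + (g + 1) * r ^ g ≤ (r + 1) ^ (g + 1) := by
  induction g with
  | zero => simp
  | succ g ih =>
    have h1 : (r + 1) * (r ^ (g + 1) + (g + 1) * r ^ g) ≤ (r + 1) * (r + 1) ^ (g + 1) := by gcongr
    have h2 : 0 ≤ ((g : ℝ) + 1) * r ^ g := by positivity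
    push_cast
    calc r ^ (g + 1 + 1) + (g + 1 + 1) * r ^ (g + 1)
        ≤ (r + 1) * (r ^ (g + 1) + (g + 1) * r ^ g) := by
          rw [pow_succ r (g + 1), pow_succ r g] at *; nlinarith
      _ ≤ _ := h1
      _ = _ := by ring

lemma pow_sum (g N : ℕ) :
    ((g : ℝ) + 1) * ∑ r ∈ range N, ((r : ℝ) + 1) ^ g ≤ ((N : ℝ) + 1) ^ (g + 1) := by
  induction N with
  | zero => simp
  | succ N ih =>
    rw [sum_range_succ, mul_add]
    have := pow_step ((N : ℝ) + 1) (by positivity) g
    push_cast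
    linarith

lemma avg_rank {ι : Type*} [Fintype ι] (h : ι → ℝ) (a : ℝ) (g : ℕ) {C : ℝ} (hC : 0 ≤ C)
    (hg : 4 * C ≤ g + 1) {n : ℕ} (hn : (univ.filter fun l => h l < a).card ≤ n) :
    C * ∑ j, max 0 (a - h j) * (((univ.filter fun l => h l < h j).card : ℝ) + 1) ^ g ≤
      (∑ j, max 0 (a - h j)) * (((n : ℝ) + 1) ^ g / 2) := by
  classical
  set J := univ.filter fun l => h l < a with hJ
  have e1 : ∑ j, max 0 (a - h j) * (((univ.filter fun l => h l < h j).card : ℝ) + 1) ^ g =
      ∑ j ∈ J, (a - h j) * (((J.filter fun l => h l < h j).card : ℝ) + 1) ^ g := by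
    rw [hJ, sum_filter]
    refine sum_congr rfl fun j _ => ?_
    split_ifs with hj
    · rw [max_eq_right (by linarith), filter_filter]
      congr 5
      ext l; simp only [mem_filter, mem_univ, true_and]
      exact ⟨fun h1 => ⟨h1.trans hj, h1⟩, fun h1 => h1.2⟩
    · rw [max_eq_left (by linarith), zero_mul]
  have e2 : ∑ j, max 0 (a - h j) = ∑ j ∈ J, (a - h j) := by
    rw [hJ, sum_filter]
    refine sum_congr rfl fun j _ => ?_
    split_ifs with hj
    · rw [max_eq_right (by linarith)]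
    · rw [max_eq_left (by linarith)]
  rw [e1, e2]
  rcases J.eq_empty_or_nonempty with h0 | h0
  · simp [h0]
  have hN : (1 : ℝ) ≤ J.card := by exact_mod_cast h0.card_pos
  have anti : AntivaryOn (fun j => a - h j)
      (fun j => (((J.filter fun l => h l < h j).card : ℝ) + 1) ^ g) J := by
    intro i _ j _ hij
    by_contra hcon
    simp only [not_le] at hcon hij
    have : (J.filter fun l => h l < h j).card ≤ (J.filter fun l => h l < h i).card :=
      card_le_card (monotone_filter_right _ fun l _ hl => by linarith)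
    have h2 : (((J.filter fun l => h l < h j).card : ℝ) + 1) ^ g ≤
        (((J.filter fun l => h l < h i).card : ℝ) + 1) ^ g := by gcongr
    linarith
  have c1 := anti.card_mul_sum_le_sum_mul_sum
  have c2 := rank_sum h (fun r => ((r : ℝ) + 1) ^ g) J fun r s hrs => by simp only; gcongr
  have c3 := pow_sum g J.card
  have hS : 0 ≤ ∑ j ∈ J, (a - h j) := sum_nonneg fun j hj => by
    have := (mem_filter.1 hj).2; linarith
  have c4 : ((J.card : ℝ) + 1) ^ g ≤ ((n : ℝ) + 1) ^ g := by gcongr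
  set S := ∑ j ∈ J, (a - h j)
  set T := ∑ j ∈ J, (a - h j) * (((J.filter fun l => h l < h j).card : ℝ) + 1) ^ g
  set R := ∑ r ∈ range J.card, ((r : ℝ) + 1) ^ g
  have hR : 0 ≤ R := sum_nonneg fun _ _ => by positivity
  have c5 : (J.card : ℝ) * T ≤ S * R := c1.trans (by gcongr)
  have c6 : 4 * C * R ≤ 2 * J.card * ((n : ℝ) + 1) ^ g := by
    have : 4 * C * R ≤ (g + 1) * R := by gcongr
    rw [pow_succ] at c3
    have h3 : ((J.card : ℝ) + 1) ^ g * (J.card + 1) ≤ ((n : ℝ) + 1) ^ g * (2 * J.card) := by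
      gcongr; linarith
    linarith
  have c7 : (J.card : ℝ) * (C * T) ≤ J.card * (S * (((n : ℝ) + 1) ^ g / 2)) := by
    have := mul_le_mul_of_nonneg_left c5 hC
    have := mul_le_mul_of_nonneg_left c6 hS
    nlinarith
  exact le_of_mul_le_mul_left c7 (by linarith)

end H93Kz
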