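import Pool.Agent.H93.Kz2

namespace H93Kz
open Filter Topology Finset Metric

variable {X : Type*} [PseudoMetricSpace X]
variable {W : Type*} [NormedAddCommGroup W] [InnerProductSpace ℝ W]
variable {ι : Type*} [Fintype ι]

/-- Weighted average. -/
noncomputable def wavg (φ : ι → ℝ) (v : ι → W) : W := (∑ j, φ j)⁻¹ • ∑ j, φ j • v j

lemma norm_wsum {φ T : ι → ℝ} (h0 : ∀ j, 0 ≤ φ j) {v : ι → W} (h : ∀ j, 0 < φ j → ‖v j‖ ≤ T j) :
    ‖∑ j, φ j • v j‖ ≤ ∑ j, φ j * T j := by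
  refine (norm_sum_le _ _).trans (sum_le_sum fun j _ => ?_)
  rw [norm_smul, Real.norm_eq_abs, abs_of_nonneg (h0 j)]
  rcases eq_or_lt_of_le (h0 j) with h1 | h1
  · rw [← h1]; simp
  · gcongr; exact h j h1

lemma wavg_sub {φ : ι → ℝ} (hS : 0 < ∑ j, φ j) (v : ι → W) (u : W) :
    wavg φ v - u = (∑ j, φ j)⁻¹ • ∑ j, φ j • (v j - u) := by
  simp only [wavg, smul_sub, sum_sub_distrib, ← sum_smul, smul_smul, inv_mul_cancel₀ hS.ne',
    one_smul]

lemma wavg_le {φ : ι → ℝ} (h0 : ∀ j, 0 ≤ φ j) (hS : 0 < ∑ j, φ j) {v : ι → W} {u : W} {B : ℝ}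
    (h : ∀ j, 0 < φ j → ‖v j - u‖ ≤ B) : ‖wavg φ v - u‖ ≤ B := by
  rw [wavg_sub hS, norm_smul, Real.norm_eq_abs, abs_of_pos (inv_pos.2 hS), inv_mul_le_iff₀ hS,
    sum_mul]
  exact norm_wsum h0 h

lemma wavg_diff {φ φ' T : ι → ℝ} (h0 : ∀ j, 0 ≤ φ j) (h0' : ∀ j, 0 ≤ φ' j) (hS : 0 < ∑ j, φ j)
    (hS' : 0 < ∑ j, φ' j) {v v' : ι → W} {u : W} {B ε : ℝ} (hB : 0 ≤ B)
    (hT : ∀ j, 0 < φ j → ‖v j - v' j‖ ≤ T j) (hu : ∀ j, 0 < φ j ∨ 0 < φ' j → ‖v' j - u‖ ≤ B)
    (hε : ∀ j, |φ j - φ' j| ≤ ε) :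
    (∑ j, φ j) * ‖wavg φ v - wavg φ' v'‖ ≤ ∑ j, φ j * T j + 2 * (Fintype.card ι * ε) * B := by
  have e : (∑ j, φ j) • (wavg φ v - wavg φ' v') = ∑ j, φ j • (v j - v' j) +
      ∑ j, (φ j - φ' j) • (v' j - u) + (∑ j, φ' j - ∑ j, φ j) • (wavg φ' v' - u) := by
    have e1 : (∑ j, φ j) • wavg φ v = ∑ j, φ j • v j := by
      rw [wavg, smul_smul, mul_inv_cancel₀ hS.ne', one_smul]
    have e2 : (∑ j, φ' j) • wavg φ' v' = ∑ j, φ' j • v' j := by
      rw [wavg, smul_smul, mul_inv_cancel₀ hS'.ne', one_smul]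
    simp only [smul_sub, sub_smul, sum_sub_distrib, ← sum_smul, e1, e2]
    abel
  have a1 := norm_wsum h0 hT
  have hs : ∑ j, |φ j - φ' j| ≤ Fintype.card ι * ε := by
    rw [← card_univ, ← nsmul_eq_mul]; exact sum_le_card_nsmul _ _ _ fun j _ => hε j
  have a2 : ‖∑ j, (φ j - φ' j) • (v' j - u)‖ ≤ (Fintype.card ι * ε) * B := by
    refine (norm_sum_le _ _).trans (le_trans (sum_le_sum (g := fun j => |φ j - φ' j| * B)
      fun j _ => ?_) (by rw [← sum_mul]; gcongr))
    rw [norm_smul, Real.norm_eq_abs]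
    by_cases h : 0 < φ j ∨ 0 < φ' j
    · gcongr; exact hu j h
    · push Not at h
      rw [le_antisymm h.1 (h0 j), le_antisymm h.2 (h0' j)]; simp
  have a3 : ‖(∑ j, φ' j - ∑ j, φ j) • (wavg φ' v' - u)‖ ≤ (Fintype.card ι * ε) * B := by
    rw [norm_smul, Real.norm_eq_abs]
    refine mul_le_mul ?_ (wavg_le h0' hS' fun j hj => hu j (Or.inr hj)) (norm_nonneg _)
      ((sum_nonneg fun j _ => abs_nonneg _).trans hs)
    rw [abs_sub_comm, ← sum_sub_distrib]
    exact (abs_sum_le_sum_abs _ _).trans hs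
  have a4 : (∑ j, φ j) * ‖wavg φ v - wavg φ' v'‖ = ‖(∑ j, φ j) • (wavg φ v - wavg φ' v')‖ := by
    rw [norm_smul, Real.norm_eq_abs, abs_of_pos hS]
  rw [a4, e]
  refine (norm_add₃_le).trans ?_
  linarith

open Classical in
/-- Number of pieces strictly closer than piece `i`. -/
noncomputable def rk (A : ι → Set X) (i : ι) (x : X) : ℕ :=
  (univ.filter fun l => infDist x (A l) < infDist x (A i)).card

/-- Extension statement at depth `m`. -/
def PP (W : Type*) [NormedAddCommGroup W] (A : ι → Set X) (C : ℝ) (g m : ℕ) : Prop :=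
  ∀ (i : ι) (f : X → W) (L : ℝ), 0 ≤ L → (∀ a ∈ A i, ∀ b ∈ A i, ‖f a - f b‖ ≤ L * dist a b) →
    ∃ F : X → W, (∀ x, ∀ a ∈ A i, ‖F x - f a‖ ≤ 3 * C * L * dist x a) ∧
      ∀ x y, rk A i x ≤ m →
        ‖F x - F y‖ ≤ L * (224 * Fintype.card ι * C ^ 3) * ((rk A i x : ℝ) + 1) ^ g * dist x y

variable {A : ι → Set X} {C : ℝ} {g : ℕ}

omit [InnerProductSpace ℝ W] in
lemma easy_case (hA : ∀ j, (A j).Nonempty) (hC : 1 ≤ C) {i : ι} {f F : X → W} {L : ℝ}
    (hL : 0 ≤ L) (hF : ∀ x, ∀ a ∈ A i, ‖F x - f a‖ ≤ 3 * C * L * dist x a) {x y : X}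
    (hxy : infDist x (A i) ≤ 2 * dist x y) :
    ‖F x - F y‖ ≤ L * (224 * Fintype.card ι * C ^ 3) * ((rk A i x : ℝ) + 1) ^ g * dist x y := by
  have hC0 : 0 ≤ C := by linarith
  have a1 := coarse (hA i) (by positivity) hF x y
  have a2 : 2 * (3 * C * L) * infDist x (A i) ≤ 2 * (3 * C * L) * (2 * dist x y) := by gcongr
  have hk : (1 : ℝ) ≤ Fintype.card ι := by
    have : Nonempty ι := ⟨i⟩
    exact_mod_cast Fintype.card_pos
  have a3 : (1 : ℝ) ≤ ((rk A i x : ℝ) + 1) ^ g :=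
    one_le_pow₀ (by linarith [Nat.cast_nonneg (α := ℝ) (rk A i x)])
  have a4 : C ≤ C ^ 3 := le_self_pow₀ hC (by norm_num)
  calc ‖F x - F y‖ ≤ L * (15 * 1 * C) * 1 * dist x y := by linarith
    _ ≤ _ := by gcongr; norm_num

omit [InnerProductSpace ℝ W] in
lemma PP_zero [CompleteSpace W] (hA : ∀ j, (A j).Nonempty) (hcov : ∀ x, ∃ j, x ∈ A j)
    (hC : 1 ≤ C) : PP W A C g 0 := by
  intro i f L hL hf
  obtain ⟨V, hV⟩ := exists_V (hA i) hL hf
  have hV' : ∀ x, ∀ a ∈ A i, ‖V x - f a‖ ≤ 3 * C * L * dist x a := fun x a ha =>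
    (hV x a ha).trans (by gcongr; linarith)
  refine ⟨V, hV', fun x y h => easy_case hA hC hL hV' ?_⟩
  obtain ⟨j, hj⟩ := hcov x
  have h1 : ¬ infDist x (A j) < infDist x (A i) := by
    intro h2
    have : 0 < rk A i x := card_pos.2 ⟨j, mem_filter.2 ⟨mem_univ _, h2⟩⟩
    omega
  rw [infDist_zero_of_mem hj, not_lt] at h1
  linarith [dist_nonneg (x := x) (y := y)]

lemma PP_succ [CompleteSpace W] (hA : ∀ j, (A j).Nonempty) (hcov : ∀ x, ∃ j, x ∈ A j)
    (hC : 1 ≤ C) (hg : 4 * C ≤ g + 1)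
    (hT : ∀ i j (f : X → W) (L : ℝ), 0 ≤ L → (∀ a ∈ A i, ∀ b ∈ A i, ‖f a - f b‖ ≤ L * dist a b) →
      ∃ G : X → W, (∀ a ∈ A j, ∀ b ∈ A j, ‖G a - G b‖ ≤ C * L * dist a b) ∧
        ∀ b ∈ A j, ∀ a ∈ A i, ‖G b - f a‖ ≤ C * L * dist b a)
    {m : ℕ} (hP : PP W A C g m) : PP W A C g (m + 1) := by
  classical
  intro i f L hL hf
  have hC0 : 0 < C := by linarith
  obtain ⟨V, hV⟩ := exists_V (hA i) hL hf
  choose G hG1 hG2 using fun j => hT i j f L hL hf
  choose Fj hF1 hF2 using fun j => hP j (G j) (C * L) (by positivity) (hG1 j)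
  set c : ℝ := 1 / (4 * C) with hc
  have hc0 : 0 < c := by positivity
  have hcC : c * C = 1 / 4 := by rw [hc]; field_simp
  have hc1 : c ≤ 1 / 4 := by nlinarith
  let φ : X → ι → ℝ := fun x j => max 0 (c * infDist x (A i) - infDist x (A j))
  have φ0 : ∀ x j, 0 ≤ φ x j := fun x j => le_max_left _ _
  have φp : ∀ x j, 0 < φ x j → infDist x (A j) < c * infDist x (A i) := fun x j h => by
    by_contra h2
    have : φ x j = 0 := max_eq_left (by linarith)
    linarith
  have hS : ∀ x, c * infDist x (A i) ≤ ∑ j, φ x j := fun x => by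
    obtain ⟨j, hj⟩ := hcov x
    refine le_trans ?_ (single_le_sum (fun l _ => φ0 x l) (mem_univ j))
    refine le_trans ?_ (le_max_right _ _)
    rw [infDist_zero_of_mem hj, sub_zero]
  have dev : ∀ j x, ∀ a ∈ A i,
      ‖Fj j x - f a‖ ≤ C * L * dist x a + (3 * C + 1) * (C * L) * infDist x (A j) := by
    intro j x a ha
    refine le_inf (hA j) (by positivity) fun b hb => ?_
    have a1 := hF1 j x b hb
    have a2 := hG2 j b hb a ha
    have a3 := norm_sub_le_norm_sub_add_norm_sub (Fj j x) (G j b) (f a)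
    have a4 : C * L * dist b a ≤ C * L * (dist x b + dist x a) := by
      gcongr; exact dist_triangle_left _ _ _
    linarith
  let F : X → W := fun x => if infDist x (A i) = 0 then V x else wavg (φ x) fun j => Fj j x
  have hF : ∀ x, ∀ a ∈ A i, ‖F x - f a‖ ≤ 3 * C * L * dist x a := by
    intro x a ha
    by_cases h : infDist x (A i) = 0
    · simp only [F, h, if_true]
      exact (hV x a ha).trans (by gcongr; linarith)
    · have hp : 0 < infDist x (A i) := lt_of_le_of_ne infDist_nonneg (Ne.symm h)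
      simp only [F, h, if_false]
      refine wavg_le (φ0 x) (lt_of_lt_of_le (by positivity) (hS x)) fun j hj => ?_
      refine (dev j x a ha).trans ?_
      have a1 := (φp x j hj).le
      have a2 : c * infDist x (A i) ≤ c * dist x a := by gcongr; exact infDist_le_dist_of_mem ha
      have a3 : (3 * C + 1) * (C * L) * infDist x (A j) ≤ (3 * C + 1) * (C * L) * (c * dist x a) := by
        gcongr; linarith
      have a4 : (3 * C + 1) * (C * L) * (c * dist x a) = (3 * C + 1) / 4 * (L * dist x a) := by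
        rw [hc]; field_simp
      have a5 : 0 ≤ L * dist x a := by positivity
      nlinarith
  refine ⟨F, hF, fun x y hm => ?_⟩
  rcases le_or_gt (infDist x (A i)) (2 * dist x y) with hxy | hxy
  · exact easy_case hA hC hL hF hxy
  have hd : 0 ≤ dist x y := dist_nonneg
  set Hx := infDist x (A i) with hHx
  set d := dist x y with hdd
  have hp : 0 < Hx := by linarith
  have lip : ∀ j, |infDist x (A j) - infDist y (A j)| ≤ d := fun j => by
    have a1 := infDist_le_infDist_add_dist (s := A j) (x := x) (y := y)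
    have a2 := infDist_le_infDist_add_dist (s := A j) (x := y) (y := x)
    rw [dist_comm y x] at a2
    rw [abs_le]; constructor <;> linarith
  have li := abs_le.1 (lip i)
  have hpy : 0 < infDist y (A i) := by linarith
  obtain ⟨a, ha, ha2⟩ := (infDist_lt_iff (hA i)).1 (show Hx < 2 * Hx by linarith)
  have hSx : 0 < ∑ j, φ x j := lt_of_lt_of_le (by positivity) (hS x)
  have hSy : 0 < ∑ j, φ y j := lt_of_lt_of_le (by positivity) (hS y)
  set Λ : ℝ := 224 * Fintype.card ι * C ^ 3 with hΛ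
  have hΛ0 : 0 ≤ Λ := by positivity
  have main := wavg_diff (φ0 x) (φ0 y) hSx hSy (v := fun j => Fj j x) (v' := fun j => Fj j y)
    (u := f a) (B := 7 * C * (C * L) * Hx) (ε := 2 * d)
    (T := fun j => C * L * Λ * ((rk A j x : ℝ) + 1) ^ g * d) (by positivity)
    (fun j hj => hF2 j x y (by
      have h1 := φp x j hj
      have h2 : infDist x (A j) < Hx := by nlinarith
      have : rk A j x < rk A i x := by
        refine card_lt_card ⟨fun l hl => ?_, fun hsub => ?_⟩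
        · rw [mem_filter] at hl ⊢; exact ⟨hl.1, hl.2.trans h2⟩
        · have := hsub (mem_filter.2 ⟨mem_univ j, h2⟩)
          exact lt_irrefl _ (mem_filter.1 this).2
      omega))
    (fun j hj => by
      have lj := abs_le.1 (lip j)
      have h1 : infDist y (A j) ≤ Hx := by
        rcases hj with hj | hj
        · have := φp x j hj; nlinarith
        · have := φp y j hj; nlinarith
      have h2 : dist y a ≤ 3 * Hx := by linarith [dist_triangle_left y a x]
      refine (dev j y a ha).trans ?_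
      have a1 : C * L * dist y a ≤ C * L * (3 * Hx) := by gcongr
      have a2 : (3 * C + 1) * (C * L) * infDist y (A j) ≤ (3 * C + 1) * (C * L) * Hx := by gcongr
      have a3 : 0 ≤ C * L * Hx := by positivity
      nlinarith)
    (fun j => by
      have lj := abs_le.1 (lip j)
      refine (abs_max_sub_max_le_max _ _ _ _).trans (max_le (by simp; positivity) ?_)
      rw [abs_le]; constructor <;> nlinarith)
  have av := avg_rank (fun j => infDist x (A j)) (c * Hx) g hC0.le hg (n := rk A i x)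
    (card_le_card fun l hl => by
      rw [mem_filter] at hl ⊢; exact ⟨hl.1, hl.2.trans_le (by nlinarith)⟩)
  have e1 : F x = wavg (φ x) fun j => Fj j x := if_neg hp.ne'
  have e2 : F y = wavg (φ y) fun j => Fj j y := if_neg hpy.ne'
  rw [e1, e2]
  set S := ∑ j, φ x j
  set P := ((rk A i x : ℝ) + 1) ^ g with hP'
  have hP1 : 1 ≤ P := one_le_pow₀ (by linarith [Nat.cast_nonneg (α := ℝ) (rk A i x)])
  have b1 : ∑ j, φ x j * (C * L * Λ * ((rk A j x : ℝ) + 1) ^ g * d) =
      (L * Λ * d) * (C * ∑ j, φ x j * ((rk A j x : ℝ) + 1) ^ g) := by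
    rw [mul_sum, mul_sum]; exact sum_congr rfl fun j _ => by ring
  have b2 : (L * Λ * d) * (C * ∑ j, φ x j * ((rk A j x : ℝ) + 1) ^ g) ≤
      (L * Λ * d) * (S * (P / 2)) := mul_le_mul_of_nonneg_left av (by positivity)
  have b3 : 2 * (Fintype.card ι * (2 * d)) * (7 * C * (C * L) * Hx) =
      (L * Λ * d) * ((c * Hx) * (1 / 2)) := by
    rw [hΛ, hc]; field_simp; ring
  have b4 : (L * Λ * d) * ((c * Hx) * (1 / 2)) ≤ (L * Λ * d) * (S * (P / 2)) := by
    have := hS x
    gcongr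
  have b5 : S * ‖wavg (φ x) (fun j => Fj j x) - wavg (φ y) fun j => Fj j y‖ ≤
      S * (L * Λ * P * d) := by
    rw [b1, b3] at main
    linarith
  exact le_of_mul_le_mul_left b5 hSx

/-- Extension from one piece with polynomial loss. -/
theorem extend [CompleteSpace W] {H : ι → Type*} [∀ j, NormedAddCommGroup (H j)]
    [∀ j, InnerProductSpace ℝ (H j)] (hA : ∀ j, (A j).Nonempty) (hcov : ∀ x, ∃ j, x ∈ A j)
    {e : ∀ j, X → H j} {D : ℝ} (hD : 1 ≤ D) (hg : 40 * D ≤ g + 1)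
    (he : ∀ j, ∀ a ∈ A j, ∀ b ∈ A j, dist a b ≤ ‖e j a - e j b‖ ∧ ‖e j a - e j b‖ ≤ D * dist a b)
    (i : ι) (f : X → W) {L : ℝ} (hL : 0 ≤ L)
    (hf : ∀ a ∈ A i, ∀ b ∈ A i, ‖f a - f b‖ ≤ L * dist a b) :
    ∃ F : X → W, (∀ a ∈ A i, F a = f a) ∧
      ∀ x y, ‖F x - F y‖ ≤ L * (224000 * D ^ 3 * (Fintype.card ι : ℝ) ^ (g + 1)) * dist x y := by
  classical
  have all : ∀ m, PP W A (10 * D) g m := fun m => by
    induction m with
    | zero => exact PP_zero hA hcov (by linarith)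
    | succ m ih =>
      exact PP_succ hA hcov (by linarith) (by linarith)
        (fun i j f L hL hf => transfer (hA i) hD (he j) hL hf) ih
  obtain ⟨F, h1, h2⟩ := all (Fintype.card ι) i f L hL hf
  refine ⟨F, fun a ha => ?_, fun x y => ?_⟩
  · have := h1 a a ha
    rw [dist_self, mul_zero] at this
    exact sub_eq_zero.1 (norm_le_zero_iff.1 this)
  · have hr : rk A i x < Fintype.card ι := by
      rw [← card_univ]
      refine card_lt_card ⟨subset_univ _, fun h => ?_⟩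
      exact lt_irrefl _ (mem_filter.1 (h (mem_univ i))).2
    refine (h2 x y hr.le).trans ?_
    have h3 : ((rk A i x : ℝ) + 1) ≤ Fintype.card ι := by exact_mod_cast hr
    have hD0 : 0 ≤ D := by linarith
    calc _ ≤ L * (224 * Fintype.card ι * (10 * D) ^ 3) * (Fintype.card ι : ℝ) ^ g * dist x y := by
          gcongr
      _ = _ := by ring

end H93Kz
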