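import Pool.Agent.H93.Kz3

namespace H93Kz
open Filter Topology Finset Metric

variable {X : Type*} [PseudoMetricSpace X] {ι : Type*} [Fintype ι]

theorem embed {A : ι → Set X} {g : ℕ} {H : ι → Type*} [∀ j, NormedAddCommGroup (H j)]
    [∀ j, InnerProductSpace ℝ (H j)] [∀ j, CompleteSpace (H j)] (hA : ∀ j, (A j).Nonempty)
    (hcov : ∀ x, ∃ j, x ∈ A j) {e : ∀ j, X → H j} {D : ℝ} (hD : 1 ≤ D) (hg : 40 * D ≤ g + 1)
    (he : ∀ j, ∀ a ∈ A j, ∀ b ∈ A j, dist a b ≤ ‖e j a - e j b‖ ∧ ‖e j a - e j b‖ ≤ D * dist a b) :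
    ∃ G : X → PiLp 2 (fun j => WithLp 2 (H j × ℝ)), ∀ x y, 1 / 2 * dist x y ≤ ‖G x - G y‖ ∧
      ‖G x - G y‖ ≤ 1 / 2 * (1344000 * D ^ 4 * (Fintype.card ι : ℝ) ^ (g + 2)) * dist x y := by
  choose F hF1 hF2 using fun i => extend hA hcov hD hg he i (e i) (L := D) (by linarith)
    (fun a ha b hb => (he i a ha b hb).2)
  set K : ℝ := D * (224000 * D ^ 3 * (Fintype.card ι : ℝ) ^ (g + 1)) with hK
  have hD0 : 0 ≤ D := by linarith
  have hK0 : 0 ≤ K := by positivity
  let G : X → PiLp 2 (fun j => WithLp 2 (H j × ℝ)) := fun x =>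
    WithLp.toLp 2 fun j => WithLp.toLp 2 (F j x, (K + 1) * infDist x (A j))
  have hc : ∀ x y j, ‖(G x - G y) j‖ ^ 2 =
      ‖F j x - F j y‖ ^ 2 + ((K + 1) * |infDist x (A j) - infDist y (A j)|) ^ 2 := fun x y j => by
    rw [WithLp.prod_norm_sq_eq_of_L2]
    simp only [G, PiLp.sub_apply, WithLp.sub_fst, WithLp.sub_snd, WithLp.toLp_fst,
      WithLp.toLp_snd, Real.norm_eq_abs, ← mul_sub, abs_mul,
      abs_of_nonneg (by linarith : 0 ≤ K + 1)]
  refine ⟨G, fun x y => ⟨?_, ?_⟩⟩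
  · obtain ⟨i, hi⟩ := hcov x
    have a1 : ‖(G x - G y) i‖ ≤ ‖G x - G y‖ := PiLp.norm_apply_le _ _
    have a2 := hc x y i
    rw [infDist_zero_of_mem hi, zero_sub, abs_neg, abs_of_nonneg infDist_nonneg] at a2
    have hy : 0 ≤ infDist y (A i) := infDist_nonneg
    have a3 : ‖F i x - F i y‖ ≤ ‖(G x - G y) i‖ :=
      (abs_le_of_sq_le_sq' (by rw [a2]; nlinarith) (norm_nonneg _)).2
    have a4 : (K + 1) * infDist y (A i) ≤ ‖(G x - G y) i‖ :=
      (abs_le_of_sq_le_sq' (by rw [a2]; nlinarith) (norm_nonneg _)).2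
    have a5 : dist x y ≤ ‖F i x - F i y‖ + (K + 1) * infDist y (A i) := by
      refine le_inf (hA i) (by linarith) fun b hb => ?_
      have b1 := (he i x hi b hb).1
      rw [← hF1 i x hi, ← hF1 i b hb] at b1
      have b2 := norm_sub_le_norm_sub_add_norm_sub (F i x) (F i y) (F i b)
      have b3 := hF2 i y b
      have b4 := dist_triangle_right x y b
      linarith
    linarith
  · have hd : 0 ≤ dist x y := dist_nonneg
    obtain ⟨i, -⟩ := hcov x
    have hk : (1 : ℝ) ≤ Fintype.card ι := by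
      have : Nonempty ι := ⟨i⟩
      exact_mod_cast Fintype.card_pos
    have hK1 : 1 ≤ K := by
      have : (1 : ℝ) ≤ D ^ 3 := one_le_pow₀ hD
      have : (1 : ℝ) ≤ (Fintype.card ι : ℝ) ^ (g + 1) := one_le_pow₀ hk
      calc (1 : ℝ) = 1 * (1 * 1 * 1) := by ring
        _ ≤ K := by rw [hK]; gcongr; norm_num
    have b : ∀ j, ‖(G x - G y) j‖ ^ 2 ≤ (3 * K * dist x y) ^ 2 := fun j => by
      rw [hc]
      have a1 := infDist_le_infDist_add_dist (s := A j) (x := x) (y := y)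
      have a2 := infDist_le_infDist_add_dist (s := A j) (x := y) (y := x)
      rw [dist_comm y x] at a2
      have a3 : |infDist x (A j) - infDist y (A j)| ≤ dist x y := by
        rw [abs_le]; constructor <;> linarith
      have a4 : ‖F j x - F j y‖ ^ 2 ≤ (K * dist x y) ^ 2 := by gcongr; exact hF2 j x y
      have a5 : ((K + 1) * |infDist x (A j) - infDist y (A j)|) ^ 2 ≤ (2 * K * dist x y) ^ 2 := by
        gcongr; linarith
      nlinarith [sq_nonneg (K * dist x y)]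
    have e1 : 1 / 2 * (1344000 * D ^ 4 * (Fintype.card ι : ℝ) ^ (g + 2)) * dist x y =
        Fintype.card ι * (3 * K * dist x y) := by rw [hK]; ring
    rw [e1]
    refine (abs_le_of_sq_le_sq' ?_ (by positivity)).2
    rw [PiLp.norm_sq_eq_of_L2]
    refine (sum_le_card_nsmul _ _ _ fun j _ => b j).trans ?_
    rw [card_univ, nsmul_eq_mul, mul_pow (Fintype.card ι : ℝ)]
    gcongr
    nlinarith

open Classical in
/-- Version with scales, possibly empty pieces, and a sub-union. -/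
theorem embed' {k : ℕ} (A : Fin k → Set X) {g : ℕ} {H : Fin k → Type*}
    [∀ j, NormedAddCommGroup (H j)] [∀ j, InnerProductSpace ℝ (H j)] [∀ j, CompleteSpace (H j)]
    {D : ℝ} (hD : 1 ≤ D) (hg : 40 * D ≤ g + 1)
    (he : ∀ j, ∃ (f : A j → H j) (s : ℝ), 0 < s ∧ ∀ x y : A j,
      s * dist (x : X) (y : X) ≤ ‖f x - f y‖ ∧ ‖f x - f y‖ ≤ s * D * dist (x : X) (y : X)) :
    ∃ G : (⋃ j, A j) → PiLp 2 (fun j : {j // (A j).Nonempty} => WithLp 2 (H j × ℝ)),
      ∀ x y : (⋃ j, A j), 1 / 2 * dist (x : X) (y : X) ≤ ‖G x - G y‖ ∧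
      ‖G x - G y‖ ≤ 1 / 2 * (1344000 * D ^ 4 * (k : ℝ) ^ (g + 2)) * dist (x : X) (y : X) := by
  choose f s hs hf using he
  let e : ∀ j : {j // (A j).Nonempty}, (⋃ j, A j) → H j := fun j x =>
    if h : (x : X) ∈ A j then (s j)⁻¹ • f j ⟨x, h⟩ else 0
  obtain ⟨G, hG⟩ := embed (X := (⋃ j, A j)) (A := fun j : {j // (A j).Nonempty} =>
    {x | (x : X) ∈ A j}) (g := g) (e := e) (D := D)
    (fun j => by
      obtain ⟨x, hx⟩ := j.2
      exact ⟨⟨x, Set.mem_iUnion.2 ⟨j, hx⟩⟩, hx⟩)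
    (fun x => by
      obtain ⟨j, hj⟩ := Set.mem_iUnion.1 x.2
      exact ⟨⟨j, x, hj⟩, hj⟩) hD hg
    (fun j a ha b hb => by
      have ha' : (a : X) ∈ A j := ha
      have hb' : (b : X) ∈ A j := hb
      obtain ⟨h1, h2⟩ := hf j ⟨a, ha'⟩ ⟨b, hb'⟩
      simp only [e, ha', hb', dif_pos]
      rw [← smul_sub, norm_smul, Real.norm_eq_abs, abs_of_pos (inv_pos.2 (hs j))]
      constructor
      · rw [le_inv_mul_iff₀ (hs j)]; exact h1
      · rw [inv_mul_le_iff₀ (hs j), ← mul_assoc]; exact h2)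
  refine ⟨G, fun x y => ⟨(hG x y).1, (hG x y).2.trans ?_⟩⟩
  have : (Fintype.card {j // (A j).Nonempty} : ℝ) ≤ k := by
    have := Fintype.card_subtype_le fun j => (A j).Nonempty
    rw [Fintype.card_fin] at this
    exact_mod_cast this
  have hD0 : 0 ≤ D := by linarith
  change _ ≤ _ * dist x y
  gcongr

lemma l2_sep : TopologicalSpace.SeparableSpace (lp (fun _ : ℕ => ℝ) 2) := by
  have h : TopologicalSpace.IsSeparable (Set.range fun n : ℕ => lp.single (E := fun _ : ℕ => ℝ) 2 n 1) :=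
    (Set.countable_range _).isSeparable
  have h2 := (h.span (R := ℝ)).closure
  rw [← TopologicalSpace.isSeparable_univ_iff]
  refine h2.mono fun x _ => ?_
  refine mem_closure_of_tendsto (lp.hasSum_single (by norm_num) x)
    (Eventually.of_forall fun s => ?_)
  refine Submodule.sum_mem _ fun n _ => ?_
  have : lp.single (E := fun _ : ℕ => ℝ) 2 n (x n) = x n • lp.single 2 n 1 := by
    rw [← lp.single_smul, smul_eq_mul, mul_one]
  rw [this]
  exact Submodule.smul_mem _ _ (Submodule.subset_span ⟨n, rfl⟩)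

lemma into_l2 (E : Type*) [NormedAddCommGroup E] [InnerProductSpace ℝ E] [CompleteSpace E]
    [TopologicalSpace.SeparableSpace E] : Nonempty (E →ₗᵢ[ℝ] lp (fun _ : ℕ => ℝ) 2) := by
  classical
  obtain ⟨w, b, hb⟩ := exists_hilbertBasis ℝ E
  have ho := b.orthonormal
  have hc : Countable w := by
    refine Pairwise.countable_of_isOpen_disjoint (s := fun i : w => ball (b i) (1 / 2))
      (fun i j hij => ball_disjoint_ball ?_) (fun _ => isOpen_ball)
      (fun _ => nonempty_ball.2 (by norm_num))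
    rw [dist_eq_norm]
    refine (abs_le_of_sq_le_sq' ?_ (norm_nonneg _)).2
    rw [norm_sub_sq_real, ho.1, ho.1, ho.2 hij]; norm_num
  obtain ⟨u, hu⟩ := Countable.exists_injective_nat w
  have hv : Orthonormal ℝ fun i : w => lp.single (E := fun _ : ℕ => ℝ) 2 (u i) 1 := by
    rw [orthonormal_iff_ite]
    intro i j
    rw [lp.inner_single_left]
    by_cases h : i = j
    · subst h; simp
    · have : u i ≠ u j := fun e => h (hu e)
      simp [lp.single_apply, h, this]
  exact ⟨hv.orthogonalFamily.linearIsometry.comp b.repr.toLinearIsometry⟩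

end H93Kz
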