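import Mathlib

set_option autoImplicit false

/-! Weighted Rudin–Shapiro functionals: lower bound for the Wiener norm from lacunary bumps. -/

namespace Pool.Agent.H93.Log1

open Complex Finset

/-- the pair of functionals -/
noncomputable def PQ (a : ℕ → ℂ) (t : ℕ → ℝ) : ℕ → (ℝ → ℂ) → ℂ × ℂ
  | 0, H => (0, H 0)
  | j + 1, H => ((PQ a t j H).1 + a j * (PQ a t j (fun s => H (s + t j))).2,
      (PQ a t j H).2 - (starRingEnd ℂ) (a j) * (PQ a t j (fun s => H (s - t j))).1)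

lemma PQ_smul (a : ℕ → ℂ) (t : ℕ → ℝ) (c : ℂ) : ∀ (j : ℕ) (H : ℝ → ℂ),
    PQ a t j (fun s => c * H s) = (c * (PQ a t j H).1, c * (PQ a t j H).2)
  | 0, H => by simp [PQ]
  | j + 1, H => by
    simp only [PQ]
    rw [PQ_smul a t c j H, PQ_smul a t c j (fun s => H (s + t j)),
      PQ_smul a t c j (fun s => H (s - t j))]
    ext <;> simp only <;> ring

lemma PQ_hasSum (a : ℕ → ℂ) (t : ℕ → ℝ) : ∀ (j : ℕ) (G : ℕ → ℝ → ℂ) (H : ℝ → ℂ),
    (∀ s, HasSum (fun k => G k s) (H s)) →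
    HasSum (fun k => (PQ a t j (G k)).1) (PQ a t j H).1 ∧
      HasSum (fun k => (PQ a t j (G k)).2) (PQ a t j H).2
  | 0, G, H, h => by
    simp only [PQ]
    exact ⟨hasSum_zero, h 0⟩
  | j + 1, G, H, h => by
    simp only [PQ]
    have h1 := PQ_hasSum a t j G H h
    have h2 := PQ_hasSum a t j (fun k s => G k (s + t j)) (fun s => H (s + t j)) (fun s => h _)
    have h3 := PQ_hasSum a t j (fun k s => G k (s - t j)) (fun s => H (s - t j)) (fun s => h _)
    exact ⟨h1.1.add (h2.2.mul_left _), h1.2.sub (h3.1.mul_left _)⟩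

/-- the exponential -/
noncomputable def ex (m s : ℝ) : ℂ := exp (I * (m * s : ℝ))

lemma ex_add (m s t : ℝ) : ex m (s + t) = ex m t * ex m s := by
  unfold ex; rw [← exp_add]; congr 1; push_cast; ring

lemma ex_sub (m s t : ℝ) : ex m (s - t) = (starRingEnd ℂ) (ex m t) * ex m s := by
  unfold ex; rw [← exp_conj, ← exp_add]; congr 1; simp; ring

lemma norm_ex (m s : ℝ) : ‖ex m s‖ = 1 := by
  unfold ex; rw [mul_comm]; exact norm_exp_ofReal_mul_I _

lemma rs_identity (P Q b : ℂ) :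
    normSq (P + b * Q) + normSq (Q - (starRingEnd ℂ) b * P) =
      (1 + normSq b) * (normSq P + normSq Q) := by
  simp only [normSq_apply, add_re, mul_re, add_im, mul_im, sub_re, sub_im, conj_re, conj_im]
  ring

lemma PQ_ex (a : ℕ → ℂ) (t : ℕ → ℝ) (ε : ℝ) (ha : ∀ j, ‖a j‖ ≤ ε) (m : ℝ) : ∀ j : ℕ,
    normSq (PQ a t j (ex m)).1 + normSq (PQ a t j (ex m)).2 ≤ (1 + ε ^ 2) ^ j
  | 0 => by simp [PQ, ex]
  | j + 1 => by
    have ih := PQ_ex a t ε ha m j
    simp only [PQ]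
    have e1 : (fun s => ex m (s + t j)) = fun s => ex m (t j) * ex m s := by
      funext s; exact ex_add _ _ _
    have e2 : (fun s => ex m (s - t j)) = fun s => (starRingEnd ℂ) (ex m (t j)) * ex m s := by
      funext s; exact ex_sub _ _ _
    rw [e1, e2, PQ_smul, PQ_smul]
    simp only
    rw [← mul_assoc, ← mul_assoc, ← map_mul, rs_identity]
    have hb : normSq (a j * ex m (t j)) ≤ ε ^ 2 := by
      rw [normSq_eq_norm_sq, norm_mul, norm_ex, mul_one]
      exact pow_le_pow_left₀ (norm_nonneg _) (ha j) 2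
    have h0 : 0 ≤ normSq (PQ a t j (ex m)).1 + normSq (PQ a t j (ex m)).2 :=
      add_nonneg (normSq_nonneg _) (normSq_nonneg _)
    rw [pow_succ (1 + ε ^ 2) j, mul_comm ((1 + ε ^ 2) ^ j)]
    exact mul_le_mul (by linarith) ih h0 (by positivity)

section supp
variable (a : ℕ → ℂ) (t : ℕ → ℝ) (ε η : ℝ) (W : ℕ) (ha : ∀ j, ‖a j‖ ≤ ε) (hη : 0 ≤ η)
  (ht0 : 2 * η ≤ t 0) (ht : ∀ j, j + 1 < W → 2 * t j ≤ t (j + 1))
include hη ht0 ht

lemma t_ge : ∀ j, j < W → 2 * η ≤ t j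
  | 0, _ => ht0
  | j + 1, h => by
    have := t_ge j (by omega)
    have := ht j h
    linarith

include ha
lemma PQ_supp : ∀ j, j < W → ∀ (H : ℝ → ℂ) (δ : ℝ), 0 ≤ δ →
    ((∀ s, η ≤ s → s ≤ t j / 2 → ‖H s‖ ≤ δ) → ‖(PQ a t j H).1‖ ≤ (1 + ε) ^ j * δ) ∧
    ((∀ s, -(t j / 2) ≤ s → s ≤ -η → ‖H s‖ ≤ δ) →
      ‖(PQ a t j H).2 - H 0‖ ≤ ((1 + ε) ^ j - 1) * δ)
  | 0, _, H, δ, hδ => by simp [PQ, hδ]
  | j + 1, hj, H, δ, hδ => by
    have hε : 0 ≤ ε := (norm_nonneg _).trans (ha 0)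
    have hj' : j < W := by omega
    have h1 := t_ge t η W hη ht0 ht j hj'
    have h2 := ht j hj
    have hp : 0 ≤ (1 + ε) ^ j := by positivity
    constructor
    · intro hH
      simp only [PQ]
      have A := (PQ_supp j hj' H δ hδ).1 (fun s s1 s2 => hH s s1 (by linarith))
      have B := (PQ_supp j hj' (fun s => H (s + t j)) δ hδ).2
        (fun s s1 s2 => hH _ (by linarith) (by linarith))
      have C : ‖H (0 + t j)‖ ≤ δ := hH _ (by linarith) (by linarith)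
      have D : ‖(PQ a t j (fun s => H (s + t j))).2‖ ≤ (1 + ε) ^ j * δ := by
        have := norm_add_le ((PQ a t j (fun s => H (s + t j))).2 - H (0 + t j)) (H (0 + t j))
        rw [sub_add_cancel] at this
        linarith
      have E : ‖a j * (PQ a t j (fun s => H (s + t j))).2‖ ≤ ε * ((1 + ε) ^ j * δ) := by
        rw [norm_mul]; exact mul_le_mul (ha j) D (norm_nonneg _) hε
      refine (norm_add_le _ _).trans ?_
      rw [pow_succ]; linarith
    · intro hH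
      simp only [PQ]
      have A := (PQ_supp j hj' H δ hδ).2 (fun s s1 s2 => hH s (by linarith) s2)
      have B := (PQ_supp j hj' (fun s => H (s - t j)) δ hδ).1
        (fun s s1 s2 => hH _ (by linarith) (by linarith))
      have E : ‖(starRingEnd ℂ) (a j) * (PQ a t j (fun s => H (s - t j))).1‖ ≤
          ε * ((1 + ε) ^ j * δ) := by
        rw [norm_mul, norm_conj]; exact mul_le_mul (ha j) B (norm_nonneg _) hε
      rw [sub_right_comm]
      refine (norm_sub_le _ _).trans ?_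
      rw [pow_succ]; linarith

lemma PQ_main (H : ℝ → ℂ) (δ : ℝ) (hδ : 0 ≤ δ)
    (hH : ∀ i, i < W → ∀ s, t i / 2 ≤ s → s ≤ t i - η → ‖H s‖ ≤ δ) : ∀ j, j ≤ W →
    ‖(PQ a t j H).1 - ∑ i ∈ range j, a i * H (t i)‖ ≤ (1 + ε) ^ j * δ
  | 0, _ => by simp [PQ, hδ]
  | j + 1, hj => by
    have hε : 0 ≤ ε := (norm_nonneg _).trans (ha 0)
    have hj' : j < W := by omega
    have ih := PQ_main H δ hδ hH j hj'.le
    have B := (PQ_supp a t ε η W ha hη ht0 ht j hj' (fun s => H (s + t j)) δ hδ).2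
      (fun s s1 s2 => hH j hj' _ (by linarith) (by linarith))
    simp only [zero_add] at B
    simp only [PQ]
    rw [sum_range_succ]
    have e : (PQ a t j H).1 + a j * (PQ a t j fun s => H (s + t j)).2 -
        (∑ i ∈ range j, a i * H (t i) + a j * H (t j)) =
        ((PQ a t j H).1 - ∑ i ∈ range j, a i * H (t i)) +
          a j * ((PQ a t j fun s => H (s + t j)).2 - H (t j)) := by ring
    rw [e]
    refine (norm_add_le _ _).trans ?_
    have E : ‖a j * ((PQ a t j fun s => H (s + t j)).2 - H (t j))‖ ≤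
        ε * (((1 + ε) ^ j - 1) * δ) := by
      rw [norm_mul]; exact mul_le_mul (ha j) B (norm_nonneg _) hε
    have : 0 ≤ ε * δ := mul_nonneg hε hδ
    rw [pow_succ]; nlinarith

end supp

/-- Wiener norm lower bound. -/
theorem wiener (c : ℕ → ℂ) (m : ℕ → ℝ) (H : ℝ → ℂ) (hc : Summable fun k => ‖c k‖)
    (hH : ∀ s, HasSum (fun k => c k * ex (m k) s) (H s))
    (t : ℕ → ℝ) (ε η δ L : ℝ) (W : ℕ) (hε : 0 ≤ ε) (hε1 : ε ≤ 1) (hεW : ε ^ 2 * W ≤ 1)
    (hη : 0 ≤ η) (hδ : 0 ≤ δ)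
    (ht0 : 2 * η ≤ t 0) (ht : ∀ j, j + 1 < W → 2 * t j ≤ t (j + 1))
    (hbad : ∀ i, i < W → ∀ s, t i / 2 ≤ s → s ≤ t i - η → ‖H s‖ ≤ δ)
    (hgood : ∀ i, i < W → L ≤ ‖H (t i)‖) :
    ε * W * L ≤ 2 * (∑' k, ‖c k‖) + 2 ^ W * δ := by
  set a : ℕ → ℂ := fun i => ε * ((starRingEnd ℂ) (H (t i)) / ‖H (t i)‖) with ha_def
  have ha : ∀ j, ‖a j‖ ≤ ε := by
    intro j
    simp only [ha_def, norm_mul, norm_div, norm_conj, norm_real, Real.norm_eq_abs, abs_norm,
      abs_of_nonneg hε]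
    exact mul_le_of_le_one_right hε (div_self_le_one _)
  have haH : ∀ i, a i * H (t i) = ((ε * ‖H (t i)‖ : ℝ) : ℂ) := by
    intro i
    simp only [ha_def]
    by_cases h0 : H (t i) = 0
    · simp [h0]
    · have : (‖H (t i)‖ : ℂ) ≠ 0 := by simpa using h0
      push_cast
      field_simp
      rw [mul_assoc, conj_mul']
  have hM := PQ_main a t ε η W ha hη ht0 ht H δ hδ hbad W le_rfl
  have hS := (PQ_hasSum a t W (fun k s => c k * ex (m k) s) H hH).1
  have hb : ∀ k, ‖(PQ a t W (fun s => c k * ex (m k) s)).1‖ ≤ 2 * ‖c k‖ := by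
    intro k
    rw [PQ_smul]
    simp only [norm_mul]
    rw [mul_comm]
    refine mul_le_mul_of_nonneg_right ?_ (norm_nonneg _)
    have h1 := PQ_ex a t ε ha (m k) W
    have h2 : (1 + ε ^ 2) ^ W ≤ Real.exp 1 := by
      calc (1 + ε ^ 2) ^ W ≤ (Real.exp (ε ^ 2)) ^ W := by
            gcongr; linarith [Real.add_one_le_exp (ε ^ 2)]
        _ = Real.exp (ε ^ 2 * W) := by rw [← Real.exp_nat_mul]; ring_nf
        _ ≤ Real.exp 1 := Real.exp_le_exp.2 hεW
    have h3 := Real.exp_one_lt_d9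
    have h4 := normSq_nonneg (PQ a t W (ex (m k))).2
    rw [normSq_eq_norm_sq] at h1
    have h5 : ‖(PQ a t W (ex (m k))).1‖ ^ 2 ≤ 2 ^ 2 := by linarith
    exact (pow_le_pow_iff_left₀ (norm_nonneg _) (by norm_num) (by norm_num)).1 h5
  have hP : ‖(PQ a t W H).1‖ ≤ 2 * ∑' k, ‖c k‖ := by
    rw [← tsum_mul_left]
    exact hS.norm_le_of_bounded (hc.mul_left 2).hasSum hb
  have hsum : ε * W * L ≤ ‖∑ i ∈ range W, a i * H (t i)‖ := by
    simp only [haH]
    rw [← ofReal_sum, norm_real, Real.norm_eq_abs]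
    refine le_trans ?_ (le_abs_self _)
    have : ∑ _i ∈ range W, ε * L ≤ ∑ i ∈ range W, ε * ‖H (t i)‖ :=
      sum_le_sum fun i hi => mul_le_mul_of_nonneg_left (hgood i (mem_range.1 hi)) hε
    simp only [sum_const, card_range, nsmul_eq_mul] at this
    linarith
  have h2 : (1 + ε) ^ W * δ ≤ 2 ^ W * δ := by gcongr; linarith
  have := norm_sub_norm_le (∑ i ∈ range W, a i * H (t i)) (PQ a t W H).1
  rw [norm_sub_rev] at this
  linarith

end Pool.Agent.H93.Log1
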