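import Mathlib

set_option autoImplicit false

/-! Univalence criterion, logarithmic coefficients, lower bound away from zero. -/

namespace Pool.Agent.H93.Log2

open Complex Metric Set Filter Topology

lemma hs_congr {f g : ℕ → ℂ} {a b : ℂ} (h : HasSum f a) (h1 : ∀ k, g k = f k) (h2 : b = a) :
    HasSum g b := by
  rw [h2, show g = f from funext h1]; exact h

lemma mem_half {z : ℂ} (hz : ‖z‖ < 1) : 1 / 2 < (1 / (1 - z)).re := by
  have h1 : 1 - z ≠ 0 := by
    intro h; have : z = 1 := by linear_combination -h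
    simp [this] at hz
  have h2 : 0 < normSq (1 - z) := normSq_pos.2 h1
  have h3 : normSq z < 1 := by rw [normSq_eq_norm_sq]; nlinarith [norm_nonneg z]
  rw [one_div (1 - z), inv_re, lt_div_iff₀ h2]
  simp only [normSq_apply, sub_re, one_re, sub_im, one_im] at *
  nlinarith

lemma half_mem {x : ℂ} (hx : 1 / 2 < x.re) : ‖1 - 1 / x‖ < 1 := by
  have h1 : x ≠ 0 := by intro h; rw [h] at hx; norm_num at hx
  have : 1 - 1 / x = (x - 1) / x := by field_simp
  rw [this, norm_div, div_lt_one (norm_pos_iff.2 h1)]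
  apply lt_of_pow_lt_pow_left₀ 2 (norm_nonneg _)
  rw [← normSq_eq_norm_sq, ← normSq_eq_norm_sq]
  simp only [normSq_apply, sub_re, one_re, sub_im, one_im]
  nlinarith

/-- close-to-convex criterion -/
theorem injOn_of_re_pos (F D : ℂ → ℂ) (hF : ∀ z, ‖z‖ < 1 → HasDerivAt F (D z) z)
    (hD : ∀ z, ‖z‖ < 1 → 0 < ((1 - z) ^ 2 * D z).re) : InjOn F (ball (0 : ℂ) 1) := by
  intro z₁ h₁ z₂ h₂ hE
  rw [mem_ball_zero_iff] at h₁ h₂
  by_contra hne
  have n1 : ∀ z : ℂ, ‖z‖ < 1 → 1 - z ≠ 0 := by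
    intro z hz h; have : z = 1 := by linear_combination -h
    simp [this] at hz
  set x₁ := 1 / (1 - z₁) with hx₁
  set x₂ := 1 / (1 - z₂) with hx₂
  have hx : x₂ - x₁ ≠ 0 := by
    intro h
    apply hne
    have a := n1 z₁ h₁
    have b := n1 z₂ h₂
    rw [hx₁, hx₂] at h
    field_simp at h
    linear_combination -h
  set p : ℝ → ℂ := fun τ => x₁ + τ * (x₂ - x₁) with hp
  have hpm : ∀ τ ∈ Icc (0 : ℝ) 1, 1 / 2 < (p τ).re := by
    intro τ hτ
    have a := mem_half h₁
    have b := mem_half h₂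
    rw [← hx₁] at a; rw [← hx₂] at b
    simp only [hp, add_re, re_ofReal_mul, sub_re]
    rcases le_total x₁.re x₂.re with h | h
    · nlinarith [hτ.1, hτ.2]
    · nlinarith [hτ.1, hτ.2]
  set g : ℝ → ℝ := fun τ => (F (1 - 1 / p τ) / (x₂ - x₁)).re with hg
  have hder : ∀ τ ∈ Icc (0 : ℝ) 1,
      HasDerivAt g (((1 - (1 - 1 / p τ)) ^ 2 * D (1 - 1 / p τ)).re) τ := by
    intro τ hτ
    have hp0 : p τ ≠ 0 := by intro h; have := hpm τ hτ; rw [h] at this; norm_num at this
    have d1 : HasDerivAt (fun w : ℂ => x₁ + w * (x₂ - x₁)) (x₂ - x₁) (τ : ℂ) := by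
      simpa using ((hasDerivAt_id (τ : ℂ)).mul_const (x₂ - x₁)).const_add x₁
    have d2 : HasDerivAt (fun w : ℂ => 1 - 1 / (x₁ + w * (x₂ - x₁)))
        ((x₂ - x₁) / (p τ) ^ 2) (τ : ℂ) := by
      have := (d1.fun_inv hp0).const_sub 1
      simp only [one_div]
      refine this.congr_deriv ?_
      simp only [hp]; ring
    have d3 := ((hF _ (half_mem (hpm τ hτ))).comp (τ : ℂ) d2).div_const (x₂ - x₁)
    have d4 := d3.real_of_complex
    refine d4.congr_deriv ?_
    congr 1
    field_simp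
    ring
  have hcont : ContinuousOn g (Icc 0 1) := fun τ hτ => (hder τ hτ).continuousAt.continuousWithinAt
  have hmono : StrictMonoOn g (Icc 0 1) := by
    apply strictMonoOn_of_deriv_pos (convex_Icc 0 1) hcont
    intro τ hτ
    have hτ' := interior_subset hτ
    rw [(hder τ hτ').deriv]
    exact hD _ (half_mem (hpm τ hτ'))
  have := hmono (show (0 : ℝ) ∈ Icc 0 1 by simp) (show (1 : ℝ) ∈ Icc 0 1 by simp) zero_lt_one
  simp only [hg, hp, hx₁, hx₂] at this
  simp [hE] at this

/-- lower bound away from the origin -/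
theorem lower_bound (F : ℂ → ℂ) (d : ℂ) (hd : d ≠ 0) (hF : AnalyticAt ℂ F 0) (h0 : F 0 = 0)
    (hd' : deriv F 0 = d) (hinj : InjOn F (ball (0 : ℂ) 1)) :
    ∃ c > 0, ∀ z : ℂ, 1 / 2 ≤ ‖z‖ → ‖z‖ < 1 → c ≤ ‖F z‖ := by
  have hs : HasStrictDerivAt F d 0 := hd' ▸ hF.hasStrictDerivAt
  have hm := hs.map_nhds_eq hd
  have : F '' ball 0 (1 / 2) ∈ 𝓝 (F 0) := by
    rw [← hm]; exact image_mem_map (ball_mem_nhds _ (by norm_num))
  obtain ⟨c, hc, hsub⟩ := Metric.mem_nhds_iff.1 this
  refine ⟨c, hc, fun z h1 h2 => ?_⟩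
  by_contra hlt
  push Not at hlt
  have : F z ∈ ball (F 0) c := by rw [h0, mem_ball_zero_iff]; exact hlt
  obtain ⟨w, hw, hwz⟩ := hsub this
  rw [mem_ball_zero_iff] at hw
  have := hinj (mem_ball_zero_iff.2 (by linarith)) (mem_ball_zero_iff.2 h2) hwz
  rw [this] at hw; linarith

/-- logarithmic coefficients -/
theorem log_coeffs (f : ℂ → ℂ) (hf : DifferentiableOn ℂ f (ball 0 1)) (h0 : f 0 = 0)
    (h1 : deriv f 0 = 1) (hinj : InjOn f (ball (0 : ℂ) 1)) :
    ∃ γ : ℕ → ℂ, (∀ z : ℂ, ‖z‖ < 1 → z ≠ 0 →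
        ∃ s : ℂ, HasSum (fun k : ℕ => γ (k + 1) * z ^ (k + 1)) s ∧
          f z = z * Complex.exp (2 * s)) ∧
      ∀ z : ℂ, ‖z‖ < 1 → z ≠ 0 →
        HasSum (fun k : ℕ => 2 * (((k : ℂ) + 1) * γ (k + 1) * z ^ (k + 1)))
          (z * deriv f z / f z - 1) := by
  set g := dslope f 0 with hg
  have hgd : DifferentiableOn ℂ g (ball 0 1) :=
    (differentiableOn_dslope (ball_mem_nhds _ one_pos)).2 hf
  have hfg : ∀ z, f z = z * g z := by
    intro z
    have := sub_smul_dslope f 0 z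
    rw [h0] at this
    simpa using this.symm
  have hg0 : g 0 = 1 := by rw [hg, dslope_same, h1]
  have hgne : ∀ z ∈ ball (0 : ℂ) 1, g z ≠ 0 := by
    intro z hz h
    have : f z = f 0 := by rw [hfg z, h, h0, mul_zero]
    have := hinj hz (mem_ball_self one_pos) this
    rw [this, hg0] at h; exact one_ne_zero h
  have hq : DifferentiableOn ℂ (fun z => deriv g z / g z) (ball 0 1) :=
    (hgd.deriv isOpen_ball).div hgd hgne
  obtain ⟨L, hL0, hL⟩ := hq.isExactOn_ball.with_val_at 0 0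
  have hLd : DifferentiableOn ℂ L (ball 0 1) :=
    fun z hz => (hL z hz).differentiableAt.differentiableWithinAt
  have hgat : ∀ z ∈ ball (0 : ℂ) 1, HasDerivAt g (deriv g z) z :=
    fun z hz => (hgd.differentiableAt (isOpen_ball.mem_nhds hz)).hasDerivAt
  have hconst : ∀ z ∈ ball (0 : ℂ) 1, g z * exp (-L z) = 1 := by
    have hd : ∀ z ∈ ball (0 : ℂ) 1, HasDerivAt (fun z => g z * exp (-L z)) 0 z := by
      intro z hz
      have := (hgat z hz).fun_mul ((hL z hz).fun_neg.cexp)
      refine this.congr_deriv ?_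
      have := hgne z hz
      field_simp
      ring
    intro z hz
    have := IsOpen.is_const_of_deriv_eq_zero (𝕜 := ℂ) isOpen_ball (convex_ball (0 : ℂ) 1).isPreconnected
      (fun z hz => (hd z hz).differentiableAt.differentiableWithinAt)
      (fun z hz => (hd z hz).deriv) hz (mem_ball_self one_pos)
    rw [this, hg0, hL0]; simp
  have hge : ∀ z ∈ ball (0 : ℂ) 1, g z = exp (L z) := by
    intro z hz
    have := hconst z hz
    rw [exp_neg] at this
    have h := exp_ne_zero (L z)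
    field_simp at this
    exact this
  refine ⟨fun n => ((n.factorial : ℂ))⁻¹ * iteratedDeriv n L 0 / 2, ?_, ?_⟩
  · intro z hz _
    have hz' : z ∈ ball (0 : ℂ) 1 := mem_ball_zero_iff.2 hz
    have hs := hasSum_taylorSeries_on_ball hLd hz'
    have hs' := (hasSum_nat_add_iff' 1).2 hs
    refine ⟨L z / 2, ?_, ?_⟩
    · refine hs_congr (hs'.div_const 2) ?_ ?_
      · intro k; simp only [smul_eq_mul, sub_zero]; ring
      · simp [hL0]
    · rw [hfg z, hge z hz']; congr 2; ring
  · intro z hz hz0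
    have hz' : z ∈ ball (0 : ℂ) 1 := mem_ball_zero_iff.2 hz
    have hs := (hasSum_taylorSeries_on_ball (hLd.deriv isOpen_ball) hz').mul_left z
    refine hs_congr hs ?_ ?_
    · intro k
      simp only [smul_eq_mul, sub_zero]
      rw [iteratedDeriv_succ', Nat.factorial_succ]
      have : (k.factorial : ℂ) ≠ 0 := by exact_mod_cast k.factorial_ne_zero
      have : ((k : ℂ) + 1) ≠ 0 := by exact_mod_cast k.succ_ne_zero
      push_cast
      field_simp
      ring
    · rw [(hL z hz').deriv]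
      have hf' : HasDerivAt f (1 * g z + z * deriv g z) z := by
        have := (hasDerivAt_id' z).fun_mul (hgat z hz')
        rw [show f = fun w => w * g w from funext hfg]
        exact this
      rw [hf'.deriv, hfg z]
      have := hgne z hz'
      field_simp
      ring

end Pool.Agent.H93.Log2
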