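import Mathlib

set_option autoImplicit false

/-! A close-to-convex function with lacunary fingers: estimates. -/

namespace Pool.Agent.H93.Log3

open Complex Metric Set Filter Topology Finset

/-- unit exponential -/
noncomputable def E (s : ℝ) : ℂ := exp (I * s)

lemma norm_E (s : ℝ) : ‖E s‖ = 1 := by unfold E; rw [mul_comm]; exact norm_exp_ofReal_mul_I _
lemma E_add (s t : ℝ) : E (s + t) = E s * E t := by
  unfold E; rw [← exp_add]; congr 1; push_cast; ring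
lemma E_re (s : ℝ) : (E s).re = Real.cos s := by
  unfold E; rw [mul_comm]; exact exp_ofReal_mul_I_re s
lemma E_im (s : ℝ) : (E s).im = Real.sin s := by
  unfold E; rw [mul_comm]; exact exp_ofReal_mul_I_im s
lemma E_zero : E 0 = 1 := by simp [E]
lemma norm_one_sub_E (s : ℝ) : ‖1 - E s‖ ≤ |s| := by
  rw [norm_sub_rev]; exact Real.norm_exp_I_mul_ofReal_sub_one_le
lemma norm_rE {r : ℝ} (hr : 0 ≤ r) (s : ℝ) : ‖(r : ℂ) * E s‖ = r := by
  rw [norm_mul, norm_E, norm_real, Real.norm_eq_abs, abs_of_nonneg hr, mul_one]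

lemma chord_sq (r t : ℝ) : ‖1 - (r : ℂ) * E t‖ ^ 2 = (1 - r) ^ 2 + 2 * r * (1 - Real.cos t) := by
  rw [← normSq_eq_norm_sq, normSq_apply]
  simp only [sub_re, one_re, re_ofReal_mul, sub_im, one_im, im_ofReal_mul, E_re, E_im]
  linear_combination r ^ 2 * Real.cos_sq_add_sin_sq t

lemma one_sub_cos_ge {t : ℝ} (ht : |t| ≤ 2) : t ^ 2 / 5 ≤ 1 - Real.cos t := by
  have h1 := Real.cos_le_one_sub_mul_cos_sq (x := t) (by linarith [Real.pi_gt_three])
  have h2 : (1 : ℝ) / 5 ≤ 2 / Real.pi ^ 2 := by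
    rw [div_le_div_iff₀ (by norm_num) (by positivity)]
    nlinarith [Real.pi_lt_d2, Real.pi_pos]
  nlinarith [sq_nonneg t]

lemma chord_ge {r t : ℝ} (hr : 1 / 2 ≤ r) (ht : |t| ≤ 2) : |t| / 4 ≤ ‖1 - (r : ℂ) * E t‖ := by
  apply (pow_le_pow_iff_left₀ (by positivity) (norm_nonneg _) two_ne_zero).1
  rw [chord_sq, div_pow, sq_abs]
  have := one_sub_cos_ge ht
  nlinarith [sq_nonneg (1 - r), sq_nonneg t]

lemma chord_le {r : ℝ} (hr : 0 ≤ r) (hr1 : r ≤ 1) (t : ℝ) : ‖1 - (r : ℂ) * E t‖ ≤ (1 - r) + |t| := by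
  have : 1 - (r : ℂ) * E t = ((1 - r : ℝ) : ℂ) + r * (1 - E t) := by push_cast; ring
  rw [this]
  refine (norm_add_le _ _).trans ?_
  rw [norm_real, Real.norm_eq_abs, abs_of_nonneg (by linarith), norm_mul, norm_real,
    Real.norm_eq_abs, abs_of_nonneg hr]
  nlinarith [norm_one_sub_E t, norm_nonneg (1 - E t), abs_nonneg t]

lemma log_est {w : ℂ} {x : ℝ} (hx : 0 < x) (h1 : x / 16 ≤ ‖w‖) (h2 : ‖w‖ ≤ 16 * x) :
    ‖log w - (Real.log x : ℂ)‖ ≤ 7 := by
  refine (norm_le_abs_re_add_abs_im _).trans ?_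
  simp only [sub_re, sub_im, log_re, log_im, ofReal_re, ofReal_im, sub_zero]
  have hw : 0 < ‖w‖ := lt_of_lt_of_le (by positivity) h1
  have l16 : Real.log 16 ≤ 3 := by
    rw [show (16 : ℝ) = 2 ^ 4 by norm_num, Real.log_pow]
    have := Real.log_two_lt_d9
    push_cast; linarith
  have a1 := Real.log_le_log (by positivity) h1
  have a2 := Real.log_le_log hw h2
  rw [Real.log_div hx.ne' (by norm_num)] at a1
  rw [Real.log_mul (by norm_num) hx.ne'] at a2
  have a3 := abs_arg_le_pi w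
  have a4 : |Real.log ‖w‖ - Real.log x| ≤ 3 := abs_le.2 ⟨by linarith, by linarith⟩
  linarith [Real.pi_lt_d2]

/-- building block -/
noncomputable def T (v z : ℂ) : ℂ := log ((1 - v * z) / (1 - z))
/-- its derivative -/
noncomputable def T' (v z : ℂ) : ℂ := (1 - v) / ((1 - z) * (1 - v * z))

lemma re_pos {v z : ℂ} (hv : ‖v‖ ≤ 1) (hz : ‖z‖ < 1) : 0 < (1 - v * z).re := by
  have h1 : ‖v * z‖ < 1 := by
    rw [norm_mul]; nlinarith [norm_nonneg v, norm_nonneg z]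
  have := re_le_norm (v * z)
  simp only [sub_re, one_re]; linarith

lemma ne0 {v z : ℂ} (hv : ‖v‖ ≤ 1) (hz : ‖z‖ < 1) : 1 - v * z ≠ 0 := by
  intro h; have := re_pos hv hz; rw [h] at this; simp at this

lemma ne1 {z : ℂ} (hz : ‖z‖ < 1) : 1 - z ≠ 0 := by simpa using ne0 (v := 1) (by simp) hz

lemma T_deriv {v z : ℂ} (hv : ‖v‖ ≤ 1) (hz : ‖z‖ < 1) : HasDerivAt (T v) (T' v z) z := by
  have a := ne0 hv hz
  have b := ne1 hz
  have hs : (1 - v * z) / (1 - z) ∈ slitPlane := by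
    by_contra h
    rw [mem_slitPlane_iff, not_or, not_lt, not_not] at h
    set q := (1 - v * z) / (1 - z) with hq
    have e : 1 - v * z = q * (1 - z) := by rw [hq]; field_simp
    have p1 := re_pos hv hz
    have p2 : 0 < (1 - z).re := by simpa using re_pos (v := 1) (by simp) hz
    rw [e, mul_re, h.2] at p1
    nlinarith [h.1]
  have d1 : HasDerivAt (fun z : ℂ => 1 - v * z) (-v) z := by
    simpa using ((hasDerivAt_id z).const_mul v).const_sub 1
  have d2 : HasDerivAt (fun z : ℂ => 1 - z) (-1) z := by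
    simpa using (hasDerivAt_id z).const_sub 1
  have := (d1.fun_div d2 b).clog hs
  refine this.congr_deriv ?_
  unfold T'
  field_simp
  ring

lemma T_zero (v : ℂ) : T v 0 = 0 := by simp [T]

lemma re_T' {v z : ℂ} (hv : ‖v‖ = 1) (hz : ‖z‖ < 1) :
    ((1 - z) ^ 2 * T' v z).re = (1 - ‖z‖ ^ 2) * (1 - v.re) / ‖1 - v * z‖ ^ 2 := by
  have a := ne0 hv.le hz
  have b := ne1 hz
  have : (1 - z) ^ 2 * T' v z = (1 - v) * (1 - z) / (1 - v * z) := by unfold T'; field_simp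
  have hv2 : v.re ^ 2 + v.im ^ 2 = 1 := by
    have := normSq_eq_norm_sq v
    rw [hv, normSq_apply] at this; linarith
  rw [this, div_re, ← normSq_eq_norm_sq, ← normSq_eq_norm_sq, ← add_div]
  congr 1
  simp only [normSq_apply, sub_re, one_re, mul_re, sub_im, one_im, mul_im]
  linear_combination (z.re - z.re ^ 2 - z.im ^ 2) * hv2

lemma re_T'_nonneg {v z : ℂ} (hv : ‖v‖ = 1) (hz : ‖z‖ < 1) : 0 ≤ ((1 - z) ^ 2 * T' v z).re := by
  rw [re_T' hv hz]
  have := re_le_norm v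
  have : 0 ≤ 1 - ‖z‖ ^ 2 := by nlinarith [norm_nonneg z]
  apply div_nonneg (mul_nonneg this (by linarith)) (sq_nonneg _)

lemma re_T'_zero {z : ℂ} (hz : ‖z‖ < 1) : 0 < ((1 - z) ^ 2 * T' 0 z).re := by
  have b := ne1 hz
  have : (1 - z) ^ 2 * T' 0 z = 1 - z := by unfold T'; field_simp; ring
  rw [this]; simpa using re_pos (v := 1) (by simp) hz

/-- the function -/
noncomputable def F (θ : ℕ → ℝ) (z : ℂ) : ℂ := T 0 z + ∑' i, 2 ^ i * T (E (-θ i)) z
/-- the derivative -/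
noncomputable def D (θ : ℕ → ℝ) (z : ℂ) : ℂ := T' 0 z + ∑' i, 2 ^ i * T' (E (-θ i)) z

/-- lacunary angles -/
structure Lac (θ : ℕ → ℝ) : Prop where
  pos : ∀ i, 0 < θ i
  zero : θ 0 ≤ 1
  step : ∀ i, θ (i + 1) ≤ θ i / 8

variable {θ : ℕ → ℝ}

lemma Lac.add (h : Lac θ) (j : ℕ) : ∀ k, θ (k + j) ≤ θ j / 8 ^ k
  | 0 => by simp
  | k + 1 => by
    have h1 := h.step (k + j)
    have h2 := Lac.add h j k
    rw [show k + 1 + j = k + j + 1 by ring, pow_succ, ← div_div]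
    linarith

lemma Lac.lt (h : Lac θ) {i j : ℕ} (hij : i < j) : θ j ≤ θ i / 8 := by
  obtain ⟨k, rfl⟩ := Nat.exists_eq_add_of_lt hij
  have h1 := h.add (i + 1) k
  have h2 := h.step i
  have h3 : θ (i + 1) / 8 ^ k ≤ θ (i + 1) :=
    div_le_self (h.pos _).le (one_le_pow₀ (by norm_num))
  rw [show i + k + 1 = k + (i + 1) by ring]
  linarith

lemma Lac.le (h : Lac θ) {i j : ℕ} (hij : i ≤ j) : θ j ≤ θ i := by
  rcases hij.eq_or_lt with rfl | h1
  · exact le_rfl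
  · linarith [h.lt h1, h.pos i]

lemma Lac.le_one (h : Lac θ) (i : ℕ) : θ i ≤ 1 := (h.le (Nat.zero_le i)).trans h.zero

lemma Lac.wt (h : Lac θ) (j k : ℕ) : 2 ^ (k + (j + 1)) * θ (k + (j + 1)) ≤ 2 ^ j * θ j / 2 / 2 ^ k := by
  have h1 := h.add (j + 1) k
  have h2 := h.step j
  have h3 : θ (k + (j + 1)) ≤ θ j / 8 / 8 ^ k := h1.trans (by gcongr)
  have h4 : (2 : ℝ) ^ k * 2 ^ k ≤ 8 ^ k := by
    rw [← mul_pow]; gcongr; norm_num
  have hp := h.pos j
  calc 2 ^ (k + (j + 1)) * θ (k + (j + 1)) ≤ 2 ^ (k + (j + 1)) * (θ j / 8 / (2 ^ k * 2 ^ k)) := by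
        gcongr
        exact h3.trans (by gcongr)
    _ = 2 ^ j * θ j / 4 / 2 ^ k := by field_simp; ring
    _ ≤ 2 ^ j * θ j / 2 / 2 ^ k := by gcongr; norm_num

lemma Lac.tail (h : Lac θ) (j : ℕ) (g : ℕ → ℂ) (C : ℝ) (hC : 0 ≤ C)
    (hg : ∀ i, j < i → ‖g i‖ ≤ C * θ i) :
    ‖∑' k, 2 ^ (k + (j + 1)) * g (k + (j + 1))‖ ≤ C * (2 ^ j * θ j) := by
  refine tsum_of_norm_bounded ((hasSum_geometric_two' (2 ^ j * θ j)).mul_left C) fun k => ?_
  rw [norm_mul, norm_pow, Complex.norm_two]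
  have h1 := hg (k + (j + 1)) (by omega)
  have h2 := h.wt j k
  calc 2 ^ (k + (j + 1)) * ‖g (k + (j + 1))‖ ≤ 2 ^ (k + (j + 1)) * (C * θ (k + (j + 1))) := by gcongr
    _ = C * (2 ^ (k + (j + 1)) * θ (k + (j + 1))) := by ring
    _ ≤ _ := by gcongr

lemma Lac.summable (h : Lac θ) : Summable fun i => 2 ^ i * θ i := by
  rw [← summable_nat_add_iff 1]
  refine Summable.of_nonneg_of_le (fun k => by have := h.pos (k + 1); positivity)
    (fun k => h.wt 0 k) (hasSum_geometric_two' _).summable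

lemma norm_one_sub_v (h : Lac θ) (i : ℕ) : ‖1 - E (-θ i)‖ ≤ θ i := by
  have := norm_one_sub_E (-θ i)
  rwa [abs_neg, abs_of_pos (h.pos i)] at this

lemma T'_bound (h : Lac θ) (i : ℕ) {z : ℂ} {a b : ℝ} (ha : 0 < a) (hb : 0 < b)
    (h1 : a ≤ ‖1 - z‖) (h2 : b ≤ ‖1 - E (-θ i) * z‖) : ‖T' (E (-θ i)) z‖ ≤ θ i / (a * b) := by
  unfold T'
  rw [norm_div, norm_mul]
  have := norm_one_sub_v h i
  have := h.pos i
  gcongr

lemma F_aux (h : Lac θ) {z : ℂ} (hz : ‖z‖ < 1) :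
    (Summable fun i => 2 ^ i * T (E (-θ i)) z) ∧ (Summable fun i => 2 ^ i * T' (E (-θ i)) z) ∧
      HasDerivAt (F θ) (D θ z) z := by
  obtain ⟨ρ, h1, h2⟩ := exists_between hz
  have hρ : 0 < ρ := (norm_nonneg z).trans_lt h1
  have hu : Summable fun i => 2 ^ i * θ i / ((1 - ρ) * (1 - ρ)) := h.summable.div_const _
  have hd : ∀ i, ∀ y, y ∈ ball (0 : ℂ) ρ →
      HasDerivAt (fun y => 2 ^ i * T (E (-θ i)) y) (2 ^ i * T' (E (-θ i)) y) y := by
    intro i y hy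
    exact (T_deriv (norm_E _).le ((mem_ball_zero_iff.1 hy).trans h2)).const_mul _
  have hb : ∀ i, ∀ y, y ∈ ball (0 : ℂ) ρ →
      ‖2 ^ i * T' (E (-θ i)) y‖ ≤ 2 ^ i * θ i / ((1 - ρ) * (1 - ρ)) := by
    intro i y hy
    rw [mem_ball_zero_iff] at hy
    rw [norm_mul, norm_pow, Complex.norm_two, mul_div_assoc]
    gcongr
    apply T'_bound h i (by linarith) (by linarith)
    · have := norm_sub_norm_le (1 : ℂ) y
      rw [norm_one] at this; linarith
    · have := norm_sub_norm_le (1 : ℂ) (E (-θ i) * y)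
      rw [norm_one, norm_mul, norm_E] at this; linarith
  have hs0 : Summable fun i => 2 ^ i * T (E (-θ i)) (0 : ℂ) := by simp [T_zero, summable_zero]
  have hz' : z ∈ ball (0 : ℂ) ρ := mem_ball_zero_iff.2 h1
  have hpc : IsPreconnected (ball (0 : ℂ) ρ) := (convex_ball _ _).isPreconnected
  refine ⟨summable_of_summable_hasDerivAt_of_isPreconnected hu isOpen_ball hpc hd hb
    (mem_ball_self hρ) hs0 hz', Summable.of_norm_bounded hu fun i => hb i z hz', ?_⟩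
  exact (T_deriv (by simp) hz).fun_add
    (hasDerivAt_tsum_of_isPreconnected hu isOpen_ball hpc hd hb (mem_ball_self hρ) hs0 hz')

lemma F_zero : F θ 0 = 0 := by simp [F, T_zero]

lemma re_D_gt (h : Lac θ) {z : ℂ} (hz : ‖z‖ < 1) (j : ℕ) :
    2 ^ j * ((1 - z) ^ 2 * T' (E (-θ j)) z).re < ((1 - z) ^ 2 * D θ z).re := by
  have hs := ((F_aux h hz).2.1).mul_left ((1 - z) ^ 2)
  unfold D
  rw [mul_add, add_re, ← tsum_mul_left, re_tsum hs]
  have e : ∀ i, ((1 - z) ^ 2 * (2 ^ i * T' (E (-θ i)) z)).re =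
      2 ^ i * ((1 - z) ^ 2 * T' (E (-θ i)) z).re := by
    intro i
    rw [← re_ofReal_mul]; congr 1; push_cast; ring
  have hs' := (hasSum_re hs.hasSum).summable
  simp only [e] at hs' ⊢
  have := hs'.le_tsum j fun i _ => mul_nonneg (by positivity) (re_T'_nonneg (norm_E _) hz)
  linarith [re_T'_zero hz]

lemma re_D_pos (h : Lac θ) {z : ℂ} (hz : ‖z‖ < 1) : 0 < ((1 - z) ^ 2 * D θ z).re := by
  have := re_D_gt h hz 0
  have h2 := re_T'_nonneg (norm_E (-θ 0)) hz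
  simp only [pow_zero, one_mul] at this; linarith

lemma vz (i : ℕ) (r s : ℝ) : E (-θ i) * (r * E s) = r * E (s - θ i) := by
  rw [sub_eq_add_neg, E_add]; ring

/-- lower bound for the derivative at a bump -/
lemma D_lower (h : Lac θ) (j : ℕ) {ρ : ℝ} (hρ : 0 < ρ) (hρ1 : ρ ≤ θ j / 3) :
    2 ^ j / (3 * ρ) ≤ ‖D θ (((1 - ρ : ℝ) : ℂ) * E (θ j))‖ := by
  have hθ := h.le_one j
  have hp := h.pos j
  set z := ((1 - ρ : ℝ) : ℂ) * E (θ j) with hz
  have hn : ‖z‖ = 1 - ρ := norm_rE (by linarith) _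
  have hz1 : ‖z‖ < 1 := by linarith
  have h1 := re_D_gt h hz1 j
  rw [re_T' (norm_E _) hz1, hn, E_re, Real.cos_neg, hz, vz, sub_self, E_zero, mul_one, ← hz] at h1
  have e : ‖(1 : ℂ) - ((1 - ρ : ℝ) : ℂ)‖ = ρ := by
    push_cast; simp [abs_of_pos hρ]
  rw [e] at h1
  have hc := one_sub_cos_ge (t := θ j) (by rw [abs_of_pos hp]; linarith)
  set c := 1 - Real.cos (θ j) with hcd
  have hc0 : 0 < c := lt_of_lt_of_le (by positivity) hc
  have h2 : ‖1 - z‖ ^ 2 ≤ 3 * c := by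
    rw [hz, chord_sq, ← hcd]
    nlinarith
  have h3 : ((1 - z) ^ 2 * D θ z).re ≤ 3 * c * ‖D θ z‖ := by
    refine (re_le_norm _).trans ?_
    rw [norm_mul, norm_pow]; gcongr
  have h4 : c / ρ ≤ (1 - (1 - ρ) ^ 2) * c / ρ ^ 2 := by
    rw [div_le_div_iff₀ hρ (by positivity)]
    have : 0 ≤ c * ρ ^ 2 * (1 - ρ) := by
      have : 0 ≤ 1 - ρ := by linarith
      positivity
    nlinarith
  have h5 : 2 ^ j * (c / ρ) ≤ 3 * c * ‖D θ z‖ := by
    have : (2 : ℝ) ^ j * (c / ρ) ≤ 2 ^ j * ((1 - (1 - ρ) ^ 2) * c / ρ ^ 2) := by gcongr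
    linarith
  rw [div_le_iff₀ (by positivity)]
  rw [← mul_div_assoc, div_le_iff₀ hρ] at h5
  have : c * 2 ^ j ≤ c * (‖D θ z‖ * (3 * ρ)) := by linarith
  exact le_of_mul_le_mul_left this hc0

lemma sum_two_pow (n : ℕ) : ∑ i ∈ range n, (2 : ℝ) ^ i = 2 ^ n - 1 := by
  induction n with
  | zero => simp
  | succ n ih => rw [sum_range_succ, ih]; ring

/-- upper bound for the function at a bump -/
lemma F_upper (h : Lac θ) (j : ℕ) {ρ : ℝ} (hρ : 0 < ρ) (hρ1 : ρ ≤ θ j / 3)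
    (hbal : Real.log (1 / θ j) + ∑ i ∈ range j, 2 ^ i * Real.log (θ i / θ j) +
      2 ^ j * Real.log (ρ / θ j) = 0) :
    ‖F θ (((1 - ρ : ℝ) : ℂ) * E (θ j))‖ ≤ 20 * 2 ^ j := by
  have hθ := h.le_one j
  have hp := h.pos j
  set z := ((1 - ρ : ℝ) : ℂ) * E (θ j) with hz
  have hn : ‖z‖ = 1 - ρ := norm_rE (by linarith) _
  have hz1 : ‖z‖ < 1 := by linarith
  have l1 : θ j / 4 ≤ ‖1 - z‖ := by
    have := chord_ge (r := 1 - ρ) (t := θ j) (by linarith) (by rw [abs_of_pos hp]; linarith)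
    rwa [abs_of_pos hp] at this
  have l2 : ‖1 - z‖ ≤ 2 * θ j := by
    have := chord_le (r := 1 - ρ) (by linarith) (by linarith) (θ j)
    rw [abs_of_pos hp] at this; linarith
  have l0 : 0 < ‖1 - z‖ := by linarith
  have key : ∀ (w : ℂ) (y : ℝ), 0 < y → y / 8 ≤ ‖w‖ → ‖w‖ ≤ 2 * y →
      ‖log (w / (1 - z)) - (Real.log (y / θ j) : ℂ)‖ ≤ 7 := by
    intro w y hy a b
    apply log_est (by positivity)
    · rw [norm_div, le_div_iff₀ l0]
      calc y / θ j / 16 * ‖1 - z‖ ≤ y / θ j / 16 * (2 * θ j) := by gcongr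
        _ = y / 8 := by field_simp; ring
        _ ≤ _ := a
    · rw [norm_div, div_le_iff₀ l0]
      calc ‖w‖ ≤ 2 * y := b
        _ ≤ 4 * y := by linarith
        _ = 16 * (y / θ j) * (θ j / 4) := by field_simp; ring
        _ ≤ _ := by gcongr
  have k0 : ‖T 0 z - (Real.log (1 / θ j) : ℂ)‖ ≤ 7 := by
    apply key _ 1 one_pos <;> norm_num
  have k1 : ∀ i ∈ range j, ‖T (E (-θ i)) z - (Real.log (θ i / θ j) : ℂ)‖ ≤ 7 := by
    intro i hi
    have hi' := h.lt (mem_range.1 hi)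
    have hpi := h.pos i
    have hab : |θ j - θ i| = θ i - θ j := by rw [abs_sub_comm, abs_of_nonneg (by linarith)]
    apply key _ _ hpi
    · rw [hz, vz]
      have := chord_ge (r := 1 - ρ) (t := θ j - θ i) (by linarith)
        (by rw [hab]; linarith [h.le_one i])
      rw [hab] at this; linarith
    · rw [hz, vz]
      have := chord_le (r := 1 - ρ) (by linarith) (by linarith) (θ j - θ i)
      rw [hab] at this; linarith
  have k2 : ‖T (E (-θ j)) z - (Real.log (ρ / θ j) : ℂ)‖ ≤ 7 := by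
    have e : ‖1 - E (-θ j) * z‖ = ρ := by
      rw [hz, vz, sub_self, E_zero, mul_one]; push_cast; simp [abs_of_pos hρ]
    apply key _ _ hρ <;> rw [e] <;> linarith
  have k3 : ∀ i, j < i → ‖T (E (-θ i)) z‖ ≤ 6 / θ j * θ i := by
    intro i hi
    have hi' := h.lt hi
    have hpi := h.pos i
    have e : (1 - E (-θ i) * z) / (1 - z) = 1 + (1 - E (-θ i)) * z / (1 - z) := by
      have := ne1 hz1; field_simp; ring
    have b : ‖(1 - E (-θ i)) * z / (1 - z)‖ ≤ θ i * 1 / (θ j / 4) := by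
      rw [norm_div, norm_mul]
      have := norm_one_sub_v h i
      gcongr
    have b2 : θ i * 1 / (θ j / 4) ≤ 1 / 2 := by
      rw [div_le_iff₀ (by positivity)]; linarith
    unfold T
    rw [e]
    refine (norm_log_one_add_half_le_self (b.trans b2)).trans ?_
    calc 3 / 2 * ‖(1 - E (-θ i)) * z / (1 - z)‖ ≤ 3 / 2 * (θ i * 1 / (θ j / 4)) := by gcongr
      _ = _ := by field_simp; ring
  have t1 := h.tail j (fun i => T (E (-θ i)) z) (6 / θ j) (by positivity) k3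
  have t2 : 6 / θ j * (2 ^ j * θ j) = 6 * 2 ^ j := by field_simp
  rw [t2] at t1
  have hb : ((Real.log (1 / θ j) : ℂ) + ∑ i ∈ range j, 2 ^ i * (Real.log (θ i / θ j) : ℂ) +
      2 ^ j * (Real.log (ρ / θ j) : ℂ)) = 0 := by exact_mod_cast congrArg (fun x : ℝ => (x : ℂ)) hbal
  unfold F
  rw [← (F_aux h hz1).1.sum_add_tsum_nat_add (j + 1), sum_range_succ]
  have e : T 0 z + (∑ i ∈ range j, 2 ^ i * T (E (-θ i)) z + 2 ^ j * T (E (-θ j)) z +
      ∑' k, 2 ^ (k + (j + 1)) * T (E (-θ (k + (j + 1)))) z) =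
      (T 0 z - (Real.log (1 / θ j) : ℂ)) +
      ∑ i ∈ range j, 2 ^ i * (T (E (-θ i)) z - (Real.log (θ i / θ j) : ℂ)) +
      2 ^ j * (T (E (-θ j)) z - (Real.log (ρ / θ j) : ℂ)) +
      ∑' k, 2 ^ (k + (j + 1)) * T (E (-θ (k + (j + 1)))) z := by
    simp only [mul_sub, sum_sub_distrib]
    linear_combination hb
  rw [e]
  have s1 : ‖∑ i ∈ range j, 2 ^ i * (T (E (-θ i)) z - (Real.log (θ i / θ j) : ℂ))‖ ≤
      7 * (2 ^ j - 1) := by
    rw [← sum_two_pow, mul_sum]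
    refine norm_sum_le_of_le _ fun i hi => ?_
    rw [norm_mul, norm_pow, Complex.norm_two, mul_comm]
    gcongr
    exact k1 i hi
  have s2 : ‖2 ^ j * (T (E (-θ j)) z - (Real.log (ρ / θ j) : ℂ))‖ ≤ 7 * 2 ^ j := by
    rw [norm_mul, norm_pow, Complex.norm_two, mul_comm]
    gcongr
  refine (norm_add_le _ _).trans ?_
  refine (add_le_add_left (norm_add₃_le) _).trans ?_
  linarith

/-- upper bound for the derivative away from the bumps -/
lemma D_upper (h : Lac θ) {j J : ℕ} (hj : j ≤ J) {r s : ℝ} (hr : 1 / 2 ≤ r) (hr1 : r < 1)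
    (hs1 : θ j / 2 ≤ s) (hs2 : s ≤ θ j - θ J / 4) :
    ‖D θ ((r : ℂ) * E s)‖ ≤ 400 * 2 ^ J / θ J := by
  have hθ := h.le_one j
  have hp := h.pos j
  have hP := h.pos J
  have hjJ := h.le hj
  set z := (r : ℂ) * E s with hz
  have hn : ‖z‖ = r := norm_rE (by linarith) _
  have hz1 : ‖z‖ < 1 := by linarith
  have l1 : θ J / 16 ≤ ‖1 - z‖ := by
    have hs : 0 < s := by linarith
    have := chord_ge (r := r) (t := s) hr (by rw [abs_of_pos hs]; linarith)
    rw [abs_of_pos hs] at this; linarith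
  have l2 : ∀ i, θ J / 16 ≤ ‖1 - E (-θ i) * z‖ := by
    intro i
    rw [hz, vz]
    have hi1 := h.le_one i
    have hi0 := h.pos i
    have := chord_ge (r := r) (t := s - θ i) hr (abs_le.2 ⟨by linarith, by linarith⟩)
    refine le_trans ?_ this
    rcases le_or_gt i j with hi | hi
    · have := h.le hi
      rw [abs_sub_comm, abs_of_nonneg (by linarith)]; linarith
    · have := h.lt hi
      rw [abs_of_nonneg (by linarith)]; linarith
  have k0 : ‖T' 0 z‖ ≤ 16 / θ J := by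
    unfold T'
    simp only [sub_zero, zero_mul, mul_one, norm_div, norm_one]
    calc 1 / ‖1 - z‖ ≤ 1 / (θ J / 16) := by gcongr
      _ = _ := by field_simp
  have k1 : ∀ i, ‖T' (E (-θ i)) z‖ ≤ 32 / θ J := by
    intro i
    have e : T' (E (-θ i)) z = 1 / (1 - z) - E (-θ i) / (1 - E (-θ i) * z) := by
      have := ne1 hz1
      have := ne0 (norm_E (-θ i)).le hz1
      unfold T'; field_simp; ring
    rw [e]
    refine (norm_sub_le _ _).trans ?_
    rw [norm_div, norm_div, norm_one, norm_E]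
    have := l2 i
    calc 1 / ‖1 - z‖ + 1 / ‖1 - E (-θ i) * z‖ ≤ 1 / (θ J / 16) + 1 / (θ J / 16) := by gcongr
      _ = _ := by field_simp; ring
  have k3 : ∀ i, J < i → ‖T' (E (-θ i)) z‖ ≤ 256 / θ J ^ 2 * θ i := by
    intro i _
    refine (T'_bound h i (by positivity) (by positivity) l1 (l2 i)).trans (le_of_eq ?_)
    field_simp; ring
  have t1 := h.tail J (fun i => T' (E (-θ i)) z) (256 / θ J ^ 2) (by positivity) k3
  have t2 : 256 / θ J ^ 2 * (2 ^ J * θ J) = 256 * (2 ^ J / θ J) := by field_simp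
  rw [t2] at t1
  unfold D
  rw [← (F_aux h hz1).2.1.sum_add_tsum_nat_add (J + 1), ← add_assoc]
  have s1 : ‖∑ i ∈ range (J + 1), 2 ^ i * T' (E (-θ i)) z‖ ≤ 32 / θ J * (2 ^ (J + 1) - 1) := by
    rw [← sum_two_pow, mul_sum]
    refine norm_sum_le_of_le _ fun i _ => ?_
    rw [norm_mul, norm_pow, Complex.norm_two, mul_comm]
    gcongr
    exact k1 i
  refine norm_add₃_le.trans ?_
  have e1 : 32 / θ J * (2 ^ (J + 1) - 1) = 64 * (2 ^ J / θ J) - 2 * (16 / θ J) := by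
    field_simp; ring
  have e2 : 0 ≤ 16 / θ J := by positivity
  have e3 : 0 ≤ (2 : ℝ) ^ J / θ J := by positivity
  rw [mul_div_assoc]
  linarith

end Pool.Agent.H93.Log3
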