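import Mathlib
import Pool.Agent.H93.Log3

set_option autoImplicit false

/-! Choice of the angles. -/

namespace Pool.Agent.H93.Log4

open Finset Pool.Agent.H93.Log3

/-- end of the group -/
def bb (j : ℕ) : ℕ := 4 ^ (Nat.log 4 j + 1)
/-- log of the scale -/
noncomputable def NN (j : ℕ) : ℝ := 48 * 2 ^ bb j
/-- running mean -/
noncomputable def LL : ℕ → ℝ
  | 0 => 0
  | j + 1 => (3 * LL j + NN j) / 4
/-- log of inverse angle -/
noncomputable def lam (j : ℕ) : ℝ := (NN j + LL j) / 2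
/-- the angles -/
noncomputable def th (j : ℕ) : ℝ := Real.exp (-lam j)

lemma lt_bb (j : ℕ) : j < bb j := Nat.lt_pow_succ_log_self (by norm_num) j

lemma NN_step (j : ℕ) : NN (j + 1) = NN j ∨ 2 * NN j ≤ NN (j + 1) := by
  have h : Nat.log 4 j ≤ Nat.log 4 (j + 1) := Nat.log_mono_right (Nat.le_succ j)
  rcases h.eq_or_lt with h | h
  · left; simp only [NN, bb, h]
  · right
    have : bb j + 1 ≤ bb (j + 1) := Nat.pow_lt_pow_right (by norm_num) (by omega)
    have : (2 : ℝ) ^ (bb j + 1) ≤ 2 ^ bb (j + 1) := pow_le_pow_right₀ (by norm_num) this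
    rw [pow_succ] at this
    simp only [NN]; linarith

lemma NN_pos (j : ℕ) : 0 < NN j := by unfold NN; positivity

lemma DD_ge : ∀ j, NN j / 2 * (3 / 4) ^ j ≤ NN j - LL j
  | 0 => by simp only [LL]; linarith [NN_pos 0]
  | j + 1 => by
    have ih := DD_ge j
    have hp := NN_pos j
    have h0 : 0 ≤ NN j / 2 * (3 / 4) ^ j := by positivity
    simp only [LL]
    rcases NN_step j with h | h
    · rw [h, pow_succ]; linarith
    · have : (3 / 4 : ℝ) ^ (j + 1) ≤ 1 := pow_le_one₀ (by norm_num) (by norm_num)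
      have : NN (j + 1) / 2 * (3 / 4) ^ (j + 1) ≤ NN (j + 1) / 2 * 1 := by
        gcongr; linarith
      linarith

lemma DD_big (j : ℕ) : 24 + 12 * (bb j : ℝ) ≤ NN j - LL j := by
  refine le_trans ?_ (DD_ge j)
  have h1 : (3 / 4 : ℝ) ^ bb j ≤ (3 / 4) ^ j :=
    pow_le_pow_of_le_one (by norm_num) (by norm_num) (lt_bb j).le
  have h2 : 1 + (bb j : ℝ) * (1 / 2) ≤ (1 + 1 / 2) ^ bb j := one_add_mul_le_pow (by norm_num) _
  have h3 : (2 : ℝ) ^ bb j * (3 / 4) ^ bb j = (1 + 1 / 2) ^ bb j := by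
    rw [← mul_pow]; norm_num
  have h4 : NN j / 2 * (3 / 4) ^ bb j ≤ NN j / 2 * (3 / 4) ^ j := by
    gcongr; linarith [NN_pos j]
  have h5 : NN j / 2 * (3 / 4) ^ bb j = 24 * (1 + 1 / 2) ^ bb j := by
    rw [← h3]; unfold NN; ring
  linarith

lemma lac : Lac th where
  pos i := Real.exp_pos _
  zero := by
    unfold th lam
    rw [Real.exp_le_one_iff]; simp only [LL]; linarith [NN_pos 0]
  step i := by
    have h1 := DD_big i
    have h2 : NN i ≤ NN (i + 1) := by
      rcases NN_step i with h | h <;> linarith [NN_pos i]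
    have h3 : (0 : ℝ) ≤ bb i := Nat.cast_nonneg _
    have h4 : -lam (i + 1) ≤ -lam i + -3 := by
      simp only [lam, LL]; linarith
    have h5 : Real.exp (-3) ≤ 1 / 8 := by
      rw [Real.exp_neg, ← one_div]
      apply one_div_le_one_div_of_le (by norm_num)
      have : Real.exp 3 = Real.exp 1 ^ 3 := by rw [← Real.exp_nat_mul]; norm_num
      rw [this]
      calc (8 : ℝ) = 2 ^ 3 := by norm_num
        _ ≤ _ := by gcongr; linarith [Real.exp_one_gt_d9]
    unfold th
    calc Real.exp (-lam (i + 1)) ≤ Real.exp (-lam i + -3) := Real.exp_le_exp.2 h4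
      _ = Real.exp (-lam i) * Real.exp (-3) := Real.exp_add _ _
      _ ≤ Real.exp (-lam i) * (1 / 8) := by gcongr
      _ = _ := by ring

lemma sum_lam (j : ℕ) : ∑ i ∈ range j, 2 ^ i * lam i = 2 ^ j * LL j := by
  induction j with
  | zero => simp [LL]
  | succ j ih => rw [sum_range_succ, ih]; simp only [LL, lam]; ring

lemma balance (j : ℕ) : Real.log (1 / th j) + ∑ i ∈ range j, 2 ^ i * Real.log (th i / th j) +
      2 ^ j * Real.log (Real.exp (-NN j) / th j) = 0 := by
  unfold th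
  simp only [← Real.exp_sub, one_div, ← Real.exp_neg, Real.log_exp, neg_neg]
  have : ∀ i, 2 ^ i * (-lam i - -lam j) = 2 ^ i * lam j - 2 ^ i * lam i := fun i => by ring
  simp only [this, sum_sub_distrib, ← sum_mul, sum_two_pow, sum_lam]
  simp only [lam]; ring

lemma ratio (j : ℕ) : Real.exp (-NN j) ≤ th j * Real.exp (-(12 + 6 * (bb j : ℝ))) := by
  unfold th
  rw [← Real.exp_add, Real.exp_le_exp]
  have := DD_big j
  simp only [lam]; linarith

lemma log_group {m j : ℕ} (h1 : 4 ^ m ≤ j) (h2 : j < 4 ^ (m + 1)) : bb j = 4 ^ (m + 1) := by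
  unfold bb
  rw [Nat.log_eq_of_pow_le_of_lt_pow h1 h2]

end Pool.Agent.H93.Log4
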