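import Mathlib

namespace H93Lu
open Finset

section Av
variable {Y : Type*} [NormedAddCommGroup Y] [NormedSpace ℝ Y]

/-- Average over a finite type. -/
noncomputable def av {U : Type*} [Fintype U] (f : U → Y) : Y :=
  (Fintype.card U : ℝ)⁻¹ • ∑ u, f u

lemma norm_av_le {U : Type*} [Fintype U] [Nonempty U] {f : U → Y} {b : ℝ}
    (h : ∀ u, ‖f u‖ ≤ b) : ‖av f‖ ≤ b := by
  have hc : (0 : ℝ) < Fintype.card U := by exact_mod_cast Fintype.card_pos
  rw [av, norm_smul, norm_inv, Real.norm_natCast, inv_mul_le_iff₀ hc]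
  refine (norm_sum_le _ _).trans ?_
  refine (sum_le_sum fun u _ => h u).trans ?_
  simp

lemma av_sub {U : Type*} [Fintype U] (f g : U → Y) :
    av (fun u => f u - g u) = av f - av g := by
  simp [av, sum_sub_distrib, smul_sub]

lemma av_add {U : Type*} [Fintype U] (f g : U → Y) :
    av (fun u => f u + g u) = av f + av g := by
  simp [av, sum_add_distrib, smul_add]

lemma av_const {U : Type*} [Fintype U] [Nonempty U] (y : Y) : av (fun _ : U => y) = y := by
  have hc : (Fintype.card U : ℝ) ≠ 0 := by exact_mod_cast Fintype.card_ne_zero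
  rw [av, sum_const, card_univ, ← Nat.cast_smul_eq_nsmul ℝ, smul_smul, inv_mul_cancel₀ hc,
    one_smul]

lemma av_sum {U J : Type*} [Fintype U] (s : Finset J) (f : J → U → Y) :
    av (fun u => ∑ j ∈ s, f j u) = ∑ j ∈ s, av (f j) := by
  simp only [av]
  rw [sum_comm, smul_sum]

lemma av_smul {U : Type*} [Fintype U] (c : ℝ) (f : U → Y) :
    av (fun u => c • f u) = c • av f := by
  simp only [av]
  rw [← smul_sum, smul_comm]

end Av

lemma sum_update {ι : Type*} [Fintype ι] [DecidableEq ι] {M : ℕ} {Z : Type*} [AddCommMonoid Z]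
    (k : ι) (f : (ι → Fin M) → Z) :
    ∑ u : ι → Fin M, ∑ t : Fin M, f (Function.update u k t) = M • ∑ u, f u := by
  let e : (ι → Fin M) × Fin M ≃ (ι → Fin M) × Fin M :=
    Function.Involutive.toPerm (fun p => (Function.update p.1 k p.2, p.1 k)) (by
      rintro ⟨u, t⟩
      simp)
  rw [← Fintype.sum_prod_type']
  have := Equiv.sum_comp e (fun p => f p.1)
  simp only [e, Function.Involutive.coe_toPerm] at this
  rw [this, Fintype.sum_prod_type]
  simp [smul_sum]

/-- A box point as a vector of naturals. -/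
def nv {ι : Type*} {M : ℕ} (u : ι → Fin M) : ι → ℕ := fun i => u i

lemma nv_update {ι : Type*} [DecidableEq ι] {M : ℕ} (u : ι → Fin M) (k : ι) (t : Fin M) :
    nv (Function.update u k t) = Function.update (nv u) k (t : ℕ) := by
  funext i
  by_cases h : i = k
  · subst h; simp [nv]
  · simp [nv, h]

lemma update_add_single {ι : Type*} [DecidableEq ι] (u : ι → ℕ) (k : ι) (t : ℕ) :
    Function.update u k t + Pi.single k 1 = Function.update u k (t + 1) := by
  funext i
  by_cases h : i = k
  · subst h; simp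
  · simp [h]

lemma fol {Y : Type*} [NormedAddCommGroup Y] [NormedSpace ℝ Y] {ι : Type*} [Fintype ι]
    [DecidableEq ι] {M : ℕ} (hM : 0 < M) (k : ι) (γ : (ι → ℕ) → Y) {b : ℝ}
    (h : ∀ u : ι → ℕ, (∀ i, u i ≤ M) → ‖γ u‖ ≤ b) :
    ‖av (fun u : ι → Fin M => γ (nv u + Pi.single k 1) - γ (nv u))‖ ≤ 2 * b / M := by
  haveI : Nonempty (Fin M) := ⟨⟨0, hM⟩⟩
  have hM' : (0 : ℝ) < M := by exact_mod_cast hM
  have h1 := sum_update k (fun u : ι → Fin M => γ (nv u + Pi.single k 1) - γ (nv u))
  have h2 : ∀ u : ι → Fin M, ∑ t : Fin M, (γ (nv (Function.update u k t) + Pi.single k 1) -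
      γ (nv (Function.update u k t))) =
      γ (Function.update (nv u) k M) - γ (Function.update (nv u) k 0) := by
    intro u
    simp only [nv_update, update_add_single]
    rw [Fin.sum_univ_eq_sum_range (fun t => γ (Function.update (nv u) k (t + 1)) -
      γ (Function.update (nv u) k t)) M, sum_range_sub (fun t => γ (Function.update (nv u) k t))]
  simp only [h2] at h1
  have h3 : av (fun u : ι → Fin M => γ (nv u + Pi.single k 1) - γ (nv u)) =
      (M : ℝ)⁻¹ • av (fun u : ι → Fin M =>
        γ (Function.update (nv u) k M) - γ (Function.update (nv u) k 0)) := by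
    simp only [av]
    rw [h1, ← Nat.cast_smul_eq_nsmul ℝ, smul_comm, smul_smul (M : ℝ)⁻¹, inv_mul_cancel₀ hM'.ne',
      one_smul]
  rw [h3, norm_smul, norm_inv, Real.norm_natCast, div_eq_inv_mul]
  gcongr
  refine norm_av_le fun u => (norm_sub_le _ _).trans ?_
  have hb : ∀ t ≤ M, ‖γ (Function.update (nv u) k t)‖ ≤ b := fun t ht => h _ fun i => by
    by_cases hi : i = k
    · subst hi; simpa using ht
    · simpa [hi, nv] using (u i).2.le
  linarith [hb M le_rfl, hb 0 (Nat.zero_le _)]

end H93Lu
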