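import Pool.Agent.H93.Lu1

namespace H93Lu
open Finset

variable {Y : Type*} [NormedAddCommGroup Y] [NormedSpace ℝ Y] {J : Type*} [Fintype J]
  [DecidableEq J]

/-- Lipschitz with respect to the sum norm. -/
def Lip (F : (J → ℝ) → Y) (K : ℝ) : Prop := ∀ a a', ‖F a - F a'‖ ≤ K * ∑ j, |a j - a' j|

/-- Smoothing by a box average. -/
noncomputable def sm (F : (J → ℝ) → Y) (M : ℕ) (a : J → ℝ) : Y :=
  av fun u : J → Fin M => F (a + fun j => (nv u j : ℝ))

/-- Difference in one direction. -/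
noncomputable def df (F : (J → ℝ) → Y) (M : ℕ) (j : J) (a : J → ℝ) : Y :=
  sm F M (a + Pi.single j 1) - sm F M a

omit [NormedSpace ℝ Y] in
lemma Lip.step {F : (J → ℝ) → Y} {K : ℝ} (hF : Lip F K) (j : J) (a b : J → ℝ) :
    ‖F (a + Pi.single j 1 + b) - F (a + b)‖ ≤ K := by
  refine (hF _ _).trans (le_of_eq ?_)
  rw [sum_eq_single j]
  · simp
  · intro k _ hk; simp [hk]
  · simp

lemma norm_df_le {F : (J → ℝ) → Y} {K : ℝ} (hF : Lip F K) {M : ℕ} (hM : 0 < M) (j : J)
    (a : J → ℝ) : ‖df F M j a‖ ≤ K := by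
  have : Nonempty (Fin M) := ⟨⟨0, hM⟩⟩
  rw [df, sm, sm, ← av_sub]
  exact norm_av_le fun u => hF.step j a _

lemma df_flat {F : (J → ℝ) → Y} {K : ℝ} (hF : Lip F K) {M : ℕ} (hM : 0 < M) (j k : J)
    (a : J → ℝ) : ‖df F M j (a + Pi.single k 1) - df F M j a‖ ≤ 2 * K / M := by
  have h := fol hM k (fun u : J → ℕ => F (a + Pi.single j 1 + fun l => (u l : ℝ)) -
    F (a + fun l => (u l : ℝ))) (b := K) (fun u _ => hF.step j a _)
  have e : ∀ u : J → ℕ, (fun l => ((u + Pi.single k 1 : J → ℕ) l : ℝ)) =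
      Pi.single k 1 + fun l => (u l : ℝ) := by
    intro u; funext l
    by_cases hl : l = k
    · subst hl; simp [add_comm]
    · simp [hl]
  simp only [e] at h
  simp only [df, sm, ← av_sub]
  refine le_trans (le_of_eq ?_) h
  congr 2
  funext u
  rw [add_right_comm a (Pi.single k 1), add_assoc _ (Pi.single k 1), add_assoc a (Pi.single k 1)]

omit [NormedSpace ℝ Y] [Fintype J] in
lemma flat_sum {g : (J → ℝ) → Y} {δ : ℝ} (hg : ∀ k a, ‖g (a + Pi.single k 1) - g a‖ ≤ δ)
    {v : J → ℝ} (hv : ∀ j, v j = 1 ∨ v j = -1) (a : J → ℝ) (s : Finset J) :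
    ‖g (a + ∑ k ∈ s, Pi.single k (v k)) - g a‖ ≤ δ * s.card := by
  induction s using Finset.induction_on with
  | empty => simp
  | insert k s hk ih =>
    rw [sum_insert hk, card_insert_of_notMem hk]
    set x := a + ∑ k ∈ s, (Pi.single k (v k) : J → ℝ) with hx
    have e : a + (Pi.single k (v k) + ∑ k ∈ s, (Pi.single k (v k) : J → ℝ)) =
        x + Pi.single k (v k) := by rw [hx]; abel
    rw [e]
    have h1 : ‖g (x + Pi.single k (v k)) - g x‖ ≤ δ := by
      rcases hv k with h | h
      · rw [h]; exact hg k x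
      · have := hg k (x + Pi.single k (v k))
        rw [add_assoc, ← Pi.single_add, h, neg_add_cancel, Pi.single_zero, add_zero,
          norm_sub_rev] at this
        rwa [h]
    have := norm_sub_le_norm_sub_add_norm_sub (g (x + Pi.single k (v k))) (g x) (g a)
    push_cast
    linarith

lemma sm_lin {F : (J → ℝ) → Y} {K : ℝ} (hF : Lip F K) (hK : 0 ≤ K) {M : ℕ} (hM : 0 < M)
    {v : J → ℝ} (hv : ∀ j, v j = 1 ∨ v j = -1) (a : J → ℝ) (s : Finset J) :
    ‖sm F M (a + ∑ k ∈ s, Pi.single k (v k)) - sm F M a - ∑ k ∈ s, v k • df F M k a‖ ≤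
      s.card * (2 * K / M * Fintype.card J) := by
  induction s using Finset.induction_on with
  | empty => simp
  | insert k s hk ih =>
    have hδ : 0 ≤ 2 * K / M := by positivity
    have fl : ∀ t : Finset J, ‖df F M k (a + ∑ k ∈ t, Pi.single k (v k)) - df F M k a‖ ≤
        2 * K / M * Fintype.card J := fun t => by
      refine (flat_sum (g := df F M k) (fun l b => df_flat hF hM k l b) hv a t).trans ?_
      gcongr
      exact card_le_univ t
    have h1 : ‖sm F M (a + ∑ k ∈ insert k s, Pi.single k (v k)) -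
        sm F M (a + ∑ k ∈ s, Pi.single k (v k)) - v k • df F M k a‖ ≤
        2 * K / M * Fintype.card J := by
      rcases hv k with h | h
      · have := fl s
        rw [sum_insert hk, h, one_smul]
        rw [df] at this
        refine le_trans (le_of_eq ?_) this
        rw [add_comm (Pi.single k (1 : ℝ) : J → ℝ), add_assoc]
      · have := fl (insert k s)
        rw [df] at this
        have e : a + ∑ k ∈ insert k s, (Pi.single k (v k) : J → ℝ) + Pi.single k 1 =
            a + ∑ k ∈ s, (Pi.single k (v k) : J → ℝ) := by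
          rw [sum_insert hk, h, add_comm (Pi.single k (-1 : ℝ) : J → ℝ), add_assoc, add_assoc,
            ← Pi.single_add]
          simp
        rw [e] at this
        rw [h, ← norm_neg]
        refine le_trans (le_of_eq ?_) this
        congr 1
        rw [neg_smul, one_smul]
        abel
    rw [card_insert_of_notMem hk, sum_insert hk (f := fun k => v k • df F M k a)]
    have := norm_add_le (sm F M (a + ∑ k ∈ insert k s, Pi.single k (v k)) -
        sm F M (a + ∑ k ∈ s, Pi.single k (v k)) - v k • df F M k a)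
        (sm F M (a + ∑ k ∈ s, Pi.single k (v k)) - sm F M a - ∑ k ∈ s, v k • df F M k a)
    have e : (sm F M (a + ∑ k ∈ insert k s, Pi.single k (v k)) -
        sm F M (a + ∑ k ∈ s, Pi.single k (v k)) - v k • df F M k a) +
        (sm F M (a + ∑ k ∈ s, Pi.single k (v k)) - sm F M a - ∑ k ∈ s, v k • df F M k a) =
        sm F M (a + ∑ k ∈ insert k s, Pi.single k (v k)) - sm F M a -
          (v k • df F M k a + ∑ k ∈ s, v k • df F M k a) := by abel
    rw [e] at this
    push_cast
    linarith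

lemma sm_near {F : (J → ℝ) → Y} {K : ℝ} (hF : Lip F K) (hK : 0 ≤ K) {M : ℕ} (hM : 0 < M)
    (a : J → ℝ) : ‖sm F M a - F a‖ ≤ K * (Fintype.card J * M) := by
  have : Nonempty (Fin M) := ⟨⟨0, hM⟩⟩
  rw [sm, ← av_const (U := J → Fin M) (F a), ← av_sub]
  refine norm_av_le fun u => (hF _ _).trans ?_
  gcongr
  refine (sum_le_sum (g := fun _ => (M : ℝ)) fun j _ => ?_).trans (by simp)
  simp only [Pi.add_apply, add_sub_cancel_left, Nat.abs_cast, nv]
  exact_mod_cast (u j).2.le

variable {ι : Type*} [Fintype ι] [DecidableEq ι]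

/-- The frame map. -/
def im (φ : J → ι → ℝ) (c : ι → ℕ) : J → ℝ := fun j => ∑ i, (c i : ℝ) * φ j i

lemma im_step (φ : J → ι → ℝ) (c : ι → ℕ) (i : ι) :
    im φ (c + Pi.single i 1) = im φ c + ∑ j, Pi.single j (φ j i) := by
  rw [univ_sum_single]
  funext j
  simp only [im, Pi.add_apply, Nat.cast_add, add_mul, sum_add_distrib]
  congr 1
  rw [sum_eq_single i]
  · simp
  · intro k _ hk; simp [hk]
  · simp

/-- Averaged difference along the common grid. -/
noncomputable def xi (P : (ι → ℕ) → Y) (R : ℕ) (c : ι → ℕ) (i : ι) : Y :=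
  av fun w : ι → Fin R => P (c + (nv w + Pi.single i 1)) - P (c + nv w)

theorem side {F : (J → ℝ) → Y} {K : ℝ} (hF : Lip F K) (hK : 0 ≤ K) {M R S : ℕ} (hM : 0 < M)
    (hR : 0 < R) {φ : J → ι → ℝ} (hφ : ∀ j i, φ j i = 1 ∨ φ j i = -1) {P : (ι → ℕ) → Y} {β : ℝ}
    (hP : ∀ c : ι → ℕ, (∀ i, c i ≤ S) → ‖F (im φ c) - P c‖ ≤ β) {c : ι → ℕ}
    (hc : ∀ i, c i + R ≤ S) :
    ∃ τ : J → Y, (∀ j, ‖τ j‖ ≤ K) ∧ ∀ i, ‖xi P R c i - ∑ j, φ j i • τ j‖ ≤
      2 * (β + K * (Fintype.card J * M)) / R +
        Fintype.card J * (2 * K / M * Fintype.card J) := by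
  have : Nonempty (Fin R) := ⟨⟨0, hR⟩⟩
  refine ⟨fun j => av fun w : ι → Fin R => df F M j (im φ (c + nv w)),
    fun j => norm_av_le fun w => norm_df_le hF hM j _, fun i => ?_⟩
  have h1 := fol hR i (fun u : ι → ℕ => P (c + u) - sm F M (im φ (c + u)))
    (b := β + K * (Fintype.card J * M)) (fun u hu => by
      have a1 := hP (c + u) fun i => le_trans (Nat.add_le_add_left (hu i) _) (hc i)
      have a2 := sm_near hF hK hM (im φ (c + u))
      have := norm_sub_le_norm_sub_add_norm_sub (P (c + u)) (F (im φ (c + u)))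
        (sm F M (im φ (c + u)))
      rw [norm_sub_rev] at a1 a2
      linarith)
  have h2 : ‖av fun w : ι → Fin R => sm F M (im φ (c + (nv w + Pi.single i 1))) -
      sm F M (im φ (c + nv w)) - ∑ j, φ j i • df F M j (im φ (c + nv w))‖ ≤
      Fintype.card J * (2 * K / M * Fintype.card J) := by
    refine norm_av_le fun w => ?_
    rw [← add_assoc, im_step]
    exact sm_lin hF hK hM (fun j => hφ j i) _ univ
  refine le_trans (le_of_eq ?_) ((norm_add_le _ _).trans (add_le_add h1 h2))
  congr 1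
  simp only [xi, ← av_smul, ← av_sum, ← av_sub, ← av_add]
  congr 1
  funext w
  abel

end H93Lu
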