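import Pool.Agent.H93.Lu2

namespace H93Lu
open Finset MeasureTheory

variable {ι J : Type*} [Fintype ι] [Fintype J]

lemma pt {φ ψ : J → ι → ℝ} {m r : ℝ} (hm : 0 ≤ m) (hr : 0 ≤ r) (hn : (Fintype.card ι : ℝ) = r ^ 2)
    (hco : ∀ j k, |∑ i, φ j i * ψ k i| ≤ m ^ 2) (τ σ : J → ℝ) :
    ∑ i, |∑ j, φ j i * τ j| ≤ r * (m * (∑ j, |τ j| + ∑ j, |σ j|) / 2 +
      ∑ i, |∑ j, φ j i * τ j - ∑ j, ψ j i * σ j|) := by
  set a : ι → ℝ := fun i => ∑ j, φ j i * τ j with ha
  set b : ι → ℝ := fun i => ∑ j, ψ j i * σ j with hb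
  set T := ∑ j, |τ j|
  set S := ∑ j, |σ j|
  have hT : 0 ≤ T := sum_nonneg fun _ _ => abs_nonneg _
  have hS : 0 ≤ S := sum_nonneg fun _ _ => abs_nonneg _
  change ∑ i, |a i| ≤ r * (m * (T + S) / 2 + ∑ i, |a i - b i|)
  set Q := ∑ i, |a i - b i|
  have hQ : 0 ≤ Q := sum_nonneg fun _ _ => abs_nonneg _
  set x := Real.sqrt (∑ i, a i ^ 2) with hx
  have hx0 : 0 ≤ x := Real.sqrt_nonneg _
  have hx2 : x ^ 2 = ∑ i, a i ^ 2 := Real.sq_sqrt (sum_nonneg fun _ _ => sq_nonneg _)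
  have h1 : ∑ i, |a i| ≤ r * x := by
    refine abs_le_of_sq_le_sq' ?_ (by positivity) |>.2
    have := sq_sum_le_card_mul_sum_sq (s := univ) (f := fun i => |a i|)
    simp only [sq_abs, card_univ] at this
    rw [mul_pow, hx2, ← hn]; exact this
  have h2 : ∑ i, a i * b i ≤ m ^ 2 * (T * S) := by
    have e : ∑ i, a i * b i = ∑ j, ∑ k, τ j * σ k * ∑ i, φ j i * ψ k i := by
      simp only [ha, hb, sum_mul_sum]
      simp only [mul_sum]
      rw [sum_comm]
      refine sum_congr rfl fun j _ => ?_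
      rw [sum_comm]
      refine sum_congr rfl fun k _ => sum_congr rfl fun i _ => by ring
    rw [e, sum_mul_sum, mul_sum]
    refine sum_le_sum fun j _ => ?_
    rw [mul_sum]
    refine sum_le_sum fun k _ => (le_abs_self _).trans ?_
    rw [abs_mul, abs_mul, mul_comm (m ^ 2)]
    gcongr
    exact hco j k
  have h3 : ∑ i, a i * (a i - b i) ≤ x * Q := by
    rw [mul_sum]
    refine sum_le_sum fun i _ => (le_abs_self _).trans ?_
    rw [abs_mul]
    gcongr
    refine abs_le_of_sq_le_sq' ?_ hx0 |>.2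
    rw [sq_abs, hx2]
    exact single_le_sum (f := fun i => a i ^ 2) (fun _ _ => sq_nonneg _) (mem_univ i)
  have h4 : x ^ 2 = ∑ i, a i * b i + ∑ i, a i * (a i - b i) := by
    rw [hx2, ← sum_add_distrib]; exact sum_congr rfl fun i _ => by ring
  set P := m * (T + S) / 2 with hP
  have hP0 : 0 ≤ P := by positivity
  have h5 : m ^ 2 * (T * S) ≤ P ^ 2 := by
    rw [hP]; nlinarith [mul_nonneg (sq_nonneg m) (sq_nonneg (T - S))]
  have h6 : x ≤ P + Q := by
    by_contra h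
    push Not at h
    nlinarith
  exact h1.trans (by gcongr)

variable {Ω : Type*} [MeasurableSpace Ω] {μ : Measure Ω}

lemma coe_comb (s : Finset J) (c : J → ℝ) (τ : J → Lp ℝ 1 μ) :
    ∀ᵐ ω ∂μ, (∑ j ∈ s, c j • τ j : Lp ℝ 1 μ) ω = ∑ j ∈ s, c j * τ j ω := by
  classical
  induction s using Finset.induction_on with
  | empty => filter_upwards [Lp.coeFn_zero ℝ 1 μ] with ω h using by simpa using h
  | insert k s hk ih =>
    filter_upwards [ih, Lp.coeFn_add (c k • τ k) (∑ j ∈ s, c j • τ j), Lp.coeFn_smul (c k) (τ k)]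
      with ω h1 h2 h3
    rw [sum_insert hk, sum_insert hk, h2, Pi.add_apply, h1, h3]
    simp

lemma norm_L1 (f : Lp ℝ 1 μ) : ‖f‖ = ∫ ω, |f ω| ∂μ := L1.norm_eq_integral_norm f

lemma int_abs (f : Lp ℝ 1 μ) : Integrable (fun ω => |f ω|) μ := (L1.integrable_coeFn f).abs

theorem lat {φ ψ : J → ι → ℝ} {m r : ℝ} (hm : 0 ≤ m) (hr : 0 ≤ r)
    (hn : (Fintype.card ι : ℝ) = r ^ 2) (hco : ∀ j k, |∑ i, φ j i * ψ k i| ≤ m ^ 2)
    (τ σ : J → Lp ℝ 1 μ) :
    ∑ i, ‖∑ j, φ j i • τ j‖ ≤ r * (m * (∑ j, ‖τ j‖ + ∑ j, ‖σ j‖) / 2 +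
      ∑ i, ‖∑ j, φ j i • τ j - ∑ j, ψ j i • σ j‖) := by
  simp only [norm_L1]
  rw [← integral_finsetSum _ fun i _ => int_abs _, ← integral_finsetSum _ fun i _ => int_abs _,
    ← integral_finsetSum _ fun i _ => int_abs _, ← integral_finsetSum _ fun i _ => int_abs _]
  have i1 := integrable_finsetSum univ fun j _ => int_abs (τ j)
  have i2 := integrable_finsetSum univ fun j _ => int_abs (σ j)
  have i3 := integrable_finsetSum univ fun i _ => int_abs (∑ j, φ j i • τ j - ∑ j, ψ j i • σ j)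
  have i4 : Integrable (fun ω => m * (∑ j, |τ j ω| + ∑ j, |σ j ω|) / 2) μ :=
    ((i1.add i2).const_mul m).div_const 2
  rw [← integral_add i1 i2, ← integral_const_mul, ← integral_div, ← integral_add i4 i3,
    ← integral_const_mul]
  refine integral_mono_ae (integrable_finsetSum univ fun i _ => int_abs _)
    ((i4.add i3).const_mul r) ?_
  have a1 := ae_all_iff.2 fun i => coe_comb univ (fun j => φ j i) τ
  have a2 := ae_all_iff.2 fun i => coe_comb univ (fun j => ψ j i) σ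
  have a3 := ae_all_iff.2 fun i => Lp.coeFn_sub (∑ j, φ j i • τ j) (∑ j, ψ j i • σ j)
  filter_upwards [a1, a2, a3] with ω h1 h2 h3
  simp only [h3, Pi.sub_apply, h1, h2]
  exact pt hm hr hn hco _ _

end H93Lu
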