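import Pool.Agent.H93.Lu3

namespace H93Lu
open Finset MeasureTheory

variable {ι J : Type*} [Fintype ι] [Fintype J] [DecidableEq ι] [DecidableEq J]

omit [Fintype J] [DecidableEq J] [DecidableEq ι] in
lemma im_near {φ : J → ι → ℝ} (hφ : ∀ j i, φ j i = 1 ∨ φ j i = -1) (c w : ι → ℕ) {R : ℕ}
    (hw : ∀ i, w i ≤ R) (j : J) : |im φ (c + w) j - im φ c j| ≤ Fintype.card ι * R := by
  simp only [im, Pi.add_apply, Nat.cast_add, add_mul, sum_add_distrib, add_sub_cancel_left]
  refine (abs_sum_le_sum_abs _ _).trans ?_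
  refine (sum_le_sum (g := fun _ => (R : ℝ)) fun i _ => ?_).trans (by simp)
  have : |φ j i| = 1 := by rcases hφ j i with h | h <;> simp [h]
  rw [abs_mul, this, mul_one, Nat.abs_cast]
  exact_mod_cast hw i

omit [Fintype J] [DecidableEq J] in
lemma im_line {φ : J → ι → ℝ} (hφ : ∀ j i, φ j i = 1 ∨ φ j i = -1) (c : ι → ℕ) (i : ι) (T : ℕ)
    (j : J) : |im φ (Function.update c i T) j - im φ (Function.update c i 0) j| = T := by
  have : |φ j i| = 1 := by rcases hφ j i with h | h <;> simp [h]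
  simp only [im, ← sum_sub_distrib]
  rw [sum_eq_single i]
  · simp [abs_mul, this]
  · intro k _ hk; simp [hk]
  · simp

omit [DecidableEq J] in
lemma lower {Y : Type*} [NormedAddCommGroup Y] [NormedSpace ℝ Y] {F : (J → ℝ) → Y} {K : ℝ}
    (hF : Lip F K) (hK : 0 ≤ K) (hl : ∀ a a', ∑ j, |a j - a' j| ≤ ‖F a - F a'‖)
    {φ : J → ι → ℝ} (hφ : ∀ j i, φ j i = 1 ∨ φ j i = -1) {R : ℕ} (hR : 0 < R) (T : ℕ)
    (c : ι → ℕ) (i : ι) :
    Fintype.card J * T - 2 * (K * (Fintype.card J * (Fintype.card ι * R))) ≤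
      ∑ t : Fin T, ‖xi (fun c => F (im φ c)) R (Function.update c i t) i‖ := by
  have : Nonempty (Fin R) := ⟨⟨0, hR⟩⟩
  refine le_trans ?_ (norm_sum_le _ _)
  have e : ∑ t : Fin T, xi (fun c => F (im φ c)) R (Function.update c i t) i =
      av fun w : ι → Fin R => F (im φ (Function.update c i T + nv w)) -
        F (im φ (Function.update c i 0 + nv w)) := by
    simp only [xi]
    rw [← av_sum]
    congr 1
    funext w
    have : ∀ t : ℕ, Function.update c i t + (nv w + Pi.single i 1) =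
        Function.update c i (t + 1) + nv w := fun t => by
      rw [← update_add_single]; abel
    simp only [this]
    rw [Fin.sum_univ_eq_sum_range (fun t => F (im φ (Function.update c i (t + 1) + nv w)) -
      F (im φ (Function.update c i t + nv w))) T,
      sum_range_sub (fun t => F (im φ (Function.update c i t + nv w)))]
  have near : ∀ (c : ι → ℕ) (w : ι → Fin R), ‖F (im φ (c + nv w)) - F (im φ c)‖ ≤
      K * (Fintype.card J * (Fintype.card ι * R)) := fun c w => by
    refine (hF _ _).trans ?_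
    gcongr
    exact (sum_le_sum fun j _ => im_near hφ c (nv w) (fun i => (w i).2.le) j).trans (by simp)
  have h1 : ‖(av fun w : ι → Fin R => F (im φ (Function.update c i T + nv w)) -
        F (im φ (Function.update c i 0 + nv w))) -
        (F (im φ (Function.update c i T)) - F (im φ (Function.update c i 0)))‖ ≤
      2 * (K * (Fintype.card J * (Fintype.card ι * R))) := by
    rw [← av_const (U := ι → Fin R) (F (im φ (Function.update c i T)) -
      F (im φ (Function.update c i 0))), ← av_sub]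
    refine norm_av_le fun w => ?_
    rw [sub_sub_sub_comm]
    refine (norm_sub_le _ _).trans ?_
    linarith [near (Function.update c i T) w, near (Function.update c i 0) w]
  have h2 := hl (im φ (Function.update c i T)) (im φ (Function.update c i 0))
  simp only [im_line hφ, sum_const, card_univ, nsmul_eq_mul] at h2
  rw [e]
  rw [norm_sub_rev] at h1
  linarith [norm_sub_norm_le (F (im φ (Function.update c i T)) - F (im φ (Function.update c i 0)))
    (av fun w : ι → Fin R => F (im φ (Function.update c i T + nv w)) -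
        F (im φ (Function.update c i 0 + nv w)))]

theorem core {Ω : Type*} [MeasurableSpace Ω] {μ : Measure Ω} {φ ψ : J → ι → ℝ}
    (hφ : ∀ j i, φ j i = 1 ∨ φ j i = -1) (hψ : ∀ j i, ψ j i = 1 ∨ ψ j i = -1)
    {k r N M R T : ℕ} (hk : 0 < k) (hr : 0 < r) (hN : 0 < N) (hn : Fintype.card ι = r ^ 2)
    (hJ : Fintype.card J = N) (hM : M = 96 * k * N * r) (hR : R = 96 * k * M * r)
    (hT : T = 4 * k * r ^ 2 * R)
    (hco : ∀ j l, |∑ i, φ j i * ψ l i| ≤ ((r : ℝ) / (8 * k)) ^ 2)
    {F G : (J → ℝ) → Lp ℝ 1 μ} (hF : Lip F k) (hG : Lip G k)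
    (hl : ∀ a a', ∑ j, |a j - a' j| ≤ ‖F a - F a'‖)
    (hg : ∀ c : ι → ℕ, (∀ i, c i ≤ T + R) →
      ‖G (im ψ c) - F (im φ c)‖ ≤ k * ((R : ℝ) * N / (16 * r * k))) : False := by
  have hM0 : 0 < M := by rw [hM]; positivity
  have hR0 : 0 < R := by rw [hR]; positivity
  have hT0 : 0 < T := by rw [hT]; positivity
  have k0 : (0 : ℝ) < k := by exact_mod_cast hk
  have r0 : (0 : ℝ) < r := by exact_mod_cast hr
  have r1 : (1 : ℝ) ≤ r := by exact_mod_cast hr
  have N0 : (0 : ℝ) < N := by exact_mod_cast hN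
  have M0 : (0 : ℝ) < M := by exact_mod_cast hM0
  have R0 : (0 : ℝ) < R := by exact_mod_cast hR0
  have T0 : (0 : ℝ) < T := by exact_mod_cast hT0
  have hn' : (Fintype.card ι : ℝ) = r ^ 2 := by exact_mod_cast hn
  have hM' : (M : ℝ) = 96 * k * N * r := by exact_mod_cast hM
  have hR' : (R : ℝ) = 96 * k * M * r := by exact_mod_cast hR
  have hT' : (T : ℝ) = 4 * k * r ^ 2 * R := by exact_mod_cast hT
  have up : ∀ c : ι → Fin T, ∑ i, ‖xi (fun c => F (im φ c)) R (nv c) i‖ ≤ 3 / 8 * (r ^ 2 * N) := by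
    intro c
    have hc : ∀ i, nv c i + R ≤ T + R := fun i => Nat.add_le_add_right (c i).2.le _
    obtain ⟨τ, hτ, h1⟩ := side hF k0.le hM0 hR0 hφ (P := fun c => F (im φ c)) (β := 0)
      (fun c _ => by simp) hc
    obtain ⟨σ, hσ, h2⟩ := side hG k0.le hM0 hR0 hψ (P := fun c => F (im φ c)) hg hc
    have h3 := lat (m := (r : ℝ) / (8 * k)) (by positivity) r0.le hn' hco τ σ
    rw [hJ] at h1 h2
    have e1 : 2 * (0 + (k : ℝ) * (N * M)) / R + N * (2 * k / M * N) = N / (24 * r) := by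
      rw [hR']; nth_rewrite 3 [hM']; field_simp; ring
    have e2 : 2 * (k * ((R : ℝ) * N / (16 * r * k)) + (k : ℝ) * (N * M)) / R + N * (2 * k / M * N) =
        N / (24 * r) + N / (8 * r) := by
      rw [← e1]; field_simp; ring
    rw [e1] at h1
    rw [e2] at h2
    have s1 : ∑ j, ‖τ j‖ ≤ N * k := (sum_le_sum fun j _ => hτ j).trans (by simp [hJ])
    have s2 : ∑ j, ‖σ j‖ ≤ N * k := (sum_le_sum fun j _ => hσ j).trans (by simp [hJ])
    have s3 : ∑ i, ‖∑ j, φ j i • τ j - ∑ j, ψ j i • σ j‖ ≤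
        r ^ 2 * (N / (24 * r) + (N / (24 * r) + N / (8 * r))) := by
      refine (sum_le_sum (g := fun _ => (N : ℝ) / (24 * r) + (N / (24 * r) + N / (8 * r)))
        fun i _ => ?_).trans (by rw [sum_const, card_univ, nsmul_eq_mul, hn'])
      have a1 := h1 i
      rw [norm_sub_rev] at a1
      linarith [norm_sub_le_norm_sub_add_norm_sub (∑ j, φ j i • τ j)
        (xi (fun c => F (im φ c)) R (nv c) i) (∑ j, ψ j i • σ j), h2 i]
    have s4 : ∑ i, ‖xi (fun c => F (im φ c)) R (nv c) i‖ ≤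
        ∑ i, ‖∑ j, φ j i • τ j‖ + r ^ 2 * (N / (24 * r)) := by
      rw [← hn', ← card_univ, ← nsmul_eq_mul, ← sum_const, ← sum_add_distrib]
      refine sum_le_sum fun i _ => ?_
      linarith [norm_sub_norm_le (xi (fun c => F (im φ c)) R (nv c) i) (∑ j, φ j i • τ j), h1 i]
    have s5 : r * ((r : ℝ) / (8 * k) * (∑ j, ‖τ j‖ + ∑ j, ‖σ j‖) / 2 +
        ∑ i, ‖∑ j, φ j i • τ j - ∑ j, ψ j i • σ j‖) ≤ r * ((r : ℝ) / (8 * k) * (N * k + N * k) / 2 +
        r ^ 2 * (N / (24 * r) + (N / (24 * r) + N / (8 * r)))) := by gcongr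
    have e3 : r * ((r : ℝ) / (8 * k) * (N * k + N * k) / 2 +
        r ^ 2 * (N / (24 * r) + (N / (24 * r) + N / (8 * r)))) = 1 / 3 * (r ^ 2 * N) := by
      field_simp; ring
    have e4 : (r : ℝ) ^ 2 * (N / (24 * r)) ≤ 1 / 24 * (r ^ 2 * N) := by
      have : (r : ℝ) ^ 2 * (N / (24 * r)) = 1 / 24 * (r * N) := by field_simp
      rw [this]
      gcongr
      nlinarith
    linarith
  have : Nonempty (Fin T) := ⟨⟨0, hT0⟩⟩
  have C0 : (0 : ℝ) < Fintype.card (ι → Fin T) := by exact_mod_cast Fintype.card_pos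
  have lo : ∀ i, Fintype.card (ι → Fin T) * (T * N / 2 : ℝ) ≤
      T * ∑ c : ι → Fin T, ‖xi (fun c => F (im φ c)) R (nv c) i‖ := by
    intro i
    rw [← nsmul_eq_mul T (∑ c : ι → Fin T, ‖xi (fun c => F (im φ c)) R (nv c) i‖), ← sum_update i,
      ← card_univ, ← nsmul_eq_mul, ← sum_const]
    refine sum_le_sum fun c _ => ?_
    simp only [nv_update]
    refine le_trans (le_of_eq ?_) (lower hF k0.le hl hφ hR0 T (nv c) i)
    rw [hJ, hn', hT']; ring
  have h1 := sum_le_sum fun i (_ : i ∈ univ) => lo i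
  rw [← mul_sum (a := (T : ℝ)), sum_comm, sum_const, card_univ, nsmul_eq_mul, hn'] at h1
  have h2 := sum_le_sum fun c (_ : c ∈ univ) => up c
  rw [sum_const, card_univ, nsmul_eq_mul] at h2
  have h3 := h1.trans (mul_le_mul_of_nonneg_left h2 T0.le)
  have : 0 < (Fintype.card (ι → Fin T) : ℝ) * (T * (r ^ 2 * N)) := by positivity
  nlinarith

end H93Lu
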