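import Pool.Agent.H93.Lu4

namespace H93Lu
open Finset

lemma hoeff {Ω A : Type*} [Fintype Ω] [Fintype A] [DecidableEq A] (σ : Ω ≃ Ω) (h : A → Ω → ℝ)
    {b : ℝ} (hσ : ∀ a ω, h a (σ ω) = -h a ω) (hb : ∀ a ω, |h a ω| ≤ b) (l : ℝ) :
    ∑ w : A → Ω, Real.exp (l * ∑ a, h a (w a)) ≤
      Fintype.card (A → Ω) * Real.exp (Fintype.card A * (l ^ 2 * b ^ 2 / 2)) := by
  simp only [mul_sum, Real.exp_sum]
  rw [← Fintype.piFinset_univ, ← prod_univ_sum (fun _ => univ) (fun a ω => Real.exp (l * h a ω)),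
    Fintype.card_fun, Real.exp_nat_mul, Nat.cast_pow, ← mul_pow, ← card_univ (α := A),
    ← prod_const]
  refine prod_le_prod (fun a _ => sum_nonneg fun _ _ => (Real.exp_pos _).le) fun a _ => ?_
  have e := Equiv.sum_comp σ (fun ω => Real.exp (l * h a ω))
  simp only [hσ, mul_neg] at e
  have e2 : ∑ ω, Real.exp (l * h a ω) = ∑ ω, Real.cosh (l * h a ω) := by
    simp only [Real.cosh_eq]
    rw [← sum_div, sum_add_distrib, e]; ring
  rw [e2, ← card_univ, ← nsmul_eq_mul, ← sum_const]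
  refine sum_le_sum fun ω _ => (Real.cosh_le_exp_half_sq _).trans ?_
  have := sq_le_sq' (abs_le.1 (hb a ω)).1 (abs_le.1 (hb a ω)).2
  rw [mul_pow]
  gcongr Real.exp (_ * ?_ / 2)

lemma tail {Ω A : Type*} [Fintype Ω] [Fintype A] [DecidableEq A] (σ : Ω ≃ Ω) (h : A → Ω → ℝ)
    {b : ℝ} (hσ : ∀ a ω, h a (σ ω) = -h a ω) (hb : ∀ a ω, |h a ω| ≤ b) (t : ℝ) :
    ∑ w : A → Ω, Real.exp (t / (Fintype.card A * b ^ 2) * (∑ a, h a (w a) - t)) ≤
      Fintype.card (A → Ω) * Real.exp (-(t ^ 2 / (2 * (Fintype.card A * b ^ 2)))) := by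
  set l := t / (Fintype.card A * b ^ 2) with hl
  have := hoeff σ h hσ hb l
  simp only [mul_sub, Real.exp_sub]
  rw [← sum_div, div_le_iff₀ (Real.exp_pos _), mul_assoc, ← Real.exp_add]
  refine this.trans (le_of_eq ?_)
  congr 2
  rcases eq_or_ne ((Fintype.card A : ℝ) * b ^ 2) 0 with h0 | h0
  · simp [hl, h0]
  · have h1 := left_ne_zero_of_mul h0
    have h2 : b ≠ 0 := fun h => h0 (by simp [h])
    rw [hl]; field_simp; ring

/-- A sign. -/
def sg (b : Bool) : ℝ := if b then 1 else -1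

lemma sg_cases (b : Bool) : sg b = 1 ∨ sg b = -1 := by cases b <;> simp [sg]

lemma sg_not (b : Bool) : sg (!b) = -sg b := by cases b <;> simp [sg]

lemma abs_sg (b : Bool) : |sg b| = 1 := by cases b <;> simp [sg]

lemma abs_le_of_sg {x t : ℝ} (h : ∀ s, sg s * x < t) : |x| ≤ t := by
  have h1 := h true
  have h2 := h false
  simp only [sg, if_true, one_mul, Bool.false_eq_true, if_false, neg_mul] at h1 h2
  exact abs_le.2 ⟨by linarith, by linarith⟩

theorem frames {ι J : Type} [Fintype ι] [Fintype J] [DecidableEq ι] [DecidableEq J] [Nonempty ι]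
    [Nonempty J] {S : ℕ} (hS : 0 < S) {κ m : ℝ} (hκ : 0 < κ) (hm : 0 < m)
    (hnum : 2 * (S + 1) ^ (2 * Fintype.card ι) *
        Real.exp (-(κ ^ 2 / (2 * (Fintype.card J * (Fintype.card ι * S) ^ 2)))) +
      2 * (Fintype.card J) ^ 2 * Real.exp (-(m ^ 2 / (2 * (Fintype.card ι * 1 ^ 2)))) < 1) :
    ∃ φ ψ : J → ι → ℝ, (∀ j i, φ j i = 1 ∨ φ j i = -1) ∧ (∀ j i, ψ j i = 1 ∨ ψ j i = -1) ∧
      (∀ j l, |∑ i, φ j i * ψ l i| ≤ m) ∧ ∀ p q : ι → ℕ, (∀ i, p i ≤ S) → (∀ i, q i ≤ S) →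
        abs (∑ j, |im φ p j - im φ q j| - ∑ j, |im ψ p j - im ψ q j|) ≤ κ := by
  let W := J → ι → Bool × Bool
  let B := ι → Fin (S + 1)
  let h1 : Bool × B × B → J → (ι → Bool × Bool) → ℝ := fun x _ ω =>
    sg x.1 * (|∑ i, ((x.2.1 i : ℝ) - x.2.2 i) * sg (ω i).1| -
      |∑ i, ((x.2.1 i : ℝ) - x.2.2 i) * sg (ω i).2|)
  let h2 : Bool × J × J → ι → (J → Bool × Bool) → ℝ := fun x _ ω =>
    sg x.1 * (sg (ω x.2.1).1 * sg (ω x.2.2).2)
  let l1 : ℝ := κ / (Fintype.card J * (Fintype.card ι * S) ^ 2)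
  let l2 : ℝ := m / (Fintype.card ι * 1 ^ 2)
  have cJ : (0 : ℝ) < Fintype.card J := by exact_mod_cast Fintype.card_pos
  have cι : (0 : ℝ) < Fintype.card ι := by exact_mod_cast Fintype.card_pos
  have cW : (0 : ℝ) < Fintype.card W := by exact_mod_cast Fintype.card_pos
  have S0 : (0 : ℝ) < S := by exact_mod_cast hS
  have t1 : ∀ x, ∑ w : W, Real.exp (l1 * (∑ j, h1 x j (w j) - κ)) ≤ Fintype.card W *
      Real.exp (-(κ ^ 2 / (2 * (Fintype.card J * (Fintype.card ι * S) ^ 2)))) := by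
    intro x
    refine tail (Equiv.piCongrRight fun _ => Equiv.prodComm Bool Bool) (h1 x) (fun j ω => ?_)
      (fun j ω => ?_) κ
    · simp only [h1, Equiv.piCongrRight_apply, Pi.map_apply, Equiv.prodComm_apply, Prod.fst_swap,
        Prod.snd_swap]
      ring
    · have bd : ∀ v : ι → Bool, |∑ i, ((x.2.1 i : ℝ) - x.2.2 i) * sg (v i)| ≤
          Fintype.card ι * S := fun v => by
        refine (abs_sum_le_sum_abs _ _).trans ?_
        refine (sum_le_sum (g := fun _ => (S : ℝ)) fun i _ => ?_).trans (by simp)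
        rw [abs_mul, abs_sg, mul_one]
        have a1 : ((x.2.1 i : ℕ) : ℝ) ≤ S := by exact_mod_cast Nat.lt_succ_iff.1 (x.2.1 i).2
        have a2 : ((x.2.2 i : ℕ) : ℝ) ≤ S := by exact_mod_cast Nat.lt_succ_iff.1 (x.2.2 i).2
        have a3 : (0 : ℝ) ≤ (x.2.1 i : ℕ) := Nat.cast_nonneg _
        have a4 : (0 : ℝ) ≤ (x.2.2 i : ℕ) := Nat.cast_nonneg _
        exact abs_le.2 ⟨by linarith, by linarith⟩
      simp only [h1]
      rw [abs_mul, abs_sg, one_mul]
      have b1 := bd fun i => (ω i).1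
      have b2 := bd fun i => (ω i).2
      have b3 := abs_nonneg (∑ i, ((x.2.1 i : ℝ) - x.2.2 i) * sg (ω i).1)
      have b4 := abs_nonneg (∑ i, ((x.2.1 i : ℝ) - x.2.2 i) * sg (ω i).2)
      exact abs_le.2 ⟨by linarith, by linarith⟩
  have t2 : ∀ x, ∑ w : W, Real.exp (l2 * (∑ i, h2 x i (fun j => w j i) - m)) ≤ Fintype.card W *
      Real.exp (-(m ^ 2 / (2 * (Fintype.card ι * 1 ^ 2)))) := by
    intro x
    have := tail (b := 1) (Equiv.piCongrRight fun _ => Equiv.prodCongr Equiv.boolNot (Equiv.refl Bool))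
      (h2 x) (fun i ω => by simp [h2, sg_not]) (fun i ω => by simp [h2, abs_mul, abs_sg]) m
    rw [← Equiv.sum_comp (Equiv.piComm fun (_ : J) (_ : ι) => Bool × Bool),
      ← Fintype.card_congr (Equiv.piComm fun (_ : J) (_ : ι) => Bool × Bool)] at this
    exact this
  have key : ∑ w : W, (∑ x, Real.exp (l1 * (∑ j, h1 x j (w j) - κ)) +
      ∑ x, Real.exp (l2 * (∑ i, h2 x i (fun j => w j i) - m))) < ∑ _w : W, (1 : ℝ) := by
    rw [sum_add_distrib, sum_comm, sum_comm (s := (univ : Finset W))]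
    refine (add_le_add (sum_le_sum fun x _ => t1 x) (sum_le_sum fun x _ => t2 x)).trans_lt ?_
    simp only [sum_const, card_univ, nsmul_eq_mul, Fintype.card_prod, Fintype.card_bool, B,
      Fintype.card_fun, Fintype.card_fin]
    have := mul_lt_mul_of_pos_left hnum cW
    simp only [W, Fintype.card_fun, Fintype.card_prod, Fintype.card_bool] at this ⊢
    push_cast at this ⊢
    refine lt_of_eq_of_lt ?_ this
    ring
  obtain ⟨w, -, hw⟩ := exists_lt_of_sum_lt key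
  have p1 := sum_nonneg fun x (_ : x ∈ univ) => (Real.exp_pos (l1 * (∑ j, h1 x j (w j) - κ))).le
  have p2 := sum_nonneg fun x (_ : x ∈ univ) =>
    (Real.exp_pos (l2 * (∑ i, h2 x i (fun j => w j i) - m))).le
  have q1 : ∀ x, ∑ j, h1 x j (w j) < κ := fun x => by
    have := single_le_sum (f := fun x => Real.exp (l1 * (∑ j, h1 x j (w j) - κ)))
      (fun x _ => (Real.exp_pos _).le) (mem_univ x)
    have h3 : Real.exp (l1 * (∑ j, h1 x j (w j) - κ)) < 1 := by linarith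
    rw [Real.exp_lt_one_iff] at h3
    have : 0 < l1 := by positivity
    nlinarith
  have q2 : ∀ x, ∑ i, h2 x i (fun j => w j i) < m := fun x => by
    have := single_le_sum (f := fun x => Real.exp (l2 * (∑ i, h2 x i (fun j => w j i) - m)))
      (fun x _ => (Real.exp_pos _).le) (mem_univ x)
    have h3 : Real.exp (l2 * (∑ i, h2 x i (fun j => w j i) - m)) < 1 := by linarith
    rw [Real.exp_lt_one_iff] at h3
    have : 0 < l2 := by positivity
    nlinarith
  refine ⟨fun j i => sg (w j i).1, fun j i => sg (w j i).2, fun _ _ => sg_cases _,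
    fun _ _ => sg_cases _, fun j l => abs_le_of_sg fun s => ?_,
    fun p q hp hq => abs_le_of_sg fun s => ?_⟩
  · have := q2 (s, j, l)
    simp only [h2] at this
    rwa [mul_sum]
  · have := q1 (s, fun i => ⟨p i, Nat.lt_succ_iff.2 (hp i)⟩, fun i => ⟨q i, Nat.lt_succ_iff.2 (hq i)⟩)
    simp only [h1] at this
    simp only [im, ← sum_sub_distrib, ← sub_mul]
    rwa [mul_sum]

end H93Lu
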