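import Pool.Agent.H93.Lu5

namespace H93Lu
open Finset MeasureTheory

lemma small {x y : ℝ} (h : x + 4 ≤ y) : 2 * Real.exp x * Real.exp (-y) ≤ 2 / 5 := by
  rw [mul_assoc, ← Real.exp_add]
  have h1 : Real.exp (x + -y) ≤ Real.exp (-4) := Real.exp_le_exp.2 (by linarith)
  have h2 : Real.exp (-4) ≤ 1 / 5 := by
    rw [Real.exp_neg, one_div]
    exact inv_anti₀ (by norm_num) (by linarith [Real.add_one_le_exp 4])
  linarith

lemma pow_le_exp {r : ℝ} (hr : 0 ≤ r) (a : ℕ) : r ^ a ≤ Real.exp (a * r) := by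
  rw [Real.exp_nat_mul]
  gcongr
  linarith [Real.add_one_le_exp r]

lemma num {k r N M R T : ℕ} (hk : 0 < k) (hr : r = 10 ^ 6 * k ^ 4) (hN : N = r ^ 20)
    (hM : M = 96 * k * N * r) (hR : R = 96 * k * M * r) (hT : T = 4 * k * r ^ 2 * R) :
    2 * (((T + R : ℕ) : ℝ) + 1) ^ (2 * r ^ 2) *
        Real.exp (-(((R : ℝ) * N / (16 * r * k)) ^ 2 /
          (2 * (N * ((r ^ 2 : ℕ) * (T + R : ℕ)) ^ 2)))) +
      2 * (N : ℝ) ^ 2 * Real.exp (-((((r : ℝ) / (8 * k)) ^ 2) ^ 2 / (2 * ((r ^ 2 : ℕ) * 1 ^ 2))))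
      < 1 := by
  have k1 : (1 : ℝ) ≤ k := by exact_mod_cast hk
  have hr' : (r : ℝ) = 10 ^ 6 * k ^ 4 := by exact_mod_cast hr
  have hN' : (N : ℝ) = r ^ 20 := by exact_mod_cast hN
  have hM' : (M : ℝ) = 96 * k * N * r := by exact_mod_cast hM
  have hR' : (R : ℝ) = 96 * k * M * r := by exact_mod_cast hR
  have hT' : (T : ℝ) = 4 * k * r ^ 2 * R := by exact_mod_cast hT
  have k4 : (1 : ℝ) ≤ k ^ 4 := one_le_pow₀ k1
  have r1 : (1 : ℝ) ≤ r := by rw [hr']; linarith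
  have N1 : (1 : ℝ) ≤ N := by rw [hN']; exact one_le_pow₀ r1
  have M1 : (1 : ℝ) ≤ M := by
    rw [hM']; exact one_le_mul_of_one_le_of_one_le (one_le_mul_of_one_le_of_one_le
      (by linarith) N1) r1
  have R1 : (1 : ℝ) ≤ R := by
    rw [hR']; exact one_le_mul_of_one_le_of_one_le (one_le_mul_of_one_le_of_one_le
      (by linarith) M1) r1
  have kr : (1 : ℝ) ≤ k * r ^ 2 := one_le_mul_of_one_le_of_one_le k1 (one_le_pow₀ r1)
  have S5 : (T : ℝ) + R ≤ 5 * k * r ^ 2 * R := by rw [hT']; nlinarith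
  have S6 : (T : ℝ) + R + 1 ≤ r ^ 25 := by
    have a1 : (T : ℝ) + R + 1 ≤ 6 * k * r ^ 2 * R := by nlinarith
    have a2 : 6 * (k : ℝ) * r ^ 2 * R = (55296 * k ^ 3) * r ^ 24 := by rw [hR', hM', hN']; ring
    have a3 : 55296 * (k : ℝ) ^ 3 ≤ r := by
      have : (k : ℝ) ^ 3 ≤ k ^ 4 := pow_le_pow_right₀ k1 (by norm_num)
      rw [hr']; linarith
    calc _ ≤ _ := a1
      _ = _ := a2
      _ ≤ r * (r : ℝ) ^ 24 := by gcongr
      _ = _ := by ring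
  push_cast
  have b1 : ((T : ℝ) + R + 1) ^ (2 * r ^ 2) ≤ Real.exp (50 * r ^ 3) := by
    calc _ ≤ (Real.exp ((25 : ℕ) * (r : ℝ))) ^ (2 * r ^ 2) := by
          gcongr; exact S6.trans (pow_le_exp (by linarith) 25)
      _ = _ := by rw [← Real.exp_nat_mul]; congr 1; push_cast; ring
  have b2 : (N : ℝ) ^ 2 ≤ Real.exp (40 * r) := by
    rw [hN', ← pow_mul]; exact_mod_cast pow_le_exp (r := r) (by linarith) 40
  have c1 : 50 * (r : ℝ) ^ 3 + 4 ≤ ((R : ℝ) * N / (16 * r * k)) ^ 2 /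
      (2 * (N * (r ^ 2 * (T + R)) ^ 2)) := by
    have TR : (0 : ℝ) < T + R := by positivity
    calc _ ≤ 54 * (r : ℝ) ^ 9 := by
          have : (r : ℝ) ^ 3 ≤ r ^ 9 := pow_le_pow_right₀ r1 (by norm_num)
          have : (1 : ℝ) ≤ r ^ 9 := one_le_pow₀ r1
          linarith
      _ ≤ (r / (12800 * k ^ 4)) * (r : ℝ) ^ 9 := by
          gcongr
          rw [le_div_iff₀ (by positivity), hr']; linarith
      _ = ((R : ℝ) * N / (16 * r * k)) ^ 2 / (2 * (N * (r ^ 2 * (5 * k * r ^ 2 * R)) ^ 2)) := by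
          rw [hN']; field_simp; ring
      _ ≤ _ := by gcongr
  have c2 : 40 * (r : ℝ) + 4 ≤ (((r : ℝ) / (8 * k)) ^ 2) ^ 2 / (2 * (r ^ 2 * 1 ^ 2)) := by
    calc _ ≤ 44 * (r : ℝ) := by linarith
      _ ≤ (r / (8192 * k ^ 4)) * (r : ℝ) := by
          gcongr
          rw [le_div_iff₀ (by positivity), hr']; linarith
      _ = _ := by field_simp; ring
  have d1 := small c1
  have d2 := small c2
  calc _ ≤ 2 * Real.exp (50 * r ^ 3) * _ + 2 * Real.exp (40 * r) * _ := by gcongr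
    _ ≤ 2 / 5 + 2 / 5 := add_le_add d1 d2
    _ < 1 := by norm_num

/-- The finite block with parameter `k`. -/
theorem block (k : ℕ) (hk : 0 < k) : ∃ (n N S : ℕ) (κ : ℝ) (φ ψ : Fin N → Fin n → ℝ), 0 < κ ∧
    (∀ p q : Fin n → ℕ, (∀ i, p i ≤ S) → (∀ i, q i ≤ S) →
      abs (∑ j, |im φ p j - im φ q j| - ∑ j, |im ψ p j - im ψ q j|) ≤ κ) ∧
    ∀ {Ω : Type} [MeasurableSpace Ω] {μ : Measure Ω} {F G : (Fin N → ℝ) → Lp ℝ 1 μ},
      Lip F k → Lip G k → (∀ a a', ∑ j, |a j - a' j| ≤ ‖F a - F a'‖) →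
      (∀ c : Fin n → ℕ, (∀ i, c i ≤ S) → ‖G (im ψ c) - F (im φ c)‖ ≤ k * κ) → False := by
  obtain ⟨r, hr⟩ : ∃ r, r = 10 ^ 6 * k ^ 4 := ⟨_, rfl⟩
  obtain ⟨N, hN⟩ : ∃ N, N = r ^ 20 := ⟨_, rfl⟩
  obtain ⟨M, hM⟩ : ∃ M, M = 96 * k * N * r := ⟨_, rfl⟩
  obtain ⟨R, hR⟩ : ∃ R, R = 96 * k * M * r := ⟨_, rfl⟩
  obtain ⟨T, hT⟩ : ∃ T, T = 4 * k * r ^ 2 * R := ⟨_, rfl⟩
  have r0 : 0 < r := by rw [hr]; positivity
  have N0 : 0 < N := by rw [hN]; positivity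
  have M0 : 0 < M := by rw [hM]; positivity
  have R0 : 0 < R := by rw [hR]; positivity
  have : Nonempty (Fin N) := ⟨⟨0, N0⟩⟩
  have : Nonempty (Fin (r ^ 2)) := ⟨⟨0, by positivity⟩⟩
  have κ0 : (0 : ℝ) < (R : ℝ) * N / (16 * r * k) := by positivity
  obtain ⟨φ, ψ, h1, h2, h3, h4⟩ := frames (ι := Fin (r ^ 2)) (J := Fin N) (S := T + R)
    (by omega) κ0 (m := ((r : ℝ) / (8 * k)) ^ 2) (by positivity)
    (by simpa only [Fintype.card_fin] using num hk hr hN hM hR hT)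
  exact ⟨r ^ 2, N, T + R, _, φ, ψ, κ0, h4, fun hF hG hl hg =>
    core h1 h2 hk r0 N0 (Fintype.card_fin _) (Fintype.card_fin _) hM hR hT h3 hF hG hl hg⟩

end H93Lu
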