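import Pool.Agent.H93.Lu6

namespace H93Lu
open Finset MeasureTheory

/-- The sequence space. -/
abbrev L1 : Type := lp (fun _ : ℕ => ℝ) 1

lemma exists_iso : ∃ J : L1 → Lp ℝ 1 (Measure.count : Measure ℕ),
    ∀ x y, dist (J x) (J y) = dist x y := by
  have hi : ∀ x : L1, Integrable (x : ℕ → ℝ) Measure.count := fun x =>
    integrable_count_iff.2 (by simpa using (lp.memℓp x).summable (by simp))
  refine ⟨fun x => (hi x).toL1 _, fun x y => ?_⟩
  rw [dist_eq_norm, dist_eq_norm, ← Integrable.toL1_sub, L1.norm_of_fun_eq_integral_norm,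
    integral_countable ((hi x).sub (hi y)).norm, lp.norm_eq_tsum_rpow (by simp)]
  simp [Measure.real]

/-- A finitely supported sequence. -/
noncomputable def bl {J : Type} [Fintype J] (e : J → ℕ) (a : J → ℝ) : L1 :=
  ∑ j, lp.single 1 (e j) (a j)

lemma norm_bl {J : Type} [Fintype J] {e : J → ℕ} (he : Function.Injective e) (a : J → ℝ) :
    ‖bl e a‖ = ∑ j, |a j| := by
  have := lp.norm_sum_single (E := fun _ : ℕ => ℝ) (p := 1) (by simp) (Function.extend e a 0)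
    (univ.map ⟨e, he⟩)
  simpa [bl, sum_map, he.extend_apply] using this

lemma dist_bl {J : Type} [Fintype J] {e : J → ℕ} (he : Function.Injective e) (a b : J → ℝ) :
    dist (bl e a) (bl e b) = ∑ j, |a j - b j| := by
  rw [dist_eq_norm, ← norm_bl he fun j => a j - b j]
  simp [bl, sum_sub_distrib]

lemma dist_bl_ne {N N' k l : ℕ} (h : k ≠ l) (a : Fin N → ℝ) (b : Fin N' → ℝ) :
    dist (bl (fun j : Fin N => Nat.pair k j) a) (bl (fun j : Fin N' => Nat.pair l j) b) =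
      ∑ j, |a j| + ∑ j, |b j| := by
  have he : Function.Injective
      (Sum.elim (fun j : Fin N => Nat.pair k j) (fun j : Fin N' => Nat.pair l j)) := by
    rintro (x | x) (y | y) hxy <;> simp [Nat.pair_eq_pair, h, h.symm, Fin.val_inj] at hxy ⊢ <;>
      exact hxy
  have := norm_bl he (Sum.elim a (-b))
  rw [dist_eq_norm]
  simpa [bl, Fintype.sum_sum_type, sub_eq_add_neg] using this

lemma pair_inj {N : ℕ} (k : ℕ) : Function.Injective fun j : Fin N => Nat.pair k j := by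
  intro x y h
  simpa [Nat.pair_eq_pair, Fin.val_inj] using h

lemma abs_sub_smul {J : Type} [Fintype J] {s : ℝ} (hs : 0 ≤ s) (a b : J → ℝ) :
    ∑ j, |(s • a) j - (s • b) j| = s * ∑ j, |a j - b j| := by
  simp only [Pi.smul_apply, smul_eq_mul, ← mul_sub, abs_mul, abs_of_nonneg hs, mul_sum]

theorem main : ∃ m : MetricSpace (L1 ⊕ L1),
    (∀ a b : L1, m.dist (.inl a) (.inl b) = dist a b) ∧
    (∀ a b : L1, m.dist (.inr a) (.inr b) = dist a b) ∧
    ∀ (Ω : Type) [MeasurableSpace Ω] (μ : Measure Ω) (f : L1 ⊕ L1 → Lp ℝ 1 μ) (c C : ℝ), 0 < c →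
      ¬ ∀ x y, c * m.dist x y ≤ dist (f x) (f y) ∧ dist (f x) (f y) ≤ C * m.dist x y := by
  choose n N S κ φ ψ hκ h1 h2 using fun k => block (k + 1) k.succ_pos
  let Z := Σ k : ℕ, {c : Fin (n k) → ℕ // ∀ i, c i ≤ S k}
  let e : ∀ k, Fin (N k) → ℕ := fun k j => Nat.pair k j
  let Φ : Z → L1 := fun z => bl (e z.1) ((κ z.1)⁻¹ • im (φ z.1) z.2.1)
  let Ψ : Z → L1 := fun z => bl (e z.1) ((κ z.1)⁻¹ • im (ψ z.1) z.2.1)
  have : Nonempty Z := ⟨⟨0, 0, fun _ => Nat.zero_le _⟩⟩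
  have one : ∀ k (p q : {c : Fin (n k) → ℕ // ∀ i, c i ≤ S k}),
      abs (∑ j, |((κ k)⁻¹ • im (φ k) p.1) j - ((κ k)⁻¹ • im (φ k) q.1) j| -
        ∑ j, |((κ k)⁻¹ • im (ψ k) p.1) j - ((κ k)⁻¹ • im (ψ k) q.1) j|) ≤ 1 := by
    intro k p q
    have := (inv_pos.2 (hκ k)).le
    rw [abs_sub_smul this, abs_sub_smul this, ← mul_sub, abs_mul, abs_of_nonneg this,
      inv_mul_le_iff₀ (hκ k), mul_one]
    exact h1 k _ _ p.2 q.2
  have zero : ∀ k (p : {c : Fin (n k) → ℕ // ∀ i, c i ≤ S k}),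
      abs (∑ j, |((κ k)⁻¹ • im (φ k) p.1) j| - ∑ j, |((κ k)⁻¹ • im (ψ k) p.1) j|) ≤ 1 := by
    intro k p
    have := one k p ⟨0, fun _ => Nat.zero_le _⟩
    simpa [im] using this
  have H : ∀ p q : Z, |dist (Φ p) (Φ q) - dist (Ψ p) (Ψ q)| ≤ 2 * 1 := by
    rintro ⟨k, p⟩ ⟨l, q⟩
    by_cases h : k = l
    · subst h
      simp only [Φ, Ψ, e, dist_bl (pair_inj k)]
      linarith [one k p q]
    · simp only [Φ, Ψ, e, dist_bl_ne h]
      have a1 := abs_le.1 (zero k p)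
      have a2 := abs_le.1 (zero l q)
      exact abs_le.2 ⟨by linarith [a1.1, a2.1], by linarith [a1.2, a2.2]⟩
  refine ⟨Metric.glueMetricApprox Φ Ψ 1 one_pos H, fun _ _ => rfl, fun _ _ => rfl,
    fun Ω _ μ f c C hc hf => ?_⟩
  change ∀ x y, c * Metric.glueDist Φ Ψ 1 x y ≤ dist (f x) (f y) ∧
    dist (f x) (f y) ≤ C * Metric.glueDist Φ Ψ 1 x y at hf
  obtain ⟨k, hk⟩ := exists_nat_ge (C / c)
  have hk' : C ≤ ((k + 1 : ℕ) : ℝ) * c := by
    rw [div_le_iff₀ hc] at hk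
    push_cast; nlinarith
  have κ0 := hκ k
  have κi := (inv_pos.2 κ0).le
  have nrm : ∀ x y, ‖(κ k / c) • f x - (κ k / c) • f y‖ = κ k / c * dist (f x) (f y) := by
    intro x y
    rw [← smul_sub, norm_smul, Real.norm_eq_abs, abs_of_pos (by positivity), dist_eq_norm]
  have up : ∀ x y t, 0 ≤ t → Metric.glueDist Φ Ψ 1 x y = (κ k)⁻¹ * t →
      ‖(κ k / c) • f x - (κ k / c) • f y‖ ≤ (k + 1 : ℕ) * t := by
    intro x y t ht h
    rw [nrm]
    calc _ ≤ κ k / c * (((k + 1 : ℕ) : ℝ) * c * ((κ k)⁻¹ * t)) := by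
          gcongr
          refine (hf x y).2.trans ?_
          rw [h]; gcongr
      _ = _ := by field_simp
  refine h2 k (μ := μ) (F := fun a => (κ k / c) • f (.inl (bl (e k) ((κ k)⁻¹ • a))))
    (G := fun a => (κ k / c) • f (.inr (bl (e k) ((κ k)⁻¹ • a)))) (fun a b => ?_) (fun a b => ?_)
    (fun a b => ?_) (fun p hp => ?_)
  · refine up _ _ _ (sum_nonneg fun _ _ => abs_nonneg _) ?_
    simp only [Metric.glueDist, e, dist_bl (pair_inj k), abs_sub_smul κi]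
  · refine up _ _ _ (sum_nonneg fun _ _ => abs_nonneg _) ?_
    simp only [Metric.glueDist, e, dist_bl (pair_inj k), abs_sub_smul κi]
  · rw [nrm]
    have := (hf (.inl (bl (e k) ((κ k)⁻¹ • a))) (.inl (bl (e k) ((κ k)⁻¹ • b)))).1
    simp only [Metric.glueDist, e, dist_bl (pair_inj k), abs_sub_smul κi] at this
    calc _ = κ k / c * (c * ((κ k)⁻¹ * ∑ j, |a j - b j|)) := by field_simp
      _ ≤ _ := by gcongr
  · rw [norm_sub_rev]
    refine up _ _ _ κ0.le ?_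
    rw [inv_mul_cancel₀ κ0.ne']
    exact Metric.glueDist_glued_points Φ Ψ 1 ⟨k, p, hp⟩

end H93Lu
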