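import Mathlib
import Pool.Agent.H48.Borcea2

set_option autoImplicit false

namespace Pool.Agent.H93.Mei

open Complex Finset Polynomial

lemma geom (l : ℂ) (hl : l ≠ 0) (u : ℝ) (h0 : 0 ≤ u) (h1 : u ≤ 1)
    (hc : (l + l⁻¹).im ≤ 0) (hc' : (l + l⁻¹).im = 0 → |(l + l⁻¹).re| ≤ 2)
    (hx : 0 ≤ (u * l + (1 - u) * l⁻¹).im) : ‖u * l + (1 - u) * l⁻¹‖ ≤ 1 := by
  have hN : 0 < normSq l := normSq_pos.mpr hl
  set r := (normSq l)⁻¹ with hr
  have hr0 : 0 < r := inv_pos.mpr hN
  have e1 : l⁻¹.re = l.re * r := by rw [inv_re, div_eq_mul_inv]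
  have e2 : l⁻¹.im = -l.im * r := by rw [inv_im, div_eq_mul_inv]
  have e3 : r * (l.re ^ 2 + l.im ^ 2) = 1 := by
    have := inv_mul_cancel₀ hN.ne'
    rw [← hr, normSq_apply] at this; linarith
  rw [← sq_le_one_iff₀ (norm_nonneg _), Complex.sq_norm, normSq_apply]
  simp only [add_re, add_im, mul_re, mul_im, sub_re, sub_im, ofReal_re, ofReal_im, one_re, one_im,
    e1, e2, zero_mul, sub_zero, add_zero] at hc hc' hx ⊢
  set x := l.re
  set y := l.im
  set B := u - (1 - u) * r with hB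
  have key : (u * x + (1 - u) * (x * r)) * (u * x + (1 - u) * (x * r)) +
      (u * y + (1 - u) * (-y * r)) * (u * y + (1 - u) * (-y * r)) =
      (x ^ 2 + y ^ 2) * B ^ 2 + 4 * u * (1 - u) * (r * x ^ 2) := by rw [hB]; ring
  rw [key]
  have h2 : r * x ^ 2 ≤ 1 := by nlinarith [mul_nonneg hr0.le (sq_nonneg y)]
  have h3 : 4 * u * (1 - u) * (r * x ^ 2) ≤ 4 * u * (1 - u) := by
    have : 0 ≤ 4 * u * (1 - u) := by nlinarith
    nlinarith
  have hS : 0 < x ^ 2 + y ^ 2 := by
    by_contra h; have : x ^ 2 + y ^ 2 = 0 := by nlinarith [sq_nonneg x, sq_nonneg y]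
    rw [this] at e3; norm_num at e3
  have hx' : 0 ≤ y * B := by rw [hB]; linarith
  suffices h : (x ^ 2 + y ^ 2) * B ^ 2 ≤ (2 * u - 1) ^ 2 by nlinarith
  set S := x ^ 2 + y ^ 2
  rcases lt_trichotomy y 0 with hy | hy | hy
  · have r1 : r ≤ 1 := by nlinarith
    have S1 : 1 ≤ S := by nlinarith
    have B0 : B ≤ 0 := by nlinarith
    have a1 : -B * S = (1 - u) - u * S := by rw [hB]; linear_combination (1 - u) * e3
    have a2 : -B * S ≤ 1 - 2 * u := by nlinarith
    have a3 : 0 ≤ -B * S := by nlinarith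
    have a4 : (-B * S) ^ 2 ≤ (1 - 2 * u) ^ 2 := pow_le_pow_left₀ a3 a2 2
    nlinarith [mul_nonneg (sub_nonneg.mpr S1) (mul_nonneg hS.le (sq_nonneg B))]
  · have a1 := hc' (by rw [hy]; ring)
    have a2 : (x + x * r) ^ 2 ≤ 4 := by
      have := sq_le_sq' (abs_le.mp a1).1 (abs_le.mp a1).2
      linarith
    have a3 : S = x ^ 2 := by simp only [S, hy]; ring
    have a4 : S * (1 - r) ^ 2 ≤ 0 := by nlinarith
    have a5 : r = 1 := by
      have : (1 - r) ^ 2 = 0 := le_antisymm (by nlinarith) (sq_nonneg _)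
      have := pow_eq_zero_iff (two_ne_zero) |>.mp this
      linarith
    have a6 : S = 1 := by rw [a5] at e3; linarith
    rw [a6, hB, a5]; nlinarith
  · have r1 : 1 ≤ r := by nlinarith
    have S1 : S ≤ 1 := by nlinarith
    have B0 : 0 ≤ B := by nlinarith
    have a2 : B ≤ 2 * u - 1 := by rw [hB]; nlinarith
    have a4 : B ^ 2 ≤ (2 * u - 1) ^ 2 := pow_le_pow_left₀ B0 a2 2
    nlinarith [sq_nonneg B]

/-- The weights. -/
noncomputable def om (a : ℝ) : ℕ → ℝ
  | 0 => 1
  | k + 1 => om a k * (k + a) / (k + 1)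

lemma om_pos {a : ℝ} (ha : 0 < a) (k : ℕ) : 0 < om a k := by
  induction k with
  | zero => simp [om]
  | succ k ih => simp only [om]; positivity

lemma om_succ (a : ℝ) (k : ℕ) : om a (k + 1) * ((k + 1 : ℕ) : ℝ) = om a k * (k + a) := by
  simp only [om]; push_cast; field_simp

lemma range_bound {a : ℝ} (ha : 0 < a) (ζ c μ : ℂ) (g : ℕ → ℂ) (n : ℕ) (hn : 1 ≤ n)
    (g0 : g 0 = 1) (gn : g n = 0)
    (hrec : ∀ k : ℕ, ζ * g k = c * (k + a / 2) * g k + μ * (k + a) * g (k + 1) - μ * k * g (k - 1)) :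
    ∃ s t : ℝ, |s| ≤ 1 ∧ 0 < t ∧ t ≤ n - 1 + a / 2 ∧ ζ = t * (c + I * s * (2 * μ)) := by
  set q : ℕ → ℂ := fun k => ((om a k * k : ℝ) : ℂ) * g k * (starRingEnd ℂ) (g (k - 1)) with hq
  set W := ∑ k ∈ range n, om a k * normSq (g k) with hW
  set K := ∑ k ∈ range n, (k + a / 2) * (om a k * normSq (g k)) with hK
  have hp : ∀ k, 0 ≤ om a k * normSq (g k) := fun k => mul_nonneg (om_pos ha k).le (normSq_nonneg _)
  have W0 : 0 < W := Finset.sum_pos' (fun k _ => hp k) ⟨0, by simp; omega, by simp [om, g0]⟩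
  have K0 : 0 < K := Finset.sum_pos' (fun k _ => mul_nonneg (by positivity) (hp k))
    ⟨0, by simp; omega, by simp [om, g0, ha]⟩
  have KW : K ≤ (n - 1 + a / 2) * W := by
    rw [hW, Finset.mul_sum]
    refine Finset.sum_le_sum fun k hk => mul_le_mul_of_nonneg_right ?_ (hp k)
    have : (k : ℝ) + 1 ≤ n := by exact_mod_cast mem_range.mp hk
    linarith
  have shift : ∀ {M : Type} [AddCommGroup M] (f : ℕ → M), f 0 = 0 → f n = 0 →
      ∑ k ∈ range n, f (k + 1) = ∑ k ∈ range n, f k := by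
    intro M _ f f0 fn
    have h1 := Finset.sum_range_succ f n
    rw [Finset.sum_range_succ', f0, fn] at h1
    simpa using h1
  set p := ∑ k ∈ range n, q k with hpdef
  have row : ∀ k, ζ * ((om a k * normSq (g k) : ℝ) : ℂ) =
      c * (((k + a / 2) * (om a k * normSq (g k)) : ℝ) : ℂ) + μ * q (k + 1) -
        μ * (starRingEnd ℂ) (q k) := by
    intro k
    simp only [hq, om_succ, map_mul, conj_ofReal, conj_conj, Nat.add_sub_cancel]
    push_cast
    rw [← mul_conj]
    linear_combination (om a k * (starRingEnd ℂ) (g k)) * hrec k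
  have tot : ζ * W = c * K + μ * (p - (starRingEnd ℂ) p) := by
    rw [hW, hK, ofReal_sum, ofReal_sum, Finset.mul_sum, Finset.mul_sum,
      Finset.sum_congr rfl fun k _ => row k, Finset.sum_sub_distrib, Finset.sum_add_distrib,
      ← Finset.mul_sum _ _ μ, ← Finset.mul_sum _ _ μ, shift q (by simp [hq]) (by simp [hq, gn]),
      ← map_sum, ← hpdef]
    ring
  have pK : ‖p‖ ≤ K := by
    rw [hpdef, ← shift q (by simp [hq]) (by simp [hq, gn])]
    refine (norm_sum_le _ _).trans ?_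
    have h1 : ∀ k ∈ range n, ‖q (k + 1)‖ ≤ (k + a) / 2 * (om a k * normSq (g k)) +
        ((k + 1 : ℕ) : ℝ) / 2 * (om a (k + 1) * normSq (g (k + 1))) := by
      intro k _
      have e := om_succ a k
      have h2 : 0 ≤ om a k * (k + a) := mul_nonneg (om_pos ha k).le (by positivity)
      simp only [hq, e, norm_mul, Complex.norm_real, RCLike.norm_conj, Nat.add_sub_cancel,
        ← Complex.sq_norm]
      rw [← norm_mul, Real.norm_eq_abs, abs_of_nonneg h2]
      have e2 : ((k + 1 : ℕ) : ℝ) / 2 * (om a (k + 1) * ‖g (k + 1)‖ ^ 2) =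
          om a k * (k + a) * ‖g (k + 1)‖ ^ 2 / 2 := by rw [← e]; ring
      rw [e2]
      nlinarith [mul_nonneg h2 (sq_nonneg (‖g (k + 1)‖ - ‖g k‖))]
    refine (Finset.sum_le_sum h1).trans ?_
    rw [Finset.sum_add_distrib,
      shift (fun k => (k : ℝ) / 2 * (om a k * normSq (g k))) (by simp) (by simp [gn]),
      ← Finset.sum_add_distrib, hK]
    exact le_of_eq (Finset.sum_congr rfl fun k _ => by ring)
  refine ⟨p.im / K, K / W, ?_, by positivity, by rwa [div_le_iff₀ W0], ?_⟩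
  · rw [abs_div, abs_of_pos K0, div_le_one K0]
    exact (abs_im_le_norm p).trans pK
  · rw [sub_conj] at tot
    have hW' : (W : ℂ) ≠ 0 := by exact_mod_cast W0.ne'
    have hK' : (K : ℂ) ≠ 0 := by exact_mod_cast K0.ne'
    push_cast at tot ⊢
    field_simp
    linear_combination tot

lemma diag {a : ℝ} (ha : 0 < a) (z τ : ℂ) (G : ℕ → ℂ) (n : ℕ) (G0 : G 0 = 1) (Gn : G n = 0)
    (hrec : ∀ k : ℕ, z * G k = (a + k) * G (k + 1) + (k - a * τ - 2 * k * τ) * G k -
      k * (τ * (1 - τ)) * G (k - 1))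
    (hz : 0 ≤ z.im) (hτ : 0 ≤ τ.im) (hτ' : τ.im = 0 → 0 ≤ τ.re ∧ τ.re ≤ 1) :
    ‖z + a / 2‖ ≤ n - 1 + a / 2 := by
  have hn : 1 ≤ n := by
    rcases Nat.eq_zero_or_pos n with h | h
    · rw [h, G0] at Gn; exact absurd Gn one_ne_zero
    · exact h
  by_cases h0 : τ * (1 - τ) = 0
  · have : ∀ m, G m = 0 → ∃ k < m, z = k - a * τ - 2 * k * τ := by
      intro m
      induction m with
      | zero => intro h; rw [G0] at h; exact absurd h one_ne_zero
      | succ m ih =>
        intro h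
        have h1 := hrec m
        rw [h, h0] at h1
        have h2 : (z - (m - a * τ - 2 * m * τ)) * G m = 0 := by linear_combination h1
        rcases mul_eq_zero.mp h2 with h3 | h3
        · exact ⟨m, by omega, by linear_combination h3⟩
        · obtain ⟨k, hk, h4⟩ := ih h3
          exact ⟨k, by omega, h4⟩
    obtain ⟨k, hk, h4⟩ := this n Gn
    have hk' : (k : ℝ) + 1 ≤ n := by exact_mod_cast hk
    have h5 : ‖z + a / 2‖ = ‖((k + a / 2 : ℝ) : ℂ)‖ := by
      rcases mul_eq_zero.mp h0 with h | h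
      · rw [h4, h]; congr 1; push_cast; ring
      · have : τ = 1 := by linear_combination -h
        rw [h4, this, ← norm_neg]; congr 1; push_cast; ring
    rw [h5, Complex.norm_real, Real.norm_eq_abs, abs_of_nonneg (by positivity)]
    linarith
  · obtain ⟨μ, hμ⟩ := IsAlgClosed.exists_pow_nat_eq (τ * (1 - τ)) two_pos
    have hμ0 : μ ≠ 0 := by rintro rfl; exact h0 (by rw [← hμ]; simp)
    obtain ⟨s, t, hs, ht0, ht, he⟩ := range_bound ha (z + a / 2) (1 - 2 * τ) μ
      (fun k => G k / μ ^ k) n hn (by simp [G0]) (by simp [Gn]) (fun k => by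
        have h1 := hrec k
        rw [← hμ] at h1
        rcases k with _ | k
        · simp only [Nat.cast_zero, pow_zero, div_one, zero_add, pow_one, mul_zero, zero_mul,
            sub_zero] at h1 ⊢
          field_simp
          linear_combination 2 * h1
        · simp only [Nat.add_sub_cancel] at h1 ⊢
          field_simp
          linear_combination 2 * μ ^ 2 * μ ^ (k * 2) * h1)
    set l := (1 - 2 * τ) + I * (2 * μ) with hl
    have hll : l * ((1 - 2 * τ) - I * (2 * μ)) = 1 := by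
      rw [hl]; linear_combination 4 * hμ - 4 * μ ^ 2 * I_sq
    have hl0 : l ≠ 0 := left_ne_zero_of_mul_eq_one hll
    have hinv : l⁻¹ = (1 - 2 * τ) - I * (2 * μ) := inv_eq_of_mul_eq_one_right hll
    have e1 : l + l⁻¹ = 2 - 4 * τ := by rw [hinv, hl]; ring
    have e2 : (((1 + s) / 2 : ℝ) : ℂ) * l + (1 - (((1 + s) / 2 : ℝ) : ℂ)) * l⁻¹ =
        1 - 2 * τ + I * s * (2 * μ) := by rw [hinv, hl]; push_cast; ring
    have hs' := abs_le.mp hs
    have h6 := geom l hl0 ((1 + s) / 2) (by linarith) (by linarith)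
      (by rw [e1]; simp; linarith)
      (by
        rw [e1]; intro h
        have := hτ' (by simpa using h)
        simp only [sub_re, mul_re, re_ofNat, im_ofNat, zero_mul, sub_zero]
        rw [abs_le]; constructor <;> linarith [this.1, this.2])
      (by
        rw [e2]
        have := congrArg Complex.im he
        rw [im_ofReal_mul, add_im] at this
        have h7 : ((a : ℂ) / 2).im = 0 := by simp
        rw [h7, add_zero] at this
        rw [this] at hz
        exact nonneg_of_mul_nonneg_right hz ht0 |> fun h => h)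
    rw [e2] at h6
    rw [he, norm_mul, Complex.norm_real, Real.norm_eq_abs, abs_of_pos ht0]
    nlinarith

end Pool.Agent.H93.Mei
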