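import Mathlib

set_option autoImplicit false

/-! Taylor coefficients of compositions with disc automorphisms. -/

namespace Pool.Agent.H93.Mob1

open Set Filter Topology Metric Complex Real Polynomial
open scoped ComplexConjugate

/-- Taylor coefficient at zero -/
noncomputable def co (g : ℂ → ℂ) (j : ℕ) : ℂ := iteratedDeriv j g 0 / j.factorial

/-- power series representation in the unit disc -/
def Rep (g : ℂ → ℂ) (a : ℕ → ℂ) : Prop := ∀ z : ℂ, ‖z‖ < 1 → HasSum (fun n => a n * z ^ n) (g z)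

/-- the automorphism -/
noncomputable def phi (w z : ℂ) : ℂ := (z - w) / (1 - conj w * z)

lemma Rep.fps {g : ℂ → ℂ} {a : ℕ → ℂ} (h : Rep g a) :
    HasFPowerSeriesOnBall g (FormalMultilinearSeries.ofScalars ℂ a) 0 1 := by
  refine ⟨ENNReal.le_of_forall_nnreal_lt fun r hr => ?_, one_pos, fun {y} hy => ?_⟩
  · refine FormalMultilinearSeries.le_radius_of_summable _ ?_
    have := (h (r : ℝ) (by simpa using hr)).summable.norm
    simpa [FormalMultilinearSeries.ofScalars_norm] using this
  · simp only [FormalMultilinearSeries.ofScalars_apply_eq, smul_eq_mul, zero_add]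
    exact h y (by simpa [← ENNReal.coe_one, edist_lt_coe] using hy)

lemma Rep.co_eq {g : ℂ → ℂ} {a : ℕ → ℂ} (h : Rep g a) (j : ℕ) : co g j = a j := by
  have := h.fps.factorial_smul 1 j
  rw [FormalMultilinearSeries.ofScalars_apply_eq, ← iteratedDeriv_eq_iteratedFDeriv] at this
  rw [co, ← this]
  have : (j.factorial : ℂ) ≠ 0 := by exact_mod_cast j.factorial_ne_zero
  simp [this]

lemma Rep.diff {g : ℂ → ℂ} {a : ℕ → ℂ} (h : Rep g a) : DifferentiableOn ℂ g (ball 0 1) := by
  have := h.fps.differentiableOn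
  rwa [← ENNReal.coe_one, Metric.eball_coe] at this

lemma hs_congr {α : Type*} {f g : α → ℂ} {a b : ℂ} (h : HasSum f a) (h1 : ∀ n, g n = f n)
    (h2 : b = a) : HasSum g b := by
  rw [h2, funext h1]; exact h

lemma rep_co {g : ℂ → ℂ} (h : DifferentiableOn ℂ g (ball 0 1)) : Rep g (co g) := fun z hz => by
  refine hs_congr (hasSum_taylorSeries_on_ball h (mem_ball_zero_iff.2 hz)) (fun n => ?_) rfl
  simp only [co, sub_zero, smul_eq_mul]; ring

lemma Rep.shift {g : ℂ → ℂ} {a : ℕ → ℂ} (h : Rep g a) (c : ℂ) :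
    Rep (fun z => c + z * g z) (fun n => Nat.casesOn n c a) := fun z hz => by
  rw [← hasSum_nat_add_iff' 1]
  refine hs_congr ((h z hz).mul_left z) (fun n => ?_) (by simp)
  simp only; ring

lemma co_deriv (g : ℂ → ℂ) (j : ℕ) : co (deriv g) j = (j + 1) * co g (j + 1) := by
  have : (j.factorial : ℂ) ≠ 0 := by exact_mod_cast j.factorial_ne_zero
  have : (j + 1 : ℂ) ≠ 0 := by exact_mod_cast j.succ_ne_zero
  simp only [co, iteratedDeriv_succ', Nat.factorial_succ]
  push_cast; field_simp

lemma rep_zd {g : ℂ → ℂ} (h : DifferentiableOn ℂ g (ball 0 1)) (c : ℂ) :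
    Rep (fun z => z * deriv g z - c * g z) (fun j => (j - c) * co g j) := fun z hz => by
  have := (((rep_co (h.deriv isOpen_ball)).shift 0) z hz).sub ((rep_co h z hz).mul_left c)
  refine hs_congr this (fun n => ?_) (by simp)
  cases n with
  | zero => simp
  | succ n => simp only [co_deriv]; push_cast; ring

lemma den_ne {w z : ℂ} (hw : ‖w‖ < 1) (hz : ‖z‖ ≤ 1) : 1 - conj w * z ≠ 0 := by
  intro h
  have : ‖conj w * z‖ = 1 := by rw [← sub_eq_zero.1 h, norm_one]
  rw [norm_mul, norm_conj] at this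
  nlinarith [norm_nonneg w, norm_nonneg z]

/-- the weight -/
noncomputable def om (w z : ℂ) : ℝ := ((1 + conj w * z) / (1 - conj w * z)).re

lemma om_eq {w z : ℂ} (hz : ‖z‖ = 1) : om w z = (1 - ‖w‖ ^ 2) / normSq (1 - conj w * z) := by
  have : ‖w‖ ^ 2 = normSq (conj w * z) := by
    rw [normSq_eq_norm_sq, norm_mul, norm_conj, hz, mul_one]
  rw [om, this, div_re]
  simp only [add_re, one_re, sub_re, add_im, one_im, sub_im, normSq_apply (conj w * z)]
  ring

lemma om_ge {w z : ℂ} (hw : ‖w‖ < 1) (hz : ‖z‖ = 1) : (1 - ‖w‖ ^ 2) / 4 ≤ om w z := by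
  rw [om_eq hz]
  have h1 := normSq_pos.2 (den_ne hw hz.le)
  have h2 : ‖1 - conj w * z‖ ≤ 2 := by
    refine (norm_sub_le _ _).trans ?_
    rw [norm_mul, norm_conj, hz, norm_one]; linarith
  refine div_le_div_of_nonneg_left (by nlinarith [norm_nonneg w]) h1 ?_
  rw [normSq_eq_norm_sq]; nlinarith [norm_nonneg (1 - conj w * z)]

lemma norm_phi {w z : ℂ} (hw : ‖w‖ < 1) (hz : ‖z‖ = 1) : ‖phi w z‖ = 1 := by
  have h : z * conj z = 1 := by rw [mul_conj, normSq_eq_norm_sq, hz]; simp
  have e : z - w = z * conj (1 - conj w * z) := by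
    simp only [map_sub, map_one, map_mul, conj_conj]; linear_combination w * h
  rw [phi, norm_div, e, norm_mul, norm_conj, hz, one_mul, div_self]
  exact norm_ne_zero_iff.2 (den_ne hw hz.le)

lemma phi_om {w z : ℂ} (hw : ‖w‖ < 1) (hz : ‖z‖ = 1) :
    phi w z * om w z = z * ((1 - ‖w‖ ^ 2 : ℝ) / (1 - conj w * z) ^ 2) := by
  have h : z * conj z = 1 := by rw [mul_conj, normSq_eq_norm_sq, hz]; simp
  have e : z - w = z * conj (1 - conj w * z) := by
    simp only [map_sub, map_one, map_mul, conj_conj]; linear_combination w * h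
  have d := den_ne hw hz.le
  have d' : conj (1 - conj w * z) ≠ 0 := (_root_.map_ne_zero _).2 d
  rw [om_eq hz, phi, e, ofReal_div, ← mul_conj]
  generalize conj (1 - conj w * z) = t at d'
  field_simp

lemma mean {U : Set ℂ} (hU : IsOpen U) (hs : closedBall 0 1 ⊆ U) {g : ℂ → ℂ}
    (hg : DifferentiableOn ℂ g U) : circleAverage g 0 1 = g 0 :=
  circleAverage_of_differentiable_on_off_countable countable_empty
    (hg.continuousOn.mono (by rwa [abs_one])) fun z hz => hg.differentiableAt (hU.mem_nhds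
      (hs (ball_subset_closedBall (by simpa using hz))))

/-- the set where the automorphism is defined -/
def U (w : ℂ) : Set ℂ := {z | 1 - conj w * z ≠ 0}

lemma U_open (w : ℂ) : IsOpen (U w) := isOpen_ne_fun (by fun_prop) continuous_const
lemma U_sub {w : ℂ} (hw : ‖w‖ < 1) : closedBall 0 1 ⊆ U w := fun _ hz =>
  den_ne hw (mem_closedBall_zero_iff.1 hz)
lemma phi_diff (w : ℂ) : DifferentiableOn ℂ (phi w) (U w) :=
  DifferentiableOn.div (by fun_prop) (by fun_prop) fun _ hz => hz

lemma om_cont {w : ℂ} (hw : ‖w‖ < 1) : ContinuousOn (om w) (sphere 0 1) :=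
  continuous_re.comp_continuousOn (ContinuousOn.div (by fun_prop) (by fun_prop)
    fun _ hz => U_sub hw (sphere_subset_closedBall hz))

lemma step {w : ℂ} (hw : ‖w‖ < 1) {V : Set ℂ} (hV : IsOpen V) (hs : closedBall 0 1 ⊆ V)
    {g : ℂ → ℂ} (hg : DifferentiableOn ℂ g V) (c : ℂ) :
    circleAverage (fun z => ‖c + phi w z * g z‖ ^ 2 * om w z) 0 1 =
      ‖c‖ ^ 2 + circleAverage (fun z => ‖g z‖ ^ 2 * om w z) 0 1 := by
  have hV' := hV.inter (U_open w)
  have hs' := subset_inter hs (U_sub hw)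
  let G : ℂ → ℂ := fun z => (‖c‖ ^ 2 : ℝ) * ((1 + conj w * z) / (1 - conj w * z)) +
    2 * conj c * (z * ((1 - ‖w‖ ^ 2 : ℝ) / (1 - conj w * z) ^ 2)) * g z
  have hG : DifferentiableOn ℂ G (V ∩ U w) :=
    ((DifferentiableOn.div (by fun_prop) (by fun_prop) fun _ hz => hz.2).const_mul _).add
      (((differentiableOn_id.mul (DifferentiableOn.div (by fun_prop) (by fun_prop)
        fun _ hz => pow_ne_zero 2 hz.2)).const_mul _).mul (hg.mono inter_subset_left))
  have i1 : CircleIntegrable G 0 1 :=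
    (hG.continuousOn.mono (sphere_subset_closedBall.trans hs')).circleIntegrable zero_le_one
  have m := reCLM.circleAverage_comp_comm i1
  rw [mean hV' hs' hG] at m
  have i2 : CircleIntegrable (fun z => ‖g z‖ ^ 2 * om w z) 0 1 :=
    (((hg.continuousOn.mono (sphere_subset_closedBall.trans hs)).norm.pow 2).mul
      (om_cont hw)).circleIntegrable zero_le_one
  have i3 : CircleIntegrable (reCLM ∘ G) 0 1 := (reCLM.continuous.comp_continuousOn
    (hG.continuousOn.mono (sphere_subset_closedBall.trans hs'))).circleIntegrable zero_le_one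
  rw [circleAverage_congr_sphere (f₂ := reCLM ∘ G + fun z => ‖g z‖ ^ 2 * om w z),
    circleAverage_add i3 i2, m]
  · simp [G, -ofReal_pow]
  · intro z hz
    have hz : ‖z‖ = 1 := by simpa using hz
    simp only [Pi.add_apply, Function.comp, reCLM_apply, G, add_re, re_ofReal_mul]
    rw [← phi_om hw hz, ← om, Complex.sq_norm (c + _), normSq_add, normSq_eq_norm_sq,
      normSq_eq_norm_sq, norm_mul, norm_phi hw hz, one_mul]
    generalize phi w z = a
    simp only [mul_re, mul_im, conj_re, conj_im, ofReal_re, ofReal_im, re_ofNat, im_ofNat]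
    ring

lemma bessel {V : Set ℂ} (hV : IsOpen V) (hs : closedBall 0 1 ⊆ V) (J : ℕ) :
    ∀ {h : ℂ → ℂ}, DifferentiableOn ℂ h V →
      ∑ j ∈ Finset.range J, ‖co h j‖ ^ 2 ≤ circleAverage (fun z => ‖h z‖ ^ 2) 0 1 := by
  induction J with
  | zero => intro h _; simpa using circleAverage_nonneg_of_nonneg fun _ _ => by positivity
  | succ J ih =>
    intro h hh
    have hd := (differentiableOn_dslope (hV.mem_nhds (hs (mem_closedBall_self zero_le_one)))).2 hh
    have e : h = fun z => h 0 + z * dslope h 0 z := by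
      funext z
      have := sub_smul_dslope h 0 z
      rw [sub_zero, smul_eq_mul] at this
      rw [this]; ring
    have r := (rep_co (hd.mono (ball_subset_closedBall.trans hs))).shift (h 0)
    rw [← e] at r
    have s := step (w := 0) (by simp) hV hs hd (h 0)
    simp only [phi, om, map_zero, zero_mul, sub_zero, add_zero, div_one, one_re, mul_one] at s
    rw [Finset.sum_range_succ', r.co_eq 0]
    simp only [r.co_eq]
    conv_rhs => rw [e]
    rw [s, add_comm]
    exact add_le_add le_rfl (ih hd)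

lemma comp_avg {w : ℂ} (hw : ‖w‖ < 1) (M : ℕ) : ∀ q : ℕ → ℂ,
    circleAverage (fun z => ‖∑ j ∈ Finset.range M, q j * phi w z ^ j‖ ^ 2 * om w z) 0 1 =
      ∑ j ∈ Finset.range M, ‖q j‖ ^ 2 := by
  induction M with
  | zero => intro q; simp [circleAverage_const]
  | succ M ih =>
    intro q
    have := step hw (U_open w) (U_sub hw)
      (g := fun z => ∑ j ∈ Finset.range M, q (j + 1) * phi w z ^ j)
      (DifferentiableOn.fun_sum fun j _ => ((phi_diff w).pow j).const_mul _) (q 0)
    rw [ih] at this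
    rw [Finset.sum_range_succ', add_comm _ (‖q 0‖ ^ 2), ← this]
    congr 1
    funext z
    rw [Finset.sum_range_succ', Finset.mul_sum, add_comm]
    simp only [pow_zero, mul_one, pow_succ]
    rw [Finset.sum_congr rfl fun j _ => (by ring :
      q (j + 1) * (phi w z ^ j * phi w z) = phi w z * (q (j + 1) * phi w z ^ j))]

lemma comp_diff (w : ℂ) (Q : ℂ[X]) : DifferentiableOn ℂ (fun z => Q.eval (phi w z)) (U w) :=
  Q.differentiable.comp_differentiableOn (phi_diff w)

theorem comp_bound {w : ℂ} (hw : ‖w‖ < 1) (Q : ℂ[X]) {V : ℝ}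
    (hV : ∀ M, ∑ j ∈ Finset.range M, ‖Q.coeff j‖ ^ 2 ≤ V) (J : ℕ) :
    ∑ j ∈ Finset.range J, ‖co (fun z => Q.eval (phi w z)) j‖ ^ 2 ≤ 4 / (1 - ‖w‖ ^ 2) * V := by
  have p : 0 < 1 - ‖w‖ ^ 2 := by nlinarith [norm_nonneg w]
  refine (bessel (U_open w) (U_sub hw) J (comp_diff w Q)).trans ?_
  have c := ((comp_diff w Q).continuousOn.mono (sphere_subset_closedBall.trans (U_sub hw))).norm.pow 2
  have := comp_avg hw (Q.natDegree + 1) Q.coeff
  simp only [← eval_eq_sum_range] at this
  refine le_trans ?_ (mul_le_mul_of_nonneg_left (hV (Q.natDegree + 1)) (by positivity))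
  rw [← this, ← smul_eq_mul, ← circleAverage_fun_smul]
  refine circleAverage_mono (c.circleIntegrable zero_le_one)
    (((c.mul (om_cont hw)).const_smul (4 / (1 - ‖w‖ ^ 2))).circleIntegrable zero_le_one)
    fun z hz => ?_
  have := om_ge hw (z := z) (by simpa using hz)
  rw [smul_eq_mul, mul_left_comm]
  refine le_mul_of_one_le_right (by positivity) ?_
  rw [div_mul_eq_mul_div, one_le_div p]; linarith

/-- real coefficient -/
noncomputable def al (w : ℂ) : ℝ := (1 + ‖w‖ ^ 2) / (1 - ‖w‖ ^ 2)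

/-- complex coefficient -/
noncomputable def be (w : ℂ) : ℂ := w / (1 - ‖w‖ ^ 2 : ℝ)

theorem co_zd {w : ℂ} (hw : ‖w‖ < 1) (P : ℂ[X]) (c : ℂ) (j : ℕ) :
    co (fun z => (derivative P * (C (be w) + C (al w : ℂ) * X + C (conj (be w)) * X ^ 2)
      - C c * P).eval (phi w z)) j = (j - c) * co (fun z => P.eval (phi w z)) j := by
  have p : ((1 - ‖w‖ ^ 2 : ℝ) : ℂ) ≠ 0 := ofReal_ne_zero.2 (by nlinarith [norm_nonneg w])
  have r := rep_zd ((comp_diff w P).mono (ball_subset_closedBall.trans (U_sub hw))) c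
  refine Rep.co_eq (a := fun j => (j - c) * co (fun z => P.eval (phi w z)) j) (fun z hz => ?_) j
  refine hs_congr (r z hz) (fun _ => rfl) ?_
  have d := den_ne hw hz.le
  have h1 : HasDerivAt (phi w) ((1 * (1 - conj w * z) - (z - w) * (-(conj w * 1))) /
      (1 - conj w * z) ^ 2) z :=
    ((hasDerivAt_id z).sub_const w).div (((hasDerivAt_id z).const_mul _).const_sub 1) d
  have h2 := ((P.hasDerivAt (phi w z)).comp z h1).deriv
  beta_reduce
  rw [show (fun z => P.eval (phi w z)) = (fun x => P.eval x) ∘ phi w from rfl, h2]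
  simp only [eval_sub, eval_mul, eval_add, eval_C, eval_X, eval_pow, Function.comp, al, be,
    map_div₀, conj_ofReal]
  congr 1
  have n : (‖w‖ ^ 2 : ℂ) = w * conj w := by rw [mul_conj, normSq_eq_norm_sq]; push_cast; rfl
  generalize eval (phi w z) (derivative P) = t
  push_cast at p ⊢
  rw [n] at p ⊢
  unfold phi
  field_simp
  ring

end Pool.Agent.H93.Mob1
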