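import Mathlib
import Pool.Agent.H93.Mob1

set_option autoImplicit false

/-! Wave packets and their images under disc automorphisms. -/

namespace Pool.Agent.H93.Mob2

open Set Filter Topology Metric Complex Real Polynomial Pool.Agent.H93.Mob1
open scoped ComplexConjugate

/-- tent -/
noncomputable def kz (D : ℕ) (x : ℤ) : ℝ := ((max 0 (min x (D - x)) : ℤ) : ℝ)

lemma kz_nonneg (D : ℕ) (x : ℤ) : 0 ≤ kz D x := by unfold kz; exact_mod_cast le_max_left _ _
lemma kz_le (D : ℕ) (x : ℤ) : kz D x ≤ D := by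
  unfold kz
  have : max 0 (min x (D - x)) ≤ (D : ℤ) := by omega
  exact_mod_cast this
lemma kz_zero {D : ℕ} {x : ℤ} (h : x ≤ 0 ∨ D ≤ x) : kz D x = 0 := by
  unfold kz
  have : max 0 (min x (D - x)) = 0 := by omega
  rw [this]; simp
lemma kz_lip (D : ℕ) (x : ℤ) : |kz D (x + 1) - kz D x| ≤ 1 := by
  unfold kz
  have : |max 0 (min (x + 1) (D - (x + 1))) - max 0 (min x (D - x))| ≤ (1 : ℤ) := by
    rw [abs_le]; omega
  exact_mod_cast this

/-- wave packet -/
noncomputable def piece (D n : ℕ) (ζ : ℂ) : ℂ[X] :=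
  ∑ i ∈ Finset.range D, monomial (n + i) (kz D i * conj ζ ^ (n + i))

lemma coeff_piece (D n : ℕ) (ζ : ℂ) (j : ℕ) :
    (piece D n ζ).coeff j = kz D (j - n) * conj ζ ^ j := by
  simp only [piece, finsetSum_coeff, coeff_monomial]
  by_cases h : n ≤ j ∧ j < n + D
  · obtain ⟨i, rfl⟩ := Nat.exists_eq_add_of_le h.1
    rw [Finset.sum_eq_single i (fun b _ hb => if_neg (by omega))
      (fun hi => absurd (Finset.mem_range.2 (by omega)) hi)]
    simp
  · rw [Finset.sum_eq_zero fun i hi => if_neg (by have := Finset.mem_range.1 hi; omega),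
      kz_zero (by omega)]
    simp

lemma sum_le_card {f : ℕ → ℝ} {S : Finset ℕ} {b : ℝ} (hb : 0 ≤ b) (h1 : ∀ j ∈ S, f j ≤ b)
    (h2 : ∀ j, j ∉ S → f j = 0) (T : Finset ℕ) : ∑ j ∈ T, f j ≤ S.card * b := by
  classical
  rw [← Finset.sum_filter_add_sum_filter_not T (· ∈ S),
    Finset.sum_eq_zero (s := T.filter (· ∉ S)) fun j hj => h2 j (Finset.mem_filter.1 hj).2,
    add_zero]
  refine (Finset.sum_le_card_nsmul _ _ b fun j hj => h1 j (Finset.mem_filter.1 hj).2).trans ?_
  rw [nsmul_eq_mul]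
  gcongr
  exact fun j hj => (Finset.mem_filter.1 hj).2

lemma al_nonneg {w : ℂ} (hw : ‖w‖ < 1) : 0 ≤ al w :=
  div_nonneg (by positivity) (by nlinarith [norm_nonneg w])

lemma Q_bound {w ζ : ℂ} (hw : ‖w‖ < 1) (hζ : ‖ζ‖ = 1) {D n : ℕ} (hD : 1 ≤ D) (h2 : 2 ≤ n)
    (hn : n ≤ 2 * D ^ 2) (M : ℕ) :
    ∑ j ∈ Finset.range M, ‖(derivative (piece D n ζ) * (C (be w) + C (al w : ℂ) * X +
      C (conj (be w)) * X ^ 2) - C ((n * (al w + 2 * (be w * conj ζ).re) : ℝ) : ℂ) *
      piece D n ζ).coeff j‖ ^ 2 ≤ 2 * (al w + 10 * ‖be w‖) ^ 2 * D ^ 5 := by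
  have ha := al_nonneg hw
  have hD' : (1 : ℝ) ≤ D := by exact_mod_cast hD
  have z1 : ζ * conj ζ = 1 := by rw [mul_conj, normSq_eq_norm_sq, hζ]; simp
  have key : ∀ j : ℕ, (derivative (piece D n ζ) * (C (be w) + C (al w : ℂ) * X +
      C (conj (be w)) * X ^ 2) - C ((n * (al w + 2 * (be w * conj ζ).re) : ℝ) : ℂ) *
      piece D n ζ).coeff j = conj ζ ^ j * (((j - n : ℝ) * kz D (j - n) : ℝ) *
        (al w + be w * conj ζ + conj (be w * conj ζ)) +
        be w * conj ζ * ((j * (kz D (j - n + 1) - kz D (j - n)) + kz D (j - n + 1) : ℝ) : ℂ) -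
        conj (be w * conj ζ) * ((j * (kz D (j - n - 1 + 1) - kz D (j - n - 1)) +
          kz D (j - n - 1) : ℝ) : ℂ)) := by
    intro j
    have e : ((2 * (be w * conj ζ).re : ℝ) : ℂ) = be w * conj ζ + conj (be w * conj ζ) :=
      (add_conj _).symm
    rw [mul_add, mul_add, mul_left_comm, mul_left_comm _ (C _), coeff_sub, coeff_add, coeff_add,
      coeff_mul_C, coeff_C_mul, coeff_C_mul, coeff_C_mul, coeff_derivative, ofReal_mul, ofReal_add, e]
    rcases j with _ | _ | m
    · simp only [coeff_mul_X_zero, coeff_mul_X_pow', coeff_piece]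
      rw [kz_zero (by omega), kz_zero (by omega), kz_zero (by omega), kz_zero (by omega),
        kz_zero (by omega)]
      simp
    · simp only [coeff_mul_X, coeff_mul_X_pow', coeff_piece, coeff_derivative]
      rw [kz_zero (by omega), kz_zero (by omega), kz_zero (by omega), kz_zero (by omega),
        kz_zero (by omega)]
      simp
    · rw [coeff_mul_X, show m + 1 + 1 = m + 2 from rfl, coeff_mul_X_pow]
      simp only [coeff_piece, coeff_derivative, sub_add_cancel]
      rw [show ((m + 2 + 1 : ℕ) : ℤ) - n = (m + 2 : ℕ) - n + 1 by push_cast; ring,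
        show ((m + 1 : ℕ) : ℤ) - n = (m + 2 : ℕ) - n - 1 by push_cast; ring,
        show m + 1 + 1 = m + 2 from rfl]
      generalize kz D (((m + 2 : ℕ) : ℤ) - n + 1) = k1
      generalize kz D (((m + 2 : ℕ) : ℤ) - n - 1) = k2
      generalize kz D (((m + 2 : ℕ) : ℤ) - n) = k0
      simp only [map_mul, conj_conj]
      push_cast
      linear_combination (-(conj (be w)) * k2 * conj ζ ^ (m + 1) * (m + 1)) * z1
  refine (sum_le_card (S := Finset.Icc n (n + D)) (b := ((al w + 10 * ‖be w‖) * D ^ 2) ^ 2)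
    (by positivity) (fun j hj => ?_) (fun j hj => ?_) _).trans ?_
  · rw [key]
    gcongr
    rw [Finset.mem_Icc] at hj
    have j1 : (n : ℝ) ≤ j := by exact_mod_cast hj.1
    have j2 : (j : ℝ) ≤ n + D := by exact_mod_cast hj.2
    have n2 : (n : ℝ) ≤ 2 * D ^ 2 := by exact_mod_cast hn
    have g : ‖be w * conj ζ‖ = ‖be w‖ := by rw [norm_mul, norm_conj, hζ, mul_one]
    have b : ∀ x y : ℤ, |j * (kz D (x + 1) - kz D x) + kz D y| ≤ 4 * D ^ 2 := fun x y => by
      refine (abs_add_le _ _).trans ?_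
      rw [abs_mul, abs_of_nonneg (kz_nonneg _ _), Nat.abs_cast]
      nlinarith [kz_lip D x, kz_le D y, mul_le_mul_of_nonneg_left (kz_lip D x) (Nat.cast_nonneg j)]
    rw [norm_mul, norm_pow, norm_conj, hζ, one_pow, one_mul]
    refine (norm_sub_le _ _).trans ((add_le_add (norm_add_le _ _) le_rfl).trans ?_)
    simp only [norm_mul (be w * conj ζ), norm_mul (conj _), norm_mul ((_ : ℝ) : ℂ), norm_conj, g,
      Complex.norm_real, Real.norm_eq_abs]
    have c1 : |((j : ℝ) - n) * kz D (j - n)| ≤ D ^ 2 := by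
      rw [abs_of_nonneg (mul_nonneg (by linarith) (kz_nonneg _ _)), sq]
      exact mul_le_mul (by linarith) (kz_le _ _) (kz_nonneg _ _) (by linarith)
    have c2 : ‖(al w : ℂ) + be w * conj ζ + conj (be w * conj ζ)‖ ≤ al w + 2 * ‖be w‖ := by
      refine (norm_add₃_le).trans ?_
      rw [norm_conj, g, Complex.norm_real, Real.norm_eq_abs, abs_of_nonneg ha]; linarith
    have c3 := mul_le_mul c1 c2 (norm_nonneg _) (by positivity)
    have c4 := mul_le_mul_of_nonneg_left (b (j - n) (j - n + 1)) (norm_nonneg (be w))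
    have c5 := mul_le_mul_of_nonneg_left (b (j - n - 1) (j - n - 1)) (norm_nonneg (be w))
    linarith
  · rw [Finset.mem_Icc] at hj
    rw [key, kz_zero (by omega), kz_zero (by omega), kz_zero (by omega), kz_zero (by omega)]
    simp
  · rw [Nat.card_Icc, show n + D + 1 - n = D + 1 by omega]
    push_cast
    have : (D + 1 : ℝ) ≤ 2 * D := by linarith
    calc _ ≤ 2 * D * ((al w + 10 * ‖be w‖) * D ^ 2) ^ 2 := by gcongr
      _ = _ := by ring

lemma inv_sq_sum {c R : ℝ} (hR : 1 ≤ R) (J : ℕ) :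
    ∑ j ∈ (Finset.range J).filter (fun j : ℕ => R ≤ |j - c|), 1 / ((j : ℝ) - c) ^ 2 ≤ 18 / R := by
  let G : ℝ → ℝ := fun x => x / (R + |x|)
  have hG : ∀ x, |G x| ≤ 1 := fun x => by
    rw [abs_div, abs_of_pos (by positivity : 0 < R + |x|), div_le_one (by positivity)]; linarith
  have st : ∀ x : ℝ, (if R ≤ |x| then 1 / x ^ 2 else 0) ≤ 9 / R * (G (x + 1) - G x) := by
    intro x
    have R0 : 0 < R := by linarith
    rcases le_total 0 x with h | h
    · have e : G (x + 1) - G x = R / ((R + x) * (R + x + 1)) := by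
        simp only [G]; rw [abs_of_nonneg h, abs_of_nonneg (by linarith)]; field_simp; ring
      rw [e, abs_of_nonneg h]
      split_ifs with k
      · rw [div_mul_div_comm, div_le_div_iff₀ (by nlinarith) (by positivity)]
        nlinarith [mul_le_mul (by linarith : R + x ≤ 3 * x) (by linarith : R + x + 1 ≤ 3 * x)
          (by linarith) (by linarith)]
      · positivity
    · rcases le_total x (-1) with h' | h'
      · have p1 : 0 < R - x := by linarith
        have p2 : 0 < R - x - 1 := by linarith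
        have e : G (x + 1) - G x = R / ((R - x) * (R - x - 1)) := by
          simp only [G]; rw [abs_of_nonpos h, abs_of_nonpos (by linarith)]
          rw [show R + -(x + 1) = R - x - 1 by ring, show R + -x = R - x by ring]
          field_simp; ring
        rw [e, abs_of_nonpos h]
        split_ifs with k
        · rw [div_mul_div_comm, div_le_div_iff₀ (by nlinarith) (by positivity)]
          nlinarith [mul_le_mul (by linarith : R - x ≤ 3 * -x) (by linarith : R - x - 1 ≤ 3 * -x)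
            (by linarith) (by linarith)]
        · positivity
      · rcases h'.eq_or_lt with rfl | h''
        · simp only [G]; norm_num
          split_ifs with k
          · obtain rfl : R = 1 := le_antisymm k hR
            norm_num
          · have : -1 / (R + 1) ≤ 0 := div_nonpos_of_nonpos_of_nonneg (by norm_num) (by linarith)
            nlinarith [div_pos (by norm_num : (0 : ℝ) < 9) R0]
        · rw [if_neg (by rw [abs_of_nonpos h]; linarith)]
          have a : 0 ≤ G (x + 1) := div_nonneg (by linarith) (by positivity)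
          have b : G x ≤ 0 := div_nonpos_of_nonpos_of_nonneg h (by positivity)
          exact mul_nonneg (by positivity) (by linarith)
  rw [Finset.sum_filter]
  refine (Finset.sum_le_sum fun (j : ℕ) _ => st (j - c)).trans ?_
  rw [← Finset.mul_sum]
  have := Finset.sum_range_sub (fun j : ℕ => G (j - c)) J
  simp only [Nat.cast_add, Nat.cast_one, add_sub_right_comm] at this
  rw [this, show 18 / R = 9 / R * 2 by ring]
  gcongr
  linarith [abs_le.1 (hG (J - c)), abs_le.1 (hG ((0 : ℕ) - c))]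

lemma amgm {x l : ℝ} (hl : 0 < l) : x ≤ (l + x ^ 2 / l) / 2 := by
  have : (l + x ^ 2 / l) / 2 - x = (l - x) ^ 2 / (2 * l) := by field_simp; ring
  have h : 0 ≤ (l - x) ^ 2 / (2 * l) := by positivity
  linarith

lemma tail {w ζ : ℂ} (hw : ‖w‖ < 1) (hζ : ‖ζ‖ = 1) {D n : ℕ} (hD : 1 ≤ D) (h2 : 2 ≤ n)
    (hn : n ≤ 2 * D ^ 2) {M : ℝ} (hM : 1 ≤ M) (J : ℕ) :
    ∑ j ∈ (Finset.range J).filter
      (fun j : ℕ => D * M ^ 2 ≤ |j - n * (al w + 2 * (be w * conj ζ).re)|),
      ‖co (fun z => (piece D n ζ).eval (phi w z)) j‖ ≤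
      (9 + 4 / (1 - ‖w‖ ^ 2) * (al w + 10 * ‖be w‖) ^ 2) * (D ^ 2 / M) := by
  have hD' : (1 : ℝ) ≤ D := by exact_mod_cast hD
  have hR : 1 ≤ D * M ^ 2 := by nlinarith
  have a := comp_bound hw _ (Q_bound hw hζ hD h2 hn) J
  simp only [co_zd hw] at a
  set c : ℝ := n * (al w + 2 * (be w * conj ζ).re)
  have b := inv_sq_sum (c := c) hR J
  have a' := (Finset.sum_le_sum_of_subset_of_nonneg (Finset.filter_subset
    (fun j : ℕ => D * M ^ 2 ≤ |j - c|) _) fun _ _ _ => by positivity).trans a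
  have : ∀ j ∈ (Finset.range J).filter (fun j : ℕ => D * M ^ 2 ≤ |j - c|),
      ‖co (fun z => (piece D n ζ).eval (phi w z)) j‖ ≤ D ^ 3 * M / 2 * (1 / ((j : ℝ) - c) ^ 2) +
        1 / (2 * D ^ 3 * M) * ‖(j - c) * co (fun z => (piece D n ζ).eval (phi w z)) j‖ ^ 2 := by
    intro j hj
    have h : 0 < |j - c| := by linarith [(Finset.mem_filter.1 hj).2]
    have h' : (j : ℝ) - c ≠ 0 := abs_pos.1 h
    refine (amgm (l := D ^ 3 * M / (j - c) ^ 2) (by positivity)).trans (le_of_eq ?_)
    rw [norm_mul, show ((j : ℂ) - c) = ((j - c : ℝ) : ℂ) by push_cast; rfl, Complex.norm_real,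
      Real.norm_eq_abs, mul_pow, sq_abs]
    field_simp
  refine (Finset.sum_le_sum this).trans ?_
  rw [Finset.sum_add_distrib, ← Finset.mul_sum, ← Finset.mul_sum]
  refine (add_le_add (mul_le_mul_of_nonneg_left b (by positivity))
    (mul_le_mul_of_nonneg_left a' (by positivity))).trans (le_of_eq ?_)
  field_simp
  ring

lemma co_sum {w : ℂ} (hw : ‖w‖ < 1) (S : Finset ℕ) (P : ℕ → ℂ[X]) (j : ℕ) :
    co (fun z => (∑ a ∈ S, P a).eval (phi w z)) j =
      ∑ a ∈ S, co (fun z => (P a).eval (phi w z)) j := by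
  refine Rep.co_eq (a := fun j => ∑ a ∈ S, co (fun z => (P a).eval (phi w z)) j)
    (fun z hz => hs_congr (hasSum_sum fun a (_ : a ∈ S) => rep_co ((comp_diff w (P a)).mono
      (ball_subset_closedBall.trans (U_sub hw))) z hz) (fun n => Finset.sum_mul ..) ?_) j
  exact eval_finsetSum ..

lemma card_near {G r : ℝ} (hr : 0 ≤ r) (J : ℕ) :
    (((Finset.range J).filter (fun j : ℕ => |j - G| ≤ r)).card : ℝ) ≤ 2 * r + 1 := by
  have : ((Finset.range J).filter (fun j : ℕ => |j - G| ≤ r)).card ≤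
      (Finset.Icc ⌈G - r⌉ ⌊G + r⌋).card := by
    refine Finset.card_le_card_of_injOn (fun j => (j : ℤ)) (fun j hj => ?_)
      (fun _ _ _ _ h => Int.ofNat_inj.1 h)
    have := abs_le.1 (Finset.mem_filter.1 (Finset.mem_coe.1 hj)).2
    simp only [Finset.coe_Icc, mem_Icc, Int.ceil_le, Int.le_floor, Int.cast_natCast]
    constructor <;> linarith [this.1, this.2]
  rw [Int.card_Icc] at this
  refine (Nat.cast_le.2 this).trans ?_
  rcases le_total 0 (⌊G + r⌋ + 1 - ⌈G - r⌉) with h | h
  · have e : (((⌊G + r⌋ + 1 - ⌈G - r⌉).toNat : ℤ) : ℝ) = (⌊G + r⌋ + 1 - ⌈G - r⌉ : ℤ) := by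
      rw [Int.toNat_of_nonneg h]
    rw [Int.cast_natCast] at e
    rw [e]; push_cast
    linarith [Int.floor_le (G + r), Int.le_ceil (G - r)]
  · rw [Int.toNat_of_nonpos h]; push_cast; linarith

end Pool.Agent.H93.Mob2
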