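import Mathlib
import Pool.Agent.H93.Mob2

set_option autoImplicit false

/-! Kakeya compression of wave packets. -/

namespace Pool.Agent.H93.Mob3

open Set Filter Topology Metric Complex Real Polynomial Pool.Agent.H93.Mob1 Pool.Agent.H93.Mob2
open scoped ComplexConjugate

/-- number of packets -/
def AA (M : ℕ) : ℕ := (M ^ 4) ^ (2 * M ^ 3 + 1)
/-- width of packets -/
def DD (M : ℕ) : ℕ := 4 * (AA M ^ 2 * M ^ 2)
/-- grid of slopes -/
noncomputable def sg (M i : ℕ) : ℝ := -M + i / M ^ 2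
/-- digit -/
def dg (B a i : ℕ) : ℕ := B ^ i * (a / B ^ i % B)
/-- position -/
noncomputable def tt (M a : ℕ) : ℝ := ∑ i ∈ Finset.range (2 * M ^ 3 + 1), dg (M ^ 4) a i * sg M i
/-- point of the circle -/
noncomputable def ze (M a : ℕ) : ℂ := conj (exp ((tt M a / DD M : ℝ) * I))
/-- the polynomial -/
noncomputable def FF (M : ℕ) : ℂ[X] :=
  ∑ a ∈ Finset.range (AA M), piece (DD M) (DD M ^ 2 + DD M * a) (ze M a)

lemma sum_dg (B a m : ℕ) : ∑ i ∈ Finset.range m, dg B a i = a % B ^ m := by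
  induction m with
  | zero => simp [Nat.mod_one]
  | succ m ih => rw [Finset.sum_range_succ, ih, Nat.mod_pow_succ, dg]

lemma norm_ze (M a : ℕ) : ‖ze M a‖ = 1 := by rw [ze, norm_conj, norm_exp_ofReal_mul_I]

lemma AA_pos {M : ℕ} (h : 1 ≤ M) : 1 ≤ AA M := Nat.one_le_pow _ _ (Nat.pow_pos h)
lemma AA_le {M : ℕ} (h : 1 ≤ M) : 4 * AA M ≤ DD M := by
  have := AA_pos h
  unfold DD
  nlinarith [Nat.one_le_pow 2 M h, Nat.mul_le_mul this (Nat.one_le_pow 2 M h)]

lemma coeff_in {M a i : ℕ} (ha : a < AA M) (hi : i < DD M) :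
    ‖(FF M).coeff (DD M ^ 2 + (DD M * a + i))‖ = kz (DD M) i := by
  rw [FF, finsetSum_coeff, Finset.sum_eq_single a (fun b _ hb => ?_)
    (fun h => absurd (Finset.mem_range.2 ha) h), coeff_piece, norm_mul, norm_pow, norm_conj,
    norm_ze, one_pow, mul_one, Complex.norm_real, Real.norm_eq_abs, abs_of_nonneg (kz_nonneg _ _)]
  · congr 1; push_cast; ring
  · rw [coeff_piece, kz_zero, ofReal_zero, zero_mul]
    rcases lt_or_gt_of_ne hb with h | h
    · right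
      have := Nat.mul_le_mul_left (DD M) (Nat.succ_le_of_lt h)
      rw [Nat.mul_succ] at this
      omega
    · left
      have := Nat.mul_le_mul_left (DD M) (Nat.succ_le_of_lt h)
      rw [Nat.mul_succ] at this
      omega

lemma coeff_out {M j : ℕ} (hj : j ∉ Finset.Ico (DD M ^ 2) (DD M ^ 2 + DD M * AA M)) :
    (FF M).coeff j = 0 := by
  rw [FF, finsetSum_coeff]
  refine Finset.sum_eq_zero fun a ha => ?_
  rw [coeff_piece, kz_zero, ofReal_zero, zero_mul]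
  have := Nat.mul_le_mul_left (DD M) (Nat.succ_le_of_lt (Finset.mem_range.1 ha))
  rw [Nat.mul_succ] at this
  rw [Finset.mem_Ico] at hj
  omega

lemma coeff_le {M j : ℕ} (hj : j ∈ Finset.Ico (DD M ^ 2) (DD M ^ 2 + DD M * AA M)) :
    ‖(FF M).coeff j‖ ≤ DD M := by
  rw [Finset.mem_Ico] at hj
  obtain ⟨m, rfl⟩ := Nat.exists_eq_add_of_le hj.1
  have h : m < DD M * AA M := by omega
  have hD : 0 < DD M := Nat.pos_of_mul_pos_right (Nat.zero_lt_of_lt h)
  rw [← Nat.div_add_mod m (DD M), coeff_in (Nat.div_lt_of_lt_mul h) (Nat.mod_lt _ hD)]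
  exact kz_le _ _

lemma low_F (M : ℕ) : (AA M : ℝ) * DD M ^ 2 / 8 ≤
    ∑ j ∈ Finset.Ico (DD M ^ 2) (DD M ^ 2 + DD M * AA M), ‖(FF M).coeff j‖ := by
  have k : (DD M : ℝ) ^ 2 / 8 ≤ ∑ i ∈ Finset.range (DD M), kz (DD M) i := by
    unfold DD
    generalize AA M ^ 2 * M ^ 2 = d
    refine le_trans ?_ (Finset.sum_le_sum_of_subset_of_nonneg (s := Finset.Ico d (3 * d))
      (fun i hi => by rw [Finset.mem_Ico] at hi; rw [Finset.mem_range]; omega)
      fun _ _ _ => kz_nonneg _ _)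
    refine le_trans ?_ (Finset.card_nsmul_le_sum _ _ (d : ℝ) fun i hi => ?_)
    · rw [Nat.card_Ico, show 3 * d - d = 2 * d by omega, nsmul_eq_mul]; push_cast; nlinarith
    · rw [Finset.mem_Ico] at hi
      unfold kz
      have : (d : ℤ) ≤ max 0 (min (i : ℤ) ((4 * d : ℕ) - i)) := by omega
      exact_mod_cast this
  rw [Finset.sum_Ico_eq_sum_range, Nat.add_sub_cancel_left]
  have : ∀ m ≤ AA M, (m : ℝ) * DD M ^ 2 / 8 ≤
      ∑ j ∈ Finset.range (DD M * m), ‖(FF M).coeff (DD M ^ 2 + j)‖ := by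
    intro m hm
    induction m with
    | zero => simp
    | succ m ih =>
      rw [Nat.mul_succ, Finset.sum_range_add,
        Finset.sum_congr rfl fun i hi => coeff_in hm (Finset.mem_range.1 hi)]
      push_cast
      linarith [ih (by omega)]
  exact this _ le_rfl

lemma centre {β : ℂ} {α : ℝ} {M a : ℕ} (hM : 1 ≤ M) (ha : a < AA M) :
    |((DD M ^ 2 + DD M * a : ℕ) : ℝ) * (α + 2 * (β * conj (ze M a)).re) -
      (DD M ^ 2 * (α + 2 * β.re) + DD M * ∑ i ∈ Finset.range (2 * M ^ 3 + 1),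
        dg (M ^ 4) a i * (α + 2 * β.re - 2 * β.im * sg M i))| ≤ 2 * ‖β‖ * DD M := by
  have M1 : (1 : ℝ) ≤ M := by exact_mod_cast hM
  have A1 : (1 : ℝ) ≤ AA M := by exact_mod_cast AA_pos hM
  have aA : (a : ℝ) ≤ AA M := by exact_mod_cast ha.le
  have hD : (DD M : ℝ) = 4 * (AA M ^ 2 * M ^ 2) := by simp [DD]
  have sa : ∑ i ∈ Finset.range (2 * M ^ 3 + 1), (dg (M ^ 4) a i : ℝ) = a := by
    rw [← Nat.cast_sum, sum_dg, ← AA, Nat.mod_eq_of_lt ha]
  have ht : |tt M a| ≤ AA M * M := by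
    refine (Finset.abs_sum_le_sum_abs _ _).trans ((Finset.sum_le_sum
      (g := fun i => (dg (M ^ 4) a i : ℝ) * M) fun i hi => ?_).trans ?_)
    · rw [abs_mul, Nat.abs_cast]
      gcongr
      have : (i : ℝ) ≤ 2 * M ^ 3 := by exact_mod_cast Nat.lt_succ_iff.1 (Finset.mem_range.1 hi)
      have h2 : (i : ℝ) / M ^ 2 ≤ 2 * M := by rw [div_le_iff₀ (by positivity)]; linarith
      have h3 : 0 ≤ (i : ℝ) / M ^ 2 := by positivity
      rw [sg, abs_le]; constructor <;> linarith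
    · rw [← Finset.sum_mul, sa]; gcongr
  have e : ∑ i ∈ Finset.range (2 * M ^ 3 + 1),
      dg (M ^ 4) a i * (α + 2 * β.re - 2 * β.im * sg M i) =
      a * (α + 2 * β.re) - 2 * β.im * tt M a := by
    rw [← sa, tt, Finset.sum_mul, Finset.mul_sum, ← Finset.sum_sub_distrib]
    exact Finset.sum_congr rfl fun i _ => by ring
  set u : ℝ := AA M * M with hu
  have u1 : 1 ≤ u := by nlinarith
  have hDu : (DD M : ℝ) = 4 * u ^ 2 := by rw [hD, hu]; ring
  have D0 : (0 : ℝ) < DD M := by rw [hDu]; positivity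
  set φ : ℝ := tt M a / DD M with hφ
  have φ1 : |φ| ≤ u / DD M := by rw [hφ, abs_div, abs_of_pos D0]; gcongr
  have φ2 : u / DD M ≤ 1 := by rw [div_le_one D0]; nlinarith
  have r := Complex.norm_exp_sub_one_sub_id_le (x := φ * I) (by
    rw [norm_mul, norm_I, mul_one, Complex.norm_real]; exact φ1.trans φ2)
  rw [norm_mul, norm_I, mul_one, Complex.norm_real, Real.norm_eq_abs] at r
  set ρ := exp (φ * I) - 1 - φ * I
  have e2 : (β * conj (ze M a)).re = β.re - β.im * φ + (β * ρ).re := by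
    rw [ze, conj_conj, ← hφ, show exp (φ * I) = 1 + φ * I + ρ by simp [ρ]]
    simp [mul_add]; ring
  have r2 : |(β * ρ).re| ≤ ‖β‖ * (u / DD M) ^ 2 := by
    refine (abs_re_le_norm _).trans ?_
    rw [norm_mul]
    gcongr
    exact r.trans (by gcongr)
  have tφ : tt M a = φ * DD M := by rw [hφ]; field_simp
  rw [e, e2, tφ]
  push_cast
  have : ((DD M : ℝ) ^ 2 + DD M * a) * (α + 2 * (β.re - β.im * φ + (β * ρ).re)) -
      (DD M ^ 2 * (α + 2 * β.re) + DD M * (a * (α + 2 * β.re) - 2 * β.im * (φ * DD M))) =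
      2 * DD M * ((DD M + a) * (β * ρ).re - a * (β.im * φ)) := by ring
  rw [this, abs_mul, abs_of_pos (by positivity), mul_right_comm 2 ‖β‖]
  refine mul_le_mul_of_nonneg_left ?_ (by positivity)
  have au : (a : ℝ) ≤ u := by nlinarith
  have b1 : |(DD M + a) * (β * ρ).re| ≤ 2 * DD M * (‖β‖ * (u / DD M) ^ 2) := by
    rw [abs_mul, abs_of_nonneg (by positivity)]
    gcongr; nlinarith
  have b2 : |a * (β.im * φ)| ≤ u * (‖β‖ * (u / DD M)) := by
    rw [abs_mul, abs_mul, Nat.abs_cast]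
    gcongr
    exact abs_im_le_norm _
  refine (abs_sub _ _).trans ((add_le_add b1 b2).trans ?_)
  rw [hDu]
  have : 2 * (4 * u ^ 2) * (‖β‖ * (u / (4 * u ^ 2)) ^ 2) + u * (‖β‖ * (u / (4 * u ^ 2))) =
      3 / 4 * ‖β‖ := by field_simp; ring
  linarith [norm_nonneg β]

lemma compress {ρ τ : ℝ} {M : ℕ} (hM : 1 ≤ M) (hτ : τ ≠ 0) (h : |ρ / τ| ≤ M) :
    ∃ m l : ℕ, (M ^ 4) ^ (m + 1) * (M ^ 4) ^ l = AA M ∧ ∃ y : ℕ → ℝ, ∀ a,
      |∑ i ∈ Finset.range (2 * M ^ 3 + 1), dg (M ^ 4) a i * (ρ - τ * sg M i) -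
        y (a / (M ^ 4) ^ (m + 1))| ≤ ((M : ℝ) ^ 4) ^ (m + 1) / M ^ 2 * (|ρ| + 2 * |τ|) := by
  have M1 : (1 : ℝ) ≤ M := by exact_mod_cast hM
  obtain ⟨h1, h2⟩ := abs_le.1 h
  set m := ⌊(ρ / τ + M) * M ^ 2⌋₊ with hm
  have m1 : (m : ℝ) ≤ (ρ / τ + M) * M ^ 2 := Nat.floor_le (mul_nonneg (by linarith) (by positivity))
  have m2 : (ρ / τ + M) * M ^ 2 < m + 1 := Nat.lt_floor_add_one _
  have m3 : m ≤ 2 * M ^ 3 := by
    have : (m : ℝ) ≤ 2 * M ^ 3 := by nlinarith [sq_nonneg (M : ℝ)]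
    exact_mod_cast this
  obtain ⟨l, hl⟩ := Nat.exists_eq_add_of_le m3
  have hl' : 2 * M ^ 3 + 1 = m + 1 + l := by omega
  refine ⟨m, l, by rw [← pow_add, AA, hl'], fun h => ∑ i ∈ Finset.range l,
    ((M ^ 4) ^ (m + 1) * dg (M ^ 4) h i : ℕ) * (ρ - τ * sg M (m + 1 + i)), fun a => ?_⟩
  have hd : ∀ i, dg (M ^ 4) a (m + 1 + i) =
      (M ^ 4) ^ (m + 1) * dg (M ^ 4) (a / (M ^ 4) ^ (m + 1)) i := fun i => by
    rw [dg, dg, Nat.div_div_eq_div_mul, ← pow_add, ← mul_assoc, ← pow_add]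
  rw [hl', Finset.sum_range_add]
  simp only [hd, add_sub_cancel_right]
  rw [Finset.sum_range_succ]
  have B0 : 0 < M ^ 4 := Nat.pow_pos hM
  have a1 : |∑ i ∈ Finset.range m, dg (M ^ 4) a i * (ρ - τ * sg M i)| ≤
      ((M : ℝ) ^ 4) ^ m * ((|ρ| + |τ|) * M) := by
    refine (Finset.abs_sum_le_sum_abs _ _).trans ((Finset.sum_le_sum
      (g := fun i => (dg (M ^ 4) a i : ℝ) * ((|ρ| + |τ|) * M)) fun i hi => ?_).trans ?_)
    · rw [abs_mul, Nat.abs_cast]
      gcongr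
      have : (i : ℝ) ≤ 2 * M ^ 3 := by exact_mod_cast (Finset.mem_range.1 hi).le.trans m3
      have h2 : (i : ℝ) / M ^ 2 ≤ 2 * M := by rw [div_le_iff₀ (by positivity)]; linarith
      have h3 : 0 ≤ (i : ℝ) / M ^ 2 := by positivity
      have h4 : |sg M i| ≤ M := by rw [sg, abs_le]; constructor <;> linarith
      refine (abs_sub _ _).trans ?_
      rw [abs_mul]
      nlinarith [abs_nonneg ρ, mul_le_mul_of_nonneg_left h4 (abs_nonneg τ)]
    · rw [← Finset.sum_mul, ← Nat.cast_sum, sum_dg]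
      gcongr
      exact_mod_cast (Nat.mod_lt _ (Nat.pow_pos B0)).le
  have a2 : |dg (M ^ 4) a m * (ρ - τ * sg M m)| ≤ ((M : ℝ) ^ 4) ^ (m + 1) * (|τ| / M ^ 2) := by
    rw [abs_mul, Nat.abs_cast]
    gcongr
    · have : dg (M ^ 4) a m ≤ (M ^ 4) ^ (m + 1) := by
        rw [dg, pow_succ]; exact Nat.mul_le_mul_left _ (Nat.mod_lt _ B0).le
      exact_mod_cast this
    · have : ρ - τ * sg M m = τ * (((ρ / τ + M) * M ^ 2 - m) / M ^ 2) := by
        rw [sg]; field_simp; ring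
      rw [this, abs_mul, div_eq_mul_one_div |τ|, abs_div, abs_of_pos (by positivity : (0 : ℝ) < M ^ 2)]
      gcongr
      rw [abs_le]; constructor <;> linarith
  refine (abs_add_le _ _).trans ((add_le_add a1 a2).trans ?_)
  have : ((M : ℝ) ^ 4) ^ (m + 1) / M ^ 2 * (|ρ| + 2 * |τ|) - ((M : ℝ) ^ 4) ^ (m + 1) * (|τ| / M ^ 2)
      = ((M : ℝ) ^ 4) ^ m * ((|ρ| + |τ|) * M ^ 2) := by field_simp; ring
  have h5 : ((M : ℝ) ^ 4) ^ m * ((|ρ| + |τ|) * M) ≤ ((M : ℝ) ^ 4) ^ m * ((|ρ| + |τ|) * M ^ 2) := by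
    gcongr; nlinarith
  linarith

theorem level {w : ℂ} (hw : ‖w‖ < 1) (hi : w.im ≠ 0) : ∃ K x : ℝ, ∀ M : ℕ, 1 ≤ M → x ≤ M → ∀ J,
    ∑ j ∈ Finset.range J, ‖co (fun z => (FF M).eval (phi w z)) j‖ ≤ K * (AA M * DD M ^ 2 / M) := by
  classical
  have p : 0 < 1 - ‖w‖ ^ 2 := by nlinarith [norm_nonneg w]
  have hτ : 2 * (be w).im ≠ 0 := by
    rw [be, div_ofReal_im]; exact mul_ne_zero two_ne_zero (div_ne_zero hi p.ne')
  set ρ := al w + 2 * (be w).re with hρ
  set τ := 2 * (be w).im with hτ'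
  set K2 := 1 + 2 * ‖be w‖ + (|ρ| + 2 * |τ|) with hK2
  refine ⟨(2 * K2 + 1 + 4 / (1 - ‖w‖ ^ 2)) / 2 +
    (9 + 4 / (1 - ‖w‖ ^ 2) * (al w + 10 * ‖be w‖) ^ 2), |ρ / τ|, fun M hM hx J => ?_⟩
  obtain ⟨m, l, hA, y, hy⟩ := compress hM hτ hx
  have M1 : (1 : ℝ) ≤ M := by exact_mod_cast hM
  have A1 := AA_pos hM
  have A4 := AA_le hM
  have D1 : (1 : ℝ) ≤ DD M := by exact_mod_cast (by omega : 1 ≤ DD M)
  set u : ℝ := ((M : ℝ) ^ 4) ^ (m + 1) / M ^ 2 with hu
  have u1 : (M : ℝ) ^ 2 ≤ u := by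
    rw [hu, le_div_iff₀ (by positivity), pow_succ' _ m]
    nlinarith [one_le_pow₀ (n := m) (one_le_pow₀ (n := 4) M1), pow_pos (by linarith : (0 : ℝ) < M) 4]
  have u2 : 1 ≤ u := le_trans (by nlinarith) u1
  let E := (Finset.range ((M ^ 4) ^ l)).biUnion fun h => (Finset.range J).filter
    fun j : ℕ => |j - (DD M ^ 2 * ρ + DD M * y h)| ≤ K2 * (DD M * u)
  have K0 : 0 ≤ K2 := by positivity
  have cE : (E.card : ℝ) ≤ (2 * K2 + 1) * (DD M * AA M / M ^ 2) := by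
    refine (Nat.cast_le.2 Finset.card_biUnion_le).trans ?_
    push_cast
    refine (Finset.sum_le_card_nsmul _ _ ((2 * K2 + 1) * (DD M * u)) fun h _ =>
      (card_near (by positivity) J).trans (by nlinarith)).trans (le_of_eq ?_)
    rw [Finset.card_range, nsmul_eq_mul, ← hA, hu]; push_cast; ring
  have l2 := comp_bound hw (FF M) (V := DD M * AA M * DD M ^ 2) (fun N => by
    refine (sum_le_card (S := Finset.Ico (DD M ^ 2) (DD M ^ 2 + DD M * AA M)) (b := DD M ^ 2)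
      (by positivity) (fun j hj => by gcongr; exact coeff_le hj)
      (fun j hj => by rw [coeff_out hj]; simp) _).trans (le_of_eq ?_)
    rw [Nat.card_Ico, Nat.add_sub_cancel_left]; push_cast; rfl) J
  rw [← Finset.sum_filter_add_sum_filter_not _ (· ∈ E), add_mul]
  refine add_le_add ?_ ?_
  · refine (Finset.sum_le_sum fun j _ => amgm (l := DD M * M) (by positivity)).trans ?_
    rw [← Finset.sum_div, Finset.sum_add_distrib, ← Finset.sum_div, Finset.sum_const, nsmul_eq_mul]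
    have c1 : (((Finset.range J).filter (· ∈ E)).card : ℝ) ≤ E.card :=
      Nat.cast_le.2 (Finset.card_le_card fun j hj => (Finset.mem_filter.1 hj).2)
    have c2 := (Finset.sum_le_sum_of_subset_of_nonneg (Finset.filter_subset (· ∈ E) _)
      fun _ _ _ => by positivity).trans l2
    calc _ ≤ ((2 * K2 + 1) * (DD M * AA M / M ^ 2) * (DD M * M) +
          4 / (1 - ‖w‖ ^ 2) * (DD M * AA M * DD M ^ 2) / (DD M * M)) / 2 := by
          gcongr; exact c1.trans cE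
      _ = _ := by field_simp
  · simp only [FF, co_sum hw]
    refine (Finset.sum_le_sum fun j _ => norm_sum_le _ _).trans ?_
    rw [Finset.sum_comm]
    refine (Finset.sum_le_card_nsmul _ _ _ fun a ha => le_trans ?_ (tail hw (norm_ze M a)
      (D := DD M) (n := DD M ^ 2 + DD M * a) (by omega) (by nlinarith) (by
        have := Finset.mem_range.1 ha
        nlinarith) M1 J)).trans (le_of_eq ?_)
    · refine Finset.sum_le_sum_of_subset_of_nonneg (fun j hj => ?_) fun _ _ _ => by positivity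
      rw [Finset.mem_filter] at hj ⊢
      refine ⟨hj.1, not_lt.1 fun hc => hj.2 ?_⟩
      have ha' := Finset.mem_range.1 ha
      refine Finset.mem_biUnion.2 ⟨a / (M ^ 4) ^ (m + 1), Finset.mem_range.2
        (Nat.div_lt_of_lt_mul (hA ▸ ha')), Finset.mem_filter.2 ⟨hj.1, ?_⟩⟩
      have c1 := centre (β := be w) (α := al w) hM ha'
      have c2 := mul_le_mul_of_nonneg_left (hy a) (by linarith : (0 : ℝ) ≤ DD M)
      rw [← abs_of_nonneg (by linarith : (0 : ℝ) ≤ DD M), ← abs_mul, Nat.abs_cast] at c2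
      rw [← hρ, ← hτ'] at c1
      have c3 : 2 * ‖be w‖ * DD M ≤ 2 * ‖be w‖ * (DD M * u) := by gcongr; nlinarith
      have c4 : (DD M : ℝ) * M ^ 2 ≤ DD M * u := by gcongr
      rw [abs_le] at c1 c2 ⊢
      rw [abs_lt] at hc
      rw [hK2]
      constructor <;> nlinarith [c1.1, c1.2, c2.1, c2.2, hc.1, hc.2]
    · rw [Finset.card_range, nsmul_eq_mul]; ring

end Pool.Agent.H93.Mob3
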