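import Mathlib
import Pool.Agent.H93.Mob3

set_option autoImplicit false

/-! The function whose Taylor series converges absolutely exactly after non-real shifts. -/

namespace Pool.Agent.H93.Mob4

open Set Filter Topology Metric Complex Real Polynomial Pool.Agent.H93.Mob1 Pool.Agent.H93.Mob2
  Pool.Agent.H93.Mob3
open scoped ComplexConjugate

lemma rep_tsum {g : ℕ → ℂ → ℂ} {a : ℕ → ℕ → ℂ} (h : ∀ k, Rep (g k) (a k))
    (hs : ∀ r : ℝ, 0 ≤ r → r < 1 → Summable fun p : ℕ × ℕ => ‖a p.1 p.2‖ * r ^ p.2) :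
    Rep (fun z => ∑' k, g k z) (fun j => ∑' k, a k j) := by
  intro z hz
  have s : Summable fun p : ℕ × ℕ => a p.1 p.2 * z ^ p.2 :=
    Summable.of_norm (by simpa using hs ‖z‖ (norm_nonneg _) hz)
  obtain ⟨S, hS⟩ := s
  have h1 : HasSum (fun k => g k z) S :=
    HasSum.prod_fiberwise (f := fun p : ℕ × ℕ => a p.1 p.2 * z ^ p.2) hS fun k => h k z hz
  have h2 : HasSum (fun p : ℕ × ℕ => a p.2 p.1 * z ^ p.1) S :=
    (Equiv.prodComm ℕ ℕ).hasSum_iff.2 hS
  beta_reduce
  rw [h1.tsum_eq]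
  refine HasSum.prod_fiberwise (f := fun p : ℕ × ℕ => a p.2 p.1 * z ^ p.1) h2 fun j => ?_
  have : Summable fun k => a k j := by
    have h3 : Summable fun k => ‖a k j‖ * (1 / 2) ^ j :=
      (hs (1 / 2) (by norm_num) (by norm_num)).prod_symm.prod_factor j
    refine Summable.of_norm ((h3.mul_right (2 ^ j)).congr fun k => ?_)
    rw [mul_assoc, ← mul_pow]; norm_num
  exact this.hasSum.mul_right (z ^ j)

lemma Rep.smul {g : ℂ → ℂ} {a : ℕ → ℂ} (h : Rep g a) (c : ℂ) :
    Rep (fun z => c * g z) (fun j => c * a j) := fun z hz =>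
  hs_congr ((h z hz).mul_left c) (fun _ => mul_assoc ..) rfl

lemma rep_poly (P : ℂ[X]) : Rep (fun z => P.eval z) P.coeff := fun z _ => by
  simp only [eval_eq_sum_range]
  exact hasSum_sum_of_ne_finset_zero fun j hj => by
    rw [coeff_eq_zero_of_natDegree_lt (by simpa using hj), zero_mul]

lemma summ_co {w : ℂ} (hw : ‖w‖ < 1) (P : ℂ[X]) :
    Summable fun j => ‖co (fun z => P.eval (phi w z)) j‖ := by
  have n := norm_nonneg w
  have := hasSum_taylorSeries_on_ball (c := 0) (r := 2 / (1 + ‖w‖)) (z := 1)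
    ((comp_diff w P).mono fun z hz h => by
      have e : ‖conj w * z‖ = 1 := by rw [← sub_eq_zero.1 h, norm_one]
      rw [norm_mul, norm_conj] at e
      rw [mem_ball_zero_iff, lt_div_iff₀ (by positivity)] at hz
      nlinarith [norm_nonneg z])
    (by rw [mem_ball_zero_iff, norm_one, lt_div_iff₀ (by positivity)]; linarith)
  refine this.summable.norm.congr fun j => ?_
  simp [co, div_eq_inv_mul]

/-- normalising factor -/
noncomputable def ga (k : ℕ) : ℝ := 1 / (AA (2 ^ k) * DD (2 ^ k) ^ 2)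

/-- the function -/
noncomputable def ff (z : ℂ) : ℂ := ∑' k, ga k * (FF (2 ^ k)).eval z

lemma pos (k : ℕ) : 0 < AA (2 ^ k) ∧ 0 < DD (2 ^ k) := by
  have := AA_pos (Nat.one_le_two_pow (n := k))
  have := AA_le (Nat.one_le_two_pow (n := k))
  omega

lemma ga_pos (k : ℕ) : 0 < ga k := by
  have := pos k
  have := this.1
  have := (pos k).2
  unfold ga; positivity

lemma le_DD (k : ℕ) : k ≤ DD (2 ^ k) ^ 2 := by
  have h1 := (pos k).1
  have h2 : k < 2 ^ k := Nat.lt_two_pow_self
  have : 2 ^ k ≤ DD (2 ^ k) := by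
    unfold DD
    nlinarith [Nat.one_le_pow 2 _ h1, Nat.mul_le_mul (Nat.one_le_pow 2 _ h1) (le_refl ((2 ^ k) ^ 2))]
  nlinarith

lemma DD_mono {k l : ℕ} (h : k < l) : DD (2 ^ k) ^ 2 + DD (2 ^ k) * AA (2 ^ k) ≤ DD (2 ^ l) ^ 2 := by
  have h1 : 2 * 2 ^ k ≤ 2 ^ l := by rw [← pow_succ']; exact Nat.pow_le_pow_right two_pos h
  have h0 : 1 ≤ 2 ^ k := Nat.one_le_two_pow
  have h2 : AA (2 ^ k) ≤ AA (2 ^ l) := by
    unfold AA
    gcongr
    · exact Nat.one_le_pow _ _ (by omega)
    all_goals omega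
  have h3 : 4 * DD (2 ^ k) ≤ DD (2 ^ l) := by
    unfold DD
    calc _ = 4 * (AA (2 ^ k) ^ 2 * (2 * 2 ^ k) ^ 2) := by ring
      _ ≤ _ := by gcongr
  have := AA_le h0
  nlinarith

lemma rep_ff : Rep ff fun j => ∑' k, ga k * (FF (2 ^ k)).coeff j := by
  refine rep_tsum (fun k => Rep.smul (rep_poly _) _) fun r r0 r1 => ?_
  have b : ∀ k (T : Finset ℕ), ∑ j ∈ T, ‖ga k * (FF (2 ^ k)).coeff j‖ * r ^ j ≤ r ^ k := by
    intro k T
    have g := ga_pos k
    refine (sum_le_card (S := Finset.Ico (DD (2 ^ k) ^ 2) (DD (2 ^ k) ^ 2 + DD (2 ^ k) * AA (2 ^ k)))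
      (b := ga k * DD (2 ^ k) * r ^ k) (by positivity) (fun j hj => ?_)
      (fun j hj => by rw [coeff_out hj]; simp) T).trans (le_of_eq ?_)
    · rw [norm_mul, Complex.norm_real, Real.norm_eq_abs, abs_of_pos g]
      exact mul_le_mul (mul_le_mul_of_nonneg_left (coeff_le hj) g.le) (pow_le_pow_of_le_one r0 r1.le
        ((le_DD k).trans (Finset.mem_Ico.1 hj).1)) (by positivity) (by positivity)
    · have := (pos k).1
      have := (pos k).2
      rw [Nat.card_Ico, Nat.add_sub_cancel_left, ga]; push_cast; field_simp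
  have s : ∀ k, Summable fun j => ‖ga k * (FF (2 ^ k)).coeff j‖ * r ^ j := fun k =>
    summable_of_sum_le (fun _ => by positivity) (b k)
  refine (summable_prod_of_nonneg fun _ => by positivity).2 ⟨s, ?_⟩
  exact Summable.of_nonneg_of_le (fun k => tsum_nonneg fun _ => by positivity)
    (fun k => (s k).tsum_le_of_sum_le (b k)) (summable_geometric_of_lt_one r0 r1)

theorem not_summ : ¬ Summable fun j => ‖co ff j‖ := by
  intro h
  obtain ⟨s, hs⟩ := summable_iff_vanishing_norm.1 h (1 / 8) (by norm_num)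
  set k := s.sup id + 1
  have := hs (Finset.Ico (DD (2 ^ k) ^ 2) (DD (2 ^ k) ^ 2 + DD (2 ^ k) * AA (2 ^ k)))
    (Finset.disjoint_left.2 fun j hj hj' => by
      have a : j ≤ s.sup id := Finset.le_sup (f := id) hj'
      have := (le_DD k).trans (Finset.mem_Ico.1 hj).1
      omega)
  refine absurd (lt_of_le_of_lt (le_abs_self _) this) (not_lt.2 ?_)
  rw [Finset.sum_congr rfl (g := fun j => ga k * ‖(FF (2 ^ k)).coeff j‖) fun j hj => by
    rw [rep_ff.co_eq, tsum_eq_single k fun l hl => ?_, norm_mul, Complex.norm_real,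
      Real.norm_eq_abs, abs_of_pos (ga_pos k)]
    rw [coeff_out, mul_zero]
    rw [Finset.mem_Ico] at hj ⊢
    rcases lt_or_gt_of_ne hl with c | c <;> have := DD_mono c <;> omega]
  rw [← Finset.mul_sum]
  refine le_trans (le_of_eq ?_) (mul_le_mul_of_nonneg_left (low_F _) (ga_pos k).le)
  have := (pos k).1
  have := (pos k).2
  rw [ga]; field_simp

theorem summ {w : ℂ} (hw : ‖w‖ < 1) (hi : w.im ≠ 0) :
    Summable fun j => ‖co (fun z => ff (phi w z)) j‖ := by
  obtain ⟨K, x, hK⟩ := level hw hi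
  have s : ∀ k, Summable fun j => ‖ga k * co (fun z => (FF (2 ^ k)).eval (phi w z)) j‖ := fun k =>
    by simpa only [norm_mul] using (summ_co hw _).mul_left _
  have S : Summable fun p : ℕ × ℕ =>
      ‖ga p.1 * co (fun z => (FF (2 ^ p.1)).eval (phi w z)) p.2‖ := by
    refine (summable_prod_of_nonneg fun _ => by positivity).2 ⟨s, ?_⟩
    refine Summable.of_norm_bounded_eventually_nat
      ((summable_geometric_of_lt_one (r := 1 / 2) (by norm_num) (by norm_num)).mul_left K) ?_
    filter_upwards [(tendsto_pow_atTop_atTop_of_one_lt (one_lt_two (α := ℝ))).eventually_ge_atTop x]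
      with k hk
    rw [Real.norm_of_nonneg (tsum_nonneg fun _ => by positivity)]
    refine (s k).tsum_le_of_sum_range_le fun J => ?_
    simp only [norm_mul, Complex.norm_real, Real.norm_eq_abs, abs_of_pos (ga_pos k)]
    rw [← Finset.mul_sum]
    refine (mul_le_mul_of_nonneg_left (hK (2 ^ k) Nat.one_le_two_pow (by exact_mod_cast hk) J)
      (ga_pos k).le).trans (le_of_eq ?_)
    have := (pos k).1
    have := (pos k).2
    rw [ga, one_div_pow]; push_cast; field_simp
  have r := rep_tsum (fun k => Rep.smul (rep_co ((comp_diff w (FF (2 ^ k))).mono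
    (ball_subset_closedBall.trans (U_sub hw)))) (ga k)) fun r r0 r1 =>
      Summable.of_nonneg_of_le (fun _ => by positivity) (fun p => mul_le_of_le_one_right
        (norm_nonneg _) (pow_le_one₀ r0 r1.le)) S
  have e : ∀ j, co (fun z => ff (phi w z)) j = _ := r.co_eq
  simp only [e]
  exact Summable.of_nonneg_of_le (fun _ => norm_nonneg _)
    (fun j => norm_tsum_le_tsum_norm (S.prod_symm.prod_factor j)) S.prod_symm.prod

end Pool.Agent.H93.Mob4
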