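import Mathlib

open Filter Topology Set MeasureTheory Metric
open scoped ComplexConjugate InnerProductSpace

namespace H93.Nh

/-- a point outside a closed subspace is seen by a functional vanishing on the subspace -/
theorem sep {X : Type*} [NormedAddCommGroup X] [NormedSpace ℂ X] (S : Submodule ℂ X)
    (hS : IsClosed (S : Set X)) {x : X} (hx : x ∉ S) :
    ∃ f : StrongDual ℂ X, (∀ s ∈ S, f s = 0) ∧ f x ≠ 0 := by
  have := hS
  have h0 : S.mkQ x ≠ 0 := by
    simpa [Submodule.Quotient.mk_eq_zero] using hx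
  obtain ⟨g, -, hg⟩ := exists_dual_vector ℂ (S.mkQ x) (norm_ne_zero_iff.2 h0)
  refine ⟨g.comp (S.mkQL), fun s hs => ?_, ?_⟩
  · have : S.mkQ s = 0 := by simpa [Submodule.Quotient.mk_eq_zero] using hs
    show g (S.mkQ s) = 0
    rw [this, map_zero]
  · show g (S.mkQ x) ≠ 0
    rw [hg]
    exact RCLike.ofReal_ne_zero.2 (norm_ne_zero_iff.2 h0)

/-- reflexivity, pointwise form -/
def Refl (X : Type*) [NormedAddCommGroup X] [NormedSpace ℂ X] : Prop :=
  ∀ φ : StrongDual ℂ (StrongDual ℂ X), ∃ x : X, ∀ g : StrongDual ℂ X, φ g = g x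

theorem Refl.sub {X : Type*} [NormedAddCommGroup X] [NormedSpace ℂ X] (h : Refl X)
    (S : Submodule ℂ X) (hS : IsClosed (S : Set X)) : Refl S := by
  intro φ
  let r : StrongDual ℂ X →L[ℂ] StrongDual ℂ S :=
    (ContinuousLinearMap.compL ℂ S X ℂ).flip S.subtypeL
  have hr : ∀ g : StrongDual ℂ X, ∀ s : S, r g s = g s := fun g s => rfl
  obtain ⟨x, hx⟩ := h (φ.comp r)
  have hxS : x ∈ S := by
    by_contra hn
    obtain ⟨f, hf, hfx⟩ := sep S hS hn
    have : r f = 0 := by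
      ext s
      rw [hr]; exact hf s s.2
    have h2 := hx f
    rw [ContinuousLinearMap.comp_apply, this, map_zero] at h2
    exact hfx h2.symm
  refine ⟨⟨x, hxS⟩, fun g => ?_⟩
  obtain ⟨f, hf, -⟩ := exists_extension_norm_eq S g
  have : r f = g := by
    ext s
    rw [hr, hf]
  have h2 := hx f
  rw [ContinuousLinearMap.comp_apply, this] at h2
  rw [h2, ← hf ⟨x, hxS⟩]

theorem Refl.cluster {X : Type*} [NormedAddCommGroup X] [NormedSpace ℂ X] (h : Refl X)
    (y : ℕ → X) (R : ℝ) (hy : ∀ k, ‖y k‖ ≤ R) (U : Ultrafilter ℕ) :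
    ∃ z : X, ∀ g : StrongDual ℂ X, Tendsto (fun k => g (y k)) U (𝓝 (g z)) := by
  let v : ℕ → WeakDual ℂ (StrongDual ℂ X) := fun k =>
    StrongDual.toWeakDual (NormedSpace.inclusionInDoubleDual ℂ X (y k))
  have hc := WeakDual.isCompact_closedBall (𝕜 := ℂ) (0 : StrongDual ℂ (StrongDual ℂ X)) R
  have hle : (U.map v : Filter _) ≤ 𝓟 (WeakDual.toStrongDual ⁻¹' closedBall
      (0 : StrongDual ℂ (StrongDual ℂ X)) R) := by
    rw [le_principal_iff, Ultrafilter.coe_map, mem_map]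
    refine Eventually.of_forall fun k => ?_
    show NormedSpace.inclusionInDoubleDual ℂ X (y k) ∈ closedBall 0 R
    exact (mem_closedBall_zero_iff (E := StrongDual ℂ (StrongDual ℂ X))).2
      ((NormedSpace.double_dual_bound ℂ X (y k)).trans (hy k))
  obtain ⟨φ, -, hφ⟩ := hc.ultrafilter_le_nhds (U.map v) hle
  obtain ⟨z, hz⟩ := h (WeakDual.toStrongDual φ)
  refine ⟨z, fun g => ?_⟩
  have h1 : Tendsto v U (𝓝 φ) := hφ
  have h2 := ((WeakDual.eval_continuous g).tendsto φ).comp h1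
  have h3 : φ g = g z := hz g
  rw [h3] at h2
  exact h2

/-- limits of empirical measures -/
theorem emp {Z : Type*} [TopologicalSpace Z] [T2Space Z] [CompactSpace Z] [MeasurableSpace Z]
    [BorelSpace Z] (N : ℕ → ℕ) (p : ℕ → ℕ → Z) (U : Ultrafilter ℕ) :
    ∃ (μs : ℕ → ProbabilityMeasure Z) (μ : ProbabilityMeasure Z), Tendsto μs U (𝓝 μ) ∧
      (∀ k, ∀ φ : Z → ℂ, ∫ z, φ z ∂(μs k : Measure Z) =
        (∑ j ∈ Finset.range (N k + 1), φ (p k j)) / ((N k : ℂ) + 1)) ∧
      (∀ k, ∀ φ : Z → ℝ, ∫ z, φ z ∂(μs k : Measure Z) =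
        (∑ j ∈ Finset.range (N k + 1), φ (p k j)) / ((N k : ℝ) + 1)) ∧
      (∀ k, ∀ F : Set Z, (∀ j ≤ N k, p k j ∈ F) → (μs k : Measure Z) F = 1) := by
  let m : ℕ → Measure Z := fun k =>
    ((N k : ENNReal) + 1)⁻¹ • ∑ j ∈ Finset.range (N k + 1), Measure.dirac (p k j)
  have hF : ∀ k, ∀ F : Set Z, (∀ j ≤ N k, p k j ∈ F) → m k F = 1 := by
    intro k F hj
    have : ∀ j ∈ Finset.range (N k + 1), Measure.dirac (p k j) F = 1 := fun j hj' =>
      Measure.dirac_apply_of_mem (hj j (Nat.lt_succ_iff.1 (Finset.mem_range.1 hj')))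
    simp only [m, Measure.smul_apply, Measure.coe_finsetSum, Finset.sum_apply, smul_eq_mul]
    rw [Finset.sum_congr rfl this]
    simp only [Finset.sum_const, Finset.card_range, nsmul_eq_mul, mul_one, Nat.cast_add,
      Nat.cast_one]
    exact ENNReal.inv_mul_cancel (by simp) (by simp)
  have hp : ∀ k, IsProbabilityMeasure (m k) := fun k => ⟨hF k univ fun _ _ => mem_univ _⟩
  let μs : ℕ → ProbabilityMeasure Z := fun k => ⟨m k, hp k⟩
  obtain ⟨μ, -, hμ⟩ := isCompact_univ.ultrafilter_le_nhds (U.map μs) (by simp)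
  have ht : ∀ k, (((N k : ENNReal) + 1)⁻¹).toReal = ((N k : ℝ) + 1)⁻¹ := by
    intro k
    rw [ENNReal.toReal_inv, ENNReal.toReal_add (by simp) (by simp)]
    simp
  refine ⟨μs, μ, hμ, fun k φ => ?_, fun k φ => ?_, hF⟩
  · show ∫ z, φ z ∂(m k) = _
    simp only [m]
    rw [integral_smul_measure, integral_finsetSum_measure (fun j _ => integrable_dirac (by simp)),
      ht]
    simp only [integral_dirac]
    rw [Complex.real_smul, div_eq_inv_mul]
    push_cast
    rfl
  · show ∫ z, φ z ∂(m k) = _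
    simp only [m]
    rw [integral_smul_measure, integral_finsetSum_measure (fun j _ => integrable_dirac (by simp)),
      ht]
    simp only [integral_dirac]
    rw [smul_eq_mul, div_eq_inv_mul]

theorem tele {𝕜 : Type*} [RCLike 𝕜] (N : ℕ → ℕ) (hN : Tendsto N atTop atTop) (u : ℕ → ℕ → 𝕜)
    (B : ℝ) (hu : ∀ k j, ‖u k j‖ ≤ B) :
    Tendsto (fun k => (∑ j ∈ Finset.range (N k + 1), u k (j + 1)) / ((N k : 𝕜) + 1) -
      (∑ j ∈ Finset.range (N k + 1), u k j) / ((N k : 𝕜) + 1)) atTop (𝓝 0) := by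
  have h1 : Tendsto (fun k => (2 * B) / ((N k : ℝ) + 1)) atTop (𝓝 0) :=
    tendsto_const_nhds.div_atTop
      (tendsto_atTop_add_const_right _ 1 (tendsto_natCast_atTop_atTop.comp hN))
  refine squeeze_zero_norm (fun k => ?_) h1
  rw [← sub_div, ← Finset.sum_sub_distrib, Finset.sum_range_sub (u k), norm_div]
  have : ‖((N k : 𝕜) + 1)‖ = (N k : ℝ) + 1 := by
    have : ((N k : 𝕜) + 1) = ((N k + 1 : ℕ) : 𝕜) := by push_cast; rfl
    rw [this, RCLike.norm_natCast]; push_cast; rfl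
  rw [this]
  refine div_le_div_of_nonneg_right ?_ (by positivity)
  have := norm_sub_le (u k (N k + 1)) (u k 0)
  linarith [hu k (N k + 1), hu k 0]

universe u

/-- the mean-square Hilbert space of an orbit of functionals -/
theorem form {E : Type u} [NormedAddCommGroup E] [NormedSpace ℂ E] (S : E →L[ℂ] E)
    (x : ℕ → StrongDual ℂ E) (R : ℝ) (hx : ∀ n, ‖x n‖ ≤ R) (hS : ∀ n a, x (n + 1) a = x n (S a))
    (U : Ultrafilter ℕ) (hU : (U : Filter ℕ) ≤ atTop) :
    ∃ (H : Type u) (_ : NormedAddCommGroup H) (_ : InnerProductSpace ℂ H) (J : E →L[ℂ] H),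
      (∀ a b, Tendsto (fun N => (∑ n ∈ Finset.range (N + 1), x n b * conj (x n a)) /
        ((N : ℂ) + 1)) U (𝓝 ⟪J a, J b⟫_ℂ)) ∧
      (∀ a b, ⟪J (S a), J (S b)⟫_ℂ = ⟪J a, J b⟫_ℂ) ∧
      (∀ (g : ℕ → E) (B : ℝ), (∀ k, ‖g k‖ ≤ B) →
        (∀ φ : StrongDual ℂ E, Tendsto (fun k => φ (g k)) atTop (𝓝 0)) →
        Tendsto (fun k => J (g k)) atTop (𝓝 0)) := by
  have hR : 0 ≤ R := (norm_nonneg _).trans (hx 0)
  let Z : Set (WeakDual ℂ E) := WeakDual.toStrongDual ⁻¹' closedBall (0 : StrongDual ℂ E) R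
  have : CompactSpace Z := isCompact_iff_compactSpace.1 (WeakDual.isCompact_closedBall _ _)
  let : MeasurableSpace Z := borel Z
  have : BorelSpace Z := ⟨rfl⟩
  have hb : ∀ (w : Z) (a : E), ‖(w : WeakDual ℂ E) a‖ ≤ R * ‖a‖ := by
    intro w a
    have h1 : ‖WeakDual.toStrongDual (w : WeakDual ℂ E)‖ ≤ R := mem_closedBall_zero_iff.1 w.2
    exact ((WeakDual.toStrongDual (w : WeakDual ℂ E)).le_opNorm a).trans
      (mul_le_mul_of_nonneg_right h1 (norm_nonneg _))
  let p : ℕ → Z := fun n => ⟨StrongDual.toWeakDual (x n), mem_closedBall_zero_iff.2 (hx n)⟩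
  obtain ⟨μs, μ, hμ, hC, -, -⟩ := emp (fun k => k) (fun _ j => p j) U
  let ev0 : E →ₗ[ℂ] C(Z, ℂ) :=
    { toFun := fun a => ⟨fun w => (w : WeakDual ℂ E) a,
        (WeakDual.eval_continuous a).comp continuous_subtype_val⟩
      map_add' := fun a b => by ext w; simp
      map_smul' := fun c a => by ext w; simp }
  let ev : E →L[ℂ] C(Z, ℂ) := ev0.mkContinuous R fun a =>
    (ContinuousMap.norm_le _ (by positivity)).2 fun w => hb w a
  have hev : ∀ a (w : Z), ev a w = (w : WeakDual ℂ E) a := fun a w => rfl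
  let J : E →L[ℂ] Lp ℂ 2 (μ : Measure Z) := (ContinuousMap.toLp 2 (μ : Measure Z) ℂ).comp ev
  have hJ : ∀ a b, ⟪J a, J b⟫_ℂ = ∫ w, ev b w * conj (ev a w) ∂(μ : Measure Z) := fun a b =>
    ContinuousMap.inner_toLp _ _ _
  have h1 : ∀ a b, Tendsto (fun N => (∑ n ∈ Finset.range (N + 1), x n b * conj (x n a)) /
        ((N : ℂ) + 1)) U (𝓝 ⟪J a, J b⟫_ℂ) := by
    intro a b
    have := (ProbabilityMeasure.tendsto_iff_forall_integral_rclike_tendsto ℂ).1 hμ
      (BoundedContinuousFunction.mkOfCompact ⟨fun w => ev b w * conj (ev a w), by fun_prop⟩)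
    rw [hJ]
    refine this.congr fun N => ?_
    rw [hC]
    rfl
  refine ⟨_, inferInstance, inferInstance, J, h1, fun a b => ?_, fun g B hg hw => ?_⟩
  · have h2 := (tele (𝕜 := ℂ) (fun k => k) tendsto_id (fun _ n => x n b * conj (x n a))
      ((R * ‖b‖) * (R * ‖a‖)) (fun _ n => by
        rw [norm_mul, RCLike.norm_conj]
        exact mul_le_mul (hb (p n) b) (hb (p n) a) (norm_nonneg _) (by positivity))).mono_left hU
    have h3 := (h1 (S a) (S b)).sub (h1 a b)
    simp only [← hS] at h3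
    exact sub_eq_zero.1 (tendsto_nhds_unique h3 h2)
  · have hB : 0 ≤ B := (norm_nonneg _).trans (hg 0)
    have h2 : Tendsto (fun k => ∫ w, ev (g k) w * conj (ev (g k) w) ∂(μ : Measure Z)) atTop
        (𝓝 (∫ _w, (0 : ℂ) ∂(μ : Measure Z))) := by
      refine tendsto_integral_of_dominated_convergence (fun _ => (R * B) * (R * B))
        (fun k => Continuous.aestronglyMeasurable (by fun_prop)) (integrable_const _)
        (fun k => Eventually.of_forall fun w => ?_) (Eventually.of_forall fun w => ?_)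
      · rw [norm_mul, RCLike.norm_conj, hev]
        have := (hb w (g k)).trans (mul_le_mul_of_nonneg_left (hg k) hR)
        exact mul_le_mul this this (norm_nonneg _) (by positivity)
      · have h3 : Tendsto (fun k => ev (g k) w) atTop (𝓝 0) :=
          hw (WeakDual.toStrongDual (w : WeakDual ℂ E))
        have h4 := h3.mul ((Complex.continuous_conj.tendsto 0).comp h3)
        simpa using h4
    simp only [← hJ, integral_zero] at h2
    rw [tendsto_zero_iff_norm_tendsto_zero]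
    have h3 := (Real.continuous_sqrt.tendsto _).comp h2.norm
    simp only [norm_zero, Real.sqrt_zero] at h3
    refine h3.congr fun k => ?_
    simp [inner_self_eq_norm_sq_to_K]

end H93.Nh
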