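import Pool.Agent.H93.Nh1

open Filter Topology Set MeasureTheory Metric
open scoped ComplexConjugate InnerProductSpace

namespace H93.Nh

/-- a compact operator whose powers grow geometrically on a vector has a nonzero eigenvalue -/
theorem eig_of_growth {Y : Type*} [NormedAddCommGroup Y] [NormedSpace ℂ Y] [CompleteSpace Y]
    (Q : Y →L[ℂ] Y) (hQ : IsCompactOperator Q) (r c : ℝ) (hr : 0 < r) (hc : 0 < c)
    (hg : ∀ k : ℕ, c * r ^ k ≤ ‖Q ^ k‖) :
    ∃ μ : ℂ, μ ≠ 0 ∧ Module.End.HasEigenvalue (Q : Module.End ℂ Y) μ := by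
  by_contra hn
  push Not at hn
  have hs : spectralRadius ℂ Q = 0 := by
    unfold spectralRadius
    simp only [ENNReal.iSup_eq_zero]
    intro μ hμ
    by_contra h0
    have hμ0 : μ ≠ 0 := by
      rintro rfl
      simp at h0
    exact hn μ hμ0 ((hQ.hasEigenvalue_iff_mem_spectrum hμ0).2 hμ)
  have h1 := spectrum.pow_norm_pow_one_div_tendsto_nhds_spectralRadius Q
  rw [hs] at h1
  have h2 : ∀ᶠ k : ℕ in atTop, ENNReal.ofReal (‖Q ^ k‖ ^ (1 / (k : ℝ))) < ENNReal.ofReal (r / 2) :=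
    h1.eventually (gt_mem_nhds (by simpa using hr))
  have h3 : ∀ᶠ k : ℕ in atTop, (1 / 2 : ℝ) ^ k < c :=
    (tendsto_pow_atTop_nhds_zero_of_lt_one (by norm_num) (by norm_num)).eventually (gt_mem_nhds hc)
  obtain ⟨k, hk2, hk3, hk0⟩ := (h2.and (h3.and (eventually_gt_atTop 0))).exists
  rw [ENNReal.ofReal_lt_ofReal_iff (by positivity)] at hk2
  have h4 : ‖Q ^ k‖ ≤ (r / 2) ^ k := by
    have := pow_le_pow_left₀ (by positivity) hk2.le k
    rwa [one_div, Real.rpow_inv_natCast_pow (norm_nonneg _) hk0.ne'] at this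
  have h5 : (r / 2) ^ k = (1 / 2) ^ k * r ^ k := by rw [← mul_pow]; congr 1; ring
  have h6 := mul_lt_mul_of_pos_right hk3 (pow_pos hr k)
  linarith [hg k]

theorem eig_of_comm {Y : Type*} [NormedAddCommGroup Y] [NormedSpace ℂ Y] [CompleteSpace Y]
    (Q W : Y →L[ℂ] Y) (hQ : IsCompactOperator Q) (hc : ∀ z, W (Q z) = Q (W z)) (μ : ℂ) (hμ : μ ≠ 0)
    (he : Module.End.HasEigenvalue (Q : Module.End ℂ Y) μ) :
    ∃ (l : ℂ) (w : Y), w ≠ 0 ∧ W w = l • w := by
  set V := Module.End.eigenspace (Q : Module.End ℂ Y) μ with hV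
  have hm : ∀ v, v ∈ V ↔ Q v = μ • v := fun v => Module.End.mem_eigenspace_iff
  have hcl : IsClosed (V : Set Y) := by
    have : (V : Set Y) = {v | Q v = μ • v} := by ext v; exact hm v
    rw [this]
    exact isClosed_eq Q.continuous (by fun_prop)
  have hinv : ∀ v ∈ V, (Q : Module.End ℂ Y) v ∈ V := by
    intro v hv
    have := (hm v).1 hv
    show Q v ∈ V
    rw [this]; exact V.smul_mem _ hv
  have h1 := IsCompactOperator.restrict (f := (Q : Module.End ℂ Y)) hQ hinv hcl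
  have h2 : IsCompactOperator (id : V → V) := by
    have h3 := h1.smul μ⁻¹
    have h4 : (id : V → V) = μ⁻¹ • ⇑(LinearMap.restrict (Q : Module.End ℂ Y) hinv) := by
      funext v
      apply Subtype.ext
      have := (hm v).1 v.2
      show (v : Y) = μ⁻¹ • Q v
      rw [this, smul_smul, inv_mul_cancel₀ hμ, one_smul]
    rw [h4]
    exact h3
  have := FiniteDimensional.of_isCompactOperator_id (𝕜 := ℂ) h2
  have hW : ∀ v ∈ V, (W : Module.End ℂ Y) v ∈ V := by
    intro v hv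
    rw [hm]
    show Q (W v) = μ • W v
    rw [← hc, (hm v).1 hv, map_smul]
  have : Nontrivial V := Submodule.nontrivial_iff_ne_bot.2 he
  obtain ⟨l, hl⟩ := Module.End.exists_eigenvalue ((W : Module.End ℂ Y).restrict hW)
  obtain ⟨w, hw⟩ := hl.exists_hasEigenvector
  refine ⟨l, w, fun h => hw.2 (Subtype.ext h), ?_⟩
  have := congrArg Subtype.val hw.apply_eq_smul
  exact this

theorem avg_sq (u : ℕ → ℂ) (N : ℕ) :
    ‖(∑ n ∈ Finset.range (N + 1), u n * conj (u n)) / ((N : ℂ) + 1)‖ =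
      (∑ n ∈ Finset.range (N + 1), ‖u n‖ ^ 2) / ((N : ℝ) + 1) := by
  have : (∑ n ∈ Finset.range (N + 1), u n * conj (u n)) / ((N : ℂ) + 1) =
      (((∑ n ∈ Finset.range (N + 1), ‖u n‖ ^ 2) / ((N : ℝ) + 1) : ℝ) : ℂ) := by
    push_cast
    simp only [Complex.mul_conj']
  rw [this, Complex.norm_real, Real.norm_of_nonneg (by positivity)]

/-- power bounded operators on reflexive spaces with a non-null numerical orbit have eigenvalues -/
theorem jdlg {Y : Type*} [NormedAddCommGroup Y] [NormedSpace ℂ Y] [CompleteSpace Y]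
    [TopologicalSpace.SeparableSpace Y] (hY : Refl Y) (W : Y →L[ℂ] Y) (K : ℝ)
    (hK : ∀ n z, ‖(W ^ n) z‖ ≤ K * ‖z‖) (y : Y) (f : StrongDual ℂ Y) (η : ℝ) (hη : 0 < η)
    (hf : ∃ᶠ N : ℕ in atTop, η * ((N : ℝ) + 1) ≤ ∑ n ∈ Finset.range (N + 1), ‖f ((W ^ n) y)‖ ^ 2) :
    ∃ (l : ℂ) (w : Y), w ≠ 0 ∧ W w = l • w := by
  have hne := frequently_iff_neBot.1 hf
  let U : Ultrafilter ℕ := Ultrafilter.of (atTop ⊓ 𝓟 {N : ℕ | η * ((N : ℝ) + 1) ≤
    ∑ n ∈ Finset.range (N + 1), ‖f ((W ^ n) y)‖ ^ 2})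
  have hU : (U : Filter ℕ) ≤ atTop := (Ultrafilter.of_le _).trans inf_le_left
  have hU2 : ∀ᶠ N : ℕ in U, η * ((N : ℝ) + 1) ≤ ∑ n ∈ Finset.range (N + 1), ‖f ((W ^ n) y)‖ ^ 2 :=
    le_principal_iff.1 ((Ultrafilter.of_le _).trans inf_le_right)
  let K' := max K 0
  have hK' : ∀ n z, ‖(W ^ n) z‖ ≤ K' * ‖z‖ := fun n z =>
    (hK n z).trans (mul_le_mul_of_nonneg_right (le_max_left _ _) (norm_nonneg _))
  have hK0 : 0 ≤ K' := le_max_right _ _
  let Ws : StrongDual ℂ Y →L[ℂ] StrongDual ℂ Y := (ContinuousLinearMap.compL ℂ Y Y ℂ).flip W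
  have hWs : ∀ g z, Ws g z = g (W z) := fun g z => rfl
  obtain ⟨H1, _, _, J, hJ1, hJ2, hJ3⟩ := form Ws
    (fun n => NormedSpace.inclusionInDoubleDual ℂ Y ((W ^ n) y)) (K' * ‖y‖)
    (fun n => (NormedSpace.double_dual_bound ℂ Y _).trans (hK' n y))
    (fun n a => by
      show a ((W ^ (n + 1)) y) = a (W ((W ^ n) y))
      rw [pow_succ']; rfl) U hU
  let fm : ℕ → StrongDual ℂ Y := fun m => f.comp (W ^ m)
  have hfm : ∀ m, ‖fm m‖ ≤ ‖f‖ * K' := fun m =>
    ContinuousLinearMap.opNorm_le_bound _ (by positivity) fun z =>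
      (f.le_opNorm _).trans (by
        rw [mul_assoc]; exact mul_le_mul_of_nonneg_left (hK' m z) (norm_nonneg _))
  obtain ⟨H2, _, _, I, hI1, hI2, -⟩ := form W fm (‖f‖ * K') hfm
    (fun n a => by
      show f ((W ^ (n + 1)) a) = f ((W ^ n) (W a))
      rw [pow_succ]; rfl) U hU
  have hsurj : Function.Surjective (NormedSpace.inclusionInDoubleDualLi (E := Y) ℂ) := by
    intro φ
    obtain ⟨x, hx⟩ := hY φ
    exact ⟨x, by ext g; exact (hx g).symm⟩
  let e := LinearIsometryEquiv.ofSurjective _ hsurj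
  have he : ∀ (φ : StrongDual ℂ (StrongDual ℂ Y)) (g : StrongDual ℂ Y), g (e.symm φ) = φ g := by
    intro φ g
    have := e.apply_symm_apply φ
    conv_rhs => rw [← this]
    rfl
  let Jd : H1 →L⋆[ℂ] Y := (e.symm.toContinuousLinearEquiv.toContinuousLinearMap).comp
    (((ContinuousLinearMap.compL ℂ (StrongDual ℂ Y) H1 ℂ).flip J).comp (innerSL ℂ))
  have hJd : ∀ ξ (g : StrongDual ℂ Y), g (Jd ξ) = ⟪ξ, J g⟫_ℂ := fun ξ g => he _ g
  let Id : H2 →L⋆[ℂ] StrongDual ℂ Y :=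
    ((ContinuousLinearMap.compL ℂ Y H2 ℂ).flip I).comp (innerSL ℂ)
  have hId : ∀ ξ z, Id ξ z = ⟪ξ, I z⟫_ℂ := fun ξ z => rfl
  let Q : Y →L[ℂ] Y := (Jd.comp J).comp (Id.comp I)
  have hQa : ∀ z, Q z = Jd (J (Id (I z))) := fun z => rfl
  -- compactness of J
  have hJc : IsCompactOperator J := by
    rw [← ContinuousLinearMap.coe_coe,
      isCompactOperator_iff_image_closedBall_subset_compact _ one_pos]
    refine ⟨J '' closedBall 0 1, IsSeqCompact.isCompact ?_, subset_rfl⟩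
    intro s hs
    choose h hh hs' using hs
    obtain ⟨a, ha, φ, hφ, hlim⟩ := WeakDual.isSeqCompact_closedBall ℂ Y (0 : StrongDual ℂ Y) 1
      (x := fun k => StrongDual.toWeakDual (h k)) hh
    refine ⟨J (WeakDual.toStrongDual a), ⟨_, ha, rfl⟩, φ, hφ, ?_⟩
    have h1 := hJ3 (fun k => h (φ k) - WeakDual.toStrongDual a) 2 (fun k => by
      have := norm_sub_le (h (φ k)) (WeakDual.toStrongDual a)
      have h2 : ‖h (φ k)‖ ≤ 1 := mem_closedBall_zero_iff.1 (hh (φ k))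
      have h3 : ‖WeakDual.toStrongDual a‖ ≤ 1 := mem_closedBall_zero_iff.1 ha
      linarith) (fun ψ => by
      obtain ⟨x, hx⟩ := hY ψ
      simp only [hx]
      have h2 := ((WeakDual.eval_continuous x).tendsto a).comp hlim
      have h3 := h2.sub_const (a x)
      rw [sub_self] at h3
      exact h3)
    have h2 := h1.add_const (J (WeakDual.toStrongDual a))
    rw [zero_add] at h2
    refine h2.congr fun k => ?_
    simp [hs']
  have hQc : IsCompactOperator Q := (hJc.clm_comp Jd).comp_clm (Id.comp I)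
  have ext : ∀ a b : Y, (∀ g : StrongDual ℂ Y, g a = g b) → a = b := fun a b h =>
    (SeparatingDual.eq_iff_forall_dual_eq (R := ℂ)).2 h
  have hcomm : ∀ z, W (Q z) = Q (W z) := by
    intro z
    have h1 : Id (I z) = Ws (Id (I (W z))) := by
      ext w
      rw [hWs, hId, hId, hI2]
    refine ext _ _ fun g => ?_
    rw [← hWs, hQa, hQa, hJd, hJd, h1, hJ2]
  -- the orbit of f has constant positive norm
  have hfs : ∀ m, fm (m + 1) = Ws (fm m) := by
    intro m; ext z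
    show f ((W ^ (m + 1)) z) = f ((W ^ m) (W z))
    rw [pow_succ]; rfl
  have hn0 : η ≤ ‖J (fm 0)‖ ^ 2 := by
    have h1 := (hJ1 (fm 0) (fm 0)).norm
    rw [inner_self_eq_norm_sq_to_K, norm_pow, RCLike.norm_ofReal, abs_norm] at h1
    refine ge_of_tendsto h1 (hU2.mono fun N hN => ?_)
    rw [avg_sq, le_div_iff₀ (by positivity)]
    exact hN
  have hnm : ∀ m, ‖J (fm m)‖ = ‖J (fm 0)‖ := by
    intro m
    induction m with
    | zero => rfl
    | succ m ih =>
      rw [hfs, ← ih, norm_eq_sqrt_re_inner (𝕜 := ℂ), hJ2, ← norm_eq_sqrt_re_inner (𝕜 := ℂ)]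
  set s := ‖J (fm 0)‖ with hs
  have hs0 : 0 < s := by
    have : 0 ≤ s := norm_nonneg _
    by_contra h
    have : s = 0 := le_antisymm (not_lt.1 h) this
    rw [this] at hn0; linarith
  have hex : ∃ ξ, I (Jd ξ) ≠ 0 := by
    by_contra hz
    push Not at hz
    obtain ⟨C, hC, hCs⟩ := IsCompactOperator.image_closedBall_subset_compact
      (f := (J : StrongDual ℂ Y →ₗ[ℂ] H1)) hJc (‖f‖ * K')
    obtain ⟨t, htf, ht⟩ := Metric.totallyBounded_iff.1 hC.totallyBounded (s / 2) (by positivity)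
    have h1 : Tendsto (fun N : ℕ => ∑ ξ ∈ htf.toFinset,
        (∑ n ∈ Finset.range (N + 1), ‖fm n (Jd ξ)‖ ^ 2) / ((N : ℝ) + 1)) U
        (𝓝 (∑ ξ ∈ htf.toFinset, (0 : ℝ))) := by
      refine tendsto_finsetSum _ fun ξ _ => ?_
      have h2 := (hI1 (Jd ξ) (Jd ξ)).norm
      rw [hz, inner_zero_left, norm_zero] at h2
      exact h2.congr fun N => avg_sq _ N
    have h2 : ∀ n, (s ^ 2 / 2) ^ 2 ≤ ∑ ξ ∈ htf.toFinset, ‖fm n (Jd ξ)‖ ^ 2 := by
      intro n
      obtain ⟨ξ, hξ, hd⟩ := mem_iUnion₂.1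
        (ht (hCs ⟨fm n, mem_closedBall_zero_iff.2 (hfm n), rfl⟩))
      refine le_trans ?_ (Finset.single_le_sum (f := fun ξ => ‖fm n (Jd ξ)‖ ^ 2)
        (fun _ _ => by positivity) (htf.mem_toFinset.2 hξ))
      refine pow_le_pow_left₀ (by positivity) ?_ 2
      rw [hJd]
      have hd' : ‖J (fm n) - ξ‖ < s / 2 := by rw [← dist_eq_norm]; exact hd
      have h3 : ⟪J (fm n), J (fm n)⟫_ℂ = ⟪ξ, J (fm n)⟫_ℂ + ⟪J (fm n) - ξ, J (fm n)⟫_ℂ := by
        rw [inner_sub_left]; ring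
      have h4 : ‖⟪J (fm n), J (fm n)⟫_ℂ‖ = s ^ 2 := by
        rw [inner_self_eq_norm_sq_to_K, norm_pow, RCLike.norm_ofReal, abs_norm, hnm]
      have h5 := norm_inner_le_norm (𝕜 := ℂ) (J (fm n) - ξ) (J (fm n))
      rw [hnm] at h5
      have h6 := norm_add_le ⟪ξ, J (fm n)⟫_ℂ ⟪J (fm n) - ξ, J (fm n)⟫_ℂ
      rw [← h3, h4] at h6
      nlinarith
    have h3 := ge_of_tendsto' h1 (b := (s ^ 2 / 2) ^ 2) fun N => by
      rw [← Finset.sum_div, Finset.sum_comm, le_div_iff₀ (by positivity)]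
      have := Finset.sum_le_sum (s := Finset.range (N + 1)) fun n _ => h2 n
      simp only [Finset.sum_const, Finset.card_range, nsmul_eq_mul, Nat.cast_add,
        Nat.cast_one] at this
      linarith
    simp only [Finset.sum_const_zero] at h3
    have : 0 < (s ^ 2 / 2) ^ 2 := by positivity
    linarith
  obtain ⟨ξ, hξ⟩ := hex
  set z := Jd ξ with hz
  have hform : ∀ a b, ⟪I a, I (Q b)⟫_ℂ = ⟪J (Id (I b)), J (Id (I a))⟫_ℂ := fun a b => by
    rw [← hId, hQa, hJd]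
  have hsym : ∀ a b, ⟪I (Q a), I b⟫_ℂ = ⟪I a, I (Q b)⟫_ℂ := fun a b => by
    rw [← inner_conj_symm, hform, inner_conj_symm, hform]
  let nk : ℕ → ℝ := fun k => ‖I ((Q ^ k) z)‖
  have hn0' : 0 < nk 0 := by simpa [nk] using hξ
  have hn1 : 0 < nk 1 := by
    have : I (Q z) ≠ 0 := by
      intro h
      have h1 := hform z z
      rw [h, inner_zero_right] at h1
      have h2 : J (Id (I z)) = 0 := inner_self_eq_zero.1 h1.symm
      have h3 := hJd ξ (Id (I z))
      rw [h2, inner_zero_right, hId] at h3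
      exact hξ (inner_self_eq_zero.1 h3)
    simpa [nk] using this
  have hlc : ∀ k, nk (k + 1) ^ 2 ≤ nk k * nk (k + 2) := by
    intro k
    have e1 : (Q ^ (k + 1)) z = Q ((Q ^ k) z) := by rw [pow_succ']; rfl
    have e2 : (Q ^ (k + 2)) z = Q (Q ((Q ^ k) z)) := by rw [pow_succ', pow_succ']; rfl
    have h1 := hsym ((Q ^ k) z) (Q ((Q ^ k) z))
    have h2 := norm_inner_le_norm (𝕜 := ℂ) (I ((Q ^ k) z)) (I (Q (Q ((Q ^ k) z))))
    rw [← h1, inner_self_eq_norm_sq_to_K, norm_pow, RCLike.norm_ofReal, abs_norm] at h2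
    simp only [nk, e1, e2]
    exact h2
  set r := nk 1 / nk 0 with hr
  have hr0 : 0 < r := div_pos hn1 hn0'
  have hgr : ∀ k, 0 < nk k ∧ r * nk k ≤ nk (k + 1) := by
    intro k
    induction k with
    | zero => exact ⟨hn0', by rw [hr, div_mul_cancel₀ _ hn0'.ne']⟩
    | succ k ih =>
      have h1 : 0 < nk (k + 1) := lt_of_lt_of_le (mul_pos hr0 ih.1) ih.2
      refine ⟨h1, ?_⟩
      have h2 := hlc k
      have h3 : nk k * (r * nk (k + 1)) ≤ nk k * nk (k + 2) := by nlinarith [ih.2]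
      exact le_of_mul_le_mul_left h3 ih.1
  have hgr2 : ∀ k, nk 0 * r ^ k ≤ nk k := by
    intro k
    induction k with
    | zero => simp
    | succ k ih =>
      have := mul_le_mul_of_nonneg_left ih hr0.le
      rw [pow_succ]
      nlinarith [(hgr k).2]
  obtain ⟨μ, hμ, hev⟩ := eig_of_growth Q hQc r (nk 0 / (‖I‖ * ‖z‖ + 1)) hr0 (by positivity)
    fun k => by
      rw [div_mul_eq_mul_div, div_le_iff₀ (by positivity)]
      have h1 : nk k ≤ ‖I‖ * (‖Q ^ k‖ * ‖z‖) := (I.le_opNorm _).trans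
        (mul_le_mul_of_nonneg_left ((Q ^ k).le_opNorm z) (norm_nonneg _))
      nlinarith [hgr2 k, norm_nonneg (Q ^ k)]
  exact eig_of_comm Q W hQc hcomm μ hμ hev

end H93.Nh
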