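import Mathlib

open Filter Topology Set MeasureTheory

namespace H93.Nh

theorem den {Z : Type*} [MeasurableSpace Z] (μ : Measure Z) [IsProbabilityMeasure μ]
    (A : ℕ → Set Z) (hA : ∀ n, MeasurableSet (A n)) (η η' : ℝ) (hη : η' < η)
    (hm : ∀ n, η ≤ μ.real (A n)) (P : Z → Prop) (hP : ∀ᵐ z ∂μ, P z) :
    ∃ z, P z ∧ ∃ᶠ N : ℕ in atTop,
      η' * ((N : ℝ) + 1) ≤ ∑ n ∈ Finset.range (N + 1), (A n).indicator (1 : Z → ℝ) z := by
  by_contra hn
  push Not at hn
  let h : ℕ → Z → ℝ := fun N z =>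
    (∑ n ∈ Finset.range (N + 1), (A n).indicator (1 : Z → ℝ) z) / ((N : ℝ) + 1) - η'
  have hmeas : ∀ N, Measurable (h N) := fun N =>
    ((Finset.measurable_sum _ fun n _ => measurable_one.indicator (hA n)).div_const _).sub_const _
  have hb : ∀ N z, |h N z| ≤ 1 + |η'| := by
    intro N z
    have h1 : 0 ≤ ∑ n ∈ Finset.range (N + 1), (A n).indicator (1 : Z → ℝ) z :=
      Finset.sum_nonneg fun n _ => indicator_nonneg (fun _ _ => zero_le_one) _
    have h2 : ∑ n ∈ Finset.range (N + 1), (A n).indicator (1 : Z → ℝ) z ≤ (N : ℝ) + 1 := by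
      have := Finset.sum_le_sum (s := Finset.range (N + 1))
        (f := fun n => (A n).indicator (1 : Z → ℝ) z) (g := fun _ => (1 : ℝ))
        fun n _ => indicator_le_self' (fun _ _ => zero_le_one) z
      simpa using this
    have h3 : (∑ n ∈ Finset.range (N + 1), (A n).indicator (1 : Z → ℝ) z) / ((N : ℝ) + 1) ≤ 1 :=
      (div_le_one (by positivity)).2 h2
    have h4 : 0 ≤ (∑ n ∈ Finset.range (N + 1), (A n).indicator (1 : Z → ℝ) z) / ((N : ℝ) + 1) := by
      positivity
    rw [abs_le]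
    constructor <;> simp only [h] <;> linarith [le_abs_self η', neg_abs_le η']
  have hint : ∀ N, Integrable (h N) μ := fun N =>
    Integrable.of_bound (hmeas N).aestronglyMeasurable _ (Eventually.of_forall (hb N))
  have h1 : Tendsto (fun N => ∫ z, max (h N z) 0 ∂μ) atTop (𝓝 (∫ _z, (0 : ℝ) ∂μ)) := by
    refine tendsto_integral_of_dominated_convergence (fun _ => 1 + |η'|)
      (fun N => ((hmeas N).max measurable_const).aestronglyMeasurable) (integrable_const _)
      (fun N => Eventually.of_forall fun z => ?_) (hP.mono fun z hz => ?_)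
    · rw [Real.norm_of_nonneg (le_max_right _ _)]
      exact max_le ((le_abs_self _).trans (hb N z)) (by positivity)
    · refine tendsto_const_nhds.congr' ((hn z hz).mono fun N hN => ?_)
      have : h N z ≤ 0 := by
        simp only [h, sub_nonpos]
        rw [div_le_iff₀ (by positivity)]
        exact hN.le
      simp [this]
  have h2 : ∀ N, η - η' ≤ ∫ z, max (h N z) 0 ∂μ := by
    intro N
    refine le_trans ?_ (integral_mono (hint N) (hint N).pos_part fun z => le_max_left _ _)
    have hi : ∀ n ∈ Finset.range (N + 1), Integrable ((A n).indicator (1 : Z → ℝ)) μ :=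
      fun n _ => (integrable_const (1 : ℝ)).indicator (hA n)
    simp only [h]
    rw [integral_sub ((integrable_finsetSum _ hi).div_const _) (integrable_const _),
      integral_div, integral_finsetSum _ hi]
    simp only [integral_const, probReal_univ, one_smul]
    have := Finset.sum_le_sum (s := Finset.range (N + 1)) (f := fun _ => η)
      (g := fun n => ∫ z, (A n).indicator (1 : Z → ℝ) z ∂μ) fun n _ => by
        rw [integral_indicator_one (hA n)]; exact hm n
    simp only [Finset.sum_const, Finset.card_range, nsmul_eq_mul, Nat.cast_add,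
      Nat.cast_one] at this
    rw [sub_le_sub_iff_right, le_div_iff₀ (by positivity)]
    linarith
  have := ge_of_tendsto' h1 h2
  simp only [integral_zero] at this
  linarith

theorem pairs (J : Set ℕ)
    (h : ∃ᶠ N : ℕ in atTop, (4 / 5 : ℝ) * ((N : ℝ) + 1) ≤
      ∑ n ∈ Finset.range (N + 1), J.indicator (1 : ℕ → ℝ) n) (m j0 : ℕ) :
    ∃ j, j0 ≤ j ∧ j ∈ J ∧ m + j ∈ J := by
  by_contra hn
  push Not at hn
  obtain ⟨N, hN, hN2⟩ := (h.and_eventually (eventually_ge_atTop (2 * (m + j0)))).exists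
  have h0 : ∀ n, 0 ≤ J.indicator (1 : ℕ → ℝ) n := fun n =>
    indicator_nonneg (fun _ _ => zero_le_one) _
  have h1 : ∀ n, J.indicator (1 : ℕ → ℝ) n ≤ 1 := fun n =>
    indicator_le_self' (fun _ _ => zero_le_one) n
  have h2 : ∀ M : ℕ, ∑ n ∈ Finset.range M, J.indicator (1 : ℕ → ℝ) n +
      ∑ n ∈ Finset.range M, J.indicator (1 : ℕ → ℝ) (m + n) ≤ M + min M j0 := by
    intro M
    induction M with
    | zero => simp
    | succ M ih =>
      rw [Finset.sum_range_succ, Finset.sum_range_succ]
      by_cases hM : j0 ≤ M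
      · have e1 : min M j0 = j0 := min_eq_right hM
        have e2 : min (M + 1) j0 = j0 := min_eq_right (by omega)
        rw [e1] at ih
        rw [e2]
        push_cast
        by_cases hJ : M ∈ J
        · have := indicator_of_notMem (hn M hM hJ) (1 : ℕ → ℝ)
          linarith [h1 M]
        · have := indicator_of_notMem hJ (1 : ℕ → ℝ)
          linarith [h1 (m + M)]
      · have e1 : min M j0 = M := min_eq_left (by omega)
        have e2 : min (M + 1) j0 = M + 1 := min_eq_left (by omega)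
        rw [e1] at ih
        rw [e2]
        push_cast
        linarith [h1 M, h1 (m + M)]
  have h3 := Finset.sum_range_add (fun n => J.indicator (1 : ℕ → ℝ) n) m (N + 1)
  have h4 : ∑ n ∈ Finset.range (N + 1), J.indicator (1 : ℕ → ℝ) n ≤
      ∑ n ∈ Finset.range (m + (N + 1)), J.indicator (1 : ℕ → ℝ) n :=
    Finset.sum_le_sum_of_subset_of_nonneg (Finset.range_mono (by omega)) fun n _ _ => h0 n
  have h5 : ∑ n ∈ Finset.range m, J.indicator (1 : ℕ → ℝ) n ≤ m := by
    have := Finset.sum_le_sum (s := Finset.range m) fun n _ => h1 n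
    simpa using this
  have h6 := h2 (N + 1)
  have h7 : ((min (N + 1) j0 : ℕ) : ℝ) ≤ j0 := by exact_mod_cast min_le_right _ _
  have h8 : (2 : ℝ) * (m + j0) ≤ N := by exact_mod_cast hN2
  push_cast at h6 h7
  linarith

theorem meas_bs {Z : Type*} [MeasurableSpace Z] {σ : Z → Z} (hσ : Measurable σ) {ψ : Z → ℝ}
    (hψ : Measurable ψ) (n : ℕ) : Measurable (birkhoffSum σ ψ n) := by
  have : birkhoffSum σ ψ n = fun z => ∑ i ∈ Finset.range n, ψ (σ^[i] z) := rfl
  rw [this]
  exact Finset.measurable_sum _ fun i _ => hψ.comp (hσ.iterate i)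

theorem int_bs {Z : Type*} [MeasurableSpace Z] {ν : Measure Z} [IsFiniteMeasure ν] {σ : Z → Z}
    (hσ : MeasurePreserving σ ν ν) {ψ : Z → ℝ} (hψ : Measurable ψ) (L : ℝ) (hL : ∀ z, |ψ z| ≤ L)
    (n : ℕ) : Integrable (birkhoffSum σ ψ n) ν ∧
      ∫ z, birkhoffSum σ ψ n z ∂ν = n * ∫ z, ψ z ∂ν := by
  have e : birkhoffSum σ ψ n = fun z => ∑ i ∈ Finset.range n, ψ (σ^[i] z) := rfl
  have hi : ∀ i ∈ Finset.range n, Integrable (fun z => ψ (σ^[i] z)) ν := fun i _ =>
    Integrable.of_bound (hψ.comp (hσ.measurable.iterate i)).aestronglyMeasurable L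
      (Eventually.of_forall fun z => hL _)
  rw [e]
  refine ⟨integrable_finsetSum _ hi, ?_⟩
  rw [integral_finsetSum _ hi]
  have : ∀ i ∈ Finset.range n, ∫ z, ψ (σ^[i] z) ∂ν = ∫ z, ψ z ∂ν := by
    intro i _
    have h1 := integral_map (μ := ν) (hσ.iterate i).measurable.aemeasurable
      (f := ψ) hψ.aestronglyMeasurable
    rw [(hσ.iterate i).map_eq] at h1
    exact h1.symm
  rw [Finset.sum_congr rfl this]
  simp

theorem dyn {Z : Type*} [MeasurableSpace Z] (μ : Measure Z) [IsProbabilityMeasure μ] (σ : Z → Z)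
    (hσ : MeasurePreserving σ μ μ) (ψ : Z → ℝ) (hψ : Measurable ψ) (L : ℝ) (hL : ∀ z, |ψ z| ≤ L)
    (hint : 0 ≤ ∫ z, ψ z ∂μ) (s : ℕ → ℝ) (hs : Tendsto (fun n : ℕ => s n / n) atTop (𝓝 0))
    (G : Z → Prop) (hG : ∀ᵐ z ∂μ, G z)
    (hup : ∀ᵐ z ∂μ, ∀ j n, birkhoffSum σ ψ n (σ^[j] z) ≤ s n)
    (hP : ∀ᵐ z ∂μ, ∃ C : ℕ, ∀ j n,
      birkhoffSum σ ψ n (σ^[j] z) ≤ max (birkhoffSum σ ψ n z) 0 + C) :
    ∃ z, G z ∧ ∃ K η : ℝ, 0 < η ∧ (∀ n, birkhoffSum σ ψ n z ≤ K) ∧ ∃ᶠ N : ℕ in atTop,
      η * ((N : ℝ) + 1) ≤ ∑ n ∈ Finset.range (N + 1),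
        {z | -K ≤ birkhoffSum σ ψ n z}.indicator (1 : Z → ℝ) z := by
  set t := birkhoffSum σ ψ with ht
  have hm : ∀ n, Measurable (t n) := meas_bs hσ.measurable hψ
  have hm' : ∀ j n, Measurable fun z => t n (σ^[j] z) := fun j n =>
    (hm n).comp (hσ.measurable.iterate j)
  let B : ℕ → Set Z := fun k => {z | ∀ j n, t n (σ^[j] z) ≤ (k : ℝ) + 1}
  have hB : ∀ k, MeasurableSet (B k) := fun k => by
    simp only [B, ofPred_forall]
    exact MeasurableSet.iInter fun j => MeasurableSet.iInter fun n =>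
      measurableSet_le (hm' j n) measurable_const
  by_cases hc : ∃ k, μ (B k) ≠ 0
  · obtain ⟨k, hk⟩ := hc
    set K : ℝ := (k : ℝ) + 1 with hK
    have hK0 : 0 < K := by positivity
    have hsub : B k ⊆ σ ⁻¹' B k := fun z hz j n => by
      have := hz (j + 1) n
      rwa [Function.iterate_succ_apply] at this
    have hae : B k =ᵐ[μ] σ ⁻¹' B k := ae_eq_of_subset_of_measure_ge hsub
      (hσ.measure_preimage (hB k).nullMeasurableSet).le (hB k).nullMeasurableSet (measure_ne_top _ _)
    have hσ' : MeasurePreserving σ (μ.restrict (B k)ᶜ) (μ.restrict (B k)ᶜ) := by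
      have h1 := hσ.restrict_preimage (hB k).compl
      have h2 : μ.restrict (σ ⁻¹' (B k)ᶜ) = μ.restrict (B k)ᶜ :=
        Measure.restrict_congr_set (by rw [preimage_compl]; exact hae.symm.compl)
      rwa [h2] at h1
    have hγ : ∫ z in (B k)ᶜ, ψ z ∂μ ≤ 0 := by
      have h1 := hs.abs
      rw [abs_zero] at h1
      refine ge_of_tendsto h1 ((eventually_gt_atTop 0).mono fun n hn => ?_)
      obtain ⟨h2, h3⟩ := int_bs hσ' hψ L hL n
      have h4 : ∫ z in (B k)ᶜ, t n z ∂μ ≤ ∫ _z in (B k)ᶜ, |s n| ∂μ :=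
        integral_mono_ae h2 (integrable_const _)
          (ae_restrict_of_ae (hup.mono fun z hz => (hz 0 n).trans (le_abs_self _)))
      have h5 : ∫ _z in (B k)ᶜ, |s n| ∂μ ≤ |s n| := by
        rw [setIntegral_const, smul_eq_mul]
        exact mul_le_of_le_one_left (abs_nonneg _) measureReal_le_one
      have hn' : (0 : ℝ) < n := by exact_mod_cast hn
      rw [abs_div, abs_of_pos hn', le_div_iff₀ hn']
      linarith
    let A : ℕ → Set Z := fun n => B k ∩ {z | -K ≤ t n z}
    have hA : ∀ n, MeasurableSet (A n) := fun n =>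
      (hB k).inter (measurableSet_le measurable_const (hm n))
    have hAm : ∀ n, μ.real (B k) / 2 ≤ μ.real (A n) := by
      intro n
      obtain ⟨h2, h3⟩ := int_bs hσ hψ L hL n
      obtain ⟨-, h4⟩ := int_bs hσ' hψ L hL n
      have h5 := integral_add_compl (hB k) h2
      have h6 : 0 ≤ ∫ z in B k, t n z ∂μ := by
        have := mul_nonneg (Nat.cast_nonneg (α := ℝ) n) hint
        have := mul_nonneg (Nat.cast_nonneg (α := ℝ) n) (neg_nonneg.2 hγ)
        linarith
      have i1 : Integrable ((A n).indicator (1 : Z → ℝ)) μ :=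
        (integrable_const (1 : ℝ)).indicator (hA n)
      have i2 : Integrable ((B k).indicator (1 : Z → ℝ)) μ :=
        (integrable_const (1 : ℝ)).indicator (hB k)
      have h7 : ∫ z, (B k).indicator (t n) z ∂μ ≤
          ∫ z, (2 * K * (A n).indicator (1 : Z → ℝ) z - K * (B k).indicator (1 : Z → ℝ) z) ∂μ := by
        refine integral_mono (h2.indicator (hB k)) ((i1.const_mul _).sub (i2.const_mul _))
          fun z => ?_
        by_cases hz : z ∈ B k
        · by_cases hz2 : z ∈ A n
          · simp only [indicator_of_mem hz, indicator_of_mem hz2, Pi.one_apply]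
            have := hz 0 n
            simp only [Function.iterate_zero, id] at this
            linarith
          · simp only [indicator_of_mem hz, indicator_of_notMem hz2, Pi.one_apply]
            have : ¬ (-K ≤ t n z) := fun h => hz2 ⟨hz, h⟩
            linarith [not_le.1 this]
        · have hz2 : z ∉ A n := fun h => hz h.1
          simp [indicator_of_notMem hz, indicator_of_notMem hz2]
      rw [integral_indicator (hB k), integral_sub (i1.const_mul _) (i2.const_mul _),
        integral_const_mul, integral_const_mul, integral_indicator_one (hA n),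
        integral_indicator_one (hB k)] at h7
      have h8 : K * (μ.real (B k) / 2) ≤ K * μ.real (A n) := by linarith
      exact le_of_mul_le_mul_left h8 hK0
    have hpos : 0 < μ.real (B k) := ENNReal.toReal_pos hk (measure_ne_top _ _)
    obtain ⟨z, hz, hf⟩ := den μ A hA (μ.real (B k) / 2) (μ.real (B k) / 4) (by linarith) hAm G hG
    have hzB : z ∈ B k := by
      by_contra hzB
      obtain ⟨N, hN⟩ := hf.exists
      rw [Finset.sum_eq_zero fun n _ => indicator_of_notMem (fun h => hzB h.1) _] at hN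
      have : 0 < μ.real (B k) / 4 * ((N : ℝ) + 1) := by positivity
      linarith
    refine ⟨z, hz, K, μ.real (B k) / 4, by positivity, fun n => hzB 0 n, hf.mono fun N hN => ?_⟩
    refine hN.trans (Finset.sum_le_sum fun n _ => ?_)
    exact indicator_le_indicator_of_subset inter_subset_right (fun _ => zero_le_one) z
  exfalso
  push Not at hc
  let E : ℕ → Set Z := fun C => {z | ∀ j n, t n (σ^[j] z) ≤ max (t n z) 0 + C}
  have hE : ∀ C, MeasurableSet (E C) := fun C => by
    simp only [E, ofPred_forall]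
    exact MeasurableSet.iInter fun j => MeasurableSet.iInter fun n =>
      measurableSet_le (hm' j n) (((hm n).max measurable_const).add_const _)
  have hmono : Monotone E := fun a b hab z hz j n => (hz j n).trans (by
    have : (a : ℝ) ≤ b := by exact_mod_cast hab
    linarith)
  have h1 : μ (⋃ C, E C) = 1 := by
    rw [← measure_univ (μ := μ)]
    refine measure_congr (ae_eq_univ.2 ?_)
    have : ∀ᵐ z ∂μ, z ∈ ⋃ C, E C := hP.mono fun z hz => mem_iUnion.2 hz
    exact this
  have h2 := (ENNReal.tendsto_toReal (by simp)).comp (h1 ▸ tendsto_measure_iUnion_atTop hmono)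
  obtain ⟨C, hC⟩ := (h2.eventually (lt_mem_nhds
    (show (9 / 10 : ℝ) < (1 : ENNReal).toReal by norm_num))).exists
  have hrec : ∀ᵐ z ∂μ, ∀ n : ℕ, ∀ j, σ^[j] z ∈ {z | 2 * (C : ℝ) + 1 < t n z} →
      ∃ᶠ i in atTop, σ^[i] z ∈ {z | 2 * (C : ℝ) + 1 < t n z} :=
    ae_all_iff.2 fun n => hσ.conservative.ae_forall_image_mem_imp_frequently_image_mem
      (measurableSet_lt measurable_const (hm n)).nullMeasurableSet
  have hnB : ∀ᵐ z ∂μ, z ∉ B (2 * C) := measure_eq_zero_iff_ae_notMem.1 (hc _)
  obtain ⟨z, ⟨hz1, hz2, hz3⟩, hf⟩ := den μ (fun j => σ^[j] ⁻¹' E C)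
    (fun j => (hσ.measurable.iterate j) (hE C)) (9 / 10) (4 / 5) (by norm_num)
    (fun j => by
      rw [Measure.real, (hσ.iterate j).measure_preimage (hE C).nullMeasurableSet]
      exact hC.le) _ (hup.and (hrec.and hnB))
  have hpairs := pairs {j | σ^[j] z ∈ E C} (hf.mono fun N hN => hN)
  have hC0 : (0 : ℝ) ≤ C := Nat.cast_nonneg _
  have hlow : ∀ n (q : ℝ), C ≤ q → (∃ᶠ i in atTop, q < t n (σ^[i] z)) → ∀ j, σ^[j] z ∈ E C →
      q - C < t n (σ^[j] z) := by
    intro n q hq hfr j hj
    obtain ⟨i, hi, hij⟩ := (hfr.and_eventually (eventually_ge_atTop j)).exists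
    have h3 := hj (i - j) n
    rw [← Function.iterate_add_apply, Nat.sub_add_cancel hij] at h3
    rcases le_total (t n (σ^[j] z)) 0 with h4 | h4
    · rw [max_eq_right h4] at h3; linarith
    · rw [max_eq_left h4] at h3; linarith
  simp only [B, mem_ofPred_eq, not_forall, not_le] at hz3
  obtain ⟨j0, n0, hn0⟩ := hz3
  push_cast at hn0
  have hbig := hz2 n0 j0 hn0
  have hind : ∀ r : ℕ, ∃ᶠ i in atTop, 2 * (C : ℝ) + 1 + r < t ((r + 1) * n0) (σ^[i] z) := by
    intro r
    induction r with
    | zero => simpa using hbig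
    | succ r ih =>
      rw [frequently_atTop]
      intro a
      obtain ⟨j, hj, hj1, hj2⟩ := hpairs ((r + 1) * n0) a
      refine ⟨j, hj, ?_⟩
      have h3 := hlow _ _ (by have : (0 : ℝ) ≤ r := Nat.cast_nonneg _; linarith) ih j hj1
      have h4 := hlow _ _ (by linarith) hbig _ hj2
      have h5 := birkhoffSum_add σ ψ ((r + 1) * n0) n0 (σ^[j] z)
      rw [← Function.iterate_add_apply] at h5
      have e : (r + 1 + 1) * n0 = (r + 1) * n0 + n0 := by ring
      rw [e, ht, h5]
      push_cast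
      linarith
  have hn1 : 0 < n0 := by
    rcases Nat.eq_zero_or_pos n0 with h | h
    · rw [h, ht, birkhoffSum_zero] at hn0
      linarith
    · exact h
  have hn2 : (0 : ℝ) < n0 := by exact_mod_cast hn1
  have h3 : Tendsto (fun r : ℕ => (r + 1) * n0) atTop atTop :=
    (tendsto_add_atTop_nat 1).atTop_mul_const' hn1
  obtain ⟨r, hr⟩ := ((hs.comp h3).eventually (gt_mem_nhds (show (0 : ℝ) < 1 / n0 by
    positivity))).exists
  obtain ⟨i, hi⟩ := (hind r).exists
  have h4 := hz1 i ((r + 1) * n0)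
  simp only [Function.comp] at hr
  push_cast at hr
  rw [div_lt_div_iff₀ (by positivity) hn2] at hr
  have h5 : s ((r + 1) * n0) < r + 1 := by
    have : s ((r + 1) * n0) * n0 < (r + 1) * n0 := by linarith
    exact lt_of_mul_lt_mul_right this hn2.le
  linarith

end H93.Nh
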