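import Pool.Agent.H93.Nh2

open Filter Topology Set Metric

namespace H93.Nh

variable {X : Type*} [NormedAddCommGroup X] [NormedSpace ℂ X] [CompleteSpace X]

theorem baire (T : X →L[ℂ] X) (S : Submodule ℂ X) (hS : IsClosed (S : Set X))
    (H : ∀ (x : X) (f : StrongDual ℂ X), ¬ Dense (range fun n : ℕ => f ((T ^ n) x))) :
    ∃ (x0 : X) (f0 : StrongDual ℂ X) (δ C : ℝ), x0 ∈ S ∧ 0 < δ ∧ 0 < C ∧
      ∀ x ∈ S, ‖x - x0‖ < δ → ∀ f : StrongDual ℂ X, ‖f - f0‖ < δ → ∀ n : ℕ, ∀ z ∈ S,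
        ‖(T ^ n) z‖ ≤ C * (‖f ((T ^ n) x)‖ + 1) * ‖z‖ := by
  have : CompleteSpace S := hS.completeSpace_coe
  let q := TopologicalSpace.denseSeq ℂ
  let F : ℕ × ℕ → Set (S × StrongDual ℂ X) := fun i =>
    {p | ∀ n : ℕ, p.2 ((T ^ n) p.1) ∉ ball (q i.1) (1 / ((i.2 : ℝ) + 1))}
  have hF : ∀ i, IsClosed (F i) := fun i => by
    simp only [F, ofPred_forall]
    exact isClosed_iInter fun n => isOpen_ball.isClosed_compl.preimage
      (f := fun p : S × StrongDual ℂ X => p.2 ((T ^ n) p.1)) (by fun_prop)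
  have hU : ⋃ i, F i = univ := by
    refine eq_univ_of_forall fun p => ?_
    have h1 := H p.1 p.2
    rw [Metric.dense_iff] at h1
    push Not at h1
    obtain ⟨ζ, ε, hε, h2⟩ := h1
    obtain ⟨k, hk⟩ := exists_nat_one_div_lt (show 0 < ε / 2 by positivity)
    obtain ⟨i, hi⟩ := (TopologicalSpace.denseRange_denseSeq ℂ).exists_dist_lt ζ
      (show 0 < ε / 2 by positivity)
    refine mem_iUnion.2 ⟨(i, k), fun n hn => ?_⟩
    have h3 : p.2 ((T ^ n) p.1) ∈ ball ζ ε ∩ range fun n : ℕ => p.2 ((T ^ n) p.1) := by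
      refine ⟨?_, n, rfl⟩
      rw [mem_ball] at hn ⊢
      have := dist_triangle_right (p.2 ((T ^ n) p.1)) ζ (q i)
      simp only at hn
      linarith
    rw [h2] at h3
    exact h3
  obtain ⟨i, ⟨x0, f0⟩, hp⟩ := nonempty_interior_of_iUnion_of_closed hF hU
  obtain ⟨ρ, hρ, hb⟩ := Metric.mem_nhds_iff.1 (mem_interior_iff_mem_nhds.1 hp)
  set ζ := q i.1 with hζ
  have hne : ∀ x ∈ S, ‖x - x0‖ < ρ → ∀ f : StrongDual ℂ X, ‖f - f0‖ < ρ → ∀ n : ℕ,
      f ((T ^ n) x) ≠ ζ := by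
    intro x hx h1 f h2 n h3
    have h4 : ((⟨x, hx⟩ : S), f) ∈ ball (x0, f0) ρ := by
      rw [mem_ball, Prod.dist_eq, max_lt_iff]
      exact ⟨by rw [Subtype.dist_eq, dist_eq_norm]; exact h1, by rw [dist_eq_norm]; exact h2⟩
    exact hb h4 n (by
      show f ((T ^ n) x) ∈ _
      rw [h3]; exact mem_ball_self (by positivity))
  have s1 : ∀ x ∈ S, ‖x - x0‖ < ρ → ∀ f : StrongDual ℂ X, ‖f - f0‖ < ρ / 2 → ∀ n : ℕ,
      ρ / 2 * ‖(T ^ n) x‖ ≤ ‖f ((T ^ n) x) - ζ‖ := by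
    intro x hx h1 f h2 n
    by_contra h3
    push Not at h3
    set v := (T ^ n) x with hv
    have hv0 : 0 < ‖v‖ := by
      by_contra h
      have : ‖v‖ = 0 := le_antisymm (not_lt.1 h) (norm_nonneg _)
      rw [this, mul_zero] at h3
      exact absurd h3 (not_lt.2 (norm_nonneg _))
    obtain ⟨g, hg1, hg2⟩ := exists_dual_vector'' ℂ v
    have hc : ‖(ζ - f v) / (‖v‖ : ℂ)‖ < ρ / 2 := by
      rw [norm_div, Complex.norm_real, norm_norm, div_lt_iff₀ hv0, norm_sub_rev]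
      exact h3
    refine hne x hx h1 (f + ((ζ - f v) / (‖v‖ : ℂ)) • g) ?_ n ?_
    · have e : f + ((ζ - f v) / (‖v‖ : ℂ)) • g - f0 = (f - f0) + ((ζ - f v) / (‖v‖ : ℂ)) • g := by
        abel
      rw [e]
      have h4 := norm_add_le (f - f0) (((ζ - f v) / (‖v‖ : ℂ)) • g)
      rw [norm_smul] at h4
      nlinarith [norm_nonneg ((ζ - f v) / (‖v‖ : ℂ))]
    · show f v + ((ζ - f v) / (‖v‖ : ℂ)) * g v = ζ
      have h5 : g v = (‖v‖ : ℂ) := hg2
      have h6 : (‖v‖ : ℂ) ≠ 0 := by exact_mod_cast hv0.ne'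
      rw [h5, div_mul_cancel₀ _ h6]; ring
  have s2 : ∀ x ∈ S, ‖x - x0‖ < ρ / 2 → ∀ f : StrongDual ℂ X, ‖f - f0‖ < ρ → ∀ n : ℕ, ∀ u ∈ S,
      ρ / 2 * ‖f ((T ^ n) u)‖ ≤ ‖f ((T ^ n) x) - ζ‖ * ‖u‖ := by
    intro x hx h1 f h2 n u hu
    by_contra h3
    push Not at h3
    have hv0 : 0 < ‖f ((T ^ n) u)‖ := by
      by_contra h
      have : ‖f ((T ^ n) u)‖ = 0 := le_antisymm (not_lt.1 h) (norm_nonneg _)
      rw [this, mul_zero] at h3
      exact absurd h3 (not_lt.2 (by positivity))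
    set c := (ζ - f ((T ^ n) x)) / f ((T ^ n) u) with hc
    have hc2 : ‖c • u‖ < ρ / 2 := by
      rw [norm_smul, hc, norm_div, div_mul_eq_mul_div, div_lt_iff₀ hv0, norm_sub_rev]
      exact h3
    refine hne (x + c • u) (S.add_mem hx (S.smul_mem _ hu)) ?_ f h2 n ?_
    · have e : x + c • u - x0 = (x - x0) + c • u := by abel
      rw [e]
      linarith [norm_add_le (x - x0) (c • u)]
    · rw [map_add, map_add, map_smul, map_smul, smul_eq_mul, hc,
        div_mul_cancel₀ _ (norm_pos_iff.1 hv0)]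
      ring
  set Fn := ‖f0‖ + ρ with hFn
  refine ⟨x0, f0, ρ / 2, 16 / ρ ^ 2 * ((2 * Fn / ρ + 1) * (1 + ‖ζ‖)), x0.2, by positivity,
    by positivity, fun x hx h1 f h2 n u hu => ?_⟩
  set v := (T ^ n) x with hv
  set w := (T ^ n) u with hw
  obtain ⟨g, hg1, hg2⟩ := exists_dual_vector'' ℂ w
  have hb2 : ∀ f' : StrongDual ℂ X, ‖f' - f0‖ < ρ → ρ / 2 * ‖f' w‖ ≤ (Fn * ‖v‖ + ‖ζ‖) * ‖u‖ := by
    intro f' h
    refine (s2 x hx h1 f' h n u hu).trans (mul_le_mul_of_nonneg_right ?_ (norm_nonneg _))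
    have h3 : ‖f'‖ ≤ Fn := by
      have := norm_add_le (f' - f0) f0
      rw [sub_add_cancel] at this
      linarith
    have h4 := (f'.le_opNorm v).trans (mul_le_mul_of_nonneg_right h3 (norm_nonneg _))
    linarith [norm_sub_le (f' v) ζ]
  have h3 := hb2 f (by linarith)
  have h4 := hb2 (f + ((ρ / 4 : ℝ) : ℂ) • g) (by
    have e : f + ((ρ / 4 : ℝ) : ℂ) • g - f0 = (f - f0) + ((ρ / 4 : ℝ) : ℂ) • g := by abel
    rw [e]
    have h4 := norm_add_le (f - f0) (((ρ / 4 : ℝ) : ℂ) • g)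
    rw [norm_smul, Complex.norm_real, Real.norm_of_nonneg (by positivity)] at h4
    nlinarith)
  have h5 : ρ / 4 * ‖w‖ ≤ ‖(f + ((ρ / 4 : ℝ) : ℂ) • g) w‖ + ‖f w‖ := by
    have h6 : g w = (‖w‖ : ℂ) := hg2
    have e : ((ρ / 4 * ‖w‖ : ℝ) : ℂ) = (f + ((ρ / 4 : ℝ) : ℂ) • g) w - f w := by
      show _ = f w + ((ρ / 4 : ℝ) : ℂ) * g w - f w
      rw [h6]; push_cast; ring
    have := norm_sub_le ((f + ((ρ / 4 : ℝ) : ℂ) • g) w) (f w)
    rwa [← e, Complex.norm_real, Real.norm_of_nonneg (by positivity)] at this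
  have h6 := s1 x hx (by linarith) f h2 n
  have h7 : ‖v‖ ≤ 2 / ρ * (‖f v‖ + ‖ζ‖) := by
    rw [div_mul_eq_mul_div, le_div_iff₀ hρ]
    linarith [norm_sub_le (f v) ζ]
  have hF0 : 0 ≤ Fn := by positivity
  have h8 : Fn * ‖v‖ + ‖ζ‖ ≤ (2 * Fn / ρ + 1) * (1 + ‖ζ‖) * (‖f v‖ + 1) := by
    have h9 := mul_le_mul_of_nonneg_left h7 hF0
    have e : Fn * (2 / ρ * (‖f v‖ + ‖ζ‖)) = 2 * Fn / ρ * (‖f v‖ + ‖ζ‖) := by ring
    have h10 : ‖f v‖ + ‖ζ‖ ≤ (1 + ‖ζ‖) * (‖f v‖ + 1) := by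
      nlinarith [norm_nonneg (f v), norm_nonneg ζ]
    have h11 := mul_le_mul_of_nonneg_left h10 (show 0 ≤ 2 * Fn / ρ + 1 by positivity)
    nlinarith [norm_nonneg (f v)]
  have h9 := mul_le_mul_of_nonneg_right h8 (norm_nonneg u)
  have h10 : ρ ^ 2 / 16 * ‖w‖ ≤ (Fn * ‖v‖ + ‖ζ‖) * ‖u‖ := by nlinarith
  have e : 16 / ρ ^ 2 * ((2 * Fn / ρ + 1) * (1 + ‖ζ‖)) * (‖f v‖ + 1) * ‖u‖ =
      ((2 * Fn / ρ + 1) * (1 + ‖ζ‖) * (‖f v‖ + 1) * ‖u‖) / (ρ ^ 2 / 16) := by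
    field_simp
  rw [e, le_div_iff₀ (by positivity)]
  linarith

/-- the closed span of an orbit -/
noncomputable def cyc (T : X →L[ℂ] X) (y : X) : Submodule ℂ X :=
  (Submodule.span ℂ (range fun n : ℕ => (T ^ n) y)).topologicalClosure

theorem real_bound (T : X →L[ℂ] X)
    (H : ∀ (x : X) (f : StrongDual ℂ X), ¬ Dense (range fun n : ℕ => f ((T ^ n) x)))
    (S : ℕ → ℝ) (hS : ∀ i, ∃ b, ∀ n, S (n + i) ≤ S n + b) (y : X) (C : ℝ) (hC : 0 ≤ C)
    (hy : ∀ n, ‖(T ^ n) y‖ ≤ C * Real.exp (S n)) :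
    ∃ D : ℝ, 0 < D ∧ ∀ n, ∀ w ∈ cyc T y, ‖(T ^ n) w‖ ≤ D * (Real.exp (S n) + 1) * ‖w‖ := by
  obtain ⟨x0, f0, δ, C1, hx0, hδ, hC1, h⟩ := baire T (cyc T y)
    (Submodule.isClosed_topologicalClosure _) H
  obtain ⟨x, hx, hd⟩ := Metric.mem_closure_iff.1 hx0 δ hδ
  have hb : ∀ x ∈ Submodule.span ℂ (range fun n : ℕ => (T ^ n) y),
      ∃ E : ℝ, 0 ≤ E ∧ ∀ n, ‖(T ^ n) x‖ ≤ E * Real.exp (S n) := by
    intro x hx
    induction hx using Submodule.span_induction with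
    | mem x hx =>
      obtain ⟨i, rfl⟩ := hx
      obtain ⟨b, hb⟩ := hS i
      refine ⟨C * Real.exp b, by positivity, fun n => ?_⟩
      have e : (T ^ n) ((T ^ i) y) = (T ^ (n + i)) y := by rw [pow_add]; rfl
      simp only
      rw [e, mul_assoc, ← Real.exp_add]
      exact (hy _).trans (mul_le_mul_of_nonneg_left (Real.exp_le_exp.2 (by linarith [hb n])) hC)
    | zero => exact ⟨0, le_rfl, fun n => by simp⟩
    | add a b _ _ ha hb =>
      obtain ⟨E1, h1, h2⟩ := ha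
      obtain ⟨E2, h3, h4⟩ := hb
      refine ⟨E1 + E2, by positivity, fun n => ?_⟩
      rw [map_add]
      linarith [norm_add_le ((T ^ n) a) ((T ^ n) b), h2 n, h4 n]
    | smul c a _ ha =>
      obtain ⟨E1, h1, h2⟩ := ha
      refine ⟨‖c‖ * E1, by positivity, fun n => ?_⟩
      rw [map_smul, norm_smul, mul_assoc]
      exact mul_le_mul_of_nonneg_left (h2 n) (norm_nonneg _)
  obtain ⟨E, hE, hE2⟩ := hb x hx
  refine ⟨C1 * (‖f0‖ * E + 1), by positivity, fun n w hw => ?_⟩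
  have h1 := h x (Submodule.le_topologicalClosure _ hx)
    (by rw [← dist_eq_norm, dist_comm]; exact hd) f0 (by simpa using hδ) n w hw
  refine h1.trans (mul_le_mul_of_nonneg_right ?_ (norm_nonneg _))
  rw [mul_assoc]
  refine mul_le_mul_of_nonneg_left ?_ hC1.le
  have h2 := (f0.le_opNorm _).trans (mul_le_mul_of_nonneg_left (hE2 n) (norm_nonneg _))
  have h3 : 0 ≤ ‖f0‖ * E := by positivity
  nlinarith [Real.exp_pos (S n)]

theorem mem_cyc (T : X →L[ℂ] X) (y : X) (n : ℕ) : (T ^ n) y ∈ cyc T y :=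
  Submodule.le_topologicalClosure _ (Submodule.subset_span ⟨n, rfl⟩)

theorem real_P (T : X →L[ℂ] X) (S : ℕ → ℝ) (y : X) (C c D : ℝ) (hC : 0 ≤ C) (hc : 0 < c)
    (hD : 0 < D) (f : StrongDual ℂ X)
    (hy : ∀ n, ‖(T ^ n) y‖ ≤ C * Real.exp (S n))
    (hf : ∀ n, c * Real.exp (S n) ≤ ‖f ((T ^ n) y)‖)
    (hb : ∀ n, ∀ w ∈ cyc T y, ‖(T ^ n) w‖ ≤ D * (Real.exp (S n) + 1) * ‖w‖) :
    ∃ K : ℕ, ∀ j n, S (j + n) ≤ S j + max (S n) 0 + K := by
  set A := 2 * ‖f‖ * D * C / c with hA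
  refine ⟨⌈A⌉₊, fun j n => ?_⟩
  have e : (T ^ n) ((T ^ j) y) = (T ^ (j + n)) y := by rw [add_comm, pow_add]; rfl
  have h1 := hb n _ (mem_cyc T y j)
  rw [e] at h1
  have h2 : Real.exp (S n) + 1 ≤ 2 * Real.exp (max (S n) 0) := by
    have := Real.exp_le_exp.2 (le_max_left (S n) 0)
    have := Real.one_le_exp (le_max_right (S n) 0)
    linarith
  have h3 : D * (Real.exp (S n) + 1) * ‖(T ^ j) y‖ ≤
      D * (2 * Real.exp (max (S n) 0)) * (C * Real.exp (S j)) :=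
    mul_le_mul (mul_le_mul_of_nonneg_left h2 hD.le) (hy j) (norm_nonneg _) (by positivity)
  have h4 := (hf (j + n)).trans ((f.le_opNorm _).trans
    (mul_le_mul_of_nonneg_left (h1.trans h3) (norm_nonneg _)))
  have h5 : A ≤ Real.exp (⌈A⌉₊ : ℝ) := by
    linarith [Nat.le_ceil A, Real.add_one_le_exp (⌈A⌉₊ : ℝ)]
  rw [← Real.exp_le_exp, Real.exp_add, Real.exp_add]
  have h6 : Real.exp (S (j + n)) ≤ Real.exp (S j) * Real.exp (max (S n) 0) * A := by
    rw [hA, ← mul_div_assoc, le_div_iff₀ hc]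
    linarith
  exact h6.trans (mul_le_mul_of_nonneg_left h5 (by positivity))

theorem real_eig (hX : Refl X) (T : X →L[ℂ] X) (S : ℕ → ℝ) (y : X) (c D : ℝ) (hc : 0 < c)
    (hD : 0 < D) (f : StrongDual ℂ X)
    (hf : ∀ n, c * Real.exp (S n) ≤ ‖f ((T ^ n) y)‖)
    (hb : ∀ n, ∀ w ∈ cyc T y, ‖(T ^ n) w‖ ≤ D * (Real.exp (S n) + 1) * ‖w‖)
    (β K η : ℝ) (hβ : 0 ≤ β) (hη : 0 < η) (hK : ∀ n : ℕ, S n - n * β ≤ K) (J : ℕ → Prop)
    (hJ : ∀ n, J n → -K ≤ S n - n * β) (ind : ℕ → ℝ) (h1 : ∀ n, ind n ≤ 1)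
    (h0 : ∀ n, ¬ J n → ind n = 0)
    (hfr : ∃ᶠ N : ℕ in atTop, η * ((N : ℝ) + 1) ≤ ∑ n ∈ Finset.range (N + 1), ind n) :
    ∃ (l : ℂ) (w : X), w ≠ 0 ∧ T w = l • w := by
  set Y := cyc T y with hY
  have hcl : IsClosed (Y : Set X) := Submodule.isClosed_topologicalClosure _
  have : CompleteSpace Y := hcl.completeSpace_coe
  have : TopologicalSpace.SeparableSpace Y :=
    ((countable_range _).isSeparable.span.closure).separableSpace
  have hinv : ∀ w ∈ Y, T w ∈ Y := by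
    have h2 : Y ≤ Y.comap (T : X →ₗ[ℂ] X) := by
      refine Submodule.topologicalClosure_minimal _ ?_ (hcl.preimage T.continuous)
      rw [Submodule.span_le]
      rintro _ ⟨n, rfl⟩
      have e : T ((T ^ n) y) = (T ^ (n + 1)) y := by rw [pow_succ']; rfl
      show T ((T ^ n) y) ∈ Y
      rw [e]; exact mem_cyc T y _
    exact fun w hw => h2 hw
  let r : ℝ := Real.exp (-β)
  let W : Y →L[ℂ] Y := (r : ℂ) • (T.comp Y.subtypeL).codRestrict Y fun w => hinv w w.2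
  have hW : ∀ w : Y, (W w : X) = (r : ℂ) • T w := fun w => rfl
  have hWn : ∀ (n : ℕ) (w : Y), ((W ^ n) w : X) = ((Real.exp (-(n * β)) : ℝ) : ℂ) • (T ^ n) w := by
    intro n
    induction n with
    | zero => intro w; simp
    | succ n ih =>
      intro w
      have e1 : (W ^ (n + 1)) w = W ((W ^ n) w) := by rw [pow_succ']; rfl
      have e2 : (T ^ (n + 1)) w = T ((T ^ n) w) := by rw [pow_succ']; rfl
      rw [e1, e2, hW, ih, map_smul, smul_smul, ← Complex.ofReal_mul, ← Real.exp_add]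
      congr 3
      push_cast; ring
  have hy0 : y ∈ Y := by simpa using mem_cyc T y 0
  obtain ⟨l, w, hw0, hw⟩ := jdlg (hX.sub Y hcl) W (D * (Real.exp K + 1)) (fun n z => by
      have e : ‖(W ^ n) z‖ = Real.exp (-(n * β)) * ‖(T ^ n) z‖ := by
        rw [Submodule.coe_norm, hWn, norm_smul, Complex.norm_real,
          Real.norm_of_nonneg (Real.exp_pos _).le]
      rw [e]
      have h2 := mul_le_mul_of_nonneg_left (hb n z z.2) (Real.exp_pos (-(n * β))).le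
      have h3 : Real.exp (-(n * β)) * (Real.exp (S n) + 1) ≤ Real.exp K + 1 := by
        rw [mul_add, ← Real.exp_add, mul_one]
        have := Real.exp_le_exp.2 (show -(n * β) + S n ≤ K by linarith [hK n])
        have := Real.exp_le_one_iff.2 (show -(n * β) ≤ 0 from neg_nonpos.2 (by positivity))
        linarith
      have h4 := mul_le_mul_of_nonneg_right (mul_le_mul_of_nonneg_left h3 hD.le) (norm_nonneg (z : X))
      rw [Submodule.coe_norm]
      linarith)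
    ⟨y, hy0⟩ (f.comp Y.subtypeL) (η * (c * Real.exp (-K)) ^ 2) (by positivity)
    (hfr.mono fun N hN => by
      have h2 := mul_le_mul_of_nonneg_right hN (show 0 ≤ (c * Real.exp (-K)) ^ 2 by positivity)
      rw [Finset.sum_mul] at h2
      refine le_trans (by linarith) (h2.trans (Finset.sum_le_sum fun n _ => ?_))
      by_cases hn : J n
      · refine (mul_le_of_le_one_left (by positivity) (h1 n)).trans
          (pow_le_pow_left₀ (by positivity) ?_ 2)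
        show _ ≤ ‖f ((W ^ n) ⟨y, hy0⟩ : Y)‖
        rw [hWn, map_smul, norm_smul, Complex.norm_real, Real.norm_of_nonneg (Real.exp_pos _).le]
        refine le_trans ?_ (mul_le_mul_of_nonneg_left (hf n) (Real.exp_pos _).le)
        rw [mul_left_comm, ← Real.exp_add]
        exact mul_le_mul_of_nonneg_left (Real.exp_le_exp.2 (by linarith [hJ n hn])) hc.le
      · rw [h0 n hn, zero_mul]; positivity)
  refine ⟨(r : ℂ)⁻¹ * l, w, fun h => hw0 (Subtype.ext h), ?_⟩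
  have h2 : (r : ℂ) • T w = l • (w : X) := congrArg Subtype.val hw
  have h3 : (r : ℂ) ≠ 0 := by exact_mod_cast (Real.exp_pos _).ne'
  rw [mul_smul, ← h2, smul_smul, inv_mul_cancel₀ h3, one_smul]

theorem windows (α : ℕ → ℝ) (β L : ℝ) (hβ : 0 ≤ β) (hL : 0 < L) (h1 : ∀ n : ℕ, n * β ≤ α n)
    (h2 : ∀ n, α (n + 1) ≤ α n + L) (hu : ∀ M : ℝ, ∃ n, M < α n) (k : ℕ) :
    ∃ m N : ℕ, k ≤ N ∧ (∀ j ≤ N, (k : ℝ) ≤ α (m + j)) ∧
      ((N : ℝ) + 1) * (β - 1 / ((k : ℝ) + 1)) ≤ α (m + (N + 1)) - α m := by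
  classical
  rcases hβ.eq_or_lt with h | h
  · subst h
    set k' : ℝ := max (α 0) k + 1 with hk'
    obtain ⟨n, hn⟩ := hu (k' + L + L * (k + 1))
    have hk0 : (0 : ℝ) ≤ k := Nat.cast_nonneg _
    have hex : ∃ m, m ≤ n ∧ ∀ j, m ≤ j → j ≤ n → k' ≤ α j := ⟨n, le_rfl, fun j a b => by
      rw [le_antisymm b a]; nlinarith⟩
    obtain ⟨hm1, hm2⟩ := Nat.find_spec hex
    set m := Nat.find hex with hm
    have hm0 : m ≠ 0 := by
      intro h
      have := hm2 0 h.le (Nat.zero_le _)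
      linarith [le_max_left (α 0) k]
    have hm3 : α (m - 1) < k' := by
      by_contra h
      refine Nat.find_min hex (show m - 1 < m by omega) ⟨by omega, fun j a b => ?_⟩
      rcases a.eq_or_lt with h3 | h3
      · rw [← h3]; exact not_lt.1 h
      · exact hm2 j (by omega) b
    have hm4 : α m < k' + L := by
      have := h2 (m - 1)
      rw [Nat.sub_add_cancel (by omega)] at this
      linarith
    have h3 : ∀ i : ℕ, α (m + i) ≤ α m + L * i := by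
      intro i
      induction i with
      | zero => simp
      | succ i ih =>
        have := h2 (m + i)
        push_cast
        rw [← add_assoc]
        linarith
    obtain ⟨d, hd⟩ := Nat.exists_eq_add_of_le hm1
    have h4 := h3 d
    rw [← hd] at h4
    have h5 : (k : ℝ) + 1 < d := lt_of_mul_lt_mul_left (by linarith) hL.le
    have h6 : k + 1 < d := by exact_mod_cast h5
    refine ⟨m, d - 1, by omega, fun j hj => ?_, ?_⟩
    · have := hm2 (m + j) (by omega) (by omega)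
      linarith [le_max_right (α 0) k]
    · rw [Nat.sub_add_cancel (by omega), ← hd]
      have : (((d - 1 : ℕ) : ℝ) + 1) * (0 - 1 / ((k : ℝ) + 1)) ≤ 0 :=
        mul_nonpos_of_nonneg_of_nonpos (by positivity) (by
          have : 0 < 1 / ((k : ℝ) + 1) := by positivity
          linarith)
      nlinarith
  · set m := ⌈(k : ℝ) / β⌉₊ with hm
    have hm1 : (k : ℝ) ≤ m * β := (div_le_iff₀ h).1 (Nat.le_ceil _)
    refine ⟨m, max k ⌈((k : ℝ) + 1) * α m⌉₊, le_max_left _ _, fun j _ => ?_, ?_⟩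
    · have := h1 (m + j)
      push_cast at this
      nlinarith [Nat.cast_nonneg (α := ℝ) j]
    · set N := max k ⌈((k : ℝ) + 1) * α m⌉₊ with hN
      have h3 : ((k : ℝ) + 1) * α m ≤ N :=
        (Nat.le_ceil _).trans (Nat.cast_le.2 (le_max_right _ _))
      have h4 := h1 (m + (N + 1))
      push_cast at h4
      have h5 : α m ≤ ((N : ℝ) + 1) * (1 / ((k : ℝ) + 1)) := by
        rw [mul_one_div, le_div_iff₀ (by positivity)]
        linarith
      nlinarith [Nat.cast_nonneg (α := ℝ) k]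

end H93.Nh
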