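import Pool.Agent.H93.Nh3
import Pool.Agent.H93.Nh4

open Filter Topology Set Metric MeasureTheory

namespace H93.Nh

/-- limits of shifted increment sequences carry an invariant measure with maximal drift -/
theorem seq_dyn (α : ℕ → ℝ) (L : ℝ) (hL : 0 < L) (h0 : ∀ n, 0 ≤ α n) (hsub : Subadditive α)
    (h2 : ∀ n, |α (n + 1) - α n| ≤ L) (hu : ∀ M : ℝ, ∃ n, M < α n) (G : (ℕ → ℝ) → Prop)
    (hG : ∀ (S : ℕ → ℝ) (V : Ultrafilter ℕ), Tendsto α V atTop →
      (∀ n, Tendsto (fun j => α (j + n) - α j) V (𝓝 (S n))) →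
      (∀ i, ∃ b, ∀ n, S (n + i) ≤ S n + b) →
      G S ∧ ∃ K : ℕ, ∀ j n, S (j + n) ≤ S j + max (S n) 0 + K) :
    ∃ S, G S ∧ ∃ β K η : ℝ, 0 ≤ β ∧ 0 < η ∧ (∀ n : ℕ, S n - n * β ≤ K) ∧ ∃ᶠ N : ℕ in atTop,
      η * ((N : ℝ) + 1) ≤ ∑ n ∈ Finset.range (N + 1),
        {n : ℕ | -K ≤ S n - n * β}.indicator (1 : ℕ → ℝ) n := by
  have hbdd : BddBelow (range fun n : ℕ => α n / n) := ⟨0, by
    rintro _ ⟨n, rfl⟩
    exact div_nonneg (h0 n) (Nat.cast_nonneg _)⟩
  set β := hsub.lim with hβ
  have hlim := hsub.tendsto_lim hbdd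
  have hβ0 : 0 ≤ β := ge_of_tendsto' hlim fun n => div_nonneg (h0 n) (Nat.cast_nonneg _)
  have h1 : ∀ n : ℕ, n * β ≤ α n := by
    intro n
    rcases Nat.eq_zero_or_pos n with h | h
    · subst h; simpa using h0 0
    · have := hsub.lim_le_div hbdd h.ne'
      rw [le_div_iff₀ (by exact_mod_cast h)] at this
      linarith
  choose m N hN hwin hdr using windows α β L hβ0 hL h1
    (fun n => by linarith [(abs_le.1 (h2 n)).2]) hu
  have hNt : Tendsto N atTop atTop := tendsto_atTop_mono hN tendsto_id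
  let Z := ℕ → Icc (-L) L
  let σ : Z → Z := fun z i => z (i + 1)
  have hσc : Continuous σ := continuous_pi fun i => continuous_apply (i + 1)
  let P : ℕ → Z := fun j i => ⟨α (j + i + 1) - α (j + i), abs_le.1 (h2 _)⟩
  have hσP : ∀ j, σ (P j) = P (j + 1) := by
    intro j
    funext i
    apply Subtype.ext
    show α (j + (i + 1) + 1) - α (j + (i + 1)) = α (j + 1 + i + 1) - α (j + 1 + i)
    rw [show j + (i + 1) = j + 1 + i by omega]
  have hσn : ∀ n j, σ^[n] (P j) = P (j + n) := by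
    intro n
    induction n with
    | zero => intro j; rfl
    | succ n ih => intro j; rw [Function.iterate_succ_apply', ih, hσP]; rfl
  let ψ : Z → ℝ := fun z => (z 0 : ℝ) - β
  have hψc : Continuous ψ := (continuous_subtype_val.comp (continuous_apply 0)).sub continuous_const
  have htP : ∀ n j, birkhoffSum σ ψ n (P j) = α (j + n) - α j - n * β := by
    intro n j
    induction n with
    | zero => simp
    | succ n ih =>
      rw [birkhoffSum_succ, ih, hσn]
      show _ + (α (j + n + 0 + 1) - α (j + n + 0) - β) = α (j + n + 1) - _ - _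
      push_cast
      simp only [add_zero]
      ring
  have htc : ∀ n, Continuous (birkhoffSum σ ψ n) := by
    intro n
    have : birkhoffSum σ ψ n = fun z => ∑ i ∈ Finset.range n, ψ (σ^[i] z) := rfl
    rw [this]
    exact continuous_finsetSum _ fun i _ => hψc.comp (hσc.iterate i)
  let U : Ultrafilter ℕ := Ultrafilter.of atTop
  have hU : (U : Filter ℕ) ≤ atTop := Ultrafilter.of_le _
  obtain ⟨μs, μ, hμ, -, hR, hF⟩ := emp (Z := Z) N (fun k j => P (m k + j)) U
  have hlimφ : ∀ φ : C(Z, ℝ), Tendsto (fun k => (∑ j ∈ Finset.range (N k + 1), φ (P (m k + j))) /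
      ((N k : ℝ) + 1)) U (𝓝 (∫ z, φ z ∂(μ : Measure Z))) := by
    intro φ
    have := ProbabilityMeasure.tendsto_iff_forall_integral_tendsto.1 hμ
      (BoundedContinuousFunction.mkOfCompact φ)
    refine this.congr fun k => ?_
    rw [hR]
    rfl
  have hσ : MeasurePreserving σ (μ : Measure Z) μ := by
    refine ⟨hσc.measurable, ?_⟩
    refine ext_of_forall_integral_eq_of_IsFiniteMeasure fun φ => ?_
    rw [integral_map hσc.measurable.aemeasurable φ.continuous.aestronglyMeasurable]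
    have h3 := (hlimφ ⟨fun z => φ (σ z), φ.continuous.comp hσc⟩).sub (hlimφ φ.toContinuousMap)
    have h4 := (tele (𝕜 := ℝ) N hNt (fun k j => φ (P (m k + j))) ‖φ‖
      (fun k j => φ.norm_coe_le_norm _)).mono_left hU
    simp only [ContinuousMap.coe_mk, hσP] at h3
    exact sub_eq_zero.1 (tendsto_nhds_unique h3 h4)
  have hint : 0 ≤ ∫ z, ψ z ∂(μ : Measure Z) := by
    have h3 : Tendsto (fun k : ℕ => -(1 / ((k : ℝ) + 1))) U (𝓝 (-0)) :=
      (tendsto_one_div_add_atTop_nhds_zero_nat.mono_left hU).neg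
    rw [neg_zero] at h3
    refine le_of_tendsto_of_tendsto' h3 (hlimφ ⟨ψ, hψc⟩) fun k => ?_
    have h4 : ∑ j ∈ Finset.range (N k + 1), ψ (P (m k + j)) =
        birkhoffSum σ ψ (N k + 1) (P (m k)) := by
      simp only [birkhoffSum, hσn]
    simp only [ContinuousMap.coe_mk]
    rw [h4, htP, le_div_iff₀ (by positivity)]
    have := hdr k
    push_cast
    linarith
  have hsupp : ∀ᵐ z ∂(μ : Measure Z), ∀ k : ℕ, z ∈ closure (P '' {j | (k : ℝ) ≤ α j}) := by
    refine ae_all_iff.2 fun k => ?_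
    have h3 := ProbabilityMeasure.limsup_measure_closed_le_of_tendsto hμ
      (F := closure (P '' {j | (k : ℝ) ≤ α j})) isClosed_closure
    have h4 : ∀ᶠ i in (U : Filter ℕ),
        (μs i : Measure Z) (closure (P '' {j | (k : ℝ) ≤ α j})) = 1 :=
      ((eventually_ge_atTop k).filter_mono hU).mono fun i hi => hF i _ fun j hj =>
        subset_closure ⟨_, le_trans (Nat.cast_le.2 hi) (hwin i j hj), rfl⟩
    rw [limsup_congr h4, limsup_const] at h3
    exact (mem_ae_iff_prob_eq_one isClosed_closure.measurableSet).2 (le_antisymm prob_le_one h3)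
  have key : ∀ z : Z, (∀ k : ℕ, z ∈ closure (P '' {j | (k : ℝ) ≤ α j})) →
      (∀ j n, birkhoffSum σ ψ n (σ^[j] z) ≤ α n - n * β) ∧
      G (fun n => birkhoffSum σ ψ n z + n * β) ∧ ∃ C : ℕ, ∀ j n,
        birkhoffSum σ ψ n (σ^[j] z) ≤ max (birkhoffSum σ ψ n z) 0 + C := by
    intro z hz
    have hne : NeBot (comap P (𝓝 z) ⊓ comap α atTop) := by
      rw [Filter.inf_neBot_iff]
      intro s hs s' hs'
      obtain ⟨A, hA, hAs⟩ := mem_comap.1 hs
      obtain ⟨B, hB, hBs⟩ := mem_comap.1 hs'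
      obtain ⟨b, hb⟩ := mem_atTop_sets.1 hB
      obtain ⟨_, h3, j, hj, rfl⟩ := mem_closure_iff_nhds.1 (hz ⌈b⌉₊) A hA
      exact ⟨j, hAs h3, hBs (hb _ ((Nat.le_ceil b).trans hj))⟩
    let V := Ultrafilter.of (comap P (𝓝 z) ⊓ comap α atTop)
    have hV1 : Tendsto P V (𝓝 z) := tendsto_iff_comap.2 ((Ultrafilter.of_le _).trans inf_le_left)
    have hV2 : Tendsto α V atTop := tendsto_iff_comap.2 ((Ultrafilter.of_le _).trans inf_le_right)
    have hup : ∀ j n, birkhoffSum σ ψ n (σ^[j] z) ≤ α n - n * β := by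
      intro j n
      refine le_of_tendsto' ((((htc n).comp (hσc.iterate j)).tendsto z).comp hV1) fun i => ?_
      simp only [Function.comp]
      rw [hσn, htP]
      linarith [hsub (i + j) n]
    obtain ⟨h3, K, hK⟩ := hG (fun n => birkhoffSum σ ψ n z + n * β) V hV2 (fun n => by
      refine ((((htc n).tendsto z).comp hV1).add_const (n * β)).congr fun j => ?_
      simp only [Function.comp]
      rw [htP]; ring) (fun i => ⟨α i, fun n => by
      rw [birkhoffSum_add]
      push_cast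
      linarith [hup n i]⟩)
    refine ⟨hup, h3, K, fun j n => ?_⟩
    have h4 := hK j n
    rw [birkhoffSum_add] at h4
    push_cast at h4
    have h5 : 0 ≤ (n : ℝ) * β := by positivity
    have h6 : max (birkhoffSum σ ψ n z + n * β) 0 ≤ max (birkhoffSum σ ψ n z) 0 + n * β :=
      max_le (by linarith [le_max_left (birkhoffSum σ ψ n z) 0])
        (by linarith [le_max_right (birkhoffSum σ ψ n z) 0])
    linarith
  obtain ⟨z, hz, K, η, hη, hK, hfr⟩ := dyn (μ : Measure Z) σ hσ ψ hψc.measurable (L + β)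
    (fun z => by
      have := (z 0).2
      rw [abs_le]
      constructor <;> simp only [ψ] <;> linarith [this.1, this.2])
    hint (fun n => α n - n * β) (by
      have h3 := hlim.sub_const β
      rw [← hβ, sub_self] at h3
      refine h3.congr' ((eventually_gt_atTop 0).mono fun n hn => ?_)
      have : (n : ℝ) ≠ 0 := by exact_mod_cast hn.ne'
      field_simp)
    (fun z => G (fun n => birkhoffSum σ ψ n z + n * β)) (hsupp.mono fun z hz => (key z hz).2.1)
    (hsupp.mono fun z hz => (key z hz).1) (hsupp.mono fun z hz => (key z hz).2.2)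
  refine ⟨_, hz, β, K, η, hβ0, hη, fun n => by simpa using hK n, hfr.mono fun N hN => ?_⟩
  refine hN.trans (le_of_eq (Finset.sum_congr rfl fun n _ => ?_))
  by_cases h : -K ≤ birkhoffSum σ ψ n z
  · rw [indicator_of_mem (by exact h), indicator_of_mem (by simpa using h)]; rfl
  · rw [indicator_of_notMem (by exact h), indicator_of_notMem (by simpa using h)]

theorem main {X : Type*} [NormedAddCommGroup X] [NormedSpace ℂ X] [CompleteSpace X]
    (hX : Refl X) (T : X →L[ℂ] X) (hpb : ¬ BddAbove (range fun n : ℕ => ‖T ^ n‖))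
    (hev : ∀ (l : ℂ) (x : X), T x = l • x → x = 0) :
    ∃ (x : X) (f : StrongDual ℂ X), Dense (range fun n : ℕ => f ((T ^ n) x)) := by
  by_contra H
  push Not at H
  set a : ℕ → ℝ := fun n => ‖T ^ n‖ with ha
  have hmul : ∀ m n, a (m + n) ≤ a m * a n := fun m n => by
    simp only [ha]; rw [pow_add]; exact norm_mul_le _ _
  have ha0 : ∀ n, 0 ≤ a n := fun n => norm_nonneg _
  have ha1 : ∀ n, 1 ≤ a n := by
    intro n
    by_contra h
    push Not at h
    apply hpb
    refine ⟨∑ i ∈ Finset.range n, a i, ?_⟩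
    rintro _ ⟨k, rfl⟩
    induction k using Nat.strong_induction_on with
    | _ k ih =>
      rcases lt_or_ge k n with h1 | h1
      · exact Finset.single_le_sum (fun i _ => ha0 i) (Finset.mem_range.2 h1)
      · have h2 := hmul n (k - n)
        rw [Nat.add_sub_cancel' h1] at h2
        rcases Nat.eq_zero_or_pos n with h3 | h3
        · subst h3
          simp only [Nat.sub_zero, Finset.range_zero, Finset.sum_empty] at h2 ⊢
          nlinarith [ha0 k]
        · have h4 := ih (k - n) (by omega)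
          nlinarith [ha0 (k - n), ha0 n]
  have hap : ∀ n, 0 < a n := fun n => lt_of_lt_of_le one_pos (ha1 n)
  obtain ⟨x0, f0, δ, C, -, hδ, hC, hb⟩ := baire T ⊤ (by simp) H
  have hb' : ∀ f : StrongDual ℂ X, ‖f - f0‖ < δ → ∀ n, a n ≤ C * (‖f ((T ^ n) x0)‖ + 1) :=
    fun f hf n => ContinuousLinearMap.opNorm_le_bound _ (by positivity) fun z =>
      hb x0 trivial (by simpa using hδ) f hf n z trivial
  let Ts : StrongDual ℂ X →L[ℂ] StrongDual ℂ X := (ContinuousLinearMap.compL ℂ X X ℂ).flip T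
  have hTs : ∀ g z, Ts g z = g (T z) := fun g z => rfl
  have hf0 : f0 ∈ (LinearMap.range (Ts : StrongDual ℂ X →ₗ[ℂ] StrongDual ℂ X)).topologicalClosure := by
    by_contra h
    obtain ⟨φ, h1, h2⟩ := sep _ (Submodule.isClosed_topologicalClosure _) h
    obtain ⟨x, hx⟩ := hX φ
    have h3 : T x = 0 := SeparatingDual.eq_zero_of_forall_dual_eq_zero (R := ℂ) fun g => by
      rw [← hTs, ← hx]
      exact h1 _ (Submodule.le_topologicalClosure _ ⟨g, rfl⟩)
    have h4 := hev 0 x (by rw [h3, zero_smul])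
    rw [hx, h4, map_zero] at h2
    exact h2 rfl
  obtain ⟨_, ⟨g, rfl⟩, hd⟩ := Metric.mem_closure_iff.1 hf0 δ hδ
  have hdown : ∀ n, a n ≤ C * (‖g‖ * ‖x0‖ + 1) * a (n + 1) := by
    intro n
    have h1 := hb' (Ts g) (by rw [← dist_eq_norm, dist_comm]; exact hd) n
    have e : T ((T ^ n) x0) = (T ^ (n + 1)) x0 := by rw [pow_succ']; rfl
    rw [hTs, e] at h1
    have h2 : ‖g ((T ^ (n + 1)) x0)‖ ≤ ‖g‖ * (a (n + 1) * ‖x0‖) := (g.le_opNorm _).trans
      (mul_le_mul_of_nonneg_left ((T ^ (n + 1)).le_opNorm x0) (norm_nonneg _))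
    rw [mul_assoc]
    refine h1.trans (mul_le_mul_of_nonneg_left ?_ hC.le)
    linarith [ha1 (n + 1)]
  let α : ℕ → ℝ := fun n => Real.log (a n)
  have hα0 : ∀ n, 0 ≤ α n := fun n => Real.log_nonneg (ha1 n)
  have hsub : Subadditive α := fun m n => by
    simp only [α]
    rw [← Real.log_mul (hap m).ne' (hap n).ne']
    exact Real.log_le_log (hap _) (hmul m n)
  have hexp : ∀ n, Real.exp (α n) = a n := fun n => Real.exp_log (hap n)
  obtain ⟨S, ⟨y, D, hD, hf, hbd⟩, β, K, η, hβ, hη, hK, hfr⟩ := seq_dyn α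
    (|Real.log (C * (‖g‖ * ‖x0‖ + 1))| + α 1 + 1) (by have := hα0 1; positivity) hα0 hsub
    (fun n => by
      have h1 := hsub n 1
      have h2 := Real.log_le_log (hap n) (hdown n)
      rw [Real.log_mul (by positivity) (hap _).ne'] at h2
      have h3 := le_abs_self (Real.log (C * (‖g‖ * ‖x0‖ + 1)))
      have h4 := abs_nonneg (Real.log (C * (‖g‖ * ‖x0‖ + 1)))
      have h5 := hα0 1
      rw [abs_le]
      constructor <;> simp only [α] at * <;> linarith)
    (fun M => by
      obtain ⟨_, ⟨n, rfl⟩, hn⟩ := not_bddAbove_iff.1 hpb (Real.exp M)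
      exact ⟨n, (Real.lt_log_iff_exp_lt (hap n)).2 hn⟩)
    (fun S => ∃ (y : X) (D : ℝ), 0 < D ∧ (∀ n, C⁻¹ * Real.exp (S n) ≤ ‖f0 ((T ^ n) y)‖) ∧
      ∀ n, ∀ w ∈ cyc T y, ‖(T ^ n) w‖ ≤ D * (Real.exp (S n) + 1) * ‖w‖)
    (fun S V hV hS hS2 => by
      let yj : ℕ → X := fun j => (((a j)⁻¹ : ℝ) : ℂ) • (T ^ j) x0
      have hyn : ∀ (n j : ℕ) (φ : StrongDual ℂ X),
          ‖φ ((T ^ n) (yj j))‖ = (a j)⁻¹ * ‖φ ((T ^ (j + n)) x0)‖ := by
        intro n j φ
        have e : (T ^ n) ((T ^ j) x0) = (T ^ (j + n)) x0 := by rw [add_comm, pow_add]; rfl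
        simp only [yj]
        rw [map_smul, map_smul, norm_smul, e, Complex.norm_real,
          Real.norm_of_nonneg (inv_pos.2 (hap j)).le]
      obtain ⟨y, hy⟩ := hX.cluster yj ‖x0‖ (fun j => by
        simp only [yj]
        rw [norm_smul, Complex.norm_real, Real.norm_of_nonneg (inv_pos.2 (hap j)).le,
          inv_mul_le_iff₀ (hap j)]
        exact (T ^ j).le_opNorm x0) V
      have hlim : ∀ (n : ℕ) (φ : StrongDual ℂ X), Tendsto
          (fun j => (a j)⁻¹ * ‖φ ((T ^ (j + n)) x0)‖) V (𝓝 ‖φ ((T ^ n) y)‖) := fun n φ =>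
        (hy (φ.comp (T ^ n))).norm.congr fun j => hyn n j φ
      have hE : ∀ n, Tendsto (fun j => (a j)⁻¹ * a (j + n)) V (𝓝 (Real.exp (S n))) := fun n =>
        ((Real.continuous_exp.tendsto _).comp (hS n)).congr fun j => by
          simp only [Function.comp]
          rw [Real.exp_sub, hexp, hexp, div_eq_inv_mul]
      have hE0 : Tendsto (fun j => (a j)⁻¹) V (𝓝 0) :=
        (Real.tendsto_exp_neg_atTop_nhds_zero.comp hV).congr fun j => by
          simp only [Function.comp]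
          rw [Real.exp_neg, hexp]
      have hup : ∀ n, ‖(T ^ n) y‖ ≤ ‖x0‖ * Real.exp (S n) := fun n =>
        NormedSpace.norm_le_dual_bound ℂ _ (by positivity) fun φ => by
          refine le_of_tendsto_of_tendsto' (hlim n φ)
            (((hE n).const_mul ‖x0‖).mul_const ‖φ‖) fun j => ?_
          have h1 : ‖φ ((T ^ (j + n)) x0)‖ ≤ ‖φ‖ * (a (j + n) * ‖x0‖) := (φ.le_opNorm _).trans
            (mul_le_mul_of_nonneg_left ((T ^ (j + n)).le_opNorm x0) (norm_nonneg _))
          have h2 := mul_le_mul_of_nonneg_left h1 (inv_pos.2 (hap j)).le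
          linarith
      have hlow : ∀ n, C⁻¹ * Real.exp (S n) ≤ ‖f0 ((T ^ n) y)‖ := fun n => by
        have h1 := ((hE n).const_mul C⁻¹).sub hE0
        rw [sub_zero] at h1
        refine le_of_tendsto_of_tendsto' h1 (hlim n f0) fun j => ?_
        have h2 := hb' f0 (by simpa using hδ) (j + n)
        rw [← inv_mul_le_iff₀ hC] at h2
        have h3 := mul_le_mul_of_nonneg_left h2 (inv_pos.2 (hap j)).le
        linarith
      obtain ⟨D, hD, hbd⟩ := real_bound T H S hS2 y ‖x0‖ (norm_nonneg _) hup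
      exact ⟨⟨y, D, hD, hlow, hbd⟩,
        real_P T S y ‖x0‖ C⁻¹ D (norm_nonneg _) (inv_pos.2 hC) hD f0 hup hlow hbd⟩)
  obtain ⟨l, w, hw0, hw⟩ := real_eig hX T S y C⁻¹ D (inv_pos.2 hC) hD f0 hf hbd β K η hβ hη hK
    (fun n => -K ≤ S n - n * β) (fun n h => h) _
    (fun n => indicator_le_self' (fun _ _ => zero_le_one) n)
    (fun n h => indicator_of_notMem (s := {n : ℕ | -K ≤ S n - n * β}) h _) hfr
  exact hw0 (hev l w hw)

end H93.Nh
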