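import Mathlib

set_option autoImplicit false

/-! A bounded geometry space built from three involutions that act freely up to large scales. -/

namespace Pool.Agent.H93.Onl1

open Set

variable {X : Type} (s : Fin 3 → X → X) (lev : X → ℕ)

/-- action of a word -/
def act (l : List (Fin 3)) (x : X) : X := l.foldr s x

/-- reduced words of bounded length -/
def Good (n : ℕ) (l : List (Fin 3)) : Prop := l.length ≤ n ∧ l.IsChain (· ≠ ·)

/-- admissible bounds for the distance -/
def Ok (x y : X) (k : ℕ) : Prop :=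
  (∃ l : List (Fin 3), l.length ≤ k ∧ y = act s l x) ∨ (lev x < k ∧ lev y < k)

/-- the distance -/
noncomputable def D (x y : X) : ℕ := sInf {k | Ok s lev x y k}

lemma D_ok (x y : X) : Ok s lev x y (D s lev x y) :=
  Nat.sInf_mem (s := {k | Ok s lev x y k}) ⟨max (lev x) (lev y) + 1, Or.inr ⟨by omega, by omega⟩⟩

lemma D_le {x y : X} {k : ℕ} (h : Ok s lev x y k) : D s lev x y ≤ k := Nat.sInf_le h

variable {s lev}

lemma act_rev (hs : ∀ i x, s i (s i x) = x) (l : List (Fin 3)) (x : X) :
    act s l.reverse (act s l x) = x := by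
  induction l with
  | nil => rfl
  | cons i l ih =>
    simp only [act, List.reverse_cons, List.foldr_append, List.foldr_cons, List.foldr_nil, hs] at ih ⊢
    exact ih

lemma lev_act (hl : ∀ i x, lev (s i x) = lev x) (l : List (Fin 3)) (x : X) :
    lev (act s l x) = lev x := by
  induction l with
  | nil => rfl
  | cons i l ih => simp only [act, List.foldr_cons, hl] at ih ⊢; exact ih

lemma reduce (hs : ∀ i x, s i (s i x) = x) (l : List (Fin 3)) (x : X) :
    ∃ l', Good l.length l' ∧ act s l' x = act s l x := by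
  induction l with
  | nil => exact ⟨[], ⟨le_rfl, List.isChain_nil⟩, rfl⟩
  | cons i l ih =>
    obtain ⟨l', ⟨a, b⟩, c⟩ := ih
    have e : act s (i :: l) x = s i (act s l' x) := by rw [c]; rfl
    rw [e]
    rcases l' with _ | ⟨j, t⟩
    · exact ⟨[i], ⟨by simp, List.isChain_singleton _⟩, rfl⟩
    · by_cases h : i = j
      · subst h
        refine ⟨t, ⟨by simp at a ⊢; omega, b.tail⟩, ?_⟩
        exact (hs i _).symm
      · exact ⟨i :: j :: t, ⟨by simp at a ⊢; omega, List.IsChain.cons_cons h b⟩, rfl⟩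

/-- the metric -/
@[reducible] noncomputable def met (hs : ∀ i x, s i (s i x) = x)
    (hl : ∀ i x, lev (s i x) = lev x) : MetricSpace X where
  dist x y := D s lev x y
  dist_self x := by
    have : D s lev x x ≤ 0 := D_le s lev (Or.inl ⟨[], le_rfl, rfl⟩)
    simpa using this
  dist_comm x y := by
    have : ∀ x y, D s lev x y ≤ D s lev y x := fun x y => D_le s lev (by
      rcases D_ok s lev y x with ⟨l, a, b⟩ | ⟨a, b⟩
      · exact Or.inl ⟨l.reverse, by simpa using a, by rw [b, act_rev hs]⟩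
      · exact Or.inr ⟨b, a⟩)
    rw [le_antisymm (this x y) (this y x)]
  dist_triangle x y z := by
    have : D s lev x z ≤ D s lev x y + D s lev y z := D_le s lev (by
      rcases D_ok s lev x y with ⟨l, a, b⟩ | ⟨a, b⟩ <;>
        rcases D_ok s lev y z with ⟨l', a', b'⟩ | ⟨a', b'⟩
      · exact Or.inl ⟨l' ++ l, by simp; omega, by rw [b', b]; simp [act]⟩
      · have := lev_act hl l x
        rw [← b] at this
        exact Or.inr ⟨by omega, by omega⟩
      · have := lev_act hl l' y
        rw [← b'] at this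
        exact Or.inr ⟨by omega, by omega⟩
      · exact Or.inr ⟨by omega, by omega⟩)
    exact_mod_cast this
  eq_of_dist_eq_zero {x y} h := by
    have h' : D s lev x y = 0 := by exact_mod_cast h
    rcases D_ok s lev x y with ⟨l, a, b⟩ | ⟨a, b⟩
    · rw [h', Nat.le_zero, List.length_eq_zero_iff] at a
      rw [b, a]; rfl
    · omega

lemma bdd_geom (hs : ∀ i x, s i (s i x) = x) (hf : ∀ n, {x | lev x = n}.Finite) (k : ℕ) :
    ∃ N : ℕ, ∀ x : X, ∀ B : Set X, (∀ y ∈ B, D s lev y x ≤ k) → B.Finite ∧ B.ncard ≤ N := by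
  have f1 := List.finite_length_le (Fin 3) k
  have f2 : {y | lev y < k}.Finite := by
    refine ((finite_lt_nat k).biUnion fun n _ => hf n).subset fun y hy => ?_
    simp only [mem_iUnion]; exact ⟨lev y, hy, rfl⟩
  refine ⟨{l : List (Fin 3) | l.length ≤ k}.ncard + {y | lev y < k}.ncard, fun x B hB => ?_⟩
  have sub : B ⊆ (fun l => act s l x) '' {l | l.length ≤ k} ∪ {y | lev y < k} := by
    intro y hy
    have := hB y hy
    rcases D_ok s lev y x with ⟨l, a, b⟩ | ⟨a, b⟩
    · exact Or.inl ⟨l.reverse, by simp; omega, by simp only; rw [b, act_rev hs]⟩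
    · exact Or.inr (show lev y < k by omega)
  have f3 := (f1.image fun l => act s l x).union f2
  exact ⟨f3.subset sub, (ncard_le_ncard sub f3).trans ((ncard_union_le _ _).trans
    (Nat.add_le_add_right (ncard_image_le f1) _))⟩

lemma count (hs : ∀ i x, s i (s i x) = x) (hl : ∀ i x, lev (s i x) = lev x)
    (hfree : ∀ x l l', Good (lev x) l → Good (lev x) l' → act s l x = act s l' x → l = l')
    (V : Finset X) (n : ℕ) (hV : ∀ x, x ∈ V ↔ lev x = n) (A : X → Finset (X × ℕ))
    (hA : ∀ x ∈ V, ∀ w ∈ A x, D s lev w.1 x < n) :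
    ∑ x ∈ V, (A x).card ≤ ∑ x ∈ V, ∑ i, ((A x : Set (X × ℕ)) \ A (s i x)).ncard := by
  classical
  have hw : ∀ p : (Σ _ : X, X × ℕ), ∃ l, p ∈ V.sigma A →
      Good (n - 1) l ∧ act s l p.2.1 = p.1 ∧ lev p.2.1 = n ∧ 0 < n := by
    intro p
    by_cases hp : p ∈ V.sigma A
    swap
    · exact ⟨[], fun h => absurd h hp⟩
    rw [Finset.mem_sigma] at hp
    have h1 := hA _ hp.1 _ hp.2
    have h2 := (hV _).1 hp.1
    rcases D_ok s lev p.2.1 p.1 with ⟨l, a, b⟩ | ⟨a, b⟩
    · obtain ⟨l', ⟨c, d⟩, e⟩ := reduce hs l p.2.1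
      refine ⟨l', fun _ => ⟨⟨by omega, d⟩, e.trans b.symm, ?_, by omega⟩⟩
      rw [← h2, b, lev_act hl]
    · omega
  choose L hL using hw
  let C := (V.sigma A).sigma fun p => Finset.univ.erase ((L p).headD 0)
  let B := (V.sigma A).sigma fun p => Finset.univ.filter fun i : Fin 3 => p.2 ∉ A (s i p.1)
  have c1 : C.card = 2 * (V.sigma A).card := by
    simp [C, Finset.card_sigma (V.sigma A), Finset.card_erase_of_mem, mul_comm]
  have c2 : B.card = ∑ x ∈ V, ∑ i, ((A x : Set (X × ℕ)) \ A (s i x)).ncard := by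
    simp only [B]
    rw [Finset.card_sigma, Finset.sum_sigma]
    refine Finset.sum_congr rfl fun x _ => ?_
    simp only [Finset.card_filter]
    rw [Finset.sum_comm]
    refine Finset.sum_congr rfl fun i _ => ?_
    rw [← Finset.card_filter, ← Finset.coe_sdiff, Set.ncard_coe_finset, Finset.sdiff_eq_filter]
  have c3 : (C \ B).card ≤ (V.sigma A).card := by
    have gd : ∀ q ∈ C, q.1 ∈ V.sigma A ∧ Good n (q.2 :: L q.1) := by
      intro q hq
      rw [Finset.mem_sigma] at hq
      obtain ⟨⟨a, b⟩, -, -, d⟩ := hL _ hq.1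
      refine ⟨hq.1, by simp; omega, ?_⟩
      have := (Finset.mem_erase.1 hq.2).1
      rcases h : L q.1 with _ | ⟨j, t⟩
      · exact List.isChain_singleton _
      · rw [h] at this b
        exact List.IsChain.cons_cons this b
    refine Finset.card_le_card_of_injOn (fun q => ⟨s q.2 q.1.1, q.1.2⟩) (fun q hq => ?_)
      (fun q hq q' hq' h => ?_)
    · simp only [Finset.coe_sdiff, mem_sdiff, Finset.mem_coe] at hq
      have a := (gd q hq.1).1
      have b := hq.2
      simp only [B, Finset.mem_sigma, Finset.mem_filter, Finset.mem_univ, true_and, not_and,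
        not_not] at b
      rw [Finset.mem_sigma] at a
      simp only [Finset.mem_coe, Finset.mem_sigma]
      exact ⟨by rw [hV, hl, ← hV]; exact a.1, b a⟩
    · simp only [Finset.coe_sdiff, mem_sdiff, Finset.mem_coe] at hq hq'
      obtain ⟨⟨x, w⟩, i⟩ := q
      obtain ⟨⟨x', w'⟩, i'⟩ := q'
      simp only [Sigma.mk.injEq, heq_eq_eq] at h
      obtain ⟨h1, rfl⟩ := h
      obtain ⟨a, b⟩ := gd _ hq.1
      obtain ⟨a', b'⟩ := gd _ hq'.1
      obtain ⟨-, c, d, -⟩ := hL _ a
      obtain ⟨-, c', -, -⟩ := hL _ a'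
      simp only at b b' c c' d
      have := hfree w.1 _ _ (d ▸ b) (d ▸ b') (by
        change s i (act s _ _) = s i' (act s _ _)
        rw [c, c', h1])
      obtain ⟨rfl, e⟩ := List.cons.inj this
      have : x = x' := by rw [← c, ← c', e]
      subst this; rfl
  have c4 := Finset.le_card_sdiff B C
  rw [← Finset.card_sigma, ← c2]
  omega

/-- the local involutions -/
def sg (n : ℕ) (i : Fin 3) : List (Fin 3) → List (Fin 3)
  | [] => if 0 < n then [i] else []
  | a :: t => if a = i then t else if t.length + 1 < n then i :: a :: t else a :: t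

lemma sg_good {n : ℕ} (i : Fin 3) {l : List (Fin 3)} (h : Good n l) : Good n (sg n i l) := by
  obtain ⟨a, b⟩ := h
  rcases l with _ | ⟨j, t⟩ <;> simp only [sg] <;> split_ifs with h1 h2
  · exact ⟨h1, List.isChain_singleton _⟩
  · exact ⟨a, b⟩
  · exact ⟨by simp at a; omega, b.tail⟩
  · exact ⟨by simp; omega, List.IsChain.cons_cons (Ne.symm h1) b⟩
  · exact ⟨a, b⟩

lemma sg_cons {n : ℕ} {i : Fin 3} {l : List (Fin 3)} (h : Good n (i :: l)) : sg n i l = i :: l := by
  obtain ⟨a, b⟩ := h
  rcases l with _ | ⟨j, t⟩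
  · simp only [sg]; rw [if_pos (by simp at a; omega)]
  · simp only [sg]
    rw [if_neg (List.isChain_cons_cons.1 b).1.symm, if_pos (by simp at a; omega)]

lemma sg_sg {n : ℕ} (i : Fin 3) {l : List (Fin 3)} (h : Good n l) : sg n i (sg n i l) = l := by
  rcases l with _ | ⟨j, t⟩
  · by_cases h1 : 0 < n <;> simp [sg, h1]
  · by_cases h1 : j = i
    · subst h1
      rw [show sg n j (j :: t) = t by simp [sg], sg_cons h]
    · by_cases h2 : t.length + 1 < n <;> simp [sg, h1, h2]

instance (n : ℕ) : Finite {l // Good n l} :=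
  ((List.finite_length_le (Fin 3) n).subset fun _ h => h.1).to_subtype

/-- the involutions as permutations -/
def tau (n : ℕ) (i : Fin 3) : Equiv.Perm {l // Good n l} :=
  Function.Involutive.toPerm (fun l => ⟨sg n i l.1, sg_good i l.2⟩)
    fun l => Subtype.ext (sg_sg i l.2)

/-- the space -/
abbrev Y : Type := Σ n : ℕ, Equiv.Perm {l // Good n l}

/-- the involutions of the space -/
def sY (i : Fin 3) (x : Y) : Y := ⟨x.1, tau x.1 i * x.2⟩

lemma sY_sY (i : Fin 3) (x : Y) : sY i (sY i x) = x := by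
  obtain ⟨n, g⟩ := x
  simp only [sY]
  congr 1
  ext1 l
  exact Subtype.ext (sg_sg i (g l).2)

lemma fin_Y (n : ℕ) : {x : Y | x.1 = n}.Finite := by
  refine (finite_range fun g : Equiv.Perm {l // Good n l} => (⟨n, g⟩ : Y)).subset ?_
  rintro ⟨m, g⟩ rfl
  exact ⟨g, rfl⟩

lemma free_Y (x : Y) (l l' : List (Fin 3)) (h : Good x.1 l) (h' : Good x.1 l')
    (e : act sY l x = act sY l' x) : l = l' := by
  obtain ⟨n, g⟩ := x
  have key : ∀ l : List (Fin 3), Good n l → ∃ g' : Equiv.Perm {l // Good n l},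
      act sY l ⟨n, g⟩ = ⟨n, g'⟩ ∧ (g' (g.symm ⟨[], by simp [Good]⟩)).1 = l := by
    intro l hl
    induction l with
    | nil => exact ⟨g, rfl, by simp⟩
    | cons i t ih =>
      obtain ⟨g', a, b⟩ := ih ⟨by have := hl.1; simp at this; omega, hl.2.tail⟩
      refine ⟨tau n i * g', ?_, ?_⟩
      · change sY i (act sY t _) = _
        rw [a]; rfl
      · change sg n i (g' _).1 = _
        rw [b, sg_cons hl]
  obtain ⟨g1, a, b⟩ := key l h
  obtain ⟨g2, a', b'⟩ := key l' h'
  rw [a, a'] at e
  obtain rfl : g1 = g2 := eq_of_heq (Sigma.mk.inj e).2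
  rw [← b, ← b']

end Pool.Agent.H93.Onl1
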