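import Mathlib

set_option autoImplicit false

open Set Metric Filter Topology
open scoped RealInnerProductSpace

namespace Pool.Agent.H93.Pf

theorem exists_seq {σ : Type*} (I : σ → Prop) (R : ℕ → σ → σ → Prop) (s0 : σ) (h0 : I s0)
    (hs : ∀ k s, I s → ∃ s', I s' ∧ R k s s') :
    ∃ f : ℕ → σ, f 0 = s0 ∧ ∀ k, I (f k) ∧ R k (f k) (f (k + 1)) := by
  choose g hg using fun k (s : {s // I s}) => hs k s.1 s.2
  let X : ℕ → {s // I s} := fun n => Nat.rec ⟨s0, h0⟩ (fun k x => ⟨g k x, (hg k x).1⟩) n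
  exact ⟨fun n => (X n).1, rfl, fun k => ⟨(X k).2, (hg k (X k)).2⟩⟩

theorem nested_limit {X : Type*} [MetricSpace X] [CompleteSpace X] (x : ℕ → X) (δ : ℕ → ℝ)
    (h0 : ∀ k, 0 ≤ δ k) (hsub : ∀ k, closedBall (x (k + 1)) (δ (k + 1)) ⊆ closedBall (x k) (δ k))
    (hδ : Tendsto δ atTop (𝓝 0)) :
    ∃ p, Tendsto x atTop (𝓝 p) ∧ ∀ k, p ∈ closedBall (x k) (δ k) := by
  have hsub' : ∀ n m, n ≤ m → closedBall (x m) (δ m) ⊆ closedBall (x n) (δ n) := by
    intro n m hnm
    induction m, hnm using Nat.le_induction with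
    | base => exact Subset.rfl
    | succ m _ ih => exact (hsub m).trans ih
  have hin : ∀ n m, n ≤ m → x m ∈ closedBall (x n) (δ n) := fun n m hnm =>
    hsub' n m hnm (mem_closedBall_self (h0 m))
  have hcau : CauchySeq x :=
    cauchySeq_of_le_tendsto_0' _ (fun n m hnm => by rw [dist_comm]; exact hin n m hnm) hδ
  obtain ⟨p, hp⟩ := cauchySeq_tendsto_of_complete hcau
  exact ⟨p, hp, fun n =>
    isClosed_closedBall.mem_of_tendsto hp (eventually_atTop.2 ⟨n, fun m hm => hin n m hm⟩)⟩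

variable {E : Type*} [NormedAddCommGroup E] [InnerProductSpace ℝ E] {ι : Type*}

/-- A point-finite family of closed balls with bounded centres and radii in a space of infinite
dimension. -/
structure Fam (c : ι → E) (r : ι → ℝ) (M : ℝ) : Prop where
  pos : ∀ i, 0 < r i
  cM : ∀ i, ‖c i‖ ≤ M
  rM : ∀ i, r i ≤ M
  M0 : 0 ≤ M
  fin : ∀ x, {i | ‖x - c i‖ ≤ r i}.Finite
  perp : ∀ S : Set E, S.Finite → ∃ e : E, ‖e‖ = 1 ∧ ∀ a ∈ S, ⟪a, e⟫ = 0

/-- The affine function attached to a ball, seen from `x` at height `h`. -/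
def af (c : E) (r : ℝ) (x : E) (h : ℝ) (w : E) : ℝ := ‖x - c‖ ^ 2 - r ^ 2 + h + 2 * ⟪x - c, w⟫

theorem af_eq (c : E) (r : ℝ) (x : E) (h : ℝ) (w : E) :
    af c r x h w = ‖x + w - c‖ ^ 2 - r ^ 2 + (h - ‖w‖ ^ 2) := by
  have : x + w - c = (x - c) + w := by abel
  rw [af, this, norm_add_sq_real]; ring

theorem greedy [CompleteSpace E] {c : ι → E} {r : ι → ℝ} {M : ℝ} (hF : Fam c r M) (x : E) {h : ℝ}
    (hh : 0 ≤ h) (h0 : ∀ i, 0 ≤ af (c i) (r i) x h 0) {A : Set E} (hA : A.Finite) :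
    ∃ w : E, ‖w‖ ^ 2 = h ∧ (∀ a ∈ A, ⟪a, w⟫ = 0) ∧ ∀ i, 0 ≤ af (c i) (r i) x h w := by
  classical
  set C : Set E := {w | ‖w‖ ^ 2 ≤ h ∧ (∀ a ∈ A, ⟪a, w⟫ = 0) ∧ ∀ i, 0 ≤ af (c i) (r i) x h w}
    with hC
  have hCcl : IsClosed C := by
    have e : C = {w | ‖w‖ ^ 2 ≤ h} ∩ ((⋂ a ∈ A, {w | ⟪a, w⟫ = 0}) ∩
        ⋂ i, {w | 0 ≤ af (c i) (r i) x h w}) := by
      ext w; simp [hC]
    rw [e]
    refine (isClosed_le (by fun_prop) continuous_const).inter (IsClosed.inter ?_ ?_)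
    · exact isClosed_biInter fun a _ => isClosed_eq (by fun_prop) continuous_const
    · exact isClosed_iInter fun i => isClosed_le continuous_const (by unfold af; fun_prop)
  have hCb : ∀ w ∈ C, ‖w‖ ≤ h + 1 := fun w hw => by nlinarith [hw.1, norm_nonneg w]
  let I : E × Finset E → Prop := fun s => s.1 ∈ C ∧ s.1 ∈ s.2
  let R : ℕ → E × Finset E → E × Finset E → Prop := fun k s s' =>
    s.2 ⊆ s'.2 ∧ (∀ a ∈ s.2, ⟪a, s'.1 - s.1⟫ = 0) ∧
      ∀ w ∈ C, (∀ a ∈ s.2, ⟪a, w - s.1⟫ = 0) → ‖w - s.1‖ ≤ ‖s'.1 - s.1‖ + 1 / ((k : ℝ) + 1)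
  obtain ⟨f, -, hf⟩ := exists_seq I R (0, {0})
    ⟨⟨by simpa using hh, by simp, h0⟩, by simp⟩ (by
      rintro k ⟨w, S⟩ ⟨hw, hwS⟩
      set D : Set ℝ := {t | ∃ w' ∈ C, (∀ a ∈ S, ⟪a, w' - w⟫ = 0) ∧ t = ‖w' - w‖} with hD
      have hne : D.Nonempty := ⟨_, w, hw, by simp, rfl⟩
      have hbd : BddAbove D := ⟨2 * (h + 1), by
        rintro t ⟨w', hw', -, rfl⟩
        have := norm_sub_le w' w
        linarith [hCb w' hw', hCb w hw]⟩
      have hk : (0 : ℝ) < 1 / ((k : ℝ) + 1) := by positivity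
      obtain ⟨t, ⟨w', hw', hp, rfl⟩, ht⟩ :=
        exists_lt_of_lt_csSup hne (show sSup D - 1 / ((k : ℝ) + 1) < sSup D by linarith)
      refine ⟨(w', insert w' S), ⟨hw', Finset.mem_insert_self _ _⟩, Finset.subset_insert _ _, hp,
        fun v hv hvp => ?_⟩
      have := le_csSup hbd (show ‖v - w‖ ∈ D from ⟨v, hv, hvp, rfl⟩)
      simp only
      linarith)
  set w : ℕ → E := fun k => (f k).1 with hw
  have hmono : ∀ n m, n ≤ m → (f n).2 ⊆ (f m).2 := by
    intro n m hnm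
    induction m, hnm using Nat.le_induction with
    | base => exact Finset.Subset.refl _
    | succ m _ ih => exact ih.trans (hf m).2.1
  have horth : ∀ n m, n ≤ m → ⟪w n, w m - w n⟫ = 0 := by
    intro n m hnm
    induction m, hnm using Nat.le_induction with
    | base => simp
    | succ m hnm ih =>
      have h1 := (hf m).2.2.1 (w n) (hmono n m hnm (hf n).1.2)
      have : w (m + 1) - w n = (w (m + 1) - w m) + (w m - w n) := by abel
      rw [this, inner_add_right, ih, add_zero]; exact h1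
  have hpy : ∀ n m, n ≤ m → ‖w m‖ ^ 2 = ‖w n‖ ^ 2 + ‖w m - w n‖ ^ 2 := by
    intro n m hnm
    have : w m = w n + (w m - w n) := by abel
    conv_lhs => rw [this, norm_add_sq_real, horth n m hnm]
    ring
  have hmon : Monotone fun n => ‖w n‖ ^ 2 := fun n m hnm => by
    simp only; rw [hpy n m hnm]; nlinarith [sq_nonneg ‖w m - w n‖]
  have hbdd : BddAbove (range fun n => ‖w n‖ ^ 2) := ⟨h, by
    rintro _ ⟨n, rfl⟩; exact (hf n).1.1.1⟩
  have hlim := tendsto_atTop_ciSup hmon hbdd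
  set a := ⨆ n, ‖w n‖ ^ 2 with ha
  have hcau : CauchySeq w := by
    refine cauchySeq_of_le_tendsto_0' (fun n => Real.sqrt (a - ‖w n‖ ^ 2)) (fun n m hnm => ?_) ?_
    · rw [dist_comm, dist_eq_norm]
      apply Real.le_sqrt_of_sq_le
      have := le_ciSup hbdd m
      have h2 := hpy n m hnm
      linarith
    · have : Tendsto (fun n => a - ‖w n‖ ^ 2) atTop (𝓝 (a - a)) := tendsto_const_nhds.sub hlim
      rw [sub_self] at this
      simpa using this.sqrt
  obtain ⟨v, hv⟩ := cauchySeq_tendsto_of_complete hcau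
  have hvC : v ∈ C := hCcl.mem_of_tendsto hv (Eventually.of_forall fun n => (hf n).1.1)
  refine ⟨v, ?_, hvC.2.1, hvC.2.2⟩
  by_contra hne
  have hμ : 0 < h - ‖v‖ ^ 2 := sub_pos.2 (lt_of_le_of_ne hvC.1 hne)
  set μ := h - ‖v‖ ^ 2 with hμd
  set L := ‖x‖ + M + 1 with hL
  have hL0 : 0 < L := by have := hF.M0; positivity
  set β := min (μ / (4 * L)) (min 1 (μ / 2)) with hβ
  have hβ0 : 0 < β := lt_min (by positivity) (lt_min one_pos (by positivity))
  have hβ1 : β * (4 * L) ≤ μ := by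
    have : β ≤ μ / (4 * L) := min_le_left _ _
    rwa [le_div_iff₀ (by positivity)] at this
  have hβ2 : β ≤ 1 := (min_le_right _ _).trans (min_le_left _ _)
  have hβ3 : β ≤ μ / 2 := (min_le_right _ _).trans (min_le_right _ _)
  have e1 : ∀ᶠ k in atTop, ‖w k - v‖ ≤ β := by
    have := (tendsto_iff_norm_sub_tendsto_zero.1 hv).eventually (ge_mem_nhds hβ0)
    exact this
  have e2 : ∀ᶠ k in atTop, ‖w k‖ ^ 2 ≤ ‖v‖ ^ 2 + μ / 2 :=
    (hv.norm.pow 2).eventually (ge_mem_nhds (by linarith))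
  have e3 : ∀ᶠ k in atTop, ‖w (k + 1) - w k‖ + 1 / ((k : ℝ) + 1) < β := by
    have h1 : Tendsto (fun k => w (k + 1) - w k) atTop (𝓝 (v - v)) :=
      ((tendsto_add_atTop_iff_nat 1).2 hv).sub hv
    have h2 := h1.norm.add (tendsto_one_div_add_atTop_nhds_zero_nat (𝕜 := ℝ))
    simp only [sub_self, norm_zero, add_zero] at h2
    exact h2.eventually (gt_mem_nhds hβ0)
  obtain ⟨k, h1, h2, h3⟩ := (e1.and (e2.and e3)).exists
  obtain ⟨e, he, hep⟩ := hF.perp (A ∪ ((f k).2 : Set E) ∪ (fun i => x - c i) '' {i | ‖x + v - c i‖ ≤ r i})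
    ((hA.union (Finset.finite_toSet _)).union ((hF.fin _).image _))
  have hwk : w k ∈ C := (hf k).1.1
  have hnew : w k + β • e ∈ C := by
    refine ⟨?_, fun a ha => ?_, fun i => ?_⟩
    · rw [norm_add_sq_real, inner_smul_right, hep (w k) (Or.inl (Or.inr (hf k).1.2)), norm_smul,
        he, Real.norm_of_nonneg hβ0.le]
      nlinarith
    · rw [inner_add_right, inner_smul_right, hep a (Or.inl (Or.inl ha)), hwk.2.1 a ha]; ring
    · by_cases hi : ‖x + v - c i‖ ≤ r i
      · have := hwk.2.2 i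
        unfold af at this ⊢
        rw [inner_add_right, inner_smul_right, hep (x - c i) (Or.inr ⟨i, hi, rfl⟩)]
        linarith
      · have h4 : μ ≤ af (c i) (r i) x h v := by
          rw [af_eq]
          have := hF.pos i
          nlinarith [not_le.1 hi]
        have h5 : af (c i) (r i) x h (w k + β • e) =
            af (c i) (r i) x h v + 2 * ⟪x - c i, (w k - v) + β • e⟫ := by
          unfold af
          have : w k + β • e = v + ((w k - v) + β • e) := by abel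
          rw [this, inner_add_right]; ring
        have h6 : ‖(w k - v) + β • e‖ ≤ 2 * β := by
          have := norm_add_le (w k - v) (β • e)
          rw [norm_smul, he, Real.norm_of_nonneg hβ0.le] at this
          linarith
        have h7 : ‖x - c i‖ ≤ L := by
          have := norm_sub_le x (c i)
          linarith [hF.cM i]
        have h8 := abs_real_inner_le_norm (x - c i) ((w k - v) + β • e)
        have h9 : ‖x - c i‖ * ‖(w k - v) + β • e‖ ≤ L * (2 * β) :=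
          mul_le_mul h7 h6 (norm_nonneg _) hL0.le
        have h10 := neg_abs_le ⟪x - c i, (w k - v) + β • e⟫
        rw [h5]; linarith
  have h11 := (hf k).2.2.2 _ hnew (fun a ha => by
    change ⟪a, w k + β • e - w k⟫ = 0
    rw [add_sub_cancel_left, inner_smul_right, hep a (Or.inl (Or.inr ha)), mul_zero])
  change ‖w k + β • e - w k‖ ≤ ‖w (k + 1) - w k‖ + _ at h11
  rw [add_sub_cancel_left, norm_smul, he, Real.norm_of_nonneg hβ0.le] at h11
  linarith

end Pool.Agent.H93.Pf
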