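import Pool.Agent.H93.Pf1

set_option autoImplicit false

open Set Metric Filter Topology
open scoped RealInnerProductSpace

namespace Pool.Agent.H93.Pf

variable {E : Type*} [NormedAddCommGroup E] [InnerProductSpace ℝ E] {ι : Type*}

/-- Points lying in no open ball of the family. -/
def Z (c : ι → E) (r : ι → ℝ) (x : E) : Prop := ∀ i, r i ^ 2 ≤ ‖x - c i‖ ^ 2

/-- A point around which a piece of a sphere of finite codimension avoids all open balls. -/
def Good (c : ι → E) (r : ι → ℝ) (y : E) : Prop :=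
  ∃ (x : E) (ρ δ : ℝ) (A : Set E), 0 < ρ ∧ 0 < δ ∧ A.Finite ∧ ‖y - x‖ = ρ ∧
    (∀ a ∈ A, ⟪a, y - x⟫ = 0) ∧
    ∀ u : E, (∀ a ∈ A, ⟪a, u⟫ = 0) → ‖u‖ = ρ → ‖x + u - y‖ < δ → Z c r (x + u)

/-- States of the face game. -/
def St (c : ι → E) (r : ι → ℝ) (s : Finset ι × E × ℝ) : Prop :=
  0 < s.2.2 ∧ (∀ i, 0 ≤ af (c i) (r i) s.2.1 (s.2.2 ^ 2) 0) ∧
    ∀ i ∈ s.1, af (c i) (r i) s.2.1 (s.2.2 ^ 2) 0 = 0

theorem af_comb (c : E) (r : ℝ) (x : E) (h : ℝ) (u v : E) (t : ℝ) :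
    af c r x h ((1 - t) • u + t • v) = (1 - t) * af c r x h u + t * af c r x h v := by
  unfold af
  rw [inner_add_right, inner_smul_right, inner_smul_right]; ring

theorem good_or_step [CompleteSpace E] {c : ι → E} {r : ι → ℝ} {M : ℝ} (hF : Fam c r M)
    (s : Finset ι × E × ℝ) (hs : St c r s) :
    (∃ y, Z c r y ∧ Good c r y ∧ ‖y - s.2.1‖ = s.2.2) ∨
    ∃ s', St c r s' ∧ s.1 ⊆ s'.1 ∧ s'.1.card = s.1.card + 1 ∧ ‖s'.2.1 - s.2.1‖ ≤ s.2.2 ∧
      s'.2.2 ≤ s.2.2 / 2 := by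
  classical
  obtain ⟨F, x, ρ⟩ := s
  obtain ⟨hρ, h0, hF0⟩ := hs
  simp only at hρ h0 hF0 ⊢
  set A : Set E := (fun i => x - c i) '' (F : Set ι) with hA
  have hAf : A.Finite := (Finset.finite_toSet F).image _
  obtain ⟨w, hw, hwA, hwp⟩ := greedy hF x (sq_nonneg ρ) h0 hAf
  have hwn : ‖w‖ = ρ := (pow_left_inj₀ (norm_nonneg _) hρ.le two_ne_zero).1 hw
  have hZ : ∀ u : E, ‖u‖ = ρ → (Z c r (x + u) ↔ ∀ i, 0 ≤ af (c i) (r i) x (ρ ^ 2) u) := by
    intro u hu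
    refine forall_congr' fun i => ?_
    rw [af_eq, hu]; constructor <;> intro h <;> linarith
  by_cases hg : ∀ u : E, (∀ a ∈ A, ⟪a, u⟫ = 0) → ‖u‖ = ρ → ‖x + u - (x + w)‖ < ρ / 8 → Z c r (x + u)
  · left
    refine ⟨x + w, (hZ w hwn).2 hwp, ⟨x, ρ, ρ / 8, A, hρ, by positivity, hAf, by simpa using hwn,
      by simpa using hwA, hg⟩, by simpa using hwn⟩
  right
  push Not at hg
  obtain ⟨q, hqA, hqn, hqw, hqZ⟩ := hg
  rw [hZ q hqn] at hqZ
  push Not at hqZ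
  have hqw' : ‖q - w‖ < ρ / 8 := by
    have : x + q - (x + w) = q - w := by abel
    rwa [this] at hqw
  set u1 : E := (1 - (7 / 8 : ℝ)) • (0 : E) + (7 / 8 : ℝ) • w with hu1
  have hu1p : ∀ i, 0 ≤ af (c i) (r i) x (ρ ^ 2) u1 := fun i => by
    rw [hu1, af_comb]; linarith [h0 i, hwp i]
  have hu1e : u1 = (7 / 8 : ℝ) • w := by simp [hu1]
  have hu1n : ‖u1‖ = 7 / 8 * ρ := by rw [hu1e, norm_smul, hwn]; norm_num
  have hu1w : ‖u1 - w‖ = ρ / 8 := by
    have : u1 - w = (-(1 / 8) : ℝ) • w := by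
      rw [hu1e, ← one_smul ℝ w, smul_smul, smul_smul, ← sub_smul]; norm_num
    rw [this, norm_smul, hwn]; norm_num; ring
  set J : Set ι := {i | af (c i) (r i) x (ρ ^ 2) q < 0} with hJ
  have hJf : J.Finite := (hF.fin (x + q)).subset fun i hi => by
    simp only [hJ, mem_ofPred_eq, af_eq, hqn] at hi ⊢
    have := hF.pos i
    nlinarith [norm_nonneg (x + q - c i)]
  obtain ⟨j, hj, hjm⟩ := exists_min_image J (fun i => af (c i) (r i) x (ρ ^ 2) u1 /
    (af (c i) (r i) x (ρ ^ 2) u1 - af (c i) (r i) x (ρ ^ 2) q)) hJf hqZ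
  set t := af (c j) (r j) x (ρ ^ 2) u1 /
    (af (c j) (r j) x (ρ ^ 2) u1 - af (c j) (r j) x (ρ ^ 2) q) with ht
  have hj' : af (c j) (r j) x (ρ ^ 2) q < 0 := hj
  have hden : 0 < af (c j) (r j) x (ρ ^ 2) u1 - af (c j) (r j) x (ρ ^ 2) q := by
    linarith [hu1p j]
  have ht0 : 0 ≤ t := div_nonneg (hu1p j) hden.le
  have ht1 : t < 1 := by rw [ht, div_lt_one hden]; linarith
  set u : E := (1 - t) • u1 + t • q with hu
  have hun : ‖u‖ < ρ := by
    have := norm_add_le ((1 - t) • u1) (t • q)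
    rw [norm_smul, norm_smul, hu1n, hqn, Real.norm_of_nonneg ht0,
      Real.norm_of_nonneg (by linarith)] at this
    nlinarith
  have hun2 : 7 / 8 * ρ ≤ ‖u‖ := by
    have e : w = u - ((1 - t) • (u1 - w) + t • (q - w)) := by
      rw [hu, smul_sub, smul_sub, sub_smul 1 t w, one_smul]; abel
    have h1 := norm_sub_le u ((1 - t) • (u1 - w) + t • (q - w))
    rw [← e, hwn] at h1
    have h2 := norm_add_le ((1 - t) • (u1 - w)) (t • (q - w))
    rw [norm_smul, norm_smul, hu1w, Real.norm_of_nonneg ht0,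
      Real.norm_of_nonneg (by linarith)] at h2
    nlinarith
  have hh' : 0 < ρ ^ 2 - ‖u‖ ^ 2 := by nlinarith [norm_nonneg u]
  have hsq : Real.sqrt (ρ ^ 2 - ‖u‖ ^ 2) ^ 2 = ρ ^ 2 - ‖u‖ ^ 2 := Real.sq_sqrt hh'.le
  have hkey : ∀ i, af (c i) (r i) (x + u) (Real.sqrt (ρ ^ 2 - ‖u‖ ^ 2) ^ 2) 0 =
      af (c i) (r i) x (ρ ^ 2) u := fun i => by
    rw [hsq, af_eq, af_eq]; simp
  have hFz : ∀ i ∈ F, ∀ v : E, (∀ a ∈ A, ⟪a, v⟫ = 0) → af (c i) (r i) x (ρ ^ 2) v = 0 := by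
    intro i hi v hv
    have := hF0 i hi
    unfold af at this ⊢
    rw [hv (x - c i) ⟨i, hi, rfl⟩]
    simpa using this
  have hjF : j ∉ F := fun h => by rw [hFz j h q hqA] at hj'; exact lt_irrefl _ hj'
  refine ⟨(insert j F, x + u, Real.sqrt (ρ ^ 2 - ‖u‖ ^ 2)), ⟨Real.sqrt_pos.2 hh', fun i => ?_,
    fun i hi => ?_⟩, Finset.subset_insert _ _, Finset.card_insert_of_notMem hjF, ?_, ?_⟩
  · simp only
    rw [hkey, hu, af_comb]
    by_cases hi : i ∈ J
    · have h1 := hjm i hi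
      have hi' : af (c i) (r i) x (ρ ^ 2) q < 0 := hi
      rw [le_div_iff₀ (by linarith [hu1p i])] at h1
      linarith
    · have hi' : 0 ≤ af (c i) (r i) x (ρ ^ 2) q := not_lt.1 hi
      have := hu1p i
      have h1 : 0 ≤ 1 - t := by linarith
      positivity
  · simp only
    rw [hkey, hu, af_comb]
    rcases Finset.mem_insert.1 hi with rfl | hi
    · have : t * (af (c i) (r i) x (ρ ^ 2) u1 - af (c i) (r i) x (ρ ^ 2) q) =
        af (c i) (r i) x (ρ ^ 2) u1 := by rw [ht]; field_simp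
      linarith
    · rw [hFz i hi q hqA, hFz i hi u1 (fun a ha => by rw [hu1e, inner_smul_right, hwA a ha, mul_zero])]
      ring
  · simpa using hun.le
  · simp only
    apply Real.sqrt_le_iff.2
    exact ⟨by positivity, by nlinarith⟩

theorem exists_good [CompleteSpace E] {c : ι → E} {r : ι → ℝ} {M : ℝ} (hF : Fam c r M) {z : E}
    (hz : Z c r z) {ρ : ℝ} (hρ : 0 < ρ) : ∃ y, Z c r y ∧ Good c r y ∧ ‖y - z‖ ≤ 2 * ρ := by
  by_contra hcon
  push Not at hcon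
  obtain ⟨f, hf0, hf⟩ := exists_seq (fun s : Finset ι × E × ℝ => St c r s ∧ ‖s.2.1 - z‖ + 2 * s.2.2 ≤ 2 * ρ)
    (fun _ s s' => s.1 ⊆ s'.1 ∧ s'.1.card = s.1.card + 1 ∧ ‖s'.2.1 - s.2.1‖ ≤ s.2.2 ∧
      s'.2.2 ≤ s.2.2 / 2) (∅, z, ρ)
    ⟨⟨hρ, fun i => by have := hz i; simp only [af, inner_zero_right]; nlinarith, by simp⟩, by simp⟩
    (by
      rintro - s ⟨hs, hd⟩
      rcases good_or_step hF s hs with ⟨y, h1, h2, h3⟩ | ⟨s', h1, h2, h3, h4, h5⟩
      · exfalso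
        have h4 := hcon y h1 h2
        have h5 := norm_sub_le_norm_sub_add_norm_sub y s.2.1 z
        linarith [hs.1]
      · refine ⟨s', ⟨h1, ?_⟩, h2, h3, h4, h5⟩
        have h6 := norm_sub_le_norm_sub_add_norm_sub s'.2.1 s.2.1 z
        linarith)
  have hgeo : ∀ k, (f k).2.2 ≤ ρ * (1 / 2) ^ k := by
    intro k
    induction k with
    | zero => simp [hf0]
    | succ k ih => have := (hf k).2.2.2.2; rw [pow_succ]; linarith
  have hten : Tendsto (fun k => 2 * (f k).2.2) atTop (𝓝 0) := by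
    have h1 : Tendsto (fun k : ℕ => 2 * (ρ * (1 / 2 : ℝ) ^ k)) atTop (𝓝 (2 * (ρ * 0))) :=
      ((tendsto_pow_atTop_nhds_zero_of_lt_one (by norm_num) (by norm_num)).const_mul ρ).const_mul 2
    simp only [mul_zero] at h1
    exact squeeze_zero (fun k => by linarith [(hf k).1.1.1]) (fun k => by linarith [hgeo k]) h1
  obtain ⟨p, hp, -⟩ := nested_limit (fun k => (f k).2.1) (fun k => 2 * (f k).2.2)
    (fun k => by linarith [(hf k).1.1.1]) (fun k => closedBall_subset_closedBall' (by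
      rw [dist_eq_norm]; linarith [(hf k).2.2.2.1, (hf k).2.2.2.2])) hten
  have hmono : ∀ n m, n ≤ m → (f n).1 ⊆ (f m).1 := by
    intro n m hnm
    induction m, hnm using Nat.le_induction with
    | base => exact Finset.Subset.refl _
    | succ m _ ih => exact ih.trans (hf m).2.1
  have hcard : ∀ k, (f k).1.card = k := by
    intro k
    induction k with
    | zero => simp [hf0]
    | succ k ih => rw [(hf k).2.2.1, ih]
  have hsub : ∀ k, (f k).1 ⊆ (hF.fin p).toFinset := by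
    intro k i hi
    rw [Set.Finite.mem_toFinset]
    refine le_of_tendsto ((hp.sub_const (c i)).norm) (eventually_atTop.2 ⟨k, fun m hm => ?_⟩)
    have h1 := (hf m).1.1.2.2 i (hmono k m hm hi)
    simp only [af, inner_zero_right] at h1
    have := hF.pos i
    nlinarith [norm_nonneg ((f m).2.1 - c i), sq_nonneg (f m).2.2]
  have := Finset.card_le_card (hsub ((hF.fin p).toFinset.card + 1))
  rw [hcard] at this
  omega

end Pool.Agent.H93.Pf
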