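import Pool.Agent.H93.Pf2

set_option autoImplicit false

open Set Metric Filter Topology
open scoped RealInnerProductSpace

namespace Pool.Agent.H93.Pf

variable {E : Type*} [NormedAddCommGroup E] [InnerProductSpace ℝ E] {ι : Type*}

theorem near_normal {c : ι → E} {r : ι → ℝ} {M : ℝ} (hF : Fam c r M) {y : E} (hy : Good c r y)
    {η : ℝ} (hη : 0 < η) : ∃ (ε : ℝ) (A : Set E), 0 < ε ∧ A.Finite ∧
      ∀ i, ‖y - c i‖ ≤ r i + ε → ∀ e : E, ‖e‖ = 1 → (∀ a ∈ A, ⟪a, e⟫ = 0) → ⟪c i - y, e⟫ ≤ η := by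
  obtain ⟨x, ρ, δ, A, hρ, hδ, hA, hw, hwA, hg⟩ := hy
  have hM := hF.M0
  set w := y - x with hwd
  set L := ‖y‖ + M with hL
  have hL0 : 0 ≤ L := by positivity
  set b := min (min 1 (δ / (4 * ρ))) (η / (2 * (L + 2 * ρ))) with hb
  have hb0 : 0 < b := lt_min (lt_min one_pos (by positivity)) (by positivity)
  have hb1 : b ≤ 1 := (min_le_left _ _).trans (min_le_left _ _)
  have hb2 : b * (4 * ρ) ≤ δ := by
    have : b ≤ δ / (4 * ρ) := (min_le_left _ _).trans (min_le_right _ _)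
    rwa [le_div_iff₀ (by positivity)] at this
  have hb3 : b * (2 * (L + 2 * ρ)) ≤ η := by
    have : b ≤ η / (2 * (L + 2 * ρ)) := min_le_right _ _
    rwa [le_div_iff₀ (by positivity)] at this
  set ε := min 1 (η * b * ρ / (2 * M + 1)) with hε
  have hε0 : 0 < ε := lt_min one_pos (by positivity)
  have hε1 : ε ≤ 1 := min_le_left _ _
  have hε2 : ε * (2 * M + 1) ≤ η * b * ρ := by
    have : ε ≤ η * b * ρ / (2 * M + 1) := min_le_right _ _
    rwa [le_div_iff₀ (by positivity)] at this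
  refine ⟨ε, insert w A, hε0, hA.insert w, fun i hi e he hep => ?_⟩
  set a := Real.sqrt (1 - b ^ 2) with ha
  have hb4 : 0 ≤ 1 - b ^ 2 := by nlinarith
  have ha2 : a ^ 2 = 1 - b ^ 2 := Real.sq_sqrt hb4
  have ha0 : 0 ≤ a := Real.sqrt_nonneg _
  have ha1 : a ≤ 1 := by nlinarith
  have ha3 : 1 - a ≤ b ^ 2 := by nlinarith
  have hwe : ⟪w, e⟫ = 0 := hep w (mem_insert _ _)
  set u := a • w + (b * ρ) • e with hu
  have hun : ‖u‖ = ρ := by
    apply (pow_left_inj₀ (norm_nonneg _) hρ.le two_ne_zero).1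
    rw [hu, norm_add_sq_real, inner_smul_left, inner_smul_right, hwe, norm_smul, norm_smul, hw, he,
      Real.norm_of_nonneg ha0, Real.norm_of_nonneg (by positivity)]
    simp only [conj_trivial]
    nlinarith
  set d := x + u - y with hd
  have hde : d = (b * ρ) • e - (1 - a) • w := by
    rw [hd, hu, sub_smul, one_smul, hwd]; abel
  have hdn : ‖d‖ ≤ 2 * (b * ρ) := by
    have := norm_sub_le ((b * ρ) • e) ((1 - a) • w)
    rw [← hde, norm_smul, norm_smul, he, hw, Real.norm_of_nonneg (by positivity),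
      Real.norm_of_nonneg (by linarith)] at this
    have h2 : (1 - a) * ρ ≤ b * ρ := mul_le_mul_of_nonneg_right (by nlinarith) hρ.le
    linarith
  have hz := hg u (fun v hv => by
    rw [hu, inner_add_right, inner_smul_right, inner_smul_right, hwA v hv,
      hep v (mem_insert_of_mem _ hv)]; ring) hun (by
      have : 0 < b * ρ := by positivity
      linarith) i
  have e1 : x + u - c i = (y - c i) + d := by rw [hd]; abel
  rw [e1, norm_add_sq_real] at hz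
  have e2 : ⟪y - c i, d⟫ = -(b * ρ * ⟪c i - y, e⟫) - (1 - a) * ⟪y - c i, w⟫ := by
    rw [hde, inner_sub_right, inner_smul_right, inner_smul_right, ← neg_sub (c i) y, inner_neg_left]
    ring
  have hyc : ‖y - c i‖ ≤ L := by
    have := norm_sub_le y (c i); linarith [hF.cM i]
  have h3 : -⟪y - c i, w⟫ ≤ L * ρ := by
    have h4 := abs_real_inner_le_norm (y - c i) w
    rw [hw] at h4
    have h5 := neg_abs_le ⟪y - c i, w⟫
    have h6 : ‖y - c i‖ * ρ ≤ L * ρ := mul_le_mul_of_nonneg_right hyc hρ.le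
    linarith
  have h7 : (1 - a) * (-⟪y - c i, w⟫) ≤ b ^ 2 * (L * ρ) :=
    (mul_le_mul_of_nonneg_left h3 (by linarith)).trans
      (mul_le_mul_of_nonneg_right ha3 (by positivity))
  have h8 : ‖y - c i‖ ^ 2 ≤ r i ^ 2 + ε * (2 * M + 1) := by
    have h9 : ‖y - c i‖ ^ 2 ≤ (r i + ε) ^ 2 := pow_le_pow_left₀ (norm_nonneg _) hi 2
    have := hF.rM i
    nlinarith
  have h10 : ‖d‖ ^ 2 ≤ (2 * (b * ρ)) ^ 2 := pow_le_pow_left₀ (norm_nonneg _) hdn 2
  have h11 : b * ρ * (b * (2 * (L + 2 * ρ))) ≤ b * ρ * η :=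
    mul_le_mul_of_nonneg_left hb3 (by positivity)
  have h12 : b * ρ * ⟪c i - y, e⟫ ≤ b * ρ * η := by nlinarith
  exact le_of_mul_le_mul_left h12 (by positivity)

theorem fin_large [CompleteSpace E] {c : ι → E} {r : ι → ℝ} {M : ℝ} (hF : Fam c r M) {y : E}
    (hy : Good c r y) {r0 : ℝ} (hr0 : 0 < r0) :
    ∃ ε > 0, {i | r0 ≤ r i ∧ ‖y - c i‖ ≤ r i + ε}.Finite := by
  obtain ⟨ε, A, hε, hA, h⟩ := near_normal hF hy (η := r0 / 2) (by positivity)
  set N : Submodule ℝ E := Submodule.span ℝ A with hN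
  have : FiniteDimensional ℝ N := FiniteDimensional.span_of_finite ℝ hA
  have hK : IsCompact ((↑) '' closedBall (0 : N) (‖y‖ + M + r0 / 2) : Set E) :=
    (isCompact_closedBall _ _).image continuous_subtype_val
  obtain ⟨t, -, htf, hcov⟩ := hK.finite_cover_balls (e := r0 / 2) (by positivity)
  refine ⟨ε, hε, (htf.biUnion fun q _ => hF.fin (y + q)).subset ?_⟩
  rintro i ⟨hi1, hi2⟩
  obtain ⟨n, hn, v, hv, hnv⟩ := Submodule.exists_add_mem_mem_orthogonal (K := N) (c i - y)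
  have hvn : ‖v‖ ≤ r0 / 2 := by
    by_cases hv0 : v = 0
    · rw [hv0, norm_zero]; positivity
    · have hv1 : ‖v‖ ≠ 0 := norm_ne_zero_iff.2 hv0
      have h1 := h i hi2 (‖v‖⁻¹ • v) (by rw [norm_smul, norm_inv, norm_norm, inv_mul_cancel₀ hv1])
        (fun a ha => by
          rw [inner_smul_right, (Submodule.mem_orthogonal _ _).1 hv a (Submodule.subset_span ha),
            mul_zero])
      rw [hnv, inner_smul_right, inner_add_left, (Submodule.mem_orthogonal _ _).1 hv n hn,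
        real_inner_self_eq_norm_sq, zero_add] at h1
      have : ‖v‖⁻¹ * ‖v‖ ^ 2 = ‖v‖ := by field_simp
      linarith
  have hnn : ‖n‖ ≤ ‖y‖ + M + r0 / 2 := by
    have e : n = (c i - y) - v := by rw [hnv]; abel
    have h1 := norm_sub_le (c i - y) v
    have h2 := norm_sub_le (c i) y
    rw [← e] at h1
    linarith [hF.cM i]
  obtain ⟨q, hq, hqn⟩ := mem_iUnion₂.1 (hcov ⟨⟨n, hn⟩, by simpa using hnn, rfl⟩)
  refine mem_iUnion₂.2 ⟨q, hq, ?_⟩
  simp only [mem_ball, dist_eq_norm] at hqn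
  have e : y + q - c i = -(n - q) - v := by
    have : c i = y + (n + v) := by rw [← hnv]; abel
    rw [this]; abel
  have h1 := norm_sub_le (-(n - q)) v
  rw [← e, norm_neg] at h1
  simp only [mem_ofPred_eq]
  linarith

theorem exists_Z_sphere [CompleteSpace E] {c : ι → E} {r : ι → ℝ} {M : ℝ} (hF : Fam c r M) {y : E}
    (hy : Z c r y) {σ : ℝ} (hσ : 0 < σ) :
    ∃ z, Z c r z ∧ ‖z - y‖ = σ ∧ ∀ i, ‖y - c i‖ ≤ r i → ¬ ‖z - c i‖ ≤ r i := by
  obtain ⟨w, hw, hwA, hwp⟩ := greedy hF y (sq_nonneg σ)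
    (fun i => by have := hy i; simp only [af, inner_zero_right]; nlinarith)
    ((hF.fin y).image fun i => y - c i)
  refine ⟨y + w, fun i => ?_, ?_, fun i hi hz => ?_⟩
  · have := hwp i
    rw [af_eq, hw] at this; linarith
  · rw [add_sub_cancel_left]
    exact (pow_left_inj₀ (norm_nonneg _) hσ.le two_ne_zero).1 hw
  · have h1 := af_eq (c i) (r i) y (σ ^ 2) w
    rw [af, hwA (y - c i) ⟨i, hi, rfl⟩, hw] at h1
    have h2 := hy i
    have h3 : ‖y + w - c i‖ ^ 2 ≤ r i ^ 2 := pow_le_pow_left₀ (norm_nonneg _) hz 2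
    nlinarith

theorem small_step [CompleteSpace E] {c : ι → E} {r : ι → ℝ} {M : ℝ} (hF : Fam c r M) {z : E}
    (hz : Z c r z) {δ r0 : ℝ} (hδ : 0 < δ) (hr0 : 0 < r0) :
    ∃ z' δ', Z c r z' ∧ 0 < δ' ∧ δ' ≤ r0 ∧ closedBall z' δ' ⊆ closedBall z δ ∧
      ∀ p ∈ closedBall z' δ', ∀ i, ‖p - c i‖ ≤ r i → r i < r0 := by
  obtain ⟨y, hyZ, hyG, hyz⟩ := exists_good hF hz (ρ := δ / 4) (by positivity)
  obtain ⟨ε, hε, hJ⟩ := fin_large hF hyG hr0
  set J := {i | r0 ≤ r i ∧ ‖y - c i‖ ≤ r i + ε} with hJd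
  have hop : ∀ S : Set ι, S ⊆ J → IsOpen (⋂ i ∈ S, {p : E | r i < ‖p - c i‖}) := fun S hS =>
    (hJ.subset hS).isOpen_biInter fun i _ => isOpen_lt continuous_const (by fun_prop)
  obtain ⟨ε1, hε1, h1⟩ := Metric.isOpen_iff.1 (hop {i ∈ J | r i < ‖y - c i‖} (sep_subset _ _)) y
    (mem_iInter₂.2 fun i hi => hi.2)
  set σ := min (min (ε / 2) (ε1 / 2)) (δ / 4) with hσ
  have hσ0 : 0 < σ := lt_min (lt_min (by positivity) (by positivity)) (by positivity)
  have hσ1 : σ ≤ ε / 2 := (min_le_left _ _).trans (min_le_left _ _)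
  have hσ2 : σ ≤ ε1 / 2 := (min_le_left _ _).trans (min_le_right _ _)
  have hσ3 : σ ≤ δ / 4 := min_le_right _ _
  obtain ⟨z', hz'Z, hz'n, hz'⟩ := exists_Z_sphere hF hyZ hσ0
  obtain ⟨ε2, hε2, h2⟩ := Metric.isOpen_iff.1 (hop J Subset.rfl) z' (mem_iInter₂.2 fun i hi => by
    by_cases hi' : r i < ‖y - c i‖
    · exact mem_iInter₂.1 (h1 (by rw [mem_ball, dist_eq_norm]; linarith)) i ⟨hi, hi'⟩
    · exact not_le.1 (hz' i (not_lt.1 hi')))
  set δ' := min (min (ε2 / 2) σ) r0 with hδ'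
  have hδ1 : δ' ≤ ε2 / 2 := (min_le_left _ _).trans (min_le_left _ _)
  have hδ2 : δ' ≤ σ := (min_le_left _ _).trans (min_le_right _ _)
  refine ⟨z', δ', hz'Z, lt_min (lt_min (by positivity) hσ0) hr0, min_le_right _ _, ?_, ?_⟩
  · apply closedBall_subset_closedBall'
    rw [dist_eq_norm]
    have := norm_sub_le_norm_sub_add_norm_sub z' y z
    linarith
  · intro p hp i hi
    by_contra hcon
    have hp' : ‖p - z'‖ ≤ δ' := by rwa [mem_closedBall, dist_eq_norm] at hp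
    have hiJ : i ∈ J := ⟨not_lt.1 hcon, by
      have a1 := norm_sub_le_norm_sub_add_norm_sub y p (c i)
      have a2 := norm_sub_le_norm_sub_add_norm_sub p z' y
      rw [norm_sub_rev y p] at a1
      linarith⟩
    have := mem_iInter₂.1 (h2 (show p ∈ ball z' ε2 by rw [mem_ball, dist_eq_norm]; linarith)) i hiJ
    exact absurd hi (not_le.2 this)

theorem core [CompleteSpace E] {c : ι → E} {r : ι → ℝ} {M : ℝ} (hF : Fam c r M) {z : E}
    (hz : Z c r z) {δ : ℝ} (hδ : 0 < δ) : ∃ p ∈ closedBall z δ, ∀ i, ¬ ‖p - c i‖ ≤ r i := by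
  obtain ⟨f, hf0, hf⟩ := exists_seq (fun s : E × ℝ => Z c r s.1 ∧ 0 < s.2)
    (fun k s s' => s'.2 ≤ 1 / ((k : ℝ) + 1) ∧ closedBall s'.1 s'.2 ⊆ closedBall s.1 s.2 ∧
      ∀ p ∈ closedBall s'.1 s'.2, ∀ i, ‖p - c i‖ ≤ r i → r i < 1 / ((k : ℝ) + 1)) (z, δ) ⟨hz, hδ⟩
    (by
      rintro k s ⟨h1, h2⟩
      obtain ⟨z', δ', a1, a2, a3, a4, a5⟩ := small_step hF h1 h2
        (show (0 : ℝ) < 1 / ((k : ℝ) + 1) by positivity)
      exact ⟨(z', δ'), ⟨a1, a2⟩, a3, a4, a5⟩)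
  obtain ⟨p, -, hp⟩ := nested_limit (fun k => (f k).1) (fun k => (f k).2)
    (fun k => (hf k).1.2.le) (fun k => (hf k).2.2.1) (by
      rw [← tendsto_add_atTop_iff_nat 1]
      exact squeeze_zero (fun n => (hf (n + 1)).1.2.le) (fun n => (hf n).2.1)
        tendsto_one_div_add_atTop_nhds_zero_nat)
  refine ⟨p, by simpa [hf0] using hp 0, fun i hi => ?_⟩
  obtain ⟨k, hk⟩ := exists_nat_one_div_lt (hF.pos i)
  have := (hf k).2.2.2 p (hp (k + 1)) i hi
  linarith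

end Pool.Agent.H93.Pf
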