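import Pool.Agent.H93.Pf3

set_option autoImplicit false

open Set Metric Filter Topology
open scoped RealInnerProductSpace

namespace Pool.Agent.H93.Pf

variable {E : Type*} [NormedAddCommGroup E] [InnerProductSpace ℝ E] {ι : Type*}

theorem regular [CompleteSpace E] {c : ι → E} {r : ι → ℝ} (hr : ∀ i, 0 < r i)
    (hfin : ∀ x, {i | ‖x - c i‖ ≤ r i}.Finite) :
    ∃ (o : E) (ρ : ℝ), 0 < ρ ∧ {i | ‖o - c i‖ < r i + ρ}.Finite := by
  classical
  by_contra hcon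
  push Not at hcon
  obtain ⟨f, hf0, hf⟩ := exists_seq
    (fun s : Finset ι × E × ℝ => 0 < s.2.2 ∧ ∀ i ∈ s.1, ∀ p ∈ closedBall s.2.1 s.2.2, ‖p - c i‖ ≤ r i)
    (fun k s s' => s'.1.card = s.1.card + 1 ∧ s'.2.2 ≤ 1 / ((k : ℝ) + 1) ∧
      closedBall s'.2.1 s'.2.2 ⊆ closedBall s.2.1 s.2.2) (∅, 0, 1) ⟨one_pos, by simp⟩
    (by
      rintro k ⟨F, x, δ⟩ ⟨hδ, hFb⟩
      simp only at hδ hFb ⊢
      obtain ⟨j, hj, hjF⟩ := (hcon x δ hδ).exists_notMem_finset F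
      have hnd : ¬ Disjoint (ball x δ) (ball (c j) (r j)) := by
        rw [disjoint_ball_ball_iff hδ (hr j), dist_eq_norm]
        have : ‖x - c j‖ < r j + δ := hj
        linarith
      obtain ⟨x', hx1, hx2⟩ := Set.not_disjoint_iff.1 hnd
      obtain ⟨ε, hε, hεs⟩ := Metric.isOpen_iff.1 (isOpen_ball.inter isOpen_ball) x' ⟨hx1, hx2⟩
      have hsub : closedBall x' (min (ε / 2) (1 / ((k : ℝ) + 1))) ⊆ ball x δ ∩ ball (c j) (r j) :=
        (closedBall_subset_ball (lt_of_le_of_lt (min_le_left _ _) (by linarith))).trans hεs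
      refine ⟨(insert j F, x', min (ε / 2) (1 / ((k : ℝ) + 1))),
        ⟨lt_min (by positivity) (by positivity), fun i hi p hp => ?_⟩,
        Finset.card_insert_of_notMem hjF, min_le_right _ _,
        fun p hp => ball_subset_closedBall (hsub hp).1⟩
      rcases Finset.mem_insert.1 hi with rfl | hi
      · have := (hsub hp).2
        rw [mem_ball, dist_eq_norm] at this
        exact this.le
      · exact hFb i hi p (ball_subset_closedBall (hsub hp).1))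
  obtain ⟨p, -, hp⟩ := nested_limit (fun k => (f k).2.1) (fun k => (f k).2.2)
    (fun k => (hf k).1.1.le) (fun k => (hf k).2.2.2) (by
      rw [← tendsto_add_atTop_iff_nat 1]
      exact squeeze_zero (fun n => (hf (n + 1)).1.1.le) (fun n => (hf n).2.2.1)
        tendsto_one_div_add_atTop_nhds_zero_nat)
  have hcard : ∀ k, (f k).1.card = k := by
    intro k
    induction k with
    | zero => simp [hf0]
    | succ k ih => rw [(hf k).2.1, ih]
  have hsub : ∀ k, (f k).1 ⊆ (hfin p).toFinset := fun k i hi => by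
    rw [Set.Finite.mem_toFinset]; exact (hf k).1.2 i hi p (hp k)
  have := Finset.card_le_card (hsub ((hfin p).toFinset.card + 1))
  rw [hcard] at this
  omega

theorem inv_iff {a w : E} {r : ℝ} (hr : 0 < r) (ha : r < ‖a‖) (hw : w ≠ 0) :
    ‖w - (‖a‖ ^ 2 - r ^ 2)⁻¹ • a‖ ≤ r / (‖a‖ ^ 2 - r ^ 2) ↔ ‖(‖w‖ ^ 2)⁻¹ • w - a‖ ≤ r := by
  set d := ‖a‖ ^ 2 - r ^ 2 with hd
  have hd0 : 0 < d := by nlinarith
  have hw0 : 0 < ‖w‖ := norm_pos_iff.2 hw
  rw [← pow_le_pow_iff_left₀ (norm_nonneg _) (by positivity) two_ne_zero,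
    ← pow_le_pow_iff_left₀ (norm_nonneg _) hr.le two_ne_zero, norm_sub_sq_real, norm_sub_sq_real,
    inner_smul_right, inner_smul_left, norm_smul, norm_smul, Real.norm_of_nonneg (by positivity),
    Real.norm_of_nonneg (by positivity)]
  simp only [conj_trivial]
  have e1 : ‖w‖ ^ 2 - 2 * (d⁻¹ * ⟪w, a⟫) + (d⁻¹ * ‖a‖) ^ 2 - (r / d) ^ 2 =
      d⁻¹ * (d * ‖w‖ ^ 2 - 2 * ⟪w, a⟫ + 1) := by
    have : (d⁻¹ * ‖a‖) ^ 2 - (r / d) ^ 2 = d⁻¹ := by
      field_simp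
      rw [hd]
    rw [add_sub_assoc, this]; field_simp
  have e2 : ((‖w‖ ^ 2)⁻¹ * ‖w‖) ^ 2 - 2 * ((‖w‖ ^ 2)⁻¹ * ⟪w, a⟫) + ‖a‖ ^ 2 - r ^ 2 =
      (‖w‖ ^ 2)⁻¹ * (d * ‖w‖ ^ 2 - 2 * ⟪w, a⟫ + 1) := by
    rw [add_sub_assoc, ← hd]; field_simp; ring
  have p1 : 0 < d⁻¹ := by positivity
  have p2 : 0 < (‖w‖ ^ 2)⁻¹ := by positivity
  rw [← sub_nonpos, e1, ← sub_nonpos (b := r ^ 2), e2]
  constructor
  · intro h1
    exact mul_nonpos_of_nonneg_of_nonpos p2.le (by by_contra h; nlinarith [not_le.1 h])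
  · intro h1
    exact mul_nonpos_of_nonneg_of_nonpos p1.le (by by_contra h; nlinarith [not_le.1 h])

/-- A point-finite family of closed balls in an infinite-dimensional real Hilbert space does not
cover the space. -/
theorem not_cover [CompleteSpace E] (hE : ¬ FiniteDimensional ℝ E) {c : ι → E} {r : ι → ℝ}
    (hr : ∀ i, 0 < r i) (hfin : ∀ x, {i | ‖x - c i‖ ≤ r i}.Finite) :
    ∃ x, ∀ i, ¬ ‖x - c i‖ ≤ r i := by
  have hperp : ∀ S : Set E, S.Finite → ∃ e : E, ‖e‖ = 1 ∧ ∀ a ∈ S, ⟪a, e⟫ = 0 := by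
    intro S hS
    have : FiniteDimensional ℝ (Submodule.span ℝ S) := FiniteDimensional.span_of_finite ℝ hS
    have hne : (Submodule.span ℝ S)ᗮ ≠ ⊥ := by
      intro h
      rw [Submodule.orthogonal_eq_bot_iff] at h
      rw [h] at this
      exact hE (Submodule.topEquiv.finiteDimensional)
    obtain ⟨v, hv, hv0⟩ := Submodule.exists_mem_ne_zero_of_ne_bot hne
    have hv1 : ‖v‖ ≠ 0 := norm_ne_zero_iff.2 hv0
    refine ⟨‖v‖⁻¹ • v, by rw [norm_smul, norm_inv, norm_norm, inv_mul_cancel₀ hv1], fun a ha => ?_⟩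
    rw [inner_smul_right, (Submodule.mem_orthogonal _ _).1 hv a (Submodule.subset_span ha), mul_zero]
  obtain ⟨o, ρ, hρ, hF0⟩ := regular hr hfin
  set ι' := {i // r i + ρ ≤ ‖c i - o‖}
  set d : ι → ℝ := fun i => ‖c i - o‖ ^ 2 - r i ^ 2 with hd
  have hlt : ∀ i : ι', r i < ‖c i - o‖ := fun i => by linarith [i.2]
  have hd0 : ∀ i : ι', 0 < d i := fun i => by
    have := hlt i; have := hr i; simp only [hd]; nlinarith
  have hdρ : ∀ i : ι', ‖c i - o‖ * ρ ≤ d i := fun i => by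
    have := i.2; have := hr i; simp only [hd]; nlinarith
  set c' : ι' → E := fun i => (d i)⁻¹ • (c i - o) with hc'
  set r' : ι' → ℝ := fun i => r i / d i with hr'
  have hiff : ∀ (i : ι') (w : E), w ≠ 0 →
      (‖w - c' i‖ ≤ r' i ↔ ‖o + (‖w‖ ^ 2)⁻¹ • w - c i‖ ≤ r i) := by
    intro i w hw
    have : o + (‖w‖ ^ 2)⁻¹ • w - c i = (‖w‖ ^ 2)⁻¹ • w - (c i - o) := by abel
    rw [this]
    exact inv_iff (hr i) (hlt i) hw
  have hc'n : ∀ i : ι', ‖c' i‖ = ‖c i - o‖ / d i := fun i => by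
    simp only [hc']
    rw [norm_smul, norm_inv, Real.norm_of_nonneg (hd0 i).le]; ring
  have hrc : ∀ i : ι', r' i < ‖c' i‖ := fun i => by
    rw [hc'n]; exact div_lt_div_of_pos_right (hlt i) (hd0 i)
  have hcM : ∀ i : ι', ‖c' i‖ ≤ 1 / ρ := fun i => by
    rw [hc'n, div_le_div_iff₀ (hd0 i) hρ]; linarith [hdρ i]
  have hF : Fam c' r' (1 / ρ) := by
    refine ⟨fun i => div_pos (hr i) (hd0 i), hcM, fun i => (hrc i).le.trans (hcM i),
      by positivity, fun w => ?_, hperp⟩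
    by_cases hw : w = 0
    · convert Set.finite_empty
      ext i
      simpa [hw] using hrc i
    · refine ((hfin (o + (‖w‖ ^ 2)⁻¹ • w)).preimage Subtype.val_injective.injOn).subset ?_
      intro i hi
      exact (hiff i w hw).1 hi
  have hZ0 : Z c' r' 0 := fun i => by
    rw [zero_sub, norm_neg]
    exact pow_le_pow_left₀ (hF.pos i).le (hrc i).le 2
  obtain ⟨K, hK⟩ := (hF0.image fun i => ‖o - c i‖ + r i).bddAbove
  set ω := 1 / (|K| + 1) with hω
  have hω0 : 0 < ω := by positivity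
  obtain ⟨z, hzZ, hzn, -⟩ := exists_Z_sphere hF hZ0 (σ := ω / 2) (by positivity)
  obtain ⟨p, hp, hpn⟩ := core hF hzZ (δ := ω / 4) (by positivity)
  rw [mem_closedBall, dist_eq_norm] at hp
  rw [sub_zero] at hzn
  have h1 : ‖p‖ ≤ ω := by
    have := norm_sub_norm_le p z; linarith
  have h2 : 0 < ‖p‖ := by
    have := norm_sub_norm_le z p; rw [norm_sub_rev] at this; linarith
  have hp0 : p ≠ 0 := norm_pos_iff.1 h2
  refine ⟨o + (‖p‖ ^ 2)⁻¹ • p, fun i hi => ?_⟩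
  by_cases hc : r i + ρ ≤ ‖c i - o‖
  · exact hpn ⟨i, hc⟩ ((hiff ⟨i, hc⟩ p hp0).2 hi)
  · have h3 : ‖o - c i‖ + r i ≤ K := hK ⟨i, by
      simp only [mem_ofPred_eq]; rw [norm_sub_rev]; exact not_le.1 hc, rfl⟩
    have h4 : ‖(‖p‖ ^ 2)⁻¹ • p‖ = 1 / ‖p‖ := by
      rw [norm_smul, norm_inv, Real.norm_of_nonneg (by positivity)]; field_simp
    have h5 := norm_sub_le (o + (‖p‖ ^ 2)⁻¹ • p - c i) (o - c i)
    have e : o + (‖p‖ ^ 2)⁻¹ • p - c i - (o - c i) = (‖p‖ ^ 2)⁻¹ • p := by abel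
    rw [e, h4] at h5
    have h6 : |K| + 1 ≤ 1 / ‖p‖ := by
      rw [le_div_iff₀ h2]
      rw [hω, le_div_iff₀ (by positivity)] at h1
      linarith
    linarith [le_abs_self K]

end Pool.Agent.H93.Pf
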