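import Mathlib

namespace H93Sd
open Finset

section RH
variable {α : Type*} [DecidableEq α]

/-- Partition theorem for a monotone submodular function, list version. -/
lemma rh_list {k : ℕ} (hk : 0 < k) (E : Finset α) (ρ : Finset α → ℤ)
    (mono : ∀ B C, B ⊆ C → ρ B ≤ ρ C) (sub : ∀ B C, ρ (B ∪ C) + ρ (B ∩ C) ≤ ρ B + ρ C)
    (h0 : ρ ∅ = 0) (n : ℕ) : ∀ L : α → Finset (Fin k), ∑ x ∈ E, (L x).card = n →
      (∀ B ⊆ E, (B.card : ℤ) ≤ ∑ i, ρ (B.filter fun x => i ∈ L x)) →
      ∃ c : α → Fin k, ∀ B ⊆ E, (∀ x ∈ B, ∀ y ∈ B, c x = c y) → (B.card : ℤ) ≤ ρ B := by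
  induction n using Nat.strong_induction_on with
  | _ n ih =>
  intro L hn hL
  by_cases h1 : ∃ x ∈ E, 1 < (L x).card
  · obtain ⟨x, hx, h1⟩ := h1
    obtain ⟨i, hi, j, hj, hij⟩ := one_lt_card.1 h1
    have dec : ∀ l ∈ L x, ∑ y ∈ E, (Function.update L x ((L x).erase l) y).card < n := by
      intro l hl
      rw [← hn]
      refine sum_lt_sum (fun y _ => ?_) ⟨x, hx, ?_⟩
      · by_cases h : y = x
        · subst h; simpa using card_erase_le
        · simp [h]
      · simpa using card_erase_lt_of_mem hl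
    by_contra hcon
    have bad : ∀ l ∈ L x, ∃ J ⊆ E, x ∈ J ∧
        ∑ i, ρ (J.filter fun y => i ∈ Function.update L x ((L x).erase l) y) < J.card := by
      intro l hl
      by_contra h
      push Not at h
      refine hcon (ih _ (dec l hl) _ rfl fun B hB => ?_)
      by_cases hxB : x ∈ B
      · exact h B hB hxB
      · refine (hL B hB).trans (le_of_eq (sum_congr rfl fun i _ => ?_))
        congr 1
        refine filter_congr fun y hy => ?_
        rw [Function.update_of_ne (ne_of_mem_of_not_mem hy hxB)]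
    obtain ⟨J, hJ, hxJ, h2⟩ := bad i hi
    obtain ⟨K, hK, hxK, h3⟩ := bad j hj
    have h4 := hL (J ∪ K) (union_subset hJ hK)
    have h5 := hL ((J ∩ K).erase x) ((erase_subset _ _).trans (inter_subset_left.trans hJ))
    have h6 : ∑ l, ρ ((J ∪ K).filter fun y => l ∈ L y) +
        ∑ l, ρ (((J ∩ K).erase x).filter fun y => l ∈ L y) ≤
        ∑ l, ρ (J.filter fun y => l ∈ Function.update L x ((L x).erase i) y) +
        ∑ l, ρ (K.filter fun y => l ∈ Function.update L x ((L x).erase j) y) := by
      rw [← sum_add_distrib, ← sum_add_distrib]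
      refine sum_le_sum fun l _ => le_trans (add_le_add (mono _ _ ?_) (mono _ _ ?_)) (sub _ _)
      · intro y hy
        simp only [mem_filter, mem_union] at hy ⊢
        by_cases h : y = x
        · subst h
          simp only [Function.update_self, mem_erase]
          by_cases hl : l = i
          · exact Or.inr ⟨hxK, hl ▸ hij, hy.2⟩
          · exact Or.inl ⟨hxJ, hl, hy.2⟩
        · simp only [Function.update_of_ne h]
          tauto
      · intro y hy
        simp only [mem_filter, mem_inter, mem_erase] at hy ⊢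
        simp only [Function.update_of_ne hy.1.1]
        tauto
    have h7 := card_union_add_card_inter J K
    have h8 := card_erase_add_one (mem_inter.2 ⟨hxJ, hxK⟩)
    omega
  · push Not at h1
    refine ⟨fun x => if h : (L x).Nonempty then h.choose else ⟨0, hk⟩, fun B hB hc => ?_⟩
    rcases B.eq_empty_or_nonempty with rfl | ⟨x, hx⟩
    · simp [h0]
    refine (hL B hB).trans ?_
    rw [sum_eq_single (if h : (L x).Nonempty then h.choose else ⟨0, hk⟩)]
    · exact mono _ _ (filter_subset _ _)
    · intro l _ hl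
      rw [filter_eq_empty_iff.2, h0]
      intro y hy hly
      apply hl
      have hne : (L y).Nonempty := ⟨l, hly⟩
      have := hc x hx y hy
      simp only [dif_pos hne] at this
      rw [this]
      exact card_le_one.1 (h1 y (hB hy)) _ hly _ hne.choose_spec
    · simp

lemma rh {k : ℕ} (hk : 0 < k) (E : Finset α) (ρ : Finset α → ℤ)
    (mono : ∀ B C, B ⊆ C → ρ B ≤ ρ C) (sub : ∀ B C, ρ (B ∪ C) + ρ (B ∩ C) ≤ ρ B + ρ C)
    (h0 : ρ ∅ = 0) (h : ∀ B ⊆ E, (B.card : ℤ) ≤ k * ρ B) :
    ∃ c : α → Fin k, ∀ B ⊆ E, (∀ x ∈ B, ∀ y ∈ B, c x = c y) → (B.card : ℤ) ≤ ρ B :=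
  rh_list hk E ρ mono sub h0 _ (fun _ => univ) rfl fun B hB => by simpa using h B hB

end RH

variable {A : Type*} [AddCommGroup A] [DecidableEq A]

/-- Span of a finite set together with a subgroup. -/
def sp (P : AddSubgroup A) (B : Finset A) : AddSubgroup A := P ⊔ AddSubgroup.closure (B : Set A)

omit [DecidableEq A] in
lemma sp_mono (P : AddSubgroup A) {B C : Finset A} (h : B ⊆ C) : sp P B ≤ sp P C :=
  sup_le_sup_left (AddSubgroup.closure_mono (coe_subset.2 h)) _

lemma sp_union (P : AddSubgroup A) (B C : Finset A) : sp P (B ∪ C) = sp P B ⊔ sp P C := by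
  rw [sp, sp, sp, coe_union, AddSubgroup.closure_union, sup_sup_distrib_left]

lemma sp_insert (P : AddSubgroup A) (x : A) (B : Finset A) :
    sp P (insert x B) = sp P B ⊔ AddSubgroup.zmultiples x := by
  rw [sp, sp, coe_insert, Set.insert_eq, AddSubgroup.closure_union,
    ← AddSubgroup.zmultiples_eq_closure, sup_assoc, sup_comm (AddSubgroup.zmultiples x)]

omit [DecidableEq A] in
lemma rel_step {p : ℕ} (hp : p.Prime) {Q : AddSubgroup A} {x : A} (hx : p • x ∈ Q) (h : x ∉ Q) :
    Q.relIndex (Q ⊔ AddSubgroup.zmultiples x) = p := by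
  rw [AddSubgroup.relIndex_sup_left]
  have h1 : Q.relIndex (AddSubgroup.zmultiples x) ∣ p := by
    rw [← AddSubgroup.range_zmultiplesHom, ← AddSubgroup.index_comap]
    have : AddSubgroup.zmultiples (p : ℤ) ≤ Q.comap (zmultiplesHom A x) := by
      rw [AddSubgroup.zmultiples_le]
      simpa using hx
    simpa using AddSubgroup.index_dvd_of_le this
  refine ((Nat.dvd_prime hp).1 h1).resolve_left fun h2 => h ?_
  exact AddSubgroup.relIndex_eq_one.1 h2 (AddSubgroup.mem_zmultiples x)

lemma idx_step {p : ℕ} (hp : p.Prime) {P : AddSubgroup A} {x : A} (hx : p • x ∈ P)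
    (B : Finset A) (h : x ∉ sp P B) :
    P.relIndex (sp P (insert x B)) = P.relIndex (sp P B) * p := by
  rw [sp_insert, ← rel_step hp (le_sup_left (b := AddSubgroup.closure (B : Set A)) hx) h]
  exact (AddSubgroup.relIndex_mul_relIndex _ _ _ le_sup_left le_sup_left).symm

lemma sp_insert_of_mem {P : AddSubgroup A} {x : A} {B : Finset A} (h : x ∈ sp P B) :
    sp P (insert x B) = sp P B := by
  rw [sp_insert, sup_eq_left.2 (AddSubgroup.zmultiples_le.2 h)]

/-- There is a rank function with the expected increments. -/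
lemma exists_rank {p : ℕ} (hp : p.Prime) (P : AddSubgroup A) (T : Finset A)
    (hT : ∀ x ∈ T, p • x ∈ P) : ∃ r : Finset A → ℕ, r ∅ = 0 ∧
      (∀ B C, sp P B = sp P C → r B = r C) ∧
      ∀ B ⊆ T, ∀ x ∈ T, x ∉ sp P B → r (insert x B) = r B + 1 := by
  have ne : ∀ B ⊆ T, P.relIndex (sp P B) ≠ 0 := by
    intro B
    induction B using Finset.induction_on with
    | empty => simp [sp]
    | insert x B _ ih =>
      intro h
      have := ih ((subset_insert _ _).trans h)
      by_cases hx : x ∈ sp P B
      · rwa [sp_insert_of_mem hx]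
      · rw [idx_step hp (hT x (h (mem_insert_self _ _))) B hx]
        exact mul_ne_zero this hp.ne_zero
  refine ⟨fun B => (P.relIndex (sp P B)).factorization p, by simp [sp],
    fun B C h => by simp only [h], fun B hB x hx h => ?_⟩
  simp only [idx_step hp (hT x hx) B h, Nat.factorization_mul (ne B hB) hp.ne_zero]
  simp [hp.factorization_self]

end H93Sd
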