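import Pool.Agent.H93.Sd1

namespace H93Sd
open Finset

variable {A : Type*} [AddCommGroup A] [DecidableEq A]

lemma exists_rank' {p : ℕ} (hp : p.Prime) (P : AddSubgroup A) (T : Finset A)
    (hT : ∀ x ∈ T, p • x ∈ P) : ∃ r : Finset A → ℕ, r ∅ = 0 ∧
      (∀ B C, sp P B = sp P C → r B = r C) ∧
      (∀ B ⊆ T, ∀ C ⊆ T, r C ≤ r (B ∪ C) ∧ r (B ∪ C) ≤ r C + B.card) ∧
      (∀ B ⊆ T, ∀ C ⊆ T, r (B ∪ C) + r (B ∩ C) ≤ r B + r C) ∧
      ∃ I ⊆ T, I.card ≤ r T ∧ ∀ x ∈ T, x ∈ sp P I := by
  obtain ⟨r, h0, h1, h2⟩ := exists_rank hp P T hT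
  have h3 : ∀ B x, x ∈ sp P B → r (insert x B) = r B := fun B x h => h1 _ _ (sp_insert_of_mem h)
  have h4 : ∀ B ⊆ T, ∀ C ⊆ T, r C ≤ r (B ∪ C) ∧ r (B ∪ C) ≤ r C + B.card := by
    intro B hB C hC
    induction B using Finset.induction_on with
    | empty => simp
    | insert x B hx ih =>
      have hB' := (subset_insert _ _).trans hB
      have := ih hB'
      rw [insert_union, card_insert_of_notMem hx]
      by_cases h : x ∈ sp P (B ∪ C)
      · rw [h3 _ _ h]; omega
      · rw [h2 _ (union_subset hB' hC) x (hB (mem_insert_self _ _)) h]; omega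
  have h5 : ∀ B ⊆ T, ∀ C ⊆ T, ∀ D ⊆ C, r (B ∪ C) + r D ≤ r (B ∪ D) + r C := by
    intro B hB C hC D hD
    induction B using Finset.induction_on with
    | empty => simp [add_comm]
    | insert x B hx ih =>
      have hB' := (subset_insert _ _).trans hB
      have hxT := hB (mem_insert_self _ _)
      have := ih hB'
      rw [insert_union, insert_union]
      by_cases h : x ∈ sp P (B ∪ D)
      · rw [h3 _ _ h, h3 _ _ (sp_mono P (union_subset_union_right hD) h)]; exact this
      · rw [h2 _ (union_subset hB' (hD.trans hC)) x hxT h]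
        by_cases h' : x ∈ sp P (B ∪ C)
        · rw [h3 _ _ h']; omega
        · rw [h2 _ (union_subset hB' hC) x hxT h']; omega
  have h6 : ∀ B ⊆ T, ∃ I ⊆ B, I.card ≤ r B ∧ sp P I = sp P B := by
    intro B hB
    induction B using Finset.induction_on with
    | empty => exact ⟨∅, subset_rfl, by simp, rfl⟩
    | insert x B hx ih =>
      have hB' := (subset_insert _ _).trans hB
      obtain ⟨I, a1, a2, a3⟩ := ih hB'
      by_cases h : x ∈ sp P B
      · exact ⟨I, a1.trans (subset_insert _ _), by rwa [h3 _ _ h], by rw [sp_insert_of_mem h, a3]⟩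
      · refine ⟨insert x I, insert_subset_insert _ a1, ?_, by rw [sp_insert, sp_insert, a3]⟩
        rw [h2 _ hB' x (hB (mem_insert_self _ _)) h]
        exact (card_insert_le _ _).trans (by omega)
  refine ⟨r, h0, h1, h4, fun B hB C hC => ?_, ?_⟩
  · have := h5 B hB C hC (B ∩ C) inter_subset_right
    rwa [union_eq_left.2 (inter_subset_left (s₁ := B) (s₂ := C))] at this
  · obtain ⟨I, a1, a2, a3⟩ := h6 T subset_rfl
    exact ⟨I, a1, a2, fun x hx => a3 ▸ le_sup_right (a := P) (AddSubgroup.subset_closure hx)⟩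

/-- Multiples of the subgroup generated by `T`. -/
def mp (p : ℕ) (T : Finset A) : AddSubgroup A :=
  (AddSubgroup.closure (T : Set A)).map (nsmulAddMonoidHom p)

omit [DecidableEq A] in
lemma nakayama {N : ℕ} (hN : N ≠ 0) (hA : ∀ x : A, N • x = 0) {T I : Finset A}
    (h : ∀ p, p.Prime → p ∣ N → ∀ x ∈ T, x ∈ sp (mp p T) I) :
    ∀ x ∈ T, x ∈ AddSubgroup.closure (I : Set A) := by
  have key : ∀ n, n ∣ N → ∀ x ∈ AddSubgroup.closure (T : Set A),
      ∃ y ∈ AddSubgroup.closure (T : Set A), x - n • y ∈ AddSubgroup.closure (I : Set A) := by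
    intro n
    induction n using induction_on_primes with
    | zero => intro h0; exact absurd (zero_dvd_iff.1 h0) hN
    | one => intro _ x hx; exact ⟨x, hx, by simp⟩
    | prime_mul p m hp ih =>
      intro hd x hx
      have h1 : AddSubgroup.closure (T : Set A) ≤ sp (mp p T) I :=
        (AddSubgroup.closure_le _).2 fun z hz => h p hp (dvd_of_mul_right_dvd hd) z hz
      obtain ⟨_, ⟨y, hy, rfl⟩, w, hw, hs⟩ := AddSubgroup.mem_sup.1 (h1 hx)
      obtain ⟨z, hz, hz'⟩ := ih (dvd_of_mul_left_dvd hd) y hy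
      refine ⟨z, hz, ?_⟩
      have : x - (p * m) • z = w + p • (y - m • z) := by
        rw [← hs, nsmulAddMonoidHom_apply, smul_sub, mul_smul]; abel
      rw [this]
      exact add_mem hw (AddSubgroup.nsmul_mem _ hz' _)
  intro x hx
  obtain ⟨y, -, hy⟩ := key N dvd_rfl x (AddSubgroup.subset_closure hx)
  simpa [hA] using hy

/-- No relation with coefficients `±1`. -/
def Free (S : Finset A) : Prop :=
  ∀ ξ : A → ℤ, (∀ x ∈ S, ξ x = 1 ∨ ξ x = -1) → ∑ x ∈ S, ξ x • x = 0 → S = ∅

theorem chain {N k : ℕ} (hN : N ≠ 0) (hA : ∀ x : A, N • x = 0) {Λ : Set A}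
    (h : ∀ T I : Finset A, (T : Set A) ⊆ Λ → I ⊆ T →
      (∀ x ∈ T, x ∈ AddSubgroup.closure (I : Set A)) → T.card ≤ k * I.card) (T : Finset A) :
    (T : Set A) ⊆ Λ → ∃ c : A → Fin (k * N + 1), ∀ S ⊆ T, (∀ x ∈ S, ∀ y ∈ S, c x = c y) →
      Free S := by
  induction T using Finset.strongInduction with
  | H T ih =>
  intro hT
  rcases T.eq_empty_or_nonempty with rfl | hne
  · exact ⟨fun _ => 0, fun S hS _ _ _ _ => subset_empty.1 hS⟩
  have hr := fun p (hp : p.Prime) => exists_rank' hp (mp p T) T fun x hx =>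
    ⟨x, AddSubgroup.subset_closure hx, rfl⟩
  choose! r h0 h1 h2 h3 I h4 h5 h6 using hr
  have big : ∃ p, p.Prime ∧ T.card < (k * N + 1) * r p T := by
    have a1 : N.primeFactors.biUnion I ⊆ T :=
      biUnion_subset.2 fun p hp => h4 p (Nat.prime_of_mem_primeFactors hp)
    have a2 := h T _ hT a1 (nakayama hN hA fun p hp hd x hx =>
      sp_mono _ (subset_biUnion_of_mem I (Nat.mem_primeFactors.2 ⟨hp, hd, hN⟩)) (h6 p hp x hx))
    have a3 := hne.card_pos
    rcases N.primeFactors.eq_empty_or_nonempty with he | he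
    · simp [he] at a2; simp [a2] at hne
    obtain ⟨p, hp, hm⟩ := exists_max_image _ (fun p => r p T) he
    refine ⟨p, Nat.prime_of_mem_primeFactors hp, ?_⟩
    have a4 : (N.primeFactors.biUnion I).card ≤ N * r p T := by
      refine card_biUnion_le.trans ((sum_le_card_nsmul _ _ (r p T) fun q hq =>
        (h5 q (Nat.prime_of_mem_primeFactors hq)).trans (hm q hq)).trans ?_)
      rw [smul_eq_mul]
      gcongr
      refine (card_le_card (t := Icc 1 N) fun q hq => ?_).trans (by simp)
      exact mem_Icc.2 ⟨(Nat.prime_of_mem_primeFactors hq).one_le, Nat.le_of_mem_primeFactors hq⟩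
    have a5 : T.card ≤ k * N * r p T := a2.trans (by rw [mul_assoc]; gcongr)
    have a6 : 0 < r p T := by
      by_contra h0
      simp only [not_lt, nonpos_iff_eq_zero] at h0
      rw [h0] at a5; omega
    rw [add_mul]; omega
  obtain ⟨p, hp, big⟩ := big
  obtain ⟨T', hT', hm⟩ := exists_max_image T.powerset
    (fun B => (B.card : ℤ) - ((k * N + 1 : ℕ) : ℤ) * r p B) ⟨∅, empty_mem_powerset _⟩
  rw [mem_powerset] at hT'
  have hlt : T' ⊂ T := by
    refine ssubset_of_ne_of_subset (fun he => ?_) hT'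
    have := hm ∅ (empty_mem_powerset _)
    rw [he, h0 p hp] at this
    have b : (T.card : ℤ) < ((k * N + 1 : ℕ) : ℤ) * r p T := by exact_mod_cast big
    simp only [card_empty, Nat.cast_zero, mul_zero, sub_zero] at this
    linarith
  obtain ⟨c', hc'⟩ := ih T' hlt ((coe_subset.2 hT').trans hT)
  obtain ⟨c, hc⟩ := rh (k := k * N + 1) (Nat.succ_pos _) (T \ T')
    (fun B => (r p (B ∩ T ∪ T') : ℤ) - r p T') (fun B C hBC => by
      have := (h2 p hp (C ∩ T) inter_subset_right (B ∩ T ∪ T')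
        (union_subset inter_subset_right hT')).1
      rw [← union_assoc, union_eq_left.2 (inter_subset_inter_right hBC)] at this
      simpa using this) (fun B C => by
      have := h3 p hp (B ∩ T ∪ T') (union_subset inter_subset_right hT') (C ∩ T ∪ T')
        (union_subset inter_subset_right hT')
      have e1 : B ∩ T ∪ T' ∪ (C ∩ T ∪ T') = (B ∪ C) ∩ T ∪ T' := by
        ext; simp only [mem_union, mem_inter]; tauto
      have e2 : (B ∩ T ∪ T') ∩ (C ∩ T ∪ T') = B ∩ C ∩ T ∪ T' := by
        ext; simp only [mem_union, mem_inter]; tauto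
      rw [e1, e2] at this
      omega) (by simp) (fun B hB => by
      have hBT : B ⊆ T := hB.trans sdiff_subset
      have := hm (B ∪ T') (mem_powerset.2 (union_subset hBT hT'))
      rw [card_union_of_disjoint (disjoint_of_subset_left hB sdiff_disjoint)] at this
      rw [inter_eq_left.2 hBT]
      push_cast at this ⊢
      linarith)
  refine ⟨fun x => if x ∈ T' then c' x else c x, fun S hS hm ξ hξ hs => ?_⟩
  rcases (S \ T').eq_empty_or_nonempty with he | ⟨x, hx⟩
  · rw [sdiff_eq_empty_iff_subset] at he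
    exact hc' S he (fun x hx y hy => by simpa [he hx, he hy] using hm x hx y hy) ξ hξ hs
  exfalso
  have b1 := hc (S \ T') (sdiff_subset_sdiff hS subset_rfl) fun x hx y hy => by
    simpa [(mem_sdiff.1 hx).2, (mem_sdiff.1 hy).2] using
      hm x (mem_sdiff.1 hx).1 y (mem_sdiff.1 hy).1
  have hST : S \ T' ⊆ T := sdiff_subset.trans hS
  simp only [inter_eq_left.2 hST] at b1
  have hxS := (mem_sdiff.1 hx).1
  have b2 : x ∈ sp (mp p T) ((S \ T').erase x ∪ T') := by
    refine le_sup_right (a := mp p T) ?_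
    have m1 : ∑ y ∈ S.erase x, ξ y • y ∈
        AddSubgroup.closure (((S \ T').erase x ∪ T' : Finset A) : Set A) := by
      refine sum_mem fun y hy => AddSubgroup.zsmul_mem _ (AddSubgroup.subset_closure ?_) _
      simp only [mem_erase, coe_union, coe_erase, coe_sdiff, Set.mem_union, Set.mem_sdiff,
        mem_coe, Set.mem_singleton_iff] at hy ⊢
      tauto
    rw [← add_sum_erase _ _ hxS] at hs
    rcases hξ x hxS with h | h
    · rw [h, one_smul, add_eq_zero_iff_eq_neg] at hs
      have := neg_mem m1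
      rwa [← hs] at this
    · rw [h, neg_smul, one_smul, neg_add_eq_zero] at hs
      rwa [← hs] at m1
  have b3 := h1 p hp _ _ (sp_insert_of_mem b2)
  rw [← insert_union, insert_erase hx] at b3
  have b4 := (h2 p hp ((S \ T').erase x) ((erase_subset _ _).trans hST) T' hT').2
  have b5 := card_erase_add_one hx
  omega

/-- Quasi-independent sets. -/
def QI (L : Set A) : Prop :=
  ∀ (S : Finset A) (ξ : A → ℤ), (S : Set A) ⊆ L → (∀ x ∈ S, ξ x = -1 ∨ ξ x = 0 ∨ ξ x = 1) →
    ∑ x ∈ S, ξ x • x = 0 → ∀ x ∈ S, ξ x = 0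

theorem core {N k : ℕ} (hN : N ≠ 0) (hA : ∀ x : A, N • x = 0) {Λ : Set A}
    (h : ∀ T I : Finset A, (T : Set A) ⊆ Λ → I ⊆ T →
      (∀ x ∈ T, x ∈ AddSubgroup.closure (I : Set A)) → T.card ≤ k * I.card) :
    ∃ (m : ℕ) (L : Fin m → Set A), (∀ i, QI (L i)) ∧ Λ = ⋃ i, L i := by
  classical
  choose g hg using fun T : Finset A => chain hN hA h (T.filter (· ∈ Λ)) (by
    intro x hx; exact (mem_filter.1 hx).2)
  obtain ⟨χ, hχ⟩ := Finset.rado_selection (β := fun _ => Fin (k * N + 1)) g
  refine ⟨_, fun i => {x | x ∈ Λ ∧ χ x = i}, fun i S ξ hS hξ hs => ?_, ?_⟩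
  · obtain ⟨t, ht, hx⟩ := hχ S
    have := hg t (S.filter (ξ · ≠ 0))
      (fun x hx => mem_filter.2 ⟨ht (mem_filter.1 hx).1, (hS (mem_filter.1 hx).1).1⟩)
      (fun x h1 y h2 => by
        rw [← hx x (mem_filter.1 h1).1, ← hx y (mem_filter.1 h2).1,
          (hS (mem_filter.1 h1).1).2, (hS (mem_filter.1 h2).1).2]) ξ
      (fun x hx => by have := hξ x (mem_filter.1 hx).1; have := (mem_filter.1 hx).2; tauto)
      (by rw [sum_filter_of_ne, hs]; intro x _ h h0; simp [h0] at h)
    intro x hx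
    simpa using filter_eq_empty_iff.1 this hx
  · ext x; simp

end H93Sd
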