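import Pool.Agent.H93.Sd2
import Pool.Agent.H93.Lu5

namespace H93Sd
open Finset MeasureTheory

variable {A : Type*} [AddCommGroup A] [DecidableEq A] {Ω : Type*}

/-- A family of unimodular functions indexed additively. -/
structure Chars (γ : A → Ω → ℂ) : Prop where
  zero : ∀ t, γ 0 t = 1
  add : ∀ x y t, γ (x + y) t = γ x t * γ y t
  norm : ∀ x t, ‖γ x t‖ = 1

omit [DecidableEq A] in
lemma Chars.neg {γ : A → Ω → ℂ} (h : Chars γ) (x : A) (t : Ω) :
    γ (-x) t = (starRingEnd ℂ) (γ x t) := by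
  have h1 := h.add x (-x) t
  rw [add_neg_cancel, h.zero] at h1
  rw [← Complex.inv_eq_conj (h.norm x t)]
  exact eq_inv_of_mul_eq_one_right h1.symm

omit [DecidableEq A] in
lemma Chars.pow {γ : A → Ω → ℂ} (h : Chars γ) (x : A) (t : Ω) (n : ℕ) :
    γ (n • x) t = γ x t ^ n := by
  induction n with
  | zero => simp [h.zero]
  | succ n ih => rw [succ_nsmul, h.add, ih, pow_succ]

omit [DecidableEq A] in
lemma reps [Nonempty Ω] {γ : A → Ω → ℂ} (h : Chars γ) {N : ℕ} (hN : N ≠ 0)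
    (hA : ∀ x : A, N • x = 0) (I : Finset A) : ∃ U : Finset Ω, U.card ≤ N ^ I.card ∧
      ∀ t, ∃ u ∈ U, ∀ x ∈ AddSubgroup.closure (I : Set A), γ x t = γ x u := by
  classical
  let Φ : Ω → I → ℂ := fun t x => γ x t
  let R := Polynomial.nthRootsFinset N (1 : ℂ)
  have hR : R.card ≤ N := (Multiset.toFinset_card_le _).trans (Polynomial.card_nthRoots _ _)
  refine ⟨(Fintype.piFinset fun _ : I => R).image (Function.invFun Φ), card_image_le.trans ?_,
    fun t => ⟨Function.invFun Φ (Φ t), mem_image_of_mem _ (Fintype.mem_piFinset.2 fun x => ?_),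
      fun x hx => ?_⟩⟩
  · rw [Fintype.card_piFinset, prod_const, card_univ, Fintype.card_coe]
    gcongr
  · rw [Polynomial.mem_nthRootsFinset (Nat.pos_of_ne_zero hN), ← h.pow, hA, h.zero]
  · have e : Φ (Function.invFun Φ (Φ t)) = Φ t := Function.invFun_eq ⟨t, rfl⟩
    induction hx using AddSubgroup.closure_induction with
    | mem x hx => exact (congrFun e ⟨x, hx⟩).symm
    | zero => rw [h.zero, h.zero]
    | add x y _ _ h1 h2 => rw [h.add, h.add, h1, h2]
    | neg x _ h1 => rw [h.neg, h.neg, h1]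

omit [DecidableEq A] in
lemma card_pos_of {Λ : Set A} (h0 : (0 : A) ∉ Λ) {T I : Finset A} (hT : (T : Set A) ⊆ Λ)
    (hne : T.Nonempty) (h : ∀ x ∈ T, x ∈ AddSubgroup.closure (I : Set A)) : 1 ≤ I.card := by
  rcases I.eq_empty_or_nonempty with rfl | hI
  · obtain ⟨x, hx⟩ := hne
    have := h x hx
    simp only [coe_empty, AddSubgroup.closure_empty, AddSubgroup.mem_bot] at this
    exact absurd (this ▸ hT hx) h0
  · exact hI.card_pos

lemma pow_le_exp' (N n : ℕ) : ((N ^ n : ℕ) : ℝ) ≤ Real.exp (N * n) := by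
  rw [mul_comm, Real.exp_nat_mul]; push_cast
  gcongr
  linarith [Real.add_one_le_exp (N : ℝ)]

/-- Four directions. -/
noncomputable def dir : Fin 4 → ℂ := ![1, -1, Complex.I, -Complex.I]

lemma norm_dir (u : Fin 4) : ‖dir u‖ = 1 := by fin_cases u <;> simp [dir]

lemma exists_dir (z : ℂ) : ∃ u, ‖z‖ ≤ 2 * (dir u * z).re := by
  have := Complex.norm_le_abs_re_add_abs_im z
  rcases le_total |z.re| |z.im| with h | h
  · rcases abs_cases z.im with h1 | h1
    · exact ⟨3, by simp [dir]; linarith [h1.1]⟩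
    · exact ⟨2, by simp [dir]; linarith [h1.1]⟩
  · rcases abs_cases z.re with h1 | h1
    · exact ⟨0, by simp [dir]; linarith [h1.1]⟩
    · exact ⟨1, by simp [dir]; linarith [h1.1]⟩

theorem sidon_qi [Nonempty Ω] {γ : A → Ω → ℂ} (h : Chars γ) {N : ℕ} (hN : N ≠ 0)
    (hA : ∀ x : A, N • x = 0) {Λ : Set A} (h0 : (0 : A) ∉ Λ) {C : ℝ}
    (hC : ∀ (s : Finset A) (a : A → ℂ), (s : Set A) ⊆ Λ →
      ∑ x ∈ s, ‖a x‖ ≤ C * ⨆ t, ‖∑ x ∈ s, a x * γ x t‖) :
    ∃ (m : ℕ) (L : Fin m → Set A), (∀ i, QI (L i)) ∧ Λ = ⋃ i, L i := by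
  refine core (k := ⌈8 * C ^ 2 * (N + 2)⌉₊) hN hA fun T I hT _ hI => ?_
  rcases T.eq_empty_or_nonempty with rfl | hne
  · simp
  have hI1 : (1 : ℝ) ≤ I.card := by exact_mod_cast card_pos_of h0 hT hne hI
  have n0 : (0 : ℝ) < T.card := by exact_mod_cast hne.card_pos
  obtain ⟨U, hU, hrep⟩ := reps h hN hA I
  set s := Real.sqrt (2 * T.card * (N * I.card + 2)) with hs
  have s2 : s ^ 2 = 2 * T.card * (N * I.card + 2) := Real.sq_sqrt (by positivity)
  have s0 : 0 < s := Real.sqrt_pos.2 (by positivity)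
  let g : Ω × Fin 4 → T → Bool → ℝ := fun q x b => H93Lu.sg b * (dir q.2 * γ x q.1).re
  have t1 : ∀ q, ∑ w : T → Bool, Real.exp (s / (Fintype.card T * 1 ^ 2) *
      (∑ x, g q x (w x) - s)) ≤ Fintype.card (T → Bool) * Real.exp (-(N * I.card + 2)) := by
    intro q
    refine (H93Lu.tail (b := 1) Equiv.boolNot (g q) (fun x b => by simp [g, H93Lu.sg_not])
      (fun x b => ?_) s).trans (le_of_eq ?_)
    · simp only [g]
      rw [abs_mul, H93Lu.abs_sg, one_mul]
      refine (Complex.abs_re_le_norm _).trans ?_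
      rw [norm_mul, norm_dir, h.norm, one_mul]
    · rw [s2, Fintype.card_coe]; congr 3; field_simp
  have key : ∑ w : T → Bool, ∑ q ∈ U ×ˢ univ, Real.exp (s / (Fintype.card T * 1 ^ 2) *
      (∑ x, g q x (w x) - s)) < ∑ _w : T → Bool, (1 : ℝ) := by
    rw [sum_comm]
    refine (sum_le_sum fun q _ => t1 q).trans_lt ?_
    have c0 : (0 : ℝ) < Fintype.card (T → Bool) := by exact_mod_cast Fintype.card_pos
    rw [sum_const, sum_const, card_product, card_univ, card_univ, nsmul_eq_mul, nsmul_eq_mul,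
      mul_left_comm]
    gcongr
    have a1 : (U.card : ℝ) ≤ Real.exp (N * I.card) :=
      le_trans (by exact_mod_cast hU) (pow_le_exp' N I.card)
    have a2 : (4 : ℝ) < Real.exp 2 := by
      have := Real.add_one_lt_exp (x := 1) one_ne_zero
      rw [show (2 : ℝ) = 1 + 1 by norm_num, Real.exp_add]; nlinarith
    rw [Real.exp_neg, Real.exp_add, mul_inv_lt_iff₀ (by positivity), one_mul]
    simp only [Fintype.card_fin, Nat.cast_mul, Nat.cast_ofNat]
    calc _ ≤ Real.exp (N * I.card) * 4 := by gcongr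
      _ < _ := by gcongr
  obtain ⟨w, -, hw⟩ := exists_lt_of_sum_lt key
  have q1 : ∀ q ∈ U ×ˢ univ, ∑ x, g q x (w x) < s := fun q hq => by
    have := (single_le_sum (f := fun q => Real.exp (s / (Fintype.card T * 1 ^ 2) *
      (∑ x, g q x (w x) - s))) (fun x _ => (Real.exp_pos _).le) hq).trans_lt hw
    rw [Real.exp_lt_one_iff, Fintype.card_coe] at this
    have : 0 < s / (T.card * 1 ^ 2) := by positivity
    nlinarith
  let a : A → ℂ := fun x => if hx : x ∈ T then H93Lu.sg (w ⟨x, hx⟩) else 0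
  have b1 := hC T a hT
  have b2 : ∑ x ∈ T, ‖a x‖ = T.card := by
    rw [card_eq_sum_ones, Nat.cast_sum]
    refine sum_congr rfl fun x hx => ?_
    simp [a, hx, H93Lu.abs_sg]
  have b3 : ∀ t, ‖∑ x ∈ T, a x * γ x t‖ ≤ 2 * s := by
    intro t
    obtain ⟨u, hu, hu'⟩ := hrep t
    obtain ⟨d, hd⟩ := exists_dir (∑ x ∈ T, a x * γ x t)
    refine hd.trans ?_
    have := q1 (u, d) (mem_product.2 ⟨hu, mem_univ _⟩)
    refine mul_le_mul_of_nonneg_left (le_trans (le_of_eq ?_) this.le) (by norm_num)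
    rw [mul_sum, Complex.re_sum, ← sum_coe_sort T]
    refine sum_congr rfl fun x _ => ?_
    simp only [a, g, x.2, dif_pos, hu' x (hI x x.2)]
    rw [mul_left_comm, Complex.re_ofReal_mul]
  have b4 : ⨆ t, ‖∑ x ∈ T, a x * γ x t‖ ≤ 2 * s := ciSup_le b3
  have b5 : 0 ≤ ⨆ t, ‖∑ x ∈ T, a x * γ x t‖ := Real.iSup_nonneg fun _ => norm_nonneg _
  have b6 : (T.card : ℝ) ≤ |C| * (2 * s) := by
    rw [← b2]
    exact b1.trans ((mul_le_mul_of_nonneg_right (le_abs_self C) b5).trans (by gcongr))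
  have b7 : (T.card : ℝ) ^ 2 ≤ (|C| * (2 * s)) ^ 2 := by gcongr
  rw [mul_pow, mul_pow, s2, sq_abs] at b7
  have b8 : (T.card : ℝ) ≤ 8 * C ^ 2 * (N * I.card + 2) := by nlinarith
  have b9 : (T.card : ℝ) ≤ (⌈8 * C ^ 2 * (N + 2)⌉₊ : ℝ) * I.card := by
    refine b8.trans (le_trans ?_ (mul_le_mul_of_nonneg_right (Nat.le_ceil _) (by positivity)))
    rw [mul_assoc (8 * C ^ 2)]
    gcongr
    linarith
  exact_mod_cast b9

end H93Sd
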