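import Pool.Agent.H93.Sd3

namespace H93Sd
open Finset MeasureTheory

variable {A : Type*} [AddCommGroup A] [DecidableEq A] {Ω : Type*} [MeasurableSpace Ω]
  {m : Measure Ω} [IsProbabilityMeasure m]

/-- The `ψ₂` norm. -/
noncomputable def psi2 (m : Measure Ω) (f : Ω → ℂ) : ℝ :=
  sInf {c : ℝ | 0 < c ∧ ∫ t, Real.exp (‖f t‖ ^ 2 / c ^ 2) ∂m ≤ Real.exp 1}

lemma int_of_bdd {f : Ω → ℝ} (hf : Measurable f) {M : ℝ} (h : ∀ t, |f t| ≤ M) : Integrable f m :=
  Integrable.of_bound hf.aestronglyMeasurable M (ae_of_all _ h)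

lemma int_exp {f : Ω → ℝ} (hf : Measurable f) {M : ℝ} (h : ∀ t, f t ≤ M) :
    Integrable (fun t => Real.exp (f t)) m :=
  int_of_bdd hf.exp (M := Real.exp M) fun t => by
    rw [Real.abs_exp]; exact Real.exp_le_exp.2 (h t)

omit [DecidableEq A] [MeasurableSpace Ω] in
lemma norm_poly {γ : A → Ω → ℂ} (h : Chars γ) (s : Finset A) (a : A → ℂ) (t : Ω) :
    ‖∑ x ∈ s, a x * γ x t‖ ≤ ∑ x ∈ s, ‖a x‖ :=
  (norm_sum_le _ _).trans (le_of_eq (sum_congr rfl fun x _ => by rw [norm_mul, h.norm, mul_one]))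

theorem subg_qi {γ : A → Ω → ℂ} (h : Chars γ) (hm : ∀ x, Measurable (γ x)) {N : ℕ} (hN : N ≠ 0)
    (hA : ∀ x : A, N • x = 0) {Λ : Set A} (h0 : (0 : A) ∉ Λ) {C : ℝ}
    (hC : ∀ (s : Finset A) (a : A → ℂ), (s : Set A) ⊆ Λ →
      psi2 m (fun t => ∑ x ∈ s, a x * γ x t) ≤ C * Real.sqrt (∑ x ∈ s, ‖a x‖ ^ 2)) :
    ∃ (k : ℕ) (L : Fin k → Set A), (∀ i, QI (L i)) ∧ Λ = ⋃ i, L i := by
  have : Nonempty Ω := nonempty_of_isProbabilityMeasure m
  refine core (k := ⌈(C + 1) ^ 2 * (N + 1)⌉₊) hN hA fun T I hT _ hI => ?_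
  rcases T.eq_empty_or_nonempty with rfl | hne
  · simp
  have hI1 : (1 : ℝ) ≤ I.card := by exact_mod_cast card_pos_of h0 hT hne hI
  have n0 : (0 : ℝ) < T.card := by exact_mod_cast hne.card_pos
  obtain ⟨U, hU, hrep⟩ := reps h hN hA I
  let F : Ω → Set Ω := fun u => ⋂ x ∈ T, γ x ⁻¹' {γ x u}
  have hF : ∀ u, MeasurableSet (F u) := fun u =>
    T.measurableSet_biInter fun x _ => hm x (measurableSet_singleton _)
  have a1 : (1 : ℝ) ≤ ∑ u ∈ U, m.real (F u) := by
    refine le_trans ?_ (measureReal_biUnion_finset_le U F)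
    rw [Set.eq_univ_of_forall (s := ⋃ u ∈ U, F u) fun t => ?_, probReal_univ]
    obtain ⟨u, hu, hu'⟩ := hrep t
    exact Set.mem_biUnion hu (Set.mem_iInter₂.2 fun x hx => hu' x (hI x hx))
  obtain ⟨u, -, hu⟩ : ∃ u ∈ U, Real.exp (-(N * I.card)) ≤ m.real (F u) := by
    refine exists_le_of_sum_le ?_ (le_trans ?_ a1)
    · obtain ⟨u, hu, -⟩ := hrep (Classical.arbitrary Ω); exact ⟨u, hu⟩
    · rw [sum_const, nsmul_eq_mul, Real.exp_neg, mul_inv_le_iff₀ (Real.exp_pos _), one_mul]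
      exact le_trans (by exact_mod_cast hU) (pow_le_exp' N I.card)
  let a : A → ℂ := fun x => (starRingEnd ℂ) (γ x u)
  have na : ∀ x, ‖a x‖ = 1 := fun x => by simp [a, h.norm]
  have b1 := hC T a hT
  simp only [na, one_pow, sum_const, nsmul_eq_mul, mul_one] at b1
  set f : Ω → ℂ := fun t => ∑ x ∈ T, a x * γ x t with hf
  have mf : Measurable f := Finset.measurable_sum _ fun x _ => (hm x).const_mul _
  have bf : ∀ t, ‖f t‖ ≤ T.card := fun t => (norm_poly h T a t).trans (by simp [na])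
  have int : ∀ c : ℝ, Integrable (fun t => Real.exp (‖f t‖ ^ 2 / c ^ 2)) m := fun c =>
    int_exp ((mf.norm.pow_const 2).div_const _) (M := (T.card : ℝ) ^ 2 / c ^ 2) fun t => by
      gcongr; exact bf t
  have sq0 : 0 < Real.sqrt T.card := Real.sqrt_pos.2 n0
  obtain ⟨c, ⟨c0, hc⟩, hc'⟩ := exists_lt_of_csInf_lt (s := {c : ℝ | 0 < c ∧
      ∫ t, Real.exp (‖f t‖ ^ 2 / c ^ 2) ∂m ≤ Real.exp 1}) (b := (C + 1) * Real.sqrt T.card)
    ⟨T.card, n0, by
      refine (integral_mono (int _) (integrable_const (Real.exp 1)) fun t => ?_).trans (by simp)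
      refine Real.exp_le_exp.2 ?_
      rw [div_le_one (by positivity)]
      gcongr; exact bf t⟩ (lt_of_le_of_lt b1 (by nlinarith))
  have c2 : c ^ 2 ≤ (C + 1) ^ 2 * T.card := by
    calc c ^ 2 ≤ ((C + 1) * Real.sqrt T.card) ^ 2 := by gcongr
      _ = _ := by rw [mul_pow, Real.sq_sqrt n0.le]
  have d1 : m.real (F u) * Real.exp ((T.card : ℝ) ^ 2 / c ^ 2) ≤ Real.exp 1 := by
    refine le_trans ?_ hc
    rw [← smul_eq_mul, ← integral_indicator_const _ (hF u)]
    refine integral_mono ((integrable_const _).indicator (hF u)) (int c) fun t => ?_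
    by_cases ht : t ∈ F u
    · have : f t = T.card := by
        rw [hf, card_eq_sum_ones, Nat.cast_sum]
        refine sum_congr rfl fun x hx => ?_
        have : γ x t = γ x u := Set.mem_iInter₂.1 ht x hx
        rw [this, mul_comm, Complex.mul_conj', h.norm]; simp
      simp [ht, this]
    · simp [ht, (Real.exp_pos _).le]
  have d2 : Real.exp (-(N * I.card) + (T.card : ℝ) ^ 2 / c ^ 2) ≤ Real.exp 1 := by
    rw [Real.exp_add]
    exact le_trans (by gcongr) d1
  rw [Real.exp_le_exp] at d2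
  have d3 : (T.card : ℝ) ^ 2 ≤ (1 + N * I.card) * c ^ 2 := by
    rw [← div_le_iff₀ (by positivity)]; linarith
  have d4 : (T.card : ℝ) * T.card ≤ ((C + 1) ^ 2 * (N + 1) * I.card) * T.card := by
    calc _ = (T.card : ℝ) ^ 2 := by ring
      _ ≤ (I.card + N * I.card) * ((C + 1) ^ 2 * T.card) := d3.trans (by gcongr)
      _ = _ := by ring
  have d5 := le_of_mul_le_mul_right d4 n0
  have b9 : (T.card : ℝ) ≤ (⌈(C + 1) ^ 2 * (N + 1)⌉₊ : ℝ) * I.card :=
    d5.trans (mul_le_mul_of_nonneg_right (Nat.le_ceil _) (by positivity))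
  exact_mod_cast b9

lemma riesz {γ : A → Ω → ℂ} (h : Chars γ) (hm : ∀ x, Measurable (γ x))
    (ho : ∀ x, x ≠ 0 → ∫ t, γ x t ∂m = 0) (b : A → ℂ) (s : Finset A) : ∀ y : A,
    Integrable (fun t => γ y t * ∏ x ∈ s, (1 + b x * γ x t + (starRingEnd ℂ) (b x * γ x t))) m ∧
    ((∀ ξ : A → ℤ, (∀ x ∈ s, ξ x = -1 ∨ ξ x = 0 ∨ ξ x = 1) → y + ∑ x ∈ s, ξ x • x ≠ 0) →
      ∫ t, γ y t * ∏ x ∈ s, (1 + b x * γ x t + (starRingEnd ℂ) (b x * γ x t)) ∂m = 0) ∧
    (QI (s : Set A) → y = 0 →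
      ∫ t, γ y t * ∏ x ∈ s, (1 + b x * γ x t + (starRingEnd ℂ) (b x * γ x t)) ∂m = 1) := by
  induction s using Finset.induction_on with
  | empty =>
    intro y
    simp only [prod_empty, mul_one, sum_empty, add_zero]
    refine ⟨Integrable.of_bound (hm y).aestronglyMeasurable 1 (ae_of_all _ fun t => (h.norm y t).le),
      fun hy => ho y (hy 0 (by simp)), fun _ hy => by simp [hy, h.zero]⟩
  | insert z s hz ih =>
    intro y
    have e : (fun t => γ y t * ∏ x ∈ insert z s, (1 + b x * γ x t + (starRingEnd ℂ) (b x * γ x t)))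
        = fun t => (γ y t * ∏ x ∈ s, (1 + b x * γ x t + (starRingEnd ℂ) (b x * γ x t)) +
          b z * (γ (y + z) t * ∏ x ∈ s, (1 + b x * γ x t + (starRingEnd ℂ) (b x * γ x t)))) +
          (starRingEnd ℂ) (b z) * (γ (y + -z) t *
            ∏ x ∈ s, (1 + b x * γ x t + (starRingEnd ℂ) (b x * γ x t))) := by
      funext t
      rw [prod_insert hz, h.add, h.add, h.neg, map_mul]; ring
    have i1 := (ih y).1
    have i2 := (ih (y + z)).1.const_mul (b z)
    have i3 := (ih (y + -z)).1.const_mul ((starRingEnd ℂ) (b z))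
    have upd : ∀ (ξ : A → ℤ) (c : ℤ), ∑ x ∈ insert z s, Function.update ξ z c x • x =
        c • z + ∑ x ∈ s, ξ x • x := fun ξ c => by
      rw [sum_insert hz, Function.update_self]
      congr 1
      exact sum_congr rfl fun x hx => by rw [Function.update_of_ne (ne_of_mem_of_not_mem hx hz)]
    have upd2 : ∀ (ξ : A → ℤ) (c : ℤ), (c = -1 ∨ c = 0 ∨ c = 1) →
        (∀ x ∈ s, ξ x = -1 ∨ ξ x = 0 ∨ ξ x = 1) → ∀ x ∈ insert z s, Function.update ξ z c x = -1 ∨
          Function.update ξ z c x = 0 ∨ Function.update ξ z c x = 1 := fun ξ c hc hξ x hx => by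
      rcases mem_insert.1 hx with rfl | hx
      · simpa using hc
      · simpa [Function.update_of_ne (ne_of_mem_of_not_mem hx hz)] using hξ x hx
    rw [e]
    have i12 : Integrable (fun t => γ y t * ∏ x ∈ s, (1 + b x * γ x t +
        (starRingEnd ℂ) (b x * γ x t)) + b z * (γ (y + z) t * ∏ x ∈ s, (1 + b x * γ x t +
        (starRingEnd ℂ) (b x * γ x t)))) m := i1.add i2
    refine ⟨i12.add i3, fun hy => ?_, fun hq hy => ?_⟩
    · rw [integral_add i12 i3, integral_add i1 i2, integral_const_mul, integral_const_mul,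
        (ih y).2.1, (ih (y + z)).2.1, (ih (y + -z)).2.1]
      · simp
      · intro ξ hξ; simpa [upd, add_assoc] using hy _ (upd2 ξ (-1) (by simp) hξ)
      · intro ξ hξ; simpa [upd, add_assoc] using hy _ (upd2 ξ 1 (by simp) hξ)
      · intro ξ hξ; simpa [upd, add_assoc] using hy _ (upd2 ξ 0 (by simp) hξ)
    · rw [integral_add i12 i3, integral_add i1 i2, integral_const_mul, integral_const_mul,
        (ih y).2.2 (fun S ξ hS => hq S ξ (hS.trans (by simp))) hy, (ih (y + z)).2.1,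
        (ih (y + -z)).2.1]
      · simp
      · intro ξ hξ h0
        have := hq _ _ subset_rfl (upd2 ξ (-1) (by simp) hξ) (by simpa [upd, hy] using h0) z
          (mem_insert_self _ _)
        simp at this
      · intro ξ hξ h0
        have := hq _ _ subset_rfl (upd2 ξ 1 (by simp) hξ) (by simpa [upd, hy] using h0) z
          (mem_insert_self _ _)
        simp at this

end H93Sd
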