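import Pool.Agent.H93.Sd4

namespace H93Sd
open Finset MeasureTheory

variable {A : Type*} [AddCommGroup A] [DecidableEq A] {Ω : Type*} [MeasurableSpace Ω]
  {m : Measure Ω} [IsProbabilityMeasure m]

lemma exp_le_cosh {r w : ℝ} (hw : |w| ≤ 1) :
    Real.exp (r * w) ≤ Real.cosh r * (1 + Real.tanh r * w) := by
  have h := convexOn_exp.2 (Set.mem_univ r) (Set.mem_univ (-r))
    (show 0 ≤ (1 + w) / 2 by linarith [(abs_le.1 hw).1])
    (show 0 ≤ (1 - w) / 2 by linarith [(abs_le.1 hw).2]) (by ring)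
  simp only [smul_eq_mul] at h
  rw [show (1 + w) / 2 * r + (1 - w) / 2 * -r = r * w by ring] at h
  refine h.trans (le_of_eq ?_)
  have := (Real.cosh_pos r).ne'
  rw [Real.tanh_eq_sinh_div_cosh]
  field_simp
  rw [Real.cosh_eq, Real.sinh_eq]; ring

lemma mgf {γ : A → Ω → ℂ} (h : Chars γ) (hm : ∀ x, Measurable (γ x))
    (ho : ∀ x, x ≠ 0 → ∫ t, γ x t ∂m = 0) {s : Finset A} (hs : QI (s : Set A)) (a : A → ℂ) :
    ∫ t, Real.exp (∑ x ∈ s, a x * γ x t).re ∂m ≤ Real.exp ((∑ x ∈ s, ‖a x‖ ^ 2) / 2) := by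
  let e : A → ℂ := fun x => a x / ‖a x‖
  have he : ∀ x, ‖e x‖ ≤ 1 := fun x => by
    simp only [e, norm_div, Complex.norm_real, norm_norm]; exact div_self_le_one _
  have ha : ∀ x, a x = ‖a x‖ * e x := fun x => by
    by_cases h0 : a x = 0
    · simp [h0]
    · have : ((‖a x‖ : ℝ) : ℂ) ≠ 0 := by simpa using h0
      simp only [e]; field_simp
  let P : Ω → ℝ := fun t => ∏ x ∈ s, (1 + Real.tanh ‖a x‖ * (e x * γ x t).re)
  obtain ⟨i1, -, i2⟩ := riesz h hm ho (fun x => Real.tanh ‖a x‖ / 2 * e x) s 0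
  have eP : ∀ t, γ 0 t * ∏ x ∈ s, (1 + (Real.tanh ‖a x‖ / 2 * e x) * γ x t +
      (starRingEnd ℂ) ((Real.tanh ‖a x‖ / 2 * e x) * γ x t)) = (P t : ℂ) := fun t => by
    rw [h.zero, one_mul, Complex.ofReal_prod]
    refine prod_congr rfl fun x _ => ?_
    rw [add_assoc, Complex.add_conj, mul_assoc,
      show ((Real.tanh ‖a x‖ : ℝ) : ℂ) / 2 = ((Real.tanh ‖a x‖ / 2 : ℝ) : ℂ) by push_cast; rfl,
      Complex.re_ofReal_mul]
    push_cast; ring
  simp only [eP] at i1 i2
  have i3 : Integrable P m := by simpa using i1.re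
  have i4 : ∫ t, P t ∂m = 1 := by
    have := i2 hs trivial
    rw [integral_complex_ofReal] at this
    exact_mod_cast this
  have pt : ∀ t, Real.exp (∑ x ∈ s, a x * γ x t).re ≤ (∏ x ∈ s, Real.cosh ‖a x‖) * P t := by
    intro t
    rw [Complex.re_sum, Real.exp_sum, ← prod_mul_distrib]
    refine prod_le_prod (fun _ _ => (Real.exp_pos _).le) fun x _ => ?_
    refine le_trans (le_of_eq ?_) (exp_le_cosh ((Complex.abs_re_le_norm _).trans ?_))
    · rw [← Complex.re_ofReal_mul, ← mul_assoc, ← ha]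
    · rw [norm_mul, h.norm, mul_one]; exact he x
  refine (integral_mono_of_nonneg (ae_of_all _ fun t => (Real.exp_pos _).le) (i3.const_mul _)
    (ae_of_all _ pt)).trans ?_
  rw [integral_const_mul, i4, mul_one, sum_div, Real.exp_sum]
  exact prod_le_prod (fun _ _ => (Real.cosh_pos _).le) fun x _ => Real.cosh_le_exp_half_sq _

lemma psi_of_mgf {Y : Ω → ℝ} (hY : Measurable Y) {M D τ : ℝ} (h0 : ∀ t, 0 ≤ Y t)
    (hM : ∀ t, Y t ≤ M) (hD : 0 ≤ D) (hτ : 0 < τ)
    (h : ∀ l, 0 ≤ l → ∫ t, Real.exp (l * Y t) ∂m ≤ D * Real.exp (l ^ 2 * τ ^ 2 / 2)) :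
    ∫ t, Real.exp (Y t ^ 2 / (4 * (D + 2) * τ) ^ 2) ∂m ≤ Real.exp 1 := by
  set L := D + 2 with hL
  have L0 : 0 < L := by linarith
  have s0 : 0 < L * τ := by positivity
  set J := ⌊M / (L * τ)⌋₊
  let w : ℕ → ℝ := fun j => Real.exp ((j + 1) ^ 2 / 4 - (j + 1) ^ 2 * L ^ 2)
  have pt : ∀ t, Real.exp (Y t ^ 2 / (4 * L * τ) ^ 2) ≤ Real.exp (1 / 16) +
      ∑ j ∈ range J, w j * Real.exp ((j + 1) * L / τ * Y t) := by
    intro t
    have y0 : 0 ≤ Y t / (L * τ) := div_nonneg (h0 t) s0.le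
    have a1 := Nat.lt_floor_add_one (Y t / (L * τ))
    have a2 := Nat.floor_le y0
    have a3 : ⌊Y t / (L * τ)⌋₊ ≤ J := Nat.floor_le_floor (by gcongr; exact hM t)
    have a4 : Y t ^ 2 / (4 * L * τ) ^ 2 = (Y t / (L * τ)) ^ 2 / 16 := by field_simp; ring
    have a5 : 0 ≤ ∑ j ∈ range J, w j * Real.exp ((j + 1) * L / τ * Y t) := by positivity
    rw [a4]
    rcases hj : ⌊Y t / (L * τ)⌋₊ with _ | j
    · rw [hj] at a1
      have : Real.exp ((Y t / (L * τ)) ^ 2 / 16) ≤ Real.exp (1 / 16) := by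
        gcongr; simp at a1; nlinarith
      linarith
    · rw [hj] at a1 a2 a3
      push_cast at a1 a2
      have b1 := single_le_sum (f := fun j : ℕ => w j * Real.exp ((j + 1) * L / τ * Y t))
        (fun j _ => by positivity) (mem_range.2 (Nat.lt_of_succ_le a3))
      refine le_trans ?_ (le_add_of_nonneg_of_le (Real.exp_pos _).le b1)
      simp only [w]
      rw [← Real.exp_add, Real.exp_le_exp]
      have b2 : ((j : ℝ) + 1) * L / τ * Y t = (j + 1) * L ^ 2 * (Y t / (L * τ)) := by field_simp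
      have j0 : (0 : ℝ) ≤ j := Nat.cast_nonneg j
      have b3 : ((j : ℝ) + 1) * L ^ 2 * (j + 1) ≤ (j + 1) * L ^ 2 * (Y t / (L * τ)) := by gcongr
      rw [b2]
      nlinarith
  have ii : ∀ j : ℕ, Integrable (fun t => w j * Real.exp ((j + 1) * L / τ * Y t)) m := fun j =>
    (int_exp (hY.const_mul _) (M := (j + 1) * L / τ * M) fun t => by gcongr; exact hM t).const_mul _
  have i2 := integrable_finsetSum (range J) fun j _ => ii j
  refine (integral_mono_of_nonneg (ae_of_all _ fun t => (Real.exp_pos _).le)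
    ((integrable_const _).add i2) (ae_of_all _ pt)).trans ?_
  rw [integral_add' (integrable_const _) i2, integral_finsetSum _ fun j _ => ii j]
  have c1 : ∀ j ∈ range J, ∫ t, w j * Real.exp ((j + 1) * L / τ * Y t) ∂m ≤ (1 / 2) ^ j / 2 := by
    intro j _
    rw [integral_const_mul]
    refine (mul_le_mul_of_nonneg_left (h _ (by positivity)) (Real.exp_pos _).le).trans ?_
    have j0 : (0 : ℝ) ≤ j := Nat.cast_nonneg j
    rw [mul_left_comm, ← Real.exp_add]
    have e1 : ((j : ℝ) + 1) ^ 2 / 4 - (j + 1) ^ 2 * L ^ 2 + ((j + 1) * L / τ) ^ 2 * τ ^ 2 / 2 =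
        -((j + 1) ^ 2 * (L ^ 2 / 2 - 1 / 4)) := by field_simp; ring
    have e2 : D + (j + 1 : ℕ) * 1 ≤ ((j : ℝ) + 1) ^ 2 * (L ^ 2 / 2 - 1 / 4) := by
      have : D + 1 ≤ L ^ 2 / 2 - 1 / 4 := by rw [hL]; nlinarith
      have h2 : (j + 1) * (D + 1) ≤ ((j : ℝ) + 1) ^ 2 * (L ^ 2 / 2 - 1 / 4) := by
        gcongr; nlinarith
      push_cast; nlinarith
    rw [e1]
    calc _ ≤ D * Real.exp (-(D + (j + 1 : ℕ) * 1)) := by gcongr
      _ = (D / Real.exp D) * ((Real.exp 1)⁻¹) ^ (j + 1) := by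
          rw [Real.exp_neg, Real.exp_add, Real.exp_nat_mul, mul_inv, inv_pow]; ring
      _ ≤ 1 * (1 / 2) ^ (j + 1) := by
          gcongr
          · rw [div_le_one (Real.exp_pos _)]; linarith [Real.add_one_le_exp D]
          · rw [one_div]
            exact inv_anti₀ (by norm_num) (by linarith [Real.add_one_le_exp 1])
      _ = _ := by ring
  have c2 := sum_le_sum c1
  rw [← sum_div] at c2
  have c3 := sum_geometric_two_le J
  have c4 : Real.exp (1 / 16) ≤ 16 / 15 := by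
    have := Real.exp_bound_div_one_sub_of_interval (x := 1 / 16) (by norm_num) (by norm_num)
    linarith
  simp only [integral_const, probReal_univ, one_smul]
  linarith [Real.exp_one_gt_d9]

theorem qi_subg {γ : A → Ω → ℂ} (h : Chars γ) (hm : ∀ x, Measurable (γ x))
    (ho : ∀ x, x ≠ 0 → ∫ t, γ x t ∂m = 0) {k : ℕ} {L : Fin k → Set A} (hL : ∀ i, QI (L i))
    (s : Finset A) (a : A → ℂ) (hs : (s : Set A) ⊆ ⋃ i, L i) :
    psi2 m (fun t => ∑ x ∈ s, a x * γ x t) ≤
      4 * (4 * k + 1 + 2) * (2 * k) * Real.sqrt (∑ x ∈ s, ‖a x‖ ^ 2) := by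
  set σ := Real.sqrt (∑ x ∈ s, ‖a x‖ ^ 2) with hσ
  have σ0 : 0 ≤ σ := Real.sqrt_nonneg _
  have σ2 : σ ^ 2 = ∑ x ∈ s, ‖a x‖ ^ 2 := Real.sq_sqrt (by positivity)
  have hc : ∀ x : s, ∃ i, (x : A) ∈ L i := fun x => Set.mem_iUnion.1 (hs x.2)
  choose col hcol using hc
  let S : Fin k → Finset A := fun i => s.filter fun x => ∃ hx : x ∈ s, col ⟨x, hx⟩ = i
  have hS : ∀ i, QI (S i : Set A) := fun i T ξ hT => hL i T ξ fun x hx => by
    obtain ⟨hx, rfl⟩ := (mem_filter.1 (hT hx)).2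
    exact hcol ⟨x, hx⟩
  have split : ∀ t, ∑ x ∈ s, a x * γ x t = ∑ i, ∑ x ∈ S i, a x * γ x t := fun t => by
    simp only [S, sum_filter]
    rw [sum_comm]
    refine sum_congr rfl fun x hx => ?_
    simp [hx]
  have mp : ∀ (T : Finset A) (b : A → ℂ), Measurable fun t => ∑ x ∈ T, b x * γ x t := fun T b =>
    Finset.measurable_sum _ fun x _ => (hm x).const_mul _
  have key : ∀ η, 0 < η → psi2 m (fun t => ∑ x ∈ s, a x * γ x t) ≤
      4 * (4 * k + 1 + 2) * (2 * k * σ + η) := by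
    intro η hη
    refine csInf_le ⟨0, fun c hc => hc.1.le⟩ ⟨by positivity, psi_of_mgf (mp s a).norm
      (fun t => norm_nonneg _) (norm_poly h s a) (by positivity) (by positivity) fun l hl => ?_⟩
    let g : Fin k × Fin 4 → Ω → ℝ := fun q t =>
      Real.exp (∑ x ∈ S q.1, (((2 * k * l : ℝ) : ℂ) * dir q.2 * a x) * γ x t).re
    have ig : ∀ q, Integrable (g q) m := fun q =>
      int_exp (Complex.measurable_re.comp (mp _ _)) fun t =>
        (Complex.re_le_norm _).trans (norm_poly h _ _ t)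
    have pt : ∀ t, Real.exp (l * ‖∑ x ∈ s, a x * γ x t‖) ≤ 1 + ∑ q, g q t := by
      intro t
      have g0 : 0 ≤ ∑ q, g q t := sum_nonneg fun q _ => (Real.exp_pos _).le
      rcases Nat.eq_zero_or_pos k with rfl | hk
      · rw [split]; simp
      obtain ⟨i, -, hi⟩ := exists_max_image univ (fun i => ‖∑ x ∈ S i, a x * γ x t‖)
        ⟨⟨0, hk⟩, mem_univ _⟩
      obtain ⟨d, hd⟩ := exists_dir (∑ x ∈ S i, a x * γ x t)
      refine le_trans ?_ (le_add_of_nonneg_of_le zero_le_one (single_le_sum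
        (f := fun q => g q t) (fun q _ => (Real.exp_pos _).le) (mem_univ (i, d))))
      refine Real.exp_le_exp.2 ?_
      simp only [mul_assoc, ← mul_sum]
      rw [Complex.re_ofReal_mul]
      have : ‖∑ x ∈ s, a x * γ x t‖ ≤ k * (2 * (dir d * ∑ x ∈ S i, a x * γ x t).re) := by
        rw [split]
        refine (norm_sum_le _ _).trans ((sum_le_sum fun j hj => (hi j hj).trans hd).trans ?_)
        simp
      nlinarith [mul_le_mul_of_nonneg_left this hl]
    have i2 := integrable_finsetSum univ fun q _ => ig q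
    refine (integral_mono_of_nonneg (ae_of_all _ fun t => (Real.exp_pos _).le)
      ((integrable_const _).add i2) (ae_of_all _ pt)).trans ?_
    rw [integral_add' (integrable_const _) i2, integral_finsetSum _ fun q _ => ig q]
    have c1 : ∀ q ∈ univ, ∫ t, g q t ∂m ≤ Real.exp (l ^ 2 * (2 * k * σ + η) ^ 2 / 2) := by
      intro q _
      refine (mgf h hm ho (hS q.1) _).trans ?_
      gcongr
      simp only [norm_mul, norm_dir, mul_one, mul_pow, ← mul_sum, Complex.norm_real,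
        Real.norm_eq_abs, sq_abs]
      have : ∑ x ∈ S q.1, ‖a x‖ ^ 2 ≤ σ ^ 2 :=
        σ2 ▸ sum_le_sum_of_subset_of_nonneg (filter_subset _ _) fun _ _ _ => by positivity
      calc _ ≤ 2 ^ 2 * k ^ 2 * l ^ 2 * σ ^ 2 := by gcongr
        _ = l ^ 2 * (2 * k * σ) ^ 2 := by ring
        _ ≤ _ := by gcongr; linarith
    have c2 := sum_le_sum c1
    have c3 : 1 ≤ Real.exp (l ^ 2 * (2 * k * σ + η) ^ 2 / 2) := Real.one_le_exp (by positivity)
    simp only [sum_const, card_univ, Fintype.card_prod, Fintype.card_fin, nsmul_eq_mul,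
      integral_const, probReal_univ, one_smul] at c2 ⊢
    push_cast at c2
    linarith
  refine le_of_forall_pos_le_add fun ε hε => ?_
  refine (key (ε / (4 * (4 * k + 1 + 2))) (by positivity)).trans (le_of_eq ?_)
  field_simp

end H93Sd
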