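import Mathlib

set_option autoImplicit false
set_option linter.style.haveILetI false

/-! A Stegall-type system in a non-Asplund space. -/

namespace Pool.Agent.H93.Ssd1

open Set Filter Topology TopologicalSpace

/-- strong recursion -/
noncomputable def sq {α : Type*} (F : ∀ n : ℕ, (Fin n → α) → α) : ℕ → α
  | n => F n (fun i => sq F i)
termination_by n => n
decreasing_by exact i.2

lemma exists_seq {α : Type*} (R : ∀ n : ℕ, (Fin n → α) → α → Prop)
    (h : ∀ n f, ∃ a, R n f a) : ∃ s : ℕ → α, ∀ n, R n (fun i => s i) (s n) := by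
  choose F hF using h
  refine ⟨sq F, fun n => ?_⟩
  rw [sq]; exact hF _ _

lemma sep {Y : Type*} [NormedAddCommGroup Y] [NormedSpace ℝ Y] {n : ℕ} (g : Fin n → Y →L[ℝ] ℝ)
    (f : Y →L[ℝ] ℝ) (h : ∀ z ∈ Submodule.span ℝ (range g), 1 / 2 < ‖f - z‖) :
    ∃ y : Y, ‖y‖ ≤ 3 ∧ f y = 1 ∧ ∀ i, g i y = 0 := by
  by_contra hne
  push Not at hne
  let N : Submodule ℝ Y := ⨅ i, LinearMap.ker (g i : Y →ₗ[ℝ] ℝ)
  have hN : ∀ y, y ∈ N ↔ ∀ i, g i y = 0 := by
    intro y; simp [N, Submodule.mem_iInf]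
  have hb : ‖f.comp N.subtypeL‖ ≤ 1 / 3 := by
    refine ContinuousLinearMap.opNorm_le_bound _ (by norm_num) fun y => ?_
    simp only [ContinuousLinearMap.comp_apply, Submodule.subtypeL_apply]
    by_cases h0 : f y = 0
    · rw [h0, norm_zero]; positivity
    · by_contra hlt
      push Not at hlt
      obtain ⟨i, hi⟩ := hne ((f y)⁻¹ • (y : Y)) (by
        rw [norm_smul, norm_inv, inv_mul_le_iff₀ (norm_pos_iff.2 h0)]
        have : ‖(y : Y)‖ = ‖y‖ := rfl
        linarith) (by simp [h0])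
      apply hi
      rw [map_smul, (hN y).1 y.2 i, smul_zero]
  obtain ⟨f', h1, h2⟩ := exists_extension_norm_eq N (f.comp N.subtypeL)
  have hm : ((f - f' : Y →L[ℝ] ℝ) : Y →ₗ[ℝ] ℝ) ∈
      Submodule.span ℝ (range fun i => (g i : Y →ₗ[ℝ] ℝ)) := by
    apply mem_span_of_iInf_ker_le_ker
    intro y hy
    have := h1 ⟨y, hy⟩
    simp only [ContinuousLinearMap.comp_apply, Submodule.subtypeL_apply] at this
    simp [this]
  obtain ⟨c, hc⟩ := (Submodule.mem_span_range_iff_exists_fun ℝ).1 hm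
  have hm' : f - f' ∈ Submodule.span ℝ (range g) := by
    refine (Submodule.mem_span_range_iff_exists_fun ℝ).2 ⟨c, ?_⟩
    ext y
    have := LinearMap.congr_fun hc y
    simpa using this
  have := h _ hm'
  rw [sub_sub_cancel, h2] at this
  linarith

lemma exists_Gamma {Y B : Type*} [NormedAddCommGroup Y] [NormedSpace ℝ Y] [TopologicalSpace B]
    [SecondCountableTopology B] (ev : B → Y →L[ℝ] ℝ) (hs : ∀ g, ‖g‖ ≤ 1 → ∃ b, ev b = g)
    (hns : ¬ SeparableSpace (Y →L[ℝ] ℝ)) :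
    ∃ Γ : Set B, Γ.Nonempty ∧ ∀ b ∈ Γ, ∀ W, IsOpen W → b ∈ W → ∀ (n : ℕ) (g : Fin n → Y →L[ℝ] ℝ),
      ∃ b' ∈ Γ, b' ∈ W ∧ ∃ y : Y, ‖y‖ ≤ 3 ∧ ev b' y = 1 ∧ ∀ i, g i y = 0 := by
  let Small : Set B → Prop := fun W => ∃ S : Set (Y →L[ℝ] ℝ), IsSeparable S ∧
    ∀ b ∈ W, ∃ z ∈ S, ‖ev b - z‖ ≤ 1 / 2
  let 𝒮 : Set (Set B) := {W | IsOpen W ∧ Small W}
  obtain ⟨T, hTc, hTS, hT⟩ := isOpen_sUnion_countable 𝒮 fun s hs => hs.1
  have hG : Small (⋃₀ 𝒮) := by
    rw [← hT]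
    have : ∀ W : T, Small W := fun W => (hTS W.2).2
    choose S hS1 hS2 using this
    haveI := hTc.to_subtype
    refine ⟨⋃ W, S W, IsSeparable.iUnion hS1, ?_⟩
    rintro b ⟨W, hW, hb⟩
    obtain ⟨z, hz, hz'⟩ := hS2 ⟨W, hW⟩ b hb
    exact ⟨z, mem_iUnion.2 ⟨_, hz⟩, hz'⟩
  obtain ⟨S, hS1, hS2⟩ := hG
  refine ⟨(⋃₀ 𝒮)ᶜ, ?_, ?_⟩
  · let F := (Submodule.span ℝ S).topologicalClosure
    have hF : IsSeparable (F : Set (Y →L[ℝ] ℝ)) := hS1.span.closure
    have hx : ∃ x, x ∉ F := by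
      by_contra hh
      push Not at hh
      apply hns
      rw [← isSeparable_univ_iff]
      exact hF.mono fun x _ => hh x
    obtain ⟨x, -, hx1, hx2⟩ := riesz_lemma_of_lt_one (Submodule.isClosed_topologicalClosure _) hx
      (show (3 / 4 : ℝ) < 1 by norm_num)
    obtain ⟨b, hb⟩ := hs x hx1.le
    refine ⟨b, fun hbG => ?_⟩
    obtain ⟨z, hz, hz'⟩ := hS2 b hbG
    have := hx2 z (Submodule.le_topologicalClosure _ (Submodule.subset_span hz))
    rw [hb] at hz'; linarith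
  · intro b hb W hW hbW n g
    by_contra hne
    apply hb
    refine ⟨W, ⟨hW, S ∪ (Submodule.span ℝ (range g) : Set _),
      hS1.union (finite_range g).isSeparable.span, fun b' hb' => ?_⟩, hbW⟩
    by_cases hG : b' ∈ ⋃₀ 𝒮
    · obtain ⟨z, hz, hz'⟩ := hS2 b' hG
      exact ⟨z, Or.inl hz, hz'⟩
    · by_contra h2
      push Not at h2
      exact hne ⟨b', hG, hb', sep g (ev b') fun z hz => h2 z (Or.inr hz)⟩

/-- the system property -/
structure Sys {K : Type*} [TopologicalSpace K] (u : ℕ → K → ℝ) : Prop where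
  dich : ∀ n k, |u n k| ≤ 1 / 8 ∨ |u n k - 1| ≤ 1 / 8
  base : ∀ U : Set K, IsOpen U → U.Nonempty →
    ∃ n, (∃ k, 1 / 2 ≤ u n k) ∧ (∀ k, 1 / 2 ≤ u n k → k ∈ U) ∧ ∃ k ∈ U, u n k < 1 / 2

lemma exists_sys_metric {Y B : Type*} [NormedAddCommGroup Y] [NormedSpace ℝ Y] [MetricSpace B]
    [SecondCountableTopology B] (ev : B → Y →L[ℝ] ℝ) (hc : ∀ y, Continuous fun b => ev b y)
    (hs : ∀ g, ‖g‖ ≤ 1 → ∃ b, ev b = g) (hns : ¬ SeparableSpace (Y →L[ℝ] ℝ)) :
    ∃ (K : Set B) (y : ℕ → Y), IsClosed K ∧ K.Nonempty ∧ (∀ n, ‖y n‖ ≤ 3) ∧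
      Sys (fun n (k : K) => ev k (y n)) := by
  obtain ⟨Γ, ⟨b0, hb0⟩, hΓ⟩ := exists_Gamma ev hs hns
  let par : ℕ → ℕ := fun n => (Nat.unpair (n - 1)).1
  have hpar : ∀ n, 0 < n → par n < n := fun n hn => by
    have := Nat.unpair_left_le (n - 1)
    simp only [par]; omega
  obtain ⟨s, hsq⟩ := exists_seq (α := Γ × Y) (fun n f a =>
    ‖a.2‖ ≤ 3 ∧ ev a.1 a.2 = 1 ∧ (∀ i, ev (f i).1 a.2 = 0) ∧ ∀ j : Fin n, (j : ℕ) = par n →
      dist (a.1 : B) (f j).1 < 1 / 2 ^ n ∧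
      ∀ i, |ev a.1 (f i).2 - ev (f j).1 (f i).2| < 1 / 8 * (1 / 2 ^ n)) (by
    intro n f
    by_cases hn : par n < n
    · let j : Fin n := ⟨par n, hn⟩
      let W : Set B := Metric.ball (f j).1 (1 / 2 ^ n) ∩
        ⋂ i, {b | |ev b (f i).2 - ev (f j).1 (f i).2| < 1 / 8 * (1 / 2 ^ n)}
      have hW : IsOpen W := Metric.isOpen_ball.inter (isOpen_iInter_of_finite fun i =>
        isOpen_lt ((hc _).sub continuous_const).abs continuous_const)
      have hm : ((f j).1 : B) ∈ W := ⟨Metric.mem_ball_self (by positivity),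
        mem_iInter.2 fun i => by simp⟩
      obtain ⟨b', h1, h2, y, h3, h4, h5⟩ := hΓ _ (f j).1.2 W hW hm n fun i => ev (f i).1
      refine ⟨(⟨b', h1⟩, y), h3, h4, h5, fun j' hj' => ?_⟩
      obtain rfl : j' = j := Fin.ext hj'
      exact ⟨h2.1, fun i => mem_iInter.1 h2.2 i⟩
    · obtain ⟨b', h1, -, y, h3, h4, h5⟩ := hΓ _ hb0 univ isOpen_univ trivial n fun i => ev (f i).1
      exact ⟨(⟨b', h1⟩, y), h3, h4, h5, fun j' hj' => absurd (hj' ▸ j'.2) hn⟩)
  set b : ℕ → B := fun n => (s n).1 with hb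
  set y : ℕ → Y := fun n => (s n).2 with hy
  have h1 : ∀ n, ev (b n) (y n) = 1 := fun n => (hsq n).2.1
  have h2 : ∀ i n, i < n → ev (b i) (y n) = 0 := fun i n h => (hsq n).2.2.1 ⟨i, h⟩
  have h3 : ∀ n, 0 < n → dist (b n) (b (par n)) < 1 / 2 ^ n := fun n h =>
    ((hsq n).2.2.2 ⟨par n, hpar n h⟩ rfl).1
  have h4 : ∀ i n, i < n → |ev (b n) (y i) - ev (b (par n)) (y i)| < 1 / 8 * (1 / 2 ^ n) :=
    fun i n h => ((hsq n).2.2.2 ⟨par n, hpar n (by omega)⟩ rfl).2 ⟨i, h⟩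
  have key : ∀ n m, |ev (b m) (y n)| ≤ 1 / 8 * (1 - 1 / 2 ^ m) ∨
      (|ev (b m) (y n) - 1| ≤ 1 / 8 * (1 - 1 / 2 ^ m) ∧ dist (b m) (b n) ≤ 1 / 2 ^ n - 1 / 2 ^ m) := by
    intro n m
    induction m using Nat.strong_induction_on with
    | _ m ih =>
      have hm1 : (1 : ℝ) / 2 ^ m ≤ 1 := by
        rw [div_le_one (by positivity)]; exact one_le_pow₀ (by norm_num)
      rcases lt_trichotomy m n with h | rfl | h
      · left; rw [h2 m n h, abs_zero]; linarith
      · right; rw [h1]; simp only [sub_self, abs_zero, dist_self, le_refl, and_true]; linarith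
      · have hp := hpar m (by omega)
        have a1 := h3 m (by omega)
        have a2 := h4 n m h
        have a3 : 2 * ((1 : ℝ) / 2 ^ m) ≤ 1 / 2 ^ par m := by
          have : (2 : ℝ) ^ (par m + 1) ≤ 2 ^ m := pow_le_pow_right₀ (by norm_num) hp
          rw [mul_one_div, div_le_div_iff₀ (by positivity) (by positivity)]
          rw [pow_succ] at this; linarith
        rw [abs_lt] at a2
        rcases ih _ hp with h5 | ⟨h5, h6⟩
        · left; rw [abs_le] at h5 ⊢; constructor <;> linarith [h5.1, h5.2]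
        · right
          refine ⟨?_, ?_⟩
          · rw [abs_le] at h5 ⊢; constructor <;> linarith [h5.1, h5.2]
          · linarith [dist_triangle (b m) (b (par m)) (b n)]
  have key2 : ∀ n, ∀ k ∈ closure (range b), |ev k (y n)| ≤ 1 / 8 ∨
      (|ev k (y n) - 1| ≤ 1 / 8 ∧ dist k (b n) ≤ 1 / 2 ^ n) := by
    intro n
    have hcl : IsClosed {k : B | |ev k (y n)| ≤ 1 / 8 ∨
        (|ev k (y n) - 1| ≤ 1 / 8 ∧ dist k (b n) ≤ 1 / 2 ^ n)} :=
      (isClosed_le (hc _).abs continuous_const).union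
        ((isClosed_le ((hc _).sub continuous_const).abs continuous_const).inter
          (isClosed_le (continuous_id.dist continuous_const) continuous_const))
    refine fun k hk => closure_minimal ?_ hcl hk
    rintro _ ⟨m, rfl⟩
    have : (0 : ℝ) < 1 / 2 ^ m := by positivity
    rcases key n m with h | ⟨h, h'⟩
    · left; linarith
    · right; constructor <;> linarith
  refine ⟨closure (range b), y, isClosed_closure, ⟨b 0, subset_closure ⟨0, rfl⟩⟩,
    fun n => (hsq n).1, fun n k => (key2 n k k.2).imp id And.left, ?_⟩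
  intro U hU ⟨k0, hk0⟩
  obtain ⟨V, hV, rfl⟩ := isOpen_induced_iff.1 hU
  obtain ⟨_, hi, i, rfl⟩ := mem_closure_iff.1 k0.2 V hV hk0
  obtain ⟨r, hr, hrV⟩ := Metric.isOpen_iff.1 hV _ hi
  obtain ⟨N, hN⟩ := exists_pow_lt_of_lt_one (half_pos hr) (show (1 / 2 : ℝ) < 1 by norm_num)
  let n := Nat.pair i N + 1
  have hpn : par n = i := by simp [par, n]
  have hnN : (1 : ℝ) / 2 ^ n < r / 2 := by
    refine lt_of_le_of_lt ?_ hN
    rw [← one_div_pow]
    exact pow_le_pow_of_le_one (by norm_num) (by norm_num)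
      ((Nat.right_le_pair i N).trans (Nat.le_succ _))
  have hin : i < n := hpn ▸ hpar n (Nat.succ_pos _)
  refine ⟨n, ⟨⟨b n, subset_closure ⟨n, rfl⟩⟩, by simp only [h1]; norm_num⟩, fun k hk => ?_,
    ⟨b i, subset_closure ⟨i, rfl⟩⟩, hi, by simp only [h2 i n hin]; norm_num⟩
  apply hrV
  rcases key2 n k k.2 with h | ⟨-, h⟩
  · linarith [le_abs_self (ev k (y n))]
  · have := h3 n (Nat.succ_pos _)
    rw [hpn] at this
    rw [Metric.mem_ball]
    linarith [dist_triangle (k : B) (b n) (b i)]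

lemma Sys.lift {K D : Type} [TopologicalSpace K] [T2Space K] [TopologicalSpace D]
    [CompactSpace D] {u : ℕ → K → ℝ} (h : Sys u) (p : D → K) (hp : Continuous p)
    (hs : p.Surjective) :
    ∃ E : Set D, CompactSpace E ∧ p '' E = univ ∧ Sys (fun n (e : E) => u n (p e)) := by
  obtain ⟨E, hE, h1, h2⟩ := exists_compact_surjective_zorn_subset hp hs
  refine ⟨E, hE, h1, fun n e => h.dich n _, fun U hU hne => ?_⟩
  have hsurj : ∀ k, ∃ e : E, p e = k := fun k => by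
    obtain ⟨d, hd, rfl⟩ : k ∈ p '' E := h1 ▸ mem_univ k
    exact ⟨⟨d, hd⟩, rfl⟩
  have hc : IsClosed (E.domRestrict p '' Uᶜ) :=
    (hU.isClosed_compl.isCompact.image hp.continuousOn.domRestrict).isClosed
  have hn := h2 Uᶜ (by simpa [compl_univ_iff, ← nonempty_iff_ne_empty] using hne)
    hU.isClosed_compl
  obtain ⟨n, ⟨k, hk⟩, a2, k', a3, a4⟩ := h.base _ hc.isOpen_compl (nonempty_compl.2 hn)
  have hin : ∀ e : E, p e ∈ (E.domRestrict p '' Uᶜ)ᶜ → e ∈ U := fun e he => by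
    by_contra hh; exact he ⟨e, hh, rfl⟩
  obtain ⟨e, rfl⟩ := hsurj k
  obtain ⟨e', rfl⟩ := hsurj k'
  exact ⟨n, ⟨e, hk⟩, fun e he => hin e (a2 _ he), e', hin e' a3, a4⟩

theorem exists_sys (X : Type) [NormedAddCommGroup X] [NormedSpace ℝ X] (Y : Submodule ℝ X)
    [SeparableSpace Y] (hns : ¬ SeparableSpace (Y →L[ℝ] ℝ)) :
    ∃ (K : Type) (_ : TopologicalSpace K) (_ : CompactSpace K) (_ : T2Space K) (_ : Nonempty K)
      (e : X →ₗ[ℝ] C(K, ℝ)) (y : ℕ → X), (∀ x k, |e x k| ≤ ‖x‖) ∧ (∀ n, ‖y n‖ ≤ 3) ∧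
      Sys (fun n k => e (y n) k) := by
  let B : Set (WeakDual ℝ Y) := WeakDual.toStrongDual ⁻¹' Metric.closedBall 0 1
  have hB : IsCompact B := WeakDual.isCompact_closedBall 0 1
  have hBm : ∀ g, g ∈ B ↔ ‖WeakDual.toStrongDual g‖ ≤ 1 := fun g =>
    mem_closedBall_zero_iff (a := WeakDual.toStrongDual g)
  haveI : CompactSpace B := isCompact_iff_compactSpace.1 hB
  haveI := WeakDual.metrizable_of_isCompact ℝ Y B hB
  letI : MetricSpace B := metrizableSpaceMetric B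
  obtain ⟨K, y, hK, hKne, hy, hS⟩ := exists_sys_metric (Y := Y) (B := B)
    (fun b => WeakDual.toStrongDual b.1)
    (fun y => (WeakDual.eval_continuous y).comp continuous_subtype_val)
    (fun g hg => ⟨⟨StrongDual.toWeakDual g, (hBm _).2 hg⟩, rfl⟩) hns
  let A : Set (WeakDual ℝ X) := WeakDual.toStrongDual ⁻¹' Metric.closedBall 0 1
  have hA : IsCompact A := WeakDual.isCompact_closedBall 0 1
  haveI : CompactSpace A := isCompact_iff_compactSpace.1 hA
  have hAm : ∀ g, g ∈ A ↔ ‖WeakDual.toStrongDual g‖ ≤ 1 := fun g =>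
    mem_closedBall_zero_iff (a := WeakDual.toStrongDual g)
  have hAn : ∀ a : A, ‖WeakDual.toStrongDual a.1‖ ≤ 1 := fun a => (hAm _).1 a.2
  let ρ : A → B := fun a =>
    ⟨StrongDual.toWeakDual ((WeakDual.toStrongDual a.1).comp Y.subtypeL), by
      rw [hBm]
      refine ContinuousLinearMap.opNorm_le_bound _ zero_le_one fun y => ?_
      exact ((WeakDual.toStrongDual a.1).le_opNorm (y : X)).trans
        (mul_le_mul_of_nonneg_right (hAn a) (norm_nonneg _))⟩
  have hρ : Continuous ρ := by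
    refine Continuous.subtype_mk ?_ _
    exact WeakDual.continuous_of_continuous_eval fun y =>
      (WeakDual.eval_continuous (y : X)).comp continuous_subtype_val
  let D : Set A := ρ ⁻¹' K
  haveI : CompactSpace D := isCompact_iff_compactSpace.1 (hK.preimage hρ).isCompact
  let p : D → K := fun d => ⟨ρ d, d.2⟩
  have hp : Continuous p := (hρ.comp continuous_subtype_val).subtype_mk _
  have hps : p.Surjective := by
    intro k
    obtain ⟨g, h1, h2⟩ := exists_extension_norm_eq Y (WeakDual.toStrongDual k.1.1)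
    have h3 : ‖WeakDual.toStrongDual k.1.1‖ ≤ 1 := (hBm _).1 k.1.2
    let a : A := ⟨StrongDual.toWeakDual g, (hAm _).2 (h2.trans_le h3)⟩
    have : ρ a = k.1 := by
      apply Subtype.ext
      apply DFunLike.ext
      intro y; exact h1 y
    exact ⟨⟨a, by simp only [D, mem_preimage, this]; exact k.2⟩, Subtype.ext this⟩
  obtain ⟨E, hE, h1, h2⟩ := hS.lift p hp hps
  have hne : Nonempty E := by
    obtain ⟨k, hk⟩ := hKne
    obtain ⟨d, hd, -⟩ : (⟨k, hk⟩ : K) ∈ p '' E := h1 ▸ mem_univ _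
    exact ⟨⟨d, hd⟩⟩
  let e : X →ₗ[ℝ] C(E, ℝ) :=
    { toFun := fun x => ⟨fun k => k.1.1.1 x, (WeakDual.eval_continuous x).comp
        (continuous_subtype_val.comp (continuous_subtype_val.comp continuous_subtype_val))⟩
      map_add' := fun x x' => by ext k; simp
      map_smul' := fun c x => by ext k; simp }
  refine ⟨E, inferInstance, hE, inferInstance, hne, e, fun n => y n, fun x k => ?_, hy, h2⟩
  exact ((WeakDual.toStrongDual k.1.1.1).le_opNorm x).trans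
    ((mul_le_mul_of_nonneg_right (hAn _) (norm_nonneg _)).trans (one_mul _).le)

end Pool.Agent.H93.Ssd1
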