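import Mathlib
import Pool.Agent.H93.Ssd1

set_option autoImplicit false
set_option linter.style.haveILetI false

/-! Sublinear functions that are nowhere strongly subdifferentiable. -/

namespace Pool.Agent.H93.Ssd2

open Set Filter Topology TopologicalSpace Pool.Agent.H93.Ssd1

variable {X : Type} [NormedAddCommGroup X] [NormedSpace ℝ X]

/-- sublinear and bounded -/
structure Sub (Q : X → ℝ) : Prop where
  add : ∀ x y, Q (x + y) ≤ Q x + Q y
  smul : ∀ (t : ℝ) x, 0 ≤ t → Q (t • x) = t * Q x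
  bdd : ∀ x, Q x ≤ 2 * ‖x‖

/-- difference quotient -/
noncomputable def quo (Q : X → ℝ) (x h : X) (t : ℝ) : ℝ := (Q (x + t • h) - Q x) / t

/-- failure of uniformity -/
def Bad (Q : X → ℝ) (x : X) : Prop :=
  ∃ C : ℝ, 0 < C ∧ ∀ δ : ℝ, 0 < δ → ∃ h : X, ‖h‖ ≤ C ∧ ∃ t t' : ℝ, 0 < t' ∧ t' ≤ t ∧ t < δ ∧
    quo Q x h t' + 1 / 8 ≤ quo Q x h t

lemma Sub.mono {Q : X → ℝ} (hQ : Sub Q) (x h : X) {t t' : ℝ} (h1 : 0 < t') (h2 : t' ≤ t) :
    quo Q x h t' ≤ quo Q x h t := by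
  have ht : 0 < t := h1.trans_le h2
  have e : x + t' • h = (t' / t) • (x + t • h) + (1 - t' / t) • x := by
    rw [smul_add, smul_smul, div_mul_cancel₀ _ ht.ne', sub_smul, one_smul]; abel
  have a := hQ.add ((t' / t) • (x + t • h)) ((1 - t' / t) • x)
  rw [← e, hQ.smul _ _ (by positivity), hQ.smul _ _ (by
    rw [sub_nonneg, div_le_one ht]; exact h2)] at a
  unfold quo
  rw [div_le_iff₀ h1]
  have : (Q (x + t • h) - Q x) / t * t' = t' / t * (Q (x + t • h) - Q x) := by ring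
  rw [this]; linarith

theorem final (Q : X → ℝ) (hQ : Sub Q) (hB : ∀ x, x ≠ 0 → Bad Q x) :
    ∃ N : Seminorm ℝ X,
        (∃ a b : ℝ, 0 < a ∧ 0 < b ∧ ∀ x : X, a * ‖x‖ ≤ N x ∧ N x ≤ b * ‖x‖) ∧
        ∀ x : X, x ≠ 0 →
          ¬ ∃ D : X → ℝ, ∀ ε : ℝ, 0 < ε → ∃ δ : ℝ, 0 < δ ∧
              ∀ h : X, ‖h‖ ≤ 1 → ∀ t : ℝ, 0 < t → t < δ →
                |(N (x + t • h) - N x) / t - D h| < ε := by
  have h0 : Q 0 = 0 := by simpa using hQ.smul 0 0 le_rfl
  let R : X → ℝ := fun x => (‖x‖ + Q (-x)) * (2 / 3)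
  have hR : Sub R := by
    refine ⟨fun x y => ?_, fun t x ht => ?_, fun x => ?_⟩
    · have := hQ.add (-x) (-y)
      have := norm_add_le x y
      simp only [R, neg_add]; linarith
    · simp only [R]
      rw [← smul_neg, hQ.smul _ _ ht, norm_smul, Real.norm_eq_abs, abs_of_nonneg ht]; ring
    · have := hQ.bdd (-x)
      rw [norm_neg] at this
      simp only [R]; linarith
  let N : Seminorm ℝ X := Seminorm.of (fun x => ‖x‖ + Q (-x) + Q x) (fun x y => by
      have := hQ.add (-x) (-y)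
      have := hQ.add x y
      have := norm_add_le x y
      simp only [neg_add]; linarith) (fun a x => by
      rw [norm_smul, Real.norm_eq_abs]
      rcases le_total 0 a with ha | ha
      · rw [← smul_neg, hQ.smul _ _ ha, hQ.smul _ _ ha, abs_of_nonneg ha]; ring
      · have e1 : -(a • x) = (-a) • x := by simp
        have e2 : a • x = (-a) • (-x) := by simp
        rw [e1, hQ.smul _ _ (neg_nonneg.2 ha), e2, hQ.smul _ _ (neg_nonneg.2 ha), abs_of_nonpos ha]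
        ring)
  have hN : ∀ x, N x = ‖x‖ + Q (-x) + Q x := fun x => rfl
  refine ⟨N, ⟨1, 5, one_pos, by norm_num, fun x => ?_⟩, ?_⟩
  · have a := hQ.add (-x) x
    rw [neg_add_cancel, h0] at a
    have b := hQ.bdd x
    have c := hQ.bdd (-x)
    rw [norm_neg] at c
    rw [hN]; constructor <;> linarith
  · rintro x hx ⟨D, hD⟩
    obtain ⟨C, hC, hb⟩ := hB x hx
    obtain ⟨δ, hδ, hD⟩ := hD (1 / (16 * C)) (by positivity)
    obtain ⟨h, hh, t, t', h1, h2, h3, h4⟩ := hb (δ / C) (by positivity)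
    have hh' : ‖C⁻¹ • h‖ ≤ 1 := by
      rw [norm_smul, norm_inv, Real.norm_eq_abs, abs_of_pos hC, inv_mul_le_iff₀ hC]; linarith
    rw [lt_div_iff₀ hC] at h3
    have ht : 0 < t := h1.trans_le h2
    have key : ∀ s, 0 < s → s ≤ t →
        |3 / 2 * quo R x h s + quo Q x h s - C * D (C⁻¹ • h)| < 1 / 16 := by
      intro s s1 s2
      have := hD _ hh' (s * C) (by positivity) (by nlinarith)
      rw [smul_smul, mul_assoc, mul_inv_cancel₀ hC.ne', mul_one] at this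
      have e : 3 / 2 * quo R x h s + quo Q x h s - C * D (C⁻¹ • h) =
          C * ((N (x + s • h) - N x) / (s * C) - D (C⁻¹ • h)) := by
        simp only [quo, R, hN]; field_simp; ring
      rw [e, abs_mul, abs_of_pos hC]
      calc _ < C * (1 / (16 * C)) := by gcongr
        _ = _ := by field_simp
    have k1 := abs_lt.1 (key t ht le_rfl)
    have k2 := abs_lt.1 (key t' h1 h2)
    have k3 := hR.mono x h h1 h2
    linarith [k1.1, k1.2, k2.1, k2.2]

section sup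
variable {K : Type} [TopologicalSpace K]

/-- max over a compact set -/
noncomputable def sS (S : Set K) (φ : C(K, ℝ)) : ℝ := sSup (φ '' S)

variable {S : Set K} (hS : IsCompact S) (hne : S.Nonempty)
include hS hne

lemma sS_ex (φ : C(K, ℝ)) : ∃ k ∈ S, sS S φ = φ k ∧ ∀ y ∈ S, φ y ≤ φ k :=
  hS.exists_sSup_image_eq_and_ge hne φ.continuous.continuousOn

lemma le_sS (φ : C(K, ℝ)) {k : K} (hk : k ∈ S) : φ k ≤ sS S φ := by
  obtain ⟨k', -, h1, h2⟩ := sS_ex hS hne φ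
  rw [h1]; exact h2 k hk

lemma sS_le (φ : C(K, ℝ)) {c : ℝ} (h : ∀ k ∈ S, φ k ≤ c) : sS S φ ≤ c := by
  obtain ⟨k', h0, h1, -⟩ := sS_ex hS hne φ
  rw [h1]; exact h k' h0

lemma sub_sS (e : X →ₗ[ℝ] C(K, ℝ)) (he : ∀ x k, |e x k| ≤ ‖x‖) (ψ : C(K, ℝ))
    (h0 : ∀ k, 0 ≤ ψ k) (h1 : ∀ k, ψ k ≤ 1) : Sub fun x => sS S (e x + ‖x‖ • ψ) := by
  refine ⟨fun x y => ?_, fun t x ht => ?_, fun x => ?_⟩
  · refine sS_le hS hne _ fun k hk => ?_
    have a := le_sS hS hne (e x + ‖x‖ • ψ) hk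
    have b := le_sS hS hne (e y + ‖y‖ • ψ) hk
    have c := mul_le_mul_of_nonneg_right (norm_add_le x y) (h0 k)
    simp only [map_add, ContinuousMap.add_apply, ContinuousMap.smul_apply, smul_eq_mul] at *
    linarith
  · have e1 : ∀ k, (e (t • x) + ‖t • x‖ • ψ) k = t * (e x + ‖x‖ • ψ) k := by
      intro k
      simp only [map_smul, ContinuousMap.add_apply, ContinuousMap.smul_apply, smul_eq_mul,
        norm_smul, Real.norm_eq_abs, abs_of_nonneg ht]
      ring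
    apply le_antisymm
    · refine sS_le hS hne _ fun k hk => ?_
      rw [e1]; exact mul_le_mul_of_nonneg_left (le_sS hS hne _ hk) ht
    · obtain ⟨k, hk, h2, -⟩ := sS_ex hS hne (e x + ‖x‖ • ψ)
      rw [h2, ← e1]; exact le_sS hS hne _ hk
  · refine sS_le hS hne _ fun k _ => ?_
    have a := (abs_le.1 (he x k)).2
    have b := mul_le_mul_of_nonneg_left (h1 k) (norm_nonneg x)
    simp only [ContinuousMap.add_apply, ContinuousMap.smul_apply, smul_eq_mul]
    linarith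

end sup

section caseA
variable {K : Type} [TopologicalSpace K] [CompactSpace K] [Nonempty K]
  (e : X →ₗ[ℝ] C(K, ℝ)) (y : ℕ → X)

theorem caseA (hy : ∀ n, ‖y n‖ ≤ 3) (hS : Sys fun n k => e (y n) k)
    (ψ : C(K, ℝ)) (h0 : ∀ k, 0 ≤ ψ k) (h1 : ∀ k, ψ k ≤ 1 / 24) (x : X)
    (hψ : ∀ n c, (∃ k, 1 / 2 ≤ e (y n) k) → ¬ ∀ k, 1 / 2 ≤ e (y n) k → e x k + ‖x‖ * ψ k = c) :
    Bad (fun x => sS univ (e x + ‖x‖ • ψ)) x := by
  refine ⟨3, by norm_num, fun δ hδ => ?_⟩
  set φ := e x + ‖x‖ • ψ with hφ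
  have hφk : ∀ k, φ k = e x k + ‖x‖ * ψ k := fun k => by simp [hφ]
  set m := sS univ φ with hm
  have hle : ∀ k, φ k ≤ m := fun k => le_sS isCompact_univ univ_nonempty φ trivial
  set t := δ / 2 with ht
  have ht0 : 0 < t := by positivity
  have hU : {k | m - t / 8 < φ k ∧ φ k < m}.Nonempty := by
    by_contra hne
    obtain ⟨k0, -, hk0, -⟩ := sS_ex isCompact_univ univ_nonempty φ
    obtain ⟨n, a1, a2, -⟩ := hS.base {k | m - t / 8 < φ k}
      (isOpen_lt continuous_const φ.continuous) ⟨k0, by simp only [mem_ofPred_eq]; linarith⟩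
    refine hψ n m a1 fun k hk => ?_
    rw [← hφk]
    by_contra h
    exact hne ⟨k, a2 k hk, lt_of_le_of_ne (hle k) h⟩
  obtain ⟨n, ⟨k1, hk1⟩, a2, -⟩ := hS.base _ ((isOpen_lt continuous_const φ.continuous).inter
    (isOpen_lt φ.continuous continuous_const)) hU
  have hc : IsCompact {k | 1 / 2 ≤ e (y n) k} :=
    (isClosed_le continuous_const (e (y n)).continuous).isCompact
  obtain ⟨k2, hk2, -, hk2'⟩ := sS_ex hc ⟨k1, hk1⟩ φ
  have hm' : φ k2 < m := (a2 k2 hk2).2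
  have hval : ∀ s, 0 < s → ∀ k,
      |(e (x + s • y n) + ‖x + s • y n‖ • ψ) k - (φ k + s * e (y n) k)| ≤ s / 8 := by
    intro s hs k
    have e1 : (e (x + s • y n) + ‖x + s • y n‖ • ψ) k - (φ k + s * e (y n) k) =
        (‖x + s • y n‖ - ‖x‖) * ψ k := by
      simp only [hφk, map_add, map_smul, ContinuousMap.add_apply, ContinuousMap.smul_apply,
        smul_eq_mul]; ring
    have e2 : |‖x + s • y n‖ - ‖x‖| ≤ s * 3 := by
      refine (abs_norm_sub_norm_le _ _).trans ?_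
      rw [add_sub_cancel_left, norm_smul, Real.norm_eq_abs, abs_of_pos hs]
      have := hy n; gcongr
    rw [e1, abs_mul, abs_of_nonneg (h0 k)]
    calc _ ≤ s * 3 * (1 / 24) := by
          have := h1 k
          have := h0 k
          gcongr
      _ = s / 8 := by ring
  refine ⟨y n, hy n, t, min t ((m - φ k2) / 2), lt_min ht0 (by linarith), min_le_left _ _,
    by linarith, ?_⟩
  set t' := min t ((m - φ k2) / 2) with ht'
  have ht'0 : 0 < t' := lt_min ht0 (by linarith)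
  have ht'1 : t' ≤ (m - φ k2) / 2 := min_le_right _ _
  have up : quo (fun x => sS univ (e x + ‖x‖ • ψ)) x (y n) t' ≤ 1 / 4 := by
    unfold quo
    rw [div_le_iff₀ ht'0, sub_le_iff_le_add]
    refine sS_le isCompact_univ univ_nonempty _ fun k _ => ?_
    have b1 := (abs_le.1 (hval t' ht'0 k)).2
    beta_reduce
    rw [← hφ, ← hm]
    rcases hS.dich n k with b2 | b2
    · have := mul_le_mul_of_nonneg_left (abs_le.1 b2).2 ht'0.le
      linarith [hle k]
    · have b3 := abs_le.1 b2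
      have := hk2' k (show 1 / 2 ≤ e (y n) k by linarith [b3.1])
      have := mul_le_mul_of_nonneg_left (show e (y n) k ≤ 9 / 8 by linarith [b3.2]) ht'0.le
      linarith
  have lo : 5 / 8 ≤ quo (fun x => sS univ (e x + ‖x‖ • ψ)) x (y n) t := by
    unfold quo
    rw [le_div_iff₀ ht0, le_sub_iff_add_le]
    refine le_trans ?_ (le_sS isCompact_univ univ_nonempty _ (mem_univ k1))
    have b1 := (abs_le.1 (hval t ht0 k1)).1
    beta_reduce
    rw [← hφ, ← hm]
    have b0 : m - t / 8 < φ k1 := (a2 k1 hk1).1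
    rcases hS.dich n k1 with b2 | b2
    · linarith [(abs_le.1 b2).2]
    · have := mul_le_mul_of_nonneg_left (show 7 / 8 ≤ e (y n) k1 by linarith [(abs_le.1 b2).1]) ht0.le
      linarith
  linarith

theorem baire
    (H : ∀ ψ : C(K, ℝ), (∀ k, 0 ≤ ψ k) → (∀ k, ψ k ≤ 1 / 24) → ∃ x : X, x ≠ 0 ∧ ∃ n c,
      (∃ k, 1 / 2 ≤ e (y n) k) ∧ ∀ k, 1 / 2 ≤ e (y n) k → e x k + ‖x‖ * ψ k = c) :
    ∃ n, (∃ k, 1 / 2 ≤ e (y n) k) ∧ ∃ C : ℝ, 0 < C ∧ ∀ φ : C(K, ℝ), ‖φ‖ ≤ 1 →
      ∃ (u : X) (c : ℝ), ‖u‖ ≤ C ∧ ∀ k, 1 / 2 ≤ e (y n) k → |φ k - c - e u k| ≤ 1 / 8 := by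
  let L : ℕ × ℕ → Set C(K, ℝ) := fun p => {ψ | (∃ k, 1 / 2 ≤ e (y p.1) k) ∧ ∃ (u : X) (c : ℝ),
    ‖u‖ ≤ p.2 ∧ ∀ k, 1 / 2 ≤ e (y p.1) k → ψ k = c + e u k}
  have hL : ⋃ p, closure (L p) = univ := by
    refine eq_univ_of_forall fun ψ => ?_
    set b : ℝ := 1 / (48 * (‖ψ‖ + 1)) with hb
    have hb0 : 0 < b := by positivity
    have hb1 : ∀ k, |b * ψ k| ≤ 1 / 48 := by
      intro k
      rw [abs_mul, abs_of_pos hb0]
      have : |ψ k| ≤ ‖ψ‖ + 1 := by linarith [ψ.norm_coe_le_norm k, Real.norm_eq_abs (ψ k)]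
      calc b * |ψ k| ≤ b * (‖ψ‖ + 1) := by gcongr
        _ = 1 / 48 := by rw [hb]; field_simp
    obtain ⟨x, hx, n, c, h1, h2⟩ := H (ContinuousMap.const K (1 / 48) + b • ψ)
      (fun k => by have := abs_le.1 (hb1 k); simp; linarith [this.1])
      (fun k => by have := abs_le.1 (hb1 k); simp; linarith [this.2])
    have hx' : 0 < ‖x‖ := norm_pos_iff.2 hx
    obtain ⟨m, hm⟩ := exists_nat_ge ‖(-(‖x‖ * b)⁻¹) • x‖
    refine mem_iUnion.2 ⟨(n, m), subset_closure ⟨h1, _, (c - ‖x‖ / 48) / (‖x‖ * b), hm,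
      fun k hk => ?_⟩⟩
    have := h2 k hk
    simp only [ContinuousMap.add_apply, ContinuousMap.const_apply, ContinuousMap.smul_apply,
      smul_eq_mul, map_smul] at this ⊢
    rw [← this]; field_simp; ring
  obtain ⟨⟨n, m⟩, ψ, hψ⟩ := nonempty_interior_of_iUnion_of_closed
    (fun p => isClosed_closure (s := L p)) hL
  obtain ⟨r, hr, hb⟩ := Metric.mem_nhds_iff.1 (mem_interior_iff_mem_nhds.1 hψ)
  obtain ⟨ψ0, ⟨h1, u0, c0, h2, h3⟩, h4⟩ :=
    Metric.mem_closure_iff.1 (hb (Metric.mem_ball_self hr)) (r / 32) (by positivity)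
  refine ⟨n, h1, 4 * (m + 1) / r, by positivity, fun φ hφ => ?_⟩
  obtain ⟨ψ1, ⟨-, u1, c1, g2, g3⟩, g4⟩ :=
    Metric.mem_closure_iff.1 (hb (show ψ + (r / 2) • φ ∈ Metric.ball ψ r by
      rw [mem_ball_iff_norm, add_sub_cancel_left, norm_smul, Real.norm_eq_abs,
        abs_of_pos (half_pos hr)]
      nlinarith)) (r / 32) (by positivity)
  refine ⟨(2 / r) • (u1 - u0), 2 / r * (c1 - c0), ?_, fun k hk => ?_⟩
  · rw [norm_smul, Real.norm_eq_abs, abs_of_pos (by positivity)]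
    have := norm_sub_le u1 u0
    simp only at h2 g2
    calc 2 / r * ‖u1 - u0‖ ≤ 2 / r * (2 * (m + 1)) := by gcongr; linarith
      _ = _ := by ring
  · have a1 := ((ContinuousMap.dist_apply_le_dist k).trans_lt h4).le
    have a2 := ((ContinuousMap.dist_apply_le_dist k).trans_lt g4).le
    rw [h3 k hk, Real.dist_eq] at a1
    rw [g3 k hk, Real.dist_eq] at a2
    simp only [ContinuousMap.add_apply, ContinuousMap.smul_apply, smul_eq_mul, map_smul, map_sub,
      ContinuousMap.sub_apply] at a2 ⊢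
    have e1 : φ k - 2 / r * (c1 - c0) - 2 / r * (e u1 k - e u0 k) =
        2 / r * ((ψ k + r / 2 * φ k - (c1 + e u1 k)) - (ψ k - (c0 + e u0 k))) := by
      field_simp; ring
    rw [e1, abs_mul, abs_of_pos (by positivity)]
    calc _ ≤ 2 / r * (r / 32 + r / 32) := by
          gcongr; exact (abs_sub _ _).trans (add_le_add a2 a1)
      _ = 1 / 8 := by field_simp; ring

end caseA

end Pool.Agent.H93.Ssd2
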