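import Mathlib
import Pool.Agent.H93.Ssd2

set_option autoImplicit false
set_option linter.style.haveILetI false

/-! The octahedral case. -/

namespace Pool.Agent.H93.Ssd3

open Set Filter Topology TopologicalSpace Pool.Agent.H93.Ssd1 Pool.Agent.H93.Ssd2

variable {X : Type} [NormedAddCommGroup X] [NormedSpace ℝ X]

/-- second difference -/
def sd (g : X → ℝ) (z h : X) : ℝ := g (z + h) + g (z - h) - 2 * g z

theorem oct_data {K : Type} [TopologicalSpace K] [CompactSpace K] [T2Space K]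
    (e : X →ₗ[ℝ] C(K, ℝ)) (y : ℕ → X) (he : ∀ x k, |e x k| ≤ ‖x‖)
    (hS : Sys fun n k => e (y n) k) (n : ℕ) (hn : ∃ k, 1 / 2 ≤ e (y n) k) (C : ℝ)
    (H : ∀ φ : C(K, ℝ), ‖φ‖ ≤ 1 →
      ∃ (u : X) (c : ℝ), ‖u‖ ≤ C ∧ ∀ k, 1 / 2 ≤ e (y n) k → |φ k - c - e u k| ≤ 1 / 8) :
    ∃ (q : X → ℝ) (E : ℕ → X), Sub q ∧ (∀ x, q x ≤ ‖x‖) ∧ (∀ k, ‖E k‖ ≤ C) ∧
      ∀ z γ, 0 < γ → ∀ᶠ k in atTop, ∀ t, 0 < t → 3 / 4 * t - γ ≤ sd q z (t • E k) := by
  classical
  let S : ℕ → Set K := fun j => {k | 1 / 2 ≤ e (y j) k}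
  have hSo : ∀ j, IsOpen (S j) := by
    intro j
    have : S j = {k | 1 / 4 < e (y j) k} := by
      ext k
      simp only [S, mem_ofPred_eq]
      rcases hS.dich j k with h | h <;> rw [abs_le] at h <;> constructor <;> intro <;>
        linarith [h.1, h.2]
    rw [this]; exact isOpen_lt continuous_const (e _).continuous
  have hSc : IsCompact (S n) := (isClosed_le continuous_const (e (y n)).continuous).isCompact
  have hinf : ∀ j, (S j).Nonempty → (S j).Infinite := by
    rintro j ⟨k, hk⟩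
    have : (𝓝[≠] k).NeBot := by
      rw [neBot_iff, Ne, ← isOpen_singleton_iff_punctured_nhds]
      intro ho
      obtain ⟨m, ⟨k1, a1⟩, a2, k2, a3, a4⟩ := hS.base _ ho (singleton_nonempty k)
      have := a2 k1 a1
      rw [mem_singleton_iff] at this a3
      rw [this] at a1; rw [a3] at a4; linarith
    exact infinite_of_mem_nhds k ((hSo j).mem_nhds hk)
  obtain ⟨k0, hk0⟩ := hn
  have ha : ∀ j, ∃ a : K, (S j).Nonempty → a ∈ S j := fun j => by
    by_cases h : (S j).Nonempty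
    · exact ⟨h.some, fun _ => h.some_mem⟩
    · exact ⟨k0, fun h' => absurd h' h⟩
  choose a ha using ha
  have hφ : ∀ m : ℕ, ∃ φ : C(K, ℝ), ‖φ‖ ≤ 1 ∧ ∀ j ≤ m, (S j).Nonempty →
      φ (a j) = 1 ∧ ∃ b ∈ S j, φ b = 0 := by
    intro m
    have hA : (a '' Iic m).Finite := (finite_Iic m).image a
    have hb : ∀ j : {j // (S j).Nonempty}, ∃ b, b ∈ S j ∧ b ∉ a '' Iic m := fun j =>
      ((hinf j j.2).sdiff hA).nonempty
    choose b hb1 hb2 using hb
    have hB : (b '' {j | j.1 ≤ m}).Finite :=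
      ((finite_Iic m).preimage Subtype.val_injective.injOn).image b
    obtain ⟨φ, h1, h2, h3⟩ := exists_continuous_zero_one_of_isClosed hB.isClosed hA.isClosed (by
      rw [Set.disjoint_left]; rintro _ ⟨j, -, rfl⟩; exact hb2 j)
    refine ⟨φ, (ContinuousMap.norm_le _ zero_le_one).2 fun k => ?_, fun j hj hne =>
      ⟨h2 ⟨j, hj, rfl⟩, b ⟨j, hne⟩, hb1 ⟨j, hne⟩, h1 ⟨⟨j, hne⟩, hj, rfl⟩⟩⟩
    rw [Real.norm_eq_abs, abs_of_nonneg (h3 k).1]; exact (h3 k).2
  choose φ hφ1 hφ2 using hφ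
  choose E c hE1 hE2 using fun m => H (φ m) (hφ1 m)
  have hne : (S n).Nonempty := ⟨k0, hk0⟩
  have hsub := sub_sS hSc hne e he 0 (fun _ => le_rfl) (fun _ => zero_le_one)
  simp only [smul_zero, add_zero] at hsub
  refine ⟨fun x => sS (S n) (e x), E, hsub,
    fun x => sS_le hSc hne _ fun k _ => (abs_le.1 (he x k)).2, hE1, fun z γ hγ => ?_⟩
  obtain ⟨k1, hk1, hk2, -⟩ := sS_ex hSc hne (e z)
  obtain ⟨j, a1, a2, -⟩ := hS.base (S n ∩ {k | sS (S n) (e z) - γ / 2 < e z k})
    ((hSo n).inter (isOpen_lt continuous_const (e z).continuous))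
    ⟨k1, hk1, by simp only [mem_ofPred_eq]; linarith⟩
  filter_upwards [eventually_ge_atTop j] with m hm t ht
  obtain ⟨p1, b, hb, p2⟩ := hφ2 m j hm a1
  obtain ⟨q1, q2⟩ := a2 _ (ha j a1)
  obtain ⟨q3, q4⟩ := a2 _ hb
  have r1 := le_sS hSc hne (e (z + t • E m)) q1
  have r2 := le_sS hSc hne (e (z - t • E m)) q3
  have s1 := abs_le.1 (hE2 m _ q1)
  have s2 := abs_le.1 (hE2 m _ q3)
  rw [p1] at s1; rw [p2] at s2
  simp only [mem_ofPred_eq] at q2 q4
  simp only [map_add, map_sub, map_smul, ContinuousMap.add_apply, ContinuousMap.sub_apply,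
    ContinuousMap.smul_apply, smul_eq_mul] at r1 r2
  have : t * (3 / 4) ≤ t * (e (E m) (a j) - e (E m) b) := by
    gcongr; linarith [s1.1, s1.2, s2.1, s2.2]
  simp only [sd, map_add, map_sub, map_smul]
  linarith

/-- jointly sublinear -/
structure Sub2 (g : X → ℝ → ℝ) : Prop where
  add : ∀ x y s s', g (x + y) (s + s') ≤ g x s + g y s'
  smul : ∀ (t : ℝ) x s, 0 ≤ t → g (t • x) (t * s) = t * g x s
  bdd : ∀ x, g x 0 ≤ ‖x‖

lemma Sub2.lip {g : X → ℝ → ℝ} (hg : Sub2 g) (x h : X) (s : ℝ) : |g (x + h) s - g x s| ≤ ‖h‖ := by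
  have a := hg.add x h s 0
  have b := hg.add (x + h) (-h) s 0
  have c := hg.bdd h
  have d := hg.bdd (-h)
  rw [norm_neg] at d
  rw [add_zero] at a b
  rw [add_neg_cancel_right] at b
  rw [abs_le]; constructor <;> linarith

lemma Sub2.incr {g : X → ℝ → ℝ} (hg : Sub2 g) (x v : X) (s : ℝ) {t d : ℝ} (ht : 0 < t)
    (hd : 0 ≤ d) : g (x + t • v) s + g (x + d • v) s ≤ g x s + g (x + (d + t) • v) s := by
  have hs : 0 < d + t := by linarith
  set l := d / (d + t) with hl
  have l0 : 0 ≤ l := by positivity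
  have l1 : 0 ≤ 1 - l := by rw [sub_nonneg, hl, div_le_one hs]; linarith
  have a := hg.add (l • x) ((1 - l) • (x + (d + t) • v)) (l * s) ((1 - l) * s)
  have b := hg.add ((1 - l) • x) (l • (x + (d + t) • v)) ((1 - l) * s) (l * s)
  rw [hg.smul _ _ _ l0, hg.smul _ _ _ l1] at a b
  have e1 : l • x + (1 - l) • (x + (d + t) • v) = x + t • v := by
    have : (1 - l) * (d + t) = t := by rw [hl]; field_simp; ring
    rw [smul_add, smul_smul, this, ← add_assoc, ← add_smul]; simp
  have e2 : (1 - l) • x + l • (x + (d + t) • v) = x + d • v := by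
    have : l * (d + t) = d := by rw [hl]; field_simp
    rw [smul_add, smul_smul, this, ← add_assoc, ← add_smul]; simp
  rw [e1, show l * s + (1 - l) * s = s by ring] at a
  rw [e2, show (1 - l) * s + l * s = s by ring] at b
  linarith

/-- averaging operator -/
noncomputable def av (M : ℕ) (w : X) (g : X → ℝ → ℝ) (x : X) (s : ℝ) : ℝ :=
  (∑ j ∈ Finset.range M, g (x + ((j : ℝ) * s) • w) s) / M

lemma av_le {M : ℕ} (hM : 0 < M) {f : ℕ → ℝ} {c : ℝ} (h : ∀ j ∈ Finset.range M, f j ≤ c) :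
    (∑ j ∈ Finset.range M, f j) / M ≤ c := by
  rw [div_le_iff₀ (by exact_mod_cast hM)]
  have := Finset.sum_le_card_nsmul _ _ _ h
  simpa [mul_comm] using this

lemma le_av {M : ℕ} (hM : 0 < M) {f : ℕ → ℝ} {c : ℝ} (h : ∀ j ∈ Finset.range M, c ≤ f j) :
    c ≤ (∑ j ∈ Finset.range M, f j) / M := by
  rw [le_div_iff₀ (by exact_mod_cast hM)]
  have := Finset.card_nsmul_le_sum _ _ _ h
  simpa [mul_comm] using this

lemma Sub2.av {g : X → ℝ → ℝ} (hg : Sub2 g) {M : ℕ} (hM : 0 < M) (w : X) : Sub2 (av M w g) := by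
  refine ⟨fun x y s s' => ?_, fun t x s ht => ?_, fun x => ?_⟩
  · unfold Ssd3.av
    rw [← add_div, ← Finset.sum_add_distrib]
    gcongr with j
    refine le_trans (le_of_eq ?_) (hg.add _ _ _ _)
    congr 1
    rw [mul_add, add_smul]; abel
  · unfold Ssd3.av
    rw [← mul_div_assoc, Finset.mul_sum]
    congr 1
    refine Finset.sum_congr rfl fun j _ => ?_
    rw [← hg.smul _ _ _ ht, smul_add, smul_smul]
    congr 3; ring
  · exact av_le hM fun j _ => by simpa using hg.bdd x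

lemma sd_av (M : ℕ) (w : X) (g : X → ℝ → ℝ) (s : ℝ) (z h : X) :
    sd (fun x => av M w g x s) z h =
      (∑ j ∈ Finset.range M, sd (fun x => g x s) (z + ((j : ℝ) * s) • w) h) / M := by
  simp only [sd, av, Finset.sum_sub_distrib, Finset.sum_add_distrib, ← Finset.mul_sum]
  have e1 : ∀ j : ℕ, z + h + ((j : ℝ) * s) • w = z + ((j : ℝ) * s) • w + h := fun j => by abel
  have e2 : ∀ j : ℕ, z - h + ((j : ℝ) * s) • w = z + ((j : ℝ) * s) • w - h := fun j => by abel
  simp only [e1, e2]; ring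

lemma Sub2.kink {g : X → ℝ → ℝ} (hg : Sub2 g) (v z : X) (s : ℝ) {t d : ℝ} (ht : 0 < t)
    (hd : t ≤ d) (n : ℕ) :
    ∑ j ∈ Finset.range n, sd (fun x => g x s) (z + ((j : ℝ) * d) • v) (t • v) ≤
      2 * ‖t • v‖ := by
  have key : ∀ n : ℕ, ∑ j ∈ Finset.range (n + 1), sd (fun x => g x s) (z + ((j : ℝ) * d) • v) (t • v)
      ≤ g (z + ((n : ℝ) * d) • v + t • v) s - g (z + ((n : ℝ) * d) • v) s + ‖t • v‖ := by
    intro n
    induction n with
    | zero =>
      have := (abs_le.1 (hg.lip z (-(t • v)) s)).2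
      rw [norm_neg, ← sub_eq_add_neg] at this
      simp only [zero_add, Finset.range_one, Finset.sum_singleton, sd, Nat.cast_zero, zero_mul,
        zero_smul, add_zero]
      linarith
    | succ n ih =>
      rw [Finset.sum_range_succ]
      have := hg.incr (z + ((n : ℝ) * d) • v) v s ht (sub_nonneg.2 hd)
      have e1 : z + ((n : ℝ) * d) • v + (d - t) • v = z + (((n + 1 : ℕ) : ℝ) * d) • v - t • v := by
        push_cast; rw [add_mul, one_mul, add_smul, sub_smul]; abel
      have e2 : z + ((n : ℝ) * d) • v + (d - t + t) • v = z + (((n + 1 : ℕ) : ℝ) * d) • v := by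
        push_cast; rw [add_mul, one_mul, add_smul _ d, sub_add_cancel]; abel
      rw [e1, e2] at this
      simp only [sd] at ih ⊢
      linarith
  cases n with
  | zero => simp
  | succ n =>
    have := (abs_le.1 (hg.lip (z + ((n : ℝ) * d) • v) (t • v) s)).2
    linarith [key n]

/-- iterated averages -/
noncomputable def Ph (q : X → ℝ) (M : ℕ) (w : ℕ → X) : ℕ → X → ℝ → ℝ
  | 0 => fun x _ => q x
  | k + 1 => av M (w k) (Ph q M w k)

theorem caseB (q : X → ℝ) (E : ℕ → X) (C : ℝ) (hC : 0 < C) (hq : Sub q) (hq1 : ∀ x, q x ≤ ‖x‖)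
    (hE : ∀ k, ‖E k‖ ≤ C)
    (hO : ∀ z γ, 0 < γ → ∀ᶠ k in atTop, ∀ t, 0 < t → 3 / 4 * t - γ ≤ sd q z (t • E k)) :
    ∃ Q : X → ℝ, Sub Q ∧ ∀ x, x ≠ 0 → Bad Q x := by
  obtain ⟨M, hM⟩ := exists_nat_ge (16 * C)
  have hM0 : (0 : ℝ) < M := by linarith
  have hM0' : 0 < M := by exact_mod_cast hM0
  set κ : ℝ := 1 / (32 * (C + 1)) with hκ
  have hκ0 : 0 < κ := by positivity
  have hκ1 : κ * C ≤ 1 / 32 := by
    rw [hκ, div_mul_eq_mul_div, div_le_div_iff₀ (by positivity) (by positivity)]; linarith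
  have hκ2 : κ ≤ 1 / 2 := by
    rw [hκ, div_le_div_iff₀ (by positivity) (by positivity)]; linarith
  let c : ℕ → ℝ := fun k => κ / 2 / 2 ^ k / (M * C)
  have hc : ∀ k, 0 < c k := fun k => by positivity
  let P := Ph q M (fun k => c k • E k)
  have hP : ∀ k, Sub2 (P k) := by
    intro k
    induction k with
    | zero => exact ⟨fun x y _ _ => hq.add x y, fun t x _ ht => hq.smul t x ht, hq1⟩
    | succ k ih => exact ih.av hM0' _
  have hd : ∀ x s k, dist (P k x s) (P (k + 1) x s) ≤ κ * |s| / 2 / 2 ^ k := by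
    intro x s k
    have b : ∀ j ∈ Finset.range M, |P k (x + ((j : ℝ) * s) • c k • E k) s - P k x s| ≤
        κ * |s| / 2 / 2 ^ k := by
      intro j hj
      refine ((hP k).lip _ _ _).trans ?_
      have hj' : (j : ℝ) ≤ M := by exact_mod_cast (Finset.mem_range.1 hj).le
      rw [norm_smul, norm_smul, Real.norm_eq_abs, Real.norm_eq_abs, abs_mul, abs_of_pos (hc k),
        Nat.abs_cast]
      have := hE k
      have := hc k
      calc (j : ℝ) * |s| * (c k * ‖E k‖) ≤ M * |s| * (c k * C) := by gcongr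
        _ = _ := by simp only [c]; field_simp
    rw [Real.dist_eq, abs_le]
    constructor
    · have : P (k + 1) x s ≤ P k x s + κ * |s| / 2 / 2 ^ k :=
        av_le hM0' fun j hj => by linarith [(abs_le.1 (b j hj)).2]
      linarith
    · have : P k x s - κ * |s| / 2 / 2 ^ k ≤ P (k + 1) x s :=
        le_av hM0' fun j hj => by linarith [(abs_le.1 (b j hj)).1]
      linarith
  have hlim : ∀ x s, ∃ a, Tendsto (fun k => P k x s) atTop (𝓝 a) := fun x s =>
    cauchySeq_tendsto_of_complete (cauchySeq_of_le_geometric_two (hd x s))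
  choose Φ hΦ using hlim
  have hΦd : ∀ x s k, |P k x s - Φ x s| ≤ κ * |s| / 2 ^ k := fun x s k =>
    dist_le_of_le_geometric_two_of_tendsto (hd x s) (hΦ x s) k
  have hΦS : Sub2 Φ := by
    refine ⟨fun x y s s' => ?_, fun t x s ht => ?_, fun x => ?_⟩
    · exact le_of_tendsto_of_tendsto' (hΦ _ _) ((hΦ x s).add (hΦ y s')) fun k => (hP k).add _ _ _ _
    · refine tendsto_nhds_unique (hΦ _ _) ?_
      simp only [(hP _).smul t x s ht]
      exact (hΦ x s).const_mul t
    · exact le_of_tendsto' (hΦ _ _) fun k => (hP k).bdd x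
  have hq0 : q 0 = 0 := by simpa using hq.smul 0 0 le_rfl
  have hΦ0 : ∀ s, Φ 0 s ≤ κ * |s| := by
    intro s
    have := (abs_le.1 (hΦd 0 s 0)).1
    have e : P 0 0 s = q 0 := rfl
    rw [e, hq0] at this
    simp only [pow_zero, div_one] at this; linarith
  have hΦl : ∀ x s s', Φ x s ≤ Φ x s' + κ * |s - s'| := by
    intro x s s'
    have := hΦS.add x 0 s' (s - s')
    rw [add_zero, add_sub_cancel] at this
    linarith [hΦ0 (s - s')]
  have sdlim : ∀ z h s, Tendsto (fun k => sd (fun x => P k x s) z h) atTop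
      (𝓝 (sd (fun x => Φ x s) z h)) := fun z h s =>
    ((hΦ _ s).add (hΦ _ s)).sub ((hΦ _ s).const_mul 2)
  have hkink : ∀ k z s t, 0 < t → t ≤ s * c k → sd (fun x => Φ x s) z (t • E k) ≤ t / 8 := by
    intro k z s t ht hts
    have : ∀ n z, sd (fun x => P (n + (k + 1)) x s) z (t • E k) ≤ t / 8 := by
      intro n
      induction n with
      | zero =>
        intro z
        rw [zero_add]
        refine (sd_av M (c k • E k) (P k) s z _).trans_le ?_
        have := (hP k).kink (E k) z s ht hts M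
        simp only [smul_smul, mul_assoc]
        rw [div_le_iff₀ hM0]
        refine this.trans ?_
        rw [norm_smul, Real.norm_eq_abs, abs_of_pos ht]
        have := hE k
        nlinarith
      | succ n ih =>
        intro z
        rw [show n + 1 + (k + 1) = (n + (k + 1)) + 1 by ring]
        exact (sd_av M _ (P _) s z _).trans_le (av_le hM0' fun j _ => ih _)
    exact le_of_tendsto' ((sdlim z _ s).comp (tendsto_add_atTop_nat (k + 1))) fun n => this n z
  have hoct : ∀ n s z γ, 0 < γ → ∀ᶠ k in atTop, ∀ t, 0 < t →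
      3 / 4 * t - γ ≤ sd (fun x => P n x s) z (t • E k) := by
    intro n s
    induction n with
    | zero => exact hO
    | succ n ih =>
      intro z γ hγ
      have := (eventually_all_finset (Finset.range M)).2 fun j _ =>
        ih (z + ((j : ℝ) * s) • c n • E n) γ hγ
      filter_upwards [this] with k hk t ht
      exact (le_av hM0' fun j hj => hk j hj t ht).trans (sd_av M _ (P n) s z _).ge
  let Q : X → ℝ := fun x => Φ x ‖x‖ + κ * ‖x‖
  refine ⟨Q, ⟨fun x y => ?_, fun t x ht => ?_, fun x => ?_⟩, fun x hx => ⟨C, hC, fun δ hδ => ?_⟩⟩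
  · have a := hΦl (x + y) ‖x + y‖ (‖x‖ + ‖y‖)
    rw [abs_sub_comm, abs_of_nonneg (sub_nonneg.2 (norm_add_le x y))] at a
    have b := hΦS.add x y ‖x‖ ‖y‖
    simp only [Q]; linarith
  · simp only [Q]
    rw [norm_smul, Real.norm_eq_abs, abs_of_nonneg ht, hΦS.smul _ _ _ ht]; ring
  · have a := hΦl x ‖x‖ 0
    have b := hΦS.bdd x
    rw [sub_zero, abs_norm] at a
    have := mul_le_mul_of_nonneg_right hκ2 (norm_nonneg x)
    simp only [Q]; linarith
  · have hs : 0 < ‖x‖ := norm_pos_iff.2 hx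
    have hcmp : ∀ k t, 0 < t → |sd Q x (t • E k) - sd (fun z => Φ z ‖x‖) x (t • E k)| ≤ t / 8 := by
      intro k t ht
      have one : ∀ h : X, ‖h‖ ≤ t * C →
          |Q (x + h) - (Φ (x + h) ‖x‖ + κ * ‖x‖)| ≤ t / 16 := by
        intro h hh
        have a := hΦl (x + h) ‖x + h‖ ‖x‖
        have b := hΦl (x + h) ‖x‖ ‖x + h‖
        rw [abs_sub_comm] at b
        have c1 : |‖x + h‖ - ‖x‖| ≤ t * C := by
          refine (abs_norm_sub_norm_le _ _).trans ?_
          rwa [add_sub_cancel_left]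
        have c2 : κ * |‖x + h‖ - ‖x‖| ≤ t / 32 := by
          calc _ ≤ κ * (t * C) := by gcongr
            _ = t * (κ * C) := by ring
            _ ≤ t * (1 / 32) := by gcongr
            _ = _ := by ring
        have c3 := mul_le_mul_of_nonneg_left (le_abs_self (‖x + h‖ - ‖x‖)) hκ0.le
        have c4 := mul_le_mul_of_nonneg_left (neg_abs_le (‖x + h‖ - ‖x‖)) hκ0.le
        simp only [Q]
        rw [abs_le]; constructor <;> linarith
      have hn : ‖t • E k‖ ≤ t * C := by
        rw [norm_smul, Real.norm_eq_abs, abs_of_pos ht]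
        have := hE k; gcongr
      have o1 := abs_le.1 (one _ hn)
      have o2 := abs_le.1 (one (-(t • E k)) (by rwa [norm_neg]))
      rw [← sub_eq_add_neg] at o2
      have e : Q x = Φ x ‖x‖ + κ * ‖x‖ := rfl
      simp only [sd]
      rw [abs_le]; constructor <;> linarith [o1.1, o1.2, o2.1, o2.2]
    set t := δ / 2 with ht
    have ht0 : 0 < t := by positivity
    obtain ⟨n, hn⟩ := pow_unbounded_of_one_lt (κ * ‖x‖ / (t / 64)) (show (1 : ℝ) < 2 by norm_num)
    have hn' : κ * |‖x‖| / 2 ^ n ≤ t / 64 := by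
      rw [abs_norm, div_le_iff₀ (by positivity)]
      rw [div_lt_iff₀ (by positivity)] at hn
      linarith
    obtain ⟨k, hk⟩ := (hoct n ‖x‖ x (t / 16) (by positivity)).exists
    have big : 1 / 2 * t ≤ sd Q x (t • E k) := by
      have a := hk t ht0
      have b := (abs_le.1 (hcmp k t ht0)).1
      have d1 := (abs_le.1 (hΦd (x + t • E k) ‖x‖ n)).2
      have d2 := (abs_le.1 (hΦd (x - t • E k) ‖x‖ n)).2
      have d3 := (abs_le.1 (hΦd x ‖x‖ n)).1
      simp only [sd] at a b ⊢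
      linarith
    set t' := min t (‖x‖ * c k) with ht'
    have ht'0 : 0 < t' := lt_min ht0 (mul_pos hs (hc k))
    have small : sd Q x (t' • E k) ≤ 1 / 4 * t' := by
      have a := hkink k x ‖x‖ t' ht'0 (min_le_right _ _)
      have b := (abs_le.1 (hcmp k t' ht'0)).2
      linarith
    have hquo : ∀ s, 0 < s → quo Q x (E k) s + quo Q x (-E k) s = sd Q x (s • E k) / s := by
      intro s _
      simp only [quo, sd, smul_neg, ← sub_eq_add_neg]; ring
    have q1 := hquo t ht0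
    have q2 := hquo t' ht'0
    have q3 : 1 / 2 ≤ sd Q x (t • E k) / t := by rwa [le_div_iff₀ ht0]
    have q4 : sd Q x (t' • E k) / t' ≤ 1 / 4 := by rwa [div_le_iff₀ ht'0]
    by_cases hh : quo Q x (E k) t' + 1 / 8 ≤ quo Q x (E k) t
    · exact ⟨E k, hE k, t, t', ht'0, min_le_left _ _, by linarith, hh⟩
    · exact ⟨-E k, by rw [norm_neg]; exact hE k, t, t', ht'0, min_le_left _ _, by linarith,
        by linarith⟩

end Pool.Agent.H93.Ssd3
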