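import Mathlib

set_option autoImplicit false

open Set Metric Filter Topology

namespace Pool.Agent.H93.Star

variable {Y : Type*} [NormedAddCommGroup Y] [NormedSpace ℝ Y]

/-- The norm is not rough at `z`. -/
def SM (z : Y) : Prop :=
  ∃ δ > 0, ∀ h : Y, ‖h‖ ≤ δ → ‖z + h‖ + ‖z - h‖ ≤ 2 * ‖z‖ + ‖h‖ / 2

theorem SM.smul {z : Y} (hz : SM z) {t : ℝ} (ht : 0 < t) : SM (t • z) := by
  obtain ⟨δ, hδ, h⟩ := hz
  refine ⟨t * δ, by positivity, fun k hk => ?_⟩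
  have e : k = t • (t⁻¹ • k) := by rw [smul_inv_smul₀ ht.ne']
  have hn : ∀ v : Y, ‖t • v‖ = t * ‖v‖ := fun v => by rw [norm_smul, Real.norm_of_nonneg ht.le]
  have h1 : ‖t⁻¹ • k‖ ≤ δ := by
    have := hn (t⁻¹ • k)
    rw [← e] at this
    rw [this] at hk
    exact le_of_mul_le_mul_left hk ht
  have h2 := mul_le_mul_of_nonneg_left (h _ h1) ht.le
  rw [e, ← smul_add, ← smul_sub, hn, hn, hn, hn]
  linarith

theorem SM_of_diff {z : Y} (hz : DifferentiableAt ℝ (fun y : Y => ‖y‖) z) : SM z := by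
  have h1 := (hasFDerivAt_iff_isLittleO_nhds_zero.1 hz.hasFDerivAt).def
    (by norm_num : (0 : ℝ) < 1 / 4)
  obtain ⟨δ, hδ, h⟩ := Metric.eventually_nhds_iff.1 h1
  refine ⟨δ / 2, by positivity, fun k hk => ?_⟩
  have a1 := h (y := k) (by rw [dist_zero_right]; linarith)
  have a2 := h (y := -k) (by rw [dist_zero_right, norm_neg]; linarith)
  rw [Real.norm_eq_abs] at a1 a2
  rw [map_neg, norm_neg, ← sub_eq_add_neg] at a2
  linarith [(abs_le.1 a1).2, (abs_le.1 a2).2]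

theorem weak_cl (hinf : ¬ FiniteDimensional ℝ Y) {ι : Type*} (c : ι → Y) (r : ι → ℝ) {F : Set ι}
    (hF : F.Finite) {y p : Y} {R : ℝ} (hy : ‖y - p‖ ≤ R) (hn : ∀ j ∈ F, r j < ‖y - c j‖) :
    ∃ x, ‖x - p‖ = R ∧ ∀ j ∈ F, r j < ‖x - c j‖ := by
  have : Finite F := hF
  choose f hf1 hf2 using fun j => exists_dual_vector'' ℝ (y - c j)
  let T : Y →ₗ[ℝ] (F → ℝ) := LinearMap.pi fun j => (f j.1 : Y →ₗ[ℝ] ℝ)
  have hT : ¬ Function.Injective T := fun h => hinf (Module.Finite.of_injective T h)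
  rw [injective_iff_map_eq_zero] at hT
  push Not at hT
  obtain ⟨v, hv, hv0⟩ := hT
  have hvp : 0 < ‖v‖ := norm_pos_iff.2 hv0
  have hcont : Continuous fun t : ℝ => ‖y + t • v - p‖ := by fun_prop
  have hR : 0 ≤ R := (norm_nonneg _).trans hy
  have hbig : R ≤ ‖y + (2 * R / ‖v‖) • v - p‖ := by
    have e : (2 * R / ‖v‖) • v = (y + (2 * R / ‖v‖) • v - p) - (y - p) := by abel
    have h1 : ‖(2 * R / ‖v‖) • v‖ = 2 * R := by
      rw [norm_smul, Real.norm_of_nonneg (by positivity)]; field_simp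
    have h2 := norm_sub_le (y + (2 * R / ‖v‖) • v - p) (y - p)
    rw [← e, h1] at h2
    linarith
  obtain ⟨t, -, ht⟩ := intermediate_value_Icc (show (0 : ℝ) ≤ 2 * R / ‖v‖ by positivity)
    hcont.continuousOn (show R ∈ Icc _ _ from ⟨by simpa using hy, hbig⟩)
  refine ⟨y + t • v, ht, fun j hj => ?_⟩
  have h1 : f j v = 0 := congrFun hv ⟨j, hj⟩
  have h2 : f j (y + t • v - c j) = ‖y - c j‖ := by
    have : y + t • v - c j = (y - c j) + t • v := by abel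
    rw [this, map_add, map_smul, h1, hf2]; simp
  have h3 := (f j).le_opNorm (y + t • v - c j)
  rw [h2, Real.norm_of_nonneg (norm_nonneg _)] at h3
  nlinarith [hn j hj, hf1 j, norm_nonneg (y + t • v - c j)]

theorem first_hit {W : Set Y} (hW : IsClosed W) {γ : ℝ → Y} (hγ : Continuous γ) {a b s t : ℝ}
    (hs : s ∈ Icc a b) (ht : t ∈ Icc a b) (h1 : γ s ∈ W) (h2 : γ t ∉ W) :
    ∃ τ ∈ Icc a b, γ τ ∈ W ∧ γ τ ∈ closure Wᶜ := by
  obtain ⟨τ, hτ, h3, h4⟩ := isPreconnected_closed_iff.1 (isPreconnected_Icc (a := a) (b := b))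
    (γ ⁻¹' W) (γ ⁻¹' closure Wᶜ) (hW.preimage hγ) (isClosed_closure.preimage hγ)
    (fun x _ => by
      by_cases hx : γ x ∈ W
      · exact Or.inl hx
      · exact Or.inr (subset_closure hx)) ⟨s, hs, h1⟩ ⟨t, ht, subset_closure h2⟩
  exact ⟨τ, hτ, h3, h4⟩

theorem key_ineq {c w q c' y' : Y} {R δ e s μ τ ρ : ℝ} (hw : ‖w‖ = 1) (hR : 0 < R)
    (hδ : ∀ h : Y, ‖h‖ ≤ δ → ‖w + h‖ + ‖w - h‖ ≤ 2 * ‖w‖ + ‖h‖ / 2) (hδ0 : 0 < δ) (hδ1 : δ ≤ 1)
    (hδe : R * δ ≤ e) (hs0 : 0 < s) (hμ : μ = s * δ) (hse : s ≤ e) (hsR : 40 * s ≤ δ * R)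
    (hτ1 : s ≤ τ) (hτ2 : τ ≤ s + μ) (ha : ‖q - τ • w - (c + R • w)‖ ≤ 4 * s) (hρ : e ≤ ρ)
    (hdis : R + ρ < ‖c' - c‖) (hy : ‖c' - y'‖ ≤ ρ) (hya : ‖y' - (q - τ • w)‖ ≤ μ / 4) :
    ‖c' - q‖ ≤ ρ + s := by
  have hμ0 : 0 < μ := by rw [hμ]; positivity
  have hμs : μ ≤ s := by rw [hμ]; nlinarith
  have hτ0 : 0 < τ := by linarith
  have hρ0 : 0 < ρ := by linarith
  set v := c' - y' with hv
  set k : ℝ := μ / (τ * ρ) with hk
  have hk0 : 0 < k := by positivity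
  have hkρ : k * ρ = μ / τ := by rw [hk]; field_simp
  have hτk : τ * k = μ / ρ := by rw [hk]; field_simp
  have hl : μ / τ ≤ δ := by rw [div_le_iff₀ hτ0, hμ]; nlinarith
  have hh : ‖k • v‖ ≤ μ / τ := by
    rw [norm_smul, Real.norm_of_nonneg hk0.le, ← hkρ]; gcongr
  have hsm := hδ _ (hh.trans hl)
  have hRk : R * k ≤ 1 := by
    have : R * k * ρ ≤ 1 * ρ := by
      rw [mul_assoc, hkρ]; nlinarith
    exact le_of_mul_le_mul_right this hρ0
  have hτk1 : τ * k ≤ 1 := by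
    rw [hτk, div_le_one hρ0]; linarith
  have e1 : c' - c = (y' - (q - τ • w)) + (q - τ • w - (c + R • w)) + R • (w + k • v) +
      (1 - R * k) • v := by
    rw [hv]; module
  have e2 : c' - q = (y' - (q - τ • w)) - τ • (w - k • v) + (1 - τ * k) • v := by
    rw [hv]; module
  have b1 : ‖c' - c‖ ≤ μ / 4 + 4 * s + R * ‖w + k • v‖ + (1 - R * k) * ρ := by
    rw [e1]
    refine (norm_add_le _ _).trans (add_le_add ((norm_add_le _ _).trans (add_le_add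
      ((norm_add_le _ _).trans (add_le_add hya ha)) ?_)) ?_)
    · rw [norm_smul, Real.norm_of_nonneg hR.le]
    · rw [norm_smul, Real.norm_of_nonneg (by linarith)]
      exact mul_le_mul_of_nonneg_left hy (by linarith)
  have b2 : ‖c' - q‖ ≤ μ / 4 + τ * ‖w - k • v‖ + (1 - τ * k) * ρ := by
    rw [e2]
    refine (norm_add_le _ _).trans (add_le_add ((norm_sub_le _ _).trans (add_le_add hya ?_)) ?_)
    · rw [norm_smul, Real.norm_of_nonneg hτ0.le]
    · rw [norm_smul, Real.norm_of_nonneg (by linarith)]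
      exact mul_le_mul_of_nonneg_left hy (by linarith)
  set l := μ / τ with hl'
  have hτl : τ * l = μ := by rw [hl']; field_simp
  have e3 : (1 - R * k) * ρ = ρ - R * l := by rw [← hkρ]; ring
  have e4 : (1 - τ * k) * ρ = ρ - μ := by rw [← hτl, ← hkρ]; ring
  rw [hw] at hsm
  have b3 : R * ‖w - k • v‖ ≤ R * (1 - l / 2) + 5 * s := by nlinarith
  have b4 : R * (τ * ‖w - k • v‖) ≤ R * (τ - μ / 2 + μ / 4) := by
    have h1 := mul_le_mul_of_nonneg_left b3 hτ0.le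
    have h2 : τ * (5 * s) ≤ R * (μ / 4) := by rw [hμ]; nlinarith
    have h3 : τ * (R * (1 - l / 2)) = R * (τ - μ / 2) := by rw [← hτl]; ring
    nlinarith
  have b5 := le_of_mul_le_mul_left b4 hR
  linarith

theorem inner_ball {p y : Y} {r s : ℝ} (hr : 0 < r) (hs0 : 0 ≤ s) (hs : s ≤ r) (hy : ‖y - p‖ ≤ r) :
    ∃ q, ‖q - y‖ ≤ s ∧ ‖q - p‖ ≤ r - s ∧ ∃ t : ℝ, q = y + t • (p - y) := by
  have h1 : 0 ≤ s / r := by positivity
  have h2 : s / r ≤ 1 := by rwa [div_le_one hr]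
  have h3 : s / r * r = s := by field_simp
  refine ⟨y + (s / r) • (p - y), ?_, ?_, _, rfl⟩
  · rw [add_sub_cancel_left, norm_smul, Real.norm_of_nonneg h1, norm_sub_rev]
    nlinarith
  · have : y + (s / r) • (p - y) - p = (1 - s / r) • (y - p) := by module
    rw [this, norm_smul, Real.norm_of_nonneg (by linarith)]
    nlinarith

theorem balls_meet {a b : Y} {r s : ℝ} (hr : 0 ≤ r) (hs : 0 ≤ s) (h : ‖a - b‖ ≤ r + s) :
    (closedBall a r ∩ closedBall b s).Nonempty := by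
  obtain ⟨z, h1, h2⟩ := exists_dist_le_le (x := a) (z := b) hr hs
    (by rw [dist_eq_norm]; linarith)
  exact ⟨z, by rwa [mem_closedBall, dist_comm], h2⟩

end Pool.Agent.H93.Star
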