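import Mathlib
import Pool.Agent.H93.Star1

set_option autoImplicit false

open Set Metric Filter Topology

namespace Pool.Agent.H93.Star

variable {Y : Type*} [NormedAddCommGroup Y] [NormedSpace ℝ Y] {ι : Type*}

/-- A star-finite family of closed balls with dense union. -/
structure Fam (c : ι → Y) (r : ι → ℝ) : Prop where
  pos : ∀ i, 0 < r i
  star : ∀ i, {j | (closedBall (c i) (r i) ∩ closedBall (c j) (r j)).Nonempty}.Finite
  dense : Dense (⋃ i, closedBall (c i) (r i))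

/-- The singular points of the family. -/
def Sing (c : ι → Y) (r : ι → ℝ) : Set Y :=
  {x | ∀ θ > 0, {j | (closedBall (c j) (r j) ∩ ball x θ).Nonempty}.Infinite}

variable {c : ι → Y} {r : ι → ℝ}

omit [NormedSpace ℝ Y] in
theorem isClosed_sing : IsClosed (Sing c r) := by
  refine isClosed_of_closure_subset fun x hx θ hθ => ?_
  obtain ⟨y, hy, hxy⟩ := Metric.mem_closure_iff.1 hx (θ / 2) (by positivity)
  refine (hy (θ / 2) (by positivity)).mono ?_
  rintro j ⟨z, hz1, hz2⟩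
  refine ⟨z, hz1, ?_⟩
  rw [mem_ball] at hz2 ⊢
  linarith [dist_triangle z y x, dist_comm x y]

omit [NormedSpace ℝ Y] in
theorem Fam.sing_of (h : Fam c r) {W : Set Y} (hW : IsClosed W) {b : Y} (hb : b ∈ closure Wᶜ)
    (hk : ∀ k, b ∈ closedBall (c k) (r k) → closedBall (c k) (r k) ⊆ W) : b ∈ Sing c r := by
  intro θ hθ hfin
  set E := {j | (closedBall (c j) (r j) ∩ ball b θ).Nonempty} with hE
  set Z := ⋃ k ∈ {k ∈ E | b ∉ closedBall (c k) (r k)}, closedBall (c k) (r k) with hZ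
  have hZc : IsClosed Z :=
    (hfin.subset (sep_subset _ _)).isClosed_biUnion fun _ _ => isClosed_closedBall
  have hbZ : b ∉ Z := by
    simp only [hZ, mem_iUnion, not_exists]
    exact fun k hk => hk.2
  have hV : IsOpen (ball b θ ∩ Zᶜ) := isOpen_ball.inter hZc.isOpen_compl
  have h1 := mem_closure_iff.1 hb _ hV ⟨mem_ball_self hθ, hbZ⟩
  obtain ⟨z, ⟨⟨hz1, hz2⟩, hz3⟩, hz4⟩ := h.dense.inter_open_nonempty _ (hV.inter hW.isOpen_compl) h1
  obtain ⟨k, hzk⟩ := mem_iUnion.1 hz4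
  by_cases hbk : b ∈ closedBall (c k) (r k)
  · exact hz3 (hk k hbk hzk)
  · exact hz2 (mem_biUnion (t := fun k => closedBall (c k) (r k))
      (show k ∈ {k ∈ E | b ∉ closedBall (c k) (r k)} from ⟨⟨z, hzk, hz1⟩, hbk⟩) hzk)

theorem Fam.sing_ne (h : Fam c r) (hinf : ¬ FiniteDimensional ℝ Y)
    (hmin : ∀ i, ∃ y ∈ closedBall (c i) (r i), ∀ j ≠ i, y ∉ closedBall (c j) (r j)) (i : ι) :
    ∃ x ∈ Sing c r, x ∈ closedBall (c i) (r i) := by
  obtain ⟨y, hy, hyj⟩ := hmin i
  obtain ⟨x, hx, hxj⟩ := weak_cl hinf c r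
    ((h.star i).subset (sdiff_subset (t := {i}))) (mem_closedBall_iff_norm.1 hy)
    (fun j hj => by
      have := hyj j hj.2
      rwa [mem_closedBall_iff_norm, not_le] at this)
  have hxi : x ∈ closedBall (c i) (r i) := mem_closedBall_iff_norm.2 hx.le
  refine ⟨x, h.sing_of isClosed_closedBall (W := closedBall (c i) (r i)) ?_ fun k hk => ?_, hxi⟩
  · rw [closure_compl, interior_closedBall _ (h.pos i).ne', mem_compl_iff, mem_ball_iff_norm, hx]
    exact lt_irrefl _
  · by_cases hki : k = i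
    · rw [hki]
    · have := hxj k ⟨⟨x, hxi, hk⟩, hki⟩
      rw [mem_closedBall_iff_norm] at hk
      linarith

theorem Fam.baire [CompleteSpace Y] [Countable ι] (h : Fam c r) (hinf : ¬ FiniteDimensional ℝ Y)
    (hmin : ∀ i, ∃ y ∈ closedBall (c i) (r i), ∀ j ≠ i, y ∉ closedBall (c j) (r j))
    (hT : ∀ y, (∀ i, y ∉ closedBall (c i) (r i)) → ∃ σ > 0, ∀ i, ∀ z ∈ closedBall (c i) (r i),
      min σ (r i / 2) ≤ dist z y) :
    ∃ x ∈ Sing c r, ∃ θ > 0, ∃ i, ∀ y ∈ Sing c r, dist y x < θ → y ∈ closedBall (c i) (r i) := by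
  obtain ⟨z0, hz0⟩ := h.dense.nonempty
  obtain ⟨i0, -⟩ := mem_iUnion.1 hz0
  obtain ⟨x0, hx0, -⟩ := h.sing_ne hinf hmin i0
  have : Nonempty (Sing c r) := ⟨⟨x0, hx0⟩⟩
  have : CompleteSpace (Sing c r) := isClosed_sing.completeSpace_coe
  let f : ι ⊕ ℕ → Set Y := Sum.elim (fun i => closedBall (c i) (r i)) fun m =>
    ⋂ i, ⋂ z ∈ closedBall (c i) (r i), {y | min (1 / ((m : ℝ) + 1)) (r i / 2) ≤ dist z y}
  have hfc : ∀ k, IsClosed (f k) := by
    rintro (i | m)
    · exact isClosed_closedBall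
    · exact isClosed_iInter fun i => isClosed_biInter fun z _ =>
        isClosed_le continuous_const (by fun_prop)
  obtain ⟨k, x, hx⟩ := nonempty_interior_of_iUnion_of_closed
    (f := fun k => ((↑) : Sing c r → Y) ⁻¹' f k)
    (fun k => (hfc k).preimage continuous_subtype_val) (by
      refine eq_univ_of_forall fun y => mem_iUnion.2 ?_
      by_cases hy : ∃ i, (y : Y) ∈ closedBall (c i) (r i)
      · obtain ⟨i, hi⟩ := hy
        exact ⟨Sum.inl i, hi⟩
      · push Not at hy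
        obtain ⟨σ, hσ, hh⟩ := hT y hy
        obtain ⟨m, hm⟩ := exists_nat_one_div_lt hσ
        refine ⟨Sum.inr m, ?_⟩
        simp only [f, Sum.elim_inr, mem_preimage, mem_iInter, mem_ofPred_eq]
        exact fun i z hz => (min_le_min_right _ hm.le).trans (hh i z hz))
  obtain ⟨θ, hθ, hb⟩ := Metric.mem_nhds_iff.1 (mem_interior_iff_mem_nhds.1 hx)
  rcases k with i | m
  · exact ⟨x, x.2, θ, hθ, i, fun y hy hyx => hb (show (⟨y, hy⟩ : Sing c r) ∈ ball x θ from hyx)⟩
  · exfalso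
    have hm : (0 : ℝ) < 1 / ((m : ℝ) + 1) := by positivity
    have key : ∀ y ∈ Sing c r, dist y x < θ → ∀ i, ∀ z ∈ closedBall (c i) (r i),
        min (1 / ((m : ℝ) + 1)) (r i / 2) ≤ dist z y := by
      intro y hy hyx
      have := hb (show (⟨y, hy⟩ : Sing c r) ∈ ball x θ from hyx)
      simpa only [f, Sum.elim_inr, mem_preimage, mem_iInter, mem_ofPred_eq] using this
    obtain ⟨j, z, hz1, hz2⟩ := (x.2 (min (1 / ((m : ℝ) + 1)) (θ / 5)) (by positivity)).nonempty
    have h1 := key x x.2 (by simpa using hθ) j z hz1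
    rw [mem_ball, lt_min_iff] at hz2
    have h2 : r j / 2 ≤ dist z x := by
      rcases min_le_iff.1 h1 with h3 | h3
      · linarith [hz2.1]
      · exact h3
    obtain ⟨y, hy1, hy2⟩ := h.sing_ne hinf hmin j
    have h3 : dist y x < θ := by
      rw [mem_closedBall] at hz1 hy2
      linarith [dist_triangle4 y (c j) z x, dist_comm (c j) z, hz2.2]
    have h4 := key y hy1 h3 j y hy2
    rw [dist_self] at h4
    have := lt_min hm (half_pos (h.pos j))
    linarith

theorem Fam.core' [CompleteSpace Y] [Countable ι] (h : Fam c r) (hinf : ¬ FiniteDimensional ℝ Y)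
    (hSM : Dense {z : Y | SM z})
    (hmin : ∀ i, ∃ y ∈ closedBall (c i) (r i), ∀ j ≠ i, y ∉ closedBall (c j) (r j))
    (hT : ∀ y, (∀ i, y ∉ closedBall (c i) (r i)) → ∃ σ > 0, ∀ i, ∀ z ∈ closedBall (c i) (r i),
      min σ (r i / 2) ≤ dist z y) : False := by
  obtain ⟨x1, hx1, θ1, hθ1, i, hD⟩ := h.baire hinf hmin hT
  have hx1i := hD x1 hx1 (by simpa using hθ1)
  set N := {j | x1 ∈ closedBall (c j) (r j)} with hN
  have hNf : N.Finite := (h.star i).subset fun j hj => ⟨x1, hx1i, hj⟩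
  set W := ⋃ j ∈ N, closedBall (c j) (r j) with hW
  have hWc : IsClosed W := hNf.isClosed_biUnion fun _ _ => isClosed_closedBall
  have hiW : closedBall (c i) (r i) ⊆ W :=
    subset_biUnion_of_mem (u := fun j => closedBall (c j) (r j)) hx1i
  set M := {k | (W ∩ closedBall (c k) (r k)).Nonempty} with hM
  have hMf : M.Finite := by
    refine (hNf.biUnion fun j _ => h.star j).subset ?_
    rintro k ⟨z, hz1, hz2⟩
    obtain ⟨j, hj, hzj⟩ := mem_iUnion₂.1 hz1
    exact mem_biUnion hj ⟨z, hzj, hz2⟩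
  have hZc : IsClosed (⋃ k ∈ M \ N, closedBall (c k) (r k)) :=
    (hMf.subset sdiff_subset).isClosed_biUnion fun _ _ => isClosed_closedBall
  obtain ⟨θ0, hθ0, hZ⟩ := Metric.isOpen_iff.1 hZc.isOpen_compl x1 (by
    simp only [mem_compl_iff, mem_iUnion, not_exists]
    exact fun k hk => hk.2)
  set e := θ1 / 3 with he
  have he0 : 0 < e := by positivity
  set θ := min θ0 e with hθ
  have hθp : 0 < θ := lt_min hθ0 he0
  have hθe : θ ≤ e := min_le_right _ _
  -- frontier points of W near x1 are singular, hence in the ball i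
  have hF : ∀ b, dist b x1 < θ → b ∈ W → b ∈ closure Wᶜ → b ∈ Sing c r := by
    intro b hb hbW hbc
    refine h.sing_of hWc hbc fun k hk => ?_
    by_cases hkN : k ∈ N
    · exact subset_biUnion_of_mem (u := fun j => closedBall (c j) (r j)) hkN
    · exact absurd (mem_biUnion (t := fun k => closedBall (c k) (r k))
        (show k ∈ M \ N from ⟨⟨b, hbW, hk⟩, hkN⟩) hk) (hZ (hb.trans_le (min_le_left _ _)))
  -- fatness
  have hfat : ∀ k ∉ M, ∀ z ∈ closedBall (c k) (r k), dist z x1 < θ → e ≤ r k := by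
    intro k hk z hz hzx
    by_contra hlt
    push Not at hlt
    obtain ⟨y, hy1, hy2⟩ := h.sing_ne hinf hmin k
    refine hk ⟨y, hiW (hD y hy1 ?_), hy2⟩
    rw [mem_closedBall] at hz hy2
    linarith [dist_triangle4 y (c k) z x1, dist_comm (c k) z]
  have hfar : ∀ k ∉ M, r i + r k < ‖c k - c i‖ := by
    intro k hk
    by_contra hle
    push Not at hle
    obtain ⟨z, hz1, hz2⟩ := balls_meet (a := c i) (b := c k) (h.pos i).le (h.pos k).le
      (by rwa [norm_sub_rev])
    exact hk ⟨z, hiW hz1, hz2⟩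
  -- a smooth direction
  obtain ⟨k0, ⟨z0, hz0, hz0'⟩, hk0⟩ := ((hx1 (θ / 4) (by positivity)).sdiff hMf).nonempty
  have hz0W : z0 ∉ W := fun hh => hk0 ⟨z0, hh, hz0⟩
  have hSM' : Dense {z : Y | SM (z - c i)} := by
    have := (Homeomorph.subRight (c i)).isOpenMap
    exact hSM.preimage this
  obtain ⟨x', ⟨hx'1, hx'2⟩, hx'3⟩ := hSM'.inter_open_nonempty _
    (isOpen_ball.inter hWc.isOpen_compl) ⟨z0, hz0', hz0W⟩
  set R := r i with hR
  have hR0 : 0 < R := h.pos i
  set n := ‖x' - c i‖ with hn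
  have hRn : R < n := by
    by_contra hle
    exact hx'2 (hiW (mem_closedBall_iff_norm.2 (not_lt.1 hle)))
  have hn0 : 0 < n := by linarith
  set w := n⁻¹ • (x' - c i) with hw
  have hw1 : ‖w‖ = 1 := by
    rw [hw, norm_smul, Real.norm_of_nonneg (by positivity), ← hn]; field_simp
  have hwS : SM w := SM.smul hx'3 (by positivity)
  have hx'e : x' = c i + n • w := by rw [hw, smul_inv_smul₀ hn0.ne']; abel
  have hnR : n - R < θ / 4 := by
    rw [mem_ball, dist_eq_norm] at hx'1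
    rw [mem_closedBall_iff_norm] at hx1i
    have := norm_sub_le_norm_sub_add_norm_sub x' x1 (c i)
    linarith
  have hseg : ∀ τ ∈ Icc R n, dist (c i + τ • w) x1 < θ / 2 := by
    intro τ hτ
    have h1 : dist (c i + τ • w) x' = n - τ := by
      rw [dist_comm, dist_eq_norm]
      conv_lhs => rw [hx'e]
      rw [add_sub_add_left_eq_sub, ← sub_smul, norm_smul, hw1, mul_one,
        Real.norm_of_nonneg (by linarith [hτ.2])]
    rw [mem_ball] at hx'1
    linarith [dist_triangle (c i + τ • w) x' x1, hτ.1]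
  have hnw : ∀ τ : ℝ, 0 ≤ τ → ‖c i + τ • w - c i‖ = τ := fun τ hτ => by
    rw [add_sub_cancel_left, norm_smul, hw1, mul_one, Real.norm_of_nonneg hτ]
  have hx0 : c i + R • w ∈ Sing c r := by
    obtain ⟨τ, hτ, h1, h2⟩ := first_hit hWc (γ := fun τ : ℝ => c i + τ • w) (by fun_prop)
      (left_mem_Icc.2 hRn.le) (right_mem_Icc.2 hRn.le)
      (hiW (mem_closedBall_iff_norm.2 (hnw R hR0.le).le)) (by rw [← hx'e]; exact hx'2)
    have h3 := hF _ (by linarith [hseg τ hτ]) h1 h2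
    have h4 := hD _ h3 (by linarith [hseg τ hτ])
    rw [mem_closedBall_iff_norm, hnw τ (by linarith [hτ.1])] at h4
    rwa [← le_antisymm h4 hτ.1]
  have hx0d := hseg R (left_mem_Icc.2 hRn.le)
  set x0 := c i + R • w with hx0e
  obtain ⟨δ0, hδ0, hsm⟩ := hwS
  set δ := min δ0 (min 1 (e / R)) with hδ
  have hδp : 0 < δ := lt_min hδ0 (lt_min one_pos (by positivity))
  have hδ1 : δ ≤ 1 := (min_le_right _ _).trans (min_le_left _ _)
  have hδe : R * δ ≤ e := by
    have : δ ≤ e / R := (min_le_right _ _).trans (min_le_right _ _)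
    rwa [le_div_iff₀ hR0, mul_comm] at this
  set s := min (δ * R / 40) (θ / 20) with hs
  have hsp : 0 < s := lt_min (by positivity) (by positivity)
  have hs1 : 40 * s ≤ δ * R := by linarith [min_le_left (δ * R / 40) (θ / 20)]
  have hs2 : s ≤ θ / 20 := min_le_right _ _
  set μ := s * δ with hμ
  have hμp : 0 < μ := by positivity
  have hμs : μ ≤ s := by nlinarith
  have hsR : 40 * s ≤ R := by nlinarith
  obtain ⟨k, ⟨y, hy, hy'⟩, hk⟩ := ((hx0 μ hμp).sdiff hMf).nonempty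
  rw [mem_ball] at hy'
  have hke : e ≤ r k := hfat k hk y hy (by linarith [dist_triangle y x0 x1])
  obtain ⟨q, hq1, hq2, -⟩ := inner_ball (h.pos k) hsp.le (by linarith : s ≤ r k)
    (mem_closedBall_iff_norm.1 hy)
  have hqP : closedBall q s ⊆ closedBall (c k) (r k) := by
    apply closedBall_subset_closedBall'
    rw [dist_eq_norm]; linarith
  rw [dist_eq_norm] at hy'
  have hnear : ∀ τ ∈ Icc s (s + μ), ‖q - τ • w - x0‖ ≤ 4 * s := by
    intro τ hτ
    have e1 : q - τ • w - x0 = (q - y) + (y - x0) - τ • w := by abel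
    have h1 : ‖τ • w‖ = τ := by
      rw [norm_smul, hw1, mul_one, Real.norm_of_nonneg (by linarith [hτ.1])]
    rw [e1]
    linarith [norm_sub_le (q - y + (y - x0)) (τ • w), norm_add_le (q - y) (y - x0), hτ.2]
  obtain ⟨τ, hτ, h1, h2⟩ := first_hit hWc (γ := fun τ : ℝ => q - τ • w) (by fun_prop)
    (right_mem_Icc.2 (by linarith : s ≤ s + μ)) (left_mem_Icc.2 (by linarith))
    (hiW (by
      rw [mem_closedBall_iff_norm]
      have e1 : q - (s + μ) • w - c i = (q - y) + (y - x0) + (R - (s + μ)) • w := by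
        rw [hx0e]; module
      have h1 : ‖(R - (s + μ)) • w‖ = R - (s + μ) := by
        rw [norm_smul, hw1, mul_one, Real.norm_of_nonneg (by linarith)]
      rw [e1]
      linarith [norm_add_le (q - y + (y - x0)) ((R - (s + μ)) • w), norm_add_le (q - y) (y - x0)]))
    (fun hh => hk ⟨_, hh, hqP (by
      rw [mem_closedBall_iff_norm, sub_sub_cancel_left, norm_neg, norm_smul, hw1, mul_one,
        Real.norm_of_nonneg hsp.le])⟩)
  have had : dist (q - τ • w) x1 < θ / 2 + 4 * s := by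
    have := hnear τ hτ
    rw [← dist_eq_norm] at this
    linarith [dist_triangle (q - τ • w) x0 x1]
  have ha := hF _ (by linarith) h1 h2
  refine ha (μ / 4) (by positivity) ((hMf.union (h.star k)).subset ?_)
  rintro k' ⟨y', hy1, hy2⟩
  by_cases hk' : k' ∈ M
  · exact Or.inl hk'
  refine Or.inr ?_
  rw [mem_ball] at hy2
  have hke' : e ≤ r k' := hfat k' hk' y' hy1 (by linarith [dist_triangle y' (q - τ • w) x1])
  have := key_ineq (c := c i) (q := q) (c' := c k') (y' := y') hw1 hR0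
    (fun v hv => hsm v (hv.trans (min_le_left _ _))) hδp hδ1 hδe hsp hμ (by linarith) hs1 hτ.1 hτ.2
    (hnear τ hτ) hke' (hfar k' hk') (by rw [norm_sub_rev]; exact mem_closedBall_iff_norm.1 hy1)
    (by rw [← dist_eq_norm]; exact hy2.le)
  obtain ⟨z, hz1, hz2⟩ := balls_meet (h.pos k').le hsp.le this
  exact ⟨z, hqP hz2, hz1⟩

omit [NormedSpace ℝ Y] in
theorem Fam.exists_min (h : Fam c r) : ∃ I : Set ι,
    (∀ x i, x ∈ closedBall (c i) (r i) → ∃ j ∈ I, x ∈ closedBall (c j) (r j)) ∧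
    ∀ i ∈ I, ∃ y ∈ closedBall (c i) (r i), ∀ j ∈ I, j ≠ i → y ∉ closedBall (c j) (r j) := by
  obtain ⟨I, -, hI⟩ := zorn_superset_nonempty
    {I : Set ι | ∀ x i, x ∈ closedBall (c i) (r i) → ∃ j ∈ I, x ∈ closedBall (c j) (r j)}
    (fun C hC hch hne => by
      refine ⟨⋂₀ C, fun x i hx => ?_, fun s hs => sInter_subset_of_mem hs⟩
      set F := {j | x ∈ closedBall (c j) (r j)} with hF
      have hFf : F.Finite := (h.star i).subset fun j hj => ⟨x, hx, hj⟩
      obtain ⟨_, ⟨I0, hI0, rfl⟩, hm⟩ := (wellFounded_lt (α := ℕ)).has_min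
        ((fun I => (I ∩ F).ncard) '' C) (hne.image _)
      obtain ⟨j, hj, hxj⟩ := hC hI0 x i hx
      refine ⟨j, fun I hI => ?_, hxj⟩
      rcases hch.total hI0 hI with h1 | h1
      · exact h1 hj
      · have h2 : I ∩ F = I0 ∩ F := Set.eq_of_subset_of_ncard_le (inter_subset_inter_left _ h1)
          (not_lt.1 (hm _ ⟨I, hI, rfl⟩)) (hFf.subset inter_subset_right)
        have h3 : j ∈ I0 ∩ F := ⟨hj, hxj⟩
        rw [← h2] at h3
        exact h3.1) univ (fun x i hx => ⟨i, trivial, hx⟩)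
  refine ⟨I, hI.prop, fun i hi => ?_⟩
  by_contra hc
  push Not at hc
  have : I ⊆ I \ {i} := hI.le_of_le (y := I \ {i}) (fun x k hx => by
    obtain ⟨j, hj, hxj⟩ := hI.prop x k hx
    by_cases hji : j = i
    · obtain ⟨j', hj', hne, hx'⟩ := hc x (hji ▸ hxj)
      exact ⟨j', ⟨hj', hne⟩, hx'⟩
    · exact ⟨j, ⟨hj, hji⟩, hxj⟩) sdiff_subset
  exact (this hi).2 rfl

theorem Fam.core [CompleteSpace Y] [Countable ι] (h : Fam c r) (hinf : ¬ FiniteDimensional ℝ Y)
    (hSM : Dense {z : Y | SM z})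
    (hT : ∀ y, (∀ i, y ∉ closedBall (c i) (r i)) → ∃ σ > 0, ∀ i, ∀ z ∈ closedBall (c i) (r i),
      min σ (r i / 2) ≤ dist z y) : False := by
  obtain ⟨I, hI1, hI2⟩ := h.exists_min
  have h' : Fam (fun i : I => c i) (fun i : I => r i) := by
    refine ⟨fun i => h.pos i, fun i =>
      ((h.star i).preimage (f := ((↑) : I → ι)) Subtype.val_injective.injOn).subset fun _ hj => hj,
      h.dense.mono fun x hx => ?_⟩
    obtain ⟨i, hi⟩ := mem_iUnion.1 hx
    obtain ⟨j, hj, hxj⟩ := hI1 x i hi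
    exact mem_iUnion.2 ⟨⟨j, hj⟩, hxj⟩
  refine h'.core' hinf hSM (fun i => ?_) fun y hy => ?_
  · obtain ⟨y, hy, hh⟩ := hI2 i i.2
    exact ⟨y, hy, fun j hj => hh j j.2 fun e => hj (Subtype.ext e)⟩
  · obtain ⟨σ, hσ, hh⟩ := hT y fun i hi => by
      obtain ⟨j, hj, hxj⟩ := hI1 y i hi
      exact hy ⟨j, hj⟩ hxj
    exact ⟨σ, hσ, fun i => hh i⟩

end Pool.Agent.H93.Star
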