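import Mathlib
import Pool.Agent.H93.Star2

set_option autoImplicit false

open Set Metric Filter Topology TopologicalSpace

namespace Pool.Agent.H93.Star

variable {X : Type*} [NormedAddCommGroup X] [NormedSpace ℝ X] {ι : Type*}

theorem exists_sub (c : ι → X) (r : ι → ℝ)
    (hpf : ∀ x, {i | x ∈ closedBall (c i) (r i)}.Finite) {S0 : Set X} (hS0 : S0.Countable) :
    ∃ (Y : Submodule ℝ X) (S : Set X), S.Countable ∧ S0 ⊆ S ∧ (Y : Set X) = closure S ∧
      ∀ s ∈ S, ∀ i, s ∈ closedBall (c i) (r i) → c i ∈ S := by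
  have step : ∀ A : {A : Set X // A.Countable}, ∃ A' : {A : Set X // A.Countable}, A.1 ⊆ A'.1 ∧
      (Submodule.span ℝ A.1 : Set X) ⊆ closure A'.1 ∧
      ∀ s ∈ A.1, ∀ i, s ∈ closedBall (c i) (r i) → c i ∈ A'.1 := by
    rintro ⟨A, hA⟩
    obtain ⟨t, -, ht1, ht2⟩ := (hA.isSeparable.span (R := ℝ)).exists_countable_dense_subset
    refine ⟨⟨A ∪ t ∪ ⋃ s ∈ A, c '' {i | s ∈ closedBall (c i) (r i)}, (hA.union ht1).union
      (hA.biUnion fun s _ => ((hpf s).image c).countable)⟩, fun x hx => Or.inl (Or.inl hx),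
      ht2.trans (closure_mono fun x hx => Or.inl (Or.inr hx)), fun s hs i hi => Or.inr ?_⟩
    exact mem_biUnion hs ⟨i, hi, rfl⟩
  choose T hT1 hT2 hT3 using step
  let A : ℕ → Set X := fun n => (T^[n] ⟨S0, hS0⟩).1
  have hA : ∀ n, A (n + 1) = (T (T^[n] ⟨S0, hS0⟩)).1 := fun n => by
    simp only [A, Function.iterate_succ_apply']
  have hmono : Monotone A := monotone_nat_of_le_succ fun n => by rw [hA]; exact hT1 _
  have hspan : ∀ n, (Submodule.span ℝ (A n) : Set X) ⊆ closure (⋃ n, A n) := fun n =>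
    (hT2 _).trans (closure_mono (by rw [← hA]; exact subset_iUnion _ _))
  refine ⟨⟨⟨⟨closure (⋃ n, A n), fun {a b} ha hb => ?_⟩, hspan 0 (Submodule.zero_mem _)⟩,
    fun t a ha => ?_⟩, ⋃ n, A n, countable_iUnion fun n => (T^[n] ⟨S0, hS0⟩).2,
    subset_iUnion A 0, rfl, fun s hs i hi => ?_⟩
  · rw [← isClosed_closure.closure_eq]
    refine map_mem_closure₂ (f := fun a b : X => a + b) continuous_add ha hb fun x hx y hy => ?_
    obtain ⟨n, hn⟩ := mem_iUnion.1 hx
    obtain ⟨m, hm⟩ := mem_iUnion.1 hy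
    exact hspan (max n m) (Submodule.add_mem _
      (Submodule.subset_span (hmono (le_max_left _ _) hn))
      (Submodule.subset_span (hmono (le_max_right _ _) hm)))
  · change t • a ∈ closure (⋃ n, A n)
    rw [← isClosed_closure.closure_eq]
    refine map_mem_closure (f := fun a : X => t • a) (by fun_prop) ha fun x hx => ?_
    obtain ⟨n, hn⟩ := mem_iUnion.1 hx
    exact hspan n (Submodule.smul_mem _ _ (Submodule.subset_span hn))
  · obtain ⟨n, hn⟩ := mem_iUnion.1 hs
    exact mem_iUnion.2 ⟨n + 1, by rw [hA]; exact hT3 _ s hn i hi⟩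

theorem smooth [CompleteSpace X] (hinf : ¬ FiniteDimensional ℝ X) (hSM : ∀ z : X, z ≠ 0 → SM z)
    (c : ι → X) (r : ι → ℝ) (hr : ∀ i, 0 < r i)
    (hstar : ∀ i, {j | (closedBall (c i) (r i) ∩ closedBall (c j) (r j)).Nonempty}.Finite)
    (hcov : ∀ x, ∃ i, x ∈ closedBall (c i) (r i)) : False := by
  have hpf : ∀ x, {i | x ∈ closedBall (c i) (r i)}.Finite := fun x => by
    obtain ⟨i, hi⟩ := hcov x
    exact (hstar i).subset fun j hj => ⟨x, hi, hj⟩
  let b := Module.Free.chooseBasis ℝ X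
  have : Infinite (Module.Free.ChooseBasisIndex ℝ X) := by
    by_contra hc
    rw [not_infinite_iff_finite] at hc
    exact hinf (Module.Finite.of_basis b)
  let v : ℕ → X := fun n => b (Infinite.natEmbedding _ n)
  have hv : LinearIndependent ℝ v :=
    b.linearIndependent.comp _ (Infinite.natEmbedding _).injective
  obtain ⟨Y, S, hSc, hS0, hY, hS⟩ := exists_sub c r hpf (countable_range v)
  have hSY : S ⊆ Y := by rw [hY]; exact subset_closure
  have hYc : IsClosed (Y : Set X) := by rw [hY]; exact isClosed_closure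
  have : CompleteSpace Y := hYc.completeSpace_coe
  have hYinf : ¬ FiniteDimensional ℝ Y := fun _ =>
    Module.Finite.not_linearIndependent_of_infinite
      (fun n => (⟨v n, hSY (hS0 ⟨n, rfl⟩)⟩ : Y)) (LinearIndependent.of_comp Y.subtype hv)
  have hopen : ∀ i, ∀ y ∈ Y, y ∈ ball (c i) (r i) → ∃ s ∈ S, s ∈ closedBall (c i) (r i) := by
    intro i y hy hyi
    have hy' : y ∈ closure S := by rw [← hY]; exact hy
    obtain ⟨s, hs1, hs2⟩ := mem_closure_iff.1 hy' _ isOpen_ball hyi
    exact ⟨s, hs2, ball_subset_closedBall hs1⟩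
  set I := {i | c i ∈ Y} with hI
  have hIc : I.Countable := by
    refine (hSc.biUnion fun s _ => (hpf s).countable).mono fun i hi => ?_
    obtain ⟨s, hs1, hs2⟩ := hopen i _ hi (mem_ball_self (hr i))
    exact mem_biUnion hs1 hs2
  have : Countable I := hIc
  have hF : Fam (fun i : I => (⟨c i, i.2⟩ : Y)) (fun i : I => r i) := by
    refine ⟨fun i => hr i, fun i =>
      ((hstar i).preimage (f := ((↑) : I → ι)) Subtype.val_injective.injOn).subset ?_, ?_⟩
    · rintro j ⟨z, hz1, hz2⟩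
      exact ⟨z, hz1, hz2⟩
    · intro y
      rw [Metric.mem_closure_iff]
      intro ε hε
      have hy' : (y : X) ∈ closure S := by rw [← hY]; exact y.2
      obtain ⟨s, hs1, hs2⟩ := Metric.mem_closure_iff.1 hy' ε hε
      obtain ⟨i, hi⟩ := hcov s
      exact ⟨⟨s, hSY hs1⟩, mem_iUnion.2 ⟨⟨i, hSY (hS s hs1 i hi)⟩, hi⟩, hs2⟩
  have : Nontrivial Y := by
    by_contra hc
    rw [not_nontrivial_iff_subsingleton] at hc
    exact hYinf inferInstance
  refine hF.core hYinf ((dense_compl_singleton (0 : Y)).mono fun z hz => ?_) fun y hy => ?_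
  · obtain ⟨δ, hδ, hh⟩ := hSM z fun h0 => hz (Subtype.ext h0)
    exact ⟨δ, hδ, fun k hk => hh k hk⟩
  · obtain ⟨k, hk⟩ := hcov y
    have hout : ∀ y' ∈ Y, r k ≤ ‖y' - c k‖ := by
      intro y' hy'
      by_contra hlt
      obtain ⟨s, hs1, hs2⟩ := hopen k y' hy' (mem_ball_iff_norm.2 (not_le.1 hlt))
      exact hy ⟨k, hSY (hS s hs1 k hs2)⟩ hk
    have hk' := mem_closedBall_iff_norm.1 hk
    obtain ⟨δ, hδ, hh⟩ := hSM (y - c k) (by
      intro h0
      have := hout y y.2
      rw [h0, norm_zero] at this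
      linarith [hr k])
    have hZc : IsClosed (⋃ i ∈ {i | (closedBall (c k) (r k) ∩ closedBall (c i) (r i)).Nonempty} ∩ I,
        closedBall (c i) (r i)) :=
      ((hstar k).subset inter_subset_left).isClosed_biUnion fun _ _ => isClosed_closedBall
    obtain ⟨κ, hκ, hZ⟩ := Metric.isOpen_iff.1 hZc.isOpen_compl y (by
      simp only [mem_compl_iff, mem_iUnion, not_exists]
      exact fun i hi => hy ⟨i, hi.2⟩)
    refine ⟨min κ (δ / 2), by positivity, fun i z hz => ?_⟩
    by_contra hlt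
    rw [not_le, lt_min_iff, lt_min_iff] at hlt
    obtain ⟨⟨h1, h2⟩, h3⟩ := hlt
    have hz' : (z : X) ∈ closedBall (c i) (r i) := hz
    refine hZ (show (z : X) ∈ ball (y : X) κ from h1) (mem_biUnion
      (t := fun i => closedBall (c i) (r i)) (show (i : ι) ∈ _ ∩ I from ⟨?_, i.2⟩) hz')
    set d := dist z y with hd
    have hd' : ‖(z : X) - y‖ = d := by rw [hd, Subtype.dist_eq, dist_eq_norm]
    have hd0 : 0 ≤ d := dist_nonneg
    obtain ⟨q, hq1, hq2, t, hq⟩ := inner_ball (hr i) hd0 (by linarith)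
      (mem_closedBall_iff_norm.1 hz')
    have hqY : q ∈ Y := by
      rw [hq]; exact Y.add_mem z.2 (Y.smul_mem _ (Y.sub_mem i.2 z.2))
    have h4 : ‖q - y‖ ≤ 2 * d := by linarith [norm_sub_le_norm_sub_add_norm_sub q z y]
    have h5 := hh (q - y) (by linarith)
    have h6 := hout (y - (q - y)) (Y.sub_mem y.2 (Y.sub_mem hqY y.2))
    have e1 : (y : X) - c k + (q - y) = q - c k := by abel
    have e2 : (y : X) - c k - (q - y) = y - (q - y) - c k := by abel
    rw [e1, e2] at h5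
    obtain ⟨w, hw1, hw2⟩ := balls_meet (a := c k) (b := q) (hr k).le hd0
      (by rw [norm_sub_rev]; linarith)
    refine ⟨w, hw1, closedBall_subset_closedBall' ?_ hw2⟩
    rw [dist_eq_norm]; linarith

theorem dense_SM [CompleteSpace X] [SeparableSpace (StrongDual ℝ X)] : Dense {z : X | SM z} := by
  let f := denseSeq (StrongDual ℝ X)
  let A : ℕ → Set X := fun k => ⋂ x', {x | ‖x‖ + f k (x' - x) - ‖x' - x‖ / 4 ≤ ‖x'‖}
  have hA : ∀ k, IsClosed (A k) := fun k =>
    isClosed_iInter fun x' => isClosed_le (by fun_prop) continuous_const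
  have hU : ⋃ k, A k = univ := by
    refine eq_univ_of_forall fun x => ?_
    obtain ⟨g, hg1, hg2⟩ := exists_dual_vector'' ℝ x
    obtain ⟨k, hk⟩ := (denseRange_denseSeq (StrongDual ℝ X)).exists_dist_lt g
      (by norm_num : (0 : ℝ) < 1 / 4)
    refine mem_iUnion.2 ⟨k, mem_iInter.2 fun x' => ?_⟩
    rw [dist_comm, dist_eq_norm] at hk
    have h1 := (f k - g).le_opNorm (x' - x)
    have h2 := g.le_opNorm x'
    rw [Real.norm_eq_abs] at h1 h2
    have h3 : (f k - g) (x' - x) = f k (x' - x) - (g x' - ‖x‖) := by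
      rw [sub_apply, map_sub g, hg2]; rfl
    rw [h3] at h1
    rw [mem_ofPred_eq]
    nlinarith [(abs_le.1 h1).2, (abs_le.1 h2).2, norm_nonneg (x' - x), norm_nonneg x']
  refine (dense_iUnion_interior_of_closed hA hU).mono fun z hz => ?_
  obtain ⟨k, hk⟩ := mem_iUnion.1 hz
  obtain ⟨δ, hδ, hb⟩ := Metric.mem_nhds_iff.1 (mem_interior_iff_mem_nhds.1 hk)
  refine ⟨δ / 2, by positivity, fun h hh => ?_⟩
  have h1 := mem_iInter.1 (hb (show z + h ∈ ball z δ by
    rw [mem_ball_iff_norm, add_sub_cancel_left]; linarith)) z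
  have h2 := mem_iInter.1 (hb (show z - h ∈ ball z δ by
    rw [mem_ball_iff_norm, sub_sub_cancel_left, norm_neg]; linarith)) z
  simp only [mem_ofPred_eq, sub_add_cancel_left, sub_sub_cancel, map_neg, norm_neg] at h1 h2
  linarith

theorem sepdual [CompleteSpace X] [SeparableSpace X] (hinf : ¬ FiniteDimensional ℝ X)
    (hSM : Dense {z : X | SM z}) (c : ι → X) (r : ι → ℝ) (hr : ∀ i, 0 < r i)
    (hstar : ∀ i, {j | (closedBall (c i) (r i) ∩ closedBall (c j) (r j)).Nonempty}.Finite)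
    (hcov : ∀ x, ∃ i, x ∈ closedBall (c i) (r i)) : False := by
  have hpf : ∀ x, {i | x ∈ closedBall (c i) (r i)}.Finite := fun x => by
    obtain ⟨i, hi⟩ := hcov x
    exact (hstar i).subset fun j hj => ⟨x, hi, hj⟩
  obtain ⟨S, hSc, hSd⟩ := exists_countable_dense X
  have : Countable ι := by
    rw [← countable_univ_iff]
    refine (hSc.biUnion fun s _ => (hpf s).countable).mono fun i _ => ?_
    obtain ⟨s, hs1, hs2⟩ := hSd.inter_open_nonempty _ isOpen_ball ⟨_, mem_ball_self (hr i)⟩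
    exact mem_biUnion hs2 (ball_subset_closedBall hs1)
  refine Fam.core ⟨hr, hstar, fun x => subset_closure (mem_iUnion.2 (hcov x))⟩ hinf hSM
    fun y hy => ?_
  obtain ⟨i, hi⟩ := hcov y
  exact absurd hi (hy i)

end Pool.Agent.H93.Star
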