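import Mathlib
import Pool.Agent.H93.Star2

set_option autoImplicit false

open Set Metric Filter Topology TopologicalSpace

namespace Pool.Agent.H93.Star

variable {X : Type*} [NormedAddCommGroup X] [NormedSpace ℝ X] {ι : Type*} {c : ι → X} {r : ι → ℝ}

theorem oct_scale {z v : X} {T η : ℝ} (hv : ‖v‖ = 1) (h : ‖z‖ + T - η ≤ ‖z + T • v‖) {s : ℝ}
    (hs : s ∈ Icc 0 T) : ‖z‖ + s - η ≤ ‖z + s • v‖ := by
  have e : z + T • v = (z + s • v) + (T - s) • v := by module
  have h1 := norm_add_le (z + s • v) ((T - s) • v)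
  rw [← e, norm_smul, hv, mul_one, Real.norm_of_nonneg (by linarith [hs.2])] at h1
  linarith

theorem exit (h : Fam c r) (hcov : ∀ x, ∃ i, x ∈ closedBall (c i) (r i))
    (hoct : ∀ (F : Finset X) (ε : ℝ), 0 < ε → ∃ v : X, ‖v‖ = 1 ∧ ∀ z ∈ F, ‖z‖ + 1 - ε ≤ ‖z + v‖)
    (y : X) {T : ℝ} (hT : 0 < T) (hy : ∀ j, y ∈ closedBall (c j) (r j) → r j - T / 2 ≤ ‖y - c j‖)
    {A : Set ι} (hA : A.Finite) (hyA : ∀ j ∈ A, y ∉ closedBall (c j) (r j)) :
    ∃ b ∈ Sing c r, dist b y ≤ T ∧ ∀ j ∈ A, b ∉ closedBall (c j) (r j) := by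
  classical
  obtain ⟨i, hi⟩ := hcov y
  set N := {j | y ∈ closedBall (c j) (r j)} with hN
  have hNf : N.Finite := (h.star i).subset fun j hj => ⟨y, hi, hj⟩
  set W := ⋃ j ∈ N, closedBall (c j) (r j) with hW
  have hWc : IsClosed W := hNf.isClosed_biUnion fun _ _ => isClosed_closedBall
  set M := {k | (W ∩ closedBall (c k) (r k)).Nonempty} with hM
  have hMf : M.Finite := by
    refine (hNf.biUnion fun j _ => h.star j).subset ?_
    rintro k ⟨z, hz1, hz2⟩
    obtain ⟨j, hj, hzj⟩ := mem_iUnion₂.1 hz1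
    exact mem_biUnion hj ⟨z, hzj, hz2⟩
  have hG : ((M ∪ A) \ N).Finite := (hMf.union hA).subset sdiff_subset
  have hZc : IsClosed (⋃ k ∈ (M ∪ A) \ N, closedBall (c k) (r k)) :=
    hG.isClosed_biUnion fun _ _ => isClosed_closedBall
  obtain ⟨η, hη0, hη⟩ : ∃ η > 0, ∀ k ∈ (M ∪ A) \ N, r k + η < ‖y - c k‖ := by
    have : ∀ᶠ η in 𝓝[>] (0 : ℝ), ∀ k ∈ (M ∪ A) \ N, r k + η < ‖y - c k‖ := by
      refine (hG.eventually_all).2 fun k hk => nhdsWithin_le_nhds ?_
      have h1 : r k < ‖y - c k‖ := by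
        have := hk.2
        rwa [hN, mem_ofPred_eq, mem_closedBall_iff_norm, not_le] at this
      exact (continuousAt_const.add continuousAt_id).eventually_lt continuousAt_const
        (by simpa using h1)
    obtain ⟨η, h1, h2⟩ := (this.and self_mem_nhdsWithin).exists
    exact ⟨η, h2, h1⟩
  set η' := min η (T / 4) with hη'
  have hη'0 : 0 < η' := lt_min hη0 (by positivity)
  obtain ⟨v, hv, hF⟩ := hoct (((hMf.union hA).union hNf).toFinset.image fun k => T⁻¹ • (y - c k))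
    (η' / T) (by positivity)
  have key : ∀ k ∈ M ∪ A ∪ N, ∀ s ∈ Icc 0 T, ‖y - c k‖ + s - η' ≤ ‖y + s • v - c k‖ := by
    intro k hk s hs
    have h1 := hF _ (Finset.mem_image_of_mem _ ((Finite.mem_toFinset _).2 hk))
    have h2 : ‖y - c k‖ + T - η' ≤ ‖y - c k + T • v‖ := by
      have e1 : y - c k + T • v = T • (T⁻¹ • (y - c k) + v) := by
        rw [smul_add, smul_inv_smul₀ hT.ne']
      rw [norm_smul, Real.norm_of_nonneg (by positivity)] at h1
      rw [e1, norm_smul, Real.norm_of_nonneg hT.le]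
      have h3 := mul_le_mul_of_nonneg_left h1 hT.le
      have e2 : T * (T⁻¹ * ‖y - c k‖ + 1 - η' / T) = ‖y - c k‖ + T - η' := by field_simp
      linarith
    have h3 := oct_scale hv h2 hs
    rwa [show y - c k + s • v = y + s • v - c k by abel] at h3
  have hout : ∀ k ∈ (M ∪ A) \ N, ∀ s ∈ Icc 0 T, y + s • v ∉ closedBall (c k) (r k) := by
    intro k hk s hs
    rw [mem_closedBall_iff_norm, not_le]
    linarith [key k (Or.inl hk.1) s hs, hη k hk, hs.1, min_le_left η (T / 4)]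
  obtain ⟨τ, hτ, h1, h2⟩ := first_hit hWc (γ := fun s : ℝ => y + s • v) (by fun_prop)
    (left_mem_Icc.2 hT.le) (right_mem_Icc.2 hT.le)
    (by
      rw [zero_smul, add_zero]
      exact mem_biUnion (t := fun j => closedBall (c j) (r j)) (show i ∈ N from hi) hi)
    (by
      intro hh
      obtain ⟨j, hj, hzj⟩ := mem_iUnion₂.1 hh
      rw [mem_closedBall_iff_norm] at hzj
      linarith [key j (Or.inr hj) T (right_mem_Icc.2 hT.le), hy j hj, min_le_right η (T / 4)])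
  refine ⟨_, h.sing_of hWc h2 fun k hk => ?_, ?_, fun j hj => hout j ⟨Or.inr hj, hyA j hj⟩ τ hτ⟩
  · by_cases hkN : k ∈ N
    · exact subset_biUnion_of_mem (u := fun j => closedBall (c j) (r j)) hkN
    · exact absurd hk (hout k ⟨Or.inl ⟨_, h1, hk⟩, hkN⟩ τ hτ)
  · rw [dist_eq_norm, add_sub_cancel_left, norm_smul, hv, mul_one, Real.norm_of_nonneg hτ.1]
    exact hτ.2

theorem octa [CompleteSpace X] [SeparableSpace X]
    (hoct : ∀ (F : Finset X) (ε : ℝ), 0 < ε → ∃ v : X, ‖v‖ = 1 ∧ ∀ z ∈ F, ‖z‖ + 1 - ε ≤ ‖z + v‖)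
    (c : ι → X) (r : ι → ℝ) (hr : ∀ i, 0 < r i)
    (hstar : ∀ i, {j | (closedBall (c i) (r i) ∩ closedBall (c j) (r j)).Nonempty}.Finite)
    (hcov : ∀ x, ∃ i, x ∈ closedBall (c i) (r i)) : False := by
  have hpf : ∀ x, {i | x ∈ closedBall (c i) (r i)}.Finite := fun x => by
    obtain ⟨i, hi⟩ := hcov x
    exact (hstar i).subset fun j hj => ⟨x, hi, hj⟩
  obtain ⟨S, hSc, hSd⟩ := exists_countable_dense X
  have : Countable ι := by
    rw [← countable_univ_iff]
    refine (hSc.biUnion fun s _ => (hpf s).countable).mono fun i _ => ?_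
    obtain ⟨s, hs1, hs2⟩ := hSd.inter_open_nonempty _ isOpen_ball ⟨_, mem_ball_self (hr i)⟩
    exact mem_biUnion hs2 (ball_subset_closedBall hs1)
  have h : Fam c r := ⟨hr, hstar, fun x => subset_closure (mem_iUnion.2 (hcov x))⟩
  have hne : Nonempty (Sing c r) := by
    obtain ⟨T, hT⟩ := ((hpf 0).image r).bddAbove
    obtain ⟨i, hi⟩ := hcov 0
    have hT0 : 0 < T := (hr i).trans_le (hT ⟨i, hi, rfl⟩)
    obtain ⟨b, hb, -⟩ := exit h hcov hoct 0 (T := 2 * T) (by positivity)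
      (fun j hj => by linarith [hT ⟨j, hj, rfl⟩, norm_nonneg (0 - c j)]) finite_empty (by simp)
    exact ⟨⟨b, hb⟩⟩
  have : CompleteSpace (Sing c r) := isClosed_sing.completeSpace_coe
  obtain ⟨i, x, hx⟩ := nonempty_interior_of_iUnion_of_closed
    (f := fun i => ((↑) : Sing c r → X) ⁻¹' closedBall (c i) (r i))
    (fun i => isClosed_closedBall.preimage continuous_subtype_val)
    (eq_univ_of_forall fun y => mem_iUnion.2 (hcov y))
  obtain ⟨θ, hθ, hb⟩ := Metric.mem_nhds_iff.1 (mem_interior_iff_mem_nhds.1 hx)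
  have hxi : (x : X) ∈ closedBall (c i) (r i) := hb (mem_ball_self hθ)
  -- balls through points near x, outside finitely many balls, avoid x
  set N := {j | (x : X) ∈ closedBall (c j) (r j)} with hN
  have hM : (⋃ j ∈ N, {k | (closedBall (c j) (r j) ∩ closedBall (c k) (r k)).Nonempty}).Finite :=
    (hpf x).biUnion fun j _ => hstar j
  obtain ⟨k, ⟨y, hy1, hy2⟩, hk⟩ := ((x.2 (θ / 4) (by positivity)).sdiff hM).nonempty
  have hyN : ∀ j ∈ N, y ∉ closedBall (c j) (r j) := fun j hj hyj =>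
    hk (mem_biUnion hj ⟨y, hyj, hy1⟩)
  rw [mem_ball, dist_eq_norm] at hy2
  obtain ⟨b, hb1, hb2, hb3⟩ := exit h hcov hoct y (T := θ / 2) (by positivity) (fun j hj => by
    have h1 : (x : X) ∉ closedBall (c j) (r j) := fun hh => hyN j hh hj
    rw [mem_closedBall_iff_norm, not_le] at h1
    have := norm_sub_le_norm_sub_add_norm_sub (x : X) y (c j)
    rw [norm_sub_rev (x : X) y] at this
    linarith) (hpf x) hyN
  refine hb3 i hxi (hb (show (⟨b, hb1⟩ : Sing c r) ∈ ball x θ from ?_))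
  rw [mem_ball, Subtype.dist_eq]
  rw [← dist_eq_norm] at hy2
  linarith [dist_triangle b y x]

theorem oct_of_unit (hoct : ∀ (F : Finset X), (∀ x ∈ F, ‖x‖ = 1) → ∀ ε : ℝ, 0 < ε →
      ∃ v : X, ‖v‖ = 1 ∧ ∀ x ∈ F, 2 - ε ≤ ‖x + v‖) (F : Finset X) (ε : ℝ) (hε : 0 < ε) :
    ∃ v : X, ‖v‖ = 1 ∧ ∀ z ∈ F, ‖z‖ + 1 - ε ≤ ‖z + v‖ := by
  classical
  obtain ⟨C, hC⟩ := (F.finite_toSet.image fun z => ‖z‖).bddAbove
  set K := max C 1 with hK
  have hK1 : 1 ≤ K := le_max_right _ _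
  obtain ⟨v, hv, hF⟩ := hoct ((F.filter (· ≠ 0)).image fun z => ‖z‖⁻¹ • z) (by
    intro x hx
    obtain ⟨z, hz, rfl⟩ := Finset.mem_image.1 hx
    exact norm_smul_inv_norm (Finset.mem_filter.1 hz).2) (ε / K) (by positivity)
  refine ⟨v, hv, fun z hz => ?_⟩
  by_cases hz0 : z = 0
  · simp [hz0, hv, hε.le]
  have h1 := hF _ (Finset.mem_image_of_mem _ (Finset.mem_filter.2 ⟨hz, hz0⟩))
  have ha : 0 < ‖z‖ := norm_pos_iff.2 hz0
  have haK : ‖z‖ ≤ K := (hC ⟨z, hz, rfl⟩).trans (le_max_left _ _)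
  have hx : ‖‖z‖⁻¹ • z‖ = 1 := norm_smul_inv_norm hz0
  set a := ‖z‖ with ha'
  set x := a⁻¹ • z with hx'
  have hzx : z = a • x := by rw [hx', smul_inv_smul₀ ha.ne']
  have hεK : K * (ε / K) = ε := by field_simp
  have hε' : 0 < ε / K := by positivity
  rcases le_total 1 a with h | h
  · have e : a • (x + v) = (z + v) + (a - 1) • v := by rw [hzx]; module
    have h2 := norm_add_le (z + v) ((a - 1) • v)
    rw [← e, norm_smul, norm_smul, hv, Real.norm_of_nonneg ha.le,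
      Real.norm_of_nonneg (by linarith)] at h2
    nlinarith
  · have e : x + v = (z + v) + (1 - a) • x := by rw [hzx]; module
    have h2 := norm_add_le (z + v) ((1 - a) • x)
    rw [← e, norm_smul, hx, Real.norm_of_nonneg (by linarith)] at h2
    nlinarith

end Pool.Agent.H93.Star
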