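import Mathlib

set_option autoImplicit false

open Set Metric Filter Topology
open scoped RealInnerProductSpace

namespace Pool.Agent.H93.Til

variable {E : Type*} [NormedAddCommGroup E] [InnerProductSpace ℝ E]

/-- A partition of the space into closed convex bodies, given by the map sending a point to its tile. -/
structure Part (T : E → Set E) : Prop where
  mem : ∀ x, x ∈ T x
  cl : ∀ x, IsClosed (T x)
  cv : ∀ x, Convex ℝ (T x)
  it : ∀ x, (interior (T x)).Nonempty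
  eq : ∀ x y, y ∈ T x → T y = T x

/-- Boundary points of their own tile. -/
def Bd (T : E → Set E) (y : E) : Prop := ∀ ε > 0, ∃ b, dist b y < ε ∧ b ∉ T y

theorem exit {T : E → Set E} (h : Part T) {c q : E} (hc : c ∉ T q) :
    ∃ t : ℝ, 0 < t ∧ t ≤ 1 ∧ c + t • (q - c) ∈ T q ∧ Bd T (c + t • (q - c)) := by
  set S : Set ℝ := Icc 0 1 ∩ {t | c + t • (q - c) ∈ T q} with hS
  have hScl : IsClosed S :=
    isClosed_Icc.inter ((h.cl q).preimage (by fun_prop : Continuous fun t : ℝ => c + t • (q - c)))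
  have h1 : (1 : ℝ) ∈ S := ⟨⟨zero_le_one, le_rfl⟩, by simpa using h.mem q⟩
  have hbd : BddBelow S := ⟨0, fun t ht => ht.1.1⟩
  have hm := hScl.csInf_mem ⟨1, h1⟩ hbd
  set t := sInf S with ht
  have ht0 : 0 < t := by
    rcases hm.1.1.eq_or_lt with h0 | h0
    · exfalso
      have := hm.2
      simp only [mem_ofPred_eq, ← h0, zero_smul, add_zero] at this
      exact hc this
    · exact h0
  refine ⟨t, ht0, hm.1.2, hm.2, fun ε hε => ?_⟩
  have hN : 0 < ‖q - c‖ + 1 := by positivity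
  set δ := min t (ε / (‖q - c‖ + 1)) with hδ
  have hδ0 : 0 < δ := lt_min ht0 (div_pos hε hN)
  refine ⟨c + (t - δ) • (q - c), ?_, ?_⟩
  · rw [dist_eq_norm]
    have : c + (t - δ) • (q - c) - (c + t • (q - c)) = -(δ • (q - c)) := by
      rw [sub_smul]; abel
    rw [this, norm_neg, norm_smul, Real.norm_of_nonneg hδ0.le]
    have h2 : δ ≤ ε / (‖q - c‖ + 1) := min_le_right _ _
    rw [le_div_iff₀ hN] at h2
    nlinarith [norm_nonneg (q - c)]
  · rw [h.eq q _ hm.2]
    intro hmem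
    have : t - δ ∈ S := ⟨⟨by linarith [min_le_left t (ε / (‖q - c‖ + 1))], by linarith [hm.1.2]⟩, hmem⟩
    have := csInf_le hbd this
    linarith

/-- A ball inside a closed set, almost touching its complement in a direction that is almost
not opposite to a prescribed exit direction. -/
theorem touch {K : Set E} {a z : E} (ha : a ∈ interior K) (hz : z ∉ K) {η r : ℝ} (hη : 0 < η)
    (hη1 : η ≤ 1) (hr : 0 < r) :
    ∃ (c q : E) (R : ℝ), 0 < R ∧ R ≤ r ∧ ball c R ⊆ K ∧ q ∉ K ∧ ‖c - a‖ ≤ ‖z - a‖ ∧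
      ‖q - c‖ ^ 2 ≤ R ^ 2 * (1 + η ^ 2) ∧ -(η * R * ‖z - a‖) ≤ ⟪q - c, z - a⟫ := by
  set d := z - a with hd
  have hne : (Kᶜ).Nonempty := ⟨z, hz⟩
  set g : ℝ → ℝ := fun t => infDist (a + t • d) Kᶜ with hg
  have hgc : Continuous g := (continuous_infDist_pt _).comp (by fun_prop)
  have hg0 : 0 < g 0 := by
    simp only [hg, zero_smul, add_zero]
    rw [← infDist_pos_iff_notMem_closure hne, closure_compl]
    simpa using ha
  have hg1 : g 1 = 0 := by
    simp only [hg, one_smul, hd, add_sub_cancel]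
    exact infDist_zero_of_mem hz
  set R := min (g 0 / 2) r with hR
  have hR0 : 0 < R := lt_min (by linarith) hr
  have hRg : R ≤ g 0 / 2 := min_le_left _ _
  set S : Set ℝ := Icc 0 1 ∩ {t | g t ≤ R} with hS
  have hScl : IsClosed S := isClosed_Icc.inter (isClosed_le hgc continuous_const)
  have h1 : (1 : ℝ) ∈ S := ⟨⟨zero_le_one, le_rfl⟩, by simp only [mem_ofPred_eq, hg1]; exact hR0.le⟩
  have hbd : BddBelow S := ⟨0, fun t ht => ht.1.1⟩
  have hm := hScl.csInf_mem ⟨1, h1⟩ hbd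
  set t := sInf S with ht
  have htR : g t ≤ R := hm.2
  have hlt : ∀ s, 0 ≤ s → s < t → R < g s := by
    intro s hs0 hst
    by_contra hcon
    have : s ∈ S := ⟨⟨hs0, by linarith [hm.1.2]⟩, not_lt.1 hcon⟩
    have := csInf_le hbd this
    linarith
  have ht0 : 0 < t := by
    rcases hm.1.1.eq_or_lt with h0 | h0
    · exfalso; rw [← h0] at htR; linarith
    · exact h0
  have hge : ∀ s, 0 ≤ s → s ≤ t → R ≤ g s := by
    intro s hs0 hst
    have hsub : Ico 0 t ⊆ {s | R ≤ g s} := fun s hs => (hlt s hs.1 hs.2).le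
    have := closure_minimal hsub (isClosed_le continuous_const hgc)
    rw [closure_Ico ht0.ne] at this
    exact this ⟨hs0, hst⟩
  have hgt : g t = R := le_antisymm htR (hge t ht0.le le_rfl)
  set c := a + t • d with hc
  have hφ : infDist c Kᶜ = R := hgt
  have hlip : R ≤ t * ‖d‖ := by
    have := infDist_le_infDist_add_dist (s := Kᶜ) (x := a + (0 : ℝ) • d) (y := c)
    rw [hφ, dist_eq_norm] at this
    have e : a + (0 : ℝ) • d - c = -(t • d) := by simp [hc]
    rw [e, norm_neg, norm_smul, Real.norm_of_nonneg ht0.le] at this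
    change g 0 ≤ _ at this
    linarith
  have hd0 : 0 < ‖d‖ := by
    by_contra hcon
    have : ‖d‖ = 0 := le_antisymm (not_lt.1 hcon) (norm_nonneg _)
    rw [this] at hlip; linarith
  obtain ⟨q, hq, hqd⟩ := (infDist_lt_iff hne (x := c) (r := R * (1 + η ^ 2 / 3))).1 (by
    rw [hφ]; have : 0 < R * (η ^ 2 / 3) := by positivity
    linarith)
  rw [dist_comm, dist_eq_norm] at hqd
  have hq2 : ‖q - c‖ ^ 2 ≤ R ^ 2 * (1 + η ^ 2) := by
    have h3 : ‖q - c‖ ^ 2 ≤ (R * (1 + η ^ 2 / 3)) ^ 2 :=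
      pow_le_pow_left₀ (norm_nonneg _) hqd.le 2
    have h4 : η ^ 2 ≤ 1 := by nlinarith
    have h5 : (1 + η ^ 2 / 3) ^ 2 ≤ 1 + η ^ 2 := by nlinarith [sq_nonneg η]
    calc _ ≤ (R * (1 + η ^ 2 / 3)) ^ 2 := h3
      _ = R ^ 2 * (1 + η ^ 2 / 3) ^ 2 := by ring
      _ ≤ _ := mul_le_mul_of_nonneg_left h5 (sq_nonneg _)
  refine ⟨c, q, R, hR0, min_le_right _ _, ?_, hq, ?_, hq2, ?_⟩
  · rw [← hφ]; exact ball_infDist_compl_subset
  · have : c - a = t • d := by simp [hc]
    rw [this, norm_smul, Real.norm_of_nonneg ht0.le]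
    nlinarith [hm.1.2]
  · set t0 := η * R / ‖d‖ with ht0d
    have ht00 : 0 < t0 := by positivity
    have ht0n : t0 * ‖d‖ = η * R := by rw [ht0d]; field_simp
    have ht0t : t0 ≤ t := by
      rw [ht0d, div_le_iff₀ hd0]; nlinarith
    have h6 := hge (t - t0) (by linarith) (by linarith)
    have h7 : g (t - t0) ≤ dist (a + (t - t0) • d) q := infDist_le_dist_of_mem hq
    rw [dist_comm, dist_eq_norm] at h7
    have e : q - (a + (t - t0) • d) = (q - c) + t0 • d := by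
      rw [hc, sub_smul]; abel
    rw [e] at h7
    have h8 : R ^ 2 ≤ ‖(q - c) + t0 • d‖ ^ 2 := pow_le_pow_left₀ hR0.le (h6.trans h7) 2
    rw [norm_add_sq_real, inner_smul_right, norm_smul, Real.norm_of_nonneg ht00.le, ht0n] at h8
    have h9 : -(η ^ 2 * R ^ 2) ≤ t0 * ⟪q - c, d⟫ := by nlinarith
    have h10 : t0 * (-(η * R * ‖d‖)) = -(η ^ 2 * R ^ 2) := by
      have : t0 * (-(η * R * ‖d‖)) = -(η * R * (t0 * ‖d‖)) := by ring
      rw [this, ht0n]; ring
    exact le_of_mul_le_mul_left (by rw [h10]; exact h9) ht00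

theorem step {T : E → Set E} (h : Part T) {y : E} (hy : Bd T y) {ρ η : ℝ} (hρ : 0 < ρ)
    (hη : 0 < η) (hη1 : η ≤ 1) {w : E} (hw : ‖w‖ = 1) :
    ∃ (c y' : E) (R : ℝ), 0 < R ∧ R ≤ η ∧ ball c R ⊆ T c ∧ y' ∉ T c ∧ Bd T y' ∧ dist y' y < ρ ∧
      ‖y' - c‖ ^ 2 ≤ R ^ 2 * (1 + η ^ 2) ∧ ⟪y' - c, w⟫ ≤ 7 * η * R := by
  set τ := ρ / 10 with hτ
  have hτ0 : 0 < τ := by positivity
  set z := y - τ • w with hz
  obtain ⟨b, hb, hbT⟩ := hy (η * τ) (by positivity)
  obtain ⟨a, ha, haz⟩ : ∃ a, dist a y < η * τ ∧ z ∉ T a := by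
    by_cases h1 : z ∈ T y
    · refine ⟨b, hb, fun h2 => hbT ?_⟩
      rw [← h.eq y z h1, h.eq b z h2]; exact h.mem b
    · exact ⟨y, by rw [dist_self]; positivity, h1⟩
  obtain ⟨a', ha'i, ha'⟩ : ∃ a' ∈ interior (T a), dist a a' < η * τ := by
    have := (h.cv a).closure_interior_eq_closure_of_nonempty_interior (h.it a)
    have h2 : a ∈ closure (interior (T a)) := by rw [this]; exact subset_closure (h.mem a)
    exact Metric.mem_closure_iff.1 h2 _ (by positivity)
  obtain ⟨c, q, R, hR0, hRr, hball, hq, hca, hq2, hin⟩ :=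
    touch ha'i haz hη hη1 (lt_min hη hτ0)
  have hcT : T c = T a := h.eq a c (hball (mem_ball_self hR0))
  have hcq : c ∉ T q := fun hc => hq (by rw [← hcT, h.eq q c hc]; exact h.mem q)
  obtain ⟨s, hs0, hs1, hsT, hsB⟩ := exit h hcq
  set y' := c + s • (q - c) with hy'
  have hyc : y' - c = s • (q - c) := by simp [hy']
  have he : ‖y - a'‖ < 2 * (η * τ) := by
    rw [← dist_eq_norm]
    have := dist_triangle_left y a' a
    linarith
  have hdz : z - a' = -(τ • w) + (y - a') := by rw [hz]; abel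
  have hητ : η * τ ≤ τ := by nlinarith
  have hdn : ‖z - a'‖ ≤ 3 * τ := by
    rw [hdz]
    have := norm_add_le (-(τ • w)) (y - a')
    rw [norm_neg, norm_smul, Real.norm_of_nonneg hτ0.le, hw] at this
    linarith
  have hn : ‖y' - c‖ ≤ ‖q - c‖ := by
    rw [hyc, norm_smul, Real.norm_of_nonneg hs0.le]
    nlinarith [norm_nonneg (q - c)]
  have hn2 : ‖y' - c‖ ^ 2 ≤ R ^ 2 * (1 + η ^ 2) :=
    (pow_le_pow_left₀ (norm_nonneg _) hn 2).trans hq2
  have hn3 : ‖y' - c‖ ≤ 2 * R := by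
    have h4 : η ^ 2 ≤ 1 := by nlinarith
    have h5 : ‖y' - c‖ ^ 2 ≤ (2 * R) ^ 2 := by nlinarith [sq_nonneg R]
    exact (pow_le_pow_iff_left₀ (norm_nonneg _) (by positivity) two_ne_zero).1 h5
  refine ⟨c, y', R, hR0, hRr.trans (min_le_left _ _), by rw [hcT]; exact hball, ?_, hsB, ?_, hn2, ?_⟩
  · intro hc
    rw [hcT] at hc
    exact hq (by rw [← h.eq a y' hc, h.eq q y' hsT]; exact h.mem q)
  · rw [dist_eq_norm]
    have e : y' - y = (y' - c) + (c - a') - (y - a') := by abel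
    rw [e]
    have h1 := norm_sub_le ((y' - c) + (c - a')) (y - a')
    have h2 := norm_add_le (y' - c) (c - a')
    have h3 : R ≤ τ := hRr.trans (min_le_right _ _)
    linarith
  · have h1 : -(η * R * ‖z - a'‖) ≤ ⟪y' - c, z - a'⟫ := by
      rw [hyc, inner_smul_left]
      simp only [conj_trivial]
      have h0 : 0 ≤ η * R * ‖z - a'‖ := by positivity
      nlinarith
    rw [hdz, inner_add_right, inner_neg_right, inner_smul_right] at h1
    have h2 : ⟪y' - c, y - a'⟫ ≤ ‖y' - c‖ * ‖y - a'‖ := real_inner_le_norm _ _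
    have h3 : ‖y' - c‖ * ‖y - a'‖ ≤ (2 * R) * (2 * (η * τ)) :=
      mul_le_mul hn3 he.le (norm_nonneg _) (by positivity)
    rw [← hdz] at h1
    have h4 : η * R * ‖z - a'‖ ≤ η * R * (3 * τ) := mul_le_mul_of_nonneg_left hdn (by positivity)
    have h5 : τ * ⟪y' - c, w⟫ ≤ τ * (7 * η * R) := by nlinarith
    exact le_of_mul_le_mul_left h5 hτ0

end Pool.Agent.H93.Til
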