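import Pool.Agent.H93.Til1

set_option autoImplicit false

open Set Metric Filter Topology
open scoped RealInnerProductSpace

namespace Pool.Agent.H93.Til

variable {E : Type*} [NormedAddCommGroup E] [InnerProductSpace ℝ E]

/-- One move of the nested ball construction. -/
def Mv (T : E → Set E) (k : ℕ) (x x' : E × ℝ × E) : Prop :=
  ∃ (c : E) (R η : ℝ), 0 < η ∧ η ≤ 1 / ((k : ℝ) + 1) ∧ 0 < R ∧ R ≤ η ∧ ball c R ⊆ T c ∧
    closedBall x'.1 x'.2.1 ⊆ closedBall x.1 x.2.1 ∧ (∀ p ∈ closedBall x'.1 x'.2.1, p ∉ T c) ∧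
    x'.2.1 ≤ η * R ∧ x'.2.2 = x.2.2 + R⁻¹ • (x'.1 - c) ∧
    ‖x'.1 - c‖ ^ 2 ≤ R ^ 2 * (1 + η ^ 2) ∧ ⟪x'.1 - c, x.2.2⟫ ≤ R

theorem exists_mv [Nontrivial E] {T : E → Set E} (h : Part T) (k : ℕ) (x : E × ℝ × E)
    (hx : Bd T x.1 ∧ 0 < x.2.1) : ∃ x' : E × ℝ × E, (Bd T x'.1 ∧ 0 < x'.2.1) ∧ Mv T k x x' := by
  obtain ⟨y, ρ, s⟩ := x
  obtain ⟨hy, hρ⟩ := hx
  simp only at hy hρ
  obtain ⟨w, hw, hsw⟩ : ∃ w : E, ‖w‖ = 1 ∧ s = ‖s‖ • w := by
    by_cases hs : s = 0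
    · obtain ⟨w, hw⟩ := exists_norm_eq E zero_le_one
      exact ⟨w, hw, by simp [hs]⟩
    · have : ‖s‖ ≠ 0 := norm_ne_zero_iff.2 hs
      refine ⟨‖s‖⁻¹ • s, ?_, ?_⟩
      · rw [norm_smul, norm_inv, norm_norm, inv_mul_cancel₀ this]
      · rw [smul_smul, mul_inv_cancel₀ this, one_smul]
  set η := min (1 / ((k : ℝ) + 1)) (1 / (7 * ‖s‖ + 7)) with hη
  have hη0 : 0 < η := lt_min (by positivity) (by positivity)
  have hηk : η ≤ 1 / ((k : ℝ) + 1) := min_le_left _ _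
  have hη1 : η ≤ 1 := hηk.trans (by
    rw [div_le_one (by positivity)]; linarith [(Nat.cast_nonneg k : (0 : ℝ) ≤ k)])
  have hηs : η * (7 * ‖s‖ + 7) ≤ 1 := by
    have : η ≤ 1 / (7 * ‖s‖ + 7) := min_le_right _ _
    rwa [le_div_iff₀ (by positivity)] at this
  obtain ⟨c, y', R, hR0, hRη, hball, hy'c, hB, hd, hn, hin⟩ := step h hy hρ hη0 hη1 hw
  obtain ⟨ε, hε, hεs⟩ := Metric.isOpen_iff.1 (h.cl c).isOpen_compl y' hy'c
  set ρ' := min (min (ε / 2) (ρ - dist y' y)) (η * R) with hρ'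
  have hρ'0 : 0 < ρ' := lt_min (lt_min (by positivity) (by linarith)) (by positivity)
  have h1 : ρ' ≤ ε / 2 := (min_le_left _ _).trans (min_le_left _ _)
  have h2 : ρ' ≤ ρ - dist y' y := (min_le_left _ _).trans (min_le_right _ _)
  refine ⟨(y', ρ', s + R⁻¹ • (y' - c)), ⟨hB, hρ'0⟩, c, R, η, hη0, hηk, hR0, hRη, hball, ?_, ?_,
    min_le_right _ _, rfl, hn, ?_⟩
  · exact closedBall_subset_closedBall' (by simp only; linarith)
  · intro p hp
    exact hεs (closedBall_subset_ball (by simp only; linarith) hp)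
  · simp only
    rw [hsw, inner_smul_right]
    have h3 : ‖s‖ * ⟪y' - c, w⟫ ≤ ‖s‖ * (7 * η * R) := mul_le_mul_of_nonneg_left hin (norm_nonneg _)
    have h4 : ‖s‖ * (7 * η * R) ≤ R := by nlinarith [norm_nonneg s, mul_pos hη0 hR0]
    linarith

theorem mv_norm {T : E → Set E} {k : ℕ} {x x' : E × ℝ × E} (hm : Mv T k x x') :
    ‖x'.2.2‖ ^ 2 ≤ ‖x.2.2‖ ^ 2 + 4 := by
  obtain ⟨c, R, η, hη0, hηk, hR0, -, -, -, -, -, hs, hn, hin⟩ := hm
  have hη1 : η ≤ 1 := hηk.trans (by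
    rw [div_le_one (by positivity)]; linarith [(Nat.cast_nonneg k : (0 : ℝ) ≤ k)])
  rw [hs, norm_add_sq_real, inner_smul_right, norm_smul, real_inner_comm, mul_pow, norm_inv,
    Real.norm_of_nonneg hR0.le]
  have h1 : R⁻¹ * ⟪x'.1 - c, x.2.2⟫ ≤ 1 := by
    rw [inv_mul_le_iff₀ hR0]; linarith
  have h2 : R⁻¹ ^ 2 * ‖x'.1 - c‖ ^ 2 ≤ 2 := by
    rw [inv_pow, inv_mul_le_iff₀ (by positivity)]
    have : η ^ 2 ≤ 1 := by nlinarith
    nlinarith [sq_nonneg R]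
  linarith

theorem mv_inner {T : E → Set E} (h : Part T) {k : ℕ} {x x' : E × ℝ × E} (hm : Mv T k x x')
    {p m : E} (hp : p ∈ closedBall x'.1 x'.2.1) {θ : ℝ} (hθ : 0 < θ)
    (hmT : closedBall m (2 * θ) ⊆ T p) {l : ℝ} (hl : l * (‖m - p‖ + 2 * θ) ^ 2 = θ)
    (hk1 : 1 / ((k : ℝ) + 1) ≤ l * θ / 4) (hk2 : l * (1 / ((k : ℝ) + 1)) ≤ 1) :
    ⟪x.2.2, m - p⟫ + θ / 4 ≤ ⟪x'.2.2, m - p⟫ := by
  obtain ⟨c, R, η, hη0, hηk, hR0, hRη, hball, -, hnot, hρ, hs, hn, -⟩ := hm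
  have hη1 : η ≤ 1 := hηk.trans (by
    rw [div_le_one (by positivity)]; linarith [(Nat.cast_nonneg k : (0 : ℝ) ≤ k)])
  set u := m - p with hu
  set D := ‖u‖ + 2 * θ with hD
  have hD0 : 0 < D := by positivity
  have hl0 : 0 < l := by
    by_contra hcon
    have : l * D ^ 2 ≤ 0 := mul_nonpos_of_nonpos_of_nonneg (not_lt.1 hcon) (sq_nonneg _)
    linarith
  set v := R⁻¹ • (x'.1 - c) with hv
  have hRv : x'.1 - c = R • v := by rw [hv, smul_smul, mul_inv_cancel₀ hR0.ne', one_smul]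
  have hvn : ‖x'.1 - c‖ = R * ‖v‖ := by rw [hRv, norm_smul, Real.norm_of_nonneg hR0.le]
  have hv2 : ‖v‖ ^ 2 ≤ 1 + η ^ 2 := by
    rw [hvn, mul_pow] at hn
    exact le_of_mul_le_mul_left hn (by positivity)
  have hv1 : 1 ≤ ‖v‖ := by
    have hρ0 : 0 ≤ x'.2.1 := dist_nonneg.trans hp
    have : x'.1 ∉ ball c R := fun hc => hnot _ (mem_closedBall_self hρ0) (hball hc)
    rw [mem_ball, dist_eq_norm, hvn, not_lt] at this
    nlinarith
  have hv3 : ‖v‖ ≤ 2 := by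
    have : η ^ 2 ≤ 1 := by nlinarith
    nlinarith
  set d := u - θ • v with hd
  have hdn : ‖d‖ ≤ D := by
    have := norm_sub_le u (θ • v)
    rw [norm_smul, Real.norm_of_nonneg hθ.le] at this
    nlinarith
  have ht1 : l * R ≤ 1 := by nlinarith
  have hxT : p + (l * R) • d ∈ T p := by
    have h1 : m - θ • v ∈ T p := hmT (by
      rw [mem_closedBall, dist_eq_norm]
      have : m - θ • v - m = -(θ • v) := by abel
      rw [this, norm_neg, norm_smul, Real.norm_of_nonneg hθ.le]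
      nlinarith)
    have h2 := (h.cv p).add_smul_sub_mem (h.mem p) h1 (t := l * R) ⟨by positivity, ht1⟩
    have : m - θ • v - p = d := by rw [hd, hu]; abel
    rwa [this] at h2
  have hxb : R ≤ ‖p + (l * R) • d - c‖ := by
    by_contra hcon
    have h1 : p + (l * R) • d ∈ ball c R := by rw [mem_ball, dist_eq_norm]; exact not_le.1 hcon
    apply hnot p hp
    rw [← h.eq c _ (hball h1), h.eq p _ hxT]; exact h.mem p
  have e : p + (l * R) • d - c = (p - x'.1) + R • (v + l • d) := by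
    rw [smul_add, ← hRv, smul_smul, mul_comm R l]; abel
  rw [e] at hxb
  have h3 := norm_add_le (p - x'.1) (R • (v + l • d))
  rw [norm_smul, Real.norm_of_nonneg hR0.le] at h3
  have h4 : ‖p - x'.1‖ ≤ η * R := by rw [← dist_eq_norm]; exact le_trans hp hρ
  have h5 : 1 - η ≤ ‖v + l • d‖ := by
    have : R * (1 - η) ≤ R * ‖v + l • d‖ := by nlinarith
    exact le_of_mul_le_mul_left this hR0
  have h6 : (1 - η) ^ 2 ≤ ‖v + l • d‖ ^ 2 := pow_le_pow_left₀ (by linarith) h5 2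
  have hvd : ⟪v, d⟫ = ⟪v, u⟫ - θ * ‖v‖ ^ 2 := by
    rw [hd, inner_sub_right, inner_smul_right, real_inner_self_eq_norm_sq]
  rw [norm_add_sq_real, inner_smul_right, norm_smul l d, Real.norm_of_nonneg hl0.le, hvd] at h6
  have h7 : (l * ‖d‖) ^ 2 ≤ l * θ := by
    have : ‖d‖ ^ 2 ≤ D ^ 2 := pow_le_pow_left₀ (norm_nonneg _) hdn 2
    calc (l * ‖d‖) ^ 2 = l * (l * ‖d‖ ^ 2) := by ring
      _ ≤ l * (l * D ^ 2) := by gcongr
      _ = l * θ := by rw [hl]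
  have h8' : 1 ≤ ‖v‖ ^ 2 := one_le_pow₀ hv1
  have h8 : l * θ ≤ l * (θ * ‖v‖ ^ 2) :=
    mul_le_mul_of_nonneg_left (le_mul_of_one_le_right hθ.le h8') hl0.le
  have h9 : l * (θ / 4) ≤ l * ⟪v, u⟫ := by nlinarith
  have h10 := le_of_mul_le_mul_left h9 hl0
  rw [hs, inner_add_left]
  linarith

theorem no_part [CompleteSpace E] [Nontrivial E] {T : E → Set E} (h : Part T) {c q : E}
    (hc : c ∉ T q) : False := by
  obtain ⟨t, -, -, -, hB⟩ := exit h hc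
  choose f hf using fun k (x : {x : E × ℝ × E // Bd T x.1 ∧ 0 < x.2.1}) => exists_mv h k x.1 x.2
  let X : ℕ → {x : E × ℝ × E // Bd T x.1 ∧ 0 < x.2.1} := fun n =>
    Nat.rec ⟨(c + t • (q - c), 1, 0), hB, one_pos⟩ (fun k x => ⟨f k x, (hf k x).1⟩) n
  have hM : ∀ k, Mv T k (X k).1 (X (k + 1)).1 := fun k => (hf k (X k)).2
  have hsub : ∀ n m, n ≤ m →
      closedBall (X m).1.1 (X m).1.2.1 ⊆ closedBall (X n).1.1 (X n).1.2.1 := by
    intro n m hnm
    induction m, hnm using Nat.le_induction with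
    | base => exact Subset.rfl
    | succ m _ ih =>
      obtain ⟨c, R, η, -, -, -, -, -, h1, -⟩ := hM m
      exact h1.trans ih
  have hin : ∀ n m, n ≤ m → (X m).1.1 ∈ closedBall (X n).1.1 (X n).1.2.1 := fun n m hnm =>
    hsub n m hnm (mem_closedBall_self (X m).2.2.le)
  have hρ : Tendsto (fun n => (X n).1.2.1) atTop (𝓝 0) := by
    rw [← tendsto_add_atTop_iff_nat 1]
    refine squeeze_zero (fun n => (X (n + 1)).2.2.le) (fun n => ?_)
      tendsto_one_div_add_atTop_nhds_zero_nat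
    obtain ⟨c, R, η, h0, h1, h2, h3, -, -, -, h4, -⟩ := hM n
    have hη1 : η ≤ 1 := h1.trans (by
      rw [div_le_one (by positivity)]; linarith [(Nat.cast_nonneg n : (0 : ℝ) ≤ n)])
    nlinarith
  have hcau : CauchySeq (fun n => (X n).1.1) :=
    cauchySeq_of_le_tendsto_0' _ (fun n m hnm => by rw [dist_comm]; exact hin n m hnm) hρ
  obtain ⟨p, hp⟩ := cauchySeq_tendsto_of_complete hcau
  have hpn : ∀ n, p ∈ closedBall (X n).1.1 (X n).1.2.1 := fun n =>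
    isClosed_closedBall.mem_of_tendsto hp (eventually_atTop.2 ⟨n, fun m hm => hin n m hm⟩)
  obtain ⟨m, hm⟩ := h.it p
  obtain ⟨ε, hε, hεs⟩ := Metric.mem_nhds_iff.1 (mem_interior_iff_mem_nhds.1 hm)
  set θ := ε / 3 with hθ
  have hθ0 : 0 < θ := by positivity
  have hmT : closedBall m (2 * θ) ⊆ T p := (closedBall_subset_ball (by linarith)).trans hεs
  set u := m - p with hu
  set l := θ / (‖u‖ + 2 * θ) ^ 2 with hl
  have hl0 : 0 < l := by positivity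
  have hlD : l * (‖u‖ + 2 * θ) ^ 2 = θ := by rw [hl]; field_simp
  obtain ⟨k0, hk0⟩ := eventually_atTop.1
    ((tendsto_one_div_add_atTop_nhds_zero_nat (𝕜 := ℝ)).eventually
      (ge_mem_nhds (show (0 : ℝ) < min (l * θ / 4) (1 / l) by positivity)))
  have hgrow : ∀ j : ℕ, ⟪(X k0).1.2.2, u⟫ + j * (θ / 4) ≤ ⟪(X (k0 + j)).1.2.2, u⟫ := by
    intro j
    induction j with
    | zero => simp
    | succ j ih =>
      have h1 := hk0 (k0 + j) (Nat.le_add_right _ _)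
      have h2 := mv_inner h (hM (k0 + j)) (hpn (k0 + j + 1)) hθ0 hmT hlD (h1.trans (min_le_left _ _)) (by
        have := h1.trans (min_le_right _ _)
        rw [le_div_iff₀ hl0] at this
        linarith)
      rw [← add_assoc]
      push_cast
      linarith
  have hnorm : ∀ n : ℕ, ‖(X n).1.2.2‖ ^ 2 ≤ 4 * n := by
    intro n
    induction n with
    | zero => simp [X]
    | succ n ih =>
      have := mv_norm (hM n)
      push_cast
      linarith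
  obtain ⟨j, hj⟩ := exists_nat_gt
    ((θ / 8 * k0 + 8 * ‖u‖ ^ 2 / θ - ⟪(X k0).1.2.2, u⟫) / (θ / 8))
  rw [div_lt_iff₀ (by positivity)] at hj
  have h1 := hgrow j
  have h2 := hnorm (k0 + j)
  have h3 := real_inner_le_norm (X (k0 + j)).1.2.2 u
  set a := ‖(X (k0 + j)).1.2.2‖
  have h4 : a * ‖u‖ ≤ θ / 32 * a ^ 2 + 8 * ‖u‖ ^ 2 / θ := by
    have : θ * (a * ‖u‖) ≤ θ * (θ / 32 * a ^ 2 + 8 * ‖u‖ ^ 2 / θ) := by
      have e : θ * (θ / 32 * a ^ 2 + 8 * ‖u‖ ^ 2 / θ) = θ ^ 2 / 32 * a ^ 2 + 8 * ‖u‖ ^ 2 := by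
        field_simp
      rw [e]; nlinarith [sq_nonneg (θ * a - 16 * ‖u‖)]
    exact le_of_mul_le_mul_left this hθ0
  push_cast at h2
  nlinarith

/-- A nonzero real Hilbert space has no partition into at least two closed convex bodies. -/
theorem no_tiling [CompleteSpace E] [Nontrivial E] (𝒯 : Set (Set E))
    (h1 : ∀ C ∈ 𝒯, IsClosed C ∧ Convex ℝ C ∧ (interior C).Nonempty ∧ C ≠ univ)
    (h2 : 𝒯.PairwiseDisjoint id) (h3 : ⋃₀ 𝒯 = univ) : False := by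
  have : ∀ x : E, ∃ C ∈ 𝒯, x ∈ C := fun x => mem_sUnion.1 (h3 ▸ mem_univ x)
  choose T hT hx using this
  have hP : Part T := ⟨hx, fun x => (h1 _ (hT x)).1, fun x => (h1 _ (hT x)).2.1,
    fun x => (h1 _ (hT x)).2.2.1, fun x y hy => by
      by_contra hne
      exact Set.disjoint_left.1 (h2 (hT y) (hT x) hne) (hx y) hy⟩
  obtain ⟨c, hc⟩ := (ne_univ_iff_exists_notMem _).1 (h1 _ (hT 0)).2.2.2
  exact no_part hP hc

end Pool.Agent.H93.Til
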