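import Mathlib

set_option autoImplicit false

/-! Dirichlet problem in the plane by balayage. -/

namespace Pool.Agent.H93.Tor1

open Set Filter Topology Metric Real InnerProductSpace Complex

/-- local sub-mean-value property -/
def SubM (Ω : Set ℂ) (u : ℂ → ℝ) : Prop :=
  ∀ z ∈ Ω, ∀ᶠ r in 𝓝[>] (0 : ℝ), u z ≤ circleAverage u z r

lemma harm_lin (a b c : ℝ) (z : ℂ) : HarmonicAt (fun w : ℂ => a + b * w.re + c * w.im) z := by
  have : AnalyticAt ℂ (fun w : ℂ => (a : ℂ) + (b - c * I) * w) z := by fun_prop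
  have h := this.harmonicAt_re
  convert h using 2 with w
  simp; ring

lemma avg_normSq (z : ℂ) (r : ℝ) :
    circleAverage (fun w : ℂ => ‖w‖ ^ 2) z r = ‖z‖ ^ 2 + r ^ 2 := by
  have h : HarmonicOnNhd (fun w : ℂ => (r ^ 2 - ‖z‖ ^ 2) + (2 * z.re) * w.re + (2 * z.im) * w.im)
      (closedBall z |r|) := fun w _ => harm_lin _ _ _ _
  rw [circleAverage_congr_sphere (f₂ := fun w : ℂ =>
    (r ^ 2 - ‖z‖ ^ 2) + (2 * z.re) * w.re + (2 * z.im) * w.im), h.circleAverage_eq]
  · rw [Complex.sq_norm, normSq_apply]; ring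
  · intro w hw
    rw [mem_sphere_iff_norm] at hw
    have : ‖w - z‖ ^ 2 = r ^ 2 := by rw [hw, sq_abs]
    simp only [Complex.sq_norm, normSq_apply, sub_re, sub_im] at this ⊢
    linarith

lemma ev_ball {D : Set ℂ} (hD : IsOpen D) {z : ℂ} (hz : z ∈ D) :
    ∀ᶠ r in 𝓝[>] (0 : ℝ), 0 < r ∧ closedBall z r ⊆ D := by
  obtain ⟨e, he, h⟩ := Metric.isOpen_iff.1 hD z hz
  filter_upwards [Ioo_mem_nhdsGT he] with r hr
  exact ⟨hr.1, (closedBall_subset_ball hr.2).trans h⟩

theorem maxp {D : Set ℂ} (hD : IsOpen D) (hb : Bornology.IsBounded D) {f : ℂ → ℝ}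
    (hf : ContinuousOn f (closure D)) (hs : SubM D f) (h0 : ∀ z ∈ closure D, z ∉ D → f z ≤ 0) :
    ∀ z ∈ closure D, f z ≤ 0 := by
  intro z0 hz0
  by_contra hpos
  push Not at hpos
  obtain ⟨B, hB⟩ := hb.closure.exists_norm_le
  have hB0 : 0 ≤ B := (norm_nonneg _).trans (hB z0 hz0)
  set e := f z0 / (B ^ 2 + 1) with he
  have he0 : 0 < e := by positivity
  have hg : ContinuousOn (fun w => f w + e * ‖w‖ ^ 2) (closure D) := hf.add (by fun_prop)
  obtain ⟨z1, hz1, hm⟩ := hb.isCompact_closure.exists_isMaxOn ⟨z0, hz0⟩ hg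
  have h1 : f z0 + e * ‖z0‖ ^ 2 ≤ f z1 + e * ‖z1‖ ^ 2 := hm hz0
  by_cases hz : z1 ∈ D
  · obtain ⟨r, h2, hr, h3⟩ := ((hs z1 hz).and (ev_ball hD hz)).exists
    have hsub : sphere z1 r ⊆ closure D := sphere_subset_closedBall.trans (h3.trans subset_closure)
    have i1 : CircleIntegrable f z1 r := (hf.mono hsub).circleIntegrable hr.le
    have i2 : CircleIntegrable (fun w : ℂ => e • ‖w‖ ^ 2) z1 r :=
      ContinuousOn.circleIntegrable hr.le (by fun_prop)
    have h4 := circleAverage_mono_on_of_le_circle (a := f z1 + e * ‖z1‖ ^ 2) (i1.add i2)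
      fun w hw => hm (hsub (by rwa [abs_of_pos hr] at hw))
    rw [circleAverage_add i1 i2, circleAverage_fun_smul, avg_normSq, smul_eq_mul] at h4
    nlinarith [mul_pos he0 (pow_pos hr 2)]
  · have h2 := h0 z1 hz1 hz
    have h3 : ‖z1‖ ^ 2 ≤ B ^ 2 := pow_le_pow_left₀ (norm_nonneg _) (hB z1 hz1) 2
    have h4 : e * (B ^ 2 + 1) = f z0 := by rw [he]; field_simp
    nlinarith [sq_nonneg ‖z0‖]

lemma SubM.sub_harm {D : Set ℂ} (hD : IsOpen D) {u W : ℂ → ℝ} (hu : ContinuousOn u D)
    (hs : SubM D u) (hW : HarmonicOnNhd W D) : SubM D (fun z => u z - W z) := by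
  intro z hz
  filter_upwards [hs z hz, ev_ball hD hz] with r h1 ⟨hr, h2⟩
  have hsub : sphere z r ⊆ D := sphere_subset_closedBall.trans h2
  rw [circleAverage_fun_sub ((hu.mono hsub).circleIntegrable hr.le)
    ((hW.continuousOn.mono hsub).circleIntegrable hr.le),
    (hW.mono (by rwa [abs_of_pos hr])).circleAverage_eq]
  linarith

lemma subM_of_harm {D : Set ℂ} (hD : IsOpen D) {W : ℂ → ℝ} (hW : HarmonicOnNhd W D) :
    SubM D W := by
  intro z hz
  filter_upwards [ev_ball hD hz] with r ⟨hr, h2⟩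
  rw [(hW.mono (by rwa [abs_of_pos hr])).circleAverage_eq]

/-- comparison with a harmonic majorant -/
theorem compare {D : Set ℂ} (hD : IsOpen D) (hb : Bornology.IsBounded D) {u W : ℂ → ℝ}
    (hu : ContinuousOn u (closure D)) (hs : SubM D u) (hW : HarmonicOnNhd W D)
    (hWc : ContinuousOn W (closure D)) (h0 : ∀ z ∈ closure D, z ∉ D → u z ≤ W z) :
    ∀ z ∈ closure D, u z ≤ W z := fun z hz =>
  sub_nonpos.1 (maxp hD hb (hu.sub hWc) (hs.sub_harm hD (hu.mono subset_closure) hW)
    (fun z hz hz' => sub_nonpos.2 (h0 z hz hz')) z hz)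

/-- Poisson integral -/
noncomputable def P (c : ℂ) (R : ℝ) (u : ℂ → ℝ) (w : ℂ) : ℝ :=
  circleAverage (poissonKernel c w • u) c R

lemma P_harm {c : ℂ} {R : ℝ} {u : ℂ → ℝ} (hu : CircleIntegrable u c R) :
    HarmonicOnNhd (P c R u) (ball c R) := by
  have h0 : CircleIntegrable (fun z => u (z + c)) 0 R := by
    unfold CircleIntegrable at *
    simpa [circleMap, add_comm] using hu
  have h1 : CircleIntegrable (fun z => (u (z + c) : ℂ)) 0 R := by
    simp only [CircleIntegrable, intervalIntegrable_iff] at h0 ⊢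
    exact Complex.ofRealCLM.integrable_comp h0
  have h2 := analyticOnNhd_circleAverage_herglotzRieszKernel_smul h1
  intro w hw
  have hm : ∀ w ∈ ball c R, w - c ∈ ball (0 : ℂ) R := fun w hw => by
    simpa using mem_ball_iff_norm.1 hw
  have h3 := ((h2 _ (hm w hw)).comp (f := fun w => w - c) (by fun_prop)).harmonicAt_re
  refine (harmonicAt_congr_nhds ?_).1 h3
  filter_upwards [isOpen_ball.mem_nhds hw] with w hw
  simp only [Function.comp]
  rw [re_circleAverage_herglotzRieszKernel_smul h0 (hm w hw), P,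
    ← circleAverage_map_add_const (c := c),
    poissonKernel_eq_re_herglotzRieszKernel]
  congr 1
  funext z
  simp [herglotzRieszKernel_add_const]

lemma ker_cont {c w : ℂ} {R : ℝ} (hw : w ∈ ball c R) :
    ContinuousOn (poissonKernel c w) (sphere c |R|) := by
  rw [poissonKernel_eq_re_herglotzRieszKernel]
  exact continuous_re.comp_continuousOn (continuousOn_herglotzRieszKernel_sphere hw)

lemma ker_nonneg {c w z : ℂ} {R : ℝ} (hw : w ∈ ball c R) (hz : z ∈ sphere c |R|) :
    0 ≤ poissonKernel c w z := by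
  rw [poissonKernel_def]
  rw [mem_ball_iff_norm] at hw
  rw [mem_sphere_iff_norm] at hz
  refine div_nonneg (sub_nonneg.2 ?_) (sq_nonneg _)
  exact pow_le_pow_left₀ (norm_nonneg _) (by rw [hz]; exact hw.le.trans (le_abs_self R)) 2

lemma P_mono {c w : ℂ} {R : ℝ} {u v : ℂ → ℝ} (hw : w ∈ ball c R) (hu : CircleIntegrable u c R)
    (hv : CircleIntegrable v c R) (h : ∀ z ∈ sphere c |R|, u z ≤ v z) : P c R u w ≤ P c R v w :=
  circleAverage_mono (hu.continuousOn_smul (ker_cont hw)) (hv.continuousOn_smul (ker_cont hw))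
    fun z hz => mul_le_mul_of_nonneg_left (h z hz) (ker_nonneg hw hz)

lemma P_bdry {c ζ : ℂ} {R : ℝ} {u : ℂ → ℝ} (hu : Continuous u) (hζ : ζ ∈ sphere c R) :
    Tendsto (P c R u) (𝓝[ball c R] ζ) (𝓝 (u ζ)) := by
  rw [Metric.tendsto_nhds]
  intro ε hε
  have hR : 0 ≤ R := nonneg_of_mem_sphere hζ
  obtain ⟨δ, hδ, h1⟩ := Metric.continuousAt_iff.1 (hu.continuousAt (x := ζ)) (ε / 2) (half_pos hε)
  obtain ⟨B, hB⟩ := (isCompact_sphere c R).exists_bound_of_continuousOn
    (f := fun z => u z - u ζ) (by fun_prop)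
  have hB0 : 0 ≤ B := (norm_nonneg _).trans (hB ζ hζ)
  let q : ℂ → ℝ := fun z => 2 * R ^ 2 - 2 * ((z.re - c.re) * (ζ.re - c.re) + (z.im - c.im) * (ζ.im - c.im))
  have hsq : ∀ z ∈ sphere c R, (z.re - c.re) ^ 2 + (z.im - c.im) ^ 2 = R ^ 2 := by
    intro z hz
    rw [mem_sphere_iff_norm] at hz
    rw [← hz, Complex.sq_norm, normSq_apply]; simp; ring
  have hq : ∀ z ∈ sphere c R, q z = dist z ζ ^ 2 := by
    intro z hz
    rw [dist_eq_norm, Complex.sq_norm, normSq_apply]
    simp only [q, sub_re, sub_im]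
    linear_combination -hsq z hz - hsq ζ hζ
  have hbd : ∀ z ∈ sphere c R, |u z - u ζ| ≤ ε / 2 + B / δ ^ 2 * q z := by
    intro z hz
    rw [hq z hz]
    rcases lt_or_ge (dist z ζ) δ with h | h
    · have := h1 h
      rw [Real.dist_eq] at this
      have : 0 ≤ B / δ ^ 2 * dist z ζ ^ 2 := by positivity
      linarith
    · have a := hB z hz
      rw [Real.norm_eq_abs] at a
      have : B / δ ^ 2 * δ ^ 2 ≤ B / δ ^ 2 * dist z ζ ^ 2 := by gcongr
      rw [div_mul_cancel₀ _ (by positivity)] at this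
      linarith
  have hH : ∀ a b : ℝ, ∀ w ∈ ball c R, P c R (fun z => a + b * q z) w = a + b * q w := by
    intro a b w hw
    refine HarmonicOnNhd.circleAverage_poissonKernel_smul (f := fun z => a + b * q z)
      (fun z _ => ?_) hw
    convert harm_lin (a + b * (2 * R ^ 2 + 2 * (c.re * (ζ.re - c.re) + c.im * (ζ.im - c.im))))
      (-2 * b * (ζ.re - c.re)) (-2 * b * (ζ.im - c.im)) z using 2 with w
    simp only [q]; ring
  have hqc : Continuous q := by fun_prop
  have hq0 : q ζ = 0 := by rw [hq ζ hζ]; simp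
  have ev : ∀ᶠ w in 𝓝 ζ, B / δ ^ 2 * q w < ε / 2 :=
    (continuous_const.mul hqc).continuousAt.eventually (gt_mem_nhds (by simp [hq0, hε]))
  filter_upwards [nhdsWithin_le_nhds ev, self_mem_nhdsWithin] with w h2 hw
  have i1 : CircleIntegrable u c R := hu.continuousOn.circleIntegrable hR
  have i2 : ∀ a b : ℝ, CircleIntegrable (fun z => a + b * q z) c R := fun a b =>
    ContinuousOn.circleIntegrable hR (by fun_prop)
  have a1 := P_mono hw i1 (i2 (u ζ + ε / 2) (B / δ ^ 2)) fun z hz => by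
    rw [abs_of_nonneg hR] at hz; linarith [(abs_le.1 (hbd z hz)).2]
  have a2 := P_mono hw (i2 (u ζ - ε / 2) (-(B / δ ^ 2))) i1 fun z hz => by
    rw [abs_of_nonneg hR] at hz; linarith [(abs_le.1 (hbd z hz)).1]
  rw [hH _ _ w hw] at a1 a2
  rw [Real.dist_eq, abs_lt]
  constructor <;> linarith

open Classical in
/-- harmonic lifting -/
noncomputable def L (c : ℂ) (R : ℝ) (u : ℂ → ℝ) (w : ℂ) : ℝ :=
  if w ∈ ball c R then P c R u w else u w

lemma L_harm {c : ℂ} {R : ℝ} {u : ℂ → ℝ} (hu : Continuous u) :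
    HarmonicOnNhd (L c R u) (ball c R) := by
  intro w hw
  refine (harmonicAt_congr_nhds ?_).1 (P_harm hu.continuousOn.circleIntegrable' w hw)
  filter_upwards [isOpen_ball.mem_nhds hw] with z hz
  simp [L, hz]

lemma L_cont {c : ℂ} {R : ℝ} {u : ℂ → ℝ} (hu : Continuous u) : Continuous (L c R u) := by
  rw [continuous_iff_continuousAt]
  intro w
  by_cases hw : w ∈ ball c R
  · exact (L_harm hu).continuousOn.continuousAt (isOpen_ball.mem_nhds hw)
  · have e : L c R u w = u w := by simp [L, hw]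
    rw [ContinuousAt, e, ← nhdsWithin_univ, ← union_compl_self (ball c R), nhdsWithin_union,
      tendsto_sup]
    constructor
    · by_cases hs : w ∈ sphere c R
      · refine (P_bdry hu hs).congr' ?_
        filter_upwards [self_mem_nhdsWithin] with z hz
        simp [L, hz]
      · have : w ∉ closure (ball c R) := fun h => by
          have := closure_ball_subset_closedBall h
          rw [mem_closedBall] at this
          rw [mem_ball] at hw; rw [mem_sphere] at hs
          exact hs (le_antisymm this (not_lt.1 hw))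
        rw [notMem_closure_iff_nhdsWithin_eq_bot.1 this]
        exact tendsto_bot
    · refine (hu.continuousAt.tendsto.mono_left nhdsWithin_le_nhds).congr' ?_
      filter_upwards [self_mem_nhdsWithin] with z hz
      have : z ∉ ball c R := hz
      simp [L, this]

lemma le_L {Ω : Set ℂ} {c : ℂ} {R : ℝ} {u : ℂ → ℝ} (hu : Continuous u) (hs : SubM Ω u)
    (hΩ : closedBall c R ⊆ Ω) (w : ℂ) : u w ≤ L c R u w := by
  by_cases hw : w ∈ ball c R
  · refine compare isOpen_ball isBounded_ball hu.continuousOn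
      (fun z hz => hs z (hΩ (ball_subset_closedBall hz))) (L_harm hu) (L_cont hu).continuousOn
      (fun z _ hz => by simp [L, hz]) w (subset_closure hw)
  · simp [L, hw]

lemma L_sub {Ω : Set ℂ} {c : ℂ} {R : ℝ} {u : ℂ → ℝ} (hu : Continuous u) (hs : SubM Ω u)
    (hΩ : closedBall c R ⊆ Ω) : SubM Ω (L c R u) := by
  intro z hz
  by_cases hw : z ∈ ball c R
  · exact subM_of_harm isOpen_ball (L_harm hu) z hw
  · filter_upwards [hs z hz] with r h
    have e : L c R u z = u z := by simp [L, hw]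
    rw [e]
    exact h.trans (circleAverage_mono hu.continuousOn.circleIntegrable'
      (L_cont hu).continuousOn.circleIntegrable' fun w _ => le_L hu hs hΩ w)

open Classical in
/-- the balayage sequence -/
noncomputable def bal (Ω : Set ℂ) (e : ℕ → ℂ × ℝ) (u0 : ℂ → ℝ) : ℕ → ℂ → ℝ
  | 0 => u0
  | n + 1 => if closedBall (e n).1 (e n).2 ⊆ Ω then L (e n).1 (e n).2 (bal Ω e u0 n)
      else bal Ω e u0 n

theorem dirichlet {Ω : Set ℂ} (hΩ : IsOpen Ω) (hb : Bornology.IsBounded Ω) {u0 : ℂ → ℝ}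
    (hu0 : Continuous u0) (hs0 : SubM Ω u0) :
    ∃ h : ℂ → ℝ, HarmonicOnNhd h Ω ∧ (∀ z, u0 z ≤ h z) ∧ (∀ z, z ∉ Ω → h z = u0 z) ∧
      ∀ W : ℂ → ℝ, HarmonicOnNhd W Ω → ContinuousOn W (closure Ω) →
        (∀ z ∈ closure Ω, z ∉ Ω → u0 z ≤ W z) → ∀ z ∈ closure Ω, h z ≤ W z := by
  obtain ⟨d, hd⟩ := TopologicalSpace.exists_dense_seq (ℂ × ℝ)
  let e : ℕ → ℂ × ℝ := fun n => d (Nat.unpair n).1
  let u := bal Ω e u0
  have inv : ∀ n, Continuous (u n) ∧ SubM Ω (u n) ∧ ∀ z, z ∉ Ω → u n z = u0 z := by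
    intro n
    induction n with
    | zero => exact ⟨hu0, hs0, fun _ _ => rfl⟩
    | succ n ih =>
      simp only [u, bal]
      split_ifs with h
      · refine ⟨L_cont ih.1, L_sub ih.1 ih.2.1 h, fun z hz => ?_⟩
        have : z ∉ ball (e n).1 (e n).2 := fun h' => hz (h (ball_subset_closedBall h'))
        rw [← ih.2.2 z hz]; simp [L, this, u]
      · exact ih
  have mono : ∀ z, Monotone fun n => u n z := fun z => monotone_nat_of_le_succ fun n => by
    simp only [u, bal]
    split_ifs with h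
    · exact le_L (inv n).1 (inv n).2.1 h z
    · exact le_rfl
  have maj : ∀ W : ℂ → ℝ, HarmonicOnNhd W Ω → ContinuousOn W (closure Ω) →
      (∀ z ∈ closure Ω, z ∉ Ω → u0 z ≤ W z) → ∀ n, ∀ z ∈ closure Ω, u n z ≤ W z :=
    fun W h1 h2 h3 n => compare hΩ hb (inv n).1.continuousOn (inv n).2.1 h1 h2
      fun z hz hz' => by rw [(inv n).2.2 z hz']; exact h3 z hz hz'
  obtain ⟨B, hB⟩ := hb.isCompact_closure.exists_bound_of_continuousOn hu0.continuousOn
  have hB' : ∀ n, ∀ z ∈ closure Ω, |u n z| ≤ B := by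
    intro n z hz
    refine abs_le.2 ⟨?_, maj (fun _ => B) (harmonicOnNhd_const B) continuousOn_const
      (fun z hz _ => (abs_le.1 (hB z hz)).2) n z hz⟩
    exact (abs_le.1 (hB z hz)).1.trans (mono z (Nat.zero_le n))
  have bdd : ∀ z, BddAbove (range fun n => u n z) := by
    intro z
    by_cases hz : z ∈ Ω
    · exact ⟨B, by rintro _ ⟨n, rfl⟩; exact (abs_le.1 (hB' n z (subset_closure hz))).2⟩
    · exact ⟨u0 z, by rintro _ ⟨n, rfl⟩; exact ((inv n).2.2 z hz).le⟩
  let h : ℂ → ℝ := fun z => ⨆ n, u n z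
  have lim : ∀ z, Tendsto (fun n => u n z) atTop (𝓝 (h z)) := fun z =>
    tendsto_atTop_ciSup (mono z) (bdd z)
  refine ⟨h, fun z hz => ?_, fun z => le_ciSup (bdd z) 0, fun z hz => ?_,
    fun W h1 h2 h3 z hz => ciSup_le fun n => maj W h1 h2 h3 n z hz⟩
  · obtain ⟨r, hr, hrΩ⟩ := Metric.isOpen_iff.1 hΩ z hz
    obtain ⟨i, hi⟩ := hd.exists_dist_lt (z, r / 2) (show 0 < r / 8 by positivity)
    rw [Prod.dist_eq, max_lt_iff, Real.dist_eq, abs_lt] at hi
    obtain ⟨i1, i2, i3⟩ := hi
    simp only at i1 i2 i3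
    set c := (d i).1
    set R := (d i).2
    have hR : 0 < R := by linarith
    have hzc : z ∈ ball c R := by rw [mem_ball]; linarith
    have hcl : closedBall c R ⊆ Ω := fun w hw => hrΩ (by
      rw [mem_ball]; rw [mem_closedBall] at hw
      linarith [dist_triangle_right w z c])
    have hsp : ∀ θ, circleMap c R θ ∈ closure Ω := fun θ =>
      subset_closure (hcl (circleMap_mem_closedBall c hR.le θ))
    have hmeas : Measurable h :=
      measurable_of_tendsto_metrizable (fun n => (inv n).1.measurable) (tendsto_pi_nhds.2 lim)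
    have hint : CircleIntegrable h c R := by
      refine (intervalIntegrable_const (c := B)).mono_fun'
        (hmeas.comp (continuous_circleMap c R).measurable).aestronglyMeasurable
        (Eventually.of_forall fun θ => ?_)
      exact le_of_tendsto' (lim _).abs fun n => hB' n _ (hsp θ)
    have hsub : Tendsto (fun k => Nat.pair i k) atTop atTop :=
      tendsto_atTop_mono (fun k => Nat.right_le_pair i k) tendsto_id
    refine (harmonicAt_congr_nhds ?_).1 (P_harm hint z hzc)
    filter_upwards [isOpen_ball.mem_nhds hzc] with w hw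
    have t1 : Tendsto (fun k => u (Nat.pair i k + 1) w) atTop (𝓝 (h w)) :=
      (lim w).comp ((tendsto_add_atTop_nat 1).comp hsub)
    have e1 : ∀ k, u (Nat.pair i k + 1) w = P c R (u (Nat.pair i k)) w := by
      intro k
      have : e (Nat.pair i k) = d i := by simp [e]
      simp only [u, bal]
      rw [this, if_pos hcl]; simp only [L]; rw [if_pos hw]
    simp only [e1] at t1
    refine tendsto_nhds_unique ?_ t1
    have hk : Continuous fun θ => poissonKernel c w (circleMap c R θ) :=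
      (ker_cont hw).comp_continuous (continuous_circleMap c R) (circleMap_mem_sphere' c R)
    refine Tendsto.const_smul ?_ _
    refine intervalIntegral.tendsto_integral_filter_of_dominated_convergence
      (fun θ => |poissonKernel c w (circleMap c R θ)| * B) (Eventually.of_forall fun k => ?_)
      (Eventually.of_forall fun k => Eventually.of_forall fun θ _ => ?_)
      ((hk.abs.mul continuous_const).intervalIntegrable _ _)
      (Eventually.of_forall fun θ _ => ?_)
    · exact (hk.mul ((inv _).1.comp (continuous_circleMap c R))).aestronglyMeasurable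
    · simp only [Pi.smul_apply', smul_eq_mul, Real.norm_eq_abs, abs_mul]
      exact mul_le_mul_of_nonneg_left (hB' _ _ (hsp θ)) (abs_nonneg _)
    · exact ((lim _).comp hsub).const_mul _
  · simp only [h, (inv _).2.2 z hz, ciSup_const]

end Pool.Agent.H93.Tor1
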