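import Mathlib
import Pool.Agent.H93.Tor1

set_option autoImplicit false

/-! Torsion function of domains whose complement contains horizontal rays. -/

namespace Pool.Agent.H93.Tor2

open Set Filter Topology Metric Real InnerProductSpace Complex Pool.Agent.H93.Tor1

/-- real part of the square root -/
noncomputable def p (z : ℂ) : ℝ := √((‖z‖ + z.re) / 2)

@[fun_prop] lemma p_cont : Continuous p := by unfold p; fun_prop

lemma p_nonneg (z : ℂ) : 0 ≤ p z := Real.sqrt_nonneg _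

lemma p_sq (z : ℂ) : p z ^ 2 = (‖z‖ + z.re) / 2 := by
  unfold p
  refine Real.sq_sqrt ?_
  have := abs_re_le_norm z
  linarith [neg_abs_le z.re]

lemma im_sq (z : ℂ) : z.im ^ 2 = 4 * p z ^ 2 * (‖z‖ - p z ^ 2) := by
  rw [p_sq]
  have := Complex.sq_norm z
  rw [normSq_apply] at this
  linear_combination -this

lemma an_sqrt {σ ζ z : ℂ} (h : σ * (z - ζ) ∈ slitPlane) :
    AnalyticAt ℂ (fun w => (σ * (w - ζ)) ^ (2⁻¹ : ℂ)) z :=
  AnalyticAt.cpow (by fun_prop) analyticAt_const h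

lemma harm_quad (a b c d : ℝ) (z : ℂ) :
    HarmonicAt (fun w : ℂ => a + b * w.re + c * w.im + d * (w.re ^ 2 - w.im ^ 2)) z := by
  have : AnalyticAt ℂ (fun w : ℂ => (a : ℂ) + (b - c * I) * w + d * w ^ 2) z := by fun_prop
  have h := this.harmonicAt_re
  convert h using 2 with w
  simp [sq]; ring

theorem torsion {Ω : Set ℂ} (hΩ : IsOpen Ω) (hb : Bornology.IsBounded Ω)
    (hray : ∀ ζ, ζ ∉ Ω → ∃ σ : ℝ, σ ^ 2 = 1 ∧ ∀ z ∈ Ω, (σ : ℂ) * (z - ζ) ∈ slitPlane) :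
    ∃ h : ℂ → ℝ, HarmonicOnNhd h Ω ∧ ContinuousOn h (closure Ω) ∧ (∀ z, ‖z‖ ^ 2 / 2 ≤ h z) ∧
      (∀ z, z ∉ Ω → h z = ‖z‖ ^ 2 / 2) := by
  obtain ⟨h, h1, h2, h3, h4⟩ := dirichlet hΩ hb (u0 := fun z => ‖z‖ ^ 2 / 2) (by fun_prop) (by
    intro z _
    refine Eventually.of_forall fun r => ?_
    have : (fun z : ℂ => ‖z‖ ^ 2 / 2) = fun z => (1 / 2 : ℝ) • ‖z‖ ^ 2 := by
      funext z; simp; ring
    rw [this, circleAverage_fun_smul, avg_normSq]
    simp only [smul_eq_mul]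
    nlinarith [sq_nonneg r])
  refine ⟨h, h1, fun ζ hζ => ?_, h2, h3⟩
  by_cases hz : ζ ∈ Ω
  · exact (h1.continuousOn.continuousAt (hΩ.mem_nhds hz)).continuousWithinAt
  obtain ⟨σ, hσ, hs⟩ := hray ζ hz
  obtain ⟨B, hB⟩ := hb.closure.exists_norm_le
  have hB0 : 0 ≤ B := (norm_nonneg _).trans (hB ζ hζ)
  set C := 2 * B + 1 with hC
  let W : ℂ → ℝ := fun z => 4 * C ^ 2 * p (σ * (z - ζ)) +
    (-ζ.im ^ 2 + 0 * z.re + 2 * ζ.im * z.im + 1 / 2 * (z.re ^ 2 - z.im ^ 2))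
  have hWc : Continuous W := by fun_prop
  have hn : ∀ z : ℂ, ‖z‖ ^ 2 = z.re ^ 2 + z.im ^ 2 := fun z => by
    rw [Complex.sq_norm, normSq_apply]; ring
  have hW := h4 W (fun z hz => by
    have a := ((an_sqrt (hs z hz)).harmonicAt_re).const_smul (c := 4 * C ^ 2)
    have b := a.add (harm_quad (-ζ.im ^ 2) 0 (2 * ζ.im) (1 / 2) z)
    convert b using 1
    funext w
    simp only [W, Pi.add_apply, Pi.smul_apply, smul_eq_mul, cpow_inv_two_re, p]) hWc.continuousOn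
    (fun z hz _ => by
      set s := (σ : ℂ) * (z - ζ) with hsd
      have a1 : ‖s‖ ≤ C := by
        have : ‖(σ : ℂ)‖ = 1 := by
          rw [Complex.norm_real, Real.norm_eq_abs, ← sq_eq_sq₀ (abs_nonneg _) zero_le_one, sq_abs]
          linarith
        rw [hsd, norm_mul, this, one_mul]
        linarith [norm_sub_le z ζ, hB z hz, hB ζ hζ]
      have a2 : s.im ^ 2 = (z.im - ζ.im) ^ 2 := by
        rw [hsd, im_ofReal_mul, mul_pow, hσ, one_mul, sub_im]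
      have a3 := im_sq s
      have a4 := p_sq s
      have a5 := p_nonneg s
      have a6 : p s ≤ C := by
        have := re_le_norm s
        nlinarith
      have a7 : s.im ^ 2 ≤ 4 * C ^ 2 * p s := by
        rw [a3]
        calc 4 * p s ^ 2 * (‖s‖ - p s ^ 2) ≤ 4 * p s ^ 2 * C := by
              gcongr; nlinarith [sq_nonneg (p s)]
          _ = 4 * (p s * C) * p s := by ring
          _ ≤ 4 * (C * C) * p s := by gcongr
          _ = _ := by ring
      simp only [W, hn, ← hsd]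
      nlinarith)
  have e1 : W ζ = h ζ := by
    rw [h3 ζ hz]; simp only [W, hn, p]; simp; ring
  have t1 : Tendsto (fun z : ℂ => ‖z‖ ^ 2 / 2) (𝓝[closure Ω] ζ) (𝓝 (h ζ)) := by
    rw [h3 ζ hz]
    exact (Continuous.tendsto (by fun_prop) ζ).mono_left nhdsWithin_le_nhds
  have t2 : Tendsto W (𝓝[closure Ω] ζ) (𝓝 (h ζ)) := by
    rw [← e1]; exact (hWc.tendsto ζ).mono_left nhdsWithin_le_nhds
  exact tendsto_of_tendsto_of_tendsto_of_le_of_le' t1 t2 (Eventually.of_forall h2)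
    (by filter_upwards [self_mem_nhdsWithin] with z hz using hW z hz)

lemma fd_re {G : ℂ → ℂ} {g w : ℂ} (hG : HasDerivAt G g w) (a b c : ℝ) :
    ∃ f' : ℂ →L[ℝ] ℝ, HasFDerivAt
      (fun z => (G z).re - (a * z.re + b * z.im + c * (z.re ^ 2 + z.im ^ 2) / 2)) f' w ∧
      ∀ t : ℂ, f' t = (g * t).re - (a * t.re + b * t.im + c * (w.re * t.re + w.im * t.im)) := by
  have h1 := reCLM.hasFDerivAt.comp w (hG.hasFDerivAt.restrictScalars ℝ)
  have h2 : HasFDerivAt (fun z : ℂ => z.re) reCLM w := reCLM.hasFDerivAt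
  have h3 : HasFDerivAt (fun z : ℂ => z.im) imCLM w := imCLM.hasFDerivAt
  have h4 := h1.fun_sub ((((h2.const_mul a).fun_add (h3.const_mul b))).fun_add
    ((((h2.fun_mul h2).fun_add (h3.fun_mul h3)).const_mul c).const_mul (1 / 2)))
  refine ⟨_, h4.congr_of_eventuallyEq (Eventually.of_forall fun z => ?_), fun t => ?_⟩
  · simp; ring
  · simp; ring

theorem laplace {Ω : Set ℂ} (hΩ : IsOpen Ω) {h : ℂ → ℝ} (hh : HarmonicOnNhd h Ω) :
    ContDiffOn ℝ 2 (fun z => h z - ‖z‖ ^ 2 / 2) Ω ∧ ∀ z ∈ Ω,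
      fderiv ℝ (fun w => fderiv ℝ (fun z => h z - ‖z‖ ^ 2 / 2) w (1 : ℂ)) z (1 : ℂ)
        + fderiv ℝ (fun w => fderiv ℝ (fun z => h z - ‖z‖ ^ 2 / 2) w Complex.I) z Complex.I
        = -2 := by
  refine ⟨hh.contDiffOn.sub ((contDiff_norm_sq ℝ).div_const 2).contDiffOn, fun z hz => ?_⟩
  obtain ⟨r, hr, hrΩ⟩ := Metric.isOpen_iff.1 hΩ z hz
  obtain ⟨F, hF, hFe⟩ := (hh.mono hrΩ).exists_analyticOnNhd_ball_re_eq
  have key : ∀ w ∈ ball z r, ∀ t : ℂ, fderiv ℝ (fun z => h z - ‖z‖ ^ 2 / 2) w t =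
      (deriv F w * t).re - (w.re * t.re + w.im * t.im) := by
    intro w hw t
    obtain ⟨f', a1, a2⟩ := fd_re (hF w hw).differentiableAt.hasDerivAt 0 0 1
    have : HasFDerivAt (fun z => h z - ‖z‖ ^ 2 / 2) f' w := by
      refine a1.congr_of_eventuallyEq ?_
      filter_upwards [isOpen_ball.mem_nhds hw] with y hy
      rw [← hFe hy, Complex.sq_norm, normSq_apply]; ring
    rw [this.fderiv, a2]; ring
  have hd := (hF z (mem_ball_self hr)).deriv.differentiableAt.hasDerivAt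
  obtain ⟨f1, a1, a2⟩ := fd_re hd 1 0 0
  obtain ⟨f2, b1, b2⟩ := fd_re (hd.mul_const I) 0 1 0
  have c1 : HasFDerivAt (fun w => fderiv ℝ (fun z => h z - ‖z‖ ^ 2 / 2) w (1 : ℂ)) f1 z := by
    refine a1.congr_of_eventuallyEq ?_
    filter_upwards [ball_mem_nhds z hr] with y hy
    rw [key y hy]; simp
  have c2 : HasFDerivAt (fun w => fderiv ℝ (fun z => h z - ‖z‖ ^ 2 / 2) w I) f2 z := by
    refine b1.congr_of_eventuallyEq ?_
    filter_upwards [ball_mem_nhds z hr] with y hy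
    rw [key y hy]; simp
  rw [c1.fderiv, c2.fderiv, a2, b2]
  simp; ring

/-- contractibility of horizontally convex sets with a continuous section -/
theorem simply {Ω : Set ℂ} (c : ℝ → ℝ) (hc : Continuous c) (a : ℝ) (ha : 0 < a)
    (h1 : ∀ z ∈ Ω, z.im ∈ Ioo (-a) a) (h2 : ∀ y ∈ Ioo (-a) a, (⟨c y, y⟩ : ℂ) ∈ Ω)
    (h3 : ∀ z ∈ Ω, ∀ t ∈ Icc (0 : ℝ) 1, (⟨(1 - t) * c z.im + t * z.re, z.im⟩ : ℂ) ∈ Ω) :
    SimplyConnectedSpace Ω := by
  have hmk : Continuous fun q : ℝ × ℝ => (⟨q.1, q.2⟩ : ℂ) := equivRealProdCLM.symm.continuous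
  have : ContractibleSpace (Ioo (-a) a) :=
    (convex_Ioo _ _).contractibleSpace ⟨0, by constructor <;> linarith⟩
  let f : C(Ω, Ioo (-a) a) := ⟨fun z => ⟨z.1.im, h1 z z.2⟩, by fun_prop⟩
  let g : C(Ioo (-a) a, Ω) := ⟨fun y => ⟨⟨c y, y⟩, h2 y y.2⟩,
    (hmk.comp (f := fun y : Ioo (-a) a => (c y, (y : ℝ))) (by fun_prop)).subtype_mk _⟩
  let H : ContinuousMap.Homotopy (g.comp f) (ContinuousMap.id Ω) :=
    { toFun := fun q => ⟨⟨(1 - q.1) * c q.2.1.im + q.1 * q.2.1.re, q.2.1.im⟩, h3 _ q.2.2 _ q.1.2⟩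
      continuous_toFun := (hmk.comp (f := fun q : unitInterval × Ω =>
        ((1 - (q.1 : ℝ)) * c q.2.1.im + q.1 * q.2.1.re, q.2.1.im)) (by fun_prop)).subtype_mk _
      map_zero_left := fun z => by ext1; simp [f, g]
      map_one_left := fun z => by ext1; simp }
  let E : ContinuousMap.HomotopyEquiv Ω (Ioo (-a) a) :=
    ⟨f, g, ⟨H⟩, by
      have : f.comp g = ContinuousMap.id _ := by ext y; simp [f, g]
      rw [this]⟩
  have := E.contractibleSpace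
  infer_instance

end Pool.Agent.H93.Tor2
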