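import Mathlib

set_option autoImplicit false

/-! Geometry of an S-shaped tube. -/

namespace Pool.Agent.H93.Tor3

open Set Filter Topology Metric Complex

/-- right boundary condition -/
def Rt (x y : ℝ) : Prop :=
  (-1 < y ∧ y < 3 ∧ (x ≤ 20 ∨ (x - 20) ^ 2 + (y - 1) ^ 2 < 4)) ∨ (y = -1 ∧ x < -20) ∨
    (-3 < y ∧ y < -1 ∧ (x ≤ -18 ∨ (x + 18) ^ 2 + (y + 2) ^ 2 < 1))

/-- the domain -/
def Om : Set ℂ := {z | Rt z.re z.im ∧ Rt (-z.re) (-z.im)}

/-- half of the ridge -/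
def Gh (x y : ℝ) : Prop :=
  (y = 0 ∧ -20 ≤ x ∧ x ≤ 20) ∨ (20 ≤ x ∧ (x - 20) ^ 2 + (y - 1) ^ 2 = 1) ∨
    (y = 2 ∧ 18 ≤ x ∧ x ≤ 20)

/-- the ridge -/
def Ga : Set ℂ := {z | Gh z.re z.im ∨ Gh (-z.re) (-z.im)}

lemma neg_Om {z : ℂ} : -z ∈ Om ↔ z ∈ Om := by simp [Om, and_comm]
lemma neg_Ga {z : ℂ} : -z ∈ Ga ↔ z ∈ Ga := by simp [Ga, or_comm]

lemma Rt.mono {x x' y : ℝ} (h : Rt x y) (hx : x' ≤ x) : Rt x' y := by
  rcases h with ⟨a, b, c | c⟩ | ⟨a, b⟩ | ⟨a, b, c | c⟩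
  · exact Or.inl ⟨a, b, Or.inl (by linarith)⟩
  · refine Or.inl ⟨a, b, ?_⟩
    rcases le_or_gt x' 20 with h | h
    · exact Or.inl h
    · right; nlinarith
  · exact Or.inr (Or.inl ⟨a, by linarith⟩)
  · exact Or.inr (Or.inr ⟨a, b, Or.inl (by linarith)⟩)
  · refine Or.inr (Or.inr ⟨a, b, ?_⟩)
    rcases le_or_gt x' (-18) with h | h
    · exact Or.inl h
    · right; nlinarith

lemma Rt.bd {x y : ℝ} (h : Rt x y) : -3 < y ∧ y < 3 ∧ x < 22 := by
  rcases h with ⟨a, b, c | c⟩ | ⟨a, b⟩ | ⟨a, b, c | c⟩ <;>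
    refine ⟨by linarith, by linarith, by nlinarith [sq_nonneg (y - 1), sq_nonneg (y + 2)]⟩

lemma hconv {x1 x x2 y : ℝ} (h1 : (⟨x1, y⟩ : ℂ) ∈ Om) (h2 : (⟨x2, y⟩ : ℂ) ∈ Om) (a : x1 ≤ x)
    (b : x ≤ x2) : (⟨x, y⟩ : ℂ) ∈ Om :=
  ⟨h2.1.mono b, h1.2.mono (neg_le_neg a)⟩

/-- the section -/
noncomputable def sec (y : ℝ) : ℝ := 22 * max (-1) (min 1 y) - y

lemma Rt_sec {y : ℝ} (h1 : -3 < y) (h2 : y < 3) :
    Rt (sec y) y ∧ Rt (-sec y) (-y) := by
  unfold sec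
  rcases lt_trichotomy y (-1) with h | rfl | h
  · rw [min_eq_right (by linarith), max_eq_left h.le]
    refine ⟨Or.inr (Or.inr ⟨h1, h, Or.inl (by linarith)⟩), Or.inl ⟨by linarith, by linarith, ?_⟩⟩
    rcases le_total y (-2) with h' | h'
    · left; linarith
    · right; nlinarith
  · norm_num [Rt]
  rcases lt_trichotomy y 1 with h' | rfl | h'
  · rw [min_eq_right h'.le, max_eq_right h.le]
    refine ⟨Or.inl ⟨h, h2, ?_⟩, Or.inl ⟨by linarith, by linarith, ?_⟩⟩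
    · rcases le_total y (20 / 21) with k | k
      · left; linarith
      · right; nlinarith
    · rcases le_total (-20 / 21) y with k | k
      · left; linarith
      · right; nlinarith
  · norm_num [Rt]
  · rw [min_eq_left h'.le, max_eq_right (by norm_num)]
    refine ⟨Or.inl ⟨h, h2, ?_⟩, Or.inr (Or.inr ⟨by linarith, by linarith, Or.inl (by linarith)⟩)⟩
    rcases le_total 2 y with k | k
    · left; linarith
    · right; nlinarith

lemma ball_half {a b x y : ℝ} (h : Gh a b) (hd : (x - a) ^ 2 + (y - b) ^ 2 < 1) :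
    Rt x y ∧ Rt (-x) (-y) := by
  have hx : |x - a| < 1 := by rw [← sq_lt_one_iff_abs_lt_one]; nlinarith [sq_nonneg (y - b)]
  have hy : |y - b| < 1 := by rw [← sq_lt_one_iff_abs_lt_one]; nlinarith [sq_nonneg (x - a)]
  rw [abs_lt] at hx hy
  obtain ⟨x1, x2⟩ := hx
  obtain ⟨y1, y2⟩ := hy
  rcases h with ⟨rfl, a1, a2⟩ | ⟨a1, a2⟩ | ⟨rfl, a1, a2⟩
  · refine ⟨Or.inl ⟨by linarith, by linarith, ?_⟩, Or.inl ⟨by linarith, by linarith, ?_⟩⟩
    · rcases le_or_gt x 20 with k | k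
      · exact Or.inl k
      · right; nlinarith
    · rcases le_or_gt (-x) 20 with k | k
      · exact Or.inl k
      · right; nlinarith
  · have b1 : 0 ≤ b := by nlinarith [sq_nonneg (a - 20)]
    have b2 : b ≤ 2 := by nlinarith [sq_nonneg (a - 20)]
    refine ⟨Or.inl ⟨by linarith, by linarith, Or.inr ?_⟩, ?_⟩
    · nlinarith [sq_nonneg ((x - a) - (a - 20)), sq_nonneg ((y - b) - (b - 1))]
    · rcases lt_trichotomy y 1 with k | rfl | k
      · exact Or.inl ⟨by linarith, by linarith, Or.inl (by linarith)⟩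
      · refine Or.inr (Or.inl ⟨rfl, ?_⟩)
        by_contra k
        nlinarith
      · exact Or.inr (Or.inr ⟨by linarith, by linarith, Or.inl (by linarith)⟩)
  · refine ⟨Or.inl ⟨by linarith, by linarith, ?_⟩, Or.inr (Or.inr ⟨by linarith, by linarith, ?_⟩)⟩
    · rcases le_or_gt x 20 with k | k
      · exact Or.inl k
      · right; nlinarith
    · rcases le_or_gt 18 x with k | k
      · left; linarith
      · right; nlinarith

lemma dist_sq (z w : ℂ) : dist z w ^ 2 = (z.re - w.re) ^ 2 + (z.im - w.im) ^ 2 := by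
  rw [dist_eq_norm, Complex.sq_norm, normSq_apply]; simp; ring

lemma ball_sub {g z : ℂ} (hg : g ∈ Ga) (hd : dist z g < 1) : z ∈ Om := by
  have : (z.re - g.re) ^ 2 + (z.im - g.im) ^ 2 < 1 := by
    rw [← dist_sq]; nlinarith [dist_nonneg (x := z) (y := g)]
  rcases hg with h | h
  · exact ball_half h this
  · have := ball_half (x := -z.re) (y := -z.im) h (by nlinarith)
    simp only [neg_neg] at this
    exact this.symm

lemma dist_vert (x y y' : ℝ) : dist (⟨x, y⟩ : ℂ) ⟨x, y'⟩ = |y - y'| := by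
  rw [← sq_eq_sq₀ dist_nonneg (abs_nonneg _), dist_sq, sq_abs]; simp

/-- covering property -/
def Cov (z : ℂ) : Prop := ∃ g ∈ Ga, ∃ e, e ∉ Om ∧ dist z e + dist z g ≤ 1

lemma Cov.neg {z : ℂ} (h : Cov (-z)) : Cov z := by
  obtain ⟨g, h1, e, h2, h3⟩ := h
  refine ⟨-g, neg_Ga.2 h1, -e, fun h => h2 (neg_Om.1 h), ?_⟩
  rwa [← dist_neg_neg z, ← dist_neg_neg z, neg_neg, neg_neg]

lemma radial {z c : ℂ} (hz : z ≠ c) (s : ℝ) :
    dist z (c + ((s / ‖z - c‖ : ℝ) : ℂ) * (z - c)) = |‖z - c‖ - s| ∧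
    ((c + ((s / ‖z - c‖ : ℝ) : ℂ) * (z - c)).re - c.re) ^ 2 +
      ((c + ((s / ‖z - c‖ : ℝ) : ℂ) * (z - c)).im - c.im) ^ 2 = s ^ 2 ∧
    (c + ((s / ‖z - c‖ : ℝ) : ℂ) * (z - c)).re - c.re = s / ‖z - c‖ * (z.re - c.re) := by
  have h : 0 < ‖z - c‖ := norm_pos_iff.2 (sub_ne_zero.2 hz)
  refine ⟨?_, ?_, by simp only [add_re, re_ofReal_mul, sub_re]; ring⟩
  · rw [dist_eq_norm]
    have : z - (c + ((s / ‖z - c‖ : ℝ) : ℂ) * (z - c)) = ((1 - s / ‖z - c‖ : ℝ) : ℂ) * (z - c) := by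
      push_cast; ring
    rw [this, norm_mul, Complex.norm_real, Real.norm_eq_abs]
    conv_lhs => rw [← abs_of_pos h]
    rw [← abs_mul, abs_of_pos h]; congr 1; field_simp
  · rw [← dist_sq, dist_eq_norm, add_sub_cancel_left, norm_mul, Complex.norm_real,
      Real.norm_eq_abs, mul_pow, sq_abs]; field_simp

lemma cov_right {z : ℂ} (h1 : 20 < z.re) (h2 : (z.re - 20) ^ 2 + (z.im - 1) ^ 2 < 4) : Cov z := by
  have hz : z ≠ ⟨20, 1⟩ := fun h => by rw [h] at h1; simp at h1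
  have h : 0 < ‖z - ⟨20, 1⟩‖ := norm_pos_iff.2 (sub_ne_zero.2 hz)
  have hn : ‖z - ⟨20, 1⟩‖ < 2 := by
    have := dist_sq z ⟨20, 1⟩
    rw [dist_eq_norm] at this
    simp only at this
    nlinarith
  obtain ⟨a1, a2, a3⟩ := radial hz 1
  obtain ⟨b1, b2, b3⟩ := radial hz 2
  simp only at a2 a3 b2 b3
  have p1 : 0 < 1 / ‖z - ⟨20, 1⟩‖ * (z.re - 20) := mul_pos (by positivity) (by linarith)
  have p2 : 0 < 2 / ‖z - ⟨20, 1⟩‖ * (z.re - 20) := mul_pos (by positivity) (by linarith)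
  refine ⟨(⟨20, 1⟩ : ℂ) + ((1 / ‖z - ⟨20, 1⟩‖ : ℝ) : ℂ) * (z - ⟨20, 1⟩),
    Or.inl (Or.inr (Or.inl ⟨by linarith, by rw [a2]; norm_num⟩)), ?_⟩
  rcases le_total ‖z - ⟨20, 1⟩‖ 1 with k | k
  · refine ⟨⟨20, 1⟩, by norm_num [Om, Rt], ?_⟩
    rw [a1, dist_eq_norm, abs_of_nonpos (by linarith)]; linarith
  · refine ⟨(⟨20, 1⟩ : ℂ) + ((2 / ‖z - ⟨20, 1⟩‖ : ℝ) : ℂ) * (z - ⟨20, 1⟩), fun he => ?_,
      by rw [b1, a1, abs_of_nonpos (by linarith), abs_of_nonneg (by linarith)]; linarith⟩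
    rcases he.1 with ⟨_, _, c | c⟩ | ⟨_, c⟩ | ⟨_, _, c | c⟩
    · linarith
    · linarith
    · linarith
    · linarith
    · nlinarith [sq_nonneg (((⟨20, 1⟩ : ℂ) + ((2 / ‖z - ⟨20, 1⟩‖ : ℝ) : ℂ) * (z - ⟨20, 1⟩)).im + 2)]

lemma cov_up {z : ℂ} (hz : z ∈ Om) (hy : 0 ≤ z.im) : Cov z := by
  obtain ⟨x, y⟩ := z
  obtain ⟨h1, h2⟩ := hz
  simp only at h1 h2 hy
  have h1' : y < 3 ∧ (x ≤ 20 ∨ (x - 20) ^ 2 + (y - 1) ^ 2 < 4) := by
    rcases h1 with ⟨_, b, c⟩ | ⟨a, _⟩ | ⟨_, b, _⟩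
    · exact ⟨b, c⟩
    · linarith
    · linarith
  rcases lt_or_ge 20 x with k | k
  · exact cov_right k (h1'.2.resolve_left (not_le.2 k))
  rcases h2 with ⟨a, b, c⟩ | ⟨a, b⟩ | ⟨a, b, c⟩
  · rcases lt_or_ge 20 (-x) with k' | k'
    · exact Cov.neg (cov_right k' (c.resolve_left (not_le.2 k')))
    · refine ⟨⟨x, 0⟩, Or.inl (Or.inl ⟨rfl, by simpa using neg_le.1 k', k⟩), ⟨x, 1⟩, fun he => ?_, ?_⟩
      · rcases he.2 with ⟨c, _⟩ | ⟨_, c⟩ | ⟨_, c, _⟩ <;> simp only at c <;> linarith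
      · rw [dist_vert, dist_vert, abs_of_nonpos (by linarith), abs_of_nonneg (by linarith)]
        linarith
  · linarith
  · rcases le_or_gt 18 x with k' | k'
    · refine ⟨⟨x, 2⟩, Or.inl (Or.inr (Or.inr ⟨rfl, k', k⟩)), ?_⟩
      rcases le_total y 2 with m | m
      · refine ⟨⟨x, 1⟩, fun he => ?_, ?_⟩
        · rcases he.2 with ⟨c, _⟩ | ⟨_, c⟩ | ⟨_, c, _⟩ <;> simp only at c <;> linarith
        · rw [dist_vert, dist_vert, abs_of_nonneg (by linarith), abs_of_nonpos (by linarith)]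
          linarith
      · refine ⟨⟨x, 3⟩, fun he => by simpa using he.1.bd.2.1, ?_⟩
        rw [dist_vert, dist_vert, abs_of_nonpos (by linarith), abs_of_nonneg (by linarith)]
        linarith
    · have c' := c.resolve_left (by linarith)
      have hz : (⟨x, y⟩ : ℂ) ≠ ⟨18, 2⟩ := fun h => by
        have := congrArg Complex.re h; simp at this; linarith
      have h : 0 < ‖(⟨x, y⟩ : ℂ) - ⟨18, 2⟩‖ := norm_pos_iff.2 (sub_ne_zero.2 hz)
      have hn : ‖(⟨x, y⟩ : ℂ) - ⟨18, 2⟩‖ < 1 := by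
        have := dist_sq ⟨x, y⟩ ⟨18, 2⟩
        rw [dist_eq_norm] at this
        simp only at this
        nlinarith
      obtain ⟨a1, a2, a3⟩ := radial hz 1
      simp only at a2 a3
      have p1 : 1 / ‖(⟨x, y⟩ : ℂ) - ⟨18, 2⟩‖ * (x - 18) < 0 :=
        mul_neg_of_pos_of_neg (by positivity) (by linarith)
      refine ⟨⟨18, 2⟩, by norm_num [Ga, Gh], _, fun he => ?_,
        by rw [a1, dist_eq_norm, abs_of_nonpos (by linarith)]; linarith⟩
      set e := ((⟨18, 2⟩ : ℂ) + ((1 / ‖(⟨x, y⟩ : ℂ) - ⟨18, 2⟩‖ : ℝ) : ℂ) * (⟨x, y⟩ - ⟨18, 2⟩))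
      rcases he.2 with ⟨c, _⟩ | ⟨c, d⟩ | ⟨_, _, c | c⟩
      · nlinarith [sq_nonneg (e.re - 18)]
      · linarith
      · linarith
      · nlinarith

lemma cov {z : ℂ} (hz : z ∈ Om) : Cov z := by
  rcases le_total 0 z.im with h | h
  · exact cov_up hz h
  · exact Cov.neg (cov_up (neg_Om.2 hz) (by simpa using h))

lemma cov_lt {z : ℂ} (hz : z ∈ Om) :
    ∃ g ∈ Ga, dist z g < 1 ∧ infDist z Omᶜ + dist z g ≤ 1 := by
  obtain ⟨g, h1, e, h2, h3⟩ := cov hz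
  have : 0 < dist z e := dist_pos.2 fun h => h2 (h ▸ hz)
  exact ⟨g, h1, by linarith, by linarith [infDist_le_dist_of_mem (x := z) (show e ∈ Omᶜ from h2)]⟩

lemma isOpen_Om : IsOpen Om := by
  rw [isOpen_iff_forall_mem_open]
  intro z hz
  obtain ⟨g, h1, h2, -⟩ := cov_lt hz
  exact ⟨ball g 1, fun w hw => ball_sub h1 hw, isOpen_ball, h2⟩

lemma bounded_Om : Bornology.IsBounded Om := by
  refine (isBounded_closedBall (x := (0 : ℂ)) (r := 25)).subset fun z hz => ?_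
  have a := hz.1.bd
  have b := hz.2.bd
  rw [mem_closedBall_zero_iff]
  refine (norm_le_abs_re_add_abs_im z).trans ?_
  have : |z.re| ≤ 22 := abs_le.2 ⟨by linarith, by linarith⟩
  have : |z.im| ≤ 3 := abs_le.2 ⟨by linarith, by linarith⟩
  linarith

lemma compl_ne : Omᶜ.Nonempty := ⟨⟨0, 3⟩, fun he => by simpa using he.1.bd.2.1⟩

lemma d_ge {g : ℂ} (hg : g ∈ Ga) (z : ℂ) : 1 - dist z g ≤ infDist z Omᶜ := by
  refine (le_infDist compl_ne).2 fun e he => ?_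
  have : 1 ≤ dist e g := not_lt.1 fun h => he (ball_sub hg h)
  linarith [dist_triangle_left e g z]

lemma locmax_eq : {z : ℂ | z ∈ Om ∧ IsLocalMax (fun w : ℂ => infDist w Omᶜ) z} = Ga := by
  ext z
  constructor
  · rintro ⟨hz, hm⟩
    obtain ⟨g, h1, -, h3⟩ := cov_lt hz
    by_cases hzg : z = g
    · exact hzg ▸ h1
    exfalso
    have hd : 0 < dist z g := dist_pos.2 hzg
    have t : Tendsto (fun t : ℝ => z + (t : ℂ) * (g - z)) (𝓝[>] 0) (𝓝 z) := by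
      have : Continuous fun t : ℝ => z + (t : ℂ) * (g - z) := by fun_prop
      simpa using (this.tendsto 0).mono_left nhdsWithin_le_nhds
    obtain ⟨s, a, b⟩ := ((t.eventually hm).and (Ioo_mem_nhdsGT one_pos)).exists
    have c := d_ge h1 (z + (s : ℂ) * (g - z))
    have e : dist (z + (s : ℂ) * (g - z)) g = (1 - s) * dist z g := by
      rw [dist_eq_norm, dist_eq_norm]
      have : z + (s : ℂ) * (g - z) - g = ((1 - s : ℝ) : ℂ) * (z - g) := by push_cast; ring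
      rw [this, norm_mul, Complex.norm_real, Real.norm_eq_abs, abs_of_pos (by linarith [b.2])]
    nlinarith [mul_pos b.1 hd]
  · intro hz
    have h0 : z ∈ Om := ball_sub hz (by simp)
    refine ⟨h0, ?_⟩
    filter_upwards [isOpen_Om.mem_nhds h0] with w hw
    obtain ⟨g, -, -, h3⟩ := cov_lt hw
    have := d_ge hz z
    rw [dist_self] at this
    linarith [dist_nonneg (x := w) (y := g)]

lemma pre_half : IsPreconnected {z : ℂ | Gh z.re z.im} := by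
  have hmk : Continuous fun q : ℝ × ℝ => (⟨q.1, q.2⟩ : ℂ) := equivRealProdCLM.symm.continuous
  have s1 : IsPreconnected ((fun x : ℝ => (⟨x, 0⟩ : ℂ)) '' Icc (-20) 20) :=
    isPreconnected_Icc.image _ (hmk.comp (f := fun x => (x, 0)) (by fun_prop)).continuousOn
  have s2 : IsPreconnected ((fun y : ℝ => (⟨20 + √(1 - (y - 1) ^ 2), y⟩ : ℂ)) '' Icc 0 2) :=
    isPreconnected_Icc.image _
      (hmk.comp (f := fun y => (20 + √(1 - (y - 1) ^ 2), y)) (by fun_prop)).continuousOn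
  have s3 : IsPreconnected ((fun x : ℝ => (⟨x, 2⟩ : ℂ)) '' Icc 18 20) :=
    isPreconnected_Icc.image _ (hmk.comp (f := fun x => (x, 2)) (by fun_prop)).continuousOn
  have t1 := fun a b => IsPreconnected.union (⟨20, 0⟩ : ℂ) a b s1 s2
  replace t1 := t1 ⟨20, by norm_num, rfl⟩ ⟨0, by norm_num, by norm_num⟩
  have := fun a b => IsPreconnected.union (⟨20, 2⟩ : ℂ) a b t1 s3
  replace this := this (Or.inr ⟨2, by norm_num, by norm_num⟩) ⟨20, by norm_num, rfl⟩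
  convert this using 1
  ext ⟨x, y⟩
  simp only [mem_ofPred_eq, Gh, mem_union, mem_image, mem_Icc, Complex.mk.injEq]
  constructor
  · rintro (⟨a, b, c⟩ | ⟨a, b⟩ | ⟨a, b, c⟩)
    · exact Or.inl (Or.inl ⟨x, ⟨b, c⟩, rfl, a.symm⟩)
    · refine Or.inl (Or.inr ⟨y, ⟨by nlinarith [sq_nonneg (x - 20)],
        by nlinarith [sq_nonneg (x - 20)]⟩, ?_, rfl⟩)
      rw [show 1 - (y - 1) ^ 2 = (x - 20) ^ 2 by linarith, Real.sqrt_sq (by linarith)]; ring
    · exact Or.inr ⟨x, ⟨b, c⟩, rfl, a.symm⟩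
  · rintro ((⟨t, ⟨a, b⟩, rfl, rfl⟩ | ⟨t, ⟨a, b⟩, rfl, rfl⟩) | ⟨t, ⟨a, b⟩, rfl, rfl⟩)
    · exact Or.inl ⟨rfl, a, b⟩
    · refine Or.inr (Or.inl ⟨by linarith [Real.sqrt_nonneg (1 - (t - 1) ^ 2)], ?_⟩)
      rw [add_sub_cancel_left, Real.sq_sqrt (by nlinarith)]; ring
    · exact Or.inr (Or.inr ⟨rfl, a, b⟩)

lemma pre_Ga : IsPreconnected Ga := by
  have h2 : IsPreconnected ((fun z : ℂ => -z) '' {z : ℂ | Gh z.re z.im}) :=
    pre_half.image _ continuous_neg.continuousOn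
  have m : (0 : ℂ) ∈ ((fun z : ℂ => -z) '' {z : ℂ | Gh z.re z.im}) :=
    ⟨0, by norm_num [Gh], by simp⟩
  have := IsPreconnected.union (0 : ℂ) (by norm_num [Gh]) m pre_half h2
  convert this using 1
  ext z
  simp only [Ga, mem_ofPred_eq, mem_union, mem_image]
  refine or_congr Iff.rfl ⟨fun h => ⟨-z, by simpa using h, by simp⟩, ?_⟩
  rintro ⟨w, h, rfl⟩; simpa using h

lemma ray (ζ : ℂ) (hζ : ζ ∉ Om) :
    ∃ σ : ℝ, σ ^ 2 = 1 ∧ ∀ z ∈ Om, (σ : ℂ) * (z - ζ) ∈ slitPlane := by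
  by_cases h : Rt ζ.re ζ.im
  · refine ⟨1, by norm_num, fun z hz => ?_⟩
    by_contra hs
    simp only [mem_slitPlane_iff, ofReal_one, one_mul, sub_re, sub_im, not_or, not_lt,
      not_not] at hs
    refine hζ ⟨h, ?_⟩
    rw [show ζ.im = z.im by linarith [hs.2]]
    exact hz.2.mono (by linarith [hs.1])
  · refine ⟨-1, by norm_num, fun z hz => ?_⟩
    by_contra hs
    simp only [mem_slitPlane_iff, re_ofReal_mul, im_ofReal_mul, sub_re, sub_im, not_or, not_lt,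
      not_not] at hs
    apply h
    rw [show ζ.im = z.im by linarith [hs.2]]
    exact hz.1.mono (by linarith [hs.1])

end Pool.Agent.H93.Tor3
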