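import Mathlib

namespace H93Un
open Finset
open scoped RealInnerProductSpace

section abstract
variable {E : Type*} [NormedAddCommGroup E] [InnerProductSpace ℝ E]

/-- Iterated averaging operators. -/
noncomputable def Kp (U : ℕ → E →ₗᵢ[ℝ] E) (h : E) : ℕ → E
  | 0 => h
  | n + 1 => (1 / 2 : ℝ) • (Kp U h n + U n (Kp U h n))

lemma inv_adj {U : E →ₗᵢ[ℝ] E} (hU : ∀ x, U (U x) = x) (x y : E) : ⟪U x, y⟫ = ⟪x, U y⟫ := by
  rw [← U.inner_map_map x (U y), hU]

lemma step_ineq {U : E →ₗᵢ[ℝ] E} (hU : ∀ x, U (U x) = x) (x k : E) :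
    ⟪x, x - (1 / 2 : ℝ) • (k + U k)⟫ + ‖x - (1 / 2 : ℝ) • (k + U k)‖ ^ 2 / 2 ≤
      ⟪x, x - k⟫ + ‖x - k‖ ^ 2 / 2 + ‖x - U x‖ ^ 2 / 2 := by
  have h1 : ⟪U x, k⟫ = ⟪x, U k⟫ := inv_adj hU x k
  have h2 : ⟪U x, U k⟫ = ⟪x, k⟫ := U.inner_map_map x k
  have h3 : ⟪U x, U x⟫ = ⟪x, x⟫ := U.inner_map_map x x
  have h4 : ⟪U k, U k⟫ = ⟪k, k⟫ := U.inner_map_map k k
  have h5 : 0 ≤ ⟪(2 : ℝ) • (x - U x) - (k - U k), (2 : ℝ) • (x - U x) - (k - U k)⟫ :=
    real_inner_self_nonneg
  rw [← real_inner_self_eq_norm_sq, ← real_inner_self_eq_norm_sq, ← real_inner_self_eq_norm_sq]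
  simp only [inner_sub_left, inner_sub_right, inner_add_left, inner_add_right, inner_smul_left,
    inner_smul_right, conj_trivial] at h5 ⊢
  rw [real_inner_comm x (U x), real_inner_comm x k, real_inner_comm x (U k),
    real_inner_comm k (U k)] at *
  rw [real_inner_comm (U x) k, real_inner_comm (U x) (U k)] at h5
  rw [h1, h2, h3, h4] at h5
  rw [h3, h4]
  linarith

lemma Kp_ineq (U : ℕ → E →ₗᵢ[ℝ] E) (hU : ∀ n x, U n (U n x) = x) (h : E) (n : ℕ) :
    ⟪h, h - Kp U h n⟫ + ‖h - Kp U h n‖ ^ 2 / 2 ≤ ∑ t ∈ range n, ‖h - U t h‖ ^ 2 / 2 := by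
  induction n with
  | zero => simp [Kp]
  | succ n ih =>
    rw [sum_range_succ]
    have := step_ineq (hU n) h (Kp U h n)
    simp only [Kp]
    linarith

end abstract

section walk
variable {Y : Type*}

/-- Apply the moves indexed by `G` in increasing order. -/
def walk (τ : ℕ → Y → Y) (G : Finset ℕ) : ℕ → Y → Y
  | 0, s => s
  | n + 1, s => if n ∈ G then τ n (walk τ G n s) else walk τ G n s

lemma walk_insert (τ : ℕ → Y → Y) (G : Finset ℕ) {n k : ℕ} (hk : n ≤ k) (s : Y) :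
    walk τ (insert k G) n s = walk τ G n s := by
  induction n with
  | zero => rfl
  | succ n ih =>
    have : n ≠ k := by omega
    simp [walk, ih (by omega), this]

lemma sum_walk_succ {M : Type*} [AddCommMonoid M] (τ : ℕ → Y → Y) (n : ℕ) (φ : (Y → Y) → M) :
    ∑ G ∈ (range (n + 1)).powerset, φ (walk τ G (n + 1)) =
      ∑ G ∈ (range n).powerset, (φ (walk τ G n) + φ (fun s => τ n (walk τ G n s))) := by
  rw [range_add_one, sum_powerset_insert (by simp), sum_add_distrib]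
  congr 1
  · refine sum_congr rfl fun G hG => ?_
    have : n ∉ G := fun h => by simpa using mem_powerset.1 hG h
    congr 1; funext s; simp [walk, this]
  · refine sum_congr rfl fun G _ => ?_
    congr 1; funext s; simp [walk, walk_insert τ G le_rfl]

variable {H : Type*} [NormedAddCommGroup H] [InnerProductSpace ℝ H]

lemma walk_fintype [Fintype Y] (τ : ℕ → Y → Y) (hτ : ∀ n, Function.Involutive (τ n)) (F : Y → H)
    (n : ℕ) : ∑ G ∈ (range n).powerset, ∑ s, ‖F s - F (walk τ G n s)‖ ^ 2 ≤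
      2 ^ n * ∑ t ∈ range n, ∑ s, ‖F s - F (τ t s)‖ ^ 2 := by
  classical
  let U : ℕ → PiLp 2 (fun _ : Y => H) →ₗᵢ[ℝ] PiLp 2 (fun _ : Y => H) := fun t =>
    (LinearIsometryEquiv.piLpCongrLeft 2 ℝ H (hτ t).toPerm).toLinearIsometry
  have hUa : ∀ t x s, (U t x) s = x (τ t s) := fun t x s => rfl
  have hU : ∀ t x, U t (U t x) = x := fun t x => by
    ext s; rw [hUa, hUa, hτ t s]
  let h : PiLp 2 (fun _ : Y => H) := WithLp.toLp 2 F
  have key : ∀ n, ∀ f : PiLp 2 (fun _ : Y => H),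
      ∑ G ∈ (range n).powerset, ∑ s, ⟪F s, f (walk τ G n s)⟫ = 2 ^ n * ⟪Kp U h n, f⟫ := by
    intro n
    induction n with
    | zero => intro f; simp [walk, Kp, PiLp.inner_apply, h]
    | succ n ih =>
      intro f
      rw [sum_walk_succ τ n (fun w => ∑ s, ⟪F s, f (w s)⟫), sum_add_distrib, ih f]
      have := ih (U n f)
      simp only [hUa] at this
      rw [this, Kp, inner_smul_left, inner_add_left, inv_adj (hU n)]
      simp only [conj_trivial]
      ring
  have nrm : ∀ n, ∑ G ∈ (range n).powerset, ∑ s, ‖F (walk τ G n s)‖ ^ 2 =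
      2 ^ n * ∑ s, ‖F s‖ ^ 2 := by
    have gen : ∀ n, ∀ φ : Y → ℝ, ∑ G ∈ (range n).powerset, ∑ s, φ (walk τ G n s) =
        2 ^ n * ∑ s, φ s := by
      intro n
      induction n with
      | zero => intro φ; simp [walk]
      | succ n ih =>
        intro φ
        rw [sum_walk_succ τ n (fun w => ∑ s, φ (w s)), sum_add_distrib, ih φ,
          ih (fun s => φ (τ n s))]
        have : ∑ s, φ (τ n s) = ∑ s, φ s := Equiv.sum_comp (hτ n).toPerm φ
        rw [this]; ring
    intro n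
    exact gen n (fun s => ‖F s‖ ^ 2)
  have hh : ⟪h, h⟫ = ∑ s, ‖F s‖ ^ 2 := by
    rw [real_inner_self_eq_norm_sq, PiLp.norm_sq_eq_of_L2]
  have main := Kp_ineq U hU h n
  have e1 : ∀ t, ‖h - U t h‖ ^ 2 = ∑ s, ‖F s - F (τ t s)‖ ^ 2 := fun t => by
    rw [PiLp.norm_sq_eq_of_L2]; rfl
  simp only [e1] at main
  rw [inner_sub_right, hh, ← sum_div] at main
  have e2 : ∑ G ∈ (range n).powerset, ∑ s, ‖F s - F (walk τ G n s)‖ ^ 2 =
      ∑ G ∈ (range n).powerset, ∑ s, ‖F s‖ ^ 2 -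
        2 * ∑ G ∈ (range n).powerset, ∑ s, ⟪F s, h (walk τ G n s)⟫ +
        ∑ G ∈ (range n).powerset, ∑ s, ‖F (walk τ G n s)‖ ^ 2 := by
    rw [mul_sum, ← sum_sub_distrib, ← sum_add_distrib]
    refine sum_congr rfl fun G _ => ?_
    rw [mul_sum, ← sum_sub_distrib, ← sum_add_distrib]
    refine sum_congr rfl fun s _ => ?_
    rw [norm_sub_sq_real]
  rw [e2, key, nrm, sum_const, card_powerset, card_range, nsmul_eq_mul, real_inner_comm]
  push_cast
  have hp : (0 : ℝ) < 2 ^ n := by positivity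
  nlinarith [sq_nonneg ‖h - Kp U h n‖]

lemma walk_finset (τ : ℕ → Y → Y) (hτ : ∀ n, Function.Involutive (τ n)) (F : Y → H)
    (n : ℕ) (S S₀ : Finset Y) (h0 : ∀ s ∈ S₀, ∀ G, ∀ t ≤ n, walk τ G t s ∈ S) :
    ∑ G ∈ (range n).powerset, ∑ s ∈ S₀, ‖F s - F (walk τ G n s)‖ ^ 2 ≤
      2 ^ n * ∑ t ∈ range n, ∑ s ∈ S, ‖F s - F (τ t s)‖ ^ 2 := by
  classical
  let σ : ℕ → S → S := fun t s => if h : τ t s ∈ S then ⟨τ t s, h⟩ else s
  have hσ : ∀ t, Function.Involutive (σ t) := by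
    intro t s
    by_cases h : τ t s ∈ S
    · have h2 : τ t (τ t s) ∈ S := by rw [hτ t]; exact s.2
      simp only [σ, h, h2, dif_pos]
      exact Subtype.ext (hτ t s)
    · simp only [σ, h, dif_neg, not_false_eq_true]
  have main := walk_fintype σ hσ (fun s : S => F s) n
  have hw : ∀ (s : S), (s : Y) ∈ S₀ → ∀ G, ∀ t ≤ n, ((walk σ G t s : S) : Y) = walk τ G t s := by
    intro s hs G t
    induction t with
    | zero => intro _; rfl
    | succ t ih =>
      intro ht
      have h1 := ih (by omega)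
      have h2 := h0 s hs G (t + 1) ht
      by_cases hG : t ∈ G
      · simp only [walk, hG, if_true] at h2 ⊢
        simp only [σ, h1, h2, dif_pos]
      · simp only [walk, hG, if_false, h1]
  have hsub : S₀ ⊆ S := fun s hs => h0 s hs ∅ 0 (Nat.zero_le _)
  refine le_trans (sum_le_sum fun G _ => ?_) (main.trans ?_)
  · have e : ∑ s ∈ S₀, ‖F s - F (walk τ G n s)‖ ^ 2 =
        ∑ s : S, if (s : Y) ∈ S₀ then ‖F s - F (walk τ G n s)‖ ^ 2 else 0 := by
      rw [sum_coe_sort S (fun s => if s ∈ S₀ then ‖F s - F (walk τ G n s)‖ ^ 2 else 0),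
        ← sum_filter]
      congr 1
      ext s; simp only [mem_filter]
      exact ⟨fun h => ⟨hsub h, h⟩, fun h => h.2⟩
    rw [e]
    refine sum_le_sum fun s _ => ?_
    split_ifs with hs
    · rw [hw s hs G n le_rfl]
    · positivity
  · gcongr with t _
    rw [← sum_coe_sort S (fun s => ‖F s - F (τ t s)‖ ^ 2)]
    refine sum_le_sum fun s _ => ?_
    by_cases h : τ t s ∈ S
    · simp only [σ, h, dif_pos, le_refl]
    · simp only [σ, h, dif_neg, not_false_eq_true, sub_self, norm_zero]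
      rw [zero_pow two_ne_zero]; positivity

end walk

section enflo
variable {H : Type*} [NormedAddCommGroup H] [InnerProductSpace ℝ H]
variable {I : Type*} [Fintype I] [DecidableEq I]

lemma quad (x y z w : H) :
    ‖x - z‖ ^ 2 + ‖y - w‖ ^ 2 ≤ ‖x - y‖ ^ 2 + ‖y - z‖ ^ 2 + ‖z - w‖ ^ 2 + ‖w - x‖ ^ 2 := by
  have h : 0 ≤ ‖x - y + z - w‖ ^ 2 := by positivity
  simp only [← real_inner_self_eq_norm_sq, inner_sub_left, inner_sub_right, inner_add_left,
    inner_add_right] at h ⊢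
  rw [real_inner_comm x y, real_inner_comm x z, real_inner_comm x w, real_inner_comm y z,
    real_inner_comm y w, real_inner_comm z w] at *
  linarith

/-- Flip the coordinates in `T`. -/
def flipT (T : Finset I) (b : I → Bool) : I → Bool := fun x => if x ∈ T then !b x else b x

omit [Fintype I] in
lemma flipT_inv (T : Finset I) : Function.Involutive (flipT T) := fun b => by
  funext x; by_cases h : x ∈ T <;> simp [flipT, h]

omit [Fintype I] in
lemma flipT_comm (T T' : Finset I) (b : I → Bool) : flipT T (flipT T' b) = flipT T' (flipT T b) := by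
  funext x; by_cases h : x ∈ T <;> by_cases h' : x ∈ T' <;> simp [flipT, h, h']

lemma enflo (φ : (I → Bool) → H) {l : ℝ} (hl : ∀ b x, ‖φ b - φ (flipT {x} b)‖ ≤ l) (T : Finset I) :
    ∑ b, ‖φ b - φ (flipT T b)‖ ^ 2 ≤ T.card * (Fintype.card (I → Bool) * l ^ 2) := by
  induction T using Finset.induction_on with
  | empty =>
    have : ∀ b : I → Bool, flipT ∅ b = b := fun b => by funext x; simp [flipT]
    simp [this]
  | insert x T hx ih =>
    have e : ∀ b, flipT (insert x T) b = flipT {x} (flipT T b) := fun b => by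
      funext y
      by_cases h : y = x
      · subst h; simp [flipT, hx]
      · simp [flipT, h]
    have s1 : ∑ b, ‖φ b - φ (flipT {x} b)‖ ^ 2 ≤ Fintype.card (I → Bool) * l ^ 2 := by
      rw [← card_univ, ← nsmul_eq_mul]
      refine sum_le_card_nsmul _ _ _ fun b _ => ?_
      have := hl b x
      gcongr
    have q := sum_le_sum fun b (_ : b ∈ (univ : Finset (I → Bool))) =>
      quad (φ b) (φ (flipT T b)) (φ (flipT {x} (flipT T b))) (φ (flipT {x} b))
    simp only [sum_add_distrib] at q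
    have r1 : ∑ b, ‖φ (flipT T b) - φ (flipT {x} b)‖ ^ 2 =
        ∑ b, ‖φ b - φ (flipT {x} (flipT T b))‖ ^ 2 := by
      rw [← Equiv.sum_comp (flipT_inv T).toPerm]
      refine sum_congr rfl fun b _ => ?_
      simp only [Function.Involutive.coe_toPerm]
      rw [flipT_inv T b]
    have r2 : ∑ b, ‖φ (flipT T b) - φ (flipT {x} (flipT T b))‖ ^ 2 =
        ∑ b, ‖φ b - φ (flipT {x} b)‖ ^ 2 :=
      Equiv.sum_comp (flipT_inv T).toPerm (fun b => ‖φ b - φ (flipT {x} b)‖ ^ 2)
    have r3 : ∑ b, ‖φ (flipT {x} (flipT T b)) - φ (flipT {x} b)‖ ^ 2 =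
        ∑ b, ‖φ b - φ (flipT T b)‖ ^ 2 := by
      rw [← (Equiv.sum_comp (flipT_inv {x}).toPerm (fun b => ‖φ b - φ (flipT T b)‖ ^ 2))]
      refine sum_congr rfl fun b _ => ?_
      simp only [Function.Involutive.coe_toPerm]
      rw [norm_sub_rev, flipT_comm]
    have r4 : ∑ b, ‖φ (flipT {x} b) - φ b‖ ^ 2 = ∑ b, ‖φ b - φ (flipT {x} b)‖ ^ 2 :=
      sum_congr rfl fun b _ => by rw [norm_sub_rev]
    rw [r1, r2, r3, r4] at q
    simp only [e]
    rw [card_insert_of_notMem hx]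
    push_cast
    linarith

end enflo

end H93Un
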