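import Pool.Agent.H93.Un1

namespace H93Un
open Finset
open scoped RealInnerProductSpace

section glue
variable {X Λ : Type*} (leaf : X → Λ) (ω ρ : X → X → ℝ)

/-- Long route: move in the leaves, then jump. -/
noncomputable def del (x y : X) : ℝ :=
  ⨅ p : {p : X × X // leaf p.1 = leaf x ∧ leaf p.2 = leaf y},
    (ω x p.1.1 + ρ p.1.1 p.1.2 + ω y p.1.2 + 4)

open Classical in
/-- The glued distance. -/
noncomputable def gd (x y : X) : ℝ :=
  if leaf x = leaf y then min (ω x y) (del leaf ω ρ x y) else del leaf ω ρ x y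

/-- Hypotheses for gluing. -/
structure GlueHyp : Prop where
  w0 : ∀ x, ω x x = 0
  wn : ∀ x y, 0 ≤ ω x y
  ws : ∀ x y, leaf x = leaf y → ω x y = ω y x
  wt : ∀ x y z, leaf x = leaf y → leaf y = leaf z → ω x z ≤ ω x y + ω y z
  wp : ∀ x y, leaf x = leaf y → ω x y = 0 → x = y
  rn : ∀ x y, 0 ≤ ρ x y
  rs : ∀ x y, ρ x y = ρ y x
  rt : ∀ x y z, ρ x z ≤ ρ x y + ρ y z
  rw : ∀ x y, leaf x = leaf y → ρ x y ≤ ω x y + 1

variable {leaf ω ρ}

lemma del_le (h : GlueHyp leaf ω ρ) {x y x' y' : X} (h1 : leaf x' = leaf x)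
    (h2 : leaf y' = leaf y) : del leaf ω ρ x y ≤ ω x x' + ρ x' y' + ω y y' + 4 := by
  refine ciInf_le (f := fun p : {p : X × X // leaf p.1 = leaf x ∧ leaf p.2 = leaf y} =>
    (ω x p.1.1 + ρ p.1.1 p.1.2 + ω y p.1.2 + 4)) ⟨0, ?_⟩ ⟨(x', y'), h1, h2⟩
  rintro _ ⟨p, rfl⟩
  have := h.wn x p.1.1; have := h.rn p.1.1 p.1.2; have := h.wn y p.1.2
  simp only; linarith

lemma le_del {x y : X} {c : ℝ} (hc : ∀ x' y', leaf x' = leaf x → leaf y' = leaf y →
    c ≤ ω x x' + ρ x' y' + ω y y' + 4) : c ≤ del leaf ω ρ x y := by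
  have : Nonempty {p : X × X // leaf p.1 = leaf x ∧ leaf p.2 = leaf y} := ⟨⟨(x, y), rfl, rfl⟩⟩
  exact le_ciInf fun p => hc _ _ p.2.1 p.2.2

lemma del_up (h : GlueHyp leaf ω ρ) (x y : X) : del leaf ω ρ x y ≤ ρ x y + 4 := by
  have := del_le h (x := x) (y := y) (x' := x) (y' := y) rfl rfl
  rw [h.w0, h.w0] at this; linarith

lemma del_lo (h : GlueHyp leaf ω ρ) (x y : X) : ρ x y + 2 ≤ del leaf ω ρ x y := by
  refine le_del fun x' y' h1 h2 => ?_
  have a1 := h.rw x x' h1.symm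
  have a2 := h.rw y y' h2.symm
  have a3 := h.rt x x' y
  have a4 := h.rt x' y' y
  rw [h.rs y' y] at a4
  linarith

lemma del_symm (h : GlueHyp leaf ω ρ) (x y : X) : del leaf ω ρ x y = del leaf ω ρ y x := by
  have key : ∀ x y, del leaf ω ρ x y ≤ del leaf ω ρ y x := fun x y =>
    le_del fun y' x' h1 h2 => by
      have := del_le h (x := x) (y := y) h2 h1
      rw [h.rs x' y'] at this; linarith
  exact le_antisymm (key x y) (key y x)

lemma del_left (h : GlueHyp leaf ω ρ) {x y : X} (hxy : leaf x = leaf y) (z : X) :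
    del leaf ω ρ x z ≤ ω x y + del leaf ω ρ y z := by
  rw [← sub_le_iff_le_add']
  refine le_del fun y' z' h1 h2 => ?_
  have a1 := del_le h (x := x) (y := z) (h1.trans hxy.symm) h2
  have a2 := h.wt x y y' hxy h1.symm
  linarith

lemma gd_le_del (x y : X) : gd leaf ω ρ x y ≤ del leaf ω ρ x y := by
  unfold gd; split_ifs
  · exact min_le_right _ _
  · exact le_rfl

lemma gd_le_w {x y : X} (hxy : leaf x = leaf y) : gd leaf ω ρ x y ≤ ω x y := by
  unfold gd; rw [if_pos hxy]; exact min_le_left _ _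

lemma gd_cases (x y : X) : (leaf x = leaf y ∧ gd leaf ω ρ x y = ω x y) ∨
    gd leaf ω ρ x y = del leaf ω ρ x y := by
  unfold gd; split_ifs with hxy
  · rcases min_choice (ω x y) (del leaf ω ρ x y) with h | h
    · exact Or.inl ⟨hxy, h⟩
    · exact Or.inr h
  · exact Or.inr rfl

lemma gd_up (h : GlueHyp leaf ω ρ) (x y : X) : gd leaf ω ρ x y ≤ ρ x y + 4 :=
  (gd_le_del x y).trans (del_up h x y)

lemma gd_lo (h : GlueHyp leaf ω ρ) (x y : X) : ρ x y - 1 ≤ gd leaf ω ρ x y := by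
  rcases gd_cases (leaf := leaf) (ω := ω) (ρ := ρ) x y with ⟨h1, h2⟩ | h2
  · rw [h2]; linarith [h.rw x y h1]
  · rw [h2]; linarith [del_lo h x y]

lemma gd_self (h : GlueHyp leaf ω ρ) (x : X) : gd leaf ω ρ x x = 0 := by
  unfold gd; rw [if_pos rfl, h.w0]
  exact min_eq_left (by linarith [del_lo h x x, h.rn x x])

lemma gd_symm (h : GlueHyp leaf ω ρ) (x y : X) : gd leaf ω ρ x y = gd leaf ω ρ y x := by
  unfold gd
  by_cases hxy : leaf x = leaf y
  · rw [if_pos hxy, if_pos hxy.symm, h.ws x y hxy, del_symm h]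
  · rw [if_neg hxy, if_neg (Ne.symm hxy), del_symm h]

lemma gd_tri (h : GlueHyp leaf ω ρ) (x y z : X) :
    gd leaf ω ρ x z ≤ gd leaf ω ρ x y + gd leaf ω ρ y z := by
  rcases gd_cases (leaf := leaf) (ω := ω) (ρ := ρ) x y with ⟨h1, h2⟩ | h2 <;>
    rcases gd_cases (leaf := leaf) (ω := ω) (ρ := ρ) y z with ⟨h3, h4⟩ | h4 <;> rw [h2, h4]
  · exact (gd_le_w (h1.trans h3)).trans (h.wt x y z h1 h3)
  · exact (gd_le_del x z).trans (del_left h h1 z)
  · refine (gd_le_del x z).trans ?_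
    have := del_left h h3.symm x
    rw [del_symm h z x, del_symm h y x, h.ws z y h3.symm] at this
    linarith
  · linarith [gd_up h x z, del_lo h x y, del_lo h y z, h.rt x y z]

lemma gd_zero (h : GlueHyp leaf ω ρ) {x y : X} (h0 : gd leaf ω ρ x y = 0) : x = y := by
  rcases gd_cases (leaf := leaf) (ω := ω) (ρ := ρ) x y with ⟨h1, h2⟩ | h2
  · exact h.wp x y h1 (h2 ▸ h0)
  · linarith [del_lo h x y, h.rn x y]

lemma gd_nonneg (h : GlueHyp leaf ω ρ) (x y : X) : 0 ≤ gd leaf ω ρ x y := by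
  have := gd_tri h x y x
  rw [gd_self h, gd_symm h y x] at this
  linarith

end glue

section nn
variable {I : Type*} [Fintype I]

/-- Rank-one matrix. -/
def tens (u v : EuclideanSpace ℝ I) : EuclideanSpace ℝ (I × I) :=
  WithLp.toLp 2 fun e => u e.1 * v e.2

lemma inner_tens (u v u' v' : EuclideanSpace ℝ I) :
    ⟪tens u v, tens u' v'⟫ = ⟪u, u'⟫ * ⟪v, v'⟫ := by
  simp only [tens, PiLp.inner_apply, RCLike.inner_apply, conj_trivial, Fintype.sum_prod_type,
    sum_mul_sum]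
  refine sum_congr rfl fun i _ => sum_congr rfl fun k _ => by ring

lemma norm_tens (u v : EuclideanSpace ℝ I) : ‖tens u v‖ = ‖u‖ * ‖v‖ := by
  have := inner_tens u v u v
  simp only [real_inner_self_eq_norm_sq] at this
  rw [← mul_pow] at this
  exact (pow_left_inj₀ (norm_nonneg _) (by positivity) two_ne_zero).1 this

omit [Fintype I] in
lemma tens_sub_left (u u' v : EuclideanSpace ℝ I) : tens (u - u') v = tens u v - tens u' v := by
  ext e; simp [tens, sub_mul]

omit [Fintype I] in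
lemma tens_sub_right (u v v' : EuclideanSpace ℝ I) : tens u (v - v') = tens u v - tens u v' := by
  ext e; simp [tens, mul_sub]

omit [Fintype I] in
lemma tens_neg_left (u v : EuclideanSpace ℝ I) : tens (-u) v = -tens u v := by
  ext e; simp [tens]

omit [Fintype I] in
lemma tens_smul_left (c : ℝ) (u v : EuclideanSpace ℝ I) : tens (c • u) v = c • tens u v := by
  ext e; simp [tens, mul_assoc]

/-- Test matrices. -/
def TT (l : ℝ) : Set (EuclideanSpace ℝ (I × I)) :=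
  {T | ‖T‖ ≤ l ∧ ∀ u v, ⟪tens u v, T⟫ ≤ ‖u‖ * ‖v‖}

/-- Norm between Hilbert-Schmidt and nuclear. -/
noncomputable def NN (l : ℝ) (z : EuclideanSpace ℝ (I × I)) : ℝ :=
  ⨆ T : (TT l : Set (EuclideanSpace ℝ (I × I))), ⟪z, (T : EuclideanSpace ℝ (I × I))⟫

variable {l : ℝ}

lemma le_NN {T : EuclideanSpace ℝ (I × I)} (hT : T ∈ TT l) (z : EuclideanSpace ℝ (I × I)) :
    ⟪z, T⟫ ≤ NN l z := by
  refine le_ciSup (f := fun T : (TT l : Set (EuclideanSpace ℝ (I × I))) =>
    ⟪z, (T : EuclideanSpace ℝ (I × I))⟫) ⟨‖z‖ * l, ?_⟩ ⟨T, hT⟩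
  rintro _ ⟨T, rfl⟩
  exact (real_inner_le_norm _ _).trans (by gcongr; exact T.2.1)

lemma zero_TT (hl : 0 ≤ l) : (0 : EuclideanSpace ℝ (I × I)) ∈ TT l :=
  ⟨by simpa, fun u v => by rw [inner_zero_right]; positivity⟩

lemma NN_le (hl : 0 ≤ l) {z : EuclideanSpace ℝ (I × I)} {c : ℝ}
    (h : ∀ T ∈ TT l, ⟪z, T⟫ ≤ c) : NN l z ≤ c := by
  have : Nonempty (TT l : Set (EuclideanSpace ℝ (I × I))) := ⟨⟨0, zero_TT hl⟩⟩
  exact ciSup_le fun T => h T T.2

lemma NN_add (hl : 0 ≤ l) (z w : EuclideanSpace ℝ (I × I)) : NN l (z + w) ≤ NN l z + NN l w :=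
  NN_le hl fun T hT => by rw [inner_add_left]; linarith [le_NN hT z, le_NN hT w]

lemma NN_neg (hl : 0 ≤ l) (z : EuclideanSpace ℝ (I × I)) : NN l (-z) = NN l z := by
  have key : ∀ z : EuclideanSpace ℝ (I × I), NN l (-z) ≤ NN l z := fun z =>
    NN_le hl fun T hT => by
      have : -T ∈ TT l := ⟨by rw [norm_neg]; exact hT.1, fun u v => by
        have := hT.2 (-u) v
        rwa [tens_neg_left, inner_neg_left, norm_neg, ← inner_neg_right] at this⟩
      have := le_NN this z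
      rwa [inner_neg_right, ← inner_neg_left] at this
  refine le_antisymm (key z) ?_
  have := key (-z)
  rwa [neg_neg] at this

lemma NN_up (hl : 0 ≤ l) (z : EuclideanSpace ℝ (I × I)) : NN l z ≤ l * ‖z‖ :=
  NN_le hl fun T hT => (real_inner_le_norm _ _).trans (by rw [mul_comm]; gcongr; exact hT.1)

lemma NN_lo (hl : 1 ≤ l) (z : EuclideanSpace ℝ (I × I)) : ‖z‖ ≤ NN l z := by
  rcases eq_or_lt_of_le (norm_nonneg z) with h | h
  · rw [← h]
    have := le_NN (zero_TT (by linarith : 0 ≤ l)) z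
    rwa [inner_zero_right] at this
  · have hn : ‖(‖z‖⁻¹ : ℝ) • z‖ = 1 := by
      rw [norm_smul, norm_inv, norm_norm, inv_mul_cancel₀ h.ne']
    have hT : (‖z‖⁻¹ : ℝ) • z ∈ TT l := ⟨by rw [hn]; exact hl, fun u v =>
      (real_inner_le_norm _ _).trans (by rw [hn, norm_tens, mul_one])⟩
    have := le_NN hT z
    rw [inner_smul_right, real_inner_self_eq_norm_sq] at this
    have e : ‖z‖⁻¹ * ‖z‖ ^ 2 = ‖z‖ := by field_simp
    simpa [e] using this

lemma NN_tens (hl : 0 ≤ l) (u v : EuclideanSpace ℝ I) : NN l (tens u v) ≤ ‖u‖ * ‖v‖ :=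
  NN_le hl fun _ hT => hT.2 u v

lemma ortho_TT {G : Type*} [Fintype G] {u v : G → EuclideanSpace ℝ I} (hu : Orthonormal ℝ u)
    (hv : Orthonormal ℝ v) (hl : 0 ≤ l) (hG : (Fintype.card G : ℝ) ≤ l ^ 2) :
    ∑ i, tens (u i) (v i) ∈ TT l := by
  classical
  constructor
  · refine (abs_le_of_sq_le_sq' ?_ hl).2
    rw [← real_inner_self_eq_norm_sq, sum_inner]
    refine le_trans (le_of_eq ?_) hG
    rw [← card_univ, card_eq_sum_ones]
    push_cast
    refine sum_congr rfl fun i _ => ?_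
    rw [inner_sum]
    simp only [inner_tens, orthonormal_iff_ite.1 hu, orthonormal_iff_ite.1 hv]
    simp
  · intro x y
    rw [inner_sum]
    simp only [inner_tens]
    have h1 := hu.sum_inner_products_le x (s := univ)
    have h2 := hv.sum_inner_products_le y (s := univ)
    simp only [Real.norm_eq_abs, sq_abs] at h1 h2
    have h3 := sum_mul_sq_le_sq_mul_sq univ (fun i => ⟪u i, x⟫) (fun i => ⟪v i, y⟫)
    refine (abs_le_of_sq_le_sq' ?_ (by positivity)).2
    simp only [real_inner_comm (u _) x, real_inner_comm (v _) y]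
    rw [mul_pow]
    refine h3.trans ?_
    gcongr

end nn

end H93Un
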