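import Pool.Agent.H93.Un2

namespace H93Un
open Finset
open scoped RealInnerProductSpace

variable {I : Type} [Fintype I] [DecidableEq I]

/-- Sign of a bit. -/
def sg (t : Bool) : ℤ := if t then -1 else 1

/-- Unit vector of a cube point. -/
noncomputable def uv (a : I → Bool) : EuclideanSpace ℝ I :=
  WithLp.toLp 2 fun x => (sg (a x) : ℝ) / √(Fintype.card I : ℝ)

lemma sg_sq (t : Bool) : (sg t : ℝ) ^ 2 = 1 := by cases t <;> simp [sg]

omit [DecidableEq I] in
lemma norm_uv [Nonempty I] (a : I → Bool) : ‖uv a‖ = 1 := by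
  have hM : (0 : ℝ) < Fintype.card I := by exact_mod_cast Fintype.card_pos
  have : ‖uv a‖ ^ 2 = 1 := by
    rw [EuclideanSpace.real_norm_sq_eq]
    simp only [uv, div_pow, sg_sq, Real.sq_sqrt hM.le, sum_const, card_univ, nsmul_eq_mul]
    field_simp
  exact (pow_eq_one_iff_of_nonneg (norm_nonneg _) two_ne_zero).1 this

omit [DecidableEq I] in
lemma uv_dist [Nonempty I] (a a' : I → Bool) :
    ‖uv a - uv a'‖ ^ 2 = 4 * (hammingDist a a' : ℝ) / Fintype.card I := by
  have hM : (0 : ℝ) < Fintype.card I := by exact_mod_cast Fintype.card_pos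
  rw [EuclideanSpace.real_norm_sq_eq, hammingDist, card_filter]
  push_cast
  rw [mul_sum, sum_div]
  refine sum_congr rfl fun x _ => ?_
  simp only [uv, PiLp.sub_apply]
  rw [← sub_div, div_pow, Real.sq_sqrt hM.le]
  congr 1
  cases a x <;> cases a' x <;> simp [sg] <;> norm_num

/-- States. -/
abbrev St (I : Type) := (I → Bool) × (I → Bool) × (I × I → ℤ)

/-- Points: a state and a layer. -/
abbrev Pt (I : Type) := St I × Bool

/-- Integer rank-one matrix. -/
def bt (b a : I → Bool) : I × I → ℤ := fun e => sg (b e.1) * sg (a e.2)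

/-- Scaled real matrix. -/
noncomputable def zr (q : ℝ) (z : I × I → ℤ) : EuclideanSpace ℝ (I × I) :=
  WithLp.toLp 2 fun e => q * (z e : ℝ) / Fintype.card I

omit [DecidableEq I] in
lemma zr_sub (q : ℝ) (z w : I × I → ℤ) : zr q (z - w) = zr q z - zr q w := by
  ext e; simp [zr]; ring

omit [DecidableEq I] in
lemma zr_add (q : ℝ) (z w : I × I → ℤ) : zr q (z + w) = zr q z + zr q w := by
  ext e; simp [zr]; ring

omit [DecidableEq I] in
lemma zr_bt [Nonempty I] (q : ℝ) (b a : I → Bool) : zr q (bt b a) = q • tens (uv b) (uv a) := by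
  have hM : (0 : ℝ) < Fintype.card I := by exact_mod_cast Fintype.card_pos
  ext e
  simp only [zr, bt, tens, uv, PiLp.smul_apply, smul_eq_mul]
  push_cast
  rw [div_mul_div_comm, Real.mul_self_sqrt hM.le]; ring

/-- Leaves. -/
def leaf (x : Pt I) : ((I → Bool) × (I × I → ℤ)) × Bool :=
  if x.2 then ((x.1.1, x.1.2.2 - bt x.1.2.1 x.1.1), true) else ((x.1.2.1, x.1.2.2), false)

/-- Moving coordinate in a leaf. -/
def co (x : Pt I) : I → Bool := if x.2 then x.1.2.1 else x.1.1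

/-- Fine distance in a leaf. -/
noncomputable def om (p q : ℝ) (x y : Pt I) : ℝ :=
  min (√(Fintype.card I : ℝ) / 4 * ‖uv (co x) - uv (co y)‖ ^ 2)
    ((if x.2 then 2 * q else 2 * p) * ‖uv (co x) - uv (co y)‖)

/-- Coarse distance. -/
noncomputable def rh (p q : ℝ) (x y : Pt I) : ℝ :=
  p * ‖uv x.1.1 - uv y.1.1‖ + q * ‖uv x.1.2.1 - uv y.1.2.1‖ +
    NN p (zr q x.1.2.2 - zr q y.1.2.2)

/-- The distance. -/
noncomputable def dd (p q : ℝ) : Pt I → Pt I → ℝ := gd leaf (om p q) (rh p q)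

lemma theta_sub {α c u v w : ℝ} (hα : 0 ≤ α) (hc : 0 ≤ c) (hu : 0 ≤ u) (hv : 0 ≤ v) (hw : 0 ≤ w)
    (h1 : w ^ 2 ≤ u ^ 2 + v ^ 2) (h2 : w ≤ u + v) :
    min (α * w ^ 2) (c * w) ≤ min (α * u ^ 2) (c * u) + min (α * v ^ 2) (c * v) := by
  have mixed : ∀ u v : ℝ, 0 ≤ u → 0 ≤ v → w ^ 2 ≤ u ^ 2 + v ^ 2 → c * v ≤ α * v ^ 2 →
      min (α * w ^ 2) (c * w) ≤ α * u ^ 2 + c * v := by
    intro u v hu hv h1 h3
    rcases eq_or_lt_of_le hv with h0 | h0
    · subst h0
      refine (min_le_left _ _).trans ?_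
      nlinarith
    · refine (min_le_right _ _).trans ?_
      have h4 : c ≤ α * v := by nlinarith
      by_contra hcon
      push Not at hcon
      have h5 : 0 ≤ α * u ^ 2 := by positivity
      have h6 : v < w := by
        by_contra h7
        push Not at h7
        nlinarith
      have h7 : α * u ^ 2 * (w + v) < c * (w - v) * (w + v) := by
        apply mul_lt_mul_of_pos_right _ (by linarith); linarith
      have h8 : c * (w ^ 2 - v ^ 2) ≤ c * u ^ 2 := by gcongr; linarith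
      have h9 : c * u ^ 2 ≤ α * v * u ^ 2 := by gcongr
      nlinarith
  rcases le_total (α * u ^ 2) (c * u) with a1 | a1 <;>
    rcases le_total (α * v ^ 2) (c * v) with a2 | a2
  · rw [min_eq_left a1, min_eq_left a2]
    refine (min_le_left _ _).trans ?_
    nlinarith
  · rw [min_eq_left a1, min_eq_right a2]
    exact mixed u v hu hv h1 a2
  · rw [min_eq_right a1, min_eq_left a2, add_comm]
    exact mixed v u hv hu (by linarith) a1
  · rw [min_eq_right a1, min_eq_right a2]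
    refine (min_le_right _ _).trans ?_
    nlinarith

omit [Fintype I] [DecidableEq I] in
lemma leaf_layer {x y : Pt I} (h : leaf x = leaf y) : x.2 = y.2 := by
  unfold leaf at h
  cases hx : x.2 <;> cases hy : y.2 <;> simp_all

omit [Fintype I] [DecidableEq I] in
lemma leaf_A {x y : Pt I} (hx : x.2 = false) (h : leaf x = leaf y) :
    x.1.2.1 = y.1.2.1 ∧ x.1.2.2 = y.1.2.2 := by
  have hy : y.2 = false := (leaf_layer h) ▸ hx
  unfold leaf at h
  have h2 : x.1.2 = y.1.2 := by simpa [hx, hy] using h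
  rw [h2]; exact ⟨rfl, rfl⟩

omit [Fintype I] [DecidableEq I] in
lemma leaf_B {x y : Pt I} (hx : x.2 = true) (h : leaf x = leaf y) :
    x.1.1 = y.1.1 ∧ x.1.2.2 - bt x.1.2.1 x.1.1 = y.1.2.2 - bt y.1.2.1 y.1.1 := by
  have hy : y.2 = true := (leaf_layer h) ▸ hx
  unfold leaf at h
  simpa [hx, hy] using h

variable [Nonempty I] {p q : ℝ}

omit [DecidableEq I] in
lemma uv_sep {a a' : I → Bool} (h : a ≠ a') :
    ‖uv a - uv a'‖ / 2 ≤ √(Fintype.card I : ℝ) / 4 * ‖uv a - uv a'‖ ^ 2 := by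
  have hM : (0 : ℝ) < Fintype.card I := by exact_mod_cast Fintype.card_pos
  have h1 : (1 : ℝ) ≤ hammingDist a a' := by exact_mod_cast hammingDist_pos.2 h
  have h2 := uv_dist a a'
  have hm := Real.sqrt_pos.2 hM
  have hmm := Real.sq_sqrt hM.le
  set m := √(Fintype.card I : ℝ)
  set t := ‖uv a - uv a'‖
  have ht : 0 ≤ t := norm_nonneg _
  have h3 : 2 ^ 2 ≤ (m * t) ^ 2 := by
    rw [mul_pow, hmm, h2]; field_simp; linarith
  have h4 : 2 ≤ m * t := (abs_le_of_sq_le_sq' h3 (by positivity)).2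
  nlinarith

omit [DecidableEq I] [Nonempty I] in
lemma rh_A (hp : 0 ≤ p) {x y : Pt I} (hx : x.2 = false) (h : leaf x = leaf y) :
    rh p q x y = p * ‖uv x.1.1 - uv y.1.1‖ := by
  obtain ⟨h1, h2⟩ := leaf_A hx h
  have h0 : NN p (0 : EuclideanSpace ℝ (I × I)) = 0 := by
    refine le_antisymm (by simpa using NN_up hp (0 : EuclideanSpace ℝ (I × I))) ?_
    simpa using le_NN (zero_TT hp) (0 : EuclideanSpace ℝ (I × I))
  unfold rh
  rw [h1, h2]; simp [h0]

omit [DecidableEq I] in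
lemma NN_bt (hp : 0 ≤ p) (hq : 0 ≤ q) (a b a' b' : I → Bool) :
    NN p (zr q (bt b a) - zr q (bt b' a')) ≤ q * ‖uv b - uv b'‖ + q * ‖uv a - uv a'‖ := by
  have e : zr q (bt b a) - zr q (bt b' a') =
      tens (q • (uv b - uv b')) (uv a) + tens (q • uv b') (uv a - uv a') := by
    rw [zr_bt, zr_bt, tens_smul_left, tens_smul_left, tens_sub_left, tens_sub_right]
    simp only [smul_sub]; abel
  rw [e]
  refine (NN_add hp _ _).trans (add_le_add ((NN_tens hp _ _).trans ?_) ((NN_tens hp _ _).trans ?_))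
  · rw [norm_smul, norm_uv, Real.norm_eq_abs, abs_of_nonneg hq, mul_one]
  · rw [norm_smul, norm_uv, Real.norm_eq_abs, abs_of_nonneg hq, mul_one]

omit [DecidableEq I] in
lemma rh_B (hp : 0 ≤ p) (hq : 0 ≤ q) {x y : Pt I} (hx : x.2 = true) (h : leaf x = leaf y) :
    rh p q x y ≤ 2 * q * ‖uv x.1.2.1 - uv y.1.2.1‖ := by
  obtain ⟨h1, h2⟩ := leaf_B hx h
  have e : zr q x.1.2.2 - zr q y.1.2.2 = zr q (bt x.1.2.1 x.1.1) - zr q (bt y.1.2.1 y.1.1) := by
    rw [← zr_sub, ← zr_sub]; congr 1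
    rw [sub_eq_sub_iff_sub_eq_sub] at h2; exact h2
  have := NN_bt hp hq x.1.1 x.1.2.1 y.1.1 y.1.2.1
  unfold rh
  rw [e]
  rw [h1] at this ⊢
  simp only [sub_self, norm_zero, mul_zero] at this ⊢
  linarith

omit [DecidableEq I] in
lemma glue_ok (hp : 1 ≤ p) (hpq : p ≤ q) (hm : 4 * q ^ 2 ≤ √(Fintype.card I : ℝ)) :
    GlueHyp (leaf (I := I)) (om p q) (rh p q) := by
  have hp0 : 0 ≤ p := by linarith
  have hq0 : 0 ≤ q := by linarith
  have hM : (0 : ℝ) < Fintype.card I := by exact_mod_cast Fintype.card_pos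
  have hm0 := Real.sqrt_pos.2 hM
  have hc : ∀ t : Bool, 0 < (if t then 2 * q else 2 * p) := fun t => by
    cases t <;> simp <;> linarith
  refine ⟨fun x => by simp [om], fun x y => ?_, fun x y h => ?_, fun x y z h1 h2 => ?_,
    fun x y h h0 => ?_, fun x y => ?_, fun x y => ?_, fun x y z => ?_, fun x y h => ?_⟩
  · have := hc x.2
    exact le_min (by positivity) (by positivity)
  · unfold om; rw [leaf_layer h, norm_sub_rev]
  · unfold om
    rw [← leaf_layer h1]
    refine theta_sub (by positivity) (hc _).le (norm_nonneg _) (norm_nonneg _) (norm_nonneg _)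
      ?_ (norm_sub_le_norm_sub_add_norm_sub _ _ _)
    rw [uv_dist, uv_dist, uv_dist, ← add_div, ← mul_add]
    gcongr
    exact_mod_cast hammingDist_triangle _ _ _
  · have hco : co x = co y := by
      by_contra hne
      have h1 := uv_sep hne
      have h2 : 0 < ‖uv (co x) - uv (co y)‖ := by
        have h3 : (1 : ℝ) ≤ hammingDist (co x) (co y) := by exact_mod_cast hammingDist_pos.2 hne
        have h4 := uv_dist (co x) (co y)
        rcases eq_or_lt_of_le (norm_nonneg (uv (co x) - uv (co y))) with h5 | h5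
        · rw [← h5] at h4
          have : 0 < 4 * (hammingDist (co x) (co y) : ℝ) / Fintype.card I := by positivity
          linarith
        · exact h5
      have : 0 < om p q x y := lt_min (by positivity) (mul_pos (hc _) h2)
      linarith
    have hl := leaf_layer h
    obtain ⟨⟨a, b, z⟩, c⟩ := x
    obtain ⟨⟨a', b', z'⟩, c'⟩ := y
    simp only at hl
    subst hl
    cases c
    · obtain ⟨h1, h2⟩ := leaf_A rfl h
      simp only [co] at hco h1 h2
      simp_all
    · obtain ⟨h1, h2⟩ := leaf_B rfl h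
      simp only [co] at hco h1 h2
      simp_all
  · have := (norm_nonneg _).trans (NN_lo hp (zr q x.1.2.2 - zr q y.1.2.2))
    unfold rh; positivity
  · unfold rh
    rw [norm_sub_rev (uv x.1.1), norm_sub_rev (uv x.1.2.1), ← NN_neg hp0, neg_sub]
  · unfold rh
    have a1 := norm_sub_le_norm_sub_add_norm_sub (uv x.1.1) (uv y.1.1) (uv z.1.1)
    have a2 := norm_sub_le_norm_sub_add_norm_sub (uv x.1.2.1) (uv y.1.2.1) (uv z.1.2.1)
    have a3 := NN_add hp0 (zr q x.1.2.2 - zr q y.1.2.2) (zr q y.1.2.2 - zr q z.1.2.2)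
    rw [sub_add_sub_cancel] at a3
    nlinarith
  · have key : ∀ c t : ℝ, 0 ≤ c → c ≤ 2 * q → 0 ≤ t →
        c * t ≤ min (√(Fintype.card I : ℝ) / 4 * t ^ 2) (c * t) + 1 := by
      intro c t h1 h2 h3
      rw [← min_add_add_right]
      refine le_min ?_ (by linarith)
      have : q ^ 2 * t ^ 2 ≤ √(Fintype.card I : ℝ) / 4 * t ^ 2 := by gcongr; linarith
      have : c * t ≤ 2 * q * t := by gcongr
      nlinarith [sq_nonneg (q * t - 1)]
    cases hx : x.2
    · have hy : y.2 = false := (leaf_layer h) ▸ hx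
      rw [rh_A hp0 hx h]
      have := key (2 * p) ‖uv x.1.1 - uv y.1.1‖ (by linarith) (by linarith) (norm_nonneg _)
      have h2 : 0 ≤ p * ‖uv x.1.1 - uv y.1.1‖ := by positivity
      simp only [om, co, hx, hy, Bool.false_eq_true, if_false]
      linarith
    · have hy : y.2 = true := (leaf_layer h) ▸ hx
      refine (rh_B hp0 hq0 hx h).trans ?_
      have := key (2 * q) ‖uv x.1.2.1 - uv y.1.2.1‖ (by linarith) (by linarith) (norm_nonneg _)
      simp only [om, co, hx, hy, if_true]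
      linarith

omit [DecidableEq I] in
lemma same_leaf_est (hG : GlueHyp (leaf (I := I)) (om p q) (rh p q)) {x y : Pt I}
    (h : leaf x = leaf y) {c : ℝ} (hc : 1 ≤ c) (hc2 : (if x.2 then 2 * q else 2 * p) = 2 * c)
    (hr : c * ‖uv (co x) - uv (co y)‖ ≤ rh p q x y) :
    dd p q x y ≤ 2 * (c * ‖uv (co x) - uv (co y)‖) ∧
      c * ‖uv (co x) - uv (co y)‖ ≤ 2 * c * dd p q x y := by
  have ht := norm_nonneg (uv (co x) - uv (co y))
  constructor
  · refine (gd_le_w h).trans ((min_le_right _ _).trans ?_)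
    rw [hc2]; linarith
  · rcases gd_cases (leaf := leaf) (ω := om p q) (ρ := rh p q) x y with ⟨_, h2⟩ | h2
    · unfold dd; rw [h2]
      by_cases hco : co x = co y
      · have := hG.wn x y
        rw [hco, sub_self, norm_zero, mul_zero]; positivity
      · have h3 := uv_sep hco
        have : ‖uv (co x) - uv (co y)‖ / 2 ≤ om p q x y := by
          refine le_min h3 ?_
          rw [hc2]; nlinarith
        nlinarith
    · unfold dd; rw [h2]
      have := del_lo hG x y
      have := hG.rn x y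
      nlinarith

omit [DecidableEq I] [Nonempty I] in
lemma diff_leaf_est (hG : GlueHyp (leaf (I := I)) (om p q) (rh p q)) {x y : Pt I}
    (h : leaf x ≠ leaf y) : rh p q x y + 2 ≤ dd p q x y := by
  unfold dd gd; rw [if_neg h]; exact del_lo hG x y

lemma four_sq {g a b c e : ℝ} (hg : 0 ≤ g) (ha : 0 ≤ a) (hb : 0 ≤ b) (hc : 0 ≤ c) (he : 0 ≤ e)
    (h : g ^ 2 = a ^ 2 + (b ^ 2 + (c ^ 2 + e ^ 2))) :
    a ≤ g ∧ b ≤ g ∧ c ≤ g ∧ e ≤ g ∧ g ≤ a + b + c + e := by
  refine ⟨(abs_le_of_sq_le_sq' ?_ hg).2, (abs_le_of_sq_le_sq' ?_ hg).2,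
    (abs_le_of_sq_le_sq' ?_ hg).2, (abs_le_of_sq_le_sq' ?_ hg).2,
    (abs_le_of_sq_le_sq' ?_ (by positivity)).2⟩
  · nlinarith
  · nlinarith
  · nlinarith
  · nlinarith
  · have := mul_nonneg ha hb; have := mul_nonneg ha hc; have := mul_nonneg ha he
    have := mul_nonneg hb hc; have := mul_nonneg hb he; have := mul_nonneg hc he
    nlinarith

omit [DecidableEq I] in
lemma embA (hp : 1 ≤ p) (hpq : p ≤ q) (hG : GlueHyp (leaf (I := I)) (om p q) (rh p q))
    {x y : Pt I} (hx : x.2 = false) (hy : y.2 = false) {e g : ℝ} (hg : 0 ≤ g) (he : 0 ≤ e)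
    (he0 : leaf x = leaf y → e = 0) (he1 : leaf x ≠ leaf y → 1 ≤ e) (he2 : e ≤ 2)
    (h : g ^ 2 = (p * ‖uv x.1.1 - uv y.1.1‖) ^ 2 + ((q * ‖uv x.1.2.1 - uv y.1.2.1‖) ^ 2 +
      ((p * ‖zr q x.1.2.2 - zr q y.1.2.2‖) ^ 2 + e ^ 2))) :
    dd p q x y ≤ 9 * g ∧ g ≤ 3 * p * dd p q x y := by
  have hp0 : 0 ≤ p := by linarith
  have hq0 : 0 ≤ q := by linarith
  obtain ⟨a1, a2, a3, a4, a5⟩ := four_sq hg (by positivity) (by positivity) (by positivity) he h
  have hd := gd_nonneg hG x y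
  by_cases hl : leaf x = leaf y
  · obtain ⟨h1, h2⟩ := leaf_A hx hl
    have := same_leaf_est hG hl hp (by simp [hx]) (by simp [co, hx, hy, rh_A hp0 hx hl])
    simp only [co, hx, hy, Bool.false_eq_true, if_false] at this
    rw [h1, h2, he0 hl] at a5
    simp only [sub_self, norm_zero, mul_zero, add_zero] at a5
    have : 0 ≤ p * dd p q x y := mul_nonneg hp0 hd
    constructor <;> linarith [this]
  · have b1 := diff_leaf_est hG hl
    have b2 : dd p q x y ≤ rh p q x y + 4 := gd_up hG x y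
    have b3 := he1 hl
    have b4 := NN_up hp0 (zr q x.1.2.2 - zr q y.1.2.2)
    have b5 := NN_lo hp (zr q x.1.2.2 - zr q y.1.2.2)
    unfold rh at b1 b2
    constructor
    · linarith
    · have c1 : 0 ≤ p * ‖uv x.1.1 - uv y.1.1‖ := by positivity
      have c2 : 0 ≤ q * ‖uv x.1.2.1 - uv y.1.2.1‖ := by positivity
      have c3 := norm_nonneg (zr q x.1.2.2 - zr q y.1.2.2)
      have c4 : p * ‖zr q x.1.2.2 - zr q y.1.2.2‖ ≤ p * dd p q x y := by gcongr; linarith
      have c5 : dd p q x y ≤ p * dd p q x y := le_mul_of_one_le_left hd hp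
      linarith

omit [DecidableEq I] in
lemma embB (hp : 1 ≤ p) (hpq : p ≤ q) (hG : GlueHyp (leaf (I := I)) (om p q) (rh p q))
    {x y : Pt I} (hx : x.2 = true) (hy : y.2 = true) {e g : ℝ} (hg : 0 ≤ g) (he : 0 ≤ e)
    (he0 : leaf x = leaf y → e = 0) (he1 : leaf x ≠ leaf y → 1 ≤ e) (he2 : e ≤ 2)
    (h : g ^ 2 = (q * ‖uv x.1.1 - uv y.1.1‖) ^ 2 + ((q * ‖uv x.1.2.1 - uv y.1.2.1‖) ^ 2 +
      ((p * ‖zr q (x.1.2.2 - bt x.1.2.1 x.1.1) - zr q (y.1.2.2 - bt y.1.2.1 y.1.1)‖) ^ 2 +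
        e ^ 2))) :
    dd p q x y ≤ 9 * g ∧ g ≤ 3 * q * dd p q x y := by
  have hp0 : 0 ≤ p := by linarith
  have hq0 : 0 ≤ q := by linarith
  have hq : 1 ≤ q := by linarith
  obtain ⟨a1, a2, a3, a4, a5⟩ := four_sq hg (by positivity) (by positivity) (by positivity) he h
  have hd := gd_nonneg hG x y
  have b5 := NN_lo hp (zr q x.1.2.2 - zr q y.1.2.2)
  have c1 : 0 ≤ p * ‖uv x.1.1 - uv y.1.1‖ := by positivity
  have c2 : 0 ≤ q * ‖uv x.1.2.1 - uv y.1.2.1‖ := by positivity
  have c3 := norm_nonneg (zr q x.1.2.2 - zr q y.1.2.2)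
  by_cases hl : leaf x = leaf y
  · obtain ⟨h1, h2⟩ := leaf_B hx hl
    have := same_leaf_est hG hl hq (by simp [hx]) (by
      simp only [co, hx, hy, if_true, rh]; linarith)
    simp only [co, hx, hy, if_true] at this
    rw [h2, h1, he0 hl] at a5
    simp only [sub_self, norm_zero, mul_zero, add_zero, zero_add] at a5
    have : 0 ≤ q * dd p q x y := mul_nonneg hq0 hd
    constructor <;> linarith [this]
  · have b1 := diff_leaf_est hG hl
    have b2 : dd p q x y ≤ rh p q x y + 4 := gd_up hG x y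
    have b3 := he1 hl
    set Z := zr q x.1.2.2 - zr q y.1.2.2 with hZ
    set W := zr q (bt x.1.2.1 x.1.1) - zr q (bt y.1.2.1 y.1.1) with hW
    have eY : zr q (x.1.2.2 - bt x.1.2.1 x.1.1) - zr q (y.1.2.2 - bt y.1.2.1 y.1.1) = Z - W := by
      rw [zr_sub, zr_sub, hZ, hW]; abel
    rw [eY] at a3 a5
    have b6 : NN p W ≤ _ := NN_bt hp0 hq0 x.1.1 x.1.2.1 y.1.1 y.1.2.1
    have b7 := NN_lo hp W
    have b8 := NN_add hp0 (Z - W) W
    rw [sub_add_cancel] at b8
    have b4 := NN_up hp0 (Z - W)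
    have b9 : ‖Z - W‖ ≤ ‖Z‖ + ‖W‖ := norm_sub_le _ _
    unfold rh at b1 b2
    rw [← hZ] at b1 b2
    set ta := ‖uv x.1.1 - uv y.1.1‖
    set tb := ‖uv x.1.2.1 - uv y.1.2.1‖
    have hta : 0 ≤ ta := norm_nonneg _
    have htb : 0 ≤ tb := norm_nonneg _
    have d0 : p * ta ≤ q * ta := by gcongr
    constructor
    · linarith
    · have d1 : ta ≤ p * ta := le_mul_of_one_le_left hta hp
      have d2 : q * ta ≤ q * dd p q x y := by gcongr; linarith
      have d3 : p * ‖Z - W‖ ≤ p * (NN p Z + q * tb + q * ta) := by gcongr; linarith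
      have d4 : p * (NN p Z + q * tb) ≤ q * (NN p Z + q * tb) := by gcongr; linarith
      have d5 : q * (p * ta + q * tb + NN p Z) ≤ q * dd p q x y := by gcongr; linarith
      have d6 : dd p q x y ≤ q * dd p q x y := le_mul_of_one_le_left hd hq
      nlinarith

end H93Un
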