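import Pool.Agent.H93.Un3

namespace H93Un
open Finset
open scoped RealInnerProductSpace

variable {r : ℕ}

/-- Index set of the cubes. -/
abbrev II (r : ℕ) := Fin r → Bool

/-- Walsh generator. -/
def chi (r : ℕ) (t : ℕ) : II r → Bool := fun x => if h : t < r then x ⟨t, h⟩ else false

/-- Pointwise product with a sign pattern. -/
def mulc {I : Type} (a c : I → Bool) : I → Bool := fun x => xor (a x) (c x)

lemma mulc_mulc {I : Type} (a c : I → Bool) : mulc (mulc a c) c = a := by
  funext x; simp [mulc]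

/-- The moves. -/
def tau (r : ℕ) (t : ℕ) (s : St (II r)) : St (II r) :=
  if t % 2 = 0 then (mulc s.1 (chi r t), s.2.1, s.2.2)
  else (s.1, mulc s.2.1 (chi r t), s.2.2 + (bt (mulc s.2.1 (chi r t)) s.1 - bt s.2.1 s.1))

lemma tau_inv (t : ℕ) : Function.Involutive (tau r t) := by
  rintro ⟨a, b, z⟩
  by_cases h : t % 2 = 0
  · simp [tau, h, mulc_mulc]
  · simp only [tau, h, if_false, mulc_mulc]
    congr 2; abel

/-- Flip one coordinate of the index. -/
def sig (i : Fin r) (x : II r) : II r := Function.update x i (!x i)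

lemma sig_inv (i : Fin r) : Function.Involutive (sig i) := fun x => by
  funext k; by_cases h : k = i
  · subst h; simp [sig]
  · simp [sig, h]

lemma chi_sig (i : Fin r) (t : ℕ) (x : II r) :
    chi r t (sig i x) = xor (chi r t x) (decide (t = i)) := by
  unfold chi sig
  by_cases h : t < r
  · simp only [h, dif_pos]
    by_cases h2 : t = i
    · have : (⟨t, h⟩ : Fin r) = i := Fin.ext h2
      simp [h2]
    · have : (⟨t, h⟩ : Fin r) ≠ i := fun e => h2 (by rw [← e])
      simp [this, h2]
  · have : t ≠ i := fun e => h (e ▸ i.2)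
    simp [h, this]

lemma walk_a (G : Finset ℕ) (s : St (II r)) (i : Fin r) (x : II r) (n : ℕ) :
    xor ((walk (tau r) G n s).1 (sig i x)) (s.1 (sig i x)) =
      xor (xor ((walk (tau r) G n s).1 x) (s.1 x))
        (decide ((i : ℕ) < n ∧ (i : ℕ) ∈ G ∧ (i : ℕ) % 2 = 0)) := by
  induction n with
  | zero => simp [walk]
  | succ n ih =>
    by_cases hG : n ∈ G
    · by_cases h2 : n % 2 = 0
      · simp only [walk, hG, if_true, tau, h2, mulc, chi_sig]
        by_cases e : n = i
        · subst e
          simp only [lt_self_iff_false, false_and, decide_false, Bool.xor_false] at ih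
          simp only [hG, h2, lt_add_one, and_self, decide_true]
          revert ih
          cases (walk (tau r) G i s).1 (sig i x) <;> cases s.1 (sig i x) <;>
            cases (walk (tau r) G i s).1 x <;> cases s.1 x <;> cases chi r i x <;> simp
        · have : ((i : ℕ) < n + 1) = ((i : ℕ) < n) := by apply propext; omega
          simp only [this, e, decide_false, Bool.xor_false]
          revert ih
          generalize decide ((i : ℕ) < n ∧ (i : ℕ) ∈ G ∧ (i : ℕ) % 2 = 0) = fl
          cases fl <;> cases (walk (tau r) G n s).1 (sig i x) <;> cases s.1 (sig i x) <;>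
            cases (walk (tau r) G n s).1 x <;> cases s.1 x <;> cases chi r n x <;> simp
      · have : ((i : ℕ) < n + 1 ∧ (i : ℕ) ∈ G ∧ (i : ℕ) % 2 = 0) =
            ((i : ℕ) < n ∧ (i : ℕ) ∈ G ∧ (i : ℕ) % 2 = 0) := by
          apply propext; constructor
          · rintro ⟨a, b, c⟩; exact ⟨by omega, b, c⟩
          · rintro ⟨a, b, c⟩; exact ⟨by omega, b, c⟩
        simp only [walk, hG, if_true, tau, h2, if_false, this, ih]
    · have : ((i : ℕ) < n + 1 ∧ (i : ℕ) ∈ G ∧ (i : ℕ) % 2 = 0) =
          ((i : ℕ) < n ∧ (i : ℕ) ∈ G ∧ (i : ℕ) % 2 = 0) := by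
        apply propext; constructor
        · rintro ⟨a, b, c⟩
          refine ⟨?_, b, c⟩
          by_contra hcon
          have : (i : ℕ) = n := by omega
          exact hG (this ▸ b)
        · rintro ⟨a, b, c⟩; exact ⟨by omega, b, c⟩
      simp only [walk, hG, if_false, this, ih]

lemma walk_b (G : Finset ℕ) (s : St (II r)) (i : Fin r) (x : II r) (n : ℕ) :
    xor ((walk (tau r) G n s).2.1 (sig i x)) (s.2.1 (sig i x)) =
      xor (xor ((walk (tau r) G n s).2.1 x) (s.2.1 x))
        (decide ((i : ℕ) < n ∧ (i : ℕ) ∈ G ∧ (i : ℕ) % 2 ≠ 0)) := by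
  induction n with
  | zero => simp [walk]
  | succ n ih =>
    by_cases hG : n ∈ G
    · by_cases h2 : n % 2 = 0
      · have : ((i : ℕ) < n + 1 ∧ (i : ℕ) ∈ G ∧ (i : ℕ) % 2 ≠ 0) =
            ((i : ℕ) < n ∧ (i : ℕ) ∈ G ∧ (i : ℕ) % 2 ≠ 0) := by
          apply propext; constructor
          · rintro ⟨a, b, c⟩; exact ⟨by omega, b, c⟩
          · rintro ⟨a, b, c⟩; exact ⟨by omega, b, c⟩
        simp only [walk, hG, if_true, tau, h2, this, ih]
      · simp only [walk, hG, if_true, tau, h2, if_false, mulc, chi_sig]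
        by_cases e : n = i
        · subst e
          simp only [lt_self_iff_false, false_and, decide_false, Bool.xor_false] at ih
          simp only [hG, ne_eq, h2, not_false_eq_true, lt_add_one, and_self, decide_true]
          revert ih
          cases (walk (tau r) G i s).2.1 (sig i x) <;> cases s.2.1 (sig i x) <;>
            cases (walk (tau r) G i s).2.1 x <;> cases s.2.1 x <;> cases chi r i x <;> simp
        · have : ((i : ℕ) < n + 1) = ((i : ℕ) < n) := by apply propext; omega
          simp only [this, e, decide_false, Bool.xor_false]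
          revert ih
          generalize decide ((i : ℕ) < n ∧ (i : ℕ) ∈ G ∧ (i : ℕ) % 2 ≠ 0) = fl
          cases fl <;> cases (walk (tau r) G n s).2.1 (sig i x) <;> cases s.2.1 (sig i x) <;>
            cases (walk (tau r) G n s).2.1 x <;> cases s.2.1 x <;> cases chi r n x <;> simp
    · have : ((i : ℕ) < n + 1 ∧ (i : ℕ) ∈ G ∧ (i : ℕ) % 2 ≠ 0) =
          ((i : ℕ) < n ∧ (i : ℕ) ∈ G ∧ (i : ℕ) % 2 ≠ 0) := by
        apply propext; constructor
        · rintro ⟨a, b, c⟩
          refine ⟨?_, b, c⟩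
          by_contra hcon
          have : (i : ℕ) = n := by omega
          exact hG (this ▸ b)
        · rintro ⟨a, b, c⟩; exact ⟨by omega, b, c⟩
      simp only [walk, hG, if_false, this, ih]

lemma orth_of_flags (i : Fin r) {u v o : II r → Bool} {P Q : Prop} [Decidable P] [Decidable Q]
    (hu : ∀ x, xor (u (sig i x)) (o (sig i x)) = xor (xor (u x) (o x)) (decide P))
    (hv : ∀ x, xor (v (sig i x)) (o (sig i x)) = xor (xor (v x) (o x)) (decide Q))
    (hP : P) (hQ : ¬ Q) : ⟪uv u, uv v⟫ = 0 := by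
  have key : ∀ x, (sg (u (sig i x)) : ℝ) * sg (v (sig i x)) = -((sg (u x) : ℝ) * sg (v x)) := by
    intro x
    have h1 := hu x
    have h2 := hv x
    simp only [hP, hQ, decide_true, decide_false] at h1 h2
    revert h1 h2
    cases u (sig i x) <;> cases v (sig i x) <;> cases o (sig i x) <;> cases u x <;> cases v x <;>
      cases o x <;> simp [sg]
  have h1 : ∑ x, (sg (u x) : ℝ) * sg (v x) = 0 := by
    have h2 := Equiv.sum_comp (sig_inv i).toPerm (fun x => (sg (u x) : ℝ) * sg (v x))
    simp only [Function.Involutive.coe_toPerm, key, sum_neg_distrib] at h2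
    linarith
  simp only [uv, PiLp.inner_apply, RCLike.inner_apply, conj_trivial, div_mul_div_comm]
  rw [← sum_div]
  simp only [mul_comm (sg (v _) : ℝ), h1, zero_div]

lemma orth_a (G : Finset ℕ) (s : St (II r)) {i n k : ℕ} (hi : i < r) (hG : i ∈ G) (h2 : i % 2 = 0)
    (hn : i < n) (hk : k ≤ i) :
    ⟪uv (walk (tau r) G n s).1, uv (walk (tau r) G k s).1⟫ = 0 :=
  orth_of_flags ⟨i, hi⟩ (fun x => walk_a G s ⟨i, hi⟩ x n) (fun x => walk_a G s ⟨i, hi⟩ x k)
    ⟨hn, hG, h2⟩ (fun h => by have := h.1; simp only at this; omega)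

lemma orth_b (G : Finset ℕ) (s : St (II r)) {i n k : ℕ} (hi : i < r) (hG : i ∈ G) (h2 : i % 2 ≠ 0)
    (hn : i < n) (hk : k ≤ i) :
    ⟪uv (walk (tau r) G n s).2.1, uv (walk (tau r) G k s).2.1⟫ = 0 :=
  orth_of_flags ⟨i, hi⟩ (fun x => walk_b G s ⟨i, hi⟩ x n) (fun x => walk_b G s ⟨i, hi⟩ x k)
    ⟨hn, hG, h2⟩ (fun h => by have := h.1; simp only at this; omega)

lemma walk_z (q : ℝ) (G : Finset ℕ) (s : St (II r)) (n : ℕ) :
    zr q s.2.2 - zr q (walk (tau r) G n s).2.2 = ∑ t ∈ range n, q •
      tens (uv (walk (tau r) G t s).2.1 - uv (walk (tau r) G (t + 1) s).2.1)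
        (uv (walk (tau r) G t s).1) := by
  induction n with
  | zero => simp [walk]
  | succ n ih =>
    rw [sum_range_succ, ← ih, tens_sub_left, smul_sub, ← zr_bt, ← zr_bt]
    by_cases hG : n ∈ G
    · by_cases h2 : n % 2 = 0
      · simp only [walk, hG, if_true, tau, h2]; abel
      · simp only [walk, hG, if_true, tau, h2, if_false, zr_add, zr_sub]; abel
    · simp only [walk, hG, if_false]; abel

lemma bt_abs {I : Type} (b a : I → Bool) (e : I × I) : |bt b a e| = 1 := by
  unfold bt sg; cases b e.1 <;> cases a e.2 <;> simp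

lemma tau_entry (t : ℕ) (s : St (II r)) (e : II r × II r) : |(tau r t s).2.2 e - s.2.2 e| ≤ 2 := by
  unfold tau; split_ifs
  · simp
  · simp only [Pi.add_apply, Pi.sub_apply, add_sub_cancel_left]
    have h1 := bt_abs (mulc s.2.1 (chi r t)) s.1 e
    have h2 := bt_abs s.2.1 s.1 e
    have := abs_sub (bt (mulc s.2.1 (chi r t)) s.1 e) (bt s.2.1 s.1 e)
    omega

lemma walk_entry (G : Finset ℕ) (s : St (II r)) (e : II r × II r) (n : ℕ) :
    |(walk (tau r) G n s).2.2 e - s.2.2 e| ≤ 2 * n := by
  induction n with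
  | zero => simp [walk]
  | succ n ih =>
    by_cases hG : n ∈ G
    · simp only [walk, hG, if_true]
      have := tau_entry n (walk (tau r) G n s) e
      rw [abs_le] at *; push_cast; omega
    · simp only [walk, hG, if_false]; push_cast; omega

/-- Good rounds. -/
def good (j : ℕ) (G : Finset ℕ) : Finset ℕ := (range j).filter fun k => 2 * k ∈ G ∧ 2 * k + 1 ∈ G

lemma NN_walk {p q : ℝ} (hp : 0 ≤ p) {j : ℕ} (hj : (j : ℝ) ≤ p ^ 2) (hr : 2 * j ≤ r)
    (G : Finset ℕ) (s : St (II r)) :
    q * (good j G).card ≤ NN p (zr q s.2.2 - zr q (walk (tau r) G (2 * j) s).2.2) := by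
  have hmem : ∀ k : good j G, (k : ℕ) < j ∧ 2 * (k : ℕ) ∈ G ∧ 2 * (k : ℕ) + 1 ∈ G := fun k => by
    have h := mem_filter.1 k.2
    exact ⟨mem_range.1 h.1, h.2⟩
  let u : good j G → EuclideanSpace ℝ (II r) := fun k => uv (walk (tau r) G (2 * k + 1) s).2.1
  let v : good j G → EuclideanSpace ℝ (II r) := fun k => uv (walk (tau r) G (2 * k + 1) s).1
  have hu : Orthonormal ℝ u := by
    refine ⟨fun k => norm_uv _, fun k l hkl => ?_⟩
    have hne : (k : ℕ) ≠ l := fun e => hkl (Subtype.ext e)
    obtain ⟨k1, k2, k3⟩ := hmem k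
    obtain ⟨l1, l2, l3⟩ := hmem l
    rcases lt_or_gt_of_ne hne with h | h
    · beta_reduce
      rw [real_inner_comm]
      exact orth_b G s (i := 2 * k + 1) (by omega) k3 (by omega) (by omega) le_rfl
    · exact orth_b G s (i := 2 * l + 1) (by omega) l3 (by omega) (by omega) le_rfl
  have hv : Orthonormal ℝ v := by
    refine ⟨fun k => norm_uv _, fun k l hkl => ?_⟩
    have hne : (k : ℕ) ≠ l := fun e => hkl (Subtype.ext e)
    obtain ⟨k1, k2, k3⟩ := hmem k
    obtain ⟨l1, l2, l3⟩ := hmem l
    rcases lt_or_gt_of_ne hne with h | h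
    · beta_reduce
      rw [real_inner_comm]
      exact orth_a G s (i := 2 * l) (by omega) l2 (by omega) (by omega) (by omega)
    · exact orth_a G s (i := 2 * k) (by omega) k2 (by omega) (by omega) (by omega)
  have hcard : (Fintype.card (good j G) : ℝ) ≤ p ^ 2 := by
    refine le_trans ?_ hj
    rw [Fintype.card_coe]
    exact_mod_cast (card_filter_le _ _).trans (card_range j).le
  refine le_trans (le_of_eq ?_) (le_NN (ortho_TT hu hv hp hcard) _)
  rw [inner_sum, ← Fintype.card_coe, ← card_univ, card_eq_sum_ones]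
  push_cast
  rw [mul_sum]
  refine sum_congr rfl fun k _ => ?_
  obtain ⟨k1, k2, k3⟩ := hmem k
  rw [walk_z, sum_inner, sum_eq_single (2 * (k : ℕ) + 1)]
  · rw [inner_smul_left, inner_tens, inner_sub_left, real_inner_self_eq_norm_sq,
      real_inner_self_eq_norm_sq, norm_uv, norm_uv,
      orth_b G s (i := 2 * k + 1) (by omega) k3 (by omega) (by omega) le_rfl]
    simp
  · intro t _ ht
    rw [inner_smul_left, inner_tens]
    rcases lt_or_gt_of_ne ht with h | h
    · rw [real_inner_comm (v k), orth_a G s (i := 2 * k) (by omega) k2 (by omega) (by omega)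
        (by omega)]
      simp
    · rw [inner_sub_left, orth_b G s (i := 2 * k + 1) (by omega) k3 (by omega) (by omega) le_rfl,
        orth_b G s (i := 2 * k + 1) (by omega) k3 (by omega) (by omega) le_rfl]
      simp
  · intro h; exact absurd (mem_range.2 (by omega)) h

lemma sum_good (j : ℕ) :
    ∑ G ∈ (range (2 * j)).powerset, ((good j G).card : ℝ) = 2 ^ (2 * j) * (j / 4) := by
  simp only [good, card_filter]
  push_cast
  rw [sum_comm]
  have : ∀ k ∈ range j, ∑ G ∈ (range (2 * j)).powerset,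
      (if 2 * k ∈ G ∧ 2 * k + 1 ∈ G then (1 : ℝ) else 0) = 2 ^ (2 * j) / 4 := by
    intro k hk
    have hk' := mem_range.1 hk
    have hsub : ({2 * k, 2 * k + 1} : Finset ℕ) ⊆ range (2 * j) := by
      intro x hx; simp only [mem_insert, mem_singleton] at hx; rw [mem_range]; omega
    have h1 := card_Icc_finset hsub
    rw [Icc_eq_filter_powerset, card_range, card_pair (by omega), card_filter] at h1
    have h2 : ∀ G : Finset ℕ, (({2 * k, 2 * k + 1} : Finset ℕ) ⊆ G) =
        (2 * k ∈ G ∧ 2 * k + 1 ∈ G) := fun G => by simp [insert_subset_iff]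
    simp only [h2] at h1
    have h3 := congrArg (Nat.cast : ℕ → ℝ) h1
    push_cast at h3
    rw [h3]
    obtain ⟨m, hm⟩ : ∃ m, 2 * j = m + 2 := ⟨2 * j - 2, by omega⟩
    rw [hm, Nat.add_sub_cancel, pow_add]; ring
  rw [sum_congr rfl this, sum_const, card_range, nsmul_eq_mul]; ring

end H93Un
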