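import Pool.Agent.H93.Un4

namespace H93Un
open Finset
open scoped RealInnerProductSpace

section box
variable {I : Type} [Fintype I] [DecidableEq I]

/-- Integer matrices with bounded entries. -/
noncomputable def Box (I : Type) [Fintype I] [DecidableEq I] (R : ℕ) : Finset (I × I → ℤ) :=
  Fintype.piFinset fun _ => Icc (-(R : ℤ)) R

/-- States with bounded matrix. -/
noncomputable def SS (I : Type) [Fintype I] [DecidableEq I] (R : ℕ) : Finset (St I) :=
  univ ×ˢ univ ×ˢ Box I R

/-- The finite space. -/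
noncomputable def XX (I : Type) [Fintype I] [DecidableEq I] (R : ℕ) : Finset (Pt I) :=
  SS I R ×ˢ univ

lemma mem_Box {R : ℕ} {z : I × I → ℤ} : z ∈ Box I R ↔ ∀ e, |z e| ≤ R := by
  simp [Box, abs_le]

lemma mem_SS {R : ℕ} {s : St I} : s ∈ SS I R ↔ ∀ e, |s.2.2 e| ≤ R := by
  simp [SS, mem_Box]

lemma mem_XX {R : ℕ} {x : Pt I} : x ∈ XX I R ↔ ∀ e, |x.1.2.2 e| ≤ R := by
  simp [XX, mem_SS]

lemma card_Box (R : ℕ) : ((Box I R).card : ℝ) = (2 * R + 1) ^ Fintype.card (I × I) := by
  rw [Box, Fintype.card_piFinset]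
  simp only [Int.card_Icc, prod_const, card_univ]
  have : ((R : ℤ) + 1 - -(R : ℤ)).toNat = 2 * R + 1 := by omega
  rw [this]; push_cast; rfl

lemma card_SS (R : ℕ) : ((SS I R).card : ℝ) =
    Fintype.card (I → Bool) * (Fintype.card (I → Bool) * (Box I R).card) := by
  simp [SS]

lemma ratio (N c : ℕ) : ∃ K : ℕ, (2 * ((K + c : ℕ) : ℝ) + 1) ^ N ≤ 2 * (2 * K + 1) ^ N := by
  refine ⟨2 * N * c, ?_⟩
  set A : ℝ := 2 * ((2 * N * c + c : ℕ) : ℝ) + 1 with hA
  have hA0 : 0 < A := by positivity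
  have hb := one_add_mul_le_pow (a := -(2 * c / A)) (by
    have : 2 * c / A ≤ 1 := by
      rw [div_le_one hA0, hA]; push_cast
      have : (0 : ℝ) ≤ N * c := by positivity
      linarith
    linarith) N
  have e : 2 * ((2 * N * c : ℕ) : ℝ) + 1 = (1 + -(2 * c / A)) * A := by
    field_simp; rw [hA]; push_cast; ring
  rw [e, mul_pow]
  have h2 : (N : ℝ) * (2 * c / A) ≤ 1 / 2 := by
    rw [← mul_div_assoc, div_le_iff₀ hA0, hA]; push_cast
    have : (0 : ℝ) ≤ c := by positivity
    nlinarith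
  have hp : 0 < A ^ N := by positivity
  nlinarith

lemma mulc_eq_flip (a c : I → Bool) : mulc a c = flipT (univ.filter fun x => c x = true) a := by
  funext x
  cases h : c x <;> simp [mulc, flipT, h]

lemma hd_flip (b : I → Bool) (x : I) : hammingDist b (flipT {x} b) ≤ 1 := by
  unfold hammingDist
  refine card_le_one.2 fun y hy z hz => ?_
  simp only [flipT, mem_singleton, mem_filter, mem_univ, true_and] at hy hz
  have h1 : y = x := by by_contra h; simp [h] at hy
  have h2 : z = x := by by_contra h; simp [h] at hz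
  rw [h1, h2]

variable {H : Type*} [NormedAddCommGroup H] [InnerProductSpace ℝ H] [Nonempty I]

lemma om_flip (p q : ℝ) {x y : Pt I} {i : I} (h : co y = flipT {i} (co x)) :
    om p q x y ≤ 1 / √(Fintype.card I : ℝ) := by
  have hM : (0 : ℝ) < Fintype.card I := by exact_mod_cast Fintype.card_pos
  have hm := Real.sqrt_pos.2 hM
  have hmm := Real.mul_self_sqrt hM.le
  refine (min_le_left _ _).trans ?_
  rw [uv_dist, h]
  have : (hammingDist (co x) (flipT {i} (co x)) : ℝ) ≤ 1 := by exact_mod_cast hd_flip _ _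
  calc _ ≤ √(Fintype.card I : ℝ) / 4 * (4 * 1 / Fintype.card I) := by gcongr
    _ = _ := by
      rw [eq_div_iff hm.ne']
      field_simp
      nlinarith

lemma enflo' (φ : (I → Bool) → H) {L : ℝ}
    (hl : ∀ b x, ‖φ b - φ (flipT {x} b)‖ ≤ L * (1 / √(Fintype.card I : ℝ))) (c : I → Bool) :
    ∑ b, ‖φ b - φ (mulc b c)‖ ^ 2 ≤ Fintype.card (I → Bool) * L ^ 2 := by
  have hM : (0 : ℝ) < Fintype.card I := by exact_mod_cast Fintype.card_pos
  simp only [mulc_eq_flip]
  refine (enflo φ hl _).trans ?_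
  have h1 : ((univ.filter fun x => c x = true).card : ℝ) ≤ Fintype.card I := by
    exact_mod_cast card_le_univ _
  calc _ ≤ (Fintype.card I : ℝ) * (Fintype.card (I → Bool) *
        (L * (1 / √(Fintype.card I : ℝ))) ^ 2) := by gcongr
    _ = _ := by rw [mul_pow, div_pow, Real.sq_sqrt hM.le]; field_simp

end box

variable {r : ℕ} {H : Type*} [NormedAddCommGroup H] [InnerProductSpace ℝ H] {p q L : ℝ}

lemma stepA {R : ℕ} {f : Pt (II r) → H} (hL : 0 ≤ L)
    (hf : ∀ x ∈ XX (II r) R, ∀ y ∈ XX (II r) R, ‖f x - f y‖ ≤ L * dd p q x y) {t : ℕ}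
    (ht : t % 2 = 0) :
    ∑ s ∈ SS (II r) R, ‖f (s, false) - f (tau r t s, false)‖ ^ 2 ≤ (SS (II r) R).card * L ^ 2 := by
  rw [SS, sum_product_right]
  have : ∀ w ∈ (univ ×ˢ Box (II r) R : Finset ((II r → Bool) × (II r × II r → ℤ))),
      ∑ a, ‖f ((a, w), false) - f (tau r t (a, w), false)‖ ^ 2 ≤
        Fintype.card (II r → Bool) * L ^ 2 := by
    intro w hw
    have hw' : ∀ a, (((a, w), false) : Pt (II r)) ∈ XX (II r) R := fun a => by
      rw [mem_XX]; exact mem_Box.1 (mem_product.1 hw).2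
    have := enflo' (fun a => f ((a, w), false)) (L := L) (fun b x => by
      refine (hf _ (hw' _) _ (hw' _)).trans ?_
      gcongr
      exact (gd_le_w (by simp [leaf])).trans (om_flip p q (i := x) (by simp [co]))) (chi r t)
    simpa only [tau, ht, if_true] using this
  refine (sum_le_card_nsmul _ _ _ this).trans (le_of_eq ?_)
  simp only [card_product, card_univ, nsmul_eq_mul]
  push_cast; ring

lemma stepB' {R : ℕ} {f : Pt (II r) → H} (hL : 0 ≤ L)
    (hf : ∀ x ∈ XX (II r) (R + 2), ∀ y ∈ XX (II r) (R + 2), ‖f x - f y‖ ≤ L * dd p q x y) {t : ℕ}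
    (ht : t % 2 ≠ 0) :
    ∑ s ∈ SS (II r) R, ‖f (s, true) - f (tau r t s, true)‖ ^ 2 ≤
      (SS (II r) (R + 1)).card * L ^ 2 := by
  let φ : (II r → Bool) → (II r × II r → ℤ) → (II r → Bool) → H := fun a y b =>
    f ((a, b, y + bt b a), true)
  have h1 : ∀ a b, ∑ z ∈ Box (II r) R, ‖f ((a, b, z), true) - f (tau r t (a, b, z), true)‖ ^ 2 ≤
      ∑ y ∈ Box (II r) (R + 1), ‖φ a y b - φ a y (mulc b (chi r t))‖ ^ 2 := by
    intro a b
    have e : ∑ z ∈ Box (II r) R, ‖f ((a, b, z), true) - f (tau r t (a, b, z), true)‖ ^ 2 =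
        ∑ y ∈ (Box (II r) R).image (fun z => z - bt b a),
          ‖φ a y b - φ a y (mulc b (chi r t))‖ ^ 2 := by
      rw [sum_image (fun x _ y _ h => sub_left_injective h)]
      refine sum_congr rfl fun z _ => ?_
      have e2 : z + (bt (mulc b (chi r t)) a - bt b a) = z - bt b a + bt (mulc b (chi r t)) a := by
        abel
      simp only [φ, tau, ht, if_false, sub_add_cancel, e2]
    rw [e]
    refine sum_le_sum_of_subset_of_nonneg (fun y hy => ?_) fun _ _ _ => by positivity
    obtain ⟨z, hz, rfl⟩ := mem_image.1 hy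
    rw [mem_Box] at hz ⊢
    intro e
    have := hz e
    have h2 := bt_abs b a e
    have := abs_sub (z e) (bt b a e)
    simp only [Pi.sub_apply]; push_cast; omega
  have h2 : ∀ a, ∀ y ∈ Box (II r) (R + 1), ∑ b, ‖φ a y b - φ a y (mulc b (chi r t))‖ ^ 2 ≤
      Fintype.card (II r → Bool) * L ^ 2 := by
    intro a y hy
    have hw' : ∀ b, (((a, b, y + bt b a), true) : Pt (II r)) ∈ XX (II r) (R + 2) := fun b => by
      rw [mem_XX]
      intro e
      have := mem_Box.1 hy e
      have h2 := bt_abs b a e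
      have := abs_add_le (y e) (bt b a e)
      simp only [Pi.add_apply]; push_cast at *; omega
    refine enflo' (φ a y) (fun b x => ?_) _
    refine (hf _ (hw' _) _ (hw' _)).trans ?_
    gcongr
    exact (gd_le_w (by simp [leaf])).trans (om_flip p q (i := x) (by simp [co]))
  rw [card_SS, SS, sum_product]
  simp only [sum_product]
  calc _ ≤ ∑ a, ∑ b, ∑ y ∈ Box (II r) (R + 1), ‖φ a y b - φ a y (mulc b (chi r t))‖ ^ 2 :=
        sum_le_sum fun a _ => sum_le_sum fun b _ => h1 a b
    _ = ∑ a, ∑ y ∈ Box (II r) (R + 1), ∑ b, ‖φ a y b - φ a y (mulc b (chi r t))‖ ^ 2 :=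
        sum_congr rfl fun a _ => sum_comm
    _ ≤ ∑ _a : II r → Bool, ∑ _y ∈ Box (II r) (R + 1), Fintype.card (II r → Bool) * L ^ 2 :=
        sum_le_sum fun a _ => sum_le_sum fun y hy => h2 a y hy
    _ = _ := by simp only [sum_const, card_univ, nsmul_eq_mul]; ring

lemma SS_mono (R : ℕ) : ((SS (II r) R).card : ℝ) ≤ (SS (II r) (R + 1)).card := by
  have : SS (II r) R ⊆ SS (II r) (R + 1) := fun s hs => by
    rw [mem_SS] at hs ⊢
    intro e; have := hs e; push_cast; omega
  exact_mod_cast card_le_card this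

lemma step_all (hp : 1 ≤ p) (hG : GlueHyp (leaf (I := II r)) (om p q) (rh p q)) {R : ℕ}
    {f : Pt (II r) → H} (hL : 0 ≤ L)
    (hf : ∀ x ∈ XX (II r) (R + 2), ∀ y ∈ XX (II r) (R + 2), ‖f x - f y‖ ≤ L * dd p q x y) (t : ℕ) :
    ∑ s ∈ SS (II r) R, ‖f (s, false) - f (tau r t s, false)‖ ^ 2 ≤
      99 * ((SS (II r) (R + 1)).card * L ^ 2) := by
  have hm := SS_mono (r := r) R
  have hm2 : ((SS (II r) R).card : ℝ) * L ^ 2 ≤ (SS (II r) (R + 1)).card * L ^ 2 :=
    mul_le_mul_of_nonneg_right hm (sq_nonneg L)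
  have hn : (0 : ℝ) ≤ (SS (II r) R).card * L ^ 2 := mul_nonneg (Nat.cast_nonneg _) (sq_nonneg L)
  by_cases ht : t % 2 = 0
  · have hsub : ∀ x ∈ XX (II r) R, x ∈ XX (II r) (R + 2) := fun x hx => by
      rw [mem_XX] at hx ⊢; intro e; have := hx e; push_cast; omega
    have := stepA (R := R) (p := p) (q := q) (f := f) hL
      (fun x hx y hy => hf x (hsub x hx) y (hsub y hy)) ht
    linarith
  · have hB := stepB' hL hf ht
    have h0 : NN p (0 : EuclideanSpace ℝ (II r × II r)) ≤ 0 := by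
      simpa using NN_up (by linarith : 0 ≤ p) (0 : EuclideanSpace ℝ (II r × II r))
    have sw : ∀ s : St (II r), (∀ e, |s.2.2 e| ≤ (R + 2 : ℕ)) →
        ‖f (s, false) - f (s, true)‖ ≤ 4 * L := by
      intro s hs
      refine (hf _ (mem_XX.2 hs) _ (mem_XX.2 hs)).trans ?_
      have h1 : dd p q (s, false) (s, true) ≤ rh p q (s, false) (s, true) + 4 := gd_up hG _ _
      have h2 : rh p q (s, false) (s, true) ≤ 0 := by simpa [rh] using h0
      rw [mul_comm]; gcongr; linarith
    have : ∀ s ∈ SS (II r) R, ‖f (s, false) - f (tau r t s, false)‖ ^ 2 ≤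
        96 * L ^ 2 + 3 * ‖f (s, true) - f (tau r t s, true)‖ ^ 2 := by
      intro s hs
      rw [mem_SS] at hs
      have a1 := sw s fun e => by have := hs e; push_cast; omega
      have a2 := sw (tau r t s) fun e => by
        have := hs e; have := tau_entry t s e
        rw [abs_le] at *; push_cast; omega
      have e : f (s, false) - f (tau r t s, false) = (f (s, false) - f (s, true)) +
          (f (s, true) - f (tau r t s, true)) - (f (tau r t s, false) - f (tau r t s, true)) := by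
        abel
      have a3 : ‖f (s, false) - f (tau r t s, false)‖ ≤
          8 * L + ‖f (s, true) - f (tau r t s, true)‖ := by
        rw [e]
        refine (norm_sub_le _ _).trans ?_
        have := norm_add_le (f (s, false) - f (s, true)) (f (s, true) - f (tau r t s, true))
        linarith
      have a4 : ‖f (s, false) - f (tau r t s, false)‖ ^ 2 ≤
          (8 * L + ‖f (s, true) - f (tau r t s, true)‖) ^ 2 := by gcongr
      nlinarith [sq_nonneg (4 * L - ‖f (s, true) - f (tau r t s, true)‖)]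
    refine (sum_le_sum this).trans ?_
    rw [sum_add_distrib, sum_const, nsmul_eq_mul, ← mul_sum]
    linarith

theorem lower (hp : 2 ≤ p) (hpq : p ≤ q) (hG : GlueHyp (leaf (I := II r)) (om p q) (rh p q))
    {j : ℕ} (hj : (j : ℝ) ≤ p ^ 2) (hj2 : 4 ≤ j) (hr : 2 * j ≤ r) :
    ∃ R : ℕ, ∀ (H : Type) [NormedAddCommGroup H] [InnerProductSpace ℝ H] (f : Pt (II r) → H)
      (L : ℝ), 0 ≤ L → (∀ x ∈ XX (II r) R, ∀ y ∈ XX (II r) R,
        dd p q x y ≤ ‖f x - f y‖ ∧ ‖f x - f y‖ ≤ L * dd p q x y) →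
      q ^ 2 * j ≤ 25344 * L ^ 2 := by
  obtain ⟨K, hK⟩ := ratio (Fintype.card (II r × II r)) (4 * j + 1)
  refine ⟨K + 4 * j + 2, fun H _ _ f L hL hf => ?_⟩
  have hin : ∀ s ∈ SS (II r) K, ∀ G, ∀ t ≤ 2 * j, walk (tau r) G t s ∈ SS (II r) (K + 4 * j) := by
    intro s hs G t ht
    rw [mem_SS] at hs ⊢
    intro e
    have := hs e; have := walk_entry G s e t
    rw [abs_le] at *; push_cast; omega
  have main := walk_finset (tau r) tau_inv (fun s => f (s, false)) (2 * j) _ _ hin
  have up : ∑ t ∈ range (2 * j), ∑ s ∈ SS (II r) (K + 4 * j),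
      ‖f (s, false) - f (tau r t s, false)‖ ^ 2 ≤
        (2 * j) * (99 * ((SS (II r) (K + 4 * j + 1)).card * L ^ 2)) := by
    refine (sum_le_card_nsmul _ _ _ fun t _ =>
      step_all (by linarith) hG hL (fun x hx y hy => (hf x hx y hy).2) t).trans (le_of_eq ?_)
    rw [card_range, nsmul_eq_mul]; push_cast; ring
  have hrat : ((SS (II r) (K + 4 * j + 1)).card : ℝ) ≤ 2 * (SS (II r) K).card := by
    rw [card_SS, card_SS, card_Box, card_Box, add_assoc K]
    have : (0 : ℝ) ≤ Fintype.card (II r → Bool) := by positivity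
    calc _ ≤ (Fintype.card (II r → Bool) : ℝ) * (Fintype.card (II r → Bool) *
          (2 * (2 * K + 1) ^ Fintype.card (II r × II r))) := by gcongr
      _ = _ := by ring
  have hj4 : (4 : ℝ) ≤ j := by exact_mod_cast hj2
  set μ : ℝ := q * j / 8 with hμ
  have hμ1 : 1 ≤ μ := by rw [hμ]; nlinarith
  have lo : ∀ G, ∑ _s ∈ SS (II r) K, (2 * μ * q * (good j G).card - (2 * μ + μ ^ 2)) ≤
      ∑ s ∈ SS (II r) K, ‖f (s, false) - f (walk (tau r) G (2 * j) s, false)‖ ^ 2 := by
    intro G
    refine sum_le_sum fun s hs => ?_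
    have m1 : ((s, false) : Pt (II r)) ∈ XX (II r) (K + 4 * j + 2) := by
      rw [mem_SS] at hs; rw [mem_XX]; intro e; have := hs e; push_cast; omega
    have m2 : ((walk (tau r) G (2 * j) s, false) : Pt (II r)) ∈ XX (II r) (K + 4 * j + 2) := by
      have := hin s hs G _ le_rfl
      rw [mem_SS] at this; rw [mem_XX]; intro e; have := this e; push_cast at *; omega
    have a1 := (hf _ m1 _ m2).1
    have a2 : rh p q (s, false) (walk (tau r) G (2 * j) s, false) - 1 ≤
      dd p q (s, false) (walk (tau r) G (2 * j) s, false) := gd_lo hG _ _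
    have a3 := NN_walk (q := q) (by linarith : 0 ≤ p) hj hr G s
    have a4 : q * (good j G).card ≤ rh p q (s, false) (walk (tau r) G (2 * j) s, false) := by
      unfold rh
      have : 0 ≤ p * ‖uv s.1 - uv (walk (tau r) G (2 * j) s).1‖ := by
        have : 0 ≤ p := by linarith
        positivity
      have : 0 ≤ q * ‖uv s.2.1 - uv (walk (tau r) G (2 * j) s).2.1‖ := by
        have : 0 ≤ q := by linarith
        positivity
      simp only
      linarith
    have a5 : q * (good j G).card - 1 ≤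
      ‖f (s, false) - f (walk (tau r) G (2 * j) s, false)‖ := by linarith
    nlinarith [sq_nonneg (‖f (s, false) - f (walk (tau r) G (2 * j) s, false)‖ - μ)]
  have lo2 := (sum_le_sum fun G (_ : G ∈ (range (2 * j)).powerset) => lo G).trans main
  simp only [sum_const, nsmul_eq_mul] at lo2
  rw [← mul_sum, sum_sub_distrib, ← mul_sum, sum_good, sum_const, card_powerset, card_range,
    nsmul_eq_mul] at lo2
  push_cast at lo2
  have hS : (0 : ℝ) < (SS (II r) K).card := by
    rw [card_SS, card_Box]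
    have : (0 : ℝ) < Fintype.card (II r → Bool) := by exact_mod_cast Fintype.card_pos
    positivity
  have hP : (0 : ℝ) < 2 ^ (2 * j) := by positivity
  set N : ℝ := ((SS (II r) K).card : ℝ)
  set P : ℝ := 2 ^ (2 * j)
  have up2 : (2 * j) * (99 * ((SS (II r) (K + 4 * j + 1)).card * L ^ 2)) ≤
      (2 * j) * (99 * ((2 * N) * L ^ 2)) := by gcongr
  have fin : N * P * μ ^ 2 ≤ N * P * (396 * j * L ^ 2) := by
    have e1 : 2 * μ * q * (P * (j / 4)) = P * (4 * μ ^ 2) := by rw [hμ]; ring
    rw [e1] at lo2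
    have e2 : N * P * μ ^ 2 ≤ N * (P * (4 * μ ^ 2) - P * (2 * μ + μ ^ 2)) := by
      have : 0 ≤ N * P * (μ * (μ - 1)) := by
        have : 0 ≤ μ - 1 := by linarith
        positivity
      nlinarith
    have e3 := mul_le_mul_of_nonneg_left (up.trans up2) hP.le
    nlinarith
  have fin2 := le_of_mul_le_mul_left fin (by positivity)
  rw [hμ] at fin2
  have : (j : ℝ) * (q ^ 2 * j) ≤ j * (25344 * L ^ 2) := by nlinarith
  exact le_of_mul_le_mul_left this (by linarith)

end H93Un
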