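import Pool.Agent.H93.Un5

namespace H93Un
open Finset
open scoped RealInnerProductSpace

/-- Embedding with distortion at most `D`. -/
def Emb {X : Type} [MetricSpace X] (S : Set X) (H : Type) [NormedAddCommGroup H] (D : ℝ) : Prop :=
  ∃ (f : S → H) (s : ℝ), 0 < s ∧ ∀ x y : S,
    s * dist (x : X) (y : X) ≤ ‖f x - f y‖ ∧ ‖f x - f y‖ ≤ s * D * dist (x : X) (y : X)

/-- The conclusion. -/
def Conc (DA DB c : ℝ) : Prop :=
  ∃ (X : Type) (_ : MetricSpace X) (_ : Finite X) (A B : Set X) (a b : ℕ), A ∪ B = Set.univ ∧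
    Emb A (EuclideanSpace ℝ (Fin a)) DA ∧ Emb B (EuclideanSpace ℝ (Fin b)) DB ∧
    ∀ (H : Type) [NormedAddCommGroup H] [InnerProductSpace ℝ H] (D : ℝ),
      Emb (Set.univ : Set X) H D → c ≤ D

lemma Conc.symm {DA DB c : ℝ} (h : Conc DA DB c) : Conc DB DA c := by
  obtain ⟨X, m, fi, A, B, a, b, h1, h2, h3, h4⟩ := h
  exact ⟨X, m, fi, B, A, b, a, by rw [Set.union_comm, h1], h3, h2, h4⟩

lemma emb_of {X : Type} [MetricSpace X] (S : Set X) {E : Type} [NormedAddCommGroup E]
    [InnerProductSpace ℝ E] [FiniteDimensional ℝ E] (g : X → E) {k l D : ℝ} (hl : 0 < l)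
    (hD : l * k ≤ D)
    (h : ∀ x ∈ S, ∀ y ∈ S, dist x y ≤ l * ‖g x - g y‖ ∧ ‖g x - g y‖ ≤ k * dist x y) :
    ∃ a, Emb S (EuclideanSpace ℝ (Fin a)) D := by
  refine ⟨Module.finrank ℝ E, fun x => (stdOrthonormalBasis ℝ E).repr (g x), 1 / l,
    by positivity, fun x y => ?_⟩
  rw [← map_sub, LinearIsometryEquiv.norm_map]
  obtain ⟨h1, h2⟩ := h x x.2 y y.2
  constructor
  · rw [div_mul_eq_mul_div, one_mul, div_le_iff₀' hl]; exact h1
  · refine h2.trans ?_
    gcongr
    rw [div_mul_eq_mul_div, one_mul, le_div_iff₀' hl]; exact hD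

/-- Concatenation of vectors. -/
def jn {α β : Type} (u : EuclideanSpace ℝ α) (v : EuclideanSpace ℝ β) : EuclideanSpace ℝ (α ⊕ β) :=
  WithLp.toLp 2 (Sum.elim (fun i => u i) (fun i => v i))

lemma jn_sq {α β : Type} [Fintype α] [Fintype β] (u u' : EuclideanSpace ℝ α)
    (v v' : EuclideanSpace ℝ β) : ‖jn u v - jn u' v'‖ ^ 2 = ‖u - u'‖ ^ 2 + ‖v - v'‖ ^ 2 := by
  simp [EuclideanSpace.real_norm_sq_eq, jn, Fintype.sum_sum_type]

open Classical in
/-- Indicator vector. -/
noncomputable def ind {Λ : Type} (L : Finset Λ) (l : Λ) : EuclideanSpace ℝ L :=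
  WithLp.toLp 2 fun k => if (k : Λ) = l then 1 else 0

lemma ind_le {Λ : Type} (L : Finset Λ) (l : Λ) : ‖ind L l‖ ≤ 1 := by
  classical
  refine (abs_le_of_sq_le_sq' ?_ zero_le_one).2
  rw [EuclideanSpace.real_norm_sq_eq]
  simp only [ind, ite_pow, one_pow, ne_eq, OfNat.ofNat_ne_zero, not_false_eq_true, zero_pow,
    sum_boole]
  have : (univ.filter fun k : L => (k : Λ) = l).card ≤ 1 :=
    card_le_one.2 fun a ha b hb => Subtype.ext ((mem_filter.1 ha).2.trans (mem_filter.1 hb).2.symm)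
  exact_mod_cast this

lemma ind_ge {Λ : Type} {L : Finset Λ} {l l' : Λ} (hl : l ∈ L) (h : l ≠ l') :
    1 ≤ ‖ind L l - ind L l'‖ := by
  have := PiLp.norm_apply_le (ind L l - ind L l') ⟨l, hl⟩
  simpa [ind, h] using this

lemma smul_dist {E : Type*} [NormedAddCommGroup E] [NormedSpace ℝ E] {c : ℝ} (hc : 0 ≤ c)
    (u v : E) : ‖c • u - c • v‖ = c * ‖u - v‖ := by
  rw [← smul_sub, norm_smul, Real.norm_eq_abs, abs_of_nonneg hc]

/-- Carrier of the example. -/
def Car (r R : ℕ) : Type := {x : Pt (II r) // x ∈ XX (II r) R}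

theorem big {p q : ℝ} (hp : 2 ≤ p) (hpq : p ≤ q) : Conc (27 * p) (27 * q) (p * q / 226) := by
  classical
  have hp1 : 1 ≤ p := by linarith
  have hp0 : 0 ≤ p := by linarith
  have hq0 : 0 ≤ q := by linarith
  set j := ⌊p ^ 2⌋₊ with hj
  have hj1 : (j : ℝ) ≤ p ^ 2 := Nat.floor_le (by positivity)
  have hj2 : 4 ≤ j := Nat.le_floor (by push_cast; nlinarith)
  have hj3 : p ^ 2 ≤ 2 * j := by
    have := Nat.lt_floor_add_one (p ^ 2)
    have : (4 : ℝ) ≤ j := by exact_mod_cast hj2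
    linarith
  set r := max (2 * j) ⌈16 * q ^ 4⌉₊ with hr
  have hm : 4 * q ^ 2 ≤ √(Fintype.card (II r) : ℝ) := by
    refine Real.le_sqrt_of_sq_le ?_
    have h1 : (16 * q ^ 4 : ℝ) ≤ r := (Nat.le_ceil _).trans (by exact_mod_cast le_max_right _ _)
    have h2 : r ≤ Fintype.card (II r) := by
      simp only [Fintype.card_pi, Fintype.card_bool, prod_const, card_univ, Fintype.card_fin]
      exact Nat.lt_two_pow_self.le
    have h3 : (r : ℝ) ≤ Fintype.card (II r) := by exact_mod_cast h2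
    nlinarith
  have hG := glue_ok (I := II r) hp1 hpq hm
  obtain ⟨R, hR⟩ := lower hp hpq hG hj1 hj2 (le_max_left _ _)
  let mX : MetricSpace (Car r R) :=
    { dist := fun x y => dd p q x.1 y.1
      dist_self := fun x => gd_self hG _
      dist_comm := fun x y => gd_symm hG _ _
      dist_triangle := fun x y z => gd_tri hG _ _ _
      eq_of_dist_eq_zero := fun h => Subtype.ext (gd_zero hG h) }
  have hfin : Finite (Car r R) := (inferInstance : Finite (XX (II r) R))
  set L := (XX (II r) R).image leaf with hL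
  have hind : ∀ x y : Car r R,
      (leaf x.1 = leaf y.1 → ‖ind L (leaf x.1) - ind L (leaf y.1)‖ = 0) ∧
      (leaf x.1 ≠ leaf y.1 → 1 ≤ ‖ind L (leaf x.1) - ind L (leaf y.1)‖) ∧
      ‖ind L (leaf x.1) - ind L (leaf y.1)‖ ≤ 2 := fun x y =>
    ⟨fun h => by rw [h, sub_self, norm_zero], fun h => ind_ge (mem_image_of_mem _ x.2) h,
      (norm_sub_le _ _).trans (by linarith [ind_le L (leaf x.1), ind_le L (leaf y.1)])⟩
  obtain ⟨a, ha⟩ := emb_of {x : Car r R | x.1.2 = false}
    (fun x => jn (p • uv x.1.1.1) (jn (q • uv x.1.1.2.1) (jn (p • zr q x.1.1.2.2)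
      (ind L (leaf x.1))))) (k := 3 * p) (l := 9) (D := 27 * p) (by norm_num) (by linarith)
    fun x hx y hy => embA hp1 hpq hG hx hy (norm_nonneg _) (norm_nonneg _) (hind x y).1
      (hind x y).2.1 (hind x y).2.2 (by
        rw [jn_sq, jn_sq, jn_sq, smul_dist hp0, smul_dist hq0, smul_dist hp0])
  obtain ⟨b, hb⟩ := emb_of {x : Car r R | x.1.2 = true}
    (fun x => jn (q • uv x.1.1.1) (jn (q • uv x.1.1.2.1)
      (jn (p • zr q (x.1.1.2.2 - bt x.1.1.2.1 x.1.1.1)) (ind L (leaf x.1))))) (k := 3 * q) (l := 9)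
    (D := 27 * q) (by norm_num) (by linarith)
    fun x hx y hy => embB hp1 hpq hG hx hy (norm_nonneg _) (norm_nonneg _) (hind x y).1
      (hind x y).2.1 (hind x y).2.2 (by
        rw [jn_sq, jn_sq, jn_sq, smul_dist hq0, smul_dist hq0, smul_dist hp0])
  refine ⟨Car r R, mX, hfin, _, _, a, b, ?_, ha, hb, ?_⟩
  · ext x; simp
  · rintro H _ _ D ⟨f, s, hs, hf⟩
    let F : Pt (II r) → H := fun x => if h : x ∈ XX (II r) R then s⁻¹ • f ⟨⟨x, h⟩, trivial⟩ else 0
    have hF : ∀ x ∈ XX (II r) R, ∀ y ∈ XX (II r) R,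
        dd p q x y ≤ ‖F x - F y‖ ∧ ‖F x - F y‖ ≤ D * dd p q x y := by
      intro x hx y hy
      obtain ⟨h1, h2⟩ := hf ⟨⟨x, hx⟩, trivial⟩ ⟨⟨y, hy⟩, trivial⟩
      simp only [F, hx, hy, dif_pos]
      rw [smul_dist (inv_pos.2 hs).le]
      change s * dd p q x y ≤ _ at h1
      change _ ≤ s * D * dd p q x y at h2
      constructor
      · rw [le_inv_mul_iff₀ hs]; exact h1
      · rw [inv_mul_le_iff₀ hs, ← mul_assoc]; exact h2
    have hD : 0 ≤ D := by
      let s0 : St (II r) := (fun _ => false, fun _ => false, 0)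
      have m : ∀ c, ((s0, c) : Pt (II r)) ∈ XX (II r) R := fun c => mem_XX.2 fun e => by simp [s0]
      obtain ⟨h1, h2⟩ := hF _ (m false) _ (m true)
      have h3 := diff_leaf_est hG (x := (s0, false)) (y := (s0, true)) (by simp [leaf])
      have h4 := hG.rn (s0, false) (s0, true)
      by_contra hcon
      push Not at hcon
      nlinarith
    have := hR H F D hD hF
    refine (abs_le_of_sq_le_sq' ?_ hD).2
    have h5 : q ^ 2 * p ^ 2 ≤ q ^ 2 * (2 * j) := by gcongr
    nlinarith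

theorem small {DA DB : ℝ} (hA : 1 ≤ DA) (hB : 1 ≤ DB) : Conc DA DB (DB / 2) := by
  classical
  set k := ⌊DB ^ 2⌋₊ with hk
  have hk1 : (k : ℝ) ≤ DB ^ 2 := Nat.floor_le (by positivity)
  have hk2 : 1 ≤ k := Nat.le_floor (by push_cast; nlinarith)
  have hk2' : (1 : ℝ) ≤ k := by exact_mod_cast hk2
  have hk3 : DB ^ 2 ≤ 2 * k := by
    have := Nat.lt_floor_add_one (DB ^ 2)
    linarith
  have : Nonempty (Fin k) := ⟨⟨0, hk2⟩⟩
  let X := Hamming fun _ : Fin k => Bool
  have hd : ∀ x y : X, dist x y = (hammingDist (Hamming.ofHamming x) (Hamming.ofHamming y) : ℝ) :=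
    fun x y => Hamming.dist_eq_hammingDist x y
  obtain ⟨a, ha⟩ := emb_of ({Hamming.toHamming fun _ => false} : Set X)
    (fun _ => (0 : EuclideanSpace ℝ (Fin 0))) (k := 1) (l := 1) (D := DA) one_pos (by linarith)
    fun x hx y hy => by
      rw [Set.mem_singleton_iff.1 hx, Set.mem_singleton_iff.1 hy]; simp
  have hsk : 0 < √(k : ℝ) := Real.sqrt_pos.2 (by linarith)
  have hkk : √(k : ℝ) ^ 2 = k := Real.sq_sqrt (by linarith)
  obtain ⟨b, hb⟩ := emb_of (Set.univ : Set X) (fun x => uv (Hamming.ofHamming x))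
    (k := 2 / √(k : ℝ)) (l := k / 2) (D := DB) (by linarith) (by
      have : (k : ℝ) / 2 * (2 / √(k : ℝ)) = √(k : ℝ) := by field_simp; linarith
      rw [this]; exact Real.sqrt_le_iff.2 ⟨by linarith, hk1⟩)
    fun x _ y _ => by
      have h1 := uv_dist (Hamming.ofHamming x) (Hamming.ofHamming y)
      rw [Fintype.card_fin, ← hd] at h1
      have h2 : dist x y ≤ k := by
        rw [hd]
        have := hammingDist_le_card_fintype (x := Hamming.ofHamming x) (y := Hamming.ofHamming y)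
        rw [Fintype.card_fin] at this
        exact_mod_cast this
      have h3 : dist x y ≤ dist x y ^ 2 := by
        rw [hd]; exact_mod_cast Nat.le_self_pow two_ne_zero _
      have h4 : 0 ≤ dist x y := dist_nonneg
      constructor
      · refine (abs_le_of_sq_le_sq' ?_ (by positivity)).2
        rw [mul_pow, h1]
        have : ((k : ℝ) / 2) ^ 2 * (4 * dist x y / k) = k * dist x y := by field_simp; ring
        rw [this]; nlinarith
      · refine (abs_le_of_sq_le_sq' ?_ (by positivity)).2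
        rw [mul_pow, h1, div_pow, hkk]
        calc 4 * dist x y / k ≤ 4 * dist x y ^ 2 / k := by gcongr
          _ = _ := by ring
  refine ⟨X, inferInstance, (inferInstance : Finite (Fin k → Bool)), _, _, a, b, by simp, ha, hb, ?_⟩
  rintro H _ _ D ⟨f, s, hs, hf⟩
  let φ : (Fin k → Bool) → H := fun x => f ⟨Hamming.toHamming x, trivial⟩
  have hφ : ∀ x y, s * hammingDist x y ≤ ‖φ x - φ y‖ ∧ ‖φ x - φ y‖ ≤ s * D * hammingDist x y :=
    fun x y => hf ⟨Hamming.toHamming x, trivial⟩ ⟨Hamming.toHamming y, trivial⟩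
  have hanti : ∀ x : Fin k → Bool, hammingDist x (flipT univ x) = k := fun x => by
    simp [hammingDist, flipT]
  have hD : 0 ≤ s * D := by
    obtain ⟨h1, h2⟩ := hφ (fun _ => false) (flipT univ fun _ => false)
    rw [hanti] at h1 h2
    by_contra hcon
    push Not at hcon
    nlinarith
  have hD' : 0 ≤ D := nonneg_of_mul_nonneg_right hD hs |> fun h => h
  have h1 := enflo φ (l := s * D) (fun b x => (hφ _ _).2.trans (by
    have : (hammingDist b (flipT {x} b) : ℝ) ≤ 1 := by exact_mod_cast hd_flip b x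
    nlinarith)) univ
  have h2 : ∑ _b : Fin k → Bool, (s * k) ^ 2 ≤ ∑ b, ‖φ b - φ (flipT univ b)‖ ^ 2 :=
    sum_le_sum fun b _ => by
      have := (hφ b (flipT univ b)).1
      rw [hanti] at this
      gcongr
  rw [sum_const, card_univ, nsmul_eq_mul] at h2
  rw [card_univ, Fintype.card_fin] at h1
  have hc : (0 : ℝ) < Fintype.card (Fin k → Bool) := by exact_mod_cast Fintype.card_pos
  have h3 : (Fintype.card (Fin k → Bool) * s ^ 2 * k) * k ≤
      (Fintype.card (Fin k → Bool) * s ^ 2 * k) * D ^ 2 := by nlinarith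
  have h4 := le_of_mul_le_mul_left h3 (by positivity)
  refine (abs_le_of_sq_le_sq' ?_ hD').2
  nlinarith

lemma Conc.mono {DA DB c c' : ℝ} (h : Conc DA DB c) (hc : c' ≤ c) : Conc DA DB c' := by
  obtain ⟨X, m, fi, A, B, a, b, h1, h2, h3, h4⟩ := h
  exact ⟨X, m, fi, A, B, a, b, h1, h2, h3, fun H _ _ D hD => hc.trans (h4 H D hD)⟩

theorem ordered {DA DB : ℝ} (hA : 1 ≤ DA) (hAB : DA ≤ DB) :
    Conc DA DB (1 / 200000 * DA * DB) := by
  rcases le_total DA 54 with h | h
  · refine (small hA (hA.trans hAB)).mono ?_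
    nlinarith
  · have := big (p := DA / 27) (q := DB / 27) (by linarith) (by linarith)
    rw [mul_div_cancel₀ _ (by norm_num), mul_div_cancel₀ _ (by norm_num)] at this
    refine this.mono ?_
    have : 0 ≤ DA * DB := by nlinarith
    nlinarith

theorem main {DA DB : ℝ} (hA : 1 ≤ DA) (hB : 1 ≤ DB) : Conc DA DB (1 / 200000 * DA * DB) := by
  rcases le_total DA DB with h | h
  · exact ordered hA h
  · have := (ordered hB h).symm
    rwa [mul_right_comm] at this

end H93Un
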