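import Mathlib

set_option autoImplicit false

namespace Pool.Agent.H93.Vel

open Filter Topology Finset

/-- index of the interval of the sequence h that contains x -/
noncomputable def idx (h : ℕ → ℕ) (x : ℕ) : ℕ := sInf {n | x < h (n + 1)}

lemma idx_lt {h : ℕ → ℕ} (hh : StrictMono h) (x : ℕ) : x < h (idx h x + 1) :=
  Nat.sInf_mem (s := {n | x < h (n + 1)}) ⟨x, lt_of_lt_of_le (Nat.lt_succ_self x) (hh.id_le _)⟩

lemma idx_le {h : ℕ → ℕ} (h0 : h 0 = 0) (x : ℕ) : h (idx h x) ≤ x := by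
  rcases hi : idx h x with _ | k
  · omega
  · have : k ∉ {n | x < h (n + 1)} := Nat.notMem_of_lt_sInf (by unfold idx at hi; omega)
    simpa using this

lemma idx_eq {h : ℕ → ℕ} (hh : StrictMono h) (h0 : h 0 = 0) {x n : ℕ} (h1 : h n ≤ x)
    (h2 : x < h (n + 1)) : idx h x = n := by
  have a1 := hh.lt_iff_lt.1 (lt_of_le_of_lt (idx_le h0 x) h2)
  have a2 := hh.lt_iff_lt.1 (lt_of_le_of_lt h1 (idx_lt hh x))
  omega

lemma idx_ge {h : ℕ → ℕ} (hh : StrictMono h) {x n : ℕ} (h1 : h n ≤ x) : n ≤ idx h x := by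
  have a2 := hh.lt_iff_lt.1 (lt_of_le_of_lt h1 (idx_lt hh x))
  omega

/-- fast growing hierarchy -/
def F : ℕ → ℕ → ℕ
  | 0 => fun u => u + 1
  | d + 1 => fun u => (F d)^[(u + 1) ^ 3] u

lemma it_lt {f : ℕ → ℕ} (hf : ∀ u, u < f u) (u : ℕ) : StrictMono fun i => f^[i] u :=
  strictMono_nat_of_lt_succ fun i => by rw [Function.iterate_succ_apply']; exact hf _

lemma F_gt (d : ℕ) : ∀ u, u < F d u := by
  induction d with
  | zero => intro u; simp [F]
  | succ d ih => intro u; exact it_lt ih u (show 0 < (u + 1) ^ 3 by positivity)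

lemma F_it (d : ℕ) (k u : ℕ) : ∃ i, (F (d + 1))^[k] u = (F d)^[i] u := by
  induction k with
  | zero => exact ⟨0, rfl⟩
  | succ k ih =>
    obtain ⟨i, hi⟩ := ih
    refine ⟨((F d)^[i] u + 1) ^ 3 + i, ?_⟩
    rw [Function.iterate_succ_apply', hi, Function.iterate_add_apply]; rfl

lemma F_it' (d e : ℕ) (k u : ℕ) : ∃ i, (F (d + e))^[k] u = (F d)^[i] u := by
  induction e generalizing k with
  | zero => exact ⟨k, rfl⟩
  | succ e ih =>
    obtain ⟨i, hi⟩ := F_it (d + e) k u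
    obtain ⟨j, hj⟩ := ih i
    exact ⟨j, hi.trans hj⟩

def X : ℕ → ℕ
  | 0 => 0
  | n + 1 => F (n + 1) (X n)

lemma X_mono : StrictMono X := strictMono_nat_of_lt_succ fun _ => F_gt _ _

def T (j x : ℕ) : Prop := ∃ i, x = (F (idx X x - j))^[i] (X (idx X x))

lemma T_X (j n : ℕ) : T j (X n) :=
  ⟨0, by rw [idx_eq X_mono rfl le_rfl (X_mono (Nat.lt_succ_self n))]; rfl⟩

noncomputable def om (x : ℕ) : ℝ := 1 / ((idx X x : ℝ) + 1)

lemma om_pos (x : ℕ) : 0 < om x := by unfold om; positivity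

lemma om_small {η : ℝ} (hη : 0 < η) : ∃ x0, ∀ x ≥ x0, om x ≤ η := by
  obtain ⟨n, hn⟩ := exists_nat_one_div_lt hη
  refine ⟨X n, fun x hx => le_trans ?_ hn.le⟩
  have : (n : ℝ) ≤ idx X x := by exact_mod_cast idx_ge X_mono hx
  exact one_div_le_one_div_of_le (by positivity) (by linarith)

open Classical in
noncomputable def g (j x : ℕ) : ℝ := if T j x then om x else 0

lemma g_nonneg (j x : ℕ) : 0 ≤ g j x := by
  unfold g; split_ifs; exacts [(om_pos x).le, le_rfl]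

lemma g_le (j x : ℕ) : g j x ≤ om x := by
  unfold g; split_ifs; exacts [le_rfl, (om_pos x).le]

noncomputable def ph (j x : ℕ) : ℝ := ∑ i ∈ range x, g j i

lemma ph_sub (j : ℕ) {x y : ℕ} (h : x ≤ y) : ph j y - ph j x = ∑ i ∈ Ico x y, g j i :=
  (sum_Ico_eq_sub _ h).symm

lemma ph_mono (j : ℕ) : Monotone (ph j) := fun x y h => by
  have := ph_sub j h
  have h2 := sum_nonneg (s := Ico x y) fun i _ => g_nonneg j i
  linarith

lemma ph_succ (j x : ℕ) : ph j (x + 1) = ph j x + g j x := sum_range_succ _ _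

lemma two_ticks {j u v : ℕ} (hj : X (j + 1) ≤ u) (huv : u < v) (hu : T j u) (hv : T j v) :
    ((u : ℝ) + 1) ^ 2 ≤ ph (j + 1) v - ph (j + 1) u := by
  set n := idx X u with hn
  have hjn : j + 1 ≤ n := idx_ge X_mono hj
  obtain ⟨i, hi⟩ := hu
  rw [← hn] at hi
  obtain ⟨d, hd⟩ : ∃ d, n - j = d + 1 := ⟨n - j - 1, by omega⟩
  rw [hd] at hi
  have hlo : X n ≤ u := idx_le rfl u
  have hhi : u < X (n + 1) := idx_lt X_mono u
  have key : ∀ w, (∃ k, w = (F (d + 1))^[k] (X n)) → u < w → F (d + 1) u ≤ w := by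
    rintro w ⟨k, rfl⟩ hw
    rw [hi] at hw
    have := (it_lt (F_gt (d + 1)) (X n)).lt_iff_lt.1 hw
    have h2 := (it_lt (F_gt (d + 1)) (X n)).monotone (show i + 1 ≤ k from this)
    simp only [Function.iterate_succ_apply'] at h2
    rwa [← hi] at h2
  have h1 : F (d + 1) u ≤ X (n + 1) := by
    refine key _ ?_ hhi
    obtain ⟨k, hk⟩ := F_it' (d + 1) (j + 1) 1 (X n)
    refine ⟨k, ?_⟩
    rw [← hk, show d + 1 + (j + 1) = n + 1 by omega]; rfl
  have h2 : F (d + 1) u ≤ v := by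
    rcases lt_or_ge v (X (n + 1)) with h | h
    · refine key _ ?_ huv
      obtain ⟨k, hk⟩ := hv
      rw [idx_eq X_mono rfl (hlo.trans huv.le) h, hd] at hk
      exact ⟨k, hk⟩
    · exact h1.trans h
  have hm := it_lt (F_gt d) u
  have hsub : (range ((u + 1) ^ 3)).image (fun k => (F d)^[k] u) ⊆ Ico u v := by
    intro w hw
    obtain ⟨k, hk, rfl⟩ := mem_image.1 hw
    exact mem_Ico.2 ⟨hm.monotone (Nat.zero_le k), lt_of_lt_of_le (hm (mem_range.1 hk)) h2⟩
  rw [ph_sub _ huv.le]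
  refine le_trans ?_ (sum_le_sum_of_subset_of_nonneg hsub fun _ _ _ => g_nonneg _ _)
  rw [sum_image (fun a _ b _ h => hm.injective h)]
  have hval : ∀ k ∈ range ((u + 1) ^ 3), 1 / ((u : ℝ) + 1) ≤ g (j + 1) ((F d)^[k] u) := by
    intro k hk
    have e : idx X ((F d)^[k] u) = n := idx_eq X_mono rfl (hlo.trans (hm.monotone (Nat.zero_le k)))
      (lt_of_lt_of_le (hm (mem_range.1 hk)) h1)
    have hT : T (j + 1) ((F d)^[k] u) := by
      obtain ⟨i', hi'⟩ := F_it d i (X n)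
      refine ⟨k + i', ?_⟩
      rw [e, show n - (j + 1) = d by omega, Function.iterate_add_apply, ← hi', ← hi]
    have : (n : ℝ) ≤ u := by exact_mod_cast (X_mono.id_le n).trans hlo
    simp only [g, hT, if_true, om, e]
    exact one_div_le_one_div_of_le (by positivity) (by linarith)
  refine le_trans ?_ (sum_le_sum hval)
  simp only [sum_const, card_range, nsmul_eq_mul]
  push_cast
  apply le_of_eq
  field_simp

lemma slow {j x y : ℕ} {η : ℝ} (hη : 0 ≤ η) (hj : X (j + 1) ≤ x) (hxy : x ≤ y)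
    (hom : ∀ w ≥ x, om w ≤ η) (h : ph (j + 1) y - ph (j + 1) x < ((x : ℝ) + 1) ^ 2) :
    ph j y - ph j x ≤ η := by
  classical
  rw [ph_sub _ hxy]
  have hc : ((Ico x y).filter (T j)).card ≤ 1 := by
    refine card_le_one.2 fun u hu v hv => ?_
    by_contra hne
    wlog huv : u < v generalizing u v
    · exact this v hv u hu (Ne.symm hne) (by omega)
    simp only [mem_filter, mem_Ico] at hu hv
    have := two_ticks (hj.trans hu.1.1) huv hu.2 hv.2
    have a1 := ph_mono (j + 1) hu.1.1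
    have a2 := ph_mono (j + 1) hv.1.2.le
    have a3 : (x : ℝ) ≤ u := by exact_mod_cast hu.1.1
    have a4 : ((x : ℝ) + 1) ^ 2 ≤ ((u : ℝ) + 1) ^ 2 := by gcongr
    linarith
  unfold g
  rw [← sum_filter]
  refine le_trans (sum_le_card_nsmul _ _ η fun w hw => hom w (mem_Ico.1 (mem_filter.1 hw).1).1) ?_
  rw [nsmul_eq_mul]
  have : (((Ico x y).filter (T j)).card : ℝ) ≤ 1 := by exact_mod_cast hc
  nlinarith

noncomputable def e (j x : ℕ) : ℝ := Real.cos (Real.pi * ph j x)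

noncomputable def s (x : ℕ) : ℝ := ∑' j, (1 / 4 : ℝ) ^ j * e j x

lemma e_abs (j x : ℕ) : |e j x| ≤ 1 := Real.abs_cos_le_one _

lemma e_sub (j : ℕ) {x y : ℕ} (h : x ≤ y) : |e j y - e j x| ≤ 4 * (ph j y - ph j x) := by
  refine (Real.abs_cos_sub_cos_le _ _).trans ?_
  have := ph_mono j h
  rw [← mul_sub, abs_mul, abs_of_pos Real.pi_pos, abs_of_nonneg (by linarith)]
  exact mul_le_mul_of_nonneg_right Real.pi_le_four (by linarith)

lemma geo : HasSum (fun j : ℕ => (1 / 4 : ℝ) ^ j) (4 / 3) := by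
  have := hasSum_geometric_of_lt_one (r := (1 / 4 : ℝ)) (by norm_num) (by norm_num)
  norm_num at this ⊢; exact this

lemma summ (x : ℕ) : Summable fun j => (1 / 4 : ℝ) ^ j * e j x :=
  Summable.of_norm_bounded geo.summable fun j => by
    rw [Real.norm_eq_abs, abs_mul, abs_of_pos (by positivity)]
    exact mul_le_of_le_one_right (by positivity) (e_abs j x)

lemma s_est (J : ℕ) {x y : ℕ} (h : x ≤ y) {η : ℝ} (hη : 0 ≤ η)
    (hs : ∀ j < J, ph j y - ph j x ≤ η) :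
    |s y - s x - (1 / 4 : ℝ) ^ J * (e J y - e J x)| ≤ 6 * η + 2 / 3 * (1 / 4 : ℝ) ^ J := by
  have h1 := (summ y).hasSum.sub (summ x).hasSum
  have h2 := (hasSum_nat_add_iff' (J + 1)).2 h1
  have h3 : HasSum (fun j : ℕ => 2 * (1 / 4 : ℝ) ^ (J + 1) * (1 / 4 : ℝ) ^ j)
      (2 * (1 / 4 : ℝ) ^ (J + 1) * (4 / 3)) := geo.mul_left _
  have h4 := tsum_of_norm_bounded h3 (f := fun n => (1 / 4 : ℝ) ^ (n + (J + 1)) * e (n + (J + 1)) y -
      (1 / 4 : ℝ) ^ (n + (J + 1)) * e (n + (J + 1)) x) (fun n => by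
    rw [← mul_sub, Real.norm_eq_abs, abs_mul, abs_of_pos (by positivity), pow_add]
    have := abs_sub (e (n + (J + 1)) y) (e (n + (J + 1)) x)
    have a1 := e_abs (n + (J + 1)) y
    have a2 := e_abs (n + (J + 1)) x
    have : |e (n + (J + 1)) y - e (n + (J + 1)) x| ≤ 2 := by linarith
    calc _ ≤ (1 / 4 : ℝ) ^ n * (1 / 4 : ℝ) ^ (J + 1) * 2 := by gcongr
      _ = _ := by ring)
  rw [h2.tsum_eq, sum_range_succ, Real.norm_eq_abs] at h4
  have h5 : |∑ j ∈ range J, ((1 / 4 : ℝ) ^ j * e j y - (1 / 4 : ℝ) ^ j * e j x)| ≤ 6 * η := by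
    refine (abs_sum_le_sum_abs _ _).trans ?_
    refine (sum_le_sum (g := fun j => (1 / 4 : ℝ) ^ j * (4 * η)) fun j hj => ?_).trans ?_
    · rw [← mul_sub, abs_mul, abs_of_pos (by positivity)]
      have := e_sub j h
      have := hs j (mem_range.1 hj)
      gcongr; linarith
    · rw [← sum_mul]
      have := sum_le_hasSum (range J) (fun j _ => by positivity) geo
      nlinarith
  change |s y - s x - _| ≤ _ at h4
  rw [pow_succ] at h4
  rw [abs_le] at *
  constructor <;> nlinarith [h4.1, h4.2, h5.1, h5.2]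

lemma s_est' (J : ℕ) {x y : ℕ} (h : x ≤ y) {η : ℝ} (hη : 0 ≤ η)
    (hs : ∀ j < J, ph j y - ph j x ≤ η) :
    |s y - s x| ≤ 6 * η + 8 / 3 * (1 / 4 : ℝ) ^ J := by
  have h1 := s_est J h hη hs
  have a1 := abs_le.1 (e_abs J y)
  have a2 := abs_le.1 (e_abs J x)
  have : (0 : ℝ) < (1 / 4 : ℝ) ^ J := by positivity
  rw [abs_le] at *
  constructor <;> nlinarith [h1.1, h1.2]

lemma c_tendsto : Tendsto (fun x => s (x + 1) - s x) atTop (𝓝 0) := by
  refine Metric.tendsto_atTop.2 fun ε hε => ?_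
  obtain ⟨x0, h0⟩ := om_small (show 0 < ε / 12 by positivity)
  obtain ⟨J, hJ⟩ := exists_pow_lt_of_lt_one (show 0 < ε / 6 by positivity)
    (show (1 / 4 : ℝ) < 1 by norm_num)
  refine ⟨x0, fun x hx => ?_⟩
  have := s_est' J (Nat.le_succ x) (η := ε / 12) (by positivity) (fun j _ => by
    rw [ph_succ]; linarith [g_le j x, h0 x hx])
  rw [Real.dist_eq, sub_zero]
  linarith

/-- many oscillations -/
def Osc (s : ℕ → ℝ) (J K x y : ℕ) : Prop := ∃ z : ℕ → ℕ, Monotone z ∧ x ≤ z 0 ∧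
  z (K * (x + 1)) ≤ y ∧ ∀ m < K * (x + 1), (1 / 4 : ℝ) ^ J ≤ |s (z (m + 1)) - s (z m)|

lemma osc1 (J K : ℕ) : ∃ x0 : ℕ, ∀ x ≥ x0, ∀ y ≥ x, ((x : ℝ) + 1) ^ 2 ≤ ph J y - ph J x →
    Osc s J K x y := by
  set η : ℝ := (1 / 4 : ℝ) ^ J / 50 with hη
  have hη0 : 0 < η := by positivity
  have hJ1 : (1 / 4 : ℝ) ^ J ≤ 1 := pow_le_one₀ (by norm_num) (by norm_num)
  obtain ⟨x0, h0⟩ := om_small hη0
  refine ⟨max (max x0 (X J)) (K + 1), fun x hx y hy h => ?_⟩
  simp only [ge_iff_le, max_le_iff] at hx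
  set N : ℕ := ⌈ph J x⌉₊ with hN
  have hp : 0 ≤ ph J x := sum_nonneg fun _ _ => g_nonneg _ _
  have hN1 : ph J x ≤ N := Nat.le_ceil _
  have hN2 : (N : ℝ) < ph J x + 1 := Nat.ceil_lt_add_one hp
  set M := K * (x + 1) with hM
  have hKx : (K : ℝ) + 1 ≤ x := by exact_mod_cast hx.2
  have hex : ∀ m, y ∈ {w | x ≤ w ∧ ((N + min m M : ℕ) : ℝ) ≤ ph J w} := fun m => ⟨hy, by
    have : ((min m M : ℕ) : ℝ) ≤ K * (x + 1) := by exact_mod_cast min_le_right m M
    push_cast at this ⊢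
    have h0 : (0 : ℝ) ≤ K := by positivity
    nlinarith⟩
  set z : ℕ → ℕ := fun m => sInf {w | x ≤ w ∧ ((N + min m M : ℕ) : ℝ) ≤ ph J w} with hz
  have hz1 : ∀ m, x ≤ z m ∧ ((N + min m M : ℕ) : ℝ) ≤ ph J (z m) := fun m =>
    Nat.sInf_mem ⟨y, hex m⟩
  have hz2 : ∀ m, ph J (z m) ≤ ((N + min m M : ℕ) : ℝ) + η := fun m => by
    rcases (hz1 m).1.eq_or_lt with h | h
    · rw [← h]; push_cast
      have : (0 : ℝ) ≤ min (m : ℝ) M := by positivity
      linarith
    · obtain ⟨w, hw⟩ : ∃ w, z m = w + 1 := ⟨z m - 1, by omega⟩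
      have : w ∉ {w | x ≤ w ∧ ((N + min m M : ℕ) : ℝ) ≤ ph J w} :=
        Nat.notMem_of_lt_sInf (by change w < z m; omega)
      simp only [Set.mem_ofPred_eq, not_and, not_le] at this
      have h1 := this (by omega)
      rw [hw, ph_succ]
      linarith [g_le J w, h0 w (by omega)]
  have hmono : Monotone z := fun a b hab => Nat.sInf_le ⟨(hz1 b).1, le_trans (by
    exact_mod_cast Nat.add_le_add_left (min_le_min_right M hab) N) (hz1 b).2⟩
  refine ⟨z, hmono, (hz1 0).1, Nat.sInf_le (hex _), fun m hm => ?_⟩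
  have a1 := (hz1 m).2
  have a2 := hz2 m
  have a3 := (hz1 (m + 1)).2
  have a4 := hz2 (m + 1)
  rw [min_eq_left (by omega)] at a1 a2 a3 a4
  have hzz := hmono (Nat.le_succ m)
  have hx1 : (1 : ℝ) ≤ z m := by exact_mod_cast (show 1 ≤ z m by have := (hz1 m).1; omega)
  have hsl : ∀ i, i ≤ J → ph (J - i) (z (m + 1)) - ph (J - i) (z m) ≤ 2 ∧
      (0 < i → ph (J - i) (z (m + 1)) - ph (J - i) (z m) ≤ η) := by
    intro i
    induction i with
    | zero => intro _; simp only [Nat.sub_zero, lt_irrefl, false_imp_iff, and_true]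
              push_cast at *; linarith
    | succ i ih =>
      intro hi
      have := slow (j := J - (i + 1)) hη0.le
        (((X_mono.monotone (by omega)).trans hx.1.2).trans (hz1 m).1) hzz
        (fun w hw => h0 w (by have := (hz1 m).1; omega))
        (by rw [show J - (i + 1) + 1 = J - i by omega]; nlinarith [(ih (by omega)).1])
      exact ⟨by linarith, fun _ => this⟩
  have h1 := s_est J hzz hη0.le (fun j hj => by
    have := (hsl (J - j) (by omega)).2 (by omega)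
    rwa [show J - (J - j) = j by omega] at this)
  have hc : ∀ (k w : ℕ), (k : ℝ) ≤ ph J w → ph J w ≤ k + η → |e J w - (-1) ^ k| ≤ 4 * η := by
    intro k w b1 b2
    have := Real.abs_cos_sub_cos_le (Real.pi * ph J w) (k * Real.pi)
    rw [Real.cos_nat_mul_pi, mul_comm (k : ℝ), ← mul_sub, abs_mul, abs_of_pos Real.pi_pos,
      abs_of_nonneg (sub_nonneg.2 b1)] at this
    exact this.trans (mul_le_mul Real.pi_le_four (by linarith) (by linarith) (by norm_num))
  have c1 := abs_le.1 (hc _ _ a1 a2)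
  have c2 := abs_le.1 (hc _ _ a3 a4)
  rw [← add_assoc, pow_succ] at c2
  have hq : (0 : ℝ) < (1 / 4 : ℝ) ^ J := by positivity
  have hη1 : η ≤ 1 / 50 := by linarith
  rw [abs_le] at h1
  rcases neg_one_pow_eq_or ℝ (N + m) with hh | hh <;> rw [hh] at c1 c2
  · refine le_abs.2 (Or.inr ?_); nlinarith [h1.1, h1.2]
  · refine le_abs.2 (Or.inl ?_); nlinarith [h1.1, h1.2]

lemma osc2 (J K : ℕ) : ∃ x0 : ℕ, ∀ x ≥ x0, ∀ y ≥ x, 3 * (1 / 4 : ℝ) ^ J ≤ |s y - s x| →
    Osc s J K x y := by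
  obtain ⟨x1, h1⟩ := osc1 J K
  set η : ℝ := (1 / 4 : ℝ) ^ J / 50 with hη
  have hη0 : 0 < η := by positivity
  have hJ1 : (1 / 4 : ℝ) ^ J ≤ 1 := pow_le_one₀ (by norm_num) (by norm_num)
  obtain ⟨x0, h0⟩ := om_small hη0
  refine ⟨max (max x0 (X J)) x1, fun x hx y hy h => h1 x (le_of_max_le_right hx) y hy ?_⟩
  simp only [ge_iff_le, max_le_iff] at hx
  by_contra hlt
  rw [not_le] at hlt
  have hx0 : (0 : ℝ) ≤ x := by positivity
  have hsl : ∀ i, i ≤ J → ph (J - i) y - ph (J - i) x < ((x : ℝ) + 1) ^ 2 ∧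
      (0 < i → ph (J - i) y - ph (J - i) x ≤ η) := by
    intro i
    induction i with
    | zero => intro _; simpa using hlt
    | succ i ih =>
      intro hi
      have := slow (j := J - (i + 1)) hη0.le ((X_mono.monotone (by omega)).trans hx.1.2) hy
        (fun w hw => h0 w (by omega))
        (by rw [show J - (i + 1) + 1 = J - i by omega]; exact (ih (by omega)).1)
      exact ⟨by nlinarith, fun _ => this⟩
  have := s_est' J hy hη0.le (fun j hj => by
    have := (hsl (J - j) (by omega)).2 (by omega)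
    rwa [show J - (J - j) = j by omega] at this)
  linarith

lemma not_cauchy (x : ℕ) : ∃ y ≥ x, 1 / 8 ≤ |s y - s x| := by
  obtain ⟨x1, h1⟩ := osc1 1 1
  set n := max (max x1 x) 1
  have hn : n ≤ X n := X_mono.id_le n
  obtain ⟨z, hz, a1, -, a3⟩ := h1 (X n) (by omega) _ (X_mono (Nat.lt_succ_self n)).le
    (two_ticks (X_mono.monotone (by omega)) (X_mono (Nat.lt_succ_self n)) (T_X 0 n) (T_X 0 _))
  have b := a3 0 (by omega)
  have hz1 := hz (Nat.zero_le 1)
  by_contra hc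
  push Not at hc
  have c1 := abs_lt.1 (hc (z 0) (by omega))
  have c2 := abs_lt.1 (hc (z 1) (by omega))
  rw [zero_add, le_abs] at b
  rcases b with b | b <;> linarith [c1.1, c1.2, c2.1, c2.2]

end Pool.Agent.H93.Vel
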