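import Mathlib
import Pool.Agent.H93.Vel1

set_option autoImplicit false

namespace Pool.Agent.H93.Vel

open Filter Topology Finset

def vl (s : ℕ → ℝ) (p : Bool × ℕ) : ℝ := (if p.1 then 1 else -1) * (s (p.2 + 1) - s p.2)

variable (s : ℕ → ℝ) (θ : ℕ ≃ Bool × ℕ)

def tm (ε : Bool) (ρ : ℕ) : ℕ := θ.symm (ε, ρ)

def dl (t1 t2 ρ : ℕ) : ℝ :=
  (if tm θ true ρ ∈ Ico t1 t2 then 1 else 0) - (if tm θ false ρ ∈ Ico t1 t2 then 1 else 0)

lemma rank_bd (t : ℕ) : ∃ R, ∀ i < t, (θ i).2 < R :=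
  ⟨(range t).sup (fun i => (θ i).2) + 1, fun _ hi =>
    Nat.lt_succ_of_le (le_sup (f := fun i => (θ i).2) (mem_range.2 hi))⟩

lemma tm_inj {ε ε' : Bool} {ρ ρ' : ℕ} (h : tm θ ε ρ = tm θ ε' ρ') : ρ = ρ' :=
  congrArg Prod.snd (θ.symm.injective h)

lemma sum_win (t1 t2 : ℕ) : ∃ R0, ∀ R ≥ R0,
    ∑ i ∈ Ico t1 t2, vl s (θ i) = ∑ ρ ∈ range R, dl θ t1 t2 ρ * (s (ρ + 1) - s ρ) := by
  obtain ⟨R0, h0⟩ := rank_bd θ t2
  refine ⟨R0, fun R hR => ?_⟩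
  have h1 : ∑ ρ ∈ range R, dl θ t1 t2 ρ * (s (ρ + 1) - s ρ) =
      ∑ p ∈ ((univ : Finset Bool) ×ˢ range R).filter (fun p => θ.symm p ∈ Ico t1 t2), vl s p := by
    rw [sum_filter, sum_product_right]
    refine sum_congr rfl fun ρ _ => ?_
    rw [Fintype.sum_bool, dl, tm, tm]
    simp only [vl]
    split_ifs <;> first | ring1 | contradiction
  rw [h1]
  refine sum_bij' (fun i _ => θ i) (fun p _ => θ.symm p) (fun i hi => ?_) (fun p hp => ?_)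
    (fun i _ => by simp) (fun p _ => by simp) (fun _ _ => rfl)
  · simp only [mem_filter, mem_product, mem_univ, true_and, mem_range, Equiv.symm_apply_apply]
    exact ⟨(h0 i (mem_Ico.1 hi).2).trans_le hR, hi⟩
  · exact (mem_filter.1 hp).2

lemma pieces (f : ℕ → ℝ) (B : Finset ℕ) (R : ℕ) {μ : ℝ} (hμ : 0 ≤ μ)
    (H : ∀ x y, x < y → y ≤ R → (∀ ρ ∈ B, x ≤ ρ → ρ + 1 < y → False) →
      |∑ ρ ∈ Ico x y, f ρ| ≤ μ) (y : ℕ) (hy : y ≤ R) :
    |∑ ρ ∈ range y, f ρ| ≤ (((B.filter (· + 1 < y)).card : ℝ) + 1) * μ := by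
  induction y using Nat.strong_induction_on with
  | _ y ih =>
  rcases Nat.eq_zero_or_pos y with rfl | hy0
  · simpa using hμ
  rcases (B.filter (· + 1 < y)).eq_empty_or_nonempty with h | h
  · rw [h, range_eq_Ico]
    simpa using H 0 y hy0 hy (fun ρ h1 _ h3 => by
      have : ρ ∈ B.filter (· + 1 < y) := mem_filter.2 ⟨h1, h3⟩
      simp [h] at this)
  · obtain ⟨b, hb, hmax⟩ := exists_max_image _ id h
    have hb' := mem_filter.1 hb
    have h1 := ih (b + 1) hb'.2 (by omega)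
    have h2 := H (b + 1) y hb'.2 hy (fun ρ h1 h2 h3 => by
      have := hmax ρ (mem_filter.2 ⟨h1, h3⟩)
      simp only [id] at this; omega)
    have h3 : (B.filter (· + 1 < b + 1)).card + 1 ≤ (B.filter (· + 1 < y)).card := by
      refine card_lt_card ⟨fun ρ hρ => ?_, fun hh => ?_⟩
      · have := mem_filter.1 hρ
        exact mem_filter.2 ⟨this.1, by omega⟩
      · have := (mem_filter.1 (hh hb)).2
        omega
    have h4 : ((B.filter (· + 1 < b + 1)).card : ℝ) + 1 ≤ (B.filter (· + 1 < y)).card := by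
      exact_mod_cast h3
    rw [← sum_range_add_sum_Ico f hb'.2.le]
    refine (abs_add_le _ _).trans ?_
    nlinarith

def chg (t : ℕ) (p : ℕ × Bool) : Prop := ¬(tm θ p.2 p.1 < t ↔ tm θ p.2 (p.1 + 1) < t)

open Classical in
noncomputable def Ch (t x : ℕ) : Finset (ℕ × Bool) := (range x ×ˢ univ).filter (chg θ t)

lemma mem_Ch {t x : ℕ} {p : ℕ × Bool} : p ∈ Ch θ t x ↔ p.1 < x ∧ chg θ t p := by
  simp [Ch]

lemma Ch_mono (t : ℕ) {x y : ℕ} (h : x ≤ y) : Ch θ t x ⊆ Ch θ t y := fun p hp => by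
  rw [mem_Ch] at *; exact ⟨by omega, hp.2⟩

lemma const_of {P : ℕ → Prop} {x y : ℕ} (h : ∀ ρ, x ≤ ρ → ρ + 1 < y → (P ρ ↔ P (ρ + 1))) :
    ∀ ρ, x ≤ ρ → ρ < y → (P ρ ↔ P x) := by
  intro ρ h1
  induction ρ, h1 using Nat.le_induction with
  | base => simp
  | succ ρ h1 ih => intro h2; rw [← h ρ h1 h2]; exact ih (by omega)

lemma part {t u v ρ1 ρ2 : ℕ} {ε : Bool} (h1 : ρ1 ∈ Ico u v) (h2 : ρ2 ∈ Ico u v)
    (a1 : tm θ ε ρ1 < t) (a2 : t ≤ tm θ ε ρ2) : ∃ ρ, u ≤ ρ ∧ ρ + 1 < v ∧ chg θ t (ρ, ε) := by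
  by_contra hc
  push Not at hc
  have := const_of (P := fun ρ => tm θ ε ρ < t) (x := u) (y := v)
    (fun ρ b1 b2 => not_not.1 (hc ρ b1 b2))
  rw [mem_Ico] at h1 h2
  have c1 := this ρ1 h1.1 h1.2
  have c2 := this ρ2 h2.1 h2.2
  omega

lemma part' {t u v ρ1 ρ2 : ℕ} {ε : Bool} (h1 : ρ1 ∈ Ico u v) (h2 : ρ2 ∈ Ico u v)
    (a1 : tm θ ε ρ1 < t) (a2 : t ≤ tm θ ε ρ2) : (Ch θ t u).card + 1 ≤ (Ch θ t v).card := by
  obtain ⟨ρ, b1, b2, b3⟩ := part θ h1 h2 a1 a2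
  refine card_lt_card ⟨Ch_mono θ t (by omega), fun hh => ?_⟩
  have := (mem_Ch θ).1 (hh ((mem_Ch θ).2 ⟨show (ρ, ε).1 < v by simp only; omega, b3⟩))
  simp only at this; omega

def Fill (ε : Bool) (u v t1 t2 : ℕ) : Prop :=
  ∀ ρ ∈ Ico u v, tm θ ε ρ ∈ Ico t1 t2 ∧ tm θ (!ε) ρ ∉ Ico t1 t2

variable {C : ℕ} (hC : ∀ t x, (Ch θ t x).card ≤ C)

include hC in
lemma extract (t1 t2 u v R : ℕ) {μ : ℝ} (hμ : 0 ≤ μ) (h : (2 * C + 3) * μ <
    |∑ ρ ∈ range R, (if ρ ∈ Ico u v then 0 else dl θ t1 t2 ρ) * (s (ρ + 1) - s ρ)|) :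
    ∃ x y ε, x < y ∧ (∀ ρ ∈ Ico x y, ρ ∉ Ico u v) ∧ Fill θ ε x y t1 t2 ∧ μ < |s y - s x| := by
  by_contra hc
  push Not at hc
  set B := ((Ch θ t1 R).image Prod.fst ∪ (Ch θ t2 R).image Prod.fst) ∪ {u - 1, v - 1} with hB
  have hcard : B.card ≤ 2 * C + 2 := by
    have a1 := card_union_le ((Ch θ t1 R).image Prod.fst ∪ (Ch θ t2 R).image Prod.fst)
      {u - 1, v - 1}
    have a2 := card_union_le ((Ch θ t1 R).image Prod.fst) ((Ch θ t2 R).image Prod.fst)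
    have a3 := (card_image_le (s := Ch θ t1 R) (f := Prod.fst)).trans (hC _ _)
    have a4 := (card_image_le (s := Ch θ t2 R) (f := Prod.fst)).trans (hC _ _)
    have a5 := card_le_two (a := u - 1) (b := v - 1)
    rw [hB]; omega
  have := pieces (fun ρ => (if ρ ∈ Ico u v then 0 else dl θ t1 t2 ρ) * (s (ρ + 1) - s ρ)) B R hμ
    (fun x y hxy hy hn => ?_) R le_rfl
  · have h2 : ((B.filter (· + 1 < R)).card : ℝ) ≤ 2 * C + 2 := by
      exact_mod_cast (card_filter_le _ _).trans hcard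
    nlinarith
  have k1 : ∀ t, t = t1 ∨ t = t2 → ∀ ε, ∀ ρ ∈ Ico x y, (tm θ ε ρ < t ↔ tm θ ε x < t) := by
    intro t ht ε ρ hρ
    refine const_of (P := fun ρ => tm θ ε ρ < t) (fun ρ b1 b2 => ?_) ρ (mem_Ico.1 hρ).1
      (mem_Ico.1 hρ).2
    by_contra hch
    refine hn ρ ?_ b1 b2
    have : ρ ∈ (Ch θ t R).image Prod.fst :=
      mem_image.2 ⟨(ρ, ε), (mem_Ch θ).2 ⟨by simp only; omega, hch⟩, rfl⟩
    rcases ht with rfl | rfl <;> simp only [hB, mem_union] <;> tauto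
  have k2 : ∀ ε, ∀ ρ ∈ Ico x y, (tm θ ε ρ ∈ Ico t1 t2 ↔ tm θ ε x ∈ Ico t1 t2) := by
    intro ε ρ hρ
    have a1 := k1 t1 (Or.inl rfl) ε ρ hρ
    have a2 := k1 t2 (Or.inr rfl) ε ρ hρ
    simp only [mem_Ico]; omega
  have k3 : ∀ ρ ∈ Ico x y, (ρ ∈ Ico u v ↔ x ∈ Ico u v) := by
    intro ρ hρ
    refine const_of (P := fun ρ => ρ ∈ Ico u v) (fun ρ b1 b2 => ?_) ρ (mem_Ico.1 hρ).1
      (mem_Ico.1 hρ).2
    have := mt (fun hh => hn ρ hh b1 b2) not_false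
    simp only [hB, mem_union, mem_insert, mem_singleton, not_or] at this
    simp only [mem_Ico]; omega
  rw [sum_congr rfl (g := fun ρ => (if x ∈ Ico u v then 0 else dl θ t1 t2 x) * (s (ρ + 1) - s ρ))
    (fun ρ hρ => by simp only [dl, k2 _ ρ hρ, k3 ρ hρ]), ← mul_sum, sum_Ico_sub _ hxy.le]
  by_cases c0 : x ∈ Ico u v
  · simpa [c0] using hμ
  have c1 : ∀ ρ ∈ Ico x y, ρ ∉ Ico u v := fun ρ hρ => by rw [k3 ρ hρ]; exact c0
  rw [if_neg c0, dl]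
  by_cases c2 : tm θ true x ∈ Ico t1 t2 <;> by_cases c3 : tm θ false x ∈ Ico t1 t2 <;>
    simp only [c2, c3, if_true, if_false]
  · simpa using hμ
  · simpa using hc x y true hxy c1 (fun ρ hρ => by rw [k2 _ ρ hρ, k2 _ ρ hρ]; exact ⟨c2, c3⟩)
  · rw [zero_sub, neg_one_mul, abs_neg]
    exact hc x y false hxy c1 (fun ρ hρ => by rw [k2 _ ρ hρ, k2 _ ρ hρ]; exact ⟨c3, c2⟩)
  · simpa using hμ

lemma win (ε : Bool) {u v : ℕ} (h : u < v) : ∃ a ∈ Ico u v, ∃ b ∈ Ico u v,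
    ∀ ρ ∈ Ico u v, tm θ ε a ≤ tm θ ε ρ ∧ tm θ ε ρ ≤ tm θ ε b := by
  obtain ⟨a, ha, h1⟩ := exists_min_image (Ico u v) (tm θ ε) (nonempty_Ico.2 h)
  obtain ⟨b, hb, h2⟩ := exists_max_image (Ico u v) (tm θ ε) (nonempty_Ico.2 h)
  exact ⟨a, ha, b, hb, fun ρ hρ => ⟨h1 ρ hρ, h2 ρ hρ⟩⟩

def St' (J r T0 R0 : ℕ) : Prop := ∃ u v ε t1 t2, u < v ∧ 3 * (1 / 4 : ℝ) ^ J ≤ |s v - s u| ∧
  Fill θ ε u v t1 t2 ∧ (∀ t, t1 ≤ t → t ≤ t2 → r ≤ (Ch θ t u).card) ∧ T0 ≤ t1 ∧ R0 ≤ u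

def St (C J r h T0 R0 : ℕ) : Prop := ∃ x u v ε t1 t2, x ≤ u ∧ u < v ∧
  3 * (1 / 4 : ℝ) ^ J ≤ |s v - s u| ∧ Fill θ ε u v t1 t2 ∧
  (∀ ε', ∀ ρ < x, tm θ ε' ρ ∉ Ico t1 t2) ∧
  (∀ t, t1 ≤ t → t ≤ t2 → r ≤ (Ch θ t x).card ∧ (Ch θ t v).card + h ≤ C) ∧ T0 ≤ t1 ∧ R0 ≤ x

lemma St.mono {C J r h T0 R0 T1 R1 : ℕ} (H : St s θ C J r h T0 R0) (a : T1 ≤ T0) (b : R1 ≤ R0) :
    St s θ C J r h T1 R1 := by
  obtain ⟨x, u, v, ε, t1, t2, h1, h2, h3, h4, h5, h6, h7, h8⟩ := H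
  exact ⟨x, u, v, ε, t1, t2, h1, h2, h3, h4, h5, h6, a.trans h7, b.trans h8⟩

variable (hO : ∀ J K : ℕ, ∃ x0 : ℕ, ∀ x ≥ x0, ∀ y ≥ x, 3 * (1 / 4 : ℝ) ^ J ≤ |s y - s x| →
    Osc s J K x y)

include hC hO in
lemma stepA (J : ℕ) : ∃ R1, ∀ r T0 R0, R1 ≤ R0 → St' s θ J r T0 R0 →
    St s θ C (J + 1) r 0 T0 R0 := by
  obtain ⟨R1, h1⟩ := hO J (2 * C + 1)
  refine ⟨R1, fun r T0 R0 hR ⟨u, v, ε, t1, t2, h2, h3, h4, h5, h6, h7⟩ => ?_⟩
  obtain ⟨z, hz, z1, z2, z3⟩ := h1 u (by omega) v h2.le h3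
  set M := (2 * C + 1) * (u + 1) with hM
  have hq : (0 : ℝ) < (1 / 4 : ℝ) ^ J := by positivity
  have zlt : ∀ m < M, z m < z (m + 1) := fun m hm =>
    lt_of_le_of_ne (hz (Nat.le_succ m)) (fun hh => by
      have := z3 m hm
      rw [← hh, sub_self, abs_zero] at this; linarith)
  have zsub : ∀ m < M, ∀ ρ ∈ Ico (z m) (z (m + 1)), ρ ∈ Ico u v := fun m hm ρ hρ => by
    have := hz (Nat.zero_le m)
    have := hz (show m + 1 ≤ M from hm)
    rw [mem_Ico] at *; omega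
  choose! a ha b hb hab using fun m (hm : m < M) => win θ ε (zlt m hm)
  have : ∃ m < M, ∀ ε', ∀ ρ < u, tm θ ε' ρ ∉ Ico (tm θ ε (a m)) (tm θ ε (b m) + 1) := by
    by_contra hc
    push Not at hc
    choose! e1 ρ1 k1 k2 using hc
    obtain ⟨p, -, hp⟩ := exists_lt_card_fiber_of_mul_lt_card_of_maps_to (s := range M)
      (t := range u ×ˢ (univ : Finset Bool)) (f := fun m => (ρ1 m, e1 m)) (n := C)
      (fun m hm => by simpa using k1 m (mem_range.1 hm))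
      (by simp only [card_product, card_range, card_univ, Fintype.card_bool, hM]; nlinarith)
    have k3 : ∀ m ∈ (range M).filter (fun m => (ρ1 m, e1 m) = p), ∃ ρ, z m ≤ ρ ∧
        ρ + 1 < z (m + 1) ∧ chg θ (tm θ p.2 p.1) (ρ, ε) := by
      intro m hm
      obtain ⟨m1, rfl⟩ := mem_filter.1 hm
      rw [mem_range] at m1
      have c1 := mem_Ico.1 (k2 m m1)
      have c2 : tm θ ε (a m) ≠ tm θ (e1 m) (ρ1 m) := fun hh => by
        have := tm_inj θ hh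
        have := k1 m m1
        have := mem_Ico.1 (zsub m m1 _ (ha m m1))
        omega
      exact part θ (ha m m1) (hb m m1) (by simp only; omega) (by simp only; omega)
    choose! ρ2 j1 j2 j3 using k3
    refine absurd (hC (tm θ p.2 p.1) v) (not_le.2 (hp.trans_le ?_))
    refine card_le_card_of_injOn (fun m => (ρ2 m, ε)) (fun m hm => ?_) (fun m hm m' hm' hh => ?_)
    · have hm1 := mem_coe.1 hm
      refine mem_coe.2 ((mem_Ch θ).2 ⟨?_, j3 m hm1⟩)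
      have := hz (show m + 1 ≤ M from mem_range.1 (mem_filter.1 hm1).1)
      have := j2 m hm1
      simp only; omega
    · have e := congrArg Prod.fst hh
      have a1 := j1 m hm
      have a2 := j2 m hm
      have a3 := j1 m' hm'
      have a4 := j2 m' hm'
      simp only at e
      have b1 := fun hh => hz (show m + 1 ≤ m' from hh)
      have b2 := fun hh => hz (show m' + 1 ≤ m from hh)
      omega
  obtain ⟨m, hm, hgood⟩ := this
  have c1 := mem_Ico.1 (h4 _ (zsub m hm _ (ha m hm))).1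
  have c2 := mem_Ico.1 (h4 _ (zsub m hm _ (hb m hm))).1
  refine ⟨u, z m, z (m + 1), ε, _, _, z1.trans (hz (Nat.zero_le m)), zlt m hm, ?_,
    fun ρ hρ => ⟨?_, fun hh => (h4 ρ (zsub m hm ρ hρ)).2 ?_⟩, hgood,
    fun t b1 b2 => ⟨h5 t (by omega) (by omega), hC _ _⟩, by omega, h7⟩
  · have := z3 m hm
    rw [pow_succ]; linarith
  · have := hab m hm ρ hρ
    rw [mem_Ico]; omega
  · rw [mem_Ico] at *; omega

variable {L : ℝ} (hL : Tendsto (fun n => ∑ i ∈ range n, vl s (θ i)) atTop (𝓝 L))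

include hC hL in
lemma stepB (J : ℕ) : ∃ J' T1, ∀ r h T0 R0, T1 ≤ T0 → St s θ C J r h T0 R0 →
    St s θ C J' r (h + 1) T0 R0 ∨ St' s θ J' (r + 1) T0 R0 := by
  have hq : (0 : ℝ) < (1 / 4 : ℝ) ^ J := by positivity
  obtain ⟨J', hJ'⟩ := exists_pow_lt_of_lt_one
    (show 0 < 2 * (1 / 4 : ℝ) ^ J / ((2 * C + 3) * 3) by positivity)
    (show (1 / 4 : ℝ) < 1 by norm_num)
  rw [lt_div_iff₀ (by positivity)] at hJ'
  obtain ⟨T1, hT⟩ := Metric.tendsto_atTop.1 hL ((1 / 4 : ℝ) ^ J / 2) (by positivity)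
  refine ⟨J', T1, fun r h T0 R0 hT0 ⟨x, u, v, ε, t1, t2, h1, h2, h3, h4, h5, h6, h7, h8⟩ => ?_⟩
  obtain ⟨a, ha, b, hb, hab⟩ := win θ ε h2
  have c1 := mem_Ico.1 (h4 a ha).1
  have c2 := mem_Ico.1 (h4 b hb).1
  have c3 := (hab b hb).1
  set A := tm θ ε a
  set B := tm θ ε b
  obtain ⟨R2, hR2⟩ := sum_win s θ A (B + 1)
  have e1 := hR2 (max R2 v) (le_max_left _ _)
  rw [sum_Ico_eq_sub _ (by omega)] at e1
  have d1 := hT A (by omega)
  have d2 := hT (B + 1) (by omega)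
  rw [Real.dist_eq, abs_lt] at d1 d2
  have e2 : ∑ ρ ∈ range (max R2 v), dl θ A (B + 1) ρ * (s (ρ + 1) - s ρ) =
      ∑ ρ ∈ range (max R2 v), (if ρ ∈ Ico u v then 0 else dl θ A (B + 1) ρ) * (s (ρ + 1) - s ρ) +
      (if ε then 1 else -1) * (s v - s u) := by
    have e3 := sum_ite_mem (range (max R2 v)) (Ico u v)
      (fun ρ => (if ε then 1 else -1) * (s (ρ + 1) - s ρ))
    rw [inter_eq_right.2 (show Ico u v ⊆ range (max R2 v) from fun ρ hρ => by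
        rw [mem_Ico] at hρ; rw [mem_range]; omega)] at e3
    rw [← sum_Ico_sub s h2.le, mul_sum, ← e3, ← sum_add_distrib]
    refine sum_congr rfl fun ρ hρ => ?_
    by_cases k : ρ ∈ Ico u v
    · have k1 : tm θ ε ρ ∈ Ico A (B + 1) := by
        have := hab ρ k
        rw [mem_Ico]; omega
      have k2 : tm θ (!ε) ρ ∉ Ico A (B + 1) := fun hh => (h4 ρ k).2 (by rw [mem_Ico] at *; omega)
      rw [if_pos k, if_pos k, dl]
      cases ε
      · rw [Bool.not_false] at k2; rw [if_pos k1, if_neg k2]; simp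
      · rw [Bool.not_true] at k2; rw [if_pos k1, if_neg k2]; simp
    · simp [k]
  obtain ⟨y, w, ε', k1, k2, k3, k4⟩ := extract s θ hC A (B + 1) u v (max R2 v)
    (μ := 3 * (1 / 4 : ℝ) ^ J') (by positivity) (by
      rw [← e1] at e2
      rw [lt_abs]
      rw [le_abs] at h3
      cases ε <;> simp only [if_true, Bool.false_eq_true, if_false] at e2 <;>
      rcases h3 with h3 | h3
      · left; linarith
      · right; linarith
      · right; linarith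
      · left; linarith)
  have k5 : Fill θ ε' y w (A + 1) B := fun ρ hρ => by
    have n1 : tm θ ε' ρ ≠ A := fun hh => k2 ρ hρ (by rw [tm_inj θ hh]; exact ha)
    have n2 : tm θ ε' ρ ≠ B := fun hh => k2 ρ hρ (by rw [tm_inj θ hh]; exact hb)
    have n3 := k3 ρ hρ
    simp only [mem_Ico] at n3 ⊢; omega
  have k6 : ∀ t, A + 1 ≤ t → t ≤ B → (Ch θ t u).card + 1 ≤ (Ch θ t v).card :=
    fun t b1 b2 => part' θ ha hb b1 b2
  have k7 : x ≤ y := by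
    by_contra hh
    have := (k3 y (mem_Ico.2 ⟨le_rfl, k1⟩)).1
    exact h5 ε' y (by omega) (by rw [mem_Ico] at *; omega)
  by_cases hw : w ≤ u
  · refine Or.inl ⟨x, y, w, ε', A + 1, B, k7, k1, k4.le, k5, fun e ρ hρ hh => h5 e ρ hρ
      (by rw [mem_Ico] at *; omega), fun t b1 b2 => ?_, by omega, h8⟩
    have := h6 t (by omega) (by omega)
    have := k6 t b1 b2
    have := card_le_card (Ch_mono θ t hw)
    omega
  · have hy : v ≤ y := by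
      by_contra hh
      exact k2 (max u y) (by rw [mem_Ico]; omega) (by rw [mem_Ico]; omega)
    refine Or.inr ⟨y, w, ε', A + 1, B, k1, k4.le, k5, fun t b1 b2 => ?_, by omega, by omega⟩
    have := h6 t (by omega) (by omega)
    have := k6 t b1 b2
    have := card_le_card (Ch_mono θ t hy)
    have := card_le_card (Ch_mono θ t h1)
    omega

include hC in
lemma St.bd {J r h T0 R0 : ℕ} (H : St s θ C J r h T0 R0) : r ≤ C ∧ h ≤ C := by
  obtain ⟨x, u, v, ε, t1, t2, -, h2, -, h4, -, h6, -, -⟩ := H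
  have := mem_Ico.1 (h4 u (mem_Ico.2 ⟨le_rfl, h2⟩)).1
  have := h6 t1 le_rfl (by omega)
  have := hC t1 x
  omega

include hC hL hO in
lemma no_St (n : ℕ) : ∀ r h, (C + 1) ^ 2 ≤ r * (C + 1) + h + n → ∀ J, ∃ T0 R0,
    ¬ St s θ C J r h T0 R0 := by
  induction n with
  | zero =>
    refine fun r h hh J => ⟨0, 0, fun H => ?_⟩
    have := H.bd s θ hC
    nlinarith [this.1, this.2]
  | succ n ih =>
    intro r h hh J
    by_cases hc : h ≤ C
    swap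
    · exact ⟨0, 0, fun H => hc (H.bd s θ hC).2⟩
    obtain ⟨J', T1, h1⟩ := stepB s θ hC hL J
    obtain ⟨T2, R2, h2⟩ := ih r (h + 1) (by omega) J'
    obtain ⟨R1, h3⟩ := stepA s θ hC hO J'
    obtain ⟨T3, R3, h4⟩ := ih (r + 1) 0 (by nlinarith) (J' + 1)
    refine ⟨T1 + T2 + T3, R1 + R2 + R3, fun H => ?_⟩
    rcases h1 _ _ _ _ (by omega) H with k | k
    · exact h2 (k.mono s θ (by omega) (by omega))
    · exact h4 ((h3 _ _ _ (by omega) k).mono s θ (by omega) (by omega))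

include hC hL hO in
theorem lim_zero : L = 0 := by
  by_contra hne
  have hpos : 0 < |L| := abs_pos.2 hne
  obtain ⟨J, hJ⟩ := exists_pow_lt_of_lt_one
    (show 0 < |L| / 2 / ((2 * C + 3) * 3) by positivity) (show (1 / 4 : ℝ) < 1 by norm_num)
  rw [lt_div_iff₀ (by positivity)] at hJ
  obtain ⟨R1, h1⟩ := stepA s θ hC hO J
  obtain ⟨T0, R0, h2⟩ := no_St s θ hC hO hL ((C + 1) ^ 2) 0 0 (by omega) (J + 1)
  obtain ⟨R2, h3⟩ := rank_bd θ T0
  obtain ⟨T1, hT⟩ := Metric.tendsto_atTop.1 hL (|L| / 2) (by positivity)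
  set R := R0 + R1 + R2
  set t := T0 + T1 + ((univ ×ˢ range R).sup fun p : Bool × ℕ => tm θ p.1 p.2) + 1 with ht
  have h4 : ∀ ε, ∀ ρ < R, tm θ ε ρ < t := fun ε ρ hρ => by
    have := le_sup (f := fun p : Bool × ℕ => tm θ p.1 p.2) (s := univ ×ˢ range R) (b := (ε, ρ))
      (by simpa using hρ)
    simp only at this; omega
  obtain ⟨R3, h5⟩ := sum_win s θ 0 t
  have h6 := hT t (by omega)
  rw [range_eq_Ico, h5 R3 le_rfl, Real.dist_eq, abs_sub_comm] at h6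
  obtain ⟨x, y, ε, k1, -, k3, k4⟩ := extract s θ hC 0 t 0 0 R3
    (μ := 3 * (1 / 4 : ℝ) ^ J) (by positivity) (by
      have := abs_sub_abs_le_abs_sub L (∑ ρ ∈ range R3, dl θ 0 t ρ * (s (ρ + 1) - s ρ))
      simp only [Ico_self, notMem_empty, if_false]
      linarith)
  have k5 : R ≤ x := by
    by_contra hh
    exact (k3 x (mem_Ico.2 ⟨le_rfl, k1⟩)).2 (mem_Ico.2 ⟨Nat.zero_le _, h4 _ x (by omega)⟩)
  refine h2 ((h1 0 T0 R (by omega) ⟨x, y, ε, T0, t, k1, k4.le, fun ρ hρ => ?_,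
    fun _ _ _ => Nat.zero_le _, le_rfl, k5⟩).mono s θ le_rfl (by omega))
  have a1 := k3 ρ hρ
  have a2 := h3 (tm θ ε ρ)
  simp only [tm, Equiv.apply_symm_apply] at a2
  simp only [mem_Ico, tm] at a1 hρ ⊢
  omega

end Pool.Agent.H93.Vel
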