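import Mathlib
import Pool.Agent.H93.Vel2

set_option autoImplicit false

namespace Pool.Agent.H93.Vel

open Filter Topology Finset

def Conv (b : ℕ → ℝ) : Prop := ∃ M : ℝ, Tendsto (fun n => ∑ i ∈ range n, b i) atTop (𝓝 M)

def dif (u : ℕ → ℝ) : ℕ → ℝ
  | 0 => u 0
  | n + 1 => u (n + 1) - u n

lemma sum_dif (u : ℕ → ℝ) (n : ℕ) : ∑ i ∈ range (n + 1), dif u i = u n := by
  induction n with
  | zero => simp [dif]
  | succ n ih => rw [sum_range_succ, ih, dif]; ring

noncomputable def ev (n : ℕ) : ZeroAtInftyContinuousMap ℕ ℝ →L[ℝ] ℝ :=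
  LinearMap.mkContinuous { toFun := fun u => u n, map_add' := fun _ _ => rfl, map_smul' := fun _ _ => rfl } 1
    (fun u => by rw [one_mul]; exact u.toBCF.norm_coe_le_norm n)

noncomputable def evd : ℕ → ZeroAtInftyContinuousMap ℕ ℝ →L[ℝ] ℝ
  | 0 => ev 0
  | n + 1 => ev (n + 1) - ev n

lemma evd_apply (n : ℕ) (u : ZeroAtInftyContinuousMap ℕ ℝ) : evd n u = dif u n := by
  cases n <;> rfl

lemma dif_ite (n m : ℕ) (c : ℝ) : dif (fun k => if k = n then c else 0) m =
    (if m = n then c else 0) - (if m = n + 1 then c else 0) := by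
  cases m <;> simp [dif]

lemma dif_sum (A : Finset ℕ) (f : ℕ → ℕ → ℝ) (m : ℕ) :
    dif (fun k => ∑ n ∈ A, f n k) m = ∑ n ∈ A, dif (f n) m := by
  cases m <;> simp [dif]

lemma bound (π : Equiv.Perm ℕ) (h : ∀ b, Conv b → Conv fun i => b (π i)) :
    ∃ C : ℕ, ∀ (t : ℕ) (A : Finset ℕ),
      (∀ n ∈ A, ¬(π.symm n < t ↔ π.symm (n + 1) < t)) → A.card ≤ C := by
  obtain ⟨C, hC⟩ := banach_steinhaus (g := fun t : ℕ => ∑ i ∈ range t, evd (π i)) (fun u => by
    obtain ⟨M, hM⟩ := h (dif u) ⟨0, (tendsto_add_atTop_iff_nat 1).1 (by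
      simp only [sum_dif]
      rw [← Nat.cofinite_eq_atTop, ← cocompact_eq_cofinite]
      exact u.zero_at_infty')⟩
    obtain ⟨C, hC⟩ := hM.norm.bddAbove_range
    exact ⟨C, fun t => by
      simpa only [_root_.sum_apply, evd_apply] using hC ⟨t, rfl⟩⟩)
  refine ⟨⌈C⌉₊, fun t A hA => ?_⟩
  set w : ℕ → ℝ := fun n => (if π.symm n < t then 1 else 0) - (if π.symm (n + 1) < t then 1 else 0)
  set u : ZeroAtInftyContinuousMap ℕ ℝ :=
    ⟨⟨fun k => ∑ n ∈ A, if k = n then w n else 0, continuous_of_discreteTopology⟩, by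
      rw [cocompact_eq_cofinite]
      refine tendsto_const_nhds.congr' ?_
      filter_upwards [A.eventually_cofinite_notMem] with k hk
      simp [hk]⟩
  have hu : ‖u‖ ≤ 1 := (BoundedContinuousFunction.norm_le (f := u.toBCF) zero_le_one).2 fun k => by
    change ‖∑ n ∈ A, if k = n then w n else 0‖ ≤ 1
    simp only [sum_ite_eq, w]
    split_ifs <;> simp
  have h1 : (∑ i ∈ range t, evd (π i)) u = A.card := by
    simp only [_root_.sum_apply, evd_apply]
    change ∑ i ∈ range t, dif (fun k => ∑ n ∈ A, if k = n then w n else 0) (π i) = _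
    simp only [dif_sum, dif_ite]
    rw [sum_comm, card_eq_sum_ones, Nat.cast_sum]
    refine sum_congr rfl fun n hn => ?_
    have := hA n hn
    simp only [sum_sub_distrib, ← Equiv.eq_symm_apply, sum_ite_eq', mem_range, w]
    split_ifs <;> simp_all
  have h2 := (∑ i ∈ range t, evd (π i)).le_of_opNorm_le_of_le (hC t) hu
  rw [h1, mul_one, Real.norm_natCast] at h2
  exact_mod_cast h2.trans (Nat.le_ceil C)

noncomputable def hh : ℕ → ℕ
  | 0 => 0
  | n + 1 => (not_cauchy (hh n)).choose + 1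

lemma hh_mono : StrictMono hh := strictMono_nat_of_lt_succ fun n =>
  Nat.lt_succ_of_le (not_cauchy (hh n)).choose_spec.1

noncomputable def pos (p : Bool × ℕ) : ℕ :=
  (if p.1 then hh (idx hh p.2) else hh (idx hh p.2 + 1)) + p.2

noncomputable def sg (i : ℕ) : ℕ := pos (Equiv.boolProdNatEquivNat.symm i)

lemma sg0 (ρ : ℕ) : sg (2 * ρ) = hh (idx hh ρ + 1) + ρ := by
  simp [sg, pos, Equiv.boolProdNatEquivNat]

lemma sg1 (ρ : ℕ) : sg (2 * ρ + 1) = hh (idx hh ρ) + ρ := by
  simp [sg, pos, Equiv.boolProdNatEquivNat]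

lemma idx_succ (ρ : ℕ) : idx hh (ρ + 1) = idx hh ρ ∨
    (idx hh (ρ + 1) = idx hh ρ + 1 ∧ hh (idx hh ρ + 1) = ρ + 1) := by
  have a1 := idx_le (h := hh) rfl ρ
  have a2 := idx_lt hh_mono ρ
  have a3 := hh_mono (Nat.lt_succ_self (idx hh ρ + 1))
  rcases lt_or_ge (ρ + 1) (hh (idx hh ρ + 1)) with h | h
  · exact Or.inl (idx_eq hh_mono rfl (by omega) h)
  · exact Or.inr ⟨idx_eq hh_mono rfl h (by simp only [Nat.succ_eq_add_one] at a3; omega), by omega⟩

lemma sum_sg (b : ℕ → ℝ) (ρ : ℕ) : ∑ i ∈ range (2 * ρ), b (sg i) =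
    ∑ i ∈ range (hh (idx hh ρ) + ρ), b i + ∑ i ∈ range (hh (idx hh ρ + 1) + ρ), b i -
      ∑ i ∈ range (hh (idx hh ρ) + hh (idx hh ρ + 1)), b i := by
  induction ρ with
  | zero =>
    have : idx hh 0 = 0 := idx_eq hh_mono rfl le_rfl (hh_mono (Nat.lt_succ_self 0))
    have h0 : hh 0 = 0 := rfl
    simp [this, h0]
  | succ ρ ih =>
    rw [mul_add, mul_one, sum_range_succ, sum_range_succ, ih, sg0, sg1]
    rcases idx_succ ρ with h | ⟨h, h'⟩
    · rw [h, ← add_assoc, ← add_assoc, sum_range_succ, sum_range_succ]; ring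
    · rw [h, h', add_comm (hh (idx hh ρ + 1 + 1)) (ρ + 1), ← add_assoc (hh (idx hh ρ)),
        ← add_assoc (ρ + 1) ρ, sum_range_succ, sum_range_succ]; ring

lemma idx_hh (n : ℕ) : idx hh (hh n) = n :=
  idx_eq hh_mono rfl le_rfl (hh_mono (Nat.lt_succ_self n))

lemma sum_sg' (b : ℕ → ℝ) (n : ℕ) :
    ∑ i ∈ range (2 * hh n), b (sg i) = ∑ i ∈ range (2 * hh n), b i := by
  rw [sum_sg, idx_hh, add_comm (hh (n + 1)), two_mul]; ring

lemma sg_bij : Function.Bijective sg := by
  have key : ∀ j n, j < 2 * hh n → ((range (2 * hh n)).filter (fun i => sg i = j)).card = 1 := by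
    intro j n hj
    have := sum_sg' (fun i => if i = j then 1 else 0) n
    rw [sum_ite_eq', if_pos (mem_range.2 hj), sum_boole] at this
    exact_mod_cast this
  refine ⟨fun a b hab => ?_, fun j => ?_⟩
  · have h := hh_mono.id_le (a + b + sg a + 1)
    simp only [id] at h
    exact card_le_one.1 (key (sg a) (a + b + sg a + 1) (by omega)).le a
      (by simp only [mem_filter, mem_range, and_true]; omega) b
      (mem_filter.2 ⟨mem_range.2 (by omega), hab.symm⟩)
  · have h := hh_mono.id_le (j + 1)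
    simp only [id] at h
    obtain ⟨i, hi⟩ := card_pos.1 (by rw [key j (j + 1) (by omega)]; exact one_pos)
    exact ⟨i, (mem_filter.1 hi).2⟩

noncomputable def σ : Equiv.Perm ℕ := Equiv.ofBijective sg sg_bij

lemma even_odd {f : ℕ → ℝ} {M : ℝ} (h0 : Tendsto (fun n => f (2 * n)) atTop (𝓝 M))
    (h1 : Tendsto (fun n => f (2 * n + 1)) atTop (𝓝 M)) : Tendsto f atTop (𝓝 M) := by
  rw [Metric.tendsto_atTop] at *
  intro ε hε
  obtain ⟨a, ha⟩ := h0 ε hε
  obtain ⟨b, hb⟩ := h1 ε hε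
  refine ⟨2 * (a + b), fun n hn => ?_⟩
  rcases Nat.even_or_odd' n with ⟨k, rfl | rfl⟩
  exacts [ha k (by omega), hb k (by omega)]

lemma conv_σ (b : ℕ → ℝ) (h : Conv b) : Conv fun i => b (σ i) := by
  obtain ⟨M, hM⟩ := h
  have t0 : ∀ f : ℕ → ℕ, Tendsto (fun ρ => f ρ + ρ) atTop atTop := fun f =>
    tendsto_atTop_mono (fun ρ => Nat.le_add_left _ _) tendsto_id
  have t1 : Tendsto (fun ρ => hh (idx hh ρ) + hh (idx hh ρ + 1)) atTop atTop :=
    tendsto_atTop_mono (fun ρ => (idx_lt hh_mono ρ).le.trans (Nat.le_add_left _ _)) tendsto_id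
  have t2 : Tendsto (fun ρ => ∑ i ∈ range (2 * ρ), b (sg i)) atTop (𝓝 (M + M - M)) := by
    simp only [sum_sg]
    exact ((hM.comp (t0 _)).add (hM.comp (t0 _))).sub (hM.comp t1)
  have t3 : Tendsto b atTop (𝓝 0) := by
    simpa [sum_range_succ] using ((tendsto_add_atTop_iff_nat 1).2 hM).sub hM
  refine ⟨_, even_odd t2 ?_⟩
  simp only [sum_range_succ]
  have := t2.add (t3.comp (t0 fun ρ => hh (idx hh ρ + 1)))
  rw [add_zero] at this
  refine this.congr fun ρ => ?_
  rw [Function.comp_apply, ← sg0]; rfl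

noncomputable def a (i : ℕ) : ℝ := vl s (Equiv.boolProdNatEquivNat.symm (σ.symm i))

lemma a_sg (i : ℕ) : a (sg i) = vl s (Equiv.boolProdNatEquivNat.symm i) := by
  change a (σ i) = _; simp [a]

lemma a0 (ρ : ℕ) : a (sg (2 * ρ)) = -(s (ρ + 1) - s ρ) := by
  simp [a_sg, vl, Equiv.boolProdNatEquivNat]

lemma a1 (ρ : ℕ) : a (sg (2 * ρ + 1)) = s (ρ + 1) - s ρ := by
  simp [a_sg, vl, Equiv.boolProdNatEquivNat]

lemma a_even (ρ : ℕ) : ∑ i ∈ range (2 * ρ), a (sg i) = 0 := by
  induction ρ with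
  | zero => rfl
  | succ ρ ih => rw [mul_add, mul_one, sum_range_succ, sum_range_succ, ih, a0, a1]; ring

lemma a_σ : Tendsto (fun n => ∑ i ∈ range n, a (σ i)) atTop (𝓝 0) := by
  change Tendsto (fun n => ∑ i ∈ range n, a (sg i)) atTop (𝓝 0)
  refine even_odd (by simp [a_even]) ?_
  simp only [sum_range_succ, a_even, a0, zero_add]
  simpa using c_tendsto.neg

lemma a_div : ¬ Conv a := by
  rintro ⟨M, hM⟩
  have h1 : ∀ n ρ, hh n ≤ ρ → ρ < hh (n + 1) →
      ∑ i ∈ range (hh n + ρ), a i = s ρ - s (hh n) := by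
    intro n ρ h
    induction ρ, h using Nat.le_induction with
    | base => intro _; rw [← two_mul, ← sum_sg', a_even, sub_self]
    | succ ρ h ih =>
      intro h2
      have := a1 ρ
      rw [sg1, idx_eq hh_mono rfl h (by omega)] at this
      rw [← add_assoc, sum_range_succ, ih (by omega), this]; ring
  obtain ⟨N, hN⟩ := Metric.tendsto_atTop.1 hM (1 / 16) (by norm_num)
  have h2 := hh_mono.id_le N
  simp only [id] at h2
  obtain ⟨b1, b2⟩ := (not_cauchy (hh N)).choose_spec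
  have c1 := hN (hh N + hh N) (by omega)
  have c2 := hN (hh N + (not_cauchy (hh N)).choose) (by omega)
  rw [h1 N _ le_rfl (hh_mono (Nat.lt_succ_self N))] at c1
  rw [h1 N _ b1 (Nat.lt_succ_self _)] at c2
  rw [Real.dist_eq, abs_lt] at c1 c2
  rw [le_abs] at b2
  rcases b2 with b2 | b2 <;> linarith [c1.1, c1.2, c2.1, c2.2]

lemma pos_mono (ε : Bool) : StrictMono fun ρ => pos (ε, ρ) := strictMono_nat_of_lt_succ fun ρ => by
  have h : idx hh ρ ≤ idx hh (ρ + 1) := by rcases idx_succ ρ with h | h <;> omega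
  have a1 := hh_mono.monotone h
  have a2 := hh_mono.monotone (Nat.succ_le_succ h)
  simp only [Nat.succ_eq_add_one] at a2
  cases ε <;> simp only [pos, if_true, Bool.false_eq_true, if_false] <;> omega

theorem only_zero (π : Equiv.Perm ℕ) (h : ∀ b, Conv b → Conv fun i => b (π i)) {L : ℝ}
    (hL : Tendsto (fun n => ∑ i ∈ range n, a (π i)) atTop (𝓝 L)) : L = 0 := by
  classical
  obtain ⟨C, hC⟩ := bound π h
  set θ : ℕ ≃ Bool × ℕ := π.trans (σ.symm.trans Equiv.boolProdNatEquivNat.symm)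
  have ht : ∀ ε ρ, tm θ ε ρ = π.symm (pos (ε, ρ)) := fun ε ρ => by
    simp only [tm, θ, Equiv.symm_trans_apply, Equiv.symm_symm]
    change π.symm (sg _) = _
    simp [sg]
  refine lim_zero s θ (C := C + C) (fun t x => ?_) osc2 hL
  have key : ∀ ε, ((Ch θ t x).filter (fun p => p.2 = ε)).card ≤ C := by
    intro ε
    have : ∀ p ∈ (Ch θ t x).filter (fun p => p.2 = ε), ∃ n, pos (ε, p.1) ≤ n ∧
        n < pos (ε, p.1 + 1) ∧ ¬(π.symm n < t ↔ π.symm (n + 1) < t) := by
      intro p hp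
      obtain ⟨b1, rfl⟩ := mem_filter.1 hp
      have b2 := ((mem_Ch θ).1 b1).2
      rw [chg, ht, ht] at b2
      by_contra hc
      push Not at hc
      exact b2 (const_of (P := fun n => π.symm n < t) (x := pos (p.2, p.1))
        (y := pos (p.2, p.1 + 1) + 1) (fun n c1 c2 => hc n c1 (by omega)) _
        (pos_mono p.2 (Nat.lt_succ_self _)).le (Nat.lt_succ_self _)).symm
    choose! f f1 f2 f3 using this
    rw [← card_image_of_injOn (f := f) (fun p hp q hq hpq => ?_)]
    · refine hC t _ fun n hn => ?_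
      obtain ⟨p, hp, rfl⟩ := mem_image.1 hn
      exact f3 p hp
    · have a1 := f1 p hp
      have a2 := f2 p hp
      have a3 := f1 q hq
      have a4 := f2 q hq
      have b1 := (pos_mono ε).lt_iff_lt.1 (show pos (ε, p.1) < pos (ε, q.1 + 1) by omega)
      have b2 := (pos_mono ε).lt_iff_lt.1 (show pos (ε, q.1) < pos (ε, p.1 + 1) by omega)
      exact Prod.ext (by omega) ((mem_filter.1 hp).2.trans (mem_filter.1 hq).2.symm)
  have := card_filter_add_card_filter_not (s := Ch θ t x) (fun p => p.2 = true)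
  have k1 := key true
  have k2 := key false
  simp only [Bool.not_eq_true] at this
  omega

end Pool.Agent.H93.Vel
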